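import Pool.Agent.YM.LIM.Keys

set_option linter.unusedVariables false
set_option maxRecDepth 100000

open YMEng

namespace YMLIM

def p5_0_0 : Cov := [(2, 1, 2, [(0, [1], [3, 4]), (0, [1], [3, 4]), (0, [0], [0, 1]), (3, [], [2])]),
  (-2, 1, 2, [(0, [1], [3, 4]), (0, [1], [3, 4]), (0, [0], [1, 2]), (3, [], [0])])]

def c5_0 : Cov := p5_0_0

def p5_1_0 : Cov := [(1, 1, 2, [(0, [1], [3, 4]), (0, [1], [0, 3]), (0, [0], [1, 2]), (3, [], [4])]),
  (-1, 1, 2, [(0, [1], [3, 4]), (0, [1], [2, 3]), (0, [0], [0, 1]), (3, [], [4])])]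

def c5_1 : Cov := p5_1_0

def p5_2_0 : Cov := [(2, 1, 2, [(0, [1], [3, 4]), (0, [1], [0, 1]), (0, [0], [3, 4]), (3, [], [2])]),
  (-2, 1, 2, [(0, [1], [3, 4]), (0, [1], [1, 2]), (0, [0], [3, 4]), (3, [], [0])])]

def c5_2 : Cov := p5_2_0

def p5_3_0 : Cov := [(2, 1, 2, [(0, [1], [3, 4]), (0, [1], [0, 1]), (0, [0], [2, 3]), (3, [], [4])]),
  (-2, 1, 2, [(0, [1], [3, 4]), (0, [1], [1, 2]), (0, [0], [0, 3]), (3, [], [4])])]

def c5_3 : Cov := p5_3_0

def p5_4_0 : Cov := [(1, 1, 2, [(0, [1], [0, 3]), (0, [1], [1, 2]), (0, [0], [3, 4]), (3, [], [4])]),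
  (-1, 1, 2, [(0, [1], [0, 1]), (0, [1], [2, 3]), (0, [0], [3, 4]), (3, [], [4])])]

def c5_4 : Cov := p5_4_0

def p5_5_0 : Cov := [(2, 0, 2, [(0, [0], [3, 4]), (1, [], [3, 4]), (1, [], [0, 1]), (3, [], [2])]),
  (-2, 0, 2, [(0, [0], [3, 4]), (1, [], [3, 4]), (1, [], [1, 2]), (3, [], [0])])]

def c5_5 : Cov := p5_5_0

def p5_6_0 : Cov := [(1, 0, 2, [(0, [0], [3, 4]), (1, [], [0, 3]), (1, [], [1, 2]), (3, [], [4])]),
  (-1, 0, 2, [(0, [0], [3, 4]), (1, [], [0, 1]), (1, [], [2, 3]), (3, [], [4])])]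

def c5_6 : Cov := p5_6_0

def p5_7_0 : Cov := [(1, 0, 2, [(0, [0], [0, 3]), (1, [], [3, 4]), (1, [], [1, 2]), (3, [], [4])]),
  (-1, 0, 2, [(0, [0], [2, 3]), (1, [], [3, 4]), (1, [], [0, 1]), (3, [], [4])])]

def c5_7 : Cov := p5_7_0

def p5_8_0 : Cov := [(1, 0, 2, [(0, [0], [0, 3]), (1, [], [1, 4]), (1, [], [2, 4]), (3, [], [3])]),
  (-1, 0, 2, [(0, [0], [2, 3]), (1, [], [0, 4]), (1, [], [1, 4]), (3, [], [3])])]

def c5_8 : Cov := p5_8_0

def p5_9_0 : Cov := [(2, 0, 2, [(0, [0], [0, 1]), (1, [], [3, 4]), (1, [], [3, 4]), (3, [], [2])]),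
  (-2, 0, 2, [(0, [0], [1, 2]), (1, [], [3, 4]), (1, [], [3, 4]), (3, [], [0])])]

def c5_9 : Cov := p5_9_0

def p5_10_0 : Cov := [(2, 0, 2, [(0, [0], [0, 1]), (1, [], [3, 4]), (1, [], [2, 3]), (3, [], [4])]),
  (-2, 0, 2, [(0, [0], [1, 2]), (1, [], [3, 4]), (1, [], [0, 3]), (3, [], [4])])]

def c5_10 : Cov := p5_10_0

def p5_11_0 : Cov := [(2, 0, 1, [(2, [0], [0, 1, 3]), (1, [], [2, 3])]),
  (-2, 0, 1, [(2, [0], [1, 2, 3]), (1, [], [0, 3])])]

def c5_11 : Cov := p5_11_0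

def p5_12_0 : Cov := [(1, 1, 2, [(0, [1], [0, 3]), (0, [1], [1, 4]), (0, [0], [2, 3]), (3, [], [4])]),
  (1, 1, 2, [(0, [1], [0, 3]), (0, [1], [1, 4]), (0, [0], [2, 4]), (3, [], [3])]),
  (-1, 1, 2, [(0, [1], [1, 3]), (0, [1], [2, 4]), (0, [0], [0, 3]), (3, [], [4])]),
  (-1, 1, 2, [(0, [1], [1, 3]), (0, [1], [2, 4]), (0, [0], [0, 4]), (3, [], [3])])]

def c5_12 : Cov := p5_12_0

def p5_13_0 : Cov := [(-1, 1, 2, [(0, [1], [0, 3]), (0, [1], [1, 4]), (0, [0], [2, 4]), (3, [], [3])]),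
  (1, 1, 2, [(0, [1], [0, 3]), (0, [1], [2, 4]), (0, [0], [1, 3]), (3, [], [4])]),
  (-1, 1, 2, [(0, [1], [0, 3]), (0, [1], [2, 4]), (0, [0], [1, 4]), (3, [], [3])]),
  (1, 1, 2, [(0, [1], [1, 3]), (0, [1], [2, 4]), (0, [0], [0, 3]), (3, [], [4])])]

def c5_13 : Cov := p5_13_0

def p5_14_0 : Cov := [(1, 0, 2, [(0, [0], [0, 3]), (1, [], [1, 3]), (1, [], [2, 4]), (3, [], [4])]),
  (1, 0, 2, [(0, [0], [1, 3]), (1, [], [0, 3]), (1, [], [2, 4]), (3, [], [4])]),
  (-1, 0, 2, [(0, [0], [1, 3]), (1, [], [0, 4]), (1, [], [2, 3]), (3, [], [4])]),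
  (-1, 0, 2, [(0, [0], [2, 3]), (1, [], [0, 4]), (1, [], [1, 3]), (3, [], [4])])]

def c5_14 : Cov := p5_14_0

def p5_15_0 : Cov := [(1, 0, 2, [(0, [0], [0, 3]), (1, [], [1, 4]), (1, [], [2, 3]), (3, [], [4])]),
  (-1, 0, 2, [(0, [0], [1, 3]), (1, [], [0, 3]), (1, [], [2, 4]), (3, [], [4])]),
  (1, 0, 2, [(0, [0], [1, 3]), (1, [], [0, 4]), (1, [], [2, 3]), (3, [], [4])]),
  (-1, 0, 2, [(0, [0], [2, 3]), (1, [], [0, 3]), (1, [], [1, 4]), (3, [], [4])])]

def c5_15 : Cov := p5_15_0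

theorem t5_0_0_0 : chkS keys 1 3 p5_0_0 c5_0
  [(0, 513, 513, 88147506, 40177731), (1, 258, 33, 52495941, 33645891), (1, 258, 33, 52495686, 2188611), (0, 513, 513, 88146726, 6627651)]
  [(0, 8), (1, -8)] = true := by
  decide +kernel

theorem t5_0_1_0 : chkS keys 1 3 p5_0_0 c5_1
  [(2, 513, 513, 105972771, 106037571), (1, 513, 513, 88147506, 40177731), (1, 513, 513, 88146726, 6627651), (2, 513, 513, 105972516, 105914691)]
  [(1, -4), (2, 4)] = true := by
  decide +kernel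

theorem t5_0_2_0 : chkS keys 1 3 p5_0_0 c5_2
  [(139, 513, 513, 105972786, 106041411), (106, 513, 513, 88147491, 40173891), (106, 513, 513, 88146726, 6627651), (139, 513, 513, 105972516, 105914691)]
  [(106, -8), (139, 8)] = true := by
  decide +kernel

theorem t5_0_3_0 : chkS keys 1 3 p5_0_0 c5_3
  [(106, 258, 33, 52495956, 34628931), (105, 258, 33, 52495956, 34628931), (105, 258, 33, 52495446, 1205571), (106, 258, 33, 52495686, 2188611)]
  [(105, -8), (106, 8)] = true := by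
  decide +kernel

theorem t5_0_4_0 : chkS keys 1 3 p5_0_0 c5_4
  [(3, 513, 513, 88147506, 40177731), (106, 258, 33, 102826836, 101721411), (106, 258, 33, 102827331, 102827331), (3, 513, 513, 88146486, 6623811)]
  [(3, 4), (106, -4)] = true := by
  decide +kernel

theorem t5_0_5_0 : chkS keys 1 3 p5_0_0 c5_5
  [(56, 1, 1, 52495461, 16934211), (10, 1, 1, 52495941, 33645891), (10, 1, 1, 52495686, 2188611), (56, 1, 1, 52495956, 34628931)]
  [(10, -8), (56, 8)] = true := by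
  decide +kernel

theorem t5_0_6_0 : chkS keys 1 3 p5_0_0 c5_6
  [(11, 1, 1, 88147506, 40177731), (10, 1, 1, 88147506, 40177731), (10, 1, 1, 88146726, 6627651), (11, 1, 1, 88146486, 6623811)]
  [(10, -4), (11, 4)] = true := by
  decide +kernel

theorem t5_0_7_0 : chkS keys 1 3 p5_0_0 c5_7
  [(46, 1, 1, 52495956, 34628931), (10, 1, 1, 104924466, 103092291), (10, 1, 1, 104923941, 100999491), (46, 1, 1, 52495446, 1205571)]
  [(10, -4), (46, 4)] = true := by
  decide +kernel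

theorem t5_0_8_0 : chkS keys 1 3 p5_0_0 c5_8
  [(8, 1, 1, 88147506, 40177731), (60, 1, 1, 56689746, 85090371), (60, 1, 1, 56689956, 86008131), (8, 1, 1, 88146486, 6623811)]
  [(8, 4), (60, -4)] = true := by
  decide +kernel

theorem t5_0_9_0 : chkS keys 1 3 p5_0_0 c5_9
  [(6, 1, 1, 88147506, 40177731), (9, 1, 1, 105972771, 106037571), (9, 1, 1, 105972516, 105914691), (6, 1, 1, 88146726, 6627651)]
  [(6, 8), (9, -8)] = true := by
  decide +kernel

theorem t5_0_10_0 : chkS keys 1 3 p5_0_0 c5_10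
  [(7, 1, 1, 88147506, 40177731), (8, 1, 1, 105972771, 106037571), (8, 1, 1, 105972516, 105914691), (7, 1, 1, 88146726, 6627651)]
  [(7, 8), (8, -8)] = true := by
  decide +kernel

theorem t5_0_11_0 : chkS keys 1 3 p5_0_0 c5_11
  [(18, 1, 1, 4261170, 2428995), (59, 1, 1, 3212370, 1200195), (59, 1, 1, 3211860, 1069635), (18, 1, 1, 4260645, 336195)]
  [(18, 8), (59, -8)] = true := by
  decide +kernel

theorem t5_0_12_0 : chkS keys 1 3 p5_0_0 c5_12
  [(3, 513, 513, 104924466, 103092291), (3, 513, 513, 73467171, 86376771), (140, 513, 513, 105972771, 106037571), (105, 258, 33, 87098916, 39866691), (105, 258, 33, 102827091, 101844291), (140, 513, 513, 90243876, 90186051), (3, 513, 513, 104923941, 100999491), (3, 513, 513, 73466421, 84283971)]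
  [(3, 8), (105, -4), (140, -4)] = true := by
  decide +kernel

theorem t5_0_13_0 : chkS keys 1 3 p5_0_0 c5_13
  [(3, 513, 513, 73467171, 86376771), (140, 513, 513, 105972786, 106041411), (105, 258, 33, 87098946, 39931971), (140, 513, 513, 105972771, 106037571), (140, 513, 513, 90243876, 90186051), (105, 258, 33, 102827331, 102827331), (140, 513, 513, 90243636, 90182211), (3, 513, 513, 104923941, 100999491)]
  [(3, -4), (105, -4), (140, 8)] = true := by
  decide +kernel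

theorem t5_0_14_0 : chkS keys 1 3 p5_0_0 c5_14
  [(58, 1, 1, 103875621, 100815171), (58, 1, 1, 103875666, 101863491), (46, 1, 1, 55641666, 38887491), (11, 1, 1, 104924451, 103088451), (11, 1, 1, 104923941, 100999491), (46, 1, 1, 102827331, 102827331), (58, 1, 1, 103875156, 101732931), (58, 1, 1, 103875876, 102781251)]
  [(11, -4), (46, -4), (58, 8)] = true := by
  decide +kernel

theorem t5_0_15_0 : chkS keys 1 3 p5_0_0 c5_15
  [(46, 1, 1, 55641636, 38822211), (58, 1, 1, 103875666, 101863491), (46, 1, 1, 55641666, 38887491), (11, 1, 1, 104924466, 103092291), (11, 1, 1, 104923701, 100995651), (46, 1, 1, 102827331, 102827331), (58, 1, 1, 103875156, 101732931), (46, 1, 1, 102827091, 101844291)]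
  [(11, -4), (46, 8), (58, -4)] = true := by
  decide +kernel

theorem t5_1_1_0 : chkS keys 1 3 p5_1_0 c5_1
  [(2, 528, 528, 106176771, 106169121), (107, 513, 513, 104990001, 103093251), (107, 513, 513, 104988981, 100996131), (2, 528, 528, 106177296, 106177296)]
  [(2, 2), (107, -2)] = true := by
  decide +kernel

theorem t5_1_2_0 : chkS keys 1 3 p5_1_0 c5_2
  [(4, 258, 33, 88213041, 40178691), (141, 513, 513, 105972786, 106041411), (141, 513, 513, 105972291, 105972291), (4, 258, 33, 88211766, 6624291)]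
  [(4, 4), (141, -4)] = true := by
  decide +kernel

theorem t5_1_3_0 : chkS keys 1 3 p5_1_0 c5_3
  [(108, 258, 33, 106038321, 106042371), (4, 513, 513, 103941441, 102847491), (4, 513, 513, 103940436, 101733411), (108, 258, 33, 106037556, 105911331)]
  [(4, -4), (108, 4)] = true := by
  decide +kernel

theorem t5_1_4_0 : chkS keys 1 3 p5_1_0 c5_4
  [(4, 258, 33, 103941441, 102847491), (109, 258, 33, 88213041, 40178691), (109, 258, 33, 88211766, 6624291), (4, 258, 33, 103940436, 101733411)]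
  [(4, 2), (109, -2)] = true := by
  decide +kernel

theorem t5_1_5_0 : chkS keys 1 3 p5_1_0 c5_5
  [(14, 1, 1, 106038321, 106042371), (61, 1, 1, 70321746, 35016771), (61, 1, 1, 70320741, 17191491), (14, 1, 1, 106037556, 105911331)]
  [(14, 4), (61, -4)] = true := by
  decide +kernel

theorem t5_1_6_0 : chkS keys 1 3 p5_1_0 c5_6
  [(14, 1, 1, 70387281, 35017731), (49, 1, 1, 88213041, 40178691), (49, 1, 1, 88211766, 6624291), (14, 1, 1, 70386021, 17191971)]
  [(14, 2), (49, -2)] = true := by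
  decide +kernel

theorem t5_1_7_0 : chkS keys 1 3 p5_1_0 c5_7
  [(13, 1, 1, 103941441, 102847491), (48, 1, 1, 106038321, 106042371), (48, 1, 1, 106037556, 105911331), (13, 1, 1, 103940436, 101733411)]
  [(13, 2), (48, -2)] = true := by
  decide +kernel

theorem t5_1_8_0 : chkS keys 1 3 p5_1_0 c5_8
  [(67, 1, 1, 72418146, 22421571), (47, 1, 1, 56755281, 85091331), (47, 1, 1, 56754516, 84960291), (67, 1, 1, 72417846, 5640771)]
  [(47, -2), (67, 2)] = true := by
  decide +kernel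

theorem t5_1_9_0 : chkS keys 1 3 p5_1_0 c5_9
  [(12, 1, 1, 106038321, 106042371), (9, 16, 16, 106111236, 105923361), (9, 16, 16, 106112016, 106054416), (12, 1, 1, 106037556, 105911331)]
  [(9, -4), (12, 4)] = true := by
  decide +kernel

theorem t5_1_10_0 : chkS keys 1 3 p5_1_0 c5_10
  [(63, 1, 1, 104923986, 102047811), (8, 16, 16, 106176771, 106169121), (8, 16, 16, 106177296, 106177296), (63, 1, 1, 104923731, 102040131)]
  [(8, -4), (63, 4)] = true := by
  decide +kernel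

theorem t5_1_11_0 : chkS keys 1 3 p5_1_0 c5_11
  [(66, 1, 1, 4260690, 1384515), (21, 1, 1, 5374785, 5317635), (21, 1, 1, 5374260, 5248035), (66, 1, 1, 4260435, 1376835)]
  [(21, -4), (66, 4)] = true := by
  decide +kernel

theorem t5_1_12_0 : chkS keys 1 3 p5_1_0 c5_12
  [(108, 258, 33, 103941201, 101864451), (142, 513, 513, 105972786, 106041411), (109, 513, 513, 87164001, 23221251), (109, 513, 513, 55707201, 38888451), (109, 513, 513, 87163206, 6378531), (109, 513, 513, 55705956, 22045731), (142, 513, 513, 87097956, 23089731), (108, 258, 33, 56754516, 84960291)]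
  [(108, 2), (109, -4), (142, 2)] = true := by
  decide +kernel

theorem t5_1_13_0 : chkS keys 1 3 p5_1_0 c5_13
  [(142, 513, 513, 105972786, 106041411), (108, 258, 33, 103941441, 102847491), (142, 513, 513, 55641666, 38887491), (109, 513, 513, 87164001, 23221251), (109, 513, 513, 55705956, 22045731), (142, 513, 513, 87097926, 6378051), (108, 258, 33, 56754501, 83977251), (142, 513, 513, 87097956, 23089731)]
  [(108, 2), (109, 2), (142, -4)] = true := by
  decide +kernel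

theorem t5_1_14_0 : chkS keys 1 3 p5_1_0 c5_14
  [(65, 1, 1, 103875906, 102846531), (48, 1, 1, 103941441, 102847491), (64, 1, 1, 104923986, 102047811), (64, 1, 1, 104924466, 103092291), (64, 1, 1, 104923701, 100995651), (64, 1, 1, 104923731, 102040131), (48, 1, 1, 103940421, 100750371), (65, 1, 1, 103875141, 100749891)]
  [(48, 2), (64, -4), (65, 2)] = true := by
  decide +kernel

theorem t5_1_15_0 : chkS keys 1 3 p5_1_0 c5_15
  [(65, 1, 1, 103875666, 101863491), (48, 1, 1, 103941441, 102847491), (64, 1, 1, 104923986, 102047811), (48, 1, 1, 103941201, 101864451), (48, 1, 1, 103940436, 101733411), (64, 1, 1, 104923731, 102040131), (48, 1, 1, 103940421, 100750371), (65, 1, 1, 103875156, 101732931)]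
  [(48, -4), (64, 2), (65, 2)] = true := by
  decide +kernel

theorem t5_2_2_0 : chkS keys 1 3 p5_2_0 c5_2
  [(143, 513, 513, 105972786, 106041411), (116, 513, 513, 88147491, 40173891), (116, 513, 513, 88146726, 6627651), (143, 513, 513, 105972516, 105914691)]
  [(116, -8), (143, 8)] = true := by
  decide +kernel

theorem t5_2_3_0 : chkS keys 1 3 p5_2_0 c5_3
  [(116, 528, 528, 102826836, 101721411), (144, 513, 513, 105972771, 106037571), (144, 513, 513, 105972516, 105914691), (116, 528, 528, 102827331, 102827331)]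
  [(116, 8), (144, -8)] = true := by
  decide +kernel

theorem t5_2_4_0 : chkS keys 1 3 p5_2_0 c5_4
  [(5, 513, 513, 88147506, 40177731), (116, 528, 528, 52495956, 34628931), (116, 528, 528, 52495686, 2188611), (5, 513, 513, 88146486, 6623811)]
  [(5, 4), (116, -4)] = true := by
  decide +kernel

theorem t5_2_5_0 : chkS keys 1 3 p5_2_0 c5_5
  [(68, 1, 1, 106112016, 106054416), (69, 16, 16, 16983126, 1196901), (69, 16, 16, 16983636, 34620261), (68, 1, 1, 106111236, 105923361)]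
  [(68, 8), (69, -8)] = true := by
  decide +kernel

theorem t5_2_6_0 : chkS keys 1 3 p5_2_0 c5_6
  [(79, 16, 16, 16983636, 34620261), (69, 1, 1, 106112016, 106054416), (69, 1, 1, 106111236, 105923361), (79, 16, 16, 16983126, 1196901)]
  [(69, -4), (79, 4)] = true := by
  decide +kernel

theorem t5_2_7_0 : chkS keys 1 3 p5_2_0 c5_7
  [(92, 1, 1, 106112016, 106054416), (69, 1, 1, 72558096, 39207696), (69, 1, 1, 72556806, 5653281), (92, 1, 1, 106110996, 105923346)]
  [(69, -4), (92, 4)] = true := by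
  decide +kernel

theorem t5_2_8_0 : chkS keys 1 3 p5_2_0 c5_8
  [(117, 16, 16, 87098946, 39931971), (145, 1, 1, 105972786, 106041411), (145, 1, 1, 105972516, 105914691), (117, 16, 16, 87097926, 6378051)]
  [(117, 4), (145, -4)] = true := by
  decide +kernel

theorem t5_2_9_0 : chkS keys 1 3 p5_2_0 c5_9
  [(146, 1, 1, 105972786, 106041411), (118, 1, 1, 105972771, 106037571), (118, 1, 1, 105972516, 105914691), (146, 1, 1, 105972516, 105914691)]
  [(118, -8), (146, 8)] = true := by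
  decide +kernel

theorem t5_2_10_0 : chkS keys 1 3 p5_2_0 c5_10
  [(147, 1, 1, 105972786, 106041411), (117, 16, 16, 105972516, 105914691), (117, 16, 16, 105972771, 106037571), (147, 1, 1, 105972516, 105914691)]
  [(117, -8), (147, 8)] = true := by
  decide +kernel

theorem t5_2_11_0 : chkS keys 1 3 p5_2_0 c5_11
  [(148, 1, 1, 5309490, 5378115), (149, 1, 1, 5309475, 5374275), (149, 1, 1, 5309220, 5251395), (148, 1, 1, 5309220, 5251395)]
  [(148, 8), (149, -8)] = true := by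
  decide +kernel

theorem t5_2_12_0 : chkS keys 1 3 p5_2_0 c5_12
  [(5, 513, 513, 104924466, 103092291), (5, 513, 513, 73467171, 86376771), (150, 513, 513, 105972771, 106037571), (144, 513, 513, 88147491, 40173891), (144, 513, 513, 72418086, 5644611), (150, 513, 513, 90243876, 90186051), (5, 513, 513, 104923941, 100999491), (5, 513, 513, 73466421, 84283971)]
  [(5, 8), (144, -4), (150, -4)] = true := by
  decide +kernel

theorem t5_2_13_0 : chkS keys 1 3 p5_2_0 c5_13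
  [(5, 513, 513, 73467171, 86376771), (150, 513, 513, 105972786, 106041411), (144, 513, 513, 88147506, 40177731), (150, 513, 513, 105972771, 106037571), (150, 513, 513, 90243876, 90186051), (144, 513, 513, 72417846, 5640771), (150, 513, 513, 90243636, 90182211), (5, 513, 513, 104923941, 100999491)]
  [(5, -4), (144, -4), (150, 8)] = true := by
  decide +kernel

theorem t5_2_14_0 : chkS keys 1 3 p5_2_0 c5_14
  [(151, 1, 1, 105972786, 106041411), (151, 1, 1, 105972771, 106037571), (92, 1, 1, 72558081, 39207681), (79, 16, 16, 100868421, 100746021), (79, 16, 16, 100869441, 102843141), (92, 1, 1, 72556806, 5653281), (151, 1, 1, 105972516, 105914691), (151, 1, 1, 105972276, 105910851)]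
  [(79, -4), (92, -4), (151, 8)] = true := by
  decide +kernel

theorem t5_2_15_0 : chkS keys 1 3 p5_2_0 c5_15
  [(92, 1, 1, 72558096, 39207696), (151, 1, 1, 105972771, 106037571), (92, 1, 1, 72558081, 39207681), (79, 16, 16, 100868436, 101729061), (79, 16, 16, 100869201, 101860101), (92, 1, 1, 72556806, 5653281), (151, 1, 1, 105972516, 105914691), (92, 1, 1, 72556566, 5653266)]
  [(79, -4), (92, 8), (151, -4)] = true := by
  decide +kernel

theorem t5_3_3_0 : chkS keys 1 3 p5_3_0 c5_3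
  [(111, 528, 528, 102961236, 101729586), (152, 513, 513, 105972771, 106037571), (152, 513, 513, 105972516, 105914691), (111, 528, 528, 102962496, 102843696)]
  [(111, 8), (152, -8)] = true := by
  decide +kernel

theorem t5_3_4_0 : chkS keys 1 3 p5_3_0 c5_4
  [(153, 513, 513, 105972786, 106041411), (5, 18, 18, 104153616, 105075216), (5, 18, 18, 104153346, 105074721), (153, 513, 513, 105972276, 105910851)]
  [(5, -4), (153, 4)] = true := by
  decide +kernel

theorem t5_3_5_0 : chkS keys 1 3 p5_3_0 c5_5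
  [(54, 1, 1, 88286736, 40190736), (70, 16, 16, 17048406, 1319781), (70, 16, 16, 17049171, 34866021), (54, 1, 1, 88285446, 6636321)]
  [(54, 8), (70, -8)] = true := by
  decide +kernel

theorem t5_3_6_0 : chkS keys 1 3 p5_3_0 c5_6
  [(83, 16, 16, 17113956, 20980581), (17, 16, 16, 52691301, 17065251), (17, 16, 16, 52692561, 34891011), (83, 16, 16, 17114211, 21103461)]
  [(17, -4), (83, 4)] = true := by
  decide +kernel

theorem t5_3_7_0 : chkS keys 1 3 p5_3_0 c5_7
  [(95, 16, 16, 68559696, 68559696), (51, 16, 16, 51781716, 68182866), (51, 16, 16, 51782976, 69296976), (95, 16, 16, 68558931, 68551506)]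
  [(51, -4), (95, 4)] = true := by
  decide +kernel

theorem t5_3_8_0 : chkS keys 1 3 p5_3_0 c5_8
  [(103, 1, 1, 72558096, 39207696), (67, 16, 16, 68493366, 4592466), (67, 16, 16, 68494176, 21373776), (103, 1, 1, 72556566, 5653266)]
  [(67, -4), (103, 4)] = true := by
  decide +kernel

theorem t5_3_9_0 : chkS keys 1 3 p5_3_0 c5_9
  [(118, 1, 1, 106112016, 106054416), (114, 16, 16, 106106916, 105922866), (114, 16, 16, 106107936, 106053936), (118, 1, 1, 106111236, 105923361)]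
  [(114, -8), (118, 8)] = true := by
  decide +kernel

theorem t5_3_10_0 : chkS keys 1 3 p5_3_0 c5_10
  [(117, 1, 1, 106112016, 106054416), (89, 16, 16, 70656261, 67523361), (89, 16, 16, 70657281, 69620481), (117, 1, 1, 106111236, 105923361)]
  [(89, -8), (117, 8)] = true := by
  decide +kernel

theorem t5_3_11_0 : chkS keys 1 3 p5_3_0 c5_11
  [(26, 1, 1, 5309490, 5378115), (100, 16, 16, 3408165, 282915), (100, 16, 16, 3409185, 2380035), (26, 1, 1, 5309220, 5251395)]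
  [(26, 8), (100, -8)] = true := by
  decide +kernel

theorem t5_3_12_0 : chkS keys 1 3 p5_3_0 c5_12
  [(112, 528, 528, 86184006, 6374706), (112, 528, 528, 38998116, 22038066), (154, 513, 513, 105972771, 106037571), (153, 18, 18, 51794436, 70279761), (153, 18, 18, 20337666, 70406241), (154, 513, 513, 90243876, 90186051), (112, 528, 528, 86185056, 23217456), (112, 528, 528, 38999616, 38880816)]
  [(112, 8), (153, -4), (154, -4)] = true := by
  decide +kernel

theorem t5_3_13_0 : chkS keys 1 3 p5_3_0 c5_13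
  [(112, 528, 528, 38998116, 22038066), (154, 513, 513, 105972786, 106041411), (153, 18, 18, 51794496, 70345296), (154, 513, 513, 105972771, 106037571), (154, 513, 513, 90243876, 90186051), (153, 18, 18, 20336706, 70340706), (154, 513, 513, 90243636, 90182211), (112, 528, 528, 86185056, 23217456)]
  [(112, -4), (153, -4), (154, 8)] = true := by
  decide +kernel

theorem t5_3_14_0 : chkS keys 1 3 p5_3_0 c5_14
  [(96, 16, 16, 70582626, 21385251), (96, 16, 16, 70582566, 4608291), (155, 1, 1, 105972771, 106037571), (91, 16, 16, 69534051, 21366051), (91, 16, 16, 69534561, 21374211), (155, 1, 1, 105972516, 105914691), (96, 16, 16, 70583841, 38162691), (96, 16, 16, 70582881, 21385731)]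
  [(91, -4), (96, 8), (155, -4)] = true := by
  decide +kernel

theorem t5_3_15_0 : chkS keys 1 3 p5_3_0 c5_15
  [(155, 1, 1, 105972786, 106041411), (96, 16, 16, 70582566, 4608291), (155, 1, 1, 105972771, 106037571), (91, 16, 16, 69534006, 4592931), (91, 16, 16, 69535281, 38147331), (155, 1, 1, 105972516, 105914691), (96, 16, 16, 70583841, 38162691), (155, 1, 1, 105972276, 105910851)]
  [(91, -4), (96, -4), (155, 8)] = true := by
  decide +kernel

theorem t5_4_4_0 : chkS keys 1 3 p5_4_0 c5_4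
  [(144, 258, 33, 106176771, 106169121), (156, 513, 513, 106173216, 106176816), (156, 513, 513, 106172451, 106168626), (144, 258, 33, 106177296, 106177296)]
  [(144, 2), (156, -2)] = true := by
  decide +kernel

theorem t5_4_5_0 : chkS keys 1 3 p5_4_0 c5_5
  [(17, 1, 1, 106169121, 106176771), (54, 1, 1, 88482051, 73728801), (54, 1, 1, 88482576, 73736976), (17, 1, 1, 106168611, 106168611)]
  [(17, 4), (54, -4)] = true := by
  decide +kernel

theorem t5_4_6_0 : chkS keys 1 3 p5_4_0 c5_6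
  [(70, 1, 1, 106176771, 106169121), (157, 1, 1, 106173216, 106176816), (157, 1, 1, 106172451, 106168626), (70, 1, 1, 106177296, 106177296)]
  [(70, 2), (157, -2)] = true := by
  decide +kernel

theorem t5_4_7_0 : chkS keys 1 3 p5_4_0 c5_7
  [(16, 1, 1, 105190176, 105193776), (155, 16, 16, 103875156, 101732931), (155, 16, 16, 103875666, 101863491), (16, 1, 1, 105189426, 105189426)]
  [(16, 2), (155, -2)] = true := by
  decide +kernel

theorem t5_4_8_0 : chkS keys 1 3 p5_4_0 c5_8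
  [(158, 1, 1, 106173216, 106176816), (159, 1, 1, 106172976, 106172976), (159, 1, 1, 105194241, 105194241), (158, 1, 1, 106172466, 106172466)]
  [(158, 2), (159, -2)] = true := by
  decide +kernel

theorem t5_4_9_0 : chkS keys 1 3 p5_4_0 c5_9
  [(15, 1, 1, 106173216, 106176816), (118, 1, 1, 106176771, 106169121), (118, 1, 1, 106177296, 106177296), (15, 1, 1, 106172451, 106168626)]
  [(15, 4), (118, -4)] = true := by
  decide +kernel

theorem t5_4_10_0 : chkS keys 1 3 p5_4_0 c5_10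
  [(121, 16, 16, 105972771, 106037571), (117, 16, 16, 106111236, 105923361), (117, 16, 16, 106112016, 106054416), (121, 16, 16, 105972516, 105914691)]
  [(117, -4), (121, 4)] = true := by
  decide +kernel

theorem t5_4_11_0 : chkS keys 1 3 p5_4_0 c5_11
  [(160, 1, 1, 5509920, 5513520), (25, 1, 1, 5505825, 5513475), (25, 1, 1, 5505330, 5509155), (160, 1, 1, 5509155, 5505330)]
  [(25, -4), (160, 4)] = true := by
  decide +kernel

theorem t5_4_12_0 : chkS keys 1 3 p5_4_0 c5_12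
  [(152, 528, 528, 102826836, 101721411), (154, 528, 528, 39912276, 84944451), (120, 528, 528, 86049891, 23201091), (120, 528, 528, 38864451, 38864451), (120, 528, 528, 86049606, 6366531), (120, 528, 528, 38863716, 22029891), (154, 528, 528, 102827091, 101844291), (152, 528, 528, 39912531, 85067331)]
  [(120, -4), (152, 2), (154, 2)] = true := by
  decide +kernel

theorem t5_4_13_0 : chkS keys 1 3 p5_4_0 c5_13
  [(154, 528, 528, 39912276, 84944451), (152, 528, 528, 102827316, 102765891), (154, 528, 528, 39912756, 85988931), (120, 528, 528, 86049891, 23201091), (120, 528, 528, 38863716, 22029891), (154, 528, 528, 102827061, 100799811), (152, 528, 528, 39912501, 84022851), (154, 528, 528, 102827091, 101844291)]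
  [(120, 2), (152, 2), (154, -4)] = true := by
  decide +kernel

theorem t5_4_14_0 : chkS keys 1 3 p5_4_0 c5_14
  [(97, 1, 1, 72757506, 72757281), (95, 1, 1, 72753411, 72745761), (96, 1, 1, 73728801, 88482051), (96, 1, 1, 73728561, 88478211), (96, 1, 1, 73728306, 88477731), (96, 1, 1, 73728291, 88473891), (95, 1, 1, 72753921, 72753921), (97, 1, 1, 72757761, 72757761)]
  [(95, 2), (96, -4), (97, 2)] = true := by
  decide +kernel

theorem t5_4_15_0 : chkS keys 1 3 p5_4_0 c5_15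
  [(97, 1, 1, 72757266, 72757266), (95, 1, 1, 72753411, 72745761), (96, 1, 1, 73728801, 88482051), (95, 1, 1, 72753171, 72745746), (95, 1, 1, 72753936, 72753936), (96, 1, 1, 73728291, 88473891), (95, 1, 1, 72753921, 72753921), (97, 1, 1, 72757776, 72757776)]
  [(95, -4), (96, 2), (97, 2)] = true := by
  decide +kernel

theorem t5_5_5_0 : chkS keys 1 3 p5_5_0 c5_5
  [(161, 0, 0, 105972786, 106041411), (122, 0, 0, 88147491, 40173891), (122, 0, 0, 88146726, 6627651), (161, 0, 0, 105972516, 105914691)]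
  [(122, -8), (161, 8)] = true := by
  decide +kernel

theorem t5_5_6_0 : chkS keys 1 3 p5_5_0 c5_6
  [(124, 0, 0, 88146726, 6627651), (42, 0, 0, 52495461, 16934211), (42, 0, 0, 52495956, 34628931), (124, 0, 0, 88147491, 40173891)]
  [(42, -4), (124, 4)] = true := by
  decide +kernel

theorem t5_5_7_0 : chkS keys 1 3 p5_5_0 c5_7
  [(123, 0, 0, 104923941, 100999491), (42, 0, 0, 69272421, 17179971), (42, 0, 0, 69273171, 34997571), (123, 0, 0, 104924451, 103088451)]
  [(42, -4), (123, 4)] = true := by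
  decide +kernel

theorem t5_5_8_0 : chkS keys 1 3 p5_5_0 c5_8
  [(124, 0, 0, 38863716, 22029891), (162, 0, 0, 105972786, 106041411), (162, 0, 0, 105972516, 105914691), (124, 0, 0, 38863971, 22152771)]
  [(124, 4), (162, -4)] = true := by
  decide +kernel

theorem t5_5_9_0 : chkS keys 1 3 p5_5_0 c5_9
  [(161, 0, 0, 52495461, 16934211), (42, 0, 0, 105972516, 105914691), (42, 0, 0, 105972771, 106037571), (161, 0, 0, 52495956, 34628931)]
  [(42, -8), (161, 8)] = true := by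
  decide +kernel

theorem t5_5_10_0 : chkS keys 1 3 p5_5_0 c5_10
  [(122, 0, 0, 52495956, 34628931), (124, 0, 0, 52495686, 2188611), (124, 0, 0, 52495941, 33645891), (122, 0, 0, 52495686, 2188611)]
  [(122, 8), (124, -8)] = true := by
  decide +kernel

theorem t5_5_11_0 : chkS keys 1 3 p5_5_0 c5_11
  [(125, 0, 0, 2163525, 75075), (163, 0, 0, 5309475, 5374275), (163, 0, 0, 5309220, 5251395), (125, 0, 0, 2163795, 1180995)]
  [(125, 8), (163, -8)] = true := by
  decide +kernel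

theorem t5_5_12_0 : chkS keys 1 3 p5_5_0 c5_12
  [(17, 1, 1, 50746401, 70410501), (17, 1, 1, 3560466, 70406166), (73, 16, 16, 102827091, 101844291), (70, 16, 16, 39912531, 85067331), (70, 16, 16, 102826836, 101721411), (73, 16, 16, 39912276, 84944451), (17, 1, 1, 50745876, 70279701), (17, 1, 1, 3559716, 70275366)]
  [(17, 8), (70, -4), (73, -4)] = true := by
  decide +kernel

theorem t5_5_13_0 : chkS keys 1 3 p5_5_0 c5_13
  [(17, 1, 1, 3560466, 70406166), (73, 16, 16, 102827061, 100799811), (70, 16, 16, 39912501, 84022851), (73, 16, 16, 102827091, 101844291), (73, 16, 16, 39912276, 84944451), (70, 16, 16, 102827316, 102765891), (73, 16, 16, 39912756, 85988931), (17, 1, 1, 50745876, 70279701)]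
  [(17, -4), (70, -4), (73, 8)] = true := by
  decide +kernel

theorem t5_5_14_0 : chkS keys 1 3 p5_5_0 c5_14
  [(164, 0, 0, 105972786, 106041411), (164, 0, 0, 105972771, 106037571), (123, 0, 0, 54593106, 34955331), (124, 0, 0, 54592866, 19226691), (124, 0, 0, 54592101, 17130051), (123, 0, 0, 54592086, 1401411), (164, 0, 0, 105972516, 105914691), (164, 0, 0, 105972276, 105910851)]
  [(123, -4), (124, -4), (164, 8)] = true := by
  decide +kernel

theorem t5_5_15_0 : chkS keys 1 3 p5_5_0 c5_15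
  [(123, 0, 0, 54593061, 33907011), (164, 0, 0, 105972771, 106037571), (123, 0, 0, 54593106, 34955331), (124, 0, 0, 54592806, 2449731), (124, 0, 0, 54593061, 33907011), (123, 0, 0, 54592086, 1401411), (164, 0, 0, 105972516, 105914691), (123, 0, 0, 54592806, 2449731)]
  [(123, 8), (124, -4), (164, -4)] = true := by
  decide +kernel

theorem t5_6_6_0 : chkS keys 1 3 p5_6_0 c5_6
  [(133, 0, 0, 70321746, 35016771), (131, 0, 0, 88147506, 40177731), (131, 0, 0, 88146486, 6623811), (133, 0, 0, 70320741, 17191491)]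
  [(131, -2), (133, 2)] = true := by
  decide +kernel

theorem t5_6_7_0 : chkS keys 1 3 p5_6_0 c5_7
  [(129, 0, 0, 33830481, 34878981), (127, 0, 0, 33898806, 4396581), (127, 0, 0, 33900081, 37950981), (129, 0, 0, 33829221, 17053221)]
  [(127, -2), (129, 2)] = true := by
  decide +kernel

theorem t5_6_8_0 : chkS keys 1 3 p5_6_0 c5_8
  [(165, 0, 0, 105972786, 106041411), (131, 0, 0, 55641186, 22175811), (131, 0, 0, 55640676, 22045251), (165, 0, 0, 105972291, 105972291)]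
  [(131, -2), (165, 2)] = true := by
  decide +kernel

theorem t5_6_9_0 : chkS keys 1 3 p5_6_0 c5_9
  [(129, 0, 0, 106181121, 106181121), (42, 0, 0, 106111236, 105923361), (42, 0, 0, 106112016, 106054416), (129, 0, 0, 106180866, 106180641)]
  [(42, -4), (129, 4)] = true := by
  decide +kernel

theorem t5_6_10_0 : chkS keys 1 3 p5_6_0 c5_10
  [(166, 0, 0, 105972786, 106041411), (124, 0, 0, 52773126, 4416801), (124, 0, 0, 52774416, 37971216), (166, 0, 0, 105972276, 105910851)]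
  [(124, -4), (166, 4)] = true := by
  decide +kernel

theorem t5_6_11_0 : chkS keys 1 3 p5_6_0 c5_11
  [(167, 0, 0, 5309490, 5378115), (134, 0, 0, 3212610, 2183235), (134, 0, 0, 3211860, 1069635), (167, 0, 0, 5308980, 5247555)]
  [(134, -4), (167, 4)] = true := by
  decide +kernel

theorem t5_6_12_0 : chkS keys 1 3 p5_6_0 c5_12
  [(75, 16, 16, 102826836, 101721411), (82, 16, 16, 39912276, 84944451), (55, 16, 16, 86049891, 23201091), (55, 16, 16, 38864451, 38864451), (55, 16, 16, 86049606, 6366531), (55, 16, 16, 38863716, 22029891), (82, 16, 16, 102827091, 101844291), (75, 16, 16, 39912531, 85067331)]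
  [(55, -4), (75, 2), (82, 2)] = true := by
  decide +kernel

theorem t5_6_13_0 : chkS keys 1 3 p5_6_0 c5_13
  [(82, 16, 16, 39912276, 84944451), (75, 16, 16, 102827316, 102765891), (82, 16, 16, 39912756, 85988931), (55, 16, 16, 86049891, 23201091), (55, 16, 16, 38863716, 22029891), (82, 16, 16, 102827061, 100799811), (75, 16, 16, 39912501, 84022851), (82, 16, 16, 102827091, 101844291)]
  [(55, 2), (75, 2), (82, -4)] = true := by
  decide +kernel

theorem t5_6_14_0 : chkS keys 1 3 p5_6_0 c5_14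
  [(166, 0, 0, 103875906, 102846531), (132, 0, 0, 103875906, 102846531), (168, 0, 0, 105972786, 106041411), (168, 0, 0, 103875906, 102846531), (168, 0, 0, 103875141, 100749891), (168, 0, 0, 103875156, 101732931), (132, 0, 0, 103875141, 100749891), (166, 0, 0, 103875141, 100749891)]
  [(132, 2), (166, 2), (168, -4)] = true := by
  decide +kernel

theorem t5_6_15_0 : chkS keys 1 3 p5_6_0 c5_15
  [(166, 0, 0, 103875666, 101863491), (132, 0, 0, 103875906, 102846531), (168, 0, 0, 105972786, 106041411), (132, 0, 0, 103875666, 101863491), (132, 0, 0, 103875156, 101732931), (168, 0, 0, 103875156, 101732931), (132, 0, 0, 103875141, 100749891), (166, 0, 0, 103875156, 101732931)]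
  [(132, -4), (166, 2), (168, 2)] = true := by
  decide +kernel

theorem t5_7_7_0 : chkS keys 1 3 p5_7_0 c5_7
  [(169, 0, 0, 106042416, 106042416), (126, 0, 0, 104990001, 103093251), (126, 0, 0, 104988981, 100996131), (169, 0, 0, 106041411, 105972786)]
  [(126, -2), (169, 2)] = true := by
  decide +kernel

theorem t5_7_8_0 : chkS keys 1 3 p5_7_0 c5_8
  [(170, 0, 0, 106042416, 106042416), (127, 0, 0, 55706721, 22176771), (127, 0, 0, 55705956, 22045731), (170, 0, 0, 106041411, 105972786)]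
  [(127, -2), (170, 2)] = true := by
  decide +kernel

theorem t5_7_9_0 : chkS keys 1 3 p5_7_0 c5_9
  [(169, 0, 0, 70391376, 35017776), (42, 0, 0, 106176771, 106169121), (42, 0, 0, 106177296, 106177296), (169, 0, 0, 70389846, 1463346)]
  [(42, -4), (169, 4)] = true := by
  decide +kernel

theorem t5_7_10_0 : chkS keys 1 3 p5_7_0 c5_10
  [(171, 0, 0, 106042416, 106042416), (123, 0, 0, 52838661, 67331361), (123, 0, 0, 52839696, 69428496), (171, 0, 0, 106041396, 105911346)]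
  [(123, -4), (171, 4)] = true := by
  decide +kernel

theorem t5_7_11_0 : chkS keys 1 3 p5_7_0 c5_11
  [(172, 0, 0, 5379120, 5379120), (130, 0, 0, 3278145, 2184195), (130, 0, 0, 3277140, 1070115), (172, 0, 0, 5378100, 5248050)]
  [(130, -4), (172, 4)] = true := by
  decide +kernel

theorem t5_7_12_0 : chkS keys 1 3 p5_7_0 c5_12
  [(78, 1, 1, 20337666, 70406241), (96, 16, 16, 39064416, 22292016), (52, 16, 16, 86185056, 23217456), (52, 16, 16, 38999616, 38880816), (52, 16, 16, 86184006, 6374706), (52, 16, 16, 38998116, 22038066), (96, 16, 16, 86249571, 23332146), (78, 1, 1, 51794436, 70279761)]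
  [(52, -4), (78, 2), (96, 2)] = true := by
  decide +kernel

theorem t5_7_13_0 : chkS keys 1 3 p5_7_0 c5_13
  [(96, 16, 16, 39064416, 22292016), (78, 1, 1, 20336706, 70340706), (96, 16, 16, 39065136, 39065136), (52, 16, 16, 86185056, 23217456), (52, 16, 16, 38998116, 22038066), (96, 16, 16, 86249526, 6559026), (78, 1, 1, 51794496, 70345296), (96, 16, 16, 86249571, 23332146)]
  [(52, 2), (78, 2), (96, -4)] = true := by
  decide +kernel

theorem t5_7_14_0 : chkS keys 1 3 p5_7_0 c5_14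
  [(171, 0, 0, 103945536, 102847536), (128, 0, 0, 103941441, 102847491), (173, 0, 0, 106042416, 106042416), (173, 0, 0, 103945536, 102847536), (173, 0, 0, 103944261, 100750386), (173, 0, 0, 103944276, 101733426), (128, 0, 0, 103940421, 100750371), (171, 0, 0, 103944261, 100750386)]
  [(128, 2), (171, 2), (173, -4)] = true := by
  decide +kernel

theorem t5_7_15_0 : chkS keys 1 3 p5_7_0 c5_15
  [(171, 0, 0, 103945296, 101864496), (128, 0, 0, 103941441, 102847491), (173, 0, 0, 106042416, 106042416), (128, 0, 0, 103941201, 101864451), (128, 0, 0, 103940436, 101733411), (173, 0, 0, 103944276, 101733426), (128, 0, 0, 103940421, 100750371), (171, 0, 0, 103944276, 101733426)]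
  [(128, -4), (171, 2), (173, 2)] = true := by
  decide +kernel

theorem t5_8_8_0 : chkS keys 1 3 p5_8_0 c5_8
  [(174, 0, 0, 106107936, 106053936), (131, 0, 0, 39195696, 72488496), (131, 0, 0, 39194676, 72357426), (174, 0, 0, 106106946, 105988146)]
  [(131, -2), (174, 2)] = true := by
  decide +kernel

theorem t5_8_9_0 : chkS keys 1 3 p5_8_0 c5_9
  [(136, 0, 0, 106054416, 106112016), (175, 0, 0, 106107936, 106053936), (175, 0, 0, 106106946, 105988146), (136, 0, 0, 106053651, 106103826)]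
  [(136, 4), (175, -4)] = true := by
  decide +kernel

theorem t5_8_10_0 : chkS keys 1 3 p5_8_0 c5_10
  [(176, 0, 0, 106107936, 106053936), (168, 0, 0, 103027536, 101983536), (168, 0, 0, 103026741, 100930866), (176, 0, 0, 106106916, 105922866)]
  [(168, -4), (176, 4)] = true := by
  decide +kernel

theorem t5_8_11_0 : chkS keys 1 3 p5_8_0 c5_11
  [(177, 0, 0, 5444640, 5390640), (167, 0, 0, 2364240, 1320240), (167, 0, 0, 2363445, 267570), (177, 0, 0, 5443620, 5259570)]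
  [(167, -4), (177, 4)] = true := by
  decide +kernel

theorem t5_8_12_0 : chkS keys 1 3 p5_8_0 c5_12
  [(81, 1, 1, 19162371, 52692321), (102, 1, 1, 3433746, 52711446), (62, 16, 16, 103028016, 103028016), (62, 16, 16, 40112976, 85206576), (62, 16, 16, 103026771, 101975346), (62, 16, 16, 40112181, 84153906), (102, 1, 1, 50618901, 50618901), (81, 1, 1, 34890501, 50603601)]
  [(62, -4), (81, 2), (102, 2)] = true := by
  decide +kernel

theorem t5_8_13_0 : chkS keys 1 3 p5_8_0 c5_13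
  [(102, 1, 1, 3433746, 52711446), (81, 1, 1, 19161171, 51643746), (102, 1, 1, 3432786, 51662886), (62, 16, 16, 103028016, 103028016), (62, 16, 16, 40112181, 84153906), (102, 1, 1, 50618961, 51667461), (81, 1, 1, 34890576, 51652176), (102, 1, 1, 50618901, 50618901)]
  [(62, 2), (81, 2), (102, -4)] = true := by
  decide +kernel

theorem t5_8_14_0 : chkS keys 1 3 p5_8_0 c5_14
  [(176, 0, 0, 103028016, 103028016), (166, 0, 0, 103028016, 103028016), (178, 0, 0, 106107936, 106053936), (178, 0, 0, 106107456, 105988656), (178, 0, 0, 106106946, 105988146), (178, 0, 0, 106106916, 105922866), (166, 0, 0, 103026741, 100930866), (176, 0, 0, 103026741, 100930866)]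
  [(166, 2), (176, 2), (178, -4)] = true := by
  decide +kernel

theorem t5_8_15_0 : chkS keys 1 3 p5_8_0 c5_15
  [(176, 0, 0, 103027536, 101983536), (166, 0, 0, 103028016, 103028016), (178, 0, 0, 106107936, 106053936), (166, 0, 0, 103027536, 101983536), (166, 0, 0, 103026771, 101975346), (178, 0, 0, 106106916, 105922866), (166, 0, 0, 103026741, 100930866), (176, 0, 0, 103026771, 101975346)]
  [(166, -4), (176, 2), (178, 2)] = true := by
  decide +kernel

theorem t5_9_9_0 : chkS keys 1 3 p5_9_0 c5_9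
  [(39, 0, 0, 88286736, 40190736), (41, 0, 0, 106181121, 106181121), (41, 0, 0, 106180866, 106180641), (39, 0, 0, 88285446, 6636321)]
  [(39, 8), (41, -8)] = true := by
  decide +kernel

theorem t5_9_10_0 : chkS keys 1 3 p5_9_0 c5_10
  [(40, 0, 0, 88286736, 40190736), (136, 0, 0, 52843521, 70411521), (136, 0, 0, 52842756, 70280481), (40, 0, 0, 88285446, 6636321)]
  [(40, 8), (136, -8)] = true := by
  decide +kernel

theorem t5_9_11_0 : chkS keys 1 3 p5_9_0 c5_11
  [(43, 0, 0, 2442000, 4400400), (179, 0, 0, 5448705, 5391105), (179, 0, 0, 5447940, 5260065), (43, 0, 0, 2441475, 4392225)]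
  [(43, 8), (179, -8)] = true := by
  decide +kernel

theorem t5_9_12_0 : chkS keys 1 3 p5_9_0 c5_12
  [(15, 16, 16, 69620496, 70657296), (15, 16, 16, 38163201, 70592001), (180, 16, 16, 106112001, 106054401), (114, 16, 16, 37114896, 70407696), (114, 16, 16, 52842516, 70280466), (180, 16, 16, 90382596, 90194721), (15, 16, 16, 69619971, 70649121), (15, 16, 16, 38162451, 70583826)]
  [(15, 8), (114, -4), (180, -4)] = true := by
  decide +kernel

theorem t5_9_13_0 : chkS keys 1 3 p5_9_0 c5_13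
  [(15, 16, 16, 38163201, 70592001), (180, 16, 16, 106112016, 106054416), (114, 16, 16, 37114881, 70407681), (180, 16, 16, 106112001, 106054401), (180, 16, 16, 90382596, 90194721), (114, 16, 16, 52842756, 70280481), (180, 16, 16, 90382356, 90194706), (15, 16, 16, 69619971, 70649121)]
  [(15, -4), (114, -4), (180, 8)] = true := by
  decide +kernel

theorem t5_9_14_0 : chkS keys 1 3 p5_9_0 c5_14
  [(181, 0, 0, 106112016, 106054416), (181, 0, 0, 106112001, 106054401), (169, 0, 0, 39073281, 39073281), (129, 0, 0, 37114896, 70407696), (129, 0, 0, 37113876, 70276626), (169, 0, 0, 39072006, 5518881), (181, 0, 0, 106111236, 105923361), (181, 0, 0, 106110996, 105923346)]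
  [(129, -4), (169, -4), (181, 8)] = true := by
  decide +kernel

theorem t5_9_15_0 : chkS keys 1 3 p5_9_0 c5_15
  [(169, 0, 0, 39073296, 39073296), (181, 0, 0, 106112001, 106054401), (169, 0, 0, 39073281, 39073281), (129, 0, 0, 37114881, 70407681), (129, 0, 0, 37114116, 70276641), (169, 0, 0, 39072006, 5518881), (181, 0, 0, 106111236, 105923361), (169, 0, 0, 39071766, 5518866)]
  [(129, -4), (169, 8), (181, -4)] = true := by
  decide +kernel

theorem t5_10_10_0 : chkS keys 1 3 p5_10_0 c5_10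
  [(182, 0, 0, 106112016, 106054416), (135, 0, 0, 52843521, 70411521), (135, 0, 0, 52842756, 70280481), (182, 0, 0, 106111236, 105923361)]
  [(135, -8), (182, 8)] = true := by
  decide +kernel

theorem t5_10_11_0 : chkS keys 1 3 p5_10_0 c5_11
  [(183, 0, 0, 5448720, 5391120), (184, 0, 0, 5448705, 5391105), (184, 0, 0, 5447940, 5260065), (183, 0, 0, 5447940, 5260065)]
  [(183, 8), (184, -8)] = true := by
  decide +kernel

theorem t5_10_12_0 : chkS keys 1 3 p5_10_0 c5_12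
  [(121, 1, 1, 19289091, 70387041), (121, 1, 1, 35017776, 70391376), (76, 1, 1, 20332581, 67326306), (89, 16, 16, 6567201, 86257926), (89, 16, 16, 100938021, 100938021), (76, 1, 1, 51791136, 69427536), (121, 1, 1, 19288116, 70260066), (121, 1, 1, 35017476, 70264401)]
  [(76, -4), (89, -4), (121, 8)] = true := by
  decide +kernel

theorem t5_10_13_0 : chkS keys 1 3 p5_10_0 c5_13
  [(121, 1, 1, 35017776, 70391376), (76, 1, 1, 20332626, 68374626), (89, 16, 16, 6567186, 86257686), (76, 1, 1, 20332581, 67326306), (76, 1, 1, 51791136, 69427536), (89, 16, 16, 100938261, 100938261), (76, 1, 1, 51790416, 68379216), (121, 1, 1, 19288116, 70260066)]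
  [(76, 8), (89, -4), (121, -4)] = true := by
  decide +kernel

theorem t5_10_14_0 : chkS keys 1 3 p5_10_0 c5_14
  [(185, 0, 0, 106112016, 106054416), (185, 0, 0, 106112001, 106054401), (171, 0, 0, 37114881, 70407681), (128, 0, 0, 37114896, 70407696), (128, 0, 0, 37113876, 70276626), (171, 0, 0, 37114116, 70276641), (185, 0, 0, 106111236, 105923361), (185, 0, 0, 106110996, 105923346)]
  [(128, -4), (171, -4), (185, 8)] = true := by
  decide +kernel

theorem t5_10_15_0 : chkS keys 1 3 p5_10_0 c5_15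
  [(171, 0, 0, 37114896, 70407696), (185, 0, 0, 106112001, 106054401), (171, 0, 0, 37114881, 70407681), (128, 0, 0, 37114881, 70407681), (128, 0, 0, 37114116, 70276641), (171, 0, 0, 37114116, 70276641), (185, 0, 0, 106111236, 105923361), (171, 0, 0, 37113876, 70276626)]
  [(128, -4), (171, 8), (185, -4)] = true := by
  decide +kernel

theorem t5_11_11_0 : chkS keys 1 3 p5_11_0 c5_11
  [(186, 0, 0, 271120, 271120), (187, 0, 0, 201730, 147505), (187, 0, 0, 201220, 16945), (186, 0, 0, 270595, 262945)]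
  [(186, 8), (187, -8)] = true := by
  decide +kernel

theorem t5_11_12_0 : chkS keys 1 3 p5_11_0 c5_12
  [(188, 16, 16, 5514000, 5514000), (188, 16, 16, 4530945, 4530945), (80, 1, 1, 1196085, 201810), (99, 16, 16, 341025, 4337925), (99, 16, 16, 5255460, 5255460), (80, 1, 1, 2180400, 2299200), (188, 16, 16, 5513475, 5505825), (188, 16, 16, 4530195, 4522770)]
  [(80, -4), (99, -4), (188, 8)] = true := by
  decide +kernel

theorem t5_11_13_0 : chkS keys 1 3 p5_11_0 c5_13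
  [(188, 16, 16, 4530945, 4530945), (80, 1, 1, 1196115, 1246290), (99, 16, 16, 341010, 4337685), (80, 1, 1, 1196085, 201810), (80, 1, 1, 2180400, 2299200), (99, 16, 16, 5255700, 5255700), (80, 1, 1, 2179920, 1254720), (188, 16, 16, 5513475, 5505825)]
  [(80, 8), (99, -4), (188, -4)] = true := by
  decide +kernel

theorem t5_11_14_0 : chkS keys 1 3 p5_11_0 c5_14
  [(184, 0, 0, 3228240, 1266240), (184, 0, 0, 3228165, 217665), (189, 0, 0, 5513985, 5513985), (190, 0, 0, 5440545, 5390595), (190, 0, 0, 5513475, 5505825), (189, 0, 0, 5513475, 5505825), (184, 0, 0, 3228930, 2314305), (184, 0, 0, 3227730, 1265730)]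
  [(184, 8), (189, -4), (190, -4)] = true := by
  decide +kernel

theorem t5_11_15_0 : chkS keys 1 3 p5_11_0 c5_15
  [(189, 0, 0, 5514000, 5514000), (184, 0, 0, 3228165, 217665), (189, 0, 0, 5513985, 5513985), (190, 0, 0, 5514000, 5514000), (190, 0, 0, 5440020, 5259795), (189, 0, 0, 5513475, 5505825), (184, 0, 0, 3228930, 2314305), (189, 0, 0, 5513235, 5505810)]
  [(184, -4), (189, 8), (190, -4)] = true := by
  decide +kernel

theorem t5_12_12_0 : chkS keys 1 3 p5_12_0 c5_12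
  [(191, 513, 513, 106107936, 106053936), (192, 513, 513, 106107936, 106053936), (153, 258, 33, 104932611, 103088961), (193, 513, 513, 106107936, 106053936), (192, 513, 513, 90256386, 90320961), (191, 513, 513, 90256386, 90320961), (152, 513, 513, 105059616, 103104816), (153, 18, 18, 34890501, 50603601), (153, 18, 18, 19285251, 69404001), (152, 513, 513, 73478181, 84291906), (191, 513, 513, 106107396, 105923121), (192, 513, 513, 106107396, 105923121), (193, 513, 513, 90255396, 90190146), (153, 258, 33, 73536261, 84288561), (192, 513, 513, 90255396, 90190146), (191, 513, 513, 90255396, 90190146)]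
  [(152, -2), (153, -4), (191, 4), (192, 4), (193, -2)] = true := by
  decide +kernel

theorem t5_12_13_0 : chkS keys 1 3 p5_12_0 c5_13
  [(192, 513, 513, 106107936, 106053936), (152, 513, 513, 104936706, 103100481), (153, 18, 18, 35013456, 68363856), (153, 258, 33, 104932611, 103088961), (191, 513, 513, 90256386, 90320961), (153, 258, 33, 104994096, 103093296), (193, 513, 513, 105985026, 106049601), (152, 513, 513, 105059616, 103104816), (152, 513, 513, 73478181, 84291906), (193, 513, 513, 90378756, 90194481), (153, 258, 33, 73474101, 84284226), (191, 513, 513, 106107396, 105923121), (153, 258, 33, 73536261, 84288561), (153, 18, 18, 19161171, 51643746), (152, 513, 513, 73601541, 84296241), (192, 513, 513, 90255396, 90190146)]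
  [(152, 4), (153, 2), (191, -2), (192, -2), (193, -2)] = true := by
  decide +kernel

theorem t5_12_14_0 : chkS keys 1 3 p5_12_0 c5_14
  [(78, 1, 1, 104932611, 103088961), (95, 16, 16, 70648101, 67522851), (155, 1, 1, 104932611, 103088961), (77, 1, 1, 104932611, 103088961), (95, 16, 16, 70279506, 51793956), (78, 1, 1, 104994096, 103093296), (194, 1, 1, 105985026, 106049601), (90, 16, 16, 69230931, 51774756), (90, 16, 16, 69600081, 68560131), (194, 1, 1, 106107396, 105923121), (78, 1, 1, 104931381, 100995906), (95, 16, 16, 70648401, 68571651), (77, 1, 1, 104993541, 101000241), (155, 1, 1, 104993541, 101000241), (95, 16, 16, 70280481, 52842756), (78, 1, 1, 104993541, 101000241)]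
  [(77, -2), (78, 4), (90, -2), (95, 4), (155, -2), (194, -2)] = true := by
  decide +kernel

theorem t5_12_15_0 : chkS keys 1 3 p5_12_0 c5_15
  [(194, 1, 1, 106107936, 106053936), (95, 16, 16, 70648101, 67522851), (155, 1, 1, 104932611, 103088961), (90, 16, 16, 69599541, 67507491), (155, 1, 1, 104994096, 103093296), (78, 1, 1, 104994096, 103093296), (194, 1, 1, 105985026, 106049601), (77, 1, 1, 104994096, 103093296), (77, 1, 1, 104931381, 100995906), (194, 1, 1, 106107396, 105923121), (78, 1, 1, 104931381, 100995906), (155, 1, 1, 104931381, 100995906), (90, 16, 16, 69231921, 52827396), (155, 1, 1, 104993541, 101000241), (95, 16, 16, 70280481, 52842756), (194, 1, 1, 105984036, 105918786)]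
  [(77, -2), (78, -2), (90, -2), (95, -2), (155, 4), (194, 4)] = true := by
  decide +kernel

theorem t5_13_13_0 : chkS keys 1 3 p5_13_0 c5_13
  [(191, 513, 513, 90256386, 90320961), (153, 258, 33, 104994096, 103093296), (193, 513, 513, 105985026, 106049601), (152, 513, 513, 105059616, 103104816), (153, 18, 18, 35013936, 69408336), (191, 513, 513, 106107456, 105988656), (192, 513, 513, 106107456, 105988656), (193, 513, 513, 90378816, 90260016), (193, 513, 513, 105984066, 105984066), (192, 513, 513, 90255426, 90255426), (191, 513, 513, 90255426, 90255426), (153, 18, 18, 19161141, 50599266), (152, 513, 513, 73478181, 84291906), (193, 513, 513, 90378756, 90194481), (153, 258, 33, 73474101, 84284226), (191, 513, 513, 106107396, 105923121)]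
  [(152, -2), (153, -4), (191, 4), (192, -2), (193, 4)] = true := by
  decide +kernel

theorem t5_13_14_0 : chkS keys 1 3 p5_13_0 c5_14
  [(95, 16, 16, 70279506, 51793956), (78, 1, 1, 104994096, 103093296), (194, 1, 1, 105985026, 106049601), (90, 16, 16, 69230931, 51774756), (194, 1, 1, 106107456, 105988656), (90, 16, 16, 69600021, 67511571), (77, 1, 1, 104931411, 102040386), (155, 1, 1, 104931411, 102040386), (155, 1, 1, 104993616, 102048816), (77, 1, 1, 104993616, 102048816), (90, 16, 16, 69231891, 52823316), (194, 1, 1, 105984066, 105984066), (90, 16, 16, 69600081, 68560131), (194, 1, 1, 106107396, 105923121), (78, 1, 1, 104931381, 100995906), (95, 16, 16, 70648401, 68571651)]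
  [(77, -2), (78, -2), (90, 4), (95, -2), (155, -2), (194, 4)] = true := by
  decide +kernel

theorem t5_13_15_0 : chkS keys 1 3 p5_13_0 c5_15
  [(155, 1, 1, 104994096, 103093296), (78, 1, 1, 104994096, 103093296), (194, 1, 1, 105985026, 106049601), (77, 1, 1, 104994096, 103093296), (78, 1, 1, 104931411, 102040386), (90, 16, 16, 69600021, 67511571), (77, 1, 1, 104931411, 102040386), (95, 16, 16, 70648341, 67523091), (95, 16, 16, 70280466, 52842516), (77, 1, 1, 104993616, 102048816), (90, 16, 16, 69231891, 52823316), (78, 1, 1, 104993616, 102048816), (77, 1, 1, 104931381, 100995906), (194, 1, 1, 106107396, 105923121), (78, 1, 1, 104931381, 100995906), (155, 1, 1, 104931381, 100995906)]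
  [(77, 4), (78, 4), (90, -2), (95, -2), (155, -2), (194, -2)] = true := by
  decide +kernel

theorem t5_14_14_0 : chkS keys 1 3 p5_14_0 c5_14
  [(195, 0, 0, 106173216, 106176816), (196, 0, 0, 106173216, 106176816), (128, 0, 0, 38147376, 69539376), (126, 0, 0, 39195696, 72488496), (196, 0, 0, 106173186, 106176561), (195, 0, 0, 106173186, 106176561), (135, 0, 0, 54924546, 69558321), (128, 0, 0, 101859381, 100865106), (128, 0, 0, 101860656, 102962256), (135, 0, 0, 54923781, 67461681), (195, 0, 0, 106172931, 106168881), (196, 0, 0, 106172931, 106168881), (126, 0, 0, 39194676, 72357426), (128, 0, 0, 38146101, 67442226), (196, 0, 0, 106172451, 106168626), (195, 0, 0, 106172451, 106168626)]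
  [(126, -2), (128, -4), (135, -2), (195, 4), (196, 4)] = true := by
  decide +kernel

theorem t5_14_15_0 : chkS keys 1 3 p5_14_0 c5_15
  [(135, 0, 0, 54924576, 69558576), (196, 0, 0, 106173216, 106176816), (128, 0, 0, 38147376, 69539376), (128, 0, 0, 101859411, 101909586), (128, 0, 0, 38147331, 69535281), (195, 0, 0, 106173186, 106176561), (135, 0, 0, 54924546, 69558321), (126, 0, 0, 39195651, 72484401), (126, 0, 0, 39195396, 72361521), (135, 0, 0, 54923781, 67461681), (195, 0, 0, 106172931, 106168881), (128, 0, 0, 38146821, 67446321), (128, 0, 0, 101860176, 101917776), (128, 0, 0, 38146101, 67442226), (196, 0, 0, 106172451, 106168626), (135, 0, 0, 54923301, 67461426)]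
  [(126, -2), (128, 2), (135, 4), (195, -2), (196, -2)] = true := by
  decide +kernel

theorem t5_15_15_0 : chkS keys 1 3 p5_15_0 c5_15
  [(195, 0, 0, 106172976, 106172976), (128, 0, 0, 101860611, 102958161), (126, 0, 0, 39195456, 72427056), (196, 0, 0, 106172976, 106172976), (128, 0, 0, 38147331, 69535281), (195, 0, 0, 106173186, 106176561), (135, 0, 0, 54924546, 69558321), (126, 0, 0, 39195651, 72484401), (126, 0, 0, 39195396, 72361521), (135, 0, 0, 54923781, 67461681), (195, 0, 0, 106172931, 106168881), (128, 0, 0, 38146821, 67446321), (196, 0, 0, 106172466, 106172466), (126, 0, 0, 39194691, 72418866), (128, 0, 0, 101860101, 100869201), (195, 0, 0, 106172466, 106172466)]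
  [(126, 4), (128, -4), (135, -2), (195, 4), (196, -2)] = true := by
  decide +kernel

section

variable {κ ι : Type*} [Fintype κ] [Fintype ι] [Inhabited κ] [Inhabited ι]

def r5_0_0 : List (ℕ × ℤ) := [(0, 8), (1, -8)]

theorem h5_0_0 (E : Env κ ι) : inn E 1 3 c5_0 c5_0 = dotS (ek E keys) r5_0_0 :=
  innS_eqZ E _ _ _ _ _ _ _ (chkS_sound E keys 1 3 _ _ _ _ t5_0_0_0) (by decide +kernel)

def r5_0_1 : List (ℕ × ℤ) := [(1, -4), (2, 4)]

theorem h5_0_1 (E : Env κ ι) : inn E 1 3 c5_0 c5_1 = dotS (ek E keys) r5_0_1 :=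
  innS_eqZ E _ _ _ _ _ _ _ (chkS_sound E keys 1 3 _ _ _ _ t5_0_1_0) (by decide +kernel)

def r5_0_2 : List (ℕ × ℤ) := [(106, -8), (139, 8)]

theorem h5_0_2 (E : Env κ ι) : inn E 1 3 c5_0 c5_2 = dotS (ek E keys) r5_0_2 :=
  innS_eqZ E _ _ _ _ _ _ _ (chkS_sound E keys 1 3 _ _ _ _ t5_0_2_0) (by decide +kernel)

def r5_0_3 : List (ℕ × ℤ) := [(105, -8), (106, 8)]

theorem h5_0_3 (E : Env κ ι) : inn E 1 3 c5_0 c5_3 = dotS (ek E keys) r5_0_3 :=
  innS_eqZ E _ _ _ _ _ _ _ (chkS_sound E keys 1 3 _ _ _ _ t5_0_3_0) (by decide +kernel)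

def r5_0_4 : List (ℕ × ℤ) := [(3, 4), (106, -4)]

theorem h5_0_4 (E : Env κ ι) : inn E 1 3 c5_0 c5_4 = dotS (ek E keys) r5_0_4 :=
  innS_eqZ E _ _ _ _ _ _ _ (chkS_sound E keys 1 3 _ _ _ _ t5_0_4_0) (by decide +kernel)

def r5_0_5 : List (ℕ × ℤ) := [(10, -8), (56, 8)]

theorem h5_0_5 (E : Env κ ι) : inn E 1 3 c5_0 c5_5 = dotS (ek E keys) r5_0_5 :=
  innS_eqZ E _ _ _ _ _ _ _ (chkS_sound E keys 1 3 _ _ _ _ t5_0_5_0) (by decide +kernel)

def r5_0_6 : List (ℕ × ℤ) := [(10, -4), (11, 4)]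

theorem h5_0_6 (E : Env κ ι) : inn E 1 3 c5_0 c5_6 = dotS (ek E keys) r5_0_6 :=
  innS_eqZ E _ _ _ _ _ _ _ (chkS_sound E keys 1 3 _ _ _ _ t5_0_6_0) (by decide +kernel)

def r5_0_7 : List (ℕ × ℤ) := [(10, -4), (46, 4)]

theorem h5_0_7 (E : Env κ ι) : inn E 1 3 c5_0 c5_7 = dotS (ek E keys) r5_0_7 :=
  innS_eqZ E _ _ _ _ _ _ _ (chkS_sound E keys 1 3 _ _ _ _ t5_0_7_0) (by decide +kernel)

def r5_0_8 : List (ℕ × ℤ) := [(8, 4), (60, -4)]

theorem h5_0_8 (E : Env κ ι) : inn E 1 3 c5_0 c5_8 = dotS (ek E keys) r5_0_8 :=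
  innS_eqZ E _ _ _ _ _ _ _ (chkS_sound E keys 1 3 _ _ _ _ t5_0_8_0) (by decide +kernel)

def r5_0_9 : List (ℕ × ℤ) := [(6, 8), (9, -8)]

theorem h5_0_9 (E : Env κ ι) : inn E 1 3 c5_0 c5_9 = dotS (ek E keys) r5_0_9 :=
  innS_eqZ E _ _ _ _ _ _ _ (chkS_sound E keys 1 3 _ _ _ _ t5_0_9_0) (by decide +kernel)

def r5_0_10 : List (ℕ × ℤ) := [(7, 8), (8, -8)]

theorem h5_0_10 (E : Env κ ι) : inn E 1 3 c5_0 c5_10 = dotS (ek E keys) r5_0_10 :=
  innS_eqZ E _ _ _ _ _ _ _ (chkS_sound E keys 1 3 _ _ _ _ t5_0_10_0) (by decide +kernel)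

def r5_0_11 : List (ℕ × ℤ) := [(18, 8), (59, -8)]

theorem h5_0_11 (E : Env κ ι) : inn E 1 3 c5_0 c5_11 = dotS (ek E keys) r5_0_11 :=
  innS_eqZ E _ _ _ _ _ _ _ (chkS_sound E keys 1 3 _ _ _ _ t5_0_11_0) (by decide +kernel)

def r5_0_12 : List (ℕ × ℤ) := [(3, 8), (105, -4), (140, -4)]

theorem h5_0_12 (E : Env κ ι) : inn E 1 3 c5_0 c5_12 = dotS (ek E keys) r5_0_12 :=
  innS_eqZ E _ _ _ _ _ _ _ (chkS_sound E keys 1 3 _ _ _ _ t5_0_12_0) (by decide +kernel)

def r5_0_13 : List (ℕ × ℤ) := [(3, -4), (105, -4), (140, 8)]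

theorem h5_0_13 (E : Env κ ι) : inn E 1 3 c5_0 c5_13 = dotS (ek E keys) r5_0_13 :=
  innS_eqZ E _ _ _ _ _ _ _ (chkS_sound E keys 1 3 _ _ _ _ t5_0_13_0) (by decide +kernel)

def r5_0_14 : List (ℕ × ℤ) := [(11, -4), (46, -4), (58, 8)]

theorem h5_0_14 (E : Env κ ι) : inn E 1 3 c5_0 c5_14 = dotS (ek E keys) r5_0_14 :=
  innS_eqZ E _ _ _ _ _ _ _ (chkS_sound E keys 1 3 _ _ _ _ t5_0_14_0) (by decide +kernel)

def r5_0_15 : List (ℕ × ℤ) := [(11, -4), (46, 8), (58, -4)]

theorem h5_0_15 (E : Env κ ι) : inn E 1 3 c5_0 c5_15 = dotS (ek E keys) r5_0_15 :=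
  innS_eqZ E _ _ _ _ _ _ _ (chkS_sound E keys 1 3 _ _ _ _ t5_0_15_0) (by decide +kernel)

def r5_1_1 : List (ℕ × ℤ) := [(2, 2), (107, -2)]

theorem h5_1_1 (E : Env κ ι) : inn E 1 3 c5_1 c5_1 = dotS (ek E keys) r5_1_1 :=
  innS_eqZ E _ _ _ _ _ _ _ (chkS_sound E keys 1 3 _ _ _ _ t5_1_1_0) (by decide +kernel)

def r5_1_2 : List (ℕ × ℤ) := [(4, 4), (141, -4)]

theorem h5_1_2 (E : Env κ ι) : inn E 1 3 c5_1 c5_2 = dotS (ek E keys) r5_1_2 :=
  innS_eqZ E _ _ _ _ _ _ _ (chkS_sound E keys 1 3 _ _ _ _ t5_1_2_0) (by decide +kernel)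

def r5_1_3 : List (ℕ × ℤ) := [(4, -4), (108, 4)]

theorem h5_1_3 (E : Env κ ι) : inn E 1 3 c5_1 c5_3 = dotS (ek E keys) r5_1_3 :=
  innS_eqZ E _ _ _ _ _ _ _ (chkS_sound E keys 1 3 _ _ _ _ t5_1_3_0) (by decide +kernel)

def r5_1_4 : List (ℕ × ℤ) := [(4, 2), (109, -2)]

theorem h5_1_4 (E : Env κ ι) : inn E 1 3 c5_1 c5_4 = dotS (ek E keys) r5_1_4 :=
  innS_eqZ E _ _ _ _ _ _ _ (chkS_sound E keys 1 3 _ _ _ _ t5_1_4_0) (by decide +kernel)

def r5_1_5 : List (ℕ × ℤ) := [(14, 4), (61, -4)]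

theorem h5_1_5 (E : Env κ ι) : inn E 1 3 c5_1 c5_5 = dotS (ek E keys) r5_1_5 :=
  innS_eqZ E _ _ _ _ _ _ _ (chkS_sound E keys 1 3 _ _ _ _ t5_1_5_0) (by decide +kernel)

def r5_1_6 : List (ℕ × ℤ) := [(14, 2), (49, -2)]

theorem h5_1_6 (E : Env κ ι) : inn E 1 3 c5_1 c5_6 = dotS (ek E keys) r5_1_6 :=
  innS_eqZ E _ _ _ _ _ _ _ (chkS_sound E keys 1 3 _ _ _ _ t5_1_6_0) (by decide +kernel)

def r5_1_7 : List (ℕ × ℤ) := [(13, 2), (48, -2)]

theorem h5_1_7 (E : Env κ ι) : inn E 1 3 c5_1 c5_7 = dotS (ek E keys) r5_1_7 :=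
  innS_eqZ E _ _ _ _ _ _ _ (chkS_sound E keys 1 3 _ _ _ _ t5_1_7_0) (by decide +kernel)

def r5_1_8 : List (ℕ × ℤ) := [(47, -2), (67, 2)]

theorem h5_1_8 (E : Env κ ι) : inn E 1 3 c5_1 c5_8 = dotS (ek E keys) r5_1_8 :=
  innS_eqZ E _ _ _ _ _ _ _ (chkS_sound E keys 1 3 _ _ _ _ t5_1_8_0) (by decide +kernel)

def r5_1_9 : List (ℕ × ℤ) := [(9, -4), (12, 4)]

theorem h5_1_9 (E : Env κ ι) : inn E 1 3 c5_1 c5_9 = dotS (ek E keys) r5_1_9 :=
  innS_eqZ E _ _ _ _ _ _ _ (chkS_sound E keys 1 3 _ _ _ _ t5_1_9_0) (by decide +kernel)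

def r5_1_10 : List (ℕ × ℤ) := [(8, -4), (63, 4)]

theorem h5_1_10 (E : Env κ ι) : inn E 1 3 c5_1 c5_10 = dotS (ek E keys) r5_1_10 :=
  innS_eqZ E _ _ _ _ _ _ _ (chkS_sound E keys 1 3 _ _ _ _ t5_1_10_0) (by decide +kernel)

def r5_1_11 : List (ℕ × ℤ) := [(21, -4), (66, 4)]

theorem h5_1_11 (E : Env κ ι) : inn E 1 3 c5_1 c5_11 = dotS (ek E keys) r5_1_11 :=
  innS_eqZ E _ _ _ _ _ _ _ (chkS_sound E keys 1 3 _ _ _ _ t5_1_11_0) (by decide +kernel)

def r5_1_12 : List (ℕ × ℤ) := [(108, 2), (109, -4), (142, 2)]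

theorem h5_1_12 (E : Env κ ι) : inn E 1 3 c5_1 c5_12 = dotS (ek E keys) r5_1_12 :=
  innS_eqZ E _ _ _ _ _ _ _ (chkS_sound E keys 1 3 _ _ _ _ t5_1_12_0) (by decide +kernel)

def r5_1_13 : List (ℕ × ℤ) := [(108, 2), (109, 2), (142, -4)]

theorem h5_1_13 (E : Env κ ι) : inn E 1 3 c5_1 c5_13 = dotS (ek E keys) r5_1_13 :=
  innS_eqZ E _ _ _ _ _ _ _ (chkS_sound E keys 1 3 _ _ _ _ t5_1_13_0) (by decide +kernel)

def r5_1_14 : List (ℕ × ℤ) := [(48, 2), (64, -4), (65, 2)]

theorem h5_1_14 (E : Env κ ι) : inn E 1 3 c5_1 c5_14 = dotS (ek E keys) r5_1_14 :=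
  innS_eqZ E _ _ _ _ _ _ _ (chkS_sound E keys 1 3 _ _ _ _ t5_1_14_0) (by decide +kernel)

def r5_1_15 : List (ℕ × ℤ) := [(48, -4), (64, 2), (65, 2)]

theorem h5_1_15 (E : Env κ ι) : inn E 1 3 c5_1 c5_15 = dotS (ek E keys) r5_1_15 :=
  innS_eqZ E _ _ _ _ _ _ _ (chkS_sound E keys 1 3 _ _ _ _ t5_1_15_0) (by decide +kernel)

def r5_2_2 : List (ℕ × ℤ) := [(116, -8), (143, 8)]

theorem h5_2_2 (E : Env κ ι) : inn E 1 3 c5_2 c5_2 = dotS (ek E keys) r5_2_2 :=
  innS_eqZ E _ _ _ _ _ _ _ (chkS_sound E keys 1 3 _ _ _ _ t5_2_2_0) (by decide +kernel)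

def r5_2_3 : List (ℕ × ℤ) := [(116, 8), (144, -8)]

theorem h5_2_3 (E : Env κ ι) : inn E 1 3 c5_2 c5_3 = dotS (ek E keys) r5_2_3 :=
  innS_eqZ E _ _ _ _ _ _ _ (chkS_sound E keys 1 3 _ _ _ _ t5_2_3_0) (by decide +kernel)

def r5_2_4 : List (ℕ × ℤ) := [(5, 4), (116, -4)]

theorem h5_2_4 (E : Env κ ι) : inn E 1 3 c5_2 c5_4 = dotS (ek E keys) r5_2_4 :=
  innS_eqZ E _ _ _ _ _ _ _ (chkS_sound E keys 1 3 _ _ _ _ t5_2_4_0) (by decide +kernel)

def r5_2_5 : List (ℕ × ℤ) := [(68, 8), (69, -8)]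

theorem h5_2_5 (E : Env κ ι) : inn E 1 3 c5_2 c5_5 = dotS (ek E keys) r5_2_5 :=
  innS_eqZ E _ _ _ _ _ _ _ (chkS_sound E keys 1 3 _ _ _ _ t5_2_5_0) (by decide +kernel)

def r5_2_6 : List (ℕ × ℤ) := [(69, -4), (79, 4)]

theorem h5_2_6 (E : Env κ ι) : inn E 1 3 c5_2 c5_6 = dotS (ek E keys) r5_2_6 :=
  innS_eqZ E _ _ _ _ _ _ _ (chkS_sound E keys 1 3 _ _ _ _ t5_2_6_0) (by decide +kernel)

def r5_2_7 : List (ℕ × ℤ) := [(69, -4), (92, 4)]

theorem h5_2_7 (E : Env κ ι) : inn E 1 3 c5_2 c5_7 = dotS (ek E keys) r5_2_7 :=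
  innS_eqZ E _ _ _ _ _ _ _ (chkS_sound E keys 1 3 _ _ _ _ t5_2_7_0) (by decide +kernel)

def r5_2_8 : List (ℕ × ℤ) := [(117, 4), (145, -4)]

theorem h5_2_8 (E : Env κ ι) : inn E 1 3 c5_2 c5_8 = dotS (ek E keys) r5_2_8 :=
  innS_eqZ E _ _ _ _ _ _ _ (chkS_sound E keys 1 3 _ _ _ _ t5_2_8_0) (by decide +kernel)

def r5_2_9 : List (ℕ × ℤ) := [(118, -8), (146, 8)]

theorem h5_2_9 (E : Env κ ι) : inn E 1 3 c5_2 c5_9 = dotS (ek E keys) r5_2_9 :=
  innS_eqZ E _ _ _ _ _ _ _ (chkS_sound E keys 1 3 _ _ _ _ t5_2_9_0) (by decide +kernel)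

def r5_2_10 : List (ℕ × ℤ) := [(117, -8), (147, 8)]

theorem h5_2_10 (E : Env κ ι) : inn E 1 3 c5_2 c5_10 = dotS (ek E keys) r5_2_10 :=
  innS_eqZ E _ _ _ _ _ _ _ (chkS_sound E keys 1 3 _ _ _ _ t5_2_10_0) (by decide +kernel)

def r5_2_11 : List (ℕ × ℤ) := [(148, 8), (149, -8)]

theorem h5_2_11 (E : Env κ ι) : inn E 1 3 c5_2 c5_11 = dotS (ek E keys) r5_2_11 :=
  innS_eqZ E _ _ _ _ _ _ _ (chkS_sound E keys 1 3 _ _ _ _ t5_2_11_0) (by decide +kernel)

def r5_2_12 : List (ℕ × ℤ) := [(5, 8), (144, -4), (150, -4)]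

theorem h5_2_12 (E : Env κ ι) : inn E 1 3 c5_2 c5_12 = dotS (ek E keys) r5_2_12 :=
  innS_eqZ E _ _ _ _ _ _ _ (chkS_sound E keys 1 3 _ _ _ _ t5_2_12_0) (by decide +kernel)

def r5_2_13 : List (ℕ × ℤ) := [(5, -4), (144, -4), (150, 8)]

theorem h5_2_13 (E : Env κ ι) : inn E 1 3 c5_2 c5_13 = dotS (ek E keys) r5_2_13 :=
  innS_eqZ E _ _ _ _ _ _ _ (chkS_sound E keys 1 3 _ _ _ _ t5_2_13_0) (by decide +kernel)

def r5_2_14 : List (ℕ × ℤ) := [(79, -4), (92, -4), (151, 8)]

theorem h5_2_14 (E : Env κ ι) : inn E 1 3 c5_2 c5_14 = dotS (ek E keys) r5_2_14 :=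
  innS_eqZ E _ _ _ _ _ _ _ (chkS_sound E keys 1 3 _ _ _ _ t5_2_14_0) (by decide +kernel)

def r5_2_15 : List (ℕ × ℤ) := [(79, -4), (92, 8), (151, -4)]

theorem h5_2_15 (E : Env κ ι) : inn E 1 3 c5_2 c5_15 = dotS (ek E keys) r5_2_15 :=
  innS_eqZ E _ _ _ _ _ _ _ (chkS_sound E keys 1 3 _ _ _ _ t5_2_15_0) (by decide +kernel)

def r5_3_3 : List (ℕ × ℤ) := [(111, 8), (152, -8)]

theorem h5_3_3 (E : Env κ ι) : inn E 1 3 c5_3 c5_3 = dotS (ek E keys) r5_3_3 :=
  innS_eqZ E _ _ _ _ _ _ _ (chkS_sound E keys 1 3 _ _ _ _ t5_3_3_0) (by decide +kernel)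

def r5_3_4 : List (ℕ × ℤ) := [(5, -4), (153, 4)]

theorem h5_3_4 (E : Env κ ι) : inn E 1 3 c5_3 c5_4 = dotS (ek E keys) r5_3_4 :=
  innS_eqZ E _ _ _ _ _ _ _ (chkS_sound E keys 1 3 _ _ _ _ t5_3_4_0) (by decide +kernel)

def r5_3_5 : List (ℕ × ℤ) := [(54, 8), (70, -8)]

theorem h5_3_5 (E : Env κ ι) : inn E 1 3 c5_3 c5_5 = dotS (ek E keys) r5_3_5 :=
  innS_eqZ E _ _ _ _ _ _ _ (chkS_sound E keys 1 3 _ _ _ _ t5_3_5_0) (by decide +kernel)

def r5_3_6 : List (ℕ × ℤ) := [(17, -4), (83, 4)]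

theorem h5_3_6 (E : Env κ ι) : inn E 1 3 c5_3 c5_6 = dotS (ek E keys) r5_3_6 :=
  innS_eqZ E _ _ _ _ _ _ _ (chkS_sound E keys 1 3 _ _ _ _ t5_3_6_0) (by decide +kernel)

def r5_3_7 : List (ℕ × ℤ) := [(51, -4), (95, 4)]

theorem h5_3_7 (E : Env κ ι) : inn E 1 3 c5_3 c5_7 = dotS (ek E keys) r5_3_7 :=
  innS_eqZ E _ _ _ _ _ _ _ (chkS_sound E keys 1 3 _ _ _ _ t5_3_7_0) (by decide +kernel)

def r5_3_8 : List (ℕ × ℤ) := [(67, -4), (103, 4)]

theorem h5_3_8 (E : Env κ ι) : inn E 1 3 c5_3 c5_8 = dotS (ek E keys) r5_3_8 :=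
  innS_eqZ E _ _ _ _ _ _ _ (chkS_sound E keys 1 3 _ _ _ _ t5_3_8_0) (by decide +kernel)

def r5_3_9 : List (ℕ × ℤ) := [(114, -8), (118, 8)]

theorem h5_3_9 (E : Env κ ι) : inn E 1 3 c5_3 c5_9 = dotS (ek E keys) r5_3_9 :=
  innS_eqZ E _ _ _ _ _ _ _ (chkS_sound E keys 1 3 _ _ _ _ t5_3_9_0) (by decide +kernel)

def r5_3_10 : List (ℕ × ℤ) := [(89, -8), (117, 8)]

theorem h5_3_10 (E : Env κ ι) : inn E 1 3 c5_3 c5_10 = dotS (ek E keys) r5_3_10 :=
  innS_eqZ E _ _ _ _ _ _ _ (chkS_sound E keys 1 3 _ _ _ _ t5_3_10_0) (by decide +kernel)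

def r5_3_11 : List (ℕ × ℤ) := [(26, 8), (100, -8)]

theorem h5_3_11 (E : Env κ ι) : inn E 1 3 c5_3 c5_11 = dotS (ek E keys) r5_3_11 :=
  innS_eqZ E _ _ _ _ _ _ _ (chkS_sound E keys 1 3 _ _ _ _ t5_3_11_0) (by decide +kernel)

def r5_3_12 : List (ℕ × ℤ) := [(112, 8), (153, -4), (154, -4)]

theorem h5_3_12 (E : Env κ ι) : inn E 1 3 c5_3 c5_12 = dotS (ek E keys) r5_3_12 :=
  innS_eqZ E _ _ _ _ _ _ _ (chkS_sound E keys 1 3 _ _ _ _ t5_3_12_0) (by decide +kernel)

def r5_3_13 : List (ℕ × ℤ) := [(112, -4), (153, -4), (154, 8)]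

theorem h5_3_13 (E : Env κ ι) : inn E 1 3 c5_3 c5_13 = dotS (ek E keys) r5_3_13 :=
  innS_eqZ E _ _ _ _ _ _ _ (chkS_sound E keys 1 3 _ _ _ _ t5_3_13_0) (by decide +kernel)

def r5_3_14 : List (ℕ × ℤ) := [(91, -4), (96, 8), (155, -4)]

theorem h5_3_14 (E : Env κ ι) : inn E 1 3 c5_3 c5_14 = dotS (ek E keys) r5_3_14 :=
  innS_eqZ E _ _ _ _ _ _ _ (chkS_sound E keys 1 3 _ _ _ _ t5_3_14_0) (by decide +kernel)

def r5_3_15 : List (ℕ × ℤ) := [(91, -4), (96, -4), (155, 8)]

theorem h5_3_15 (E : Env κ ι) : inn E 1 3 c5_3 c5_15 = dotS (ek E keys) r5_3_15 :=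
  innS_eqZ E _ _ _ _ _ _ _ (chkS_sound E keys 1 3 _ _ _ _ t5_3_15_0) (by decide +kernel)

def r5_4_4 : List (ℕ × ℤ) := [(144, 2), (156, -2)]

theorem h5_4_4 (E : Env κ ι) : inn E 1 3 c5_4 c5_4 = dotS (ek E keys) r5_4_4 :=
  innS_eqZ E _ _ _ _ _ _ _ (chkS_sound E keys 1 3 _ _ _ _ t5_4_4_0) (by decide +kernel)

def r5_4_5 : List (ℕ × ℤ) := [(17, 4), (54, -4)]

theorem h5_4_5 (E : Env κ ι) : inn E 1 3 c5_4 c5_5 = dotS (ek E keys) r5_4_5 :=
  innS_eqZ E _ _ _ _ _ _ _ (chkS_sound E keys 1 3 _ _ _ _ t5_4_5_0) (by decide +kernel)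

def r5_4_6 : List (ℕ × ℤ) := [(70, 2), (157, -2)]

theorem h5_4_6 (E : Env κ ι) : inn E 1 3 c5_4 c5_6 = dotS (ek E keys) r5_4_6 :=
  innS_eqZ E _ _ _ _ _ _ _ (chkS_sound E keys 1 3 _ _ _ _ t5_4_6_0) (by decide +kernel)

def r5_4_7 : List (ℕ × ℤ) := [(16, 2), (155, -2)]

theorem h5_4_7 (E : Env κ ι) : inn E 1 3 c5_4 c5_7 = dotS (ek E keys) r5_4_7 :=
  innS_eqZ E _ _ _ _ _ _ _ (chkS_sound E keys 1 3 _ _ _ _ t5_4_7_0) (by decide +kernel)

def r5_4_8 : List (ℕ × ℤ) := [(158, 2), (159, -2)]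

theorem h5_4_8 (E : Env κ ι) : inn E 1 3 c5_4 c5_8 = dotS (ek E keys) r5_4_8 :=
  innS_eqZ E _ _ _ _ _ _ _ (chkS_sound E keys 1 3 _ _ _ _ t5_4_8_0) (by decide +kernel)

def r5_4_9 : List (ℕ × ℤ) := [(15, 4), (118, -4)]

theorem h5_4_9 (E : Env κ ι) : inn E 1 3 c5_4 c5_9 = dotS (ek E keys) r5_4_9 :=
  innS_eqZ E _ _ _ _ _ _ _ (chkS_sound E keys 1 3 _ _ _ _ t5_4_9_0) (by decide +kernel)

def r5_4_10 : List (ℕ × ℤ) := [(117, -4), (121, 4)]

theorem h5_4_10 (E : Env κ ι) : inn E 1 3 c5_4 c5_10 = dotS (ek E keys) r5_4_10 :=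
  innS_eqZ E _ _ _ _ _ _ _ (chkS_sound E keys 1 3 _ _ _ _ t5_4_10_0) (by decide +kernel)

def r5_4_11 : List (ℕ × ℤ) := [(25, -4), (160, 4)]

theorem h5_4_11 (E : Env κ ι) : inn E 1 3 c5_4 c5_11 = dotS (ek E keys) r5_4_11 :=
  innS_eqZ E _ _ _ _ _ _ _ (chkS_sound E keys 1 3 _ _ _ _ t5_4_11_0) (by decide +kernel)

def r5_4_12 : List (ℕ × ℤ) := [(120, -4), (152, 2), (154, 2)]

theorem h5_4_12 (E : Env κ ι) : inn E 1 3 c5_4 c5_12 = dotS (ek E keys) r5_4_12 :=
  innS_eqZ E _ _ _ _ _ _ _ (chkS_sound E keys 1 3 _ _ _ _ t5_4_12_0) (by decide +kernel)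

def r5_4_13 : List (ℕ × ℤ) := [(120, 2), (152, 2), (154, -4)]

theorem h5_4_13 (E : Env κ ι) : inn E 1 3 c5_4 c5_13 = dotS (ek E keys) r5_4_13 :=
  innS_eqZ E _ _ _ _ _ _ _ (chkS_sound E keys 1 3 _ _ _ _ t5_4_13_0) (by decide +kernel)

def r5_4_14 : List (ℕ × ℤ) := [(95, 2), (96, -4), (97, 2)]

theorem h5_4_14 (E : Env κ ι) : inn E 1 3 c5_4 c5_14 = dotS (ek E keys) r5_4_14 :=
  innS_eqZ E _ _ _ _ _ _ _ (chkS_sound E keys 1 3 _ _ _ _ t5_4_14_0) (by decide +kernel)

def r5_4_15 : List (ℕ × ℤ) := [(95, -4), (96, 2), (97, 2)]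

theorem h5_4_15 (E : Env κ ι) : inn E 1 3 c5_4 c5_15 = dotS (ek E keys) r5_4_15 :=
  innS_eqZ E _ _ _ _ _ _ _ (chkS_sound E keys 1 3 _ _ _ _ t5_4_15_0) (by decide +kernel)

def r5_5_5 : List (ℕ × ℤ) := [(122, -8), (161, 8)]

theorem h5_5_5 (E : Env κ ι) : inn E 1 3 c5_5 c5_5 = dotS (ek E keys) r5_5_5 :=
  innS_eqZ E _ _ _ _ _ _ _ (chkS_sound E keys 1 3 _ _ _ _ t5_5_5_0) (by decide +kernel)

def r5_5_6 : List (ℕ × ℤ) := [(42, -4), (124, 4)]

theorem h5_5_6 (E : Env κ ι) : inn E 1 3 c5_5 c5_6 = dotS (ek E keys) r5_5_6 :=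
  innS_eqZ E _ _ _ _ _ _ _ (chkS_sound E keys 1 3 _ _ _ _ t5_5_6_0) (by decide +kernel)

def r5_5_7 : List (ℕ × ℤ) := [(42, -4), (123, 4)]

theorem h5_5_7 (E : Env κ ι) : inn E 1 3 c5_5 c5_7 = dotS (ek E keys) r5_5_7 :=
  innS_eqZ E _ _ _ _ _ _ _ (chkS_sound E keys 1 3 _ _ _ _ t5_5_7_0) (by decide +kernel)

def r5_5_8 : List (ℕ × ℤ) := [(124, 4), (162, -4)]

theorem h5_5_8 (E : Env κ ι) : inn E 1 3 c5_5 c5_8 = dotS (ek E keys) r5_5_8 :=
  innS_eqZ E _ _ _ _ _ _ _ (chkS_sound E keys 1 3 _ _ _ _ t5_5_8_0) (by decide +kernel)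

def r5_5_9 : List (ℕ × ℤ) := [(42, -8), (161, 8)]

theorem h5_5_9 (E : Env κ ι) : inn E 1 3 c5_5 c5_9 = dotS (ek E keys) r5_5_9 :=
  innS_eqZ E _ _ _ _ _ _ _ (chkS_sound E keys 1 3 _ _ _ _ t5_5_9_0) (by decide +kernel)

def r5_5_10 : List (ℕ × ℤ) := [(122, 8), (124, -8)]

theorem h5_5_10 (E : Env κ ι) : inn E 1 3 c5_5 c5_10 = dotS (ek E keys) r5_5_10 :=
  innS_eqZ E _ _ _ _ _ _ _ (chkS_sound E keys 1 3 _ _ _ _ t5_5_10_0) (by decide +kernel)

def r5_5_11 : List (ℕ × ℤ) := [(125, 8), (163, -8)]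

theorem h5_5_11 (E : Env κ ι) : inn E 1 3 c5_5 c5_11 = dotS (ek E keys) r5_5_11 :=
  innS_eqZ E _ _ _ _ _ _ _ (chkS_sound E keys 1 3 _ _ _ _ t5_5_11_0) (by decide +kernel)

def r5_5_12 : List (ℕ × ℤ) := [(17, 8), (70, -4), (73, -4)]

theorem h5_5_12 (E : Env κ ι) : inn E 1 3 c5_5 c5_12 = dotS (ek E keys) r5_5_12 :=
  innS_eqZ E _ _ _ _ _ _ _ (chkS_sound E keys 1 3 _ _ _ _ t5_5_12_0) (by decide +kernel)

def r5_5_13 : List (ℕ × ℤ) := [(17, -4), (70, -4), (73, 8)]

theorem h5_5_13 (E : Env κ ι) : inn E 1 3 c5_5 c5_13 = dotS (ek E keys) r5_5_13 :=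
  innS_eqZ E _ _ _ _ _ _ _ (chkS_sound E keys 1 3 _ _ _ _ t5_5_13_0) (by decide +kernel)

def r5_5_14 : List (ℕ × ℤ) := [(123, -4), (124, -4), (164, 8)]

theorem h5_5_14 (E : Env κ ι) : inn E 1 3 c5_5 c5_14 = dotS (ek E keys) r5_5_14 :=
  innS_eqZ E _ _ _ _ _ _ _ (chkS_sound E keys 1 3 _ _ _ _ t5_5_14_0) (by decide +kernel)

def r5_5_15 : List (ℕ × ℤ) := [(123, 8), (124, -4), (164, -4)]

theorem h5_5_15 (E : Env κ ι) : inn E 1 3 c5_5 c5_15 = dotS (ek E keys) r5_5_15 :=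
  innS_eqZ E _ _ _ _ _ _ _ (chkS_sound E keys 1 3 _ _ _ _ t5_5_15_0) (by decide +kernel)

def r5_6_6 : List (ℕ × ℤ) := [(131, -2), (133, 2)]

theorem h5_6_6 (E : Env κ ι) : inn E 1 3 c5_6 c5_6 = dotS (ek E keys) r5_6_6 :=
  innS_eqZ E _ _ _ _ _ _ _ (chkS_sound E keys 1 3 _ _ _ _ t5_6_6_0) (by decide +kernel)

def r5_6_7 : List (ℕ × ℤ) := [(127, -2), (129, 2)]

theorem h5_6_7 (E : Env κ ι) : inn E 1 3 c5_6 c5_7 = dotS (ek E keys) r5_6_7 :=
  innS_eqZ E _ _ _ _ _ _ _ (chkS_sound E keys 1 3 _ _ _ _ t5_6_7_0) (by decide +kernel)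

def r5_6_8 : List (ℕ × ℤ) := [(131, -2), (165, 2)]

theorem h5_6_8 (E : Env κ ι) : inn E 1 3 c5_6 c5_8 = dotS (ek E keys) r5_6_8 :=
  innS_eqZ E _ _ _ _ _ _ _ (chkS_sound E keys 1 3 _ _ _ _ t5_6_8_0) (by decide +kernel)

def r5_6_9 : List (ℕ × ℤ) := [(42, -4), (129, 4)]

theorem h5_6_9 (E : Env κ ι) : inn E 1 3 c5_6 c5_9 = dotS (ek E keys) r5_6_9 :=
  innS_eqZ E _ _ _ _ _ _ _ (chkS_sound E keys 1 3 _ _ _ _ t5_6_9_0) (by decide +kernel)

def r5_6_10 : List (ℕ × ℤ) := [(124, -4), (166, 4)]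

theorem h5_6_10 (E : Env κ ι) : inn E 1 3 c5_6 c5_10 = dotS (ek E keys) r5_6_10 :=
  innS_eqZ E _ _ _ _ _ _ _ (chkS_sound E keys 1 3 _ _ _ _ t5_6_10_0) (by decide +kernel)

def r5_6_11 : List (ℕ × ℤ) := [(134, -4), (167, 4)]

theorem h5_6_11 (E : Env κ ι) : inn E 1 3 c5_6 c5_11 = dotS (ek E keys) r5_6_11 :=
  innS_eqZ E _ _ _ _ _ _ _ (chkS_sound E keys 1 3 _ _ _ _ t5_6_11_0) (by decide +kernel)

def r5_6_12 : List (ℕ × ℤ) := [(55, -4), (75, 2), (82, 2)]

theorem h5_6_12 (E : Env κ ι) : inn E 1 3 c5_6 c5_12 = dotS (ek E keys) r5_6_12 :=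
  innS_eqZ E _ _ _ _ _ _ _ (chkS_sound E keys 1 3 _ _ _ _ t5_6_12_0) (by decide +kernel)

def r5_6_13 : List (ℕ × ℤ) := [(55, 2), (75, 2), (82, -4)]

theorem h5_6_13 (E : Env κ ι) : inn E 1 3 c5_6 c5_13 = dotS (ek E keys) r5_6_13 :=
  innS_eqZ E _ _ _ _ _ _ _ (chkS_sound E keys 1 3 _ _ _ _ t5_6_13_0) (by decide +kernel)

def r5_6_14 : List (ℕ × ℤ) := [(132, 2), (166, 2), (168, -4)]

theorem h5_6_14 (E : Env κ ι) : inn E 1 3 c5_6 c5_14 = dotS (ek E keys) r5_6_14 :=
  innS_eqZ E _ _ _ _ _ _ _ (chkS_sound E keys 1 3 _ _ _ _ t5_6_14_0) (by decide +kernel)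

def r5_6_15 : List (ℕ × ℤ) := [(132, -4), (166, 2), (168, 2)]

theorem h5_6_15 (E : Env κ ι) : inn E 1 3 c5_6 c5_15 = dotS (ek E keys) r5_6_15 :=
  innS_eqZ E _ _ _ _ _ _ _ (chkS_sound E keys 1 3 _ _ _ _ t5_6_15_0) (by decide +kernel)

def r5_7_7 : List (ℕ × ℤ) := [(126, -2), (169, 2)]

theorem h5_7_7 (E : Env κ ι) : inn E 1 3 c5_7 c5_7 = dotS (ek E keys) r5_7_7 :=
  innS_eqZ E _ _ _ _ _ _ _ (chkS_sound E keys 1 3 _ _ _ _ t5_7_7_0) (by decide +kernel)

def r5_7_8 : List (ℕ × ℤ) := [(127, -2), (170, 2)]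

theorem h5_7_8 (E : Env κ ι) : inn E 1 3 c5_7 c5_8 = dotS (ek E keys) r5_7_8 :=
  innS_eqZ E _ _ _ _ _ _ _ (chkS_sound E keys 1 3 _ _ _ _ t5_7_8_0) (by decide +kernel)

def r5_7_9 : List (ℕ × ℤ) := [(42, -4), (169, 4)]

theorem h5_7_9 (E : Env κ ι) : inn E 1 3 c5_7 c5_9 = dotS (ek E keys) r5_7_9 :=
  innS_eqZ E _ _ _ _ _ _ _ (chkS_sound E keys 1 3 _ _ _ _ t5_7_9_0) (by decide +kernel)

def r5_7_10 : List (ℕ × ℤ) := [(123, -4), (171, 4)]

theorem h5_7_10 (E : Env κ ι) : inn E 1 3 c5_7 c5_10 = dotS (ek E keys) r5_7_10 :=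
  innS_eqZ E _ _ _ _ _ _ _ (chkS_sound E keys 1 3 _ _ _ _ t5_7_10_0) (by decide +kernel)

def r5_7_11 : List (ℕ × ℤ) := [(130, -4), (172, 4)]

theorem h5_7_11 (E : Env κ ι) : inn E 1 3 c5_7 c5_11 = dotS (ek E keys) r5_7_11 :=
  innS_eqZ E _ _ _ _ _ _ _ (chkS_sound E keys 1 3 _ _ _ _ t5_7_11_0) (by decide +kernel)

def r5_7_12 : List (ℕ × ℤ) := [(52, -4), (78, 2), (96, 2)]

theorem h5_7_12 (E : Env κ ι) : inn E 1 3 c5_7 c5_12 = dotS (ek E keys) r5_7_12 :=
  innS_eqZ E _ _ _ _ _ _ _ (chkS_sound E keys 1 3 _ _ _ _ t5_7_12_0) (by decide +kernel)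

def r5_7_13 : List (ℕ × ℤ) := [(52, 2), (78, 2), (96, -4)]

theorem h5_7_13 (E : Env κ ι) : inn E 1 3 c5_7 c5_13 = dotS (ek E keys) r5_7_13 :=
  innS_eqZ E _ _ _ _ _ _ _ (chkS_sound E keys 1 3 _ _ _ _ t5_7_13_0) (by decide +kernel)

def r5_7_14 : List (ℕ × ℤ) := [(128, 2), (171, 2), (173, -4)]

theorem h5_7_14 (E : Env κ ι) : inn E 1 3 c5_7 c5_14 = dotS (ek E keys) r5_7_14 :=
  innS_eqZ E _ _ _ _ _ _ _ (chkS_sound E keys 1 3 _ _ _ _ t5_7_14_0) (by decide +kernel)

def r5_7_15 : List (ℕ × ℤ) := [(128, -4), (171, 2), (173, 2)]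

theorem h5_7_15 (E : Env κ ι) : inn E 1 3 c5_7 c5_15 = dotS (ek E keys) r5_7_15 :=
  innS_eqZ E _ _ _ _ _ _ _ (chkS_sound E keys 1 3 _ _ _ _ t5_7_15_0) (by decide +kernel)

def r5_8_8 : List (ℕ × ℤ) := [(131, -2), (174, 2)]

theorem h5_8_8 (E : Env κ ι) : inn E 1 3 c5_8 c5_8 = dotS (ek E keys) r5_8_8 :=
  innS_eqZ E _ _ _ _ _ _ _ (chkS_sound E keys 1 3 _ _ _ _ t5_8_8_0) (by decide +kernel)

def r5_8_9 : List (ℕ × ℤ) := [(136, 4), (175, -4)]

theorem h5_8_9 (E : Env κ ι) : inn E 1 3 c5_8 c5_9 = dotS (ek E keys) r5_8_9 :=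
  innS_eqZ E _ _ _ _ _ _ _ (chkS_sound E keys 1 3 _ _ _ _ t5_8_9_0) (by decide +kernel)

def r5_8_10 : List (ℕ × ℤ) := [(168, -4), (176, 4)]

theorem h5_8_10 (E : Env κ ι) : inn E 1 3 c5_8 c5_10 = dotS (ek E keys) r5_8_10 :=
  innS_eqZ E _ _ _ _ _ _ _ (chkS_sound E keys 1 3 _ _ _ _ t5_8_10_0) (by decide +kernel)

def r5_8_11 : List (ℕ × ℤ) := [(167, -4), (177, 4)]

theorem h5_8_11 (E : Env κ ι) : inn E 1 3 c5_8 c5_11 = dotS (ek E keys) r5_8_11 :=
  innS_eqZ E _ _ _ _ _ _ _ (chkS_sound E keys 1 3 _ _ _ _ t5_8_11_0) (by decide +kernel)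

def r5_8_12 : List (ℕ × ℤ) := [(62, -4), (81, 2), (102, 2)]

theorem h5_8_12 (E : Env κ ι) : inn E 1 3 c5_8 c5_12 = dotS (ek E keys) r5_8_12 :=
  innS_eqZ E _ _ _ _ _ _ _ (chkS_sound E keys 1 3 _ _ _ _ t5_8_12_0) (by decide +kernel)

def r5_8_13 : List (ℕ × ℤ) := [(62, 2), (81, 2), (102, -4)]

theorem h5_8_13 (E : Env κ ι) : inn E 1 3 c5_8 c5_13 = dotS (ek E keys) r5_8_13 :=
  innS_eqZ E _ _ _ _ _ _ _ (chkS_sound E keys 1 3 _ _ _ _ t5_8_13_0) (by decide +kernel)

def r5_8_14 : List (ℕ × ℤ) := [(166, 2), (176, 2), (178, -4)]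

theorem h5_8_14 (E : Env κ ι) : inn E 1 3 c5_8 c5_14 = dotS (ek E keys) r5_8_14 :=
  innS_eqZ E _ _ _ _ _ _ _ (chkS_sound E keys 1 3 _ _ _ _ t5_8_14_0) (by decide +kernel)

def r5_8_15 : List (ℕ × ℤ) := [(166, -4), (176, 2), (178, 2)]

theorem h5_8_15 (E : Env κ ι) : inn E 1 3 c5_8 c5_15 = dotS (ek E keys) r5_8_15 :=
  innS_eqZ E _ _ _ _ _ _ _ (chkS_sound E keys 1 3 _ _ _ _ t5_8_15_0) (by decide +kernel)

def r5_9_9 : List (ℕ × ℤ) := [(39, 8), (41, -8)]

theorem h5_9_9 (E : Env κ ι) : inn E 1 3 c5_9 c5_9 = dotS (ek E keys) r5_9_9 :=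
  innS_eqZ E _ _ _ _ _ _ _ (chkS_sound E keys 1 3 _ _ _ _ t5_9_9_0) (by decide +kernel)

def r5_9_10 : List (ℕ × ℤ) := [(40, 8), (136, -8)]

theorem h5_9_10 (E : Env κ ι) : inn E 1 3 c5_9 c5_10 = dotS (ek E keys) r5_9_10 :=
  innS_eqZ E _ _ _ _ _ _ _ (chkS_sound E keys 1 3 _ _ _ _ t5_9_10_0) (by decide +kernel)

def r5_9_11 : List (ℕ × ℤ) := [(43, 8), (179, -8)]

theorem h5_9_11 (E : Env κ ι) : inn E 1 3 c5_9 c5_11 = dotS (ek E keys) r5_9_11 :=
  innS_eqZ E _ _ _ _ _ _ _ (chkS_sound E keys 1 3 _ _ _ _ t5_9_11_0) (by decide +kernel)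

def r5_9_12 : List (ℕ × ℤ) := [(15, 8), (114, -4), (180, -4)]

theorem h5_9_12 (E : Env κ ι) : inn E 1 3 c5_9 c5_12 = dotS (ek E keys) r5_9_12 :=
  innS_eqZ E _ _ _ _ _ _ _ (chkS_sound E keys 1 3 _ _ _ _ t5_9_12_0) (by decide +kernel)

def r5_9_13 : List (ℕ × ℤ) := [(15, -4), (114, -4), (180, 8)]

theorem h5_9_13 (E : Env κ ι) : inn E 1 3 c5_9 c5_13 = dotS (ek E keys) r5_9_13 :=
  innS_eqZ E _ _ _ _ _ _ _ (chkS_sound E keys 1 3 _ _ _ _ t5_9_13_0) (by decide +kernel)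

def r5_9_14 : List (ℕ × ℤ) := [(129, -4), (169, -4), (181, 8)]

theorem h5_9_14 (E : Env κ ι) : inn E 1 3 c5_9 c5_14 = dotS (ek E keys) r5_9_14 :=
  innS_eqZ E _ _ _ _ _ _ _ (chkS_sound E keys 1 3 _ _ _ _ t5_9_14_0) (by decide +kernel)

def r5_9_15 : List (ℕ × ℤ) := [(129, -4), (169, 8), (181, -4)]

theorem h5_9_15 (E : Env κ ι) : inn E 1 3 c5_9 c5_15 = dotS (ek E keys) r5_9_15 :=
  innS_eqZ E _ _ _ _ _ _ _ (chkS_sound E keys 1 3 _ _ _ _ t5_9_15_0) (by decide +kernel)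

def r5_10_10 : List (ℕ × ℤ) := [(135, -8), (182, 8)]

theorem h5_10_10 (E : Env κ ι) : inn E 1 3 c5_10 c5_10 = dotS (ek E keys) r5_10_10 :=
  innS_eqZ E _ _ _ _ _ _ _ (chkS_sound E keys 1 3 _ _ _ _ t5_10_10_0) (by decide +kernel)

def r5_10_11 : List (ℕ × ℤ) := [(183, 8), (184, -8)]

theorem h5_10_11 (E : Env κ ι) : inn E 1 3 c5_10 c5_11 = dotS (ek E keys) r5_10_11 :=
  innS_eqZ E _ _ _ _ _ _ _ (chkS_sound E keys 1 3 _ _ _ _ t5_10_11_0) (by decide +kernel)

def r5_10_12 : List (ℕ × ℤ) := [(76, -4), (89, -4), (121, 8)]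

theorem h5_10_12 (E : Env κ ι) : inn E 1 3 c5_10 c5_12 = dotS (ek E keys) r5_10_12 :=
  innS_eqZ E _ _ _ _ _ _ _ (chkS_sound E keys 1 3 _ _ _ _ t5_10_12_0) (by decide +kernel)

def r5_10_13 : List (ℕ × ℤ) := [(76, 8), (89, -4), (121, -4)]

theorem h5_10_13 (E : Env κ ι) : inn E 1 3 c5_10 c5_13 = dotS (ek E keys) r5_10_13 :=
  innS_eqZ E _ _ _ _ _ _ _ (chkS_sound E keys 1 3 _ _ _ _ t5_10_13_0) (by decide +kernel)

def r5_10_14 : List (ℕ × ℤ) := [(128, -4), (171, -4), (185, 8)]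

theorem h5_10_14 (E : Env κ ι) : inn E 1 3 c5_10 c5_14 = dotS (ek E keys) r5_10_14 :=
  innS_eqZ E _ _ _ _ _ _ _ (chkS_sound E keys 1 3 _ _ _ _ t5_10_14_0) (by decide +kernel)

def r5_10_15 : List (ℕ × ℤ) := [(128, -4), (171, 8), (185, -4)]

theorem h5_10_15 (E : Env κ ι) : inn E 1 3 c5_10 c5_15 = dotS (ek E keys) r5_10_15 :=
  innS_eqZ E _ _ _ _ _ _ _ (chkS_sound E keys 1 3 _ _ _ _ t5_10_15_0) (by decide +kernel)

def r5_11_11 : List (ℕ × ℤ) := [(186, 8), (187, -8)]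

theorem h5_11_11 (E : Env κ ι) : inn E 1 3 c5_11 c5_11 = dotS (ek E keys) r5_11_11 :=
  innS_eqZ E _ _ _ _ _ _ _ (chkS_sound E keys 1 3 _ _ _ _ t5_11_11_0) (by decide +kernel)

def r5_11_12 : List (ℕ × ℤ) := [(80, -4), (99, -4), (188, 8)]

theorem h5_11_12 (E : Env κ ι) : inn E 1 3 c5_11 c5_12 = dotS (ek E keys) r5_11_12 :=
  innS_eqZ E _ _ _ _ _ _ _ (chkS_sound E keys 1 3 _ _ _ _ t5_11_12_0) (by decide +kernel)

def r5_11_13 : List (ℕ × ℤ) := [(80, 8), (99, -4), (188, -4)]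

theorem h5_11_13 (E : Env κ ι) : inn E 1 3 c5_11 c5_13 = dotS (ek E keys) r5_11_13 :=
  innS_eqZ E _ _ _ _ _ _ _ (chkS_sound E keys 1 3 _ _ _ _ t5_11_13_0) (by decide +kernel)

def r5_11_14 : List (ℕ × ℤ) := [(184, 8), (189, -4), (190, -4)]

theorem h5_11_14 (E : Env κ ι) : inn E 1 3 c5_11 c5_14 = dotS (ek E keys) r5_11_14 :=
  innS_eqZ E _ _ _ _ _ _ _ (chkS_sound E keys 1 3 _ _ _ _ t5_11_14_0) (by decide +kernel)

def r5_11_15 : List (ℕ × ℤ) := [(184, -4), (189, 8), (190, -4)]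

theorem h5_11_15 (E : Env κ ι) : inn E 1 3 c5_11 c5_15 = dotS (ek E keys) r5_11_15 :=
  innS_eqZ E _ _ _ _ _ _ _ (chkS_sound E keys 1 3 _ _ _ _ t5_11_15_0) (by decide +kernel)

def r5_12_12 : List (ℕ × ℤ) := [(152, -2), (153, -4), (191, 4), (192, 4), (193, -2)]

theorem h5_12_12 (E : Env κ ι) : inn E 1 3 c5_12 c5_12 = dotS (ek E keys) r5_12_12 :=
  innS_eqZ E _ _ _ _ _ _ _ (chkS_sound E keys 1 3 _ _ _ _ t5_12_12_0) (by decide +kernel)

def r5_12_13 : List (ℕ × ℤ) := [(152, 4), (153, 2), (191, -2), (192, -2), (193, -2)]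

theorem h5_12_13 (E : Env κ ι) : inn E 1 3 c5_12 c5_13 = dotS (ek E keys) r5_12_13 :=
  innS_eqZ E _ _ _ _ _ _ _ (chkS_sound E keys 1 3 _ _ _ _ t5_12_13_0) (by decide +kernel)

def r5_12_14 : List (ℕ × ℤ) := [(77, -2), (78, 4), (90, -2), (95, 4), (155, -2), (194, -2)]

theorem h5_12_14 (E : Env κ ι) : inn E 1 3 c5_12 c5_14 = dotS (ek E keys) r5_12_14 :=
  innS_eqZ E _ _ _ _ _ _ _ (chkS_sound E keys 1 3 _ _ _ _ t5_12_14_0) (by decide +kernel)

def r5_12_15 : List (ℕ × ℤ) := [(77, -2), (78, -2), (90, -2), (95, -2), (155, 4), (194, 4)]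

theorem h5_12_15 (E : Env κ ι) : inn E 1 3 c5_12 c5_15 = dotS (ek E keys) r5_12_15 :=
  innS_eqZ E _ _ _ _ _ _ _ (chkS_sound E keys 1 3 _ _ _ _ t5_12_15_0) (by decide +kernel)

def r5_13_13 : List (ℕ × ℤ) := [(152, -2), (153, -4), (191, 4), (192, -2), (193, 4)]

theorem h5_13_13 (E : Env κ ι) : inn E 1 3 c5_13 c5_13 = dotS (ek E keys) r5_13_13 :=
  innS_eqZ E _ _ _ _ _ _ _ (chkS_sound E keys 1 3 _ _ _ _ t5_13_13_0) (by decide +kernel)

def r5_13_14 : List (ℕ × ℤ) := [(77, -2), (78, -2), (90, 4), (95, -2), (155, -2), (194, 4)]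

theorem h5_13_14 (E : Env κ ι) : inn E 1 3 c5_13 c5_14 = dotS (ek E keys) r5_13_14 :=
  innS_eqZ E _ _ _ _ _ _ _ (chkS_sound E keys 1 3 _ _ _ _ t5_13_14_0) (by decide +kernel)

def r5_13_15 : List (ℕ × ℤ) := [(77, 4), (78, 4), (90, -2), (95, -2), (155, -2), (194, -2)]

theorem h5_13_15 (E : Env κ ι) : inn E 1 3 c5_13 c5_15 = dotS (ek E keys) r5_13_15 :=
  innS_eqZ E _ _ _ _ _ _ _ (chkS_sound E keys 1 3 _ _ _ _ t5_13_15_0) (by decide +kernel)

def r5_14_14 : List (ℕ × ℤ) := [(126, -2), (128, -4), (135, -2), (195, 4), (196, 4)]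

theorem h5_14_14 (E : Env κ ι) : inn E 1 3 c5_14 c5_14 = dotS (ek E keys) r5_14_14 :=
  innS_eqZ E _ _ _ _ _ _ _ (chkS_sound E keys 1 3 _ _ _ _ t5_14_14_0) (by decide +kernel)

def r5_14_15 : List (ℕ × ℤ) := [(126, -2), (128, 2), (135, 4), (195, -2), (196, -2)]

theorem h5_14_15 (E : Env κ ι) : inn E 1 3 c5_14 c5_15 = dotS (ek E keys) r5_14_15 :=
  innS_eqZ E _ _ _ _ _ _ _ (chkS_sound E keys 1 3 _ _ _ _ t5_14_15_0) (by decide +kernel)

def r5_15_15 : List (ℕ × ℤ) := [(126, 4), (128, -4), (135, -2), (195, 4), (196, -2)]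

theorem h5_15_15 (E : Env κ ι) : inn E 1 3 c5_15 c5_15 = dotS (ek E keys) r5_15_15 :=
  innS_eqZ E _ _ _ _ _ _ _ (chkS_sound E keys 1 3 _ _ _ _ t5_15_15_0) (by decide +kernel)

theorem row5_0 (E : Env κ ι) : RowS E 1 3 (ek E keys) c5_0 [c5_0, c5_1, c5_2, c5_3, c5_4, c5_5, c5_6, c5_7, c5_8, c5_9, c5_10, c5_11, c5_12, c5_13, c5_14, c5_15] [r5_0_0, r5_0_1, r5_0_2, r5_0_3, r5_0_4, r5_0_5, r5_0_6, r5_0_7, r5_0_8, r5_0_9, r5_0_10, r5_0_11, r5_0_12, r5_0_13, r5_0_14, r5_0_15] :=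
  rowS_cons E _ _ _ _ _ _ _ _ (h5_0_0 E) (rowS_cons E _ _ _ _ _ _ _ _ (h5_0_1 E) (rowS_cons E _ _ _ _ _ _ _ _ (h5_0_2 E) (rowS_cons E _ _ _ _ _ _ _ _ (h5_0_3 E) (rowS_cons E _ _ _ _ _ _ _ _ (h5_0_4 E) (rowS_cons E _ _ _ _ _ _ _ _ (h5_0_5 E) (rowS_cons E _ _ _ _ _ _ _ _ (h5_0_6 E) (rowS_cons E _ _ _ _ _ _ _ _ (h5_0_7 E) (rowS_cons E _ _ _ _ _ _ _ _ (h5_0_8 E) (rowS_cons E _ _ _ _ _ _ _ _ (h5_0_9 E) (rowS_cons E _ _ _ _ _ _ _ _ (h5_0_10 E) (rowS_cons E _ _ _ _ _ _ _ _ (h5_0_11 E) (rowS_cons E _ _ _ _ _ _ _ _ (h5_0_12 E) (rowS_cons E _ _ _ _ _ _ _ _ (h5_0_13 E) (rowS_cons E _ _ _ _ _ _ _ _ (h5_0_14 E) (rowS_cons E _ _ _ _ _ _ _ _ (h5_0_15 E) (rowS_nil E _ _ _ _))))))))))))))))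

theorem row5_1 (E : Env κ ι) : RowS E 1 3 (ek E keys) c5_1 [c5_1, c5_2, c5_3, c5_4, c5_5, c5_6, c5_7, c5_8, c5_9, c5_10, c5_11, c5_12, c5_13, c5_14, c5_15] [r5_1_1, r5_1_2, r5_1_3, r5_1_4, r5_1_5, r5_1_6, r5_1_7, r5_1_8, r5_1_9, r5_1_10, r5_1_11, r5_1_12, r5_1_13, r5_1_14, r5_1_15] :=
  rowS_cons E _ _ _ _ _ _ _ _ (h5_1_1 E) (rowS_cons E _ _ _ _ _ _ _ _ (h5_1_2 E) (rowS_cons E _ _ _ _ _ _ _ _ (h5_1_3 E) (rowS_cons E _ _ _ _ _ _ _ _ (h5_1_4 E) (rowS_cons E _ _ _ _ _ _ _ _ (h5_1_5 E) (rowS_cons E _ _ _ _ _ _ _ _ (h5_1_6 E) (rowS_cons E _ _ _ _ _ _ _ _ (h5_1_7 E) (rowS_cons E _ _ _ _ _ _ _ _ (h5_1_8 E) (rowS_cons E _ _ _ _ _ _ _ _ (h5_1_9 E) (rowS_cons E _ _ _ _ _ _ _ _ (h5_1_10 E) (rowS_cons E _ _ _ _ _ _ _ _ (h5_1_11 E) (rowS_cons E _ _ _ _ _ _ _ _ (h5_1_12 E) (rowS_cons E _ _ _ _ _ _ _ _ (h5_1_13 E) (rowS_cons E _ _ _ _ _ _ _ _ (h5_1_14 E) (rowS_cons E _ _ _ _ _ _ _ _ (h5_1_15 E) (rowS_nil E _ _ _ _)))))))))))))))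

theorem row5_2 (E : Env κ ι) : RowS E 1 3 (ek E keys) c5_2 [c5_2, c5_3, c5_4, c5_5, c5_6, c5_7, c5_8, c5_9, c5_10, c5_11, c5_12, c5_13, c5_14, c5_15] [r5_2_2, r5_2_3, r5_2_4, r5_2_5, r5_2_6, r5_2_7, r5_2_8, r5_2_9, r5_2_10, r5_2_11, r5_2_12, r5_2_13, r5_2_14, r5_2_15] :=
  rowS_cons E _ _ _ _ _ _ _ _ (h5_2_2 E) (rowS_cons E _ _ _ _ _ _ _ _ (h5_2_3 E) (rowS_cons E _ _ _ _ _ _ _ _ (h5_2_4 E) (rowS_cons E _ _ _ _ _ _ _ _ (h5_2_5 E) (rowS_cons E _ _ _ _ _ _ _ _ (h5_2_6 E) (rowS_cons E _ _ _ _ _ _ _ _ (h5_2_7 E) (rowS_cons E _ _ _ _ _ _ _ _ (h5_2_8 E) (rowS_cons E _ _ _ _ _ _ _ _ (h5_2_9 E) (rowS_cons E _ _ _ _ _ _ _ _ (h5_2_10 E) (rowS_cons E _ _ _ _ _ _ _ _ (h5_2_11 E) (rowS_cons E _ _ _ _ _ _ _ _ (h5_2_12 E) (rowS_cons E _ _ _ _ _ _ _ _ (h5_2_13 E) (rowS_cons E _ _ _ _ _ _ _ _ (h5_2_14 E) (rowS_cons E _ _ _ _ _ _ _ _ (h5_2_15 E) (rowS_nil E _ _ _ _))))))))))))))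

theorem row5_3 (E : Env κ ι) : RowS E 1 3 (ek E keys) c5_3 [c5_3, c5_4, c5_5, c5_6, c5_7, c5_8, c5_9, c5_10, c5_11, c5_12, c5_13, c5_14, c5_15] [r5_3_3, r5_3_4, r5_3_5, r5_3_6, r5_3_7, r5_3_8, r5_3_9, r5_3_10, r5_3_11, r5_3_12, r5_3_13, r5_3_14, r5_3_15] :=
  rowS_cons E _ _ _ _ _ _ _ _ (h5_3_3 E) (rowS_cons E _ _ _ _ _ _ _ _ (h5_3_4 E) (rowS_cons E _ _ _ _ _ _ _ _ (h5_3_5 E) (rowS_cons E _ _ _ _ _ _ _ _ (h5_3_6 E) (rowS_cons E _ _ _ _ _ _ _ _ (h5_3_7 E) (rowS_cons E _ _ _ _ _ _ _ _ (h5_3_8 E) (rowS_cons E _ _ _ _ _ _ _ _ (h5_3_9 E) (rowS_cons E _ _ _ _ _ _ _ _ (h5_3_10 E) (rowS_cons E _ _ _ _ _ _ _ _ (h5_3_11 E) (rowS_cons E _ _ _ _ _ _ _ _ (h5_3_12 E) (rowS_cons E _ _ _ _ _ _ _ _ (h5_3_13 E) (rowS_cons E _ _ _ _ _ _ _ _ (h5_3_14 E) (rowS_cons E _ _ _ _ _ _ _ _ (h5_3_15 E) (rowS_nil E _ _ _ _)))))))))))))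

theorem row5_4 (E : Env κ ι) : RowS E 1 3 (ek E keys) c5_4 [c5_4, c5_5, c5_6, c5_7, c5_8, c5_9, c5_10, c5_11, c5_12, c5_13, c5_14, c5_15] [r5_4_4, r5_4_5, r5_4_6, r5_4_7, r5_4_8, r5_4_9, r5_4_10, r5_4_11, r5_4_12, r5_4_13, r5_4_14, r5_4_15] :=
  rowS_cons E _ _ _ _ _ _ _ _ (h5_4_4 E) (rowS_cons E _ _ _ _ _ _ _ _ (h5_4_5 E) (rowS_cons E _ _ _ _ _ _ _ _ (h5_4_6 E) (rowS_cons E _ _ _ _ _ _ _ _ (h5_4_7 E) (rowS_cons E _ _ _ _ _ _ _ _ (h5_4_8 E) (rowS_cons E _ _ _ _ _ _ _ _ (h5_4_9 E) (rowS_cons E _ _ _ _ _ _ _ _ (h5_4_10 E) (rowS_cons E _ _ _ _ _ _ _ _ (h5_4_11 E) (rowS_cons E _ _ _ _ _ _ _ _ (h5_4_12 E) (rowS_cons E _ _ _ _ _ _ _ _ (h5_4_13 E) (rowS_cons E _ _ _ _ _ _ _ _ (h5_4_14 E) (rowS_cons E _ _ _ _ _ _ _ _ (h5_4_15 E) (rowS_nil E _ _ _ _))))))))))))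

theorem row5_5 (E : Env κ ι) : RowS E 1 3 (ek E keys) c5_5 [c5_5, c5_6, c5_7, c5_8, c5_9, c5_10, c5_11, c5_12, c5_13, c5_14, c5_15] [r5_5_5, r5_5_6, r5_5_7, r5_5_8, r5_5_9, r5_5_10, r5_5_11, r5_5_12, r5_5_13, r5_5_14, r5_5_15] :=
  rowS_cons E _ _ _ _ _ _ _ _ (h5_5_5 E) (rowS_cons E _ _ _ _ _ _ _ _ (h5_5_6 E) (rowS_cons E _ _ _ _ _ _ _ _ (h5_5_7 E) (rowS_cons E _ _ _ _ _ _ _ _ (h5_5_8 E) (rowS_cons E _ _ _ _ _ _ _ _ (h5_5_9 E) (rowS_cons E _ _ _ _ _ _ _ _ (h5_5_10 E) (rowS_cons E _ _ _ _ _ _ _ _ (h5_5_11 E) (rowS_cons E _ _ _ _ _ _ _ _ (h5_5_12 E) (rowS_cons E _ _ _ _ _ _ _ _ (h5_5_13 E) (rowS_cons E _ _ _ _ _ _ _ _ (h5_5_14 E) (rowS_cons E _ _ _ _ _ _ _ _ (h5_5_15 E) (rowS_nil E _ _ _ _)))))))))))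

theorem row5_6 (E : Env κ ι) : RowS E 1 3 (ek E keys) c5_6 [c5_6, c5_7, c5_8, c5_9, c5_10, c5_11, c5_12, c5_13, c5_14, c5_15] [r5_6_6, r5_6_7, r5_6_8, r5_6_9, r5_6_10, r5_6_11, r5_6_12, r5_6_13, r5_6_14, r5_6_15] :=
  rowS_cons E _ _ _ _ _ _ _ _ (h5_6_6 E) (rowS_cons E _ _ _ _ _ _ _ _ (h5_6_7 E) (rowS_cons E _ _ _ _ _ _ _ _ (h5_6_8 E) (rowS_cons E _ _ _ _ _ _ _ _ (h5_6_9 E) (rowS_cons E _ _ _ _ _ _ _ _ (h5_6_10 E) (rowS_cons E _ _ _ _ _ _ _ _ (h5_6_11 E) (rowS_cons E _ _ _ _ _ _ _ _ (h5_6_12 E) (rowS_cons E _ _ _ _ _ _ _ _ (h5_6_13 E) (rowS_cons E _ _ _ _ _ _ _ _ (h5_6_14 E) (rowS_cons E _ _ _ _ _ _ _ _ (h5_6_15 E) (rowS_nil E _ _ _ _))))))))))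

theorem row5_7 (E : Env κ ι) : RowS E 1 3 (ek E keys) c5_7 [c5_7, c5_8, c5_9, c5_10, c5_11, c5_12, c5_13, c5_14, c5_15] [r5_7_7, r5_7_8, r5_7_9, r5_7_10, r5_7_11, r5_7_12, r5_7_13, r5_7_14, r5_7_15] :=
  rowS_cons E _ _ _ _ _ _ _ _ (h5_7_7 E) (rowS_cons E _ _ _ _ _ _ _ _ (h5_7_8 E) (rowS_cons E _ _ _ _ _ _ _ _ (h5_7_9 E) (rowS_cons E _ _ _ _ _ _ _ _ (h5_7_10 E) (rowS_cons E _ _ _ _ _ _ _ _ (h5_7_11 E) (rowS_cons E _ _ _ _ _ _ _ _ (h5_7_12 E) (rowS_cons E _ _ _ _ _ _ _ _ (h5_7_13 E) (rowS_cons E _ _ _ _ _ _ _ _ (h5_7_14 E) (rowS_cons E _ _ _ _ _ _ _ _ (h5_7_15 E) (rowS_nil E _ _ _ _)))))))))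

theorem row5_8 (E : Env κ ι) : RowS E 1 3 (ek E keys) c5_8 [c5_8, c5_9, c5_10, c5_11, c5_12, c5_13, c5_14, c5_15] [r5_8_8, r5_8_9, r5_8_10, r5_8_11, r5_8_12, r5_8_13, r5_8_14, r5_8_15] :=
  rowS_cons E _ _ _ _ _ _ _ _ (h5_8_8 E) (rowS_cons E _ _ _ _ _ _ _ _ (h5_8_9 E) (rowS_cons E _ _ _ _ _ _ _ _ (h5_8_10 E) (rowS_cons E _ _ _ _ _ _ _ _ (h5_8_11 E) (rowS_cons E _ _ _ _ _ _ _ _ (h5_8_12 E) (rowS_cons E _ _ _ _ _ _ _ _ (h5_8_13 E) (rowS_cons E _ _ _ _ _ _ _ _ (h5_8_14 E) (rowS_cons E _ _ _ _ _ _ _ _ (h5_8_15 E) (rowS_nil E _ _ _ _))))))))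

theorem row5_9 (E : Env κ ι) : RowS E 1 3 (ek E keys) c5_9 [c5_9, c5_10, c5_11, c5_12, c5_13, c5_14, c5_15] [r5_9_9, r5_9_10, r5_9_11, r5_9_12, r5_9_13, r5_9_14, r5_9_15] :=
  rowS_cons E _ _ _ _ _ _ _ _ (h5_9_9 E) (rowS_cons E _ _ _ _ _ _ _ _ (h5_9_10 E) (rowS_cons E _ _ _ _ _ _ _ _ (h5_9_11 E) (rowS_cons E _ _ _ _ _ _ _ _ (h5_9_12 E) (rowS_cons E _ _ _ _ _ _ _ _ (h5_9_13 E) (rowS_cons E _ _ _ _ _ _ _ _ (h5_9_14 E) (rowS_cons E _ _ _ _ _ _ _ _ (h5_9_15 E) (rowS_nil E _ _ _ _)))))))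

theorem row5_10 (E : Env κ ι) : RowS E 1 3 (ek E keys) c5_10 [c5_10, c5_11, c5_12, c5_13, c5_14, c5_15] [r5_10_10, r5_10_11, r5_10_12, r5_10_13, r5_10_14, r5_10_15] :=
  rowS_cons E _ _ _ _ _ _ _ _ (h5_10_10 E) (rowS_cons E _ _ _ _ _ _ _ _ (h5_10_11 E) (rowS_cons E _ _ _ _ _ _ _ _ (h5_10_12 E) (rowS_cons E _ _ _ _ _ _ _ _ (h5_10_13 E) (rowS_cons E _ _ _ _ _ _ _ _ (h5_10_14 E) (rowS_cons E _ _ _ _ _ _ _ _ (h5_10_15 E) (rowS_nil E _ _ _ _))))))

theorem row5_11 (E : Env κ ι) : RowS E 1 3 (ek E keys) c5_11 [c5_11, c5_12, c5_13, c5_14, c5_15] [r5_11_11, r5_11_12, r5_11_13, r5_11_14, r5_11_15] :=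
  rowS_cons E _ _ _ _ _ _ _ _ (h5_11_11 E) (rowS_cons E _ _ _ _ _ _ _ _ (h5_11_12 E) (rowS_cons E _ _ _ _ _ _ _ _ (h5_11_13 E) (rowS_cons E _ _ _ _ _ _ _ _ (h5_11_14 E) (rowS_cons E _ _ _ _ _ _ _ _ (h5_11_15 E) (rowS_nil E _ _ _ _)))))

theorem row5_12 (E : Env κ ι) : RowS E 1 3 (ek E keys) c5_12 [c5_12, c5_13, c5_14, c5_15] [r5_12_12, r5_12_13, r5_12_14, r5_12_15] :=
  rowS_cons E _ _ _ _ _ _ _ _ (h5_12_12 E) (rowS_cons E _ _ _ _ _ _ _ _ (h5_12_13 E) (rowS_cons E _ _ _ _ _ _ _ _ (h5_12_14 E) (rowS_cons E _ _ _ _ _ _ _ _ (h5_12_15 E) (rowS_nil E _ _ _ _))))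

theorem row5_13 (E : Env κ ι) : RowS E 1 3 (ek E keys) c5_13 [c5_13, c5_14, c5_15] [r5_13_13, r5_13_14, r5_13_15] :=
  rowS_cons E _ _ _ _ _ _ _ _ (h5_13_13 E) (rowS_cons E _ _ _ _ _ _ _ _ (h5_13_14 E) (rowS_cons E _ _ _ _ _ _ _ _ (h5_13_15 E) (rowS_nil E _ _ _ _)))

theorem row5_14 (E : Env κ ι) : RowS E 1 3 (ek E keys) c5_14 [c5_14, c5_15] [r5_14_14, r5_14_15] :=
  rowS_cons E _ _ _ _ _ _ _ _ (h5_14_14 E) (rowS_cons E _ _ _ _ _ _ _ _ (h5_14_15 E) (rowS_nil E _ _ _ _))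

theorem row5_15 (E : Env κ ι) : RowS E 1 3 (ek E keys) c5_15 [c5_15] [r5_15_15] :=
  rowS_cons E _ _ _ _ _ _ _ _ (h5_15_15 E) (rowS_nil E _ _ _ _)

def tab5 : List (List (List (ℕ × ℤ))) := [[r5_0_0, r5_0_1, r5_0_2, r5_0_3, r5_0_4, r5_0_5, r5_0_6, r5_0_7, r5_0_8, r5_0_9, r5_0_10, r5_0_11, r5_0_12, r5_0_13, r5_0_14, r5_0_15], [r5_1_1, r5_1_2, r5_1_3, r5_1_4, r5_1_5, r5_1_6, r5_1_7, r5_1_8, r5_1_9, r5_1_10, r5_1_11, r5_1_12, r5_1_13, r5_1_14, r5_1_15], [r5_2_2, r5_2_3, r5_2_4, r5_2_5, r5_2_6, r5_2_7, r5_2_8, r5_2_9, r5_2_10, r5_2_11, r5_2_12, r5_2_13, r5_2_14, r5_2_15], [r5_3_3, r5_3_4, r5_3_5, r5_3_6, r5_3_7, r5_3_8, r5_3_9, r5_3_10, r5_3_11, r5_3_12, r5_3_13, r5_3_14, r5_3_15], [r5_4_4, r5_4_5, r5_4_6, r5_4_7, r5_4_8, r5_4_9, r5_4_10, r5_4_11, r5_4_12, r5_4_13, r5_4_14, r5_4_15], [r5_5_5, r5_5_6, r5_5_7, r5_5_8, r5_5_9, r5_5_10, r5_5_11, r5_5_12, r5_5_13, r5_5_14, r5_5_15], [r5_6_6, r5_6_7, r5_6_8, r5_6_9, r5_6_10, r5_6_11, r5_6_12,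 r5_6_13, r5_6_14, r5_6_15], [r5_7_7, r5_7_8, r5_7_9, r5_7_10, r5_7_11, r5_7_12, r5_7_13, r5_7_14, r5_7_15], [r5_8_8, r5_8_9, r5_8_10, r5_8_11, r5_8_12, r5_8_13, r5_8_14, r5_8_15], [r5_9_9, r5_9_10, r5_9_11, r5_9_12, r5_9_13, r5_9_14, r5_9_15], [r5_10_10, r5_10_11, r5_10_12, r5_10_13, r5_10_14, r5_10_15], [r5_11_11, r5_11_12, r5_11_13, r5_11_14, r5_11_15], [r5_12_12, r5_12_13, r5_12_14, r5_12_15], [r5_13_13, r5_13_14, r5_13_15], [r5_14_14, r5_14_15], [r5_15_15]]

theorem tri5 (E : Env κ ι) : TriS E 1 3 (ek E keys) [c5_0, c5_1, c5_2, c5_3, c5_4, c5_5, c5_6, c5_7, c5_8, c5_9, c5_10, c5_11, c5_12, c5_13, c5_14, c5_15] tab5 := by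
  refine triS_cons E _ _ _ _ _ _ _ (row5_0 E) ?_
  refine triS_cons E _ _ _ _ _ _ _ (row5_1 E) ?_
  refine triS_cons E _ _ _ _ _ _ _ (row5_2 E) ?_
  refine triS_cons E _ _ _ _ _ _ _ (row5_3 E) ?_
  refine triS_cons E _ _ _ _ _ _ _ (row5_4 E) ?_
  refine triS_cons E _ _ _ _ _ _ _ (row5_5 E) ?_
  refine triS_cons E _ _ _ _ _ _ _ (row5_6 E) ?_
  refine triS_cons E _ _ _ _ _ _ _ (row5_7 E) ?_
  refine triS_cons E _ _ _ _ _ _ _ (row5_8 E) ?_
  refine triS_cons E _ _ _ _ _ _ _ (row5_9 E) ?_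
  refine triS_cons E _ _ _ _ _ _ _ (row5_10 E) ?_
  refine triS_cons E _ _ _ _ _ _ _ (row5_11 E) ?_
  refine triS_cons E _ _ _ _ _ _ _ (row5_12 E) ?_
  refine triS_cons E _ _ _ _ _ _ _ (row5_13 E) ?_
  refine triS_cons E _ _ _ _ _ _ _ (row5_14 E) ?_
  refine triS_cons E _ _ _ _ _ _ _ (row5_15 E) ?_
  exact triS_nil E _ _ _

def rows5 : List (ℕ × List ℤ) := [(9154473984000, [4194304, 20623766, 2093482, 4594478, 9184754, 2440137, -906202, 5574818, 12709162, -787917, -1557088, -4709565, -5135864, -4453636, -4925903, 232988]),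
  (67185259315200, [0, 8388608, 206078, -1654478, -3898414, 866507, -3785276, 1320852, 125144, -547332, -132051, -302738, -6947503, -2298303, -511035, 2016531]),
  (11673732096000, [0, 0, 4194304, -710112, 299078, -1101303, 6284932, -4014936, -621194, 597580, -4177720, -2043920, -1227369, 722268, 4698276, 7291591]),
  (3189285273600, [0, 0, 0, 4194304, -1674304, 11932378, -136094, 29722322, -6911524, -5979473, 1985968, 902959, -2513640, -3411504, 2813842, -950253]),
  (5899275878400, [0, 0, 0, 0, 8388608, 308145, 126242, 1939102, -199902, -376650, 2196318, -641482, 2197748, -7859594, -2749996, 670225]),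
  (1653787238400, [0, 0, 0, 0, 0, 4194304, -8076924, 8219654, 2153570, -3071559, 593369, 2158603, -3026276, 3006159, 5760385, -14449882]),
  (318272716800, [0, 0, 0, 0, 0, 0, 8388608, 2989718, 4972588, -2559760, 2352004, -1343616, -1034487, -9551649, -13613459, 14297105]),
  (16461619200, [0, 0, 0, 0, 0, 0, 0, 8388608, 26703276, -9417903, 5102496, 1395360, -6349890, -7991432, -21792268, -3840765]),
  (928364544000, [0, 0, 0, 0, 0, 0, 0, 0, 8388608, -2356842, 939072, 401789, -1620801, -772778, -5333418, -2333458]),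
  (34792243200, [0, 0, 0, 0, 0, 0, 0, 0, 0, 2097152, -724199, -183016, 906949, 2054817, 2083130, -914680]),
  (13718937600, [0, 0, 0, 0, 0, 0, 0, 0, 0, 0, 4194304, 62611, 216018, -6205185, -6810894, 4411513]),
  (6276096000, [0, 0, 0, 0, 0, 0, 0, 0, 0, 0, 0, 4194304, 428461, 3091343, 2319030, -5517564]),
  (14675558400, [0, 0, 0, 0, 0, 0, 0, 0, 0, 0, 0, 0, 4194304, 1760127, 769356, -2070059]),
  (36075110400, [0, 0, 0, 0, 0, 0, 0, 0, 0, 0, 0, 0, 0, 4194304, 2457173, -3497195]),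
  (1615881830400, [0, 0, 0, 0, 0, 0, 0, 0, 0, 0, 0, 0, 0, 0, 524288, -295501]),
  (510416364487960638259200, [0, 0, 0, 0, 0, 0, 0, 0, 0, 0, 0, 0, 0, 0, 0, 1]),
  (9135522676998144000, [1, 0, 1, 0, 0, 0, 0, 0, 0, 0, 0, 0, 0, 0, 0, 0]),
  (27910119827957612544, [1, 0, 0, 0, 0, 0, 0, 0, 0, 1, 0, 0, 0, 0, 0, 0]),
  (20339621970208358400, [1, 0, 0, 0, 0, 0, 0, 0, 0, 0, 0, 0, 0, -1, 0, 0]),
  (164446011769086489600, [0, 2, -1, 0, 0, 0, 0, 0, 0, 0, 0, 0, 0, 0, 0, 0]),
  (301276723143085286400, [0, 2, 0, 0, 0, 0, 0, 0, 0, 0, 0, 0, 0, -1, 0, 0]),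
  (3575797912988780313600, [0, 0, 1, 1, 0, 0, 0, 0, 0, 0, 0, 0, 0, 0, 0, 0]),
  (168384727520529523200, [0, 0, 1, 0, 0, -1, 0, 0, 0, 0, 0, 0, 0, 0, 0, 0]),
  (402164503548285312000, [0, 0, 1, 0, 0, 0, 0, 0, 2, 0, 0, 0, 0, 0, 0, 0]),
  (78767733551607936000, [0, 0, 1, 0, 0, 0, 0, 0, 0, 1, 0, 0, 0, 0, 0, 0]),
  (314877465008474767200, [0, 0, 1, 0, 0, 0, 0, 0, 0, 0, 1, 0, 0, 0, 0, 0]),
  (634200820409093068800, [0, 0, 1, 0, 0, 0, 0, 0, 0, 0, 0, -1, 0, 0, 0, 0]),
  (798778871856014976000, [0, 0, 1, 0, 0, 0, 0, 0, 0, 0, 0, 0, 0, -1, 0, 0]),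
  (387423412013160576000, [0, 0, 1, 0, 0, 0, 0, 0, 0, 0, 0, 0, 0, 0, -1, 0]),
  (432802565420905180800, [0, 0, 0, 1, -2, 0, 0, 0, 0, 0, 0, 0, 0, 0, 0, 0]),
  (446952614732482716000, [0, 0, 0, 1, 0, 0, -2, 0, 0, 0, 0, 0, 0, 0, 0, 0]),
  (1883318801464384502400, [0, 0, 0, 1, 0, 0, 0, 2, 0, 0, 0, 0, 0, 0, 0, 0]),
  (1128761357775111756000, [0, 0, 0, 1, 0, 0, 0, 0, 2, 0, 0, 0, 0, 0, 0, 0]),
  (260887208959739980800, [0, 0, 0, 1, 0, 0, 0, 0, 0, 0, 0, -1, 0, 0, 0, 0]),
  (1259101451253925785600, [0, 0, 0, 1, 0, 0, 0, 0, 0, 0, 0, 0, 0, 1, 0, 0]),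
  (373222655406754905600, [0, 0, 0, 1, 0, 0, 0, 0, 0, 0, 0, 0, 0, 0, 0, 1]),
  (6511302639014501376000, [0, 0, 0, 0, 1, 0, 1, 0, 0, 0, 0, 0, 0, 0, 0, 0]),
  (793157617758115814400, [0, 0, 0, 0, 1, 0, 0, 0, 1, 0, 0, 0, 0, 0, 0, 0]),
  (205347835996827955200, [0, 0, 0, 0, 2, 0, 0, 0, 0, 0, 0, 1, 0, 0, 0, 0]),
  (122831200535308185600, [0, 0, 0, 0, 0, 1, 0, 0, -2, 0, 0, 0, 0, 0, 0, 0]),
  (41583340482178060800, [0, 0, 0, 0, 0, 1, 0, 0, 0, -1, 0, 0, 0, 0, 0, 0]),
  (63926006451676416000, [0, 0, 0, 0, 0, 1, 0, 0, 0, 0, 0, 1, 0, 0, 0, 0]),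
  (114735415739640883200, [0, 0, 0, 0, 0, 1, 0, 0, 0, 0, 0, 0, 0, 0, 1, 0]),
  (102829488499593216000, [0, 0, 0, 0, 0, 0, 1, 0, 1, 0, 0, 0, 0, 0, 0, 0]),
  (526145692761254419200, [0, 0, 0, 0, 0, 0, 2, 0, 0, 0, -1, 0, 0, 0, 0, 0]),
  (843819412734915840000, [0, 0, 0, 0, 0, 0, 2, 0, 0, 0, 0, 1, 0, 0, 0, 0]),
  (123246539511933888000, [0, 0, 0, 0, 0, 0, 2, 0, 0, 0, 0, 0, 0, 0, -1, 0]),
  (643208609714676940800, [0, 0, 0, 0, 0, 0, 0, 1, -1, 0, 0, 0, 0, 0, 0, 0]),
  (29850046815235838400, [0, 0, 0, 0, 0, 0, 0, 2, 0, -1, 0, 0, 0, 0, 0, 0]),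
  (548438124990700915200, [0, 0, 0, 0, 0, 0, 0, 2, 0, 0, 1, 0, 0, 0, 0, 0]),
  (18341258047660339200, [0, 0, 0, 0, 0, 0, 0, 2, 0, 0, 0, 1, 0, 0, 0, 0]),
  (193675979272748313600, [0, 0, 0, 0, 0, 0, 0, 2, 0, 0, 0, 0, 0, 0, 1, 0]),
  (41277804613078579200, [0, 0, 0, 0, 0, 0, 0, 0, 2, 1, 0, 0, 0, 0, 0, 0]),
  (190228937147120678400, [0, 0, 0, 0, 0, 0, 0, 0, 2, 0, -1, 0, 0, 0, 0, 0]),
  (499786765428473856000, [0, 0, 0, 0, 0, 0, 0, 0, 2, 0, 0, 1, 0, 0, 0, 0]),
  (193821346646179812000, [0, 0, 0, 0, 0, 0, 0, 0, 2, 0, 0, 0, 0, 1, 0, 0]),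
  (380038121625355084800, [0, 0, 0, 0, 0, 0, 0, 0, 2, 0, 0, 0, 0, 0, 1, 0]),
  (110720715063714114048, [0, 0, 0, 0, 0, 0, 0, 0, 0, 1, 1, 0, 0, 0, 0, 0]),
  (13942144458570737664, [0, 0, 0, 0, 0, 0, 0, 0, 0, 1, 0, -1, 0, 0, 0, 0]),
  (102007250483022950400, [0, 0, 0, 0, 0, 0, 0, 0, 0, 1, 0, 0, 0, 1, 0, 0]),
  (11007128324752819200, [0, 0, 0, 0, 0, 0, 0, 0, 0, 1, 0, 0, 0, 0, -1, 0]),
  (407251355128850995200, [0, 0, 0, 0, 0, 0, 0, 0, 0, 0, 1, -1, 0, 0, 0, 0]),
  (217496867276876313600, [0, 0, 0, 0, 0, 0, 0, 0, 0, 0, 1, 0, 0, 0, 1, 0]),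
  (27824637761876736000, [0, 0, 0, 0, 0, 0, 0, 0, 0, 0, 0, 1, 1, 0, 0, 0]),
  (26299299215136153600, [0, 0, 0, 0, 0, 0, 0, 0, 0, 0, 0, 1, 0, 0, 0, 1]),
  (609263246418997248000, [0, 0, 0, 0, 0, 0, 0, 0, 0, 0, 0, 1, 0, 0, -1, 0]),
  (268262556839028633600, [0, 0, 0, 0, 0, 0, 0, 0, 0, 0, 0, 0, 1, 0, 0, 1]),
  (121310869465126662045696, [1, 0, 0, 0, 0, 0, 0, 0, 0, 0, 0, 0, 0, 0, 0, 0]),
  (483437573966410800537600, [0, 1, 0, 0, 0, 0, 0, 0, 0, 0, 0, 0, 0, 0, 0, 0]),
  (114316961255904112740000, [0, 0, 1, 0, 0, 0, 0, 0, 0, 0, 0, 0, 0, 0, 0, 0]),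
  (110283859519433358148800, [0, 0, 0, 1, 0, 0, 0, 0, 0, 0, 0, 0, 0, 0, 0, 0]),
  (487930564729881832204800, [0, 0, 0, 0, 1, 0, 0, 0, 0, 0, 0, 0, 0, 0, 0, 0]),
  (120813655535785538841600, [0, 0, 0, 0, 0, 1, 0, 0, 0, 0, 0, 0, 0, 0, 0, 0]),
  (470925675739583045596800, [0, 0, 0, 0, 0, 0, 1, 0, 0, 0, 0, 0, 0, 0, 0, 0]),
  (473962759453981891065600, [0, 0, 0, 0, 0, 0, 0, 1, 0, 0, 0, 0, 0, 0, 0, 0]),
  (470726237912428526169600, [0, 0, 0, 0, 0, 0, 0, 0, 1, 0, 0, 0, 0, 0, 0, 0]),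
  (120934112080699447843392, [0, 0, 0, 0, 0, 0, 0, 0, 0, 1, 0, 0, 0, 0, 0, 0]),
  (118670264032727818232352, [0, 0, 0, 0, 0, 0, 0, 0, 0, 0, 1, 0, 0, 0, 0, 0]),
  (117674052416613666026496, [0, 0, 0, 0, 0, 0, 0, 0, 0, 0, 0, 1, 0, 0, 0, 0]),
  (120302115734494221004800, [0, 0, 0, 0, 0, 0, 0, 0, 0, 0, 0, 0, 1, 0, 0, 0]),
  (118794558096232998991200, [0, 0, 0, 0, 0, 0, 0, 0, 0, 0, 0, 0, 0, 1, 0, 0]),
  (118871749444361698828800, [0, 0, 0, 0, 0, 0, 0, 0, 0, 0, 0, 0, 0, 0, 1, 0]),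
  (120079097934837820992000, [0, 0, 0, 0, 0, 0, 0, 0, 0, 0, 0, 0, 0, 0, 0, 1])]

def M5 : List (List ℤ) := [[161168577720023742299504640, 1583766919596296059748352000, 160765396348467928891392000, 352825098442881437270016000, 705327511465643986649088000, 187386157304293846155264000, -69590236335691681234944000, 428108635986753535082496000, 975978410121134094680064000, -60506685770387138556198912, -119573916097591363239936000, -361663008234700202311680000, -394399912544852936491008000, -342009418051115285269708800, -378276315806732560367616000, 17891915912103629684736000],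
  [8621989063654291705243238400, 1022784343321141439140147200, -130024766349972968708505600, -926062421646487329983692800, 1898105163316288686696038400, -4608874871270154426757939200, 3593888339275373698016870400, 4940032705531788970642636800, -914459596242305492297318400, -736801044247970772103987200, -2119569899738667814541721600, -9770397065812480395549081600, -4272296617670753220873523200, -2436047558720129797963776000, 2360972796908485614383923200],
  [248461560915370280487475200, 60758462904425521738905600, 273383984921472201306931200, 9676461705105270476160000, 475908952078902851488972800, -142912894598245284190617600, 429770905980400783561420800, 13162500400290408381081600, -472447223362198744538644800, -389053029259047275852083200, -509428609242175444982169600, -163619817886236799133337600, 257126164118419563876096000, 778808657923034393228083200],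
  [439262648235296877322944000, 1589536411553851054247462400, 350122318903749791858688000, 657443886182589310721424000, 1037064792804915912319756800, 866669201467157229639984000, -114480846756868479270912000, 20769983178177265768857600, -270822538366144082183116800, 1065591375297600517609881600, 33060245424322351330713600, -303371103140615299999334400, -575013810263908436803814400],
  [2218932676575603698066841600, -148188542838012708596121600, 1888305487985805440749977600, 92034657824898082996224000, 2121350465939723276373964800, 184964501173589829491097600, -25676525058171864750489600, -720795873150127966006886400, 3011453654192357320839168000, -281426981944640774691225600, -830079792895242603626496000, -889745348109308011012915200],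
  [602982795598223088909312000, -764769251685567215812608000, 2889379714069076206893465600, 101444872169796390829670400, -613381966792432437873484800, 189851990885892196953292800, -96760529588555486870630400, -1232121425542756331282841600, -731667099401324406816768000, -116296095082487163253862400, -212637506180939602148966400],
  [1562208394666546651240857600, -1579997301984241853290905600, -390947768480355705475891200, 452167277852562199805952000, -521774956177652955649305600, -134376053464546006271385600, 3519595184565691962718617600, 1208803252596267385036800000, 797947862609281084525209600, 504609892209654594733670400],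
  [3545771995569266575670476800, 138138081741597232911974400, -1466801284899321826860844800, 658025867150694378818611200, -129810984733065162243686400, -2154496118877744902833766400, -1695439355341594524615475200, -438660670039783979357491200, -833344844397873694919884800],
  [1729888366559793664214937600, -11684578709950357673779200, -365900648967520571478988800, -1091007144108059194567065600, -1244123375887153486865203200, -944391609829469756228515200, -1444799068526061553846579200, -74711463305061654024192000],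
  [169425040736176613119438848, -127276966092509194217647104, 8141018524682063694262272, 695650994754904585256140800, 399580466948875140026572800, 73154538207212138300160000, 118104581110401271631462400],
  [272118989072664211881513600, 336988148017380261014016000, 403115287526562001364582400, -161493994509424390652313600, -367309082050491328190208000, -759422957739050949518131200],
  [271695322242629551427420160, 730716667276798842191769600, 511702100800079777685504000, 306225439085558203184332800, -578208225896178808297881600],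
  [3569582213321251972056422400, 2375063627001633451019059200, 661317610786861221524275200, -1938019400128520047940198400],
  [991213681086845050762137600, 988257732358395818841292800, -788772202533840099885465600],
  [716921721462895652779084800, 225922959112561485085900800],
  [1317317365723037805546854400]]

def u5 : List ℤ := [1289348621760189938396037120, -7624416300145374177389445120, 23579045805693767649479884800, 1034148417708213595747123200, 2759111595391482971427225600, -8685559308921971775086131200, -484053486163097108449591296, -956591328780730905919488000, 7807709146257150373055692800, 4141891871132319077638864896, -2933162857038598184632320000, 1163176654235748997791744000, -3657838384969221969189273600, 7187776678550747396033740800, -1625329089275154106731724800, 4706744094938095439907225600, 184069315649796165992448000, -10152832722819161100265843200, -2893304065877601618493440000, 0, 0, 8478279598954671258166886400,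 0, 0, 0, 2883183492600511864027545600, -2166580306929152657464934400, 0, 0, 0, 0, 0, 0, 0, 0, 0, 0, 0, 0, 1355400325889412904955510784, -1018215728740073553741176832, -1355400325889412904955510784, 467149912992462046884019200, 65128148197456509554098176, 0, 0, 3368675134470773419278336000, -9880065411063577941285273600, -21503762983624949449496985600, 9217749742540308853515878400, 0, -4148259171219663649279027200, 5227105764827790562104115200, 0, 3393732722582049169253990400, -11660774233070233080800870400, 1499089258434350769242112000, 0, -3097778190102275001679872000, 2893304065877601618493440000, -3903913640484536378720256000, -7592420653265154746784153600, 3087710283889674435003782400, -2947204176991883088415948800, 14466135828697490420622950400, -150149523623288367159705600, -8478279598954671258166886400, 6413388605194949022725337600, 77411693640842163809280000, -1409395923563472433002700800, 8830786524517935499028889600, 0,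 0, -924851093039569929402777600, 0, 9456796874323918695510835200, -2904413106181643130676838400, -2578200696168834384392601600, -6310165979886345910145433600, -2240103479850204422460825600, 1170750137293442852716953600, -4377029971433246486187436800, 2203977358746314385290035200, 2629775544730357242885696000, 0, 0, 0, 0, 0, -1132645037493968568999936000, 8083978913184581127967948800, 3513539653618094947212595200, 4630313028517615753557811200, 0, 0, 12169419161621784030143539200, 3886680074903954032495104000, -3439650282009101229278822400, 0, -4969675072307514479509094400, 2166580306929152657464934400, 0, 1289319687543572051183654400, 3466676805868628918559936000, 0, 123036534840821388882739200, -1284832429107267879567360000, -17243978127308583410486476800, -28605486432366359107679232000, 32389119871201389800416665600, 0, 3514101185882375018583552000, 8392490020683514735556198400, 0, -3465079072760171066963558400, 0, -2595160723773446875216281600,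 5767527376477298675707660800, -1761004781951630419180339200, 0, -12608668580658710832739123200, 3768192178017506114523955200, -3305046437698647135648153600, 7689499718555959148123136000, -769279215385901991349555200, -774084236708443894965043200, -3707963889397296204883507200, 2883718440485289240757862400, -722124233848514931334041600, -2116361969828688547084492800, 519243938932260648974745600, -5802297985491969219959808000, -422543843620056209884262400, 3124416789333093302481715200, 537504213858184025085542400, -5341738250502934671360384000, 971477413900272123046060032, 0, 0, 1286123170787743431131136000, -1158475694229510536193638400, -4091137373284565756560588800, -2451607660941947907604070400, 1987692487322962243899801600, 6643991358429452198684467200, -1719083623921603134245683200, 105300003202323267048652800, -3779577786897589956309158400, -3112424234072378206816665600, 3112424234072378206816665600, 728755893878807386861977600,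 -1058225318744781061903564800, 2324614877803397832151449600, -11529517160301408448008652800, 3150731698367454480649420800, -13044379266935516533146624000, -4437865353151207396133683200, -3776610975971610881499955200, 4242700931879446552747929600, -4242700931879446552747929600, -2883183492600511864027545600, -83193369553674791713382400, -405779488679185563318681600, 774084236708443894965043200, -79818735936138897435033600, -781895536960711410951782400, -2072736598904616955675852800, 3826524362574052753182720000, -718969070147732862717542400, 1876557347595607463748633600, 276276163483194465823948800, -4518054893982980116664524800, -519243938932260648974745600, 87952991363388527590195200, 3459776733119587328429875200, 46738314839801430695116800, -4502623659532328701657497600, -4364028576432236778268262400, 5629773347494122907337932800, -65128148197456509554098176, 414039756571382779188019200, 112817981216092019875430400, 2176951912581313695052108800,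 2695905184139042088112128000, 2066731232130138770554060800, 99219174552273172550860800, 2173562577941036411419361280, -2173562577941036411419361280, 3798924935014071626792140800, -5850567563511663279120384000, 1087931147242482420454195200, 13493056323629121189236121600, 7545774237108050884663296000, -7924436956298390643102412800, -3544137487586539159673241600, 7685110430518610863131955200, -218793763819615970149171200]

theorem gr5 : eqM (gramT rows5) M5 = true := by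
  decide +kernel

theorem mv5 : eqZ (mval M5 tab5) u5 = true := by
  decide +kernel

theorem nn5 (E : Env κ ι) : 0 ≤ dot (ek E keys) u5 0 :=
  block_nonneg E _ _ _ _ _ (tri5 E) rows5 M5 gr5 u5 mv5

end

def p6_0_0 : Cov := [(2, 0, 3, [(0, [0], [1, 2]), (0, [1], [1, 2]), (1, [], [0, 3]), (3, [], [3])])]

def c6_0 : Cov := p6_0_0

def p6_1_0 : Cov := [(1, 0, 3, [(0, [0], [1, 2]), (0, [1], [1, 3]), (1, [], [0, 2]), (3, [], [3])]),
  (1, 0, 3, [(0, [0], [1, 2]), (0, [1], [1, 3]), (1, [], [0, 3]), (3, [], [2])])]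

def c6_1 : Cov := p6_1_0

def p6_2_0 : Cov := [(1, 0, 3, [(0, [0], [1, 2]), (0, [1], [0, 1]), (1, [], [2, 3]), (3, [], [3])]),
  (1, 0, 3, [(0, [0], [0, 1]), (0, [1], [1, 2]), (1, [], [2, 3]), (3, [], [3])])]

def c6_2 : Cov := p6_2_0

def p6_3_0 : Cov := [(1, 0, 3, [(0, [0], [1, 2]), (0, [1], [0, 3]), (1, [], [1, 2]), (3, [], [3])]),
  (1, 0, 3, [(0, [0], [0, 1]), (0, [1], [2, 3]), (1, [], [2, 3]), (3, [], [1])])]

def c6_3 : Cov := p6_3_0

def p6_4_0 : Cov := [(1, 0, 3, [(0, [0], [1, 2]), (0, [1], [0, 3]), (1, [], [1, 3]), (3, [], [2])]),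
  (1, 0, 3, [(0, [0], [0, 1]), (0, [1], [2, 3]), (1, [], [1, 2]), (3, [], [3])])]

def c6_4 : Cov := p6_4_0

def p6_5_0 : Cov := [(1, 0, 2, [(0, [0], [1, 2]), (2, [1], [0, 1, 2])]),
  (1, 0, 2, [(0, [1], [1, 2]), (2, [0], [0, 1, 2])])]

def c6_5 : Cov := p6_5_0

theorem t6_0_0_0 : chkS keys 2 1 p6_0_0 c6_0
  [(147, 16, 16, 103956741, 100881441)]
  [(147, 4)] = true := by
  decide +kernel

theorem t6_0_1_0 : chkS keys 2 1 p6_0_0 c6_1
  [(117, 1, 1, 54681861, 50684961), (117, 16, 16, 70410501, 50746401)]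
  [(117, 4)] = true := by
  decide +kernel

theorem t6_0_2_0 : chkS keys 2 1 p6_0_0 c6_2
  [(92, 16, 16, 68182821, 50733396), (92, 16, 16, 105923361, 106111236)]
  [(92, 4)] = true := by
  decide +kernel

theorem t6_0_3_0 : chkS keys 2 1 p6_0_0 c6_3
  [(69, 16, 16, 101729061, 100868436), (69, 1, 1, 17187621, 67314021)]
  [(69, 4)] = true := by
  decide +kernel

theorem t6_0_4_0 : chkS keys 2 1 p6_0_0 c6_4
  [(79, 16, 16, 68182821, 50733396), (79, 1, 1, 17064741, 50602341)]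
  [(79, 4)] = true := by
  decide +kernel

theorem t6_0_5_0 : chkS keys 2 1 p6_0_0 c6_5
  [(148, 16, 16, 3293445, 218145), (148, 1, 1, 3293445, 218145)]
  [(148, 4)] = true := by
  decide +kernel

theorem t6_1_1_0 : chkS keys 2 1 p6_1_0 c6_1
  [(159, 16, 16, 87179286, 6509586), (103, 16, 16, 103960836, 103830561), (103, 1, 1, 56759556, 86008881), (159, 1, 1, 55706646, 5399571)]
  [(103, 2), (159, 2)] = true := by
  decide +kernel

theorem t6_1_2_0 : chkS keys 2 1 p6_1_0 c6_2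
  [(95, 16, 16, 68182821, 50733396), (155, 1, 1, 103945221, 100815921), (155, 16, 16, 103956741, 100881441), (95, 1, 1, 68171301, 33960276)]
  [(95, 2), (155, 2)] = true := by
  decide +kernel

theorem t6_1_3_0 : chkS keys 2 1 p6_1_0 c6_3
  [(70, 16, 16, 101729061, 100868436), (17, 16, 16, 106119426, 106119201), (17, 1, 1, 56955906, 88236081), (70, 1, 1, 17183781, 67252581)]
  [(17, 2), (70, 2)] = true := by
  decide +kernel

theorem t6_1_4_0 : chkS keys 2 1 p6_1_0 c6_4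
  [(83, 16, 16, 68178726, 3547476), (157, 16, 16, 106119186, 106119186), (157, 1, 1, 56951826, 88236051), (83, 1, 1, 17052966, 2371941)]
  [(83, 2), (157, 2)] = true := by
  decide +kernel

theorem t6_1_5_0 : chkS keys 2 1 p6_1_0 c6_5
  [(25, 16, 16, 3293445, 218145), (26, 1, 1, 3281925, 152625), (26, 16, 16, 3293445, 218145), (25, 1, 1, 3281925, 152625)]
  [(25, 2), (26, 2)] = true := by
  decide +kernel

theorem t6_2_2_0 : chkS keys 2 1 p6_2_0 c6_2
  [(85, 1, 1, 70411521, 52843521), (93, 16, 16, 106119426, 106119201), (93, 1, 1, 106119426, 106119201), (85, 16, 16, 70411521, 52843521)]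
  [(85, 2), (93, 2)] = true := by
  decide +kernel

theorem t6_2_3_0 : chkS keys 2 1 p6_2_0 c6_3
  [(13, 1, 1, 39084816, 55846416), (16, 1, 1, 52782081, 54682881), (16, 16, 16, 87188481, 56775681), (13, 16, 16, 88236816, 56960016)]
  [(13, 2), (16, 2)] = true := by
  decide +kernel

theorem t6_2_4_0 : chkS keys 2 1 p6_2_0 c6_4
  [(77, 16, 16, 68182821, 50733396), (78, 1, 1, 17065251, 52691301), (78, 16, 16, 68183331, 52822356), (77, 1, 1, 17064741, 50602341)]
  [(77, 2), (78, 2)] = true := by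
  decide +kernel

theorem t6_2_5_0 : chkS keys 2 1 p6_2_0 c6_5
  [(24, 16, 16, 3297540, 3167265), (23, 1, 1, 3298305, 3298305), (23, 16, 16, 3298305, 3298305), (24, 1, 1, 3297540, 3167265)]
  [(23, 2), (24, 2)] = true := by
  decide +kernel

theorem t6_3_3_0 : chkS keys 2 1 p6_3_0 c6_3
  [(61, 1, 1, 40178736, 88217136), (54, 16, 16, 88301826, 56967201), (54, 1, 1, 55840866, 22306866), (61, 16, 16, 106054416, 106112016)]
  [(54, 2), (61, 2)] = true := by
  decide +kernel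

theorem t6_3_4_0 : chkS keys 2 1 p6_3_0 c6_4
  [(14, 1, 1, 21177936, 34947936), (70, 16, 16, 106119426, 106119201), (70, 1, 1, 56954946, 88170546), (14, 16, 16, 70346016, 52842816)]
  [(14, 2), (70, 2)] = true := by
  decide +kernel

theorem t6_3_5_0 : chkS keys 2 1 p6_3_0 c6_5
  [(29, 16, 16, 1069860, 3154260), (28, 1, 1, 1062210, 2175060), (28, 16, 16, 1070130, 3280980), (29, 1, 1, 1061460, 1061460)]
  [(28, 2), (29, 2)] = true := by
  decide +kernel

theorem t6_4_4_0 : chkS keys 2 1 p6_4_0 c6_4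
  [(197, 16, 16, 106180866, 106180641), (75, 16, 16, 106119426, 106119201), (75, 1, 1, 56954946, 88170546), (197, 1, 1, 88477746, 73732146)]
  [(75, 2), (197, 2)] = true := by
  decide +kernel

theorem t6_4_5_0 : chkS keys 2 1 p6_4_0 c6_5
  [(30, 16, 16, 1069860, 3154260), (27, 1, 1, 1062210, 2175060), (27, 16, 16, 1070130, 3280980), (30, 1, 1, 1061460, 1061460)]
  [(27, 2), (30, 2)] = true := by
  decide +kernel

theorem t6_5_5_0 : chkS keys 2 1 p6_5_0 c6_5
  [(34, 16, 16, 143620, 13345), (38, 16, 16, 143620, 13345), (38, 1, 1, 143620, 13345), (34, 1, 1, 143620, 13345)]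
  [(34, 2), (38, 2)] = true := by
  decide +kernel

section

variable {κ ι : Type*} [Fintype κ] [Fintype ι] [Inhabited κ] [Inhabited ι]

def r6_0_0 : List (ℕ × ℤ) := [(147, 4)]

theorem h6_0_0 (E : Env κ ι) : inn E 2 1 c6_0 c6_0 = dotS (ek E keys) r6_0_0 :=
  innS_eqZ E _ _ _ _ _ _ _ (chkS_sound E keys 2 1 _ _ _ _ t6_0_0_0) (by decide +kernel)

def r6_0_1 : List (ℕ × ℤ) := [(117, 4)]

theorem h6_0_1 (E : Env κ ι) : inn E 2 1 c6_0 c6_1 = dotS (ek E keys) r6_0_1 :=
  innS_eqZ E _ _ _ _ _ _ _ (chkS_sound E keys 2 1 _ _ _ _ t6_0_1_0) (by decide +kernel)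

def r6_0_2 : List (ℕ × ℤ) := [(92, 4)]

theorem h6_0_2 (E : Env κ ι) : inn E 2 1 c6_0 c6_2 = dotS (ek E keys) r6_0_2 :=
  innS_eqZ E _ _ _ _ _ _ _ (chkS_sound E keys 2 1 _ _ _ _ t6_0_2_0) (by decide +kernel)

def r6_0_3 : List (ℕ × ℤ) := [(69, 4)]

theorem h6_0_3 (E : Env κ ι) : inn E 2 1 c6_0 c6_3 = dotS (ek E keys) r6_0_3 :=
  innS_eqZ E _ _ _ _ _ _ _ (chkS_sound E keys 2 1 _ _ _ _ t6_0_3_0) (by decide +kernel)

def r6_0_4 : List (ℕ × ℤ) := [(79, 4)]

theorem h6_0_4 (E : Env κ ι) : inn E 2 1 c6_0 c6_4 = dotS (ek E keys) r6_0_4 :=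
  innS_eqZ E _ _ _ _ _ _ _ (chkS_sound E keys 2 1 _ _ _ _ t6_0_4_0) (by decide +kernel)

def r6_0_5 : List (ℕ × ℤ) := [(148, 4)]

theorem h6_0_5 (E : Env κ ι) : inn E 2 1 c6_0 c6_5 = dotS (ek E keys) r6_0_5 :=
  innS_eqZ E _ _ _ _ _ _ _ (chkS_sound E keys 2 1 _ _ _ _ t6_0_5_0) (by decide +kernel)

def r6_1_1 : List (ℕ × ℤ) := [(103, 2), (159, 2)]

theorem h6_1_1 (E : Env κ ι) : inn E 2 1 c6_1 c6_1 = dotS (ek E keys) r6_1_1 :=
  innS_eqZ E _ _ _ _ _ _ _ (chkS_sound E keys 2 1 _ _ _ _ t6_1_1_0) (by decide +kernel)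

def r6_1_2 : List (ℕ × ℤ) := [(95, 2), (155, 2)]

theorem h6_1_2 (E : Env κ ι) : inn E 2 1 c6_1 c6_2 = dotS (ek E keys) r6_1_2 :=
  innS_eqZ E _ _ _ _ _ _ _ (chkS_sound E keys 2 1 _ _ _ _ t6_1_2_0) (by decide +kernel)

def r6_1_3 : List (ℕ × ℤ) := [(17, 2), (70, 2)]

theorem h6_1_3 (E : Env κ ι) : inn E 2 1 c6_1 c6_3 = dotS (ek E keys) r6_1_3 :=
  innS_eqZ E _ _ _ _ _ _ _ (chkS_sound E keys 2 1 _ _ _ _ t6_1_3_0) (by decide +kernel)

def r6_1_4 : List (ℕ × ℤ) := [(83, 2), (157, 2)]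

theorem h6_1_4 (E : Env κ ι) : inn E 2 1 c6_1 c6_4 = dotS (ek E keys) r6_1_4 :=
  innS_eqZ E _ _ _ _ _ _ _ (chkS_sound E keys 2 1 _ _ _ _ t6_1_4_0) (by decide +kernel)

def r6_1_5 : List (ℕ × ℤ) := [(25, 2), (26, 2)]

theorem h6_1_5 (E : Env κ ι) : inn E 2 1 c6_1 c6_5 = dotS (ek E keys) r6_1_5 :=
  innS_eqZ E _ _ _ _ _ _ _ (chkS_sound E keys 2 1 _ _ _ _ t6_1_5_0) (by decide +kernel)

def r6_2_2 : List (ℕ × ℤ) := [(85, 2), (93, 2)]

theorem h6_2_2 (E : Env κ ι) : inn E 2 1 c6_2 c6_2 = dotS (ek E keys) r6_2_2 :=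
  innS_eqZ E _ _ _ _ _ _ _ (chkS_sound E keys 2 1 _ _ _ _ t6_2_2_0) (by decide +kernel)

def r6_2_3 : List (ℕ × ℤ) := [(13, 2), (16, 2)]

theorem h6_2_3 (E : Env κ ι) : inn E 2 1 c6_2 c6_3 = dotS (ek E keys) r6_2_3 :=
  innS_eqZ E _ _ _ _ _ _ _ (chkS_sound E keys 2 1 _ _ _ _ t6_2_3_0) (by decide +kernel)

def r6_2_4 : List (ℕ × ℤ) := [(77, 2), (78, 2)]

theorem h6_2_4 (E : Env κ ι) : inn E 2 1 c6_2 c6_4 = dotS (ek E keys) r6_2_4 :=
  innS_eqZ E _ _ _ _ _ _ _ (chkS_sound E keys 2 1 _ _ _ _ t6_2_4_0) (by decide +kernel)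

def r6_2_5 : List (ℕ × ℤ) := [(23, 2), (24, 2)]

theorem h6_2_5 (E : Env κ ι) : inn E 2 1 c6_2 c6_5 = dotS (ek E keys) r6_2_5 :=
  innS_eqZ E _ _ _ _ _ _ _ (chkS_sound E keys 2 1 _ _ _ _ t6_2_5_0) (by decide +kernel)

def r6_3_3 : List (ℕ × ℤ) := [(54, 2), (61, 2)]

theorem h6_3_3 (E : Env κ ι) : inn E 2 1 c6_3 c6_3 = dotS (ek E keys) r6_3_3 :=
  innS_eqZ E _ _ _ _ _ _ _ (chkS_sound E keys 2 1 _ _ _ _ t6_3_3_0) (by decide +kernel)

def r6_3_4 : List (ℕ × ℤ) := [(14, 2), (70, 2)]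

theorem h6_3_4 (E : Env κ ι) : inn E 2 1 c6_3 c6_4 = dotS (ek E keys) r6_3_4 :=
  innS_eqZ E _ _ _ _ _ _ _ (chkS_sound E keys 2 1 _ _ _ _ t6_3_4_0) (by decide +kernel)

def r6_3_5 : List (ℕ × ℤ) := [(28, 2), (29, 2)]

theorem h6_3_5 (E : Env κ ι) : inn E 2 1 c6_3 c6_5 = dotS (ek E keys) r6_3_5 :=
  innS_eqZ E _ _ _ _ _ _ _ (chkS_sound E keys 2 1 _ _ _ _ t6_3_5_0) (by decide +kernel)

def r6_4_4 : List (ℕ × ℤ) := [(75, 2), (197, 2)]

theorem h6_4_4 (E : Env κ ι) : inn E 2 1 c6_4 c6_4 = dotS (ek E keys) r6_4_4 :=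
  innS_eqZ E _ _ _ _ _ _ _ (chkS_sound E keys 2 1 _ _ _ _ t6_4_4_0) (by decide +kernel)

def r6_4_5 : List (ℕ × ℤ) := [(27, 2), (30, 2)]

theorem h6_4_5 (E : Env κ ι) : inn E 2 1 c6_4 c6_5 = dotS (ek E keys) r6_4_5 :=
  innS_eqZ E _ _ _ _ _ _ _ (chkS_sound E keys 2 1 _ _ _ _ t6_4_5_0) (by decide +kernel)

def r6_5_5 : List (ℕ × ℤ) := [(34, 2), (38, 2)]

theorem h6_5_5 (E : Env κ ι) : inn E 2 1 c6_5 c6_5 = dotS (ek E keys) r6_5_5 :=
  innS_eqZ E _ _ _ _ _ _ _ (chkS_sound E keys 2 1 _ _ _ _ t6_5_5_0) (by decide +kernel)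

theorem row6_0 (E : Env κ ι) : RowS E 2 1 (ek E keys) c6_0 [c6_0, c6_1, c6_2, c6_3, c6_4, c6_5] [r6_0_0, r6_0_1, r6_0_2, r6_0_3, r6_0_4, r6_0_5] :=
  rowS_cons E _ _ _ _ _ _ _ _ (h6_0_0 E) (rowS_cons E _ _ _ _ _ _ _ _ (h6_0_1 E) (rowS_cons E _ _ _ _ _ _ _ _ (h6_0_2 E) (rowS_cons E _ _ _ _ _ _ _ _ (h6_0_3 E) (rowS_cons E _ _ _ _ _ _ _ _ (h6_0_4 E) (rowS_cons E _ _ _ _ _ _ _ _ (h6_0_5 E) (rowS_nil E _ _ _ _))))))

theorem row6_1 (E : Env κ ι) : RowS E 2 1 (ek E keys) c6_1 [c6_1, c6_2, c6_3, c6_4, c6_5] [r6_1_1, r6_1_2, r6_1_3, r6_1_4, r6_1_5] :=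
  rowS_cons E _ _ _ _ _ _ _ _ (h6_1_1 E) (rowS_cons E _ _ _ _ _ _ _ _ (h6_1_2 E) (rowS_cons E _ _ _ _ _ _ _ _ (h6_1_3 E) (rowS_cons E _ _ _ _ _ _ _ _ (h6_1_4 E) (rowS_cons E _ _ _ _ _ _ _ _ (h6_1_5 E) (rowS_nil E _ _ _ _)))))

theorem row6_2 (E : Env κ ι) : RowS E 2 1 (ek E keys) c6_2 [c6_2, c6_3, c6_4, c6_5] [r6_2_2, r6_2_3, r6_2_4, r6_2_5] :=
  rowS_cons E _ _ _ _ _ _ _ _ (h6_2_2 E) (rowS_cons E _ _ _ _ _ _ _ _ (h6_2_3 E) (rowS_cons E _ _ _ _ _ _ _ _ (h6_2_4 E) (rowS_cons E _ _ _ _ _ _ _ _ (h6_2_5 E) (rowS_nil E _ _ _ _))))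

theorem row6_3 (E : Env κ ι) : RowS E 2 1 (ek E keys) c6_3 [c6_3, c6_4, c6_5] [r6_3_3, r6_3_4, r6_3_5] :=
  rowS_cons E _ _ _ _ _ _ _ _ (h6_3_3 E) (rowS_cons E _ _ _ _ _ _ _ _ (h6_3_4 E) (rowS_cons E _ _ _ _ _ _ _ _ (h6_3_5 E) (rowS_nil E _ _ _ _)))

theorem row6_4 (E : Env κ ι) : RowS E 2 1 (ek E keys) c6_4 [c6_4, c6_5] [r6_4_4, r6_4_5] :=
  rowS_cons E _ _ _ _ _ _ _ _ (h6_4_4 E) (rowS_cons E _ _ _ _ _ _ _ _ (h6_4_5 E) (rowS_nil E _ _ _ _))

theorem row6_5 (E : Env κ ι) : RowS E 2 1 (ek E keys) c6_5 [c6_5] [r6_5_5] :=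
  rowS_cons E _ _ _ _ _ _ _ _ (h6_5_5 E) (rowS_nil E _ _ _ _)

def tab6 : List (List (List (ℕ × ℤ))) := [[r6_0_0, r6_0_1, r6_0_2, r6_0_3, r6_0_4, r6_0_5], [r6_1_1, r6_1_2, r6_1_3, r6_1_4, r6_1_5], [r6_2_2, r6_2_3, r6_2_4, r6_2_5], [r6_3_3, r6_3_4, r6_3_5], [r6_4_4, r6_4_5], [r6_5_5]]

theorem tri6 (E : Env κ ι) : TriS E 2 1 (ek E keys) [c6_0, c6_1, c6_2, c6_3, c6_4, c6_5] tab6 := by
  refine triS_cons E _ _ _ _ _ _ _ (row6_0 E) ?_
  refine triS_cons E _ _ _ _ _ _ _ (row6_1 E) ?_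
  refine triS_cons E _ _ _ _ _ _ _ (row6_2 E) ?_
  refine triS_cons E _ _ _ _ _ _ _ (row6_3 E) ?_
  refine triS_cons E _ _ _ _ _ _ _ (row6_4 E) ?_
  refine triS_cons E _ _ _ _ _ _ _ (row6_5 E) ?_
  exact triS_nil E _ _ _

def rows6 : List (ℕ × List ℤ) := [(32903287603200, [4194304, 4390326, 2745680, 1777159, -8441840, -3965215]),
  (38552371200, [0, 4194304, 1371695, 887678, -4217469, -1980978]),
  (22162636800, [0, 0, 4194304, 460109, -2189567, -1028285]),
  (19707494400, [0, 0, 0, 4194304, -1323562, -621649]),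
  (45962035200, [0, 0, 0, 0, 4194304, 1181571]),
  (366542569352131824844800, [0, 0, 0, 0, 0, 1]),
  (1236888631534172702400, [1, 0, -1, 0, 0, 0]),
  (1901633268851730892800, [1, 0, 0, 0, 0, 1]),
  (1519875546049007308800, [0, 0, 0, 1, 0, -1]),
  (612609272161949491200, [0, 0, 0, 0, 1, 1]),
  (482161943005673584046400, [1, 0, 0, 0, 0, 0]),
  (485300464906059487641600, [0, 1, 0, 0, 0, 0]),
  (484063576274525314939200, [0, 0, 1, 0, 0, 0]),
  (483780589360010480332800, [0, 0, 0, 1, 0, 0]),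
  (489006315380160090028800, [0, 0, 0, 0, 1, 0]),
  (481351584761830752307200, [0, 0, 0, 0, 0, 1])]

def M6 : List (List ℤ) := [[579326057453327076871372800, 1211786091454480405600665600, 757840300446049223281603200, 490518598961250928322150400, -2330055740344587364859904000, -1094446218583019145276518400],
  [635373151888011245420544000, 793704380723352842010624000, 513730202034322713142886400, -2440315495977145106064998400, -1146240107143616749849804800],
  [248997672239833784350310400, 321283261824367128861081600, -1526156835983408918244556800, -716850792531254332735488000],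
  [104785327886482421091532800, -987814739108317358260224000, -463989294904604969567232000],
  [2346966389455686051334675200, 2204023459141331159235379200],
  [518434524042578081788723200]]

def u6 : List ℤ := [0, 0, 0, 0, 0, 0, 0, 0, 0, 0, 0, 0, 0, 642566523648734257722163200, -1975629478216634716520448000, 0, 642566523648734257722163200, 1027460404068645426285772800, 0, 0, 0, 0, 0, -1433701585062508665470976000, -1433701585062508665470976000, -2292480214287233499699609600, -2292480214287233499699609600, 4408046918282662318470758400, -927978589809209939134464000, -927978589809209939134464000, 4408046918282662318470758400, 0, 0, 0, 1036869048085156163577446400, 0, 0, 0, 1036869048085156163577446400, 0, 0, 0, 0, 0, 0, 0, 0, 0, 0, 0, 0, 0, 0, 0, 209570655772964842183065600, 0, 0, 0, 0, 0, 0, 209570655772964842183065600, 0, 0, 0, 0, 0, 0, 0, 1962074395845003713288601600, -948169074147989290234675200, 0, 0, 0, 0, 4693932778911372102669350400,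 0, -3052313671966817836489113600, -3052313671966817836489113600, -9320222961378349459439616000, 0, 0, 0, -4880630991954290212129996800, 0, 497995344479667568700620800, 0, 0, 0, 0, 0, 0, 3031361201784196893126412800, 497995344479667568700620800, 0, 1587408761446705684021248000, 0, 0, 0, 0, 0, 0, 0, 1270746303776022490841088000, 0, 0, 0, 0, 0, 0, 0, 0, 0, 0, 0, 0, 0, 4847144365817921622402662400, 0, 0, 0, 0, 0, 0, 0, 0, 0, 0, 0, 0, 0, 0, 0, 0, 0, 0, 0, 0, 0, 0, 0, 0, 0, 0, 0, 0, 0, 2317304229813308307485491200, -4377784874332076581106073600, 0, 0, 0, 0, 0, 0, 1587408761446705684021248000, 0, -4880630991954290212129996800, 0, 1270746303776022490841088000, 0, 0, 0, 0, 0, 0, 0, 0, 0, 0, 0, 0, 0, 0, 0, 0, 0, 0, 0, 0, 0, 0, 0, 0, 0, 0, 0, 0, 0, 0, 0, 0, 0, 0, 0, 0, 0, 4693932778911372102669350400]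

theorem gr6 : eqM (gramT rows6) M6 = true := by
  decide +kernel

theorem mv6 : eqZ (mval M6 tab6) u6 = true := by
  decide +kernel

theorem nn6 (E : Env κ ι) : 0 ≤ dot (ek E keys) u6 0 :=
  block_nonneg E _ _ _ _ _ (tri6 E) rows6 M6 gr6 u6 mv6

end

def p7_0_0 : Cov := [(1, 0, 3, [(0, [0], [1, 2]), (0, [1], [1, 3]), (1, [], [0, 2]), (3, [], [3])]),
  (-1, 0, 3, [(0, [0], [1, 2]), (0, [1], [1, 3]), (1, [], [0, 3]), (3, [], [2])])]

def c7_0 : Cov := p7_0_0

def p7_1_0 : Cov := [(1, 0, 3, [(0, [0], [1, 2]), (0, [1], [0, 1]), (1, [], [2, 3]), (3, [], [3])]),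
  (-1, 0, 3, [(0, [0], [0, 1]), (0, [1], [1, 2]), (1, [], [2, 3]), (3, [], [3])])]

def c7_1 : Cov := p7_1_0

def p7_2_0 : Cov := [(1, 0, 3, [(0, [0], [1, 2]), (0, [1], [0, 3]), (1, [], [1, 2]), (3, [], [3])]),
  (-1, 0, 3, [(0, [0], [0, 1]), (0, [1], [2, 3]), (1, [], [2, 3]), (3, [], [1])])]

def c7_2 : Cov := p7_2_0

def p7_3_0 : Cov := [(1, 0, 3, [(0, [0], [1, 2]), (0, [1], [0, 3]), (1, [], [1, 3]), (3, [], [2])]),
  (-1, 0, 3, [(0, [0], [0, 1]), (0, [1], [2, 3]), (1, [], [1, 2]), (3, [], [3])])]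

def c7_3 : Cov := p7_3_0

def p7_4_0 : Cov := [(1, 0, 2, [(0, [0], [1, 2]), (2, [1], [0, 1, 2])]),
  (-1, 0, 2, [(0, [1], [1, 2]), (2, [0], [0, 1, 2])])]

def c7_4 : Cov := p7_4_0

theorem t7_0_0_0 : chkS keys 2 1 p7_0_0 c7_0
  [(159, 16, 16, 87179286, 6509586), (103, 16, 16, 103960836, 103830561), (103, 1, 1, 56759556, 86008881), (159, 1, 1, 55706646, 5399571)]
  [(103, -2), (159, 2)] = true := by
  decide +kernel

theorem t7_0_1_0 : chkS keys 2 1 p7_0_0 c7_1
  [(95, 16, 16, 68182821, 50733396), (155, 1, 1, 103945221, 100815921), (155, 16, 16, 103956741, 100881441), (95, 1, 1, 68171301, 33960276)]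
  [(95, 2), (155, -2)] = true := by
  decide +kernel

theorem t7_0_2_0 : chkS keys 2 1 p7_0_0 c7_2
  [(70, 16, 16, 101729061, 100868436), (17, 16, 16, 106119426, 106119201), (17, 1, 1, 56955906, 88236081), (70, 1, 1, 17183781, 67252581)]
  [(17, -2), (70, 2)] = true := by
  decide +kernel

theorem t7_0_3_0 : chkS keys 2 1 p7_0_0 c7_3
  [(83, 16, 16, 68178726, 3547476), (157, 16, 16, 106119186, 106119186), (157, 1, 1, 56951826, 88236051), (83, 1, 1, 17052966, 2371941)]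
  [(83, 2), (157, -2)] = true := by
  decide +kernel

theorem t7_0_4_0 : chkS keys 2 1 p7_0_0 c7_4
  [(25, 16, 16, 3293445, 218145), (26, 1, 1, 3281925, 152625), (26, 16, 16, 3293445, 218145), (25, 1, 1, 3281925, 152625)]
  [(25, 2), (26, -2)] = true := by
  decide +kernel

theorem t7_1_1_0 : chkS keys 2 1 p7_1_0 c7_1
  [(85, 1, 1, 70411521, 52843521), (93, 16, 16, 106119426, 106119201), (93, 1, 1, 106119426, 106119201), (85, 16, 16, 70411521, 52843521)]
  [(85, 2), (93, -2)] = true := by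
  decide +kernel

theorem t7_1_2_0 : chkS keys 2 1 p7_1_0 c7_2
  [(13, 1, 1, 39084816, 55846416), (16, 1, 1, 52782081, 54682881), (16, 16, 16, 87188481, 56775681), (13, 16, 16, 88236816, 56960016)]
  [(13, 2), (16, -2)] = true := by
  decide +kernel

theorem t7_1_3_0 : chkS keys 2 1 p7_1_0 c7_3
  [(77, 16, 16, 68182821, 50733396), (78, 1, 1, 17065251, 52691301), (78, 16, 16, 68183331, 52822356), (77, 1, 1, 17064741, 50602341)]
  [(77, 2), (78, -2)] = true := by
  decide +kernel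

theorem t7_1_4_0 : chkS keys 2 1 p7_1_0 c7_4
  [(24, 16, 16, 3297540, 3167265), (23, 1, 1, 3298305, 3298305), (23, 16, 16, 3298305, 3298305), (24, 1, 1, 3297540, 3167265)]
  [(23, -2), (24, 2)] = true := by
  decide +kernel

theorem t7_2_2_0 : chkS keys 2 1 p7_2_0 c7_2
  [(61, 1, 1, 40178736, 88217136), (54, 16, 16, 88301826, 56967201), (54, 1, 1, 55840866, 22306866), (61, 16, 16, 106054416, 106112016)]
  [(54, -2), (61, 2)] = true := by
  decide +kernel

theorem t7_2_3_0 : chkS keys 2 1 p7_2_0 c7_3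
  [(14, 1, 1, 21177936, 34947936), (70, 16, 16, 106119426, 106119201), (70, 1, 1, 56954946, 88170546), (14, 16, 16, 70346016, 52842816)]
  [(14, 2), (70, -2)] = true := by
  decide +kernel

theorem t7_2_4_0 : chkS keys 2 1 p7_2_0 c7_4
  [(29, 16, 16, 1069860, 3154260), (28, 1, 1, 1062210, 2175060), (28, 16, 16, 1070130, 3280980), (29, 1, 1, 1061460, 1061460)]
  [(28, -2), (29, 2)] = true := by
  decide +kernel

theorem t7_3_3_0 : chkS keys 2 1 p7_3_0 c7_3
  [(197, 16, 16, 106180866, 106180641), (75, 16, 16, 106119426, 106119201), (75, 1, 1, 56954946, 88170546), (197, 1, 1, 88477746, 73732146)]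
  [(75, -2), (197, 2)] = true := by
  decide +kernel

theorem t7_3_4_0 : chkS keys 2 1 p7_3_0 c7_4
  [(30, 16, 16, 1069860, 3154260), (27, 1, 1, 1062210, 2175060), (27, 16, 16, 1070130, 3280980), (30, 1, 1, 1061460, 1061460)]
  [(27, -2), (30, 2)] = true := by
  decide +kernel

theorem t7_4_4_0 : chkS keys 2 1 p7_4_0 c7_4
  [(34, 16, 16, 143620, 13345), (38, 16, 16, 143620, 13345), (38, 1, 1, 143620, 13345), (34, 1, 1, 143620, 13345)]
  [(34, 2), (38, -2)] = true := by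
  decide +kernel

section

variable {κ ι : Type*} [Fintype κ] [Fintype ι] [Inhabited κ] [Inhabited ι]

def r7_0_0 : List (ℕ × ℤ) := [(103, -2), (159, 2)]

theorem h7_0_0 (E : Env κ ι) : inn E 2 1 c7_0 c7_0 = dotS (ek E keys) r7_0_0 :=
  innS_eqZ E _ _ _ _ _ _ _ (chkS_sound E keys 2 1 _ _ _ _ t7_0_0_0) (by decide +kernel)

def r7_0_1 : List (ℕ × ℤ) := [(95, 2), (155, -2)]

theorem h7_0_1 (E : Env κ ι) : inn E 2 1 c7_0 c7_1 = dotS (ek E keys) r7_0_1 :=
  innS_eqZ E _ _ _ _ _ _ _ (chkS_sound E keys 2 1 _ _ _ _ t7_0_1_0) (by decide +kernel)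

def r7_0_2 : List (ℕ × ℤ) := [(17, -2), (70, 2)]

theorem h7_0_2 (E : Env κ ι) : inn E 2 1 c7_0 c7_2 = dotS (ek E keys) r7_0_2 :=
  innS_eqZ E _ _ _ _ _ _ _ (chkS_sound E keys 2 1 _ _ _ _ t7_0_2_0) (by decide +kernel)

def r7_0_3 : List (ℕ × ℤ) := [(83, 2), (157, -2)]

theorem h7_0_3 (E : Env κ ι) : inn E 2 1 c7_0 c7_3 = dotS (ek E keys) r7_0_3 :=
  innS_eqZ E _ _ _ _ _ _ _ (chkS_sound E keys 2 1 _ _ _ _ t7_0_3_0) (by decide +kernel)

def r7_0_4 : List (ℕ × ℤ) := [(25, 2), (26, -2)]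

theorem h7_0_4 (E : Env κ ι) : inn E 2 1 c7_0 c7_4 = dotS (ek E keys) r7_0_4 :=
  innS_eqZ E _ _ _ _ _ _ _ (chkS_sound E keys 2 1 _ _ _ _ t7_0_4_0) (by decide +kernel)

def r7_1_1 : List (ℕ × ℤ) := [(85, 2), (93, -2)]

theorem h7_1_1 (E : Env κ ι) : inn E 2 1 c7_1 c7_1 = dotS (ek E keys) r7_1_1 :=
  innS_eqZ E _ _ _ _ _ _ _ (chkS_sound E keys 2 1 _ _ _ _ t7_1_1_0) (by decide +kernel)

def r7_1_2 : List (ℕ × ℤ) := [(13, 2), (16, -2)]

theorem h7_1_2 (E : Env κ ι) : inn E 2 1 c7_1 c7_2 = dotS (ek E keys) r7_1_2 :=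
  innS_eqZ E _ _ _ _ _ _ _ (chkS_sound E keys 2 1 _ _ _ _ t7_1_2_0) (by decide +kernel)

def r7_1_3 : List (ℕ × ℤ) := [(77, 2), (78, -2)]

theorem h7_1_3 (E : Env κ ι) : inn E 2 1 c7_1 c7_3 = dotS (ek E keys) r7_1_3 :=
  innS_eqZ E _ _ _ _ _ _ _ (chkS_sound E keys 2 1 _ _ _ _ t7_1_3_0) (by decide +kernel)

def r7_1_4 : List (ℕ × ℤ) := [(23, -2), (24, 2)]

theorem h7_1_4 (E : Env κ ι) : inn E 2 1 c7_1 c7_4 = dotS (ek E keys) r7_1_4 :=
  innS_eqZ E _ _ _ _ _ _ _ (chkS_sound E keys 2 1 _ _ _ _ t7_1_4_0) (by decide +kernel)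

def r7_2_2 : List (ℕ × ℤ) := [(54, -2), (61, 2)]

theorem h7_2_2 (E : Env κ ι) : inn E 2 1 c7_2 c7_2 = dotS (ek E keys) r7_2_2 :=
  innS_eqZ E _ _ _ _ _ _ _ (chkS_sound E keys 2 1 _ _ _ _ t7_2_2_0) (by decide +kernel)

def r7_2_3 : List (ℕ × ℤ) := [(14, 2), (70, -2)]

theorem h7_2_3 (E : Env κ ι) : inn E 2 1 c7_2 c7_3 = dotS (ek E keys) r7_2_3 :=
  innS_eqZ E _ _ _ _ _ _ _ (chkS_sound E keys 2 1 _ _ _ _ t7_2_3_0) (by decide +kernel)

def r7_2_4 : List (ℕ × ℤ) := [(28, -2), (29, 2)]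

theorem h7_2_4 (E : Env κ ι) : inn E 2 1 c7_2 c7_4 = dotS (ek E keys) r7_2_4 :=
  innS_eqZ E _ _ _ _ _ _ _ (chkS_sound E keys 2 1 _ _ _ _ t7_2_4_0) (by decide +kernel)

def r7_3_3 : List (ℕ × ℤ) := [(75, -2), (197, 2)]

theorem h7_3_3 (E : Env κ ι) : inn E 2 1 c7_3 c7_3 = dotS (ek E keys) r7_3_3 :=
  innS_eqZ E _ _ _ _ _ _ _ (chkS_sound E keys 2 1 _ _ _ _ t7_3_3_0) (by decide +kernel)

def r7_3_4 : List (ℕ × ℤ) := [(27, -2), (30, 2)]

theorem h7_3_4 (E : Env κ ι) : inn E 2 1 c7_3 c7_4 = dotS (ek E keys) r7_3_4 :=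
  innS_eqZ E _ _ _ _ _ _ _ (chkS_sound E keys 2 1 _ _ _ _ t7_3_4_0) (by decide +kernel)

def r7_4_4 : List (ℕ × ℤ) := [(34, 2), (38, -2)]

theorem h7_4_4 (E : Env κ ι) : inn E 2 1 c7_4 c7_4 = dotS (ek E keys) r7_4_4 :=
  innS_eqZ E _ _ _ _ _ _ _ (chkS_sound E keys 2 1 _ _ _ _ t7_4_4_0) (by decide +kernel)

theorem row7_0 (E : Env κ ι) : RowS E 2 1 (ek E keys) c7_0 [c7_0, c7_1, c7_2, c7_3, c7_4] [r7_0_0, r7_0_1, r7_0_2, r7_0_3, r7_0_4] :=
  rowS_cons E _ _ _ _ _ _ _ _ (h7_0_0 E) (rowS_cons E _ _ _ _ _ _ _ _ (h7_0_1 E) (rowS_cons E _ _ _ _ _ _ _ _ (h7_0_2 E) (rowS_cons E _ _ _ _ _ _ _ _ (h7_0_3 E) (rowS_cons E _ _ _ _ _ _ _ _ (h7_0_4 E) (rowS_nil E _ _ _ _)))))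

theorem row7_1 (E : Env κ ι) : RowS E 2 1 (ek E keys) c7_1 [c7_1, c7_2, c7_3, c7_4] [r7_1_1, r7_1_2, r7_1_3, r7_1_4] :=
  rowS_cons E _ _ _ _ _ _ _ _ (h7_1_1 E) (rowS_cons E _ _ _ _ _ _ _ _ (h7_1_2 E) (rowS_cons E _ _ _ _ _ _ _ _ (h7_1_3 E) (rowS_cons E _ _ _ _ _ _ _ _ (h7_1_4 E) (rowS_nil E _ _ _ _))))

theorem row7_2 (E : Env κ ι) : RowS E 2 1 (ek E keys) c7_2 [c7_2, c7_3, c7_4] [r7_2_2, r7_2_3, r7_2_4] :=
  rowS_cons E _ _ _ _ _ _ _ _ (h7_2_2 E) (rowS_cons E _ _ _ _ _ _ _ _ (h7_2_3 E) (rowS_cons E _ _ _ _ _ _ _ _ (h7_2_4 E) (rowS_nil E _ _ _ _)))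

theorem row7_3 (E : Env κ ι) : RowS E 2 1 (ek E keys) c7_3 [c7_3, c7_4] [r7_3_3, r7_3_4] :=
  rowS_cons E _ _ _ _ _ _ _ _ (h7_3_3 E) (rowS_cons E _ _ _ _ _ _ _ _ (h7_3_4 E) (rowS_nil E _ _ _ _))

theorem row7_4 (E : Env κ ι) : RowS E 2 1 (ek E keys) c7_4 [c7_4] [r7_4_4] :=
  rowS_cons E _ _ _ _ _ _ _ _ (h7_4_4 E) (rowS_nil E _ _ _ _)

def tab7 : List (List (List (ℕ × ℤ))) := [[r7_0_0, r7_0_1, r7_0_2, r7_0_3, r7_0_4], [r7_1_1, r7_1_2, r7_1_3, r7_1_4], [r7_2_2, r7_2_3, r7_2_4], [r7_3_3, r7_3_4], [r7_4_4]]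

theorem tri7 (E : Env κ ι) : TriS E 2 1 (ek E keys) [c7_0, c7_1, c7_2, c7_3, c7_4] tab7 := by
  refine triS_cons E _ _ _ _ _ _ _ (row7_0 E) ?_
  refine triS_cons E _ _ _ _ _ _ _ (row7_1 E) ?_
  refine triS_cons E _ _ _ _ _ _ _ (row7_2 E) ?_
  refine triS_cons E _ _ _ _ _ _ _ (row7_3 E) ?_
  refine triS_cons E _ _ _ _ _ _ _ (row7_4 E) ?_
  exact triS_nil E _ _ _

def rows7 : List (ℕ × List ℤ) := [(297838234828800, [4194304, 2637487, -4009139, 2564820, 514580]),
  (18056289484800, [0, 4194304, 11559447, 12315825, 815121]),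
  (1165816627200, [0, 0, 2097152, 1512685, 70823]),
  (53637120000, [0, 0, 0, 4194304, 265743]),
  (326075024540431495987200, [0, 0, 0, 0, 1]),
  (485300464906059487641600, [1, 0, 0, 0, 0]),
  (485300464906059487641600, [0, 1, 0, 0, 0]),
  (485300464906059487641600, [0, 0, 1, 0, 0]),
  (485300464906059487641600, [0, 0, 0, 1, 0]),
  (485300464906059487641600, [0, 0, 0, 0, 1])]

def M7 : List (List ℤ) := [[5240110938713616854443622400, 6589624646066511863925964800, -10016626115657233308686745600, 6408069910761384211120128000, 1285651474442492294725632000],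
  [2389998238398753262770585600, -4547837648980082877530112000, 5895003068528855916478464000, 931914991358564848002662400],
  [7205520914199588215830118400, -976641816341112428666880000, -888282510819337514911334400],
  [4702136062396098446600601600, 1149076312143561530744832000],
  [91683364864201436882534400]]

def u7 : List ℤ := [0, 0, 0, 0, 0, 0, 0, 0, 0, 0, 0, 0, 0, -9095675297960165755060224000, -1953283632682224857333760000, 0, 9095675297960165755060224000, 20033252231314466617373491200, 0, 0, 0, 0, 0, -1863829982717129696005324800, 1863829982717129696005324800, 2571302948884984589451264000, -2571302948884984589451264000, -2298152624287123061489664000, 1776565021638675029822668800, -1776565021638675029822668800, 2298152624287123061489664000, 0, 0, 0, 183366729728402873765068800, 0, 0, 0, -183366729728402873765068800, 0, 0, 0, 0, 0, 0, 0, 0, 0, 0, 0, 0, 0, 0, 0, -14411041828399176431660236800, 0, 0, 0, 0, 0, 0, 14411041828399176431660236800,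 0, 0, 0, 0, 0, 0, 0, 0, -18079968598632241760039731200, 0, 0, 0, 0, -9404272124792196893201203200, 0, 11790006137057711832956928000, -11790006137057711832956928000, 0, 0, 0, 0, 12816139821522768422240256000, 0, 4779996476797506525541171200, 0, 0, 0, 0, 0, 0, 0, -4779996476797506525541171200, 0, 13179249292133023727851929600, 0, 0, 0, 0, 0, 0, 0, -10480221877427233708887244800, 0, 0, 0, 0, 0, 0, 0, 0, 0, 0, 0, 0, 0, 0, 0, 0, 0, 0, 0, 0, 0, 0, 0, 0, 0, 0, 0, 0, 0, 0, 0, 0, 0, 0, 0, 0, 0, 0, 0, 0, 0, 0, 0, 0, 0, 0, 0, 0, 0, 0, 0, -13179249292133023727851929600, 0, -12816139821522768422240256000, 0, 10480221877427233708887244800, 0, 0, 0, 0, 0, 0, 0, 0, 0, 0, 0, 0, 0, 0, 0, 0, 0, 0, 0, 0, 0, 0, 0, 0, 0, 0, 0, 0, 0, 0, 0, 0, 0, 0, 0, 0, 0, 9404272124792196893201203200]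

theorem gr7 : eqM (gramT rows7) M7 = true := by
  decide +kernel

theorem mv7 : eqZ (mval M7 tab7) u7 = true := by
  decide +kernel

theorem nn7 (E : Env κ ι) : 0 ≤ dot (ek E keys) u7 0 :=
  block_nonneg E _ _ _ _ _ (tri7 E) rows7 M7 gr7 u7 mv7

end

def p8_0_0 : Cov := [(2, 0, 2, [(0, [0], [3, 4]), (0, [1], [0, 3]), (1, [], [1, 2]), (3, [], [4])]),
  (2, 0, 2, [(0, [0], [3, 4]), (0, [1], [1, 3]), (1, [], [0, 2]), (3, [], [4])]),
  (2, 0, 2, [(0, [0], [3, 4]), (0, [1], [2, 3]), (1, [], [0, 1]), (3, [], [4])]),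
  (-2, 0, 2, [(0, [0], [0, 3]), (0, [1], [3, 4]), (1, [], [1, 2]), (3, [], [4])]),
  (-2, 0, 2, [(0, [0], [1, 3]), (0, [1], [3, 4]), (1, [], [0, 2]), (3, [], [4])]),
  (-2, 0, 2, [(0, [0], [2, 3]), (0, [1], [3, 4]), (1, [], [0, 1]), (3, [], [4])])]

def c8_0 : Cov := p8_0_0

def p8_1_0 : Cov := [(2, 0, 2, [(0, [0], [3, 4]), (0, [1], [0, 1]), (1, [], [3, 4]), (3, [], [2])]),
  (2, 0, 2, [(0, [0], [3, 4]), (0, [1], [0, 2]), (1, [], [3, 4]), (3, [], [1])]),
  (2, 0, 2, [(0, [0], [3, 4]), (0, [1], [1, 2]), (1, [], [3, 4]), (3, [], [0])]),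
  (-2, 0, 2, [(0, [0], [0, 1]), (0, [1], [3, 4]), (1, [], [3, 4]), (3, [], [2])]),
  (-2, 0, 2, [(0, [0], [0, 2]), (0, [1], [3, 4]), (1, [], [3, 4]), (3, [], [1])]),
  (-2, 0, 2, [(0, [0], [1, 2]), (0, [1], [3, 4]), (1, [], [3, 4]), (3, [], [0])])]

def c8_1 : Cov := p8_1_0

def p8_2_0 : Cov := [(2, 0, 2, [(0, [0], [3, 4]), (0, [1], [0, 1]), (1, [], [2, 3]), (3, [], [4])]),
  (2, 0, 2, [(0, [0], [3, 4]), (0, [1], [0, 2]), (1, [], [1, 3]), (3, [], [4])]),
  (2, 0, 2, [(0, [0], [3, 4]), (0, [1], [1, 2]), (1, [], [0, 3]), (3, [], [4])]),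
  (-2, 0, 2, [(0, [0], [0, 1]), (0, [1], [3, 4]), (1, [], [2, 3]), (3, [], [4])]),
  (-2, 0, 2, [(0, [0], [0, 2]), (0, [1], [3, 4]), (1, [], [1, 3]), (3, [], [4])]),
  (-2, 0, 2, [(0, [0], [1, 2]), (0, [1], [3, 4]), (1, [], [0, 3]), (3, [], [4])])]

def c8_2 : Cov := p8_2_0

def p8_3_0 : Cov := [(2, 0, 2, [(0, [0], [0, 3]), (0, [1], [1, 2]), (1, [], [3, 4]), (3, [], [4])]),
  (-2, 0, 2, [(0, [0], [0, 1]), (0, [1], [2, 3]), (1, [], [3, 4]), (3, [], [4])]),
  (-2, 0, 2, [(0, [0], [0, 2]), (0, [1], [1, 3]), (1, [], [3, 4]), (3, [], [4])]),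
  (2, 0, 2, [(0, [0], [1, 3]), (0, [1], [0, 2]), (1, [], [3, 4]), (3, [], [4])]),
  (-2, 0, 2, [(0, [0], [1, 2]), (0, [1], [0, 3]), (1, [], [3, 4]), (3, [], [4])]),
  (2, 0, 2, [(0, [0], [2, 3]), (0, [1], [0, 1]), (1, [], [3, 4]), (3, [], [4])])]

def c8_3 : Cov := p8_3_0

def p8_4_0 : Cov := [(2, 0, 1, [(0, [0], [0, 3]), (2, [1], [1, 2, 3])]),
  (2, 0, 1, [(0, [0], [1, 3]), (2, [1], [0, 2, 3])]),
  (2, 0, 1, [(0, [0], [2, 3]), (2, [1], [0, 1, 3])]),
  (-2, 0, 1, [(0, [1], [0, 3]), (2, [0], [1, 2, 3])]),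
  (-2, 0, 1, [(0, [1], [1, 3]), (2, [0], [0, 2, 3])]),
  (-2, 0, 1, [(0, [1], [2, 3]), (2, [0], [0, 1, 3])])]

def c8_4 : Cov := p8_4_0

def p8_5_0 : Cov := [(1, 0, 2, [(0, [0], [0, 3]), (0, [1], [1, 4]), (1, [], [2, 3]), (3, [], [4])]),
  (-1, 0, 2, [(0, [0], [0, 3]), (0, [1], [1, 4]), (1, [], [2, 4]), (3, [], [3])]),
  (1, 0, 2, [(0, [0], [0, 3]), (0, [1], [2, 4]), (1, [], [1, 3]), (3, [], [4])]),
  (-1, 0, 2, [(0, [0], [0, 3]), (0, [1], [2, 4]), (1, [], [1, 4]), (3, [], [3])]),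
  (1, 0, 2, [(0, [0], [1, 3]), (0, [1], [0, 4]), (1, [], [2, 3]), (3, [], [4])]),
  (-1, 0, 2, [(0, [0], [1, 3]), (0, [1], [0, 4]), (1, [], [2, 4]), (3, [], [3])]),
  (1, 0, 2, [(0, [0], [1, 3]), (0, [1], [2, 4]), (1, [], [0, 3]), (3, [], [4])]),
  (-1, 0, 2, [(0, [0], [1, 3]), (0, [1], [2, 4]), (1, [], [0, 4]), (3, [], [3])])]

def p8_5_1 : Cov := [(1, 0, 2, [(0, [0], [2, 3]), (0, [1], [0, 4]), (1, [], [1, 3]), (3, [], [4])]),
  (-1, 0, 2, [(0, [0], [2, 3]), (0, [1], [0, 4]), (1, [], [1, 4]), (3, [], [3])]),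
  (1, 0, 2, [(0, [0], [2, 3]), (0, [1], [1, 4]), (1, [], [0, 3]), (3, [], [4])]),
  (-1, 0, 2, [(0, [0], [2, 3]), (0, [1], [1, 4]), (1, [], [0, 4]), (3, [], [3])])]

def c8_5 : Cov := p8_5_0 ++ (p8_5_1)

theorem t8_0_0_0 : chkS keys 2 3 p8_0_0 c8_0
  [(114, 1, 1, 69408336, 35013936), (159, 1, 1, 86251056, 40113456), (159, 1, 1, 86250336, 23340336), (15, 1, 1, 52696656, 34891056), (103, 1, 1, 52757601, 21128451), (103, 1, 1, 52758081, 37840131), (159, 1, 1, 86251011, 40109361), (114, 1, 1, 69408261, 33965361), (159, 1, 1, 86250246, 6563121), (103, 1, 1, 52757526, 4351251), (15, 1, 1, 52696581, 33842481), (103, 1, 1, 52758036, 37774611), (159, 1, 1, 86249571, 23332146), (159, 1, 1, 86249526, 6559026), (114, 1, 1, 69406821, 17188146), (103, 1, 1, 52756806, 4285731), (103, 1, 1, 52756836, 20997411), (15, 1, 1, 52695141, 17065266), (15, 16, 16, 52696656, 34891056), (103, 16, 16, 52757601, 21128451), (103, 16, 16, 52758081, 37840131),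 (114, 16, 16, 69408336, 35013936), (159, 16, 16, 86251056, 40113456), (159, 16, 16, 86250336, 23340336), (103, 16, 16, 52757526, 4351251), (15, 16, 16, 52696581, 33842481), (103, 16, 16, 52758036, 37774611), (159, 16, 16, 86251011, 40109361), (114, 16, 16, 69408261, 33965361), (159, 16, 16, 86250246, 6563121), (103, 16, 16, 52756806, 4285731), (103, 16, 16, 52756836, 20997411), (15, 16, 16, 52695141, 17065266), (159, 16, 16, 86249571, 23332146), (159, 16, 16, 86249526, 6559026), (114, 16, 16, 69406821, 17188146)]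
  [(15, -24), (103, -48), (114, 24), (159, 48)] = true := by
  decide +kernel

theorem t8_0_1_0 : chkS keys 2 3 p8_0_0 c8_1
  [(51, 1, 1, 88482576, 73736976), (51, 1, 1, 88482096, 73732896), (54, 16, 16, 16983366, 2179941), (16, 1, 1, 52762176, 37840176), (16, 1, 1, 52761696, 21128496), (54, 16, 16, 88285446, 6636321), (51, 1, 1, 88482561, 73736961), (54, 16, 16, 16983396, 18891621), (51, 1, 1, 88482051, 73728801), (16, 1, 1, 52762116, 37774641), (54, 16, 16, 88285536, 23413536), (16, 1, 1, 52761606, 4351281), (54, 16, 16, 16983636, 34620261), (51, 1, 1, 88481841, 73732866), (51, 1, 1, 88481811, 73728786), (54, 16, 16, 88286736, 40190736), (16, 1, 1, 52760676, 20997426), (16, 1, 1, 52760646, 4285746), (16, 16, 16, 52762176, 37840176), (16, 16, 16, 52761696, 21128496), (54, 16, 16, 17179971, 69272421), (51, 16, 16, 88482576, 73736976), (51, 16, 16, 88482096, 73732896), (54, 16, 16, 88482051, 73728801), (16, 16, 16, 52762116, 37774641),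 (54, 16, 16, 17179956, 69210981), (16, 16, 16, 52761606, 4351281), (51, 16, 16, 88482561, 73736961), (54, 16, 16, 88482096, 73732896), (51, 16, 16, 88482051, 73728801), (54, 16, 16, 17179476, 68166501), (16, 16, 16, 52760676, 20997426), (16, 16, 16, 52760646, 4285746), (54, 16, 16, 88482576, 73736976), (51, 16, 16, 88481841, 73732866), (51, 16, 16, 88481811, 73728786)]
  [(16, -48), (51, 48), (54, 0)] = true := by
  decide +kernel

theorem t8_0_2_0 : chkS keys 2 3 p8_0_0 c8_2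
  [(113, 1, 1, 88282656, 40190256), (113, 1, 1, 88281696, 23413296), (70, 1, 1, 106176771, 106169121), (81, 1, 1, 17183826, 68300901), (81, 1, 1, 17184066, 69283941), (17, 1, 1, 52692561, 34891011), (113, 1, 1, 88282626, 40190001), (70, 1, 1, 106176816, 106173216), (113, 1, 1, 88281606, 6636081), (81, 1, 1, 17183781, 67252581), (17, 1, 1, 52692501, 33842451), (81, 1, 1, 17184036, 69218661), (70, 1, 1, 106177296, 106177296), (113, 1, 1, 88281186, 23412786), (113, 1, 1, 88281126, 6635826), (17, 1, 1, 52691301, 17065251), (81, 1, 1, 17183301, 67187301), (81, 1, 1, 17183316, 68170341), (81, 16, 16, 17183826, 68300901), (81, 16, 16, 17184066, 69283941), (17, 16, 16, 52692561, 34891011), (113, 16, 16, 88282656, 40190256), (113, 16, 16, 88281696, 23413296), (70, 16, 16, 106176771, 106169121), (81, 16, 16, 17183781, 67252581), (17, 16, 16, 52692501, 33842451), (81, 16, 16, 17184036, 69218661), (113, 16, 16, 88282626, 40190001), (70, 16,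 16, 106176816, 106173216), (113, 16, 16, 88281606, 6636081), (17, 16, 16, 52691301, 17065251), (81, 16, 16, 17183301, 67187301), (81, 16, 16, 17183316, 68170341), (70, 16, 16, 106177296, 106177296), (113, 16, 16, 88281186, 23412786), (113, 16, 16, 88281126, 6635826)]
  [(17, -24), (70, 24), (81, -48), (113, 48)] = true := by
  decide +kernel

theorem t8_0_3_0 : chkS keys 2 3 p8_0_0 c8_3
  [(16, 1, 1, 105190176, 105193776), (97, 1, 1, 68563026, 68563026), (97, 1, 1, 68564226, 69611601), (91, 1, 1, 70582881, 21385731), (51, 1, 1, 51782976, 69296976), (91, 1, 1, 70583841, 38162691), (91, 1, 1, 70582806, 4608531), (97, 1, 1, 68562981, 67514706), (51, 1, 1, 51782916, 69231441), (16, 1, 1, 105190146, 105193521), (97, 1, 1, 68564256, 69611856), (91, 1, 1, 70583826, 38162451), (91, 1, 1, 70582566, 4608291), (51, 1, 1, 51781716, 68182866), (97, 1, 1, 68563461, 67514961), (91, 1, 1, 70582626, 21385251), (97, 1, 1, 68563536, 68563536), (16,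 1, 1, 105189426, 105189426), (51, 16, 16, 51782976, 69296976), (91, 16, 16, 70583841, 38162691), (91, 16, 16, 70582881, 21385731), (97, 16, 16, 68564226, 69611601), (16, 16, 16, 105190176, 105193776), (97, 16, 16, 68563026, 68563026), (97, 16, 16, 68564256, 69611856), (91, 16, 16, 70583826, 38162451), (16, 16, 16, 105190146, 105193521), (51, 16, 16, 51782916, 69231441), (91, 16, 16, 70582806, 4608531), (97, 16, 16, 68562981, 67514706), (97, 16, 16, 68563536, 68563536), (16, 16, 16, 105189426, 105189426), (91, 16, 16, 70582626, 21385251), (97, 16, 16, 68563461, 67514961), (91, 16, 16, 70582566, 4608291), (51, 16, 16, 51781716, 68182866)]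
  [(16, 24), (51, -24), (91, 48), (97, -48)] = true := by
  decide +kernel

theorem t8_0_4_0 : chkS keys 2 3 p8_0_0 c8_4
  [(22, 16, 16, 1254720, 2179920), (100, 1, 1, 2360145, 1320195), (100, 1, 1, 2360625, 2364675), (115, 1, 1, 2298960, 1197360), (160, 1, 1, 2364720, 2364720), (160, 1, 1, 2364240, 1320240), (100, 1, 1, 2360085, 271635), (22, 16, 16, 1254660, 2114385), (100, 1, 1, 2360595, 2360595), (160, 1, 1, 2364675, 2360625), (115, 1, 1, 2298885, 148785), (160, 1, 1, 2364165, 271665), (100, 1, 1, 2359605, 267555), (100, 1, 1, 2359635, 1312035), (22, 16, 16, 1253460, 1065810), (160, 1, 1, 2363475, 1312050), (160, 1, 1, 2363445, 267570), (115, 1, 1, 2297925, 83250), (115, 16, 16, 2298960, 1197360), (160, 16, 16, 2364720, 2364720), (160, 16, 16, 2364240, 1320240), (22, 1, 1, 1254720, 2179920), (100, 16, 16, 2360145, 1320195), (100, 16, 16, 2360625, 2364675), (160, 16, 16, 2364675, 2360625), (115, 16, 16, 2298885, 148785), (160,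 16, 16, 2364165, 271665), (100, 16, 16, 2360085, 271635), (22, 1, 1, 1254660, 2114385), (100, 16, 16, 2360595, 2360595), (160, 16, 16, 2363475, 1312050), (160, 16, 16, 2363445, 267570), (115, 16, 16, 2297925, 83250), (100, 16, 16, 2359605, 267555), (100, 16, 16, 2359635, 1312035), (22, 1, 1, 1253460, 1065810)]
  [(22, 24), (100, 48), (115, -24), (160, -48)] = true := by
  decide +kernel

theorem t8_0_5_0 : chkS keys 2 3 p8_0_0 c8_5
  [(81, 1, 1, 22426626, 72495201), (158, 1, 1, 55842336, 39084336), (81, 1, 1, 22425666, 72429666), (158, 1, 1, 55841376, 22307376), (67, 1, 1, 20259936, 21123936), (113, 1, 1, 38999616, 38880816), (83, 1, 1, 23404611, 88146786), (157, 1, 1, 40112976, 85206576), (67, 1, 1, 20260416, 37835616), (113, 1, 1, 38999136, 22169136), (83, 1, 1, 23405571, 88212321), (157, 1, 1, 40113456, 86251056), (67, 1, 1, 20259846, 4346721), (113, 1, 1, 38999556, 38815281), (83, 1, 1, 23404596, 88085346), (157, 1, 1, 40112901,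 84158001), (81, 1, 1, 22426656, 72495456), (158, 1, 1, 55842306, 39084081), (81, 1, 1, 22425636, 72364386), (158, 1, 1, 55841286, 5530161), (83, 1, 1, 23405616, 88216416), (157, 1, 1, 40113411, 86246961), (67, 1, 1, 20260356, 37770081), (113, 1, 1, 38999046, 5391921), (83, 1, 1, 23405316, 88089441), (157, 1, 1, 40112181, 84153906), (67, 1, 1, 20258886, 4281186), (113, 1, 1, 38998116, 22038066), (83, 1, 1, 23405376, 88154976), (157, 1, 1, 40112211, 85198386), (67, 1, 1, 20258916, 20992866), (113, 1, 1, 38998086, 5326386), (81, 1, 1, 22426176, 72430176), (158, 1, 1, 55840866, 22306866), (81, 1, 1, 22426116, 72364641), (158, 1, 1, 55840806, 5529906), (113, 16, 16, 86185536, 39929136), (67, 16, 16, 51717216, 21128016), (113, 16, 16, 86185056, 23217456), (67, 16, 16, 51717696, 37839696), (158, 16, 16, 87299616, 40128816), (81, 16, 16, 85341186, 73543761), (157, 16, 16, 103028016, 103028016), (83, 16, 16, 102048771, 104989521), (158, 16,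 16, 87298656, 23351856), (81, 16, 16, 85340226, 73478226), (157, 16, 16, 103027536, 101983536), (83, 16, 16, 102047811, 104923986), (158, 16, 16, 87299586, 40128561), (81, 16, 16, 85341216, 73544016), (157, 16, 16, 103027971, 103023921), (83, 16, 16, 102048816, 104993616), (113, 16, 16, 86185476, 39863601), (67, 16, 16, 51717126, 4350801), (113, 16, 16, 86184966, 6440241), (67, 16, 16, 51717636, 37774161), (157, 16, 16, 103027461, 100934961), (83, 16, 16, 102047796, 104862546), (158, 16, 16, 87298566, 6574641), (81, 16, 16, 85340196, 73412946), (157, 16, 16, 103026771, 101975346), (83, 16, 16, 102048576, 104932176), (158, 16, 16, 87298146, 23351346), (81, 16, 16, 85340736, 73478736), (157, 16, 16, 103026741, 100930866), (83, 16, 16, 102048516, 104866641), (158, 16, 16, 87298086, 6574386), (81, 16, 16, 85340676, 73413201), (113, 16, 16, 86184036, 23086386), (67, 16, 16, 51716166, 4285266), (113, 16, 16, 86184006, 6374706), (67, 16,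 16, 51716196, 20996946)]
  [(67, 24), (81, 24), (83, 24), (113, -24), (157, -24), (158, -24)] = true := by
  decide +kernel

theorem t8_1_1_0 : chkS keys 2 3 p8_1_0 c8_1
  [(56, 1, 1, 106112016, 106054416), (61, 1, 1, 106181136, 106181136), (61, 1, 1, 106181121, 106181121), (68, 16, 16, 105972786, 106041411), (54, 16, 16, 88146786, 23404611), (54, 16, 16, 88146726, 6627651), (61, 1, 1, 106180896, 106180896), (56, 1, 1, 106111296, 105988896), (61, 1, 1, 106180641, 106180866), (54, 16, 16, 88147506, 40177731), (68, 16, 16, 105972546, 105979971), (54, 16, 16, 88146486, 6623811), (61, 1, 1, 106180866, 106180641), (61, 1, 1, 106180626, 106180626), (56, 1, 1, 106111236, 105923361), (54, 16, 16, 88147491, 40173891), (54, 16, 16, 88146531, 23396931), (68, 16, 16, 105972516, 105914691), (68, 1, 1, 105972786, 106041411), (54, 1, 1, 88146786, 23404611), (54, 1, 1, 88146726, 6627651), (56, 16, 16, 106112016, 106054416), (61, 16, 16, 106181136,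 106181136), (61, 16, 16, 106181121, 106181121), (54, 1, 1, 88147506, 40177731), (68, 1, 1, 105972546, 105979971), (54, 1, 1, 88146486, 6623811), (61, 16, 16, 106180896, 106180896), (56, 16, 16, 106111296, 105988896), (61, 16, 16, 106180641, 106180866), (54, 1, 1, 88147491, 40173891), (54, 1, 1, 88146531, 23396931), (68, 1, 1, 105972516, 105914691), (61, 16, 16, 106180866, 106180641), (61, 16, 16, 106180626, 106180626), (56, 16, 16, 106111236, 105923361)]
  [(54, -48), (56, 24), (61, 48), (68, -24)] = true := by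
  decide +kernel

theorem t8_1_2_0 : chkS keys 2 3 p8_1_0 c8_2
  [(10, 1, 1, 88286736, 40190736), (14, 1, 1, 70668816, 70668816), (14, 1, 1, 70668801, 70668801), (69, 16, 16, 105972786, 106041411), (17, 1, 1, 52843536, 70411536), (17, 1, 1, 52843521, 70411521), (14, 1, 1, 70668576, 70668576), (10, 1, 1, 88285536, 23413536), (14, 1, 1, 70668321, 70668546), (17, 1, 1, 52842816, 70346016), (69, 16, 16, 105972546, 105979971), (17, 1, 1, 52842561, 70345986), (14, 1, 1, 70668546, 70668321), (14, 1, 1, 70668306, 70668306), (10, 1, 1, 88285446, 6636321), (17, 1, 1, 52842756, 70280481), (17, 1, 1, 52842516, 70280466), (69, 16, 16, 105972516, 105914691), (69, 1, 1, 105972786, 106041411), (17, 16, 16, 52843536, 70411536), (17, 16, 16, 52843521, 70411521), (10, 16, 16, 88286736, 40190736), (14, 16, 16, 70668816, 70668816), (14, 16, 16, 70668801, 70668801), (17, 16, 16, 52842816, 70346016), (69, 1, 1, 105972546, 105979971), (17, 16, 16, 52842561,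 70345986), (14, 16, 16, 70668576, 70668576), (10, 16, 16, 88285536, 23413536), (14, 16, 16, 70668321, 70668546), (17, 16, 16, 52842756, 70280481), (17, 16, 16, 52842516, 70280466), (69, 1, 1, 105972516, 105914691), (14, 16, 16, 70668546, 70668321), (14, 16, 16, 70668306, 70668306), (10, 16, 16, 88285446, 6636321)]
  [(10, 24), (14, 48), (17, -48), (69, -24)] = true := by
  decide +kernel

theorem t8_1_3_0 : chkS keys 2 3 p8_1_0 c8_3
  [(13, 1, 1, 104153601, 105075201), (69, 16, 16, 72418866, 39194691), (51, 1, 1, 51725826, 37970001), (13, 1, 1, 104153616, 105075216), (51, 1, 1, 51725856, 37970256), (10, 1, 1, 105063696, 103105296), (13, 1, 1, 104153121, 105074946), (51, 1, 1, 51724386, 21192786), (69, 16, 16, 72418146, 22421571), (10, 1, 1, 105062736, 102056736), (51, 1, 1, 51724896, 21193296), (13, 1, 1, 104153376, 105074976), (10, 1, 1, 105062661, 101008161), (51, 1, 1, 51724326, 4415826), (51, 1, 1, 51724806, 4416081), (13, 1,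 1, 104153106, 105074706), (69, 16, 16, 72418086, 5644611), (13, 1, 1, 104153346, 105074721), (51, 16, 16, 51725856, 37970256), (10, 16, 16, 105063696, 103105296), (13, 16, 16, 104153616, 105075216), (51, 16, 16, 51725826, 37970001), (13, 16, 16, 104153601, 105075201), (69, 1, 1, 72418866, 39194691), (51, 16, 16, 51724896, 21193296), (13, 16, 16, 104153376, 105074976), (10, 16, 16, 105062736, 102056736), (69, 1, 1, 72418146, 22421571), (13, 16, 16, 104153121, 105074946), (51, 16, 16, 51724386, 21192786), (69, 1, 1, 72418086, 5644611), (13, 16, 16, 104153346, 105074721), (13, 16, 16, 104153106, 105074706), (51, 16, 16, 51724806, 4416081), (10, 16, 16, 105062661, 101008161), (51, 16, 16, 51724326, 4415826)]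
  [(10, 24), (13, 48), (51, -48), (69, -24)] = true := by
  decide +kernel

theorem t8_1_4_0 : chkS keys 2 3 p8_1_0 c8_4
  [(72, 16, 16, 3212370, 1200195), (72, 16, 16, 3212325, 151875), (32, 16, 16, 205140, 1065765), (198, 16, 16, 5309490, 5378115), (198, 16, 16, 5309475, 5374275), (28, 1, 1, 2442000, 4400400), (72, 16, 16, 3212610, 2183235), (32, 16, 16, 206100, 2114325), (72, 16, 16, 3211845, 86595), (198, 16, 16, 5309250, 5316675), (28, 1, 1, 2441520, 4396320), (198, 16, 16, 5308995, 5308995), (32, 16, 16, 206145, 2179845), (72, 16, 16, 3212580, 2117955), (72, 16, 16, 3211860, 1069635), (28, 1, 1, 2441475, 4392225), (198, 16, 16, 5309220, 5251395), (198, 16, 16, 5308980, 5247555), (198, 1, 1, 5309490, 5378115), (198, 1, 1, 5309475, 5374275), (28, 16, 16, 2442000, 4400400), (72, 1, 1, 3212370, 1200195), (72, 1, 1, 3212325, 151875), (32, 1, 1, 205140, 1065765), (198, 1, 1, 5309250, 5316675), (28, 16, 16, 2441520, 4396320), (198,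 1, 1, 5308995, 5308995), (72, 1, 1, 3212610, 2183235), (32, 1, 1, 206100, 2114325), (72, 1, 1, 3211845, 86595), (28, 16, 16, 2441475, 4392225), (198, 1, 1, 5309220, 5251395), (198, 1, 1, 5308980, 5247555), (32, 1, 1, 206145, 2179845), (72, 1, 1, 3212580, 2117955), (72, 1, 1, 3211860, 1069635)]
  [(28, -24), (32, 24), (72, 48), (198, -48)] = true := by
  decide +kernel

theorem t8_1_5_0 : chkS keys 2 3 p8_1_0 c8_5
  [(13, 1, 1, 37045761, 37967361), (51, 1, 1, 23413506, 88285281), (73, 16, 16, 103875666, 101863491), (17, 1, 1, 38163216, 70592016), (13, 1, 1, 37045776, 37967376), (51, 1, 1, 23413536, 88285536), (73, 16, 16, 103875621, 100815171), (17, 1, 1, 38163201, 70592001), (14, 1, 1, 37114896, 70407696), (199, 16, 16, 105972786, 106041411), (14, 1, 1, 37114881, 70407681), (199, 16, 16, 105972771, 106037571), (73, 16, 16, 103875906, 102846531), (17, 1, 1, 38162736, 70587936), (13, 1, 1, 37044321, 21190146), (51, 1, 1, 23412786,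 88281186), (14, 1, 1, 37114176, 70342176), (199, 16, 16, 105972546, 105979971), (14, 1, 1, 37113921, 70342146), (199, 16, 16, 105972291, 105972291), (13, 1, 1, 37044576, 21190176), (51, 1, 1, 23413296, 88281696), (73, 16, 16, 103875141, 100749891), (17, 1, 1, 38162481, 70587906), (14, 1, 1, 37114116, 70276641), (199, 16, 16, 105972516, 105914691), (14, 1, 1, 37113876, 70276626), (199, 16, 16, 105972276, 105910851), (73, 16, 16, 103875876, 102781251), (17, 1, 1, 38162691, 70583841), (13, 1, 1, 37044246, 4412946), (51, 1, 1, 23412771, 88277346), (73, 16, 16, 103875156, 101732931), (17, 1, 1, 38162451, 70583826), (13, 1, 1, 37044486, 4412961), (51, 1, 1, 23413251, 88277601), (51, 16, 16, 102056736, 105062736), (13, 16, 16, 52774416, 37971216), (199, 1, 1, 90244146, 90312771), (14, 16, 16, 52843536, 70411536), (51, 16, 16, 102056706, 105062481), (13, 16, 16, 52774401, 37971201), (199, 1, 1, 90244131, 90308931), (14, 16, 16, 52843521,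 70411521), (17, 16, 16, 69620496, 70657296), (73, 1, 1, 56689746, 85090371), (17, 16, 16, 69620481, 70657281), (73, 1, 1, 56689701, 84042051), (199, 1, 1, 90243906, 90251331), (14, 16, 16, 52842816, 70346016), (51, 16, 16, 102056496, 105058896), (13, 16, 16, 52773216, 21194016), (17, 16, 16, 69620016, 70653216), (73, 1, 1, 56689986, 86073411), (17, 16, 16, 69619761, 70653186), (73, 1, 1, 56689221, 83976771), (51, 16, 16, 102055986, 105058386), (13, 16, 16, 52772961, 21193986), (199, 1, 1, 90243651, 90243651), (14, 16, 16, 52842561, 70345986), (17, 16, 16, 69619971, 70649121), (73, 1, 1, 56689956, 86008131), (17, 16, 16, 69619731, 70649106), (73, 1, 1, 56689236, 84959811), (199, 1, 1, 90243876, 90186051), (14, 16, 16, 52842756, 70280481), (51, 16, 16, 102056451, 105054801), (13, 16, 16, 52773126, 4416801), (199, 1, 1, 90243636, 90182211), (14, 16, 16, 52842516, 70280466), (51, 16, 16, 102055971, 105054546), (13, 16, 16, 52772886,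 4416786)]
  [(13, 24), (14, 24), (17, -24), (51, -24), (73, 24), (199, -24)] = true := by
  decide +kernel

theorem t8_2_2_0 : chkS keys 2 3 p8_2_0 c8_2
  [(57, 1, 1, 106177296, 106177296), (197, 16, 16, 88146786, 23404611), (197, 16, 16, 88146726, 6627651), (74, 16, 16, 105972786, 106041411), (55, 16, 16, 88146786, 23404611), (55, 16, 16, 88146726, 6627651), (197, 16, 16, 88147506, 40177731), (57, 1, 1, 106176816, 106173216), (197, 16, 16, 88146486, 6623811), (55, 16, 16, 88147506, 40177731), (74, 16, 16, 105972546, 105979971), (55, 16, 16, 88146486, 6623811), (197, 16, 16, 88147491, 40173891), (197, 16, 16, 88146531, 23396931), (57, 1, 1, 106176771, 106169121), (55, 16, 16, 88147491, 40173891), (55, 16, 16, 88146531, 23396931), (74, 16, 16, 105972516, 105914691), (74, 1, 1, 105972786, 106041411), (55, 1, 1, 88146786, 23404611), (55, 1, 1, 88146726, 6627651), (57, 16, 16, 106177296, 106177296), (197, 1, 1, 88146786, 23404611), (197,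 1, 1, 88146726, 6627651), (55, 1, 1, 88147506, 40177731), (74, 1, 1, 105972546, 105979971), (55, 1, 1, 88146486, 6623811), (197, 1, 1, 88147506, 40177731), (57, 16, 16, 106176816, 106173216), (197, 1, 1, 88146486, 6623811), (55, 1, 1, 88147491, 40173891), (55, 1, 1, 88146531, 23396931), (74, 1, 1, 105972516, 105914691), (197, 1, 1, 88147491, 40173891), (197, 1, 1, 88146531, 23396931), (57, 16, 16, 106176771, 106169121)]
  [(55, -48), (57, 24), (74, -24), (197, 48)] = true := by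
  decide +kernel

theorem t8_2_3_0 : chkS keys 2 3 p8_2_0 c8_3
  [(77, 16, 16, 103875666, 101863491), (79, 16, 16, 105972786, 106041411), (52, 1, 1, 51725826, 37970001), (77, 16, 16, 103875621, 100815171), (52, 1, 1, 51725856, 37970256), (11, 1, 1, 104153616, 105075216), (77, 16, 16, 103875906, 102846531), (52, 1, 1, 51724386, 21192786), (79, 16, 16, 105972546, 105979971), (11, 1, 1, 104153376, 105074976), (52, 1, 1, 51724896, 21193296), (77, 16, 16, 103875141, 100749891), (11, 1, 1, 104153346, 105074721), (52, 1, 1, 51724326, 4415826), (52, 1, 1, 51724806, 4416081), (77, 16, 16, 103875876, 102781251), (79, 16, 16, 105972516, 105914691), (77, 16, 16, 103875156, 101732931), (52, 16, 16, 51725856, 37970256), (11, 16, 16, 104153616, 105075216), (77, 1, 1, 103875621, 100815171), (52, 16, 16, 51725826, 37970001), (77, 1, 1, 103875666, 101863491), (79, 1, 1, 105972786, 106041411), (52, 16, 16, 51724896, 21193296), (77, 1, 1, 103875141,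 100749891), (11, 16, 16, 104153376, 105074976), (79, 1, 1, 105972546, 105979971), (77, 1, 1, 103875906, 102846531), (52, 16, 16, 51724386, 21192786), (79, 1, 1, 105972516, 105914691), (77, 1, 1, 103875156, 101732931), (77, 1, 1, 103875876, 102781251), (52, 16, 16, 51724806, 4416081), (11, 16, 16, 104153346, 105074721), (52, 16, 16, 51724326, 4415826)]
  [(11, 24), (52, -48), (77, 48), (79, -24)] = true := by
  decide +kernel

theorem t8_2_4_0 : chkS keys 2 3 p8_2_0 c8_4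
  [(80, 16, 16, 3212370, 1200195), (80, 16, 16, 3212325, 151875), (31, 16, 16, 205140, 1065765), (200, 16, 16, 5309490, 5378115), (200, 16, 16, 5309475, 5374275), (27, 1, 1, 2442000, 4400400), (80, 16, 16, 3212610, 2183235), (31, 16, 16, 206100, 2114325), (80, 16, 16, 3211845, 86595), (200, 16, 16, 5309250, 5316675), (27, 1, 1, 2441520, 4396320), (200, 16, 16, 5308995, 5308995), (31, 16, 16, 206145, 2179845), (80, 16, 16, 3212580, 2117955), (80, 16, 16, 3211860, 1069635), (27, 1, 1, 2441475, 4392225), (200, 16, 16, 5309220, 5251395), (200, 16, 16, 5308980, 5247555), (200, 1, 1, 5309490, 5378115), (200, 1, 1, 5309475, 5374275), (27, 16, 16, 2442000, 4400400), (80, 1, 1, 3212370, 1200195), (80, 1, 1, 3212325, 151875), (31, 1, 1, 205140, 1065765), (200, 1, 1, 5309250, 5316675), (27, 16, 16, 2441520, 4396320), (200, 1, 1, 5308995, 5308995), (80, 1, 1, 3212610, 2183235), (31, 1, 1, 206100, 2114325), (80, 1, 1, 3211845, 86595), (27, 16,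 16, 2441475, 4392225), (200, 1, 1, 5309220, 5251395), (200, 1, 1, 5308980, 5247555), (31, 1, 1, 206145, 2179845), (80, 1, 1, 3212580, 2117955), (80, 1, 1, 3211860, 1069635)]
  [(27, -24), (31, 24), (80, 48), (200, -48)] = true := by
  decide +kernel

theorem t8_2_5_0 : chkS keys 2 3 p8_2_0 c8_5
  [(62, 1, 1, 20337666, 70406241), (113, 1, 1, 37045761, 37967361), (82, 16, 16, 103875666, 101863491), (157, 1, 1, 38163201, 70592001), (62, 1, 1, 20337696, 70406496), (113, 1, 1, 37045776, 37967376), (82, 16, 16, 103875621, 100815171), (157, 1, 1, 38163216, 70592016), (49, 1, 1, 37045776, 37967376), (201, 16, 16, 105972786, 106041411), (49, 1, 1, 37045761, 37967361), (201, 16, 16, 105972771, 106037571), (82, 16, 16, 103875906, 102846531), (157, 1, 1, 38162481, 70587906), (62, 1, 1, 20336706, 70340706), (113, 1, 1, 37044321, 21190146), (49, 1, 1, 37044576, 21190176), (201, 16, 16, 105972546, 105979971), (49, 1, 1, 37044321, 21190146), (201,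 16, 16, 105972291, 105972291), (62, 1, 1, 20337216, 70341216), (113, 1, 1, 37044576, 21190176), (82, 16, 16, 103875141, 100749891), (157, 1, 1, 38162736, 70587936), (49, 1, 1, 37044486, 4412961), (201, 16, 16, 105972516, 105914691), (49, 1, 1, 37044246, 4412946), (201, 16, 16, 105972276, 105910851), (82, 16, 16, 103875876, 102781251), (157, 1, 1, 38162451, 70583826), (62, 1, 1, 20336676, 70275426), (113, 1, 1, 37044246, 4412946), (82, 16, 16, 103875156, 101732931), (157, 1, 1, 38162691, 70583841), (62, 1, 1, 20337156, 70275681), (113, 1, 1, 37044486, 4412961), (113, 16, 16, 52774416, 37971216), (62, 16, 16, 51794976, 70410576), (201, 1, 1, 90244146, 90312771), (49, 16, 16, 52774416, 37971216), (113, 16, 16, 52774401, 37971201), (62, 16, 16, 51794946, 70410321), (201, 1, 1, 90244131, 90308931), (49, 16, 16, 52774401, 37971201), (157, 16, 16, 69620481, 70657281), (82, 1, 1, 56689746, 85090371), (157, 16, 16, 69620496, 70657296), (82,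 1, 1, 56689701, 84042051), (201, 1, 1, 90243906, 90251331), (49, 16, 16, 52773216, 21194016), (113, 16, 16, 52773216, 21194016), (62, 16, 16, 51794496, 70345296), (157, 16, 16, 69619761, 70653186), (82, 1, 1, 56689986, 86073411), (157, 16, 16, 69620016, 70653216), (82, 1, 1, 56689221, 83976771), (113, 16, 16, 52772961, 21193986), (62, 16, 16, 51793986, 70344786), (201, 1, 1, 90243651, 90243651), (49, 16, 16, 52772961, 21193986), (157, 16, 16, 69619731, 70649106), (82, 1, 1, 56689956, 86008131), (157, 16, 16, 69619971, 70649121), (82, 1, 1, 56689236, 84959811), (201, 1, 1, 90243876, 90186051), (49, 16, 16, 52773126, 4416801), (113, 16, 16, 52773126, 4416801), (62, 16, 16, 51794436, 70279761), (201, 1, 1, 90243636, 90182211), (49, 16, 16, 52772886, 4416786), (113, 16, 16, 52772886, 4416786), (62, 16, 16, 51793956, 70279506)]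
  [(49, 24), (62, 24), (82, 24), (113, -24), (157, -24), (201, -24)] = true := by
  decide +kernel

theorem t8_3_3_0 : chkS keys 2 3 p8_3_0 c8_3
  [(46, 1, 1, 106111236, 105923361), (50, 16, 16, 106107936, 106053936), (50, 16, 16, 106107456, 105988656), (85, 1, 1, 106180866, 106180641), (92, 16, 16, 106173216, 106176816), (85, 1, 1, 106180626, 106180626), (50, 1, 1, 106106916, 105922866), (46, 16, 16, 106112016, 106054416), (85, 16, 16, 106181121, 106181121), (50, 1, 1, 106106946, 105988146), (85, 16, 16, 106181136, 106181136), (92, 1, 1, 106172466, 106172466), (50, 1, 1, 106107396, 105923121), (85, 16, 16, 106180641, 106180866), (46, 16, 16, 106111296, 105988896), (92, 1, 1, 106173186, 106176561), (85, 16, 16, 106180896, 106180896), (50, 1, 1, 106107906, 106053681), (85, 1, 1, 106180896, 106180896), (50, 16, 16, 106107906, 106053681), (92, 16, 16, 106173186, 106176561), (46, 1, 1, 106111296, 105988896), (50, 16, 16, 106107396, 105923121),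 (85, 1, 1, 106180641, 106180866), (92, 1, 1, 106173216, 106176816), (85, 16, 16, 106180626, 106180626), (85, 16, 16, 106180866, 106180641), (50, 1, 1, 106107456, 105988656), (46, 16, 16, 106111236, 105923361), (50, 1, 1, 106107936, 106053936), (85, 1, 1, 106181136, 106181136), (92, 16, 16, 106172466, 106172466), (50, 16, 16, 106106946, 105988146), (85, 1, 1, 106181121, 106181121), (50, 16, 16, 106106916, 105922866), (46, 1, 1, 106112016, 106054416)]
  [(46, 24), (50, -48), (85, 48), (92, -24)] = true := by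
  decide +kernel

theorem t8_3_4_0 : chkS keys 2 3 p8_3_0 c8_4
  [(53, 16, 16, 2298960, 1197360), (94, 16, 16, 3413280, 2380080), (94, 16, 16, 3412560, 1331760), (23, 1, 1, 1393440, 4399440), (88, 1, 1, 2371605, 275730), (88, 1, 1, 2371845, 275745), (88, 16, 16, 2372865, 2372865), (88, 16, 16, 2372880, 2372880), (23, 16, 16, 1392690, 4395090), (94, 1, 1, 3412050, 1331250), (94, 1, 1, 3412005, 282930), (53, 1, 1, 2297925, 83250), (88, 16, 16, 2371665, 1324290), (23, 16, 16, 1393410, 4399185), (88, 16, 16, 2371920, 1324320), (94, 1, 1, 3413250, 2379825), (53, 1, 1, 2298885, 148785), (94, 1, 1, 3412485, 283185), (94, 16, 16, 3413250, 2379825), (53, 16, 16, 2298885, 148785), (94, 16, 16, 3412485, 283185), (88, 1, 1, 2371665, 1324290), (23, 1, 1, 1393410, 4399185), (88, 1, 1, 2371920, 1324320), (23, 16, 16, 1393440, 4399440), (88, 16, 16, 2371605, 275730), (88, 16, 16, 2371845, 275745), (53, 1, 1, 2298960, 1197360), (94, 1, 1, 3413280,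 2380080), (94, 1, 1, 3412560, 1331760), (94, 16, 16, 3412050, 1331250), (94, 16, 16, 3412005, 282930), (53, 16, 16, 2297925, 83250), (88, 1, 1, 2372865, 2372865), (88, 1, 1, 2372880, 2372880), (23, 1, 1, 1392690, 4395090)]
  [(23, -24), (53, 24), (88, -48), (94, 48)] = true := by
  decide +kernel

theorem t8_3_5_0 : chkS keys 2 3 p8_3_0 c8_5
  [(48, 1, 1, 37114116, 70276641), (64, 16, 16, 68559696, 68559696), (48, 1, 1, 37113876, 70276626), (64, 16, 16, 68560176, 69604176), (96, 16, 16, 87299616, 40128816), (155, 16, 16, 85341186, 73543761), (65, 1, 1, 20336676, 70275426), (91, 1, 1, 39072006, 5518881), (96, 16, 16, 87298656, 23351856), (155, 16, 16, 85340226, 73478226), (65, 1, 1, 20337156, 70275681), (91, 1, 1, 39071766, 5518866), (91, 16, 16, 86259201, 40121601), (65, 16, 16, 51794976, 70410576), (64, 1, 1, 21372981, 67441506), (48, 16, 16, 52843536, 70411536), (91, 16, 16, 86259216, 40121616), (65, 16, 16, 51794946, 70410321),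 (64, 1, 1, 21373011, 68485986), (48, 16, 16, 52843521, 70411521), (155, 1, 1, 22426176, 72430176), (96, 1, 1, 55840866, 22306866), (155, 1, 1, 22426116, 72364641), (96, 1, 1, 55840806, 5529906), (64, 1, 1, 21373701, 67445601), (48, 16, 16, 52842816, 70346016), (91, 16, 16, 86257761, 23344386), (65, 16, 16, 51794496, 70345296), (155, 1, 1, 22426656, 72495456), (96, 1, 1, 55842306, 39084081), (155, 1, 1, 22425636, 72364386), (96, 1, 1, 55841286, 5530161), (91, 16, 16, 86258016, 23344416), (65, 16, 16, 51793986, 70344786), (64, 1, 1, 21374211, 69534561), (48, 16, 16, 52842561, 70345986), (96, 16, 16, 87299586, 40128561), (155, 16, 16, 85341216, 73544016), (65, 1, 1, 20336706, 70340706), (91, 1, 1, 39072096, 22296096), (48, 1, 1, 37114176, 70342176), (64, 16, 16, 68559621, 67511121), (48, 1, 1, 37113921, 70342146), (64, 16, 16, 68560131, 69600081), (65, 1, 1, 20337216, 70341216), (91, 1, 1, 39071841, 22296066), (96, 16, 16, 87298566,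 6574641), (155, 16, 16, 85340196, 73412946), (155, 1, 1, 22426626, 72495201), (96, 1, 1, 55842336, 39084336), (155, 1, 1, 22425666, 72429666), (96, 1, 1, 55841376, 22307376), (64, 1, 1, 21373776, 68494176), (48, 16, 16, 52842756, 70280481), (91, 16, 16, 86257686, 6567186), (65, 16, 16, 51794436, 70279761), (64, 1, 1, 21374256, 69538656), (48, 16, 16, 52842516, 70280466), (91, 16, 16, 86257926, 6567201), (65, 16, 16, 51793956, 70279506), (65, 1, 1, 20337666, 70406241), (91, 1, 1, 39073296, 39073296), (96, 16, 16, 87298146, 23351346), (155, 16, 16, 85340736, 73478736), (65, 1, 1, 20337696, 70406496), (91, 1, 1, 39073281, 39073281), (96, 16, 16, 87298086, 6574386), (155, 16, 16, 85340676, 73413201), (48, 1, 1, 37114896, 70407696), (64, 16, 16, 68558901, 67507026), (48, 1, 1, 37114881, 70407681), (64, 16, 16, 68558931, 68551506)]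
  [(48, 24), (64, -24), (65, 24), (91, -24), (96, 24), (155, -24)] = true := by
  decide +kernel

theorem t8_4_4_0 : chkS keys 2 3 p8_4_0 c8_4
  [(202, 16, 16, 267040, 270640), (203, 16, 16, 267040, 270640), (203, 16, 16, 266800, 266800), (36, 16, 16, 136000, 74800), (98, 16, 16, 131905, 74755), (98, 16, 16, 132145, 136195), (203, 16, 16, 267010, 270385), (202, 16, 16, 267010, 270385), (203, 16, 16, 266755, 262705), (98, 16, 16, 131860, 9235), (36, 16, 16, 135940, 9265), (98, 16, 16, 132115, 132115), (203, 16, 16, 266290, 266290), (203, 16, 16, 266275, 262450), (202, 16, 16, 266290, 266290), (98, 16, 16, 131380, 5155), (98, 16, 16, 131395, 66595), (36, 16, 16, 135220, 5170), (36, 1, 1, 136000, 74800), (98, 1, 1, 131905, 74755), (98, 1, 1, 132145, 136195), (202, 1, 1, 267040, 270640), (203, 1, 1, 267040, 270640), (203, 1, 1, 266800, 266800), (98, 1, 1, 131860, 9235), (36, 1, 1, 135940, 9265), (98, 1, 1, 132115, 132115), (203, 1, 1,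 267010, 270385), (202, 1, 1, 267010, 270385), (203, 1, 1, 266755, 262705), (98, 1, 1, 131380, 5155), (98, 1, 1, 131395, 66595), (36, 1, 1, 135220, 5170), (203, 1, 1, 266290, 266290), (203, 1, 1, 266275, 262450), (202, 1, 1, 266290, 266290)]
  [(36, -24), (98, -48), (202, 24), (203, 48)] = true := by
  decide +kernel

theorem t8_4_5_0 : chkS keys 2 3 p8_4_0 c8_5
  [(204, 16, 16, 5509920, 5513520), (66, 16, 16, 3220560, 1200960), (204, 16, 16, 5509680, 5509680), (66, 16, 16, 3220800, 2184000), (160, 16, 16, 4392225, 2441475), (188, 1, 1, 3473940, 4215315), (205, 16, 16, 5509920, 5513520), (101, 1, 1, 336180, 4199205), (160, 16, 16, 4391505, 1393155), (188, 1, 1, 3473700, 4215075), (205, 16, 16, 5509680, 5509680), (101, 1, 1, 336660, 4203285), (160, 16, 16, 4392210, 2441235), (188, 1, 1, 3473985, 4280835), (205, 16, 16, 5509890, 5513265), (101, 1, 1, 336195, 4260645), (204, 16, 16, 5509890, 5513265), (66, 16, 16, 3220485, 152385), (204,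 16, 16, 5509635, 5505585), (66, 16, 16, 3220740, 2118465), (205, 16, 16, 5509635, 5505585), (101, 1, 1, 336705, 4268805), (160, 16, 16, 4391445, 344595), (188, 1, 1, 3473730, 4280355), (205, 16, 16, 5509170, 5509170), (101, 1, 1, 336915, 4326165), (160, 16, 16, 4391250, 1392675), (188, 1, 1, 3474465, 4346115), (205, 16, 16, 5509155, 5505330), (101, 1, 1, 336945, 4330245), (160, 16, 16, 4391205, 344355), (188, 1, 1, 3474450, 4345875), (204, 16, 16, 5509170, 5509170), (66, 16, 16, 3219525, 86850), (204, 16, 16, 5509155, 5505330), (66, 16, 16, 3219540, 1069890), (188, 16, 16, 5440020, 5259795), (160, 1, 1, 3409185, 2380035), (188, 16, 16, 5439780, 5259555), (160, 1, 1, 3408465, 1331715), (66, 1, 1, 1254480, 1196880), (204, 1, 1, 4526880, 4530480), (101, 16, 16, 5251860, 5251860), (205, 1, 1, 4526640, 4526640), (66, 1, 1, 1254720, 2179920), (204, 1, 1, 4526640, 4526640), (101, 16, 16, 5251380, 5247780), (205, 1, 1, 4526880, 4530480),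 (66, 1, 1, 1254405, 148305), (204, 1, 1, 4526850, 4530225), (101, 16, 16, 5251905, 5317380), (205, 1, 1, 4526595, 4522545), (188, 16, 16, 5440065, 5325315), (160, 1, 1, 3409170, 2379795), (188, 16, 16, 5439810, 5324835), (160, 1, 1, 3408405, 283155), (101, 16, 16, 5251395, 5309220), (205, 1, 1, 4526850, 4530225), (66, 1, 1, 1254660, 2114385), (204, 1, 1, 4526595, 4522545), (101, 16, 16, 5252145, 5378820), (205, 1, 1, 4526115, 4522290), (66, 1, 1, 1253445, 82770), (204, 1, 1, 4526130, 4526130), (101, 16, 16, 5252115, 5374740), (205, 1, 1, 4526130, 4526130), (66, 1, 1, 1253460, 1065810), (204, 1, 1, 4526115, 4522290), (188, 16, 16, 5440545, 5390595), (160, 1, 1, 3408210, 1331235), (188, 16, 16, 5440530, 5390355), (160, 1, 1, 3408165, 282915)]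
  [(66, -24), (101, -24), (160, 24), (188, -24), (204, 24), (205, 24)] = true := by
  decide +kernel

theorem t8_5_5_0 : chkS keys 2 3 p8_5_0 c8_5
  [(206, 16, 16, 106107936, 106053936), (47, 16, 16, 86381376, 73475376), (197, 1, 1, 87122946, 56774721), (49, 16, 16, 103093056, 104932656), (159, 16, 16, 70583841, 38162691), (102, 16, 16, 87430176, 73552176), (157, 16, 16, 100939026, 103034901), (104, 16, 16, 104141856, 105009456), (157, 16, 16, 70648401, 68571651), (55, 1, 1, 55665666, 55730241), (207, 16, 16, 106107936, 106053936), (49, 1, 1, 22176771, 55706721), (47, 1, 1, 38888196, 55584321), (206, 1, 1, 90256386, 90320961), (49, 16, 16, 85337136, 73536336), (207, 1, 1, 90256386, 90320961), (102, 1, 1, 55665666, 55730241), (159, 1, 1, 54547986, 37052436), (55, 16, 16, 87430176, 73552176), (157, 1, 1, 54551061, 50684436), (104, 1, 1, 56710146, 87187521), (157, 1, 1, 6505761, 86196486), (49, 1, 1, 39932676, 87041601), (197, 16, 16,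 55972896, 72507696), (197, 1, 1, 87121986, 56709186), (49, 16, 16, 103093296, 104994096), (206, 16, 16, 106107456, 105988656), (47, 16, 16, 86381616, 73536816), (157, 16, 16, 70649121, 69619971), (55, 1, 1, 55664706, 55664706), (207, 16, 16, 106107456, 105988656), (49, 1, 1, 22175811, 55641186), (159, 16, 16, 70582881, 21385731), (102, 16, 16, 87429696, 73486896), (157, 16, 16, 100938066, 101986341), (104, 16, 16, 104141376, 104944176), (49, 16, 16, 85336896, 73474896), (207, 1, 1, 90255426, 90255426), (47, 1, 1, 38887476, 55580226), (206, 1, 1, 90255426, 90255426), (104, 1, 1, 56709186, 87121986), (157, 1, 1, 6505041, 85148166), (49, 1, 1, 39931956, 87037506), (197, 16, 16, 55972416, 72442416), (102, 1, 1, 55664706, 55664706), (159, 1, 1, 54546786, 20275236), (55, 16, 16, 87429696, 73486896), (157, 1, 1, 54550821, 50684196), (159, 16, 16, 70583826, 38162451), (102, 16, 16, 87430146, 73551921), (157, 16, 16, 100939041, 103035141),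 (104, 16, 16, 104141826, 105009201), (206, 16, 16, 106107906, 106053681), (47, 16, 16, 86381316, 73409841), (197, 1, 1, 87122976, 56774976), (49, 16, 16, 103092996, 104867121), (207, 16, 16, 106107906, 106053681), (49, 1, 1, 22176816, 55710816), (157, 16, 16, 70648341, 67523091), (55, 1, 1, 55665696, 55730496), (102, 1, 1, 55665696, 55730496), (159, 1, 1, 54548001, 37052676), (55, 16, 16, 87430146, 73551921), (157, 1, 1, 54551121, 51732996), (47, 1, 1, 38888256, 55649856), (206, 1, 1, 90256416, 90321216), (49, 16, 16, 85337091, 73532241), (207, 1, 1, 90256416, 90321216), (49, 1, 1, 39932736, 87107136), (197, 16, 16, 55972866, 72507441), (104, 1, 1, 56710176, 87187776), (157, 1, 1, 6505746, 86196246), (157, 16, 16, 70649106, 69619731), (55, 1, 1, 55664676, 55599426), (207, 16, 16, 106107396, 105923121), (49, 1, 1, 22175796, 55579746), (197, 1, 1, 87121956, 56643906), (49, 16, 16, 103093251, 104990001), (206, 16, 16, 106107396, 105923121),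 (47, 16, 16, 86381571, 73532721), (157, 16, 16, 100938021, 100938021), (104, 16, 16, 104141316, 104878641), (159, 16, 16, 70582806, 4608531), (102, 16, 16, 87429636, 73421361), (104, 1, 1, 56709156, 87056706), (157, 1, 1, 6504981, 84099606), (49, 1, 1, 39931971, 87098946), (197, 16, 16, 55972356, 72376881), (49, 16, 16, 85336836, 73409361), (207, 1, 1, 90255396, 90190146), (47, 1, 1, 38887491, 55641666), (206, 1, 1, 90255396, 90190146), (55, 16, 16, 87429636, 73421361), (157, 1, 1, 54550866, 51732516), (102, 1, 1, 55664676, 55599426), (159, 1, 1, 54546726, 3498276)]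
  [(47, -8), (49, -16), (55, -8), (102, -8), (104, -8), (157, 16), (159, 8), (197, 8), (206, 8), (207, 8)] = true := by
  decide +kernel

theorem t8_5_5_1 : chkS keys 2 3 p8_5_1 c8_5
  [(157, 16, 16, 100938321, 101986821), (104, 16, 16, 104140866, 104943666), (159, 16, 16, 70582626, 21385251), (102, 16, 16, 87429186, 73486386), (207, 16, 16, 106106946, 105988146), (49, 1, 1, 22176576, 55649376), (157, 16, 16, 70648101, 67522851), (55, 1, 1, 55665216, 55665216), (206, 16, 16, 106106946, 105988146), (47, 16, 16, 86380596, 73405746), (197, 1, 1, 87122496, 56709696), (49, 16, 16, 103092276, 104863026), (55, 16, 16, 87429186, 73486386), (157, 1, 1, 54551841, 52781316), (102, 1, 1, 55665216, 55665216), (159, 1, 1, 54547041, 20275716), (49, 1, 1, 39932976, 87168576), (197, 16, 16, 55971906, 72441906), (104, 1, 1, 56709696, 87122496), (157, 1, 1, 6504786, 85147686), (47, 1, 1, 38888496, 55711296), (206, 1, 1, 90255936, 90255936), (49, 16,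 16, 85336131, 73466706), (207, 1, 1, 90255936, 90255936), (207, 16, 16, 106106916, 105922866), (49, 1, 1, 22176516, 55583841), (157, 16, 16, 70648146, 68571171), (55, 1, 1, 55665156, 55599681), (157, 16, 16, 100938261, 100938261), (104, 16, 16, 104140836, 104878386), (159, 16, 16, 70582566, 4608291), (102, 16, 16, 87429156, 73421106), (197, 1, 1, 87122436, 56644161), (49, 16, 16, 103092291, 104924466), (206, 16, 16, 106106916, 105922866), (47, 16, 16, 86380611, 73467186), (49, 1, 1, 39932931, 87164481), (197, 16, 16, 55971876, 72376626), (104, 1, 1, 56709636, 87056961), (157, 1, 1, 6504741, 84099366), (55, 16, 16, 87429156, 73421106), (157, 1, 1, 54551826, 52781076), (102, 1, 1, 55665156, 55599681), (159, 1, 1, 54546966, 3498516), (49, 16, 16, 85336116, 73405266), (207, 1, 1, 90255876, 90190401), (47, 1, 1, 38888451, 55707201), (206, 1, 1, 90255876, 90190401)]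
  [(47, -4), (49, -8), (55, -4), (102, -4), (104, -4), (157, 8), (159, 4), (197, 4), (206, 4), (207, 4)] = true := by
  decide +kernel

section

variable {κ ι : Type*} [Fintype κ] [Fintype ι] [Inhabited κ] [Inhabited ι]

def r8_0_0 : List (ℕ × ℤ) := [(15, -24), (103, -48), (114, 24), (159, 48)]

theorem h8_0_0 (E : Env κ ι) : inn E 2 3 c8_0 c8_0 = dotS (ek E keys) r8_0_0 :=
  innS_eqZ E _ _ _ _ _ _ _ (chkS_sound E keys 2 3 _ _ _ _ t8_0_0_0) (by decide +kernel)

def r8_0_1 : List (ℕ × ℤ) := [(16, -48), (51, 48), (54, 0)]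

theorem h8_0_1 (E : Env κ ι) : inn E 2 3 c8_0 c8_1 = dotS (ek E keys) r8_0_1 :=
  innS_eqZ E _ _ _ _ _ _ _ (chkS_sound E keys 2 3 _ _ _ _ t8_0_1_0) (by decide +kernel)

def r8_0_2 : List (ℕ × ℤ) := [(17, -24), (70, 24), (81, -48), (113, 48)]

theorem h8_0_2 (E : Env κ ι) : inn E 2 3 c8_0 c8_2 = dotS (ek E keys) r8_0_2 :=
  innS_eqZ E _ _ _ _ _ _ _ (chkS_sound E keys 2 3 _ _ _ _ t8_0_2_0) (by decide +kernel)

def r8_0_3 : List (ℕ × ℤ) := [(16, 24), (51, -24), (91, 48), (97, -48)]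

theorem h8_0_3 (E : Env κ ι) : inn E 2 3 c8_0 c8_3 = dotS (ek E keys) r8_0_3 :=
  innS_eqZ E _ _ _ _ _ _ _ (chkS_sound E keys 2 3 _ _ _ _ t8_0_3_0) (by decide +kernel)

def r8_0_4 : List (ℕ × ℤ) := [(22, 24), (100, 48), (115, -24), (160, -48)]

theorem h8_0_4 (E : Env κ ι) : inn E 2 3 c8_0 c8_4 = dotS (ek E keys) r8_0_4 :=
  innS_eqZ E _ _ _ _ _ _ _ (chkS_sound E keys 2 3 _ _ _ _ t8_0_4_0) (by decide +kernel)

def r8_0_5 : List (ℕ × ℤ) := [(67, 24), (81, 24), (83, 24), (113, -24), (157, -24), (158, -24)]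

theorem h8_0_5 (E : Env κ ι) : inn E 2 3 c8_0 c8_5 = dotS (ek E keys) r8_0_5 :=
  innS_eqZ E _ _ _ _ _ _ _ (chkS_sound E keys 2 3 _ _ _ _ t8_0_5_0) (by decide +kernel)

def r8_1_1 : List (ℕ × ℤ) := [(54, -48), (56, 24), (61, 48), (68, -24)]

theorem h8_1_1 (E : Env κ ι) : inn E 2 3 c8_1 c8_1 = dotS (ek E keys) r8_1_1 :=
  innS_eqZ E _ _ _ _ _ _ _ (chkS_sound E keys 2 3 _ _ _ _ t8_1_1_0) (by decide +kernel)

def r8_1_2 : List (ℕ × ℤ) := [(10, 24), (14, 48), (17, -48), (69, -24)]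

theorem h8_1_2 (E : Env κ ι) : inn E 2 3 c8_1 c8_2 = dotS (ek E keys) r8_1_2 :=
  innS_eqZ E _ _ _ _ _ _ _ (chkS_sound E keys 2 3 _ _ _ _ t8_1_2_0) (by decide +kernel)

def r8_1_3 : List (ℕ × ℤ) := [(10, 24), (13, 48), (51, -48), (69, -24)]

theorem h8_1_3 (E : Env κ ι) : inn E 2 3 c8_1 c8_3 = dotS (ek E keys) r8_1_3 :=
  innS_eqZ E _ _ _ _ _ _ _ (chkS_sound E keys 2 3 _ _ _ _ t8_1_3_0) (by decide +kernel)

def r8_1_4 : List (ℕ × ℤ) := [(28, -24), (32, 24), (72, 48), (198, -48)]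

theorem h8_1_4 (E : Env κ ι) : inn E 2 3 c8_1 c8_4 = dotS (ek E keys) r8_1_4 :=
  innS_eqZ E _ _ _ _ _ _ _ (chkS_sound E keys 2 3 _ _ _ _ t8_1_4_0) (by decide +kernel)

def r8_1_5 : List (ℕ × ℤ) := [(13, 24), (14, 24), (17, -24), (51, -24), (73, 24), (199, -24)]

theorem h8_1_5 (E : Env κ ι) : inn E 2 3 c8_1 c8_5 = dotS (ek E keys) r8_1_5 :=
  innS_eqZ E _ _ _ _ _ _ _ (chkS_sound E keys 2 3 _ _ _ _ t8_1_5_0) (by decide +kernel)

def r8_2_2 : List (ℕ × ℤ) := [(55, -48), (57, 24), (74, -24), (197, 48)]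

theorem h8_2_2 (E : Env κ ι) : inn E 2 3 c8_2 c8_2 = dotS (ek E keys) r8_2_2 :=
  innS_eqZ E _ _ _ _ _ _ _ (chkS_sound E keys 2 3 _ _ _ _ t8_2_2_0) (by decide +kernel)

def r8_2_3 : List (ℕ × ℤ) := [(11, 24), (52, -48), (77, 48), (79, -24)]

theorem h8_2_3 (E : Env κ ι) : inn E 2 3 c8_2 c8_3 = dotS (ek E keys) r8_2_3 :=
  innS_eqZ E _ _ _ _ _ _ _ (chkS_sound E keys 2 3 _ _ _ _ t8_2_3_0) (by decide +kernel)

def r8_2_4 : List (ℕ × ℤ) := [(27, -24), (31, 24), (80, 48), (200, -48)]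

theorem h8_2_4 (E : Env κ ι) : inn E 2 3 c8_2 c8_4 = dotS (ek E keys) r8_2_4 :=
  innS_eqZ E _ _ _ _ _ _ _ (chkS_sound E keys 2 3 _ _ _ _ t8_2_4_0) (by decide +kernel)

def r8_2_5 : List (ℕ × ℤ) := [(49, 24), (62, 24), (82, 24), (113, -24), (157, -24), (201, -24)]

theorem h8_2_5 (E : Env κ ι) : inn E 2 3 c8_2 c8_5 = dotS (ek E keys) r8_2_5 :=
  innS_eqZ E _ _ _ _ _ _ _ (chkS_sound E keys 2 3 _ _ _ _ t8_2_5_0) (by decide +kernel)

def r8_3_3 : List (ℕ × ℤ) := [(46, 24), (50, -48), (85, 48), (92, -24)]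

theorem h8_3_3 (E : Env κ ι) : inn E 2 3 c8_3 c8_3 = dotS (ek E keys) r8_3_3 :=
  innS_eqZ E _ _ _ _ _ _ _ (chkS_sound E keys 2 3 _ _ _ _ t8_3_3_0) (by decide +kernel)

def r8_3_4 : List (ℕ × ℤ) := [(23, -24), (53, 24), (88, -48), (94, 48)]

theorem h8_3_4 (E : Env κ ι) : inn E 2 3 c8_3 c8_4 = dotS (ek E keys) r8_3_4 :=
  innS_eqZ E _ _ _ _ _ _ _ (chkS_sound E keys 2 3 _ _ _ _ t8_3_4_0) (by decide +kernel)

def r8_3_5 : List (ℕ × ℤ) := [(48, 24), (64, -24), (65, 24), (91, -24), (96, 24), (155, -24)]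

theorem h8_3_5 (E : Env κ ι) : inn E 2 3 c8_3 c8_5 = dotS (ek E keys) r8_3_5 :=
  innS_eqZ E _ _ _ _ _ _ _ (chkS_sound E keys 2 3 _ _ _ _ t8_3_5_0) (by decide +kernel)

def r8_4_4 : List (ℕ × ℤ) := [(36, -24), (98, -48), (202, 24), (203, 48)]

theorem h8_4_4 (E : Env κ ι) : inn E 2 3 c8_4 c8_4 = dotS (ek E keys) r8_4_4 :=
  innS_eqZ E _ _ _ _ _ _ _ (chkS_sound E keys 2 3 _ _ _ _ t8_4_4_0) (by decide +kernel)

def r8_4_5 : List (ℕ × ℤ) := [(66, -24), (101, -24), (160, 24), (188, -24), (204, 24), (205, 24)]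

theorem h8_4_5 (E : Env κ ι) : inn E 2 3 c8_4 c8_5 = dotS (ek E keys) r8_4_5 :=
  innS_eqZ E _ _ _ _ _ _ _ (chkS_sound E keys 2 3 _ _ _ _ t8_4_5_0) (by decide +kernel)

def r8_5_5 : List (ℕ × ℤ) := [(47, -12), (49, -24), (55, -12), (102, -12), (104, -12), (157, 24), (159, 12), (197, 12), (206, 12), (207, 12)]

theorem h8_5_5 (E : Env κ ι) : inn E 2 3 c8_5 c8_5 = dotS (ek E keys) r8_5_5 :=
  innS_eqZ E _ _ _ _ _ _ _ (innS_add E _ _ _ _ _ _ _ _ (chkS_sound E keys 2 3 _ _ _ _ t8_5_5_0) (chkS_sound E keys 2 3 _ _ _ _ t8_5_5_1)) (by decide +kernel)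

theorem row8_0 (E : Env κ ι) : RowS E 2 3 (ek E keys) c8_0 [c8_0, c8_1, c8_2, c8_3, c8_4, c8_5] [r8_0_0, r8_0_1, r8_0_2, r8_0_3, r8_0_4, r8_0_5] :=
  rowS_cons E _ _ _ _ _ _ _ _ (h8_0_0 E) (rowS_cons E _ _ _ _ _ _ _ _ (h8_0_1 E) (rowS_cons E _ _ _ _ _ _ _ _ (h8_0_2 E) (rowS_cons E _ _ _ _ _ _ _ _ (h8_0_3 E) (rowS_cons E _ _ _ _ _ _ _ _ (h8_0_4 E) (rowS_cons E _ _ _ _ _ _ _ _ (h8_0_5 E) (rowS_nil E _ _ _ _))))))

theorem row8_1 (E : Env κ ι) : RowS E 2 3 (ek E keys) c8_1 [c8_1, c8_2, c8_3, c8_4, c8_5] [r8_1_1, r8_1_2, r8_1_3, r8_1_4, r8_1_5] :=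
  rowS_cons E _ _ _ _ _ _ _ _ (h8_1_1 E) (rowS_cons E _ _ _ _ _ _ _ _ (h8_1_2 E) (rowS_cons E _ _ _ _ _ _ _ _ (h8_1_3 E) (rowS_cons E _ _ _ _ _ _ _ _ (h8_1_4 E) (rowS_cons E _ _ _ _ _ _ _ _ (h8_1_5 E) (rowS_nil E _ _ _ _)))))

theorem row8_2 (E : Env κ ι) : RowS E 2 3 (ek E keys) c8_2 [c8_2, c8_3, c8_4, c8_5] [r8_2_2, r8_2_3, r8_2_4, r8_2_5] :=
  rowS_cons E _ _ _ _ _ _ _ _ (h8_2_2 E) (rowS_cons E _ _ _ _ _ _ _ _ (h8_2_3 E) (rowS_cons E _ _ _ _ _ _ _ _ (h8_2_4 E) (rowS_cons E _ _ _ _ _ _ _ _ (h8_2_5 E) (rowS_nil E _ _ _ _))))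

theorem row8_3 (E : Env κ ι) : RowS E 2 3 (ek E keys) c8_3 [c8_3, c8_4, c8_5] [r8_3_3, r8_3_4, r8_3_5] :=
  rowS_cons E _ _ _ _ _ _ _ _ (h8_3_3 E) (rowS_cons E _ _ _ _ _ _ _ _ (h8_3_4 E) (rowS_cons E _ _ _ _ _ _ _ _ (h8_3_5 E) (rowS_nil E _ _ _ _)))

theorem row8_4 (E : Env κ ι) : RowS E 2 3 (ek E keys) c8_4 [c8_4, c8_5] [r8_4_4, r8_4_5] :=
  rowS_cons E _ _ _ _ _ _ _ _ (h8_4_4 E) (rowS_cons E _ _ _ _ _ _ _ _ (h8_4_5 E) (rowS_nil E _ _ _ _))

theorem row8_5 (E : Env κ ι) : RowS E 2 3 (ek E keys) c8_5 [c8_5] [r8_5_5] :=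
  rowS_cons E _ _ _ _ _ _ _ _ (h8_5_5 E) (rowS_nil E _ _ _ _)

def tab8 : List (List (List (ℕ × ℤ))) := [[r8_0_0, r8_0_1, r8_0_2, r8_0_3, r8_0_4, r8_0_5], [r8_1_1, r8_1_2, r8_1_3, r8_1_4, r8_1_5], [r8_2_2, r8_2_3, r8_2_4, r8_2_5], [r8_3_3, r8_3_4, r8_3_5], [r8_4_4, r8_4_5], [r8_5_5]]

theorem tri8 (E : Env κ ι) : TriS E 2 3 (ek E keys) [c8_0, c8_1, c8_2, c8_3, c8_4, c8_5] tab8 := by
  refine triS_cons E _ _ _ _ _ _ _ (row8_0 E) ?_
  refine triS_cons E _ _ _ _ _ _ _ (row8_1 E) ?_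
  refine triS_cons E _ _ _ _ _ _ _ (row8_2 E) ?_
  refine triS_cons E _ _ _ _ _ _ _ (row8_3 E) ?_
  refine triS_cons E _ _ _ _ _ _ _ (row8_4 E) ?_
  refine triS_cons E _ _ _ _ _ _ _ (row8_5 E) ?_
  exact triS_nil E _ _ _

def rows8 : List (ℕ × List ℤ) := [(3232145548800, [4194304, 2517766, -6926992, -5246366, -3644471, 10673558]),
  (2591654400, [0, 4194304, -82689628, -5613054, 1595845, -108241742]),
  (343963929600, [0, 0, 4194304, 182378, -161445, 5903472]),
  (4143052800, [0, 0, 0, 2097152, 837061, -4319287]),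
  (2697062400, [0, 0, 0, 0, 2097152, -2763165]),
  (86315765278201557811200, [0, 0, 0, 0, 0, 1]),
  (13480663467417403392000, [1, 0, 0, 0, 0, 0]),
  (13480663467417403392000, [0, 1, 0, 0, 0, 0]),
  (13480663467417403392000, [0, 0, 1, 0, 0, 0]),
  (13480663467417403392000, [0, 0, 0, 1, 0, 0]),
  (13486757772426471859200, [0, 0, 0, 0, 1, 0]),
  (13480663467417403392000, [0, 0, 0, 0, 0, 1])]

def M8 : List (List ℤ) := [[56873986480588070898892800, 68264698166441249498726400, -187812933402608981036236800, -142245781165000922392166400, -98813278434671175558758400, 289394334196269363442483200],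
  [20548114863478020504115200, -114538462734255591267532800, -85509639239919730863206400, -59281157134936191599769600, 171365049523161294390374400],
  [178873933366985518332518400, 237854280687007543605043200, 162042641860344922955059200, -414514771454594624368435200],
  [89087521870015187312332800, 123546585058907566153420800, -358168625647297965274521600],
  [42973719937247219181158400, -253069734506974024688640000],
  [410771363743473604794777600]]

def u8 : List ℤ := [0, 0, 0, 0, 0, 0, 0, 0, 0, 0, -4801154447380207731137740800, 5708502736488181046521036800, 0, 8298505039723983935078400, -1385085022688397315472588800, -1364975675534113701573427200, -6690604259949202113350860800, 5892595424351012860342272000, 0, 0, 0, 0, -2371518682432108213410201600, -2965118041413781587682099200, 0, 0, 0, -3889023404648278150921420800, 1422747771238468598394470400, 0, 0, 3889023404648278150921420800, -1422747771238468598394470400, 0, 0, 0, -1031369278493933260347801600,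 0, 0, 0, 0, 0, 0, 0, 0, 0, 2138100524880364495495987200, -4929256364921683257537331200, -8596047015535151166588518400, -19806867244753637499917107200, -4276201049760728990991974400, 6682305754909478129415782400, -11417005472976362093042073600, 2965118041413781587682099200, -986309513446944984197529600, -13515205166536988137498214400, 493154756723472492098764800, 4292974400807652439980441600, 0, 0, 0, 986309513446944984197529600, -9948354514910270984842444800, 0, 8596047015535151166588518400, -8596047015535151166588518400, 6073673628167376592527360000, 6945464020710464722619596800, -493154756723472492098764800, 4801154447380207731137740800, -4507510401662615544869683200, 0, -2845495542476937196788940800, 4112761188555871065368985600, -4292974400807652439980441600, 0, 0, 11417005472976362093042073600, 0, -5708502736488181046521036800, 7778046809296556301842841600, 15960484824035695812358963200, -9948354514910270984842444800, 6945464020710464722619596800,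 0, 4276201049760728990991974400, 0, 0, -5930236082827563175364198400, 0, 0, 1768249519615106891764531200, -2138100524880364495495987200, 0, 5930236082827563175364198400, 0, -8596047015535151166588518400, 6827797495920044274823987200, -2062738556987866520695603200, 0, -4743037364864216426820403200, 6073673628167376592527360000, -4929256364921683257537331200, -2729951351068227403146854400, -4929256364921683257537331200, 0, 0, 0, 0, 0, 0, 0, 0, -6012130309125424827516518400, 1364975675534113701573427200, 2371518682432108213410201600, 0, 0, 0, 0, 0, 0, 0, 0, 0, 0, 0, 0, 0, 0, 0, 0, 0, 0, 0, 0, 0, 0, 0, 0, 0, 0, 0, 0, 0, 0, 0, 0, 0, 0, 0, 0, 0, 0, 0, 8596047015535151166588518400, 0, 12861403224043172777297510400, -6945464020710464722619596800, 7659207715989910660684185600, -1330636263303160165706956800, 0, 0, 0, 0, 0, 0, 0, 0, 0, 0, 0, 0, 0, 0, 0, 0, 0, 0, 0, 0, 0, 0, 0, 0, 0, 0, 0, 6073673628167376592527360000, 0, 0, 0, 0, 0, 0, 0, 0,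 13515205166536988137498214400, 2845495542476937196788940800, -4112761188555871065368985600, -7778046809296556301842841600, 9948354514910270984842444800, 1031369278493933260347801600, 2062738556987866520695603200, -6073673628167376592527360000, -6073673628167376592527360000, 4929256364921683257537331200, 4929256364921683257537331200]

theorem gr8 : eqM (gramT rows8) M8 = true := by
  decide +kernel

theorem mv8 : eqZ (mval M8 tab8) u8 = true := by
  decide +kernel

theorem nn8 (E : Env κ ι) : 0 ≤ dot (ek E keys) u8 0 :=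
  block_nonneg E _ _ _ _ _ (tri8 E) rows8 M8 gr8 u8 mv8

end

end YMLIM
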