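import Pool.Agent.YM.LIM.T20_0
import Pool.Agent.YM.LIM.T20_1

set_option linter.unusedVariables false
set_option maxRecDepth 100000

open YMEng

namespace YMLIM

section

variable {κ ι : Type*} [Fintype κ] [Fintype ι] [Inhabited κ] [Inhabited ι]

def r20_0_0 : List (ℕ × ℤ) := [(45, 576), (138, 576), (186, -1152)]

theorem h20_0_0 (E : Env κ ι) : inn E 1 5 c20_0 c20_0 = dotS (ek E keys) r20_0_0 :=
  innS_eqZ E _ _ _ _ _ _ _ (chkS_sound E keys 1 5 _ _ _ _ t20_0_0_0) (by decide +kernel)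

def r20_0_1 : List (ℕ × ℤ) := [(29, 768), (205, -768)]

theorem h20_0_1 (E : Env κ ι) : inn E 1 5 c20_0 c20_1 = dotS (ek E keys) r20_0_1 :=
  innS_eqZ E _ _ _ _ _ _ _ (chkS_sound E keys 1 5 _ _ _ _ t20_0_1_0) (by decide +kernel)

def r20_0_2 : List (ℕ × ℤ) := [(44, 768), (177, -768)]

theorem h20_0_2 (E : Env κ ι) : inn E 1 5 c20_0 c20_2 = dotS (ek E keys) r20_0_2 :=
  innS_eqZ E _ _ _ _ _ _ _ (chkS_sound E keys 1 5 _ _ _ _ t20_0_2_0) (by decide +kernel)

def r20_0_3 : List (ℕ × ℤ) := [(28, 576), (30, -384), (31, 384), (32, 192), (101, -768)]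

theorem h20_0_3 (E : Env κ ι) : inn E 1 5 c20_0 c20_3 = dotS (ek E keys) r20_0_3 :=
  innS_eqZ E _ _ _ _ _ _ _ (chkS_sound E keys 1 5 _ _ _ _ t20_0_3_0) (by decide +kernel)

def r20_0_4 : List (ℕ × ℤ) := [(28, 192), (30, 384), (31, -384), (32, 576), (101, -768)]

theorem h20_0_4 (E : Env κ ι) : inn E 1 5 c20_0 c20_4 = dotS (ek E keys) r20_0_4 :=
  innS_eqZ E _ _ _ _ _ _ _ (chkS_sound E keys 1 5 _ _ _ _ t20_0_4_0) (by decide +kernel)

def r20_0_5 : List (ℕ × ℤ) := [(43, 576), (125, 192), (137, 384), (183, -384), (189, -768)]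

theorem h20_0_5 (E : Env κ ι) : inn E 1 5 c20_0 c20_5 = dotS (ek E keys) r20_0_5 :=
  innS_eqZ E _ _ _ _ _ _ _ (chkS_sound E keys 1 5 _ _ _ _ t20_0_5_0) (by decide +kernel)

def r20_0_6 : List (ℕ × ℤ) := [(43, 192), (125, 576), (137, -384), (183, 384), (189, -768)]

theorem h20_0_6 (E : Env κ ι) : inn E 1 5 c20_0 c20_6 = dotS (ek E keys) r20_0_6 :=
  innS_eqZ E _ _ _ _ _ _ _ (chkS_sound E keys 1 5 _ _ _ _ t20_0_6_0) (by decide +kernel)

def r20_1_1 : List (ℕ × ℤ) := [(141, 256), (144, 512), (156, -512), (216, -256)]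

theorem h20_1_1 (E : Env κ ι) : inn E 1 5 c20_1 c20_1 = dotS (ek E keys) r20_1_1 :=
  innS_eqZ E _ _ _ _ _ _ _ (innS_add E _ _ _ _ _ _ _ _ (chkS_sound E keys 1 5 _ _ _ _ t20_1_1_0) (chkS_sound E keys 1 5 _ _ _ _ t20_1_1_1)) (by decide +kernel)

def r20_1_2 : List (ℕ × ℤ) := [(61, 256), (70, 512), (157, -512), (207, -256)]

theorem h20_1_2 (E : Env κ ι) : inn E 1 5 c20_1 c20_2 = dotS (ek E keys) r20_1_2 :=
  innS_eqZ E _ _ _ _ _ _ _ (innS_add E _ _ _ _ _ _ _ _ (chkS_sound E keys 1 5 _ _ _ _ t20_1_2_0) (chkS_sound E keys 1 5 _ _ _ _ t20_1_2_1)) (by decide +kernel)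

def r20_1_3 : List (ℕ × ℤ) := [(5, 512), (116, 256), (153, -512), (193, -256)]

theorem h20_1_3 (E : Env κ ι) : inn E 1 5 c20_1 c20_3 = dotS (ek E keys) r20_1_3 :=
  innS_eqZ E _ _ _ _ _ _ _ (innS_add E _ _ _ _ _ _ _ _ (chkS_sound E keys 1 5 _ _ _ _ t20_1_3_0) (chkS_sound E keys 1 5 _ _ _ _ t20_1_3_1)) (by decide +kernel)

def r20_1_4 : List (ℕ × ℤ) := [(4, 512), (109, -512), (116, 256), (193, -256)]

theorem h20_1_4 (E : Env κ ι) : inn E 1 5 c20_1 c20_4 = dotS (ek E keys) r20_1_4 :=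
  innS_eqZ E _ _ _ _ _ _ _ (innS_add E _ _ _ _ _ _ _ _ (chkS_sound E keys 1 5 _ _ _ _ t20_1_4_0) (chkS_sound E keys 1 5 _ _ _ _ t20_1_4_1)) (by decide +kernel)

def r20_1_5 : List (ℕ × ℤ) := [(13, 512), (65, -512), (69, 256), (194, -256)]

theorem h20_1_5 (E : Env κ ι) : inn E 1 5 c20_1 c20_5 = dotS (ek E keys) r20_1_5 :=
  innS_eqZ E _ _ _ _ _ _ _ (innS_add E _ _ _ _ _ _ _ _ (chkS_sound E keys 1 5 _ _ _ _ t20_1_5_0) (chkS_sound E keys 1 5 _ _ _ _ t20_1_5_1)) (by decide +kernel)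

def r20_1_6 : List (ℕ × ℤ) := [(69, 256), (78, -512), (79, 512), (194, -256)]

theorem h20_1_6 (E : Env κ ι) : inn E 1 5 c20_1 c20_6 = dotS (ek E keys) r20_1_6 :=
  innS_eqZ E _ _ _ _ _ _ _ (innS_add E _ _ _ _ _ _ _ _ (chkS_sound E keys 1 5 _ _ _ _ t20_1_6_0) (chkS_sound E keys 1 5 _ _ _ _ t20_1_6_1)) (by decide +kernel)

def r20_2_2 : List (ℕ × ℤ) := [(41, 256), (131, -512), (133, 512), (174, -256)]

theorem h20_2_2 (E : Env κ ι) : inn E 1 5 c20_2 c20_2 = dotS (ek E keys) r20_2_2 :=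
  innS_eqZ E _ _ _ _ _ _ _ (innS_add E _ _ _ _ _ _ _ _ (chkS_sound E keys 1 5 _ _ _ _ t20_2_2_0) (chkS_sound E keys 1 5 _ _ _ _ t20_2_2_1)) (by decide +kernel)

def r20_2_3 : List (ℕ × ℤ) := [(17, 512), (54, 256), (83, -512), (104, -256)]

theorem h20_2_3 (E : Env κ ι) : inn E 1 5 c20_2 c20_3 = dotS (ek E keys) r20_2_3 :=
  innS_eqZ E _ _ _ _ _ _ _ (innS_add E _ _ _ _ _ _ _ _ (chkS_sound E keys 1 5 _ _ _ _ t20_2_3_0) (chkS_sound E keys 1 5 _ _ _ _ t20_2_3_1)) (by decide +kernel)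

def r20_2_4 : List (ℕ × ℤ) := [(14, 512), (49, -512), (54, 256), (104, -256)]

theorem h20_2_4 (E : Env κ ι) : inn E 1 5 c20_2 c20_4 = dotS (ek E keys) r20_2_4 :=
  innS_eqZ E _ _ _ _ _ _ _ (innS_add E _ _ _ _ _ _ _ _ (chkS_sound E keys 1 5 _ _ _ _ t20_2_4_0) (chkS_sound E keys 1 5 _ _ _ _ t20_2_4_1)) (by decide +kernel)

def r20_2_5 : List (ℕ × ℤ) := [(42, 256), (136, 512), (176, -512), (178, -256)]

theorem h20_2_5 (E : Env κ ι) : inn E 1 5 c20_2 c20_5 = dotS (ek E keys) r20_2_5 :=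
  innS_eqZ E _ _ _ _ _ _ _ (innS_add E _ _ _ _ _ _ _ _ (chkS_sound E keys 1 5 _ _ _ _ t20_2_5_0) (chkS_sound E keys 1 5 _ _ _ _ t20_2_5_1)) (by decide +kernel)

def r20_2_6 : List (ℕ × ℤ) := [(42, 256), (124, 512), (132, -512), (178, -256)]

theorem h20_2_6 (E : Env κ ι) : inn E 1 5 c20_2 c20_6 = dotS (ek E keys) r20_2_6 :=
  innS_eqZ E _ _ _ _ _ _ _ (innS_add E _ _ _ _ _ _ _ _ (chkS_sound E keys 1 5 _ _ _ _ t20_2_6_0) (chkS_sound E keys 1 5 _ _ _ _ t20_2_6_1)) (by decide +kernel)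

def r20_3_3 : List (ℕ × ℤ) := [(3, 384), (5, 256), (106, 192), (111, -128), (112, -512), (116, 64), (120, 256), (191, -256), (192, -256)]

theorem h20_3_3 (E : Env κ ι) : inn E 1 5 c20_3 c20_3 = dotS (ek E keys) r20_3_3 :=
  innS_eqZ E _ _ _ _ _ _ _ (innS_add E _ _ _ _ _ _ _ _ (chkS_sound E keys 1 5 _ _ _ _ t20_3_3_0) (chkS_sound E keys 1 5 _ _ _ _ t20_3_3_1)) (by decide +kernel)

def r20_3_4 : List (ℕ × ℤ) := [(3, 128), (5, 256), (106, 64), (111, 128), (116, 192), (120, -256), (191, -256), (192, -256)]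

theorem h20_3_4 (E : Env κ ι) : inn E 1 5 c20_3 c20_4 = dotS (ek E keys) r20_3_4 :=
  innS_eqZ E _ _ _ _ _ _ _ (innS_add E _ _ _ _ _ _ _ _ (chkS_sound E keys 1 5 _ _ _ _ t20_3_4_0) (chkS_sound E keys 1 5 _ _ _ _ t20_3_4_1)) (by decide +kernel)

def r20_3_5 : List (ℕ × ℤ) := [(10, 64), (11, 128), (16, 384), (51, 128), (52, 256), (69, 192), (77, -256), (79, -128), (90, -256), (91, -256), (97, -256)]

theorem h20_3_5 (E : Env κ ι) : inn E 1 5 c20_3 c20_5 = dotS (ek E keys) r20_3_5 :=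
  innS_eqZ E _ _ _ _ _ _ _ (innS_add E _ _ _ _ _ _ _ _ (chkS_sound E keys 1 5 _ _ _ _ t20_3_5_0) (chkS_sound E keys 1 5 _ _ _ _ t20_3_5_1)) (by decide +kernel)

def r20_3_6 : List (ℕ × ℤ) := [(10, 192), (11, 384), (16, 128), (51, -128), (52, -256), (69, 64), (77, -256), (79, 128), (90, -256), (91, -256), (97, 256)]

theorem h20_3_6 (E : Env κ ι) : inn E 1 5 c20_3 c20_6 = dotS (ek E keys) r20_3_6 :=
  innS_eqZ E _ _ _ _ _ _ _ (innS_add E _ _ _ _ _ _ _ _ (chkS_sound E keys 1 5 _ _ _ _ t20_3_6_0) (chkS_sound E keys 1 5 _ _ _ _ t20_3_6_1)) (by decide +kernel)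

def r20_4_4 : List (ℕ × ℤ) := [(3, -128), (5, 256), (106, 192), (111, 384), (112, -512), (116, 64), (120, -256), (191, -256), (192, 256)]

theorem h20_4_4 (E : Env κ ι) : inn E 1 5 c20_4 c20_4 = dotS (ek E keys) r20_4_4 :=
  innS_eqZ E _ _ _ _ _ _ _ (innS_add E _ _ _ _ _ _ _ _ (chkS_sound E keys 1 5 _ _ _ _ t20_4_4_0) (chkS_sound E keys 1 5 _ _ _ _ t20_4_4_1)) (by decide +kernel)

def r20_4_5 : List (ℕ × ℤ) := [(10, 192), (11, -128), (16, 128), (51, 384), (52, -256), (69, 64), (77, 256), (79, 128), (90, -256), (91, -256), (97, -256)]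

theorem h20_4_5 (E : Env κ ι) : inn E 1 5 c20_4 c20_5 = dotS (ek E keys) r20_4_5 :=
  innS_eqZ E _ _ _ _ _ _ _ (innS_add E _ _ _ _ _ _ _ _ (chkS_sound E keys 1 5 _ _ _ _ t20_4_5_0) (chkS_sound E keys 1 5 _ _ _ _ t20_4_5_1)) (by decide +kernel)

def r20_4_6 : List (ℕ × ℤ) := [(10, 64), (11, 128), (16, -128), (51, 128), (52, -256), (69, 192), (77, -256), (79, 384), (90, -256), (91, 256), (97, -256)]

theorem h20_4_6 (E : Env κ ι) : inn E 1 5 c20_4 c20_6 = dotS (ek E keys) r20_4_6 :=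
  innS_eqZ E _ _ _ _ _ _ _ (innS_add E _ _ _ _ _ _ _ _ (chkS_sound E keys 1 5 _ _ _ _ t20_4_6_0) (chkS_sound E keys 1 5 _ _ _ _ t20_4_6_1)) (by decide +kernel)

def r20_5_5 : List (ℕ × ℤ) := [(40, 192), (122, 64), (123, 256), (126, -256), (135, 256), (169, 384), (171, -512), (182, -128), (195, -256)]

theorem h20_5_5 (E : Env κ ι) : inn E 1 5 c20_5 c20_5 = dotS (ek E keys) r20_5_5 :=
  innS_eqZ E _ _ _ _ _ _ _ (innS_add E _ _ _ _ _ _ _ _ (chkS_sound E keys 1 5 _ _ _ _ t20_5_5_0) (chkS_sound E keys 1 5 _ _ _ _ t20_5_5_1)) (by decide +kernel)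

def r20_5_6 : List (ℕ × ℤ) := [(40, 64), (122, 192), (123, 256), (126, -256), (135, -256), (169, 128), (182, 128), (195, -256)]

theorem h20_5_6 (E : Env κ ι) : inn E 1 5 c20_5 c20_6 = dotS (ek E keys) r20_5_6 :=
  innS_eqZ E _ _ _ _ _ _ _ (innS_add E _ _ _ _ _ _ _ _ (chkS_sound E keys 1 5 _ _ _ _ t20_5_6_0) (chkS_sound E keys 1 5 _ _ _ _ t20_5_6_1)) (by decide +kernel)

def r20_6_6 : List (ℕ × ℤ) := [(40, 192), (122, 64), (123, 256), (126, 256), (135, -256), (169, -128), (171, -512), (182, 384), (195, -256)]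

theorem h20_6_6 (E : Env κ ι) : inn E 1 5 c20_6 c20_6 = dotS (ek E keys) r20_6_6 :=
  innS_eqZ E _ _ _ _ _ _ _ (innS_add E _ _ _ _ _ _ _ _ (chkS_sound E keys 1 5 _ _ _ _ t20_6_6_0) (chkS_sound E keys 1 5 _ _ _ _ t20_6_6_1)) (by decide +kernel)

theorem row20_0 (E : Env κ ι) : RowS E 1 5 (ek E keys) c20_0 [c20_0, c20_1, c20_2, c20_3, c20_4, c20_5, c20_6] [r20_0_0, r20_0_1, r20_0_2, r20_0_3, r20_0_4, r20_0_5, r20_0_6] :=
  rowS_cons E _ _ _ _ _ _ _ _ (h20_0_0 E) (rowS_cons E _ _ _ _ _ _ _ _ (h20_0_1 E) (rowS_cons E _ _ _ _ _ _ _ _ (h20_0_2 E) (rowS_cons E _ _ _ _ _ _ _ _ (h20_0_3 E) (rowS_cons E _ _ _ _ _ _ _ _ (h20_0_4 E) (rowS_cons E _ _ _ _ _ _ _ _ (h20_0_5 E) (rowS_cons E _ _ _ _ _ _ _ _ (h20_0_6 E) (rowS_nil E _ _ _ _)))))))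

theorem row20_1 (E : Env κ ι) : RowS E 1 5 (ek E keys) c20_1 [c20_1, c20_2, c20_3, c20_4, c20_5, c20_6] [r20_1_1, r20_1_2, r20_1_3, r20_1_4, r20_1_5, r20_1_6] :=
  rowS_cons E _ _ _ _ _ _ _ _ (h20_1_1 E) (rowS_cons E _ _ _ _ _ _ _ _ (h20_1_2 E) (rowS_cons E _ _ _ _ _ _ _ _ (h20_1_3 E) (rowS_cons E _ _ _ _ _ _ _ _ (h20_1_4 E) (rowS_cons E _ _ _ _ _ _ _ _ (h20_1_5 E) (rowS_cons E _ _ _ _ _ _ _ _ (h20_1_6 E) (rowS_nil E _ _ _ _))))))

theorem row20_2 (E : Env κ ι) : RowS E 1 5 (ek E keys) c20_2 [c20_2, c20_3, c20_4, c20_5, c20_6] [r20_2_2, r20_2_3, r20_2_4, r20_2_5, r20_2_6] :=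
  rowS_cons E _ _ _ _ _ _ _ _ (h20_2_2 E) (rowS_cons E _ _ _ _ _ _ _ _ (h20_2_3 E) (rowS_cons E _ _ _ _ _ _ _ _ (h20_2_4 E) (rowS_cons E _ _ _ _ _ _ _ _ (h20_2_5 E) (rowS_cons E _ _ _ _ _ _ _ _ (h20_2_6 E) (rowS_nil E _ _ _ _)))))

theorem row20_3 (E : Env κ ι) : RowS E 1 5 (ek E keys) c20_3 [c20_3, c20_4, c20_5, c20_6] [r20_3_3, r20_3_4, r20_3_5, r20_3_6] :=
  rowS_cons E _ _ _ _ _ _ _ _ (h20_3_3 E) (rowS_cons E _ _ _ _ _ _ _ _ (h20_3_4 E) (rowS_cons E _ _ _ _ _ _ _ _ (h20_3_5 E) (rowS_cons E _ _ _ _ _ _ _ _ (h20_3_6 E) (rowS_nil E _ _ _ _))))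

theorem row20_4 (E : Env κ ι) : RowS E 1 5 (ek E keys) c20_4 [c20_4, c20_5, c20_6] [r20_4_4, r20_4_5, r20_4_6] :=
  rowS_cons E _ _ _ _ _ _ _ _ (h20_4_4 E) (rowS_cons E _ _ _ _ _ _ _ _ (h20_4_5 E) (rowS_cons E _ _ _ _ _ _ _ _ (h20_4_6 E) (rowS_nil E _ _ _ _)))

theorem row20_5 (E : Env κ ι) : RowS E 1 5 (ek E keys) c20_5 [c20_5, c20_6] [r20_5_5, r20_5_6] :=
  rowS_cons E _ _ _ _ _ _ _ _ (h20_5_5 E) (rowS_cons E _ _ _ _ _ _ _ _ (h20_5_6 E) (rowS_nil E _ _ _ _))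

theorem row20_6 (E : Env κ ι) : RowS E 1 5 (ek E keys) c20_6 [c20_6] [r20_6_6] :=
  rowS_cons E _ _ _ _ _ _ _ _ (h20_6_6 E) (rowS_nil E _ _ _ _)

def tab20 : List (List (List (ℕ × ℤ))) := [[r20_0_0, r20_0_1, r20_0_2, r20_0_3, r20_0_4, r20_0_5, r20_0_6], [r20_1_1, r20_1_2, r20_1_3, r20_1_4, r20_1_5, r20_1_6], [r20_2_2, r20_2_3, r20_2_4, r20_2_5, r20_2_6], [r20_3_3, r20_3_4, r20_3_5, r20_3_6], [r20_4_4, r20_4_5, r20_4_6], [r20_5_5, r20_5_6], [r20_6_6]]

theorem tri20 (E : Env κ ι) : TriS E 1 5 (ek E keys) [c20_0, c20_1, c20_2, c20_3, c20_4, c20_5, c20_6] tab20 := by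
  refine triS_cons E _ _ _ _ _ _ _ (row20_0 E) ?_
  refine triS_cons E _ _ _ _ _ _ _ (row20_1 E) ?_
  refine triS_cons E _ _ _ _ _ _ _ (row20_2 E) ?_
  refine triS_cons E _ _ _ _ _ _ _ (row20_3 E) ?_
  refine triS_cons E _ _ _ _ _ _ _ (row20_4 E) ?_
  refine triS_cons E _ _ _ _ _ _ _ (row20_5 E) ?_
  refine triS_cons E _ _ _ _ _ _ _ (row20_6 E) ?_
  exact triS_nil E _ _ _

def rows20 : List (ℕ × List ℤ) := [(311213685600, [4194304, 293758, -4523282, -451176, -1148320, -2989113, -61832]),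
  (86033318400, [0, 8388608, 6549308, -12604286, -11539477, -3557466, 5315142]),
  (2869538400, [0, 0, 8388608, 4265736, -4291511, -12559858, 3505176]),
  (228916800, [0, 0, 0, 4194304, 1141893, -2743927, -182581]),
  (91476000, [0, 0, 0, 0, 4194304, 4603819, -1464865]),
  (141544800, [0, 0, 0, 0, 0, 4194304, -661293]),
  (620145668688917299200, [0, 0, 0, 0, 0, 0, 1]),
  (656017970459601600, [1, -2, 0, 0, 0, 0, 0]),
  (21492396317079326475, [0, 1, -1, 0, 0, 0, 0]),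
  (841885448743128110400, [1, 0, 0, 0, 0, 0, 0]),
  (1239775211722295236725, [0, 1, 0, 0, 0, 0, 0]),
  (1242310897709117255925, [0, 0, 1, 0, 0, 0, 0]),
  (842541466713587712000, [0, 0, 0, 1, 0, 0, 0]),
  (842541466713587712000, [0, 0, 0, 0, 1, 0, 0]),
  (842541466713587712000, [0, 0, 0, 0, 0, 1, 0]),
  (842541466713587712000, [0, 0, 0, 0, 0, 0, 1])]

def M20 : List (List ℤ) := [[5475771598110302247321600, 766896584865528190752000, -11808704401585066318233600, -1177862449674714926284800, -2997861163294298996736000, -7803526695867103209062400, -161421686854546725273600],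
  [6082176264816868039065600, 8626174800090383177635050, -18275515324319099968128000, -16866038389985037907660800, -5681383327608234394435200, 7660568106399574015257600],
  [10260911111993730706032000, -12728377001428644494361600, -9977646259286912113459200, 3801954261723522541833600, 6332557935997848544128000],
  [13788379272014699488819200, 25246160258934804062400000, 8242014457350026519155200, -11424533372700456271564800],
  [11922133415033475239191200, 9511453489223995195910400, -10596883457323489457116800],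
  [4329095947899381211406400, -3392922071245236794452800],
  [2468678665842453495441600]]

def u20 : List ℤ := [0, 0, 0, 7000213076473014693077299200, -8635411655672339408722329600, 3687844428120263386663526400, 0, 0, 0, 0, -518022953625782154555187200, -5905910093734249849416499200, 0, -2908868263735416009950822400, -5108554884754899002091110400, 0, 4276460409074829816182784000, -6516929024731465981113139200, 0, 0, 0, 0, 0, 0, 0, 0, 0, 0, -1254038114365141204913356800, 588976577176725650497536000, -698879506029920283053260800, 698879506029920283053260800, -1952917620395061487966617600, 0, 0, 0, 0, 0, 0, 0, 1088025713278737108869836800, 2626793244670395060744192000, 2594435122616670998006169600, -4525824340695524419672473600, -9069084980417330932403404800, 3154044440511534094457241600, 0, 0, 0, 5108554884754899002091110400, 0, 4813315179571069301930803200, 5312506316326394125293158400, 0, -5812741954743182491602124800,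 0, 0, 0, 0, 0, 0, 2208300748823138093474572800, 0, 0, 0, 2908868263735416009950822400, 0, 0, 0, -67900657166815449999974400, 4416601497646276186949145600, 0, 0, 0, 0, 0, 0, 5962459100645866087791820800, -3922210870476581895811891200, -1446844452761428467856588800, 0, 0, 0, 6516929024731465981113139200, 0, 0, 0, 0, 0, 0, 1092594914163180547485696000, -4333009415986446054558105600, 0, 0, 0, 0, 0, -4756766172659453063555481600, 0, 0, 0, 3206955734760202692879974400, 0, 0, 5812741954743182491602124800, 0, 6552172692485077007771596800, 0, 0, 8635411655672339408722329600, 0, 6044695197698627877267763200, -13163782495768665460741324800, 0, 0, 0, -2503502169175293733628467200, 0, 0, 0, -5985258086900116432069632000, 0, -216383462399608043296665600, 871642250879129065573171200, 3242269663230898454593536000, -1591256017234702729897574400, 392321226032207124092928000, 0, 0, 0, 0, -5253586489340790121488384000, -3242269663230898454593536000,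 5253586489340790121488384000, 0, 1344854874445354114666905600, 1946600582002443541418803200, -2934568323460821689774899200, 3154044440511534094457241600, 0, 0, 1557037123793118218000793600, 0, 0, 3114074247586236436001587200, 0, 0, 0, 0, 0, 0, 0, 0, 9357063846051379183681536000, 0, 0, -3114074247586236436001587200, -4416601497646276186949145600, 0, 0, 0, 0, 0, 0, 0, 0, 0, 0, 0, 912087949646138028073574400, 0, -3480460602235819369906176000, 0, 0, -2626793244670395060744192000, 0, -1946600582002443541418803200, 9069084980417330932403404800, -2594435122616670998006169600, 0, 0, 0, -40445698767008962500403200, 2934568323460821689774899200, 0, 0, -6308088881023068188914483200, 0, 0, 6117080357930227149570048000, 0, -13044908274171642570345062400, -6940775965674503247879168000, 8996237750861859296201932800, -506671303370582942930534400, -871642250879129065573171200, 0, 0, 0, 0, 0, 0, 0, 0, 0, -588976577176725650497536000,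 0, -2208300748823138093474572800, 0, 0, 0, 0, 0, 0, 0, 0, -1557037123793118218000793600]

theorem gr20 : eqM (gramT rows20) M20 = true := by
  decide +kernel

theorem mv20 : eqZ (mval M20 tab20) u20 = true := by
  decide +kernel

theorem nn20 (E : Env κ ι) : 0 ≤ dot (ek E keys) u20 0 :=
  block_nonneg E _ _ _ _ _ (tri20 E) rows20 M20 gr20 u20 mv20

end

end YMLIM
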