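import Pool.Agent.YM.LIM.T22_0
import Pool.Agent.YM.LIM.T22_1
import Pool.Agent.YM.LIM.T22_2

set_option linter.unusedVariables false
set_option maxRecDepth 100000

open YMEng

namespace YMLIM

section

variable {κ ι : Type*} [Fintype κ] [Fintype ι] [Inhabited κ] [Inhabited ι]

def r22_0_0 : List (ℕ × ℤ) := [(33, 192), (34, -384), (35, -192), (37, 384), (202, 192), (215, -192)]

theorem h22_0_0 (E : Env κ ι) : inn E 2 5 c22_0 c22_0 = dotS (ek E keys) r22_0_0 :=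
  innS_eqZ E _ _ _ _ _ _ _ (innS_add E _ _ _ _ _ _ _ _ (chkS_sound E keys 2 5 _ _ _ _ t22_0_0_0) (innS_add E _ _ _ _ _ _ _ _ (chkS_sound E keys 2 5 _ _ _ _ t22_0_0_1) (innS_add E _ _ _ _ _ _ _ _ (chkS_sound E keys 2 5 _ _ _ _ t22_0_0_2) (innS_add E _ _ _ _ _ _ _ _ (chkS_sound E keys 2 5 _ _ _ _ t22_0_0_3) (innS_add E _ _ _ _ _ _ _ _ (chkS_sound E keys 2 5 _ _ _ _ t22_0_0_4) (chkS_sound E keys 2 5 _ _ _ _ t22_0_0_5)))))) (by decide +kernel)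

def r22_0_1 : List (ℕ × ℤ) := [(18, 480), (24, -480), (53, 480), (148, -480)]

theorem h22_0_1 (E : Env κ ι) : inn E 2 5 c22_0 c22_1 = dotS (ek E keys) r22_0_1 :=
  innS_eqZ E _ _ _ _ _ _ _ (innS_add E _ _ _ _ _ _ _ _ (chkS_sound E keys 2 5 _ _ _ _ t22_0_1_0) (innS_add E _ _ _ _ _ _ _ _ (chkS_sound E keys 2 5 _ _ _ _ t22_0_1_1) (innS_add E _ _ _ _ _ _ _ _ (chkS_sound E keys 2 5 _ _ _ _ t22_0_1_2) (innS_add E _ _ _ _ _ _ _ _ (chkS_sound E keys 2 5 _ _ _ _ t22_0_1_3) (innS_add E _ _ _ _ _ _ _ _ (chkS_sound E keys 2 5 _ _ _ _ t22_0_1_4) (chkS_sound E keys 2 5 _ _ _ _ t22_0_1_5)))))) (by decide +kernel)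

def r22_0_2 : List (ℕ × ℤ) := [(19, 192), (20, 576), (21, 576), (25, -576), (29, 192), (32, -192), (99, -768), (115, -576), (119, -192), (204, 768)]

theorem h22_0_2 (E : Env κ ι) : inn E 2 5 c22_0 c22_2 = dotS (ek E keys) r22_0_2 :=
  innS_eqZ E _ _ _ _ _ _ _ (innS_add E _ _ _ _ _ _ _ _ (chkS_sound E keys 2 5 _ _ _ _ t22_0_2_0) (innS_add E _ _ _ _ _ _ _ _ (chkS_sound E keys 2 5 _ _ _ _ t22_0_2_1) (innS_add E _ _ _ _ _ _ _ _ (chkS_sound E keys 2 5 _ _ _ _ t22_0_2_2) (innS_add E _ _ _ _ _ _ _ _ (chkS_sound E keys 2 5 _ _ _ _ t22_0_2_3) (innS_add E _ _ _ _ _ _ _ _ (chkS_sound E keys 2 5 _ _ _ _ t22_0_2_4) (chkS_sound E keys 2 5 _ _ _ _ t22_0_2_5)))))) (by decide +kernel)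

def r22_0_3 : List (ℕ × ℤ) := [(19, -192), (20, 384), (21, -96), (25, 96), (29, 288), (32, -288), (99, -192), (115, -384), (119, 192), (204, 192)]

theorem h22_0_3 (E : Env κ ι) : inn E 2 5 c22_0 c22_3 = dotS (ek E keys) r22_0_3 :=
  innS_eqZ E _ _ _ _ _ _ _ (innS_add E _ _ _ _ _ _ _ _ (chkS_sound E keys 2 5 _ _ _ _ t22_0_3_0) (innS_add E _ _ _ _ _ _ _ _ (chkS_sound E keys 2 5 _ _ _ _ t22_0_3_1) (innS_add E _ _ _ _ _ _ _ _ (chkS_sound E keys 2 5 _ _ _ _ t22_0_3_2) (innS_add E _ _ _ _ _ _ _ _ (chkS_sound E keys 2 5 _ _ _ _ t22_0_3_3) (innS_add E _ _ _ _ _ _ _ _ (chkS_sound E keys 2 5 _ _ _ _ t22_0_3_4) (chkS_sound E keys 2 5 _ _ _ _ t22_0_3_5)))))) (by decide +kernel)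

def r22_1_1 : List (ℕ × ℤ) := [(7, 240), (46, 720), (50, 480), (85, -480), (92, -720), (147, -240)]

theorem h22_1_1 (E : Env κ ι) : inn E 2 5 c22_1 c22_1 = dotS (ek E keys) r22_1_1 :=
  innS_eqZ E _ _ _ _ _ _ _ (innS_add E _ _ _ _ _ _ _ _ (chkS_sound E keys 2 5 _ _ _ _ t22_1_1_0) (innS_add E _ _ _ _ _ _ _ _ (chkS_sound E keys 2 5 _ _ _ _ t22_1_1_1) (innS_add E _ _ _ _ _ _ _ _ (chkS_sound E keys 2 5 _ _ _ _ t22_1_1_2) (innS_add E _ _ _ _ _ _ _ _ (chkS_sound E keys 2 5 _ _ _ _ t22_1_1_3) (innS_add E _ _ _ _ _ _ _ _ (chkS_sound E keys 2 5 _ _ _ _ t22_1_1_4) (innS_add E _ _ _ _ _ _ _ _ (chkS_sound E keys 2 5 _ _ _ _ t22_1_1_5) (innS_add E _ _ _ _ _ _ _ _ (chkS_sound E keys 2 5 _ _ _ _ t22_1_1_6) (innS_add E _ _ _ _ _ _ _ _ (chkS_sound E keys 2 5 _ _ _ _ t22_1_1_7) (innS_add E _ _ _ _ _ _ _ _ (chkS_sound E keys 2 5 _ _ _ _ t22_1_1_8) (innS_add E _ _ _ _ _ _ _ _ (chkS_sound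 E keys 2 5 _ _ _ _ t22_1_1_9) (innS_add E _ _ _ _ _ _ _ _ (chkS_sound E keys 2 5 _ _ _ _ t22_1_1_10) (chkS_sound E keys 2 5 _ _ _ _ t22_1_1_11)))))))))))) (by decide +kernel)

def r22_1_2 : List (ℕ × ℤ) := [(8, 480), (13, 480), (48, 960), (51, -480), (63, 960), (89, -960), (95, -960), (117, -480)]

theorem h22_1_2 (E : Env κ ι) : inn E 2 5 c22_1 c22_2 = dotS (ek E keys) r22_1_2 :=
  innS_eqZ E _ _ _ _ _ _ _ (innS_add E _ _ _ _ _ _ _ _ (chkS_sound E keys 2 5 _ _ _ _ t22_1_2_0) (innS_add E _ _ _ _ _ _ _ _ (chkS_sound E keys 2 5 _ _ _ _ t22_1_2_1) (innS_add E _ _ _ _ _ _ _ _ (chkS_sound E keys 2 5 _ _ _ _ t22_1_2_2) (innS_add E _ _ _ _ _ _ _ _ (chkS_sound E keys 2 5 _ _ _ _ t22_1_2_3) (innS_add E _ _ _ _ _ _ _ _ (chkS_sound E keys 2 5 _ _ _ _ t22_1_2_4) (innS_add E _ _ _ _ _ _ _ _ (chkS_sound E keys 2 5 _ _ _ _ t22_1_2_5) (innS_add E _ _ _ _ _ _ _ _ (chkS_sound E keys 2 5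 _ _ _ _ t22_1_2_6) (innS_add E _ _ _ _ _ _ _ _ (chkS_sound E keys 2 5 _ _ _ _ t22_1_2_7) (innS_add E _ _ _ _ _ _ _ _ (chkS_sound E keys 2 5 _ _ _ _ t22_1_2_8) (innS_add E _ _ _ _ _ _ _ _ (chkS_sound E keys 2 5 _ _ _ _ t22_1_2_9) (innS_add E _ _ _ _ _ _ _ _ (chkS_sound E keys 2 5 _ _ _ _ t22_1_2_10) (chkS_sound E keys 2 5 _ _ _ _ t22_1_2_11)))))))))))) (by decide +kernel)

def r22_1_3 : List (ℕ × ℤ) := [(8, -240), (10, -240), (13, 480), (51, -480), (63, 480), (69, 240), (89, -480), (117, 240)]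

theorem h22_1_3 (E : Env κ ι) : inn E 2 5 c22_1 c22_3 = dotS (ek E keys) r22_1_3 :=
  innS_eqZ E _ _ _ _ _ _ _ (innS_add E _ _ _ _ _ _ _ _ (chkS_sound E keys 2 5 _ _ _ _ t22_1_3_0) (innS_add E _ _ _ _ _ _ _ _ (chkS_sound E keys 2 5 _ _ _ _ t22_1_3_1) (innS_add E _ _ _ _ _ _ _ _ (chkS_sound E keys 2 5 _ _ _ _ t22_1_3_2) (innS_add E _ _ _ _ _ _ _ _ (chkS_sound E keys 2 5 _ _ _ _ t22_1_3_3) (innS_add E _ _ _ _ _ _ _ _ (chkS_sound E keys 2 5 _ _ _ _ t22_1_3_4) (innS_add E _ _ _ _ _ _ _ _ (chkS_sound E keys 2 5 _ _ _ _ t22_1_3_5) (innS_add E _ _ _ _ _ _ _ _ (chkS_sound E keys 2 5 _ _ _ _ t22_1_3_6) (innS_add E _ _ _ _ _ _ _ _ (chkS_sound E keys 2 5 _ _ _ _ t22_1_3_7) (innS_add E _ _ _ _ _ _ _ _ (chkS_sound E keys 2 5 _ _ _ _ t22_1_3_8) (innS_add E _ _ _ _ _ _ _ _ (chkS_sound E keys 2 5 _ _ _ _ t22_1_3_9) (innS_add E _ _ _ _ _ _ _ _ (chkS_sound E keys 2 5 _ _ _ _ t22_1_3_10)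 (chkS_sound E keys 2 5 _ _ _ _ t22_1_3_11)))))))))))) (by decide +kernel)

def r22_2_2 : List (ℕ × ℤ) := [(9, 384), (12, 192), (14, 384), (47, 384), (54, -384), (57, -192), (61, 384), (62, 768), (70, -384), (74, 192), (75, 384), (102, -1536), (113, -768), (114, -192), (118, -384), (159, -384), (197, -384), (206, 1536)]

theorem h22_2_2 (E : Env κ ι) : inn E 2 5 c22_2 c22_2 = dotS (ek E keys) r22_2_2 :=
  innS_eqZ E _ _ _ _ _ _ _ (innS_add E _ _ _ _ _ _ _ _ (chkS_sound E keys 2 5 _ _ _ _ t22_2_2_0) (innS_add E _ _ _ _ _ _ _ _ (chkS_sound E keys 2 5 _ _ _ _ t22_2_2_1) (innS_add E _ _ _ _ _ _ _ _ (chkS_sound E keys 2 5 _ _ _ _ t22_2_2_2) (innS_add E _ _ _ _ _ _ _ _ (chkS_sound E keys 2 5 _ _ _ _ t22_2_2_3) (innS_add E _ _ _ _ _ _ _ _ (chkS_sound E keys 2 5 _ _ _ _ t22_2_2_4) (innS_add E _ _ _ _ _ _ _ _ (chkS_sound E keys 2 5 _ _ _ _ t22_2_2_5) (innS_add E _ _ _ _ _ _ _ _ (chkS_sound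 E keys 2 5 _ _ _ _ t22_2_2_6) (innS_add E _ _ _ _ _ _ _ _ (chkS_sound E keys 2 5 _ _ _ _ t22_2_2_7) (innS_add E _ _ _ _ _ _ _ _ (chkS_sound E keys 2 5 _ _ _ _ t22_2_2_8) (innS_add E _ _ _ _ _ _ _ _ (chkS_sound E keys 2 5 _ _ _ _ t22_2_2_9) (innS_add E _ _ _ _ _ _ _ _ (chkS_sound E keys 2 5 _ _ _ _ t22_2_2_10) (chkS_sound E keys 2 5 _ _ _ _ t22_2_2_11)))))))))))) (by decide +kernel)

def r22_2_3 : List (ℕ × ℤ) := [(9, 96), (12, -192), (14, 96), (47, -384), (54, -96), (57, -288), (61, 96), (62, 192), (70, -96), (74, 288), (75, 576), (102, -384), (113, -192), (114, 192), (118, -96), (159, 384), (197, -576), (206, 384)]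

theorem h22_2_3 (E : Env κ ι) : inn E 2 5 c22_2 c22_3 = dotS (ek E keys) r22_2_3 :=
  innS_eqZ E _ _ _ _ _ _ _ (innS_add E _ _ _ _ _ _ _ _ (chkS_sound E keys 2 5 _ _ _ _ t22_2_3_0) (innS_add E _ _ _ _ _ _ _ _ (chkS_sound E keys 2 5 _ _ _ _ t22_2_3_1) (innS_add E _ _ _ _ _ _ _ _ (chkS_sound E keys 2 5 _ _ _ _ t22_2_3_2) (innS_add E _ _ _ _ _ _ _ _ (chkS_sound E keys 2 5 _ _ _ _ t22_2_3_3) (innS_add E _ _ _ _ _ _ _ _ (chkS_sound E keys 2 5 _ _ _ _ t22_2_3_4) (innS_add E _ _ _ _ _ _ _ _ (chkS_sound E keys 2 5 _ _ _ _ t22_2_3_5) (innS_add E _ _ _ _ _ _ _ _ (chkS_sound E keys 2 5 _ _ _ _ t22_2_3_6) (innS_add E _ _ _ _ _ _ _ _ (chkS_sound E keys 2 5 _ _ _ _ t22_2_3_7) (innS_add E _ _ _ _ _ _ _ _ (chkS_sound E keys 2 5 _ _ _ _ t22_2_3_8) (innS_add E _ _ _ _ _ _ _ _ (chkS_sound E keys 2 5 _ _ _ _ t22_2_3_9) (innS_add E _ _ _ _ _ _ _ _ (chkS_sound E keys 2 5 _ _ _ _ t22_2_3_10)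 (chkS_sound E keys 2 5 _ _ _ _ t22_2_3_11)))))))))))) (by decide +kernel)

def r22_3_3 : List (ℕ × ℤ) := [(9, 144), (12, -288), (14, 384), (47, -96), (54, 96), (57, 48), (61, -96), (62, -192), (70, -384), (74, -48), (75, 384), (102, -96), (113, 192), (114, 288), (118, -144), (159, 96), (197, -384), (206, 96)]

theorem h22_3_3 (E : Env κ ι) : inn E 2 5 c22_3 c22_3 = dotS (ek E keys) r22_3_3 :=
  innS_eqZ E _ _ _ _ _ _ _ (innS_add E _ _ _ _ _ _ _ _ (chkS_sound E keys 2 5 _ _ _ _ t22_3_3_0) (innS_add E _ _ _ _ _ _ _ _ (chkS_sound E keys 2 5 _ _ _ _ t22_3_3_1) (innS_add E _ _ _ _ _ _ _ _ (chkS_sound E keys 2 5 _ _ _ _ t22_3_3_2) (innS_add E _ _ _ _ _ _ _ _ (chkS_sound E keys 2 5 _ _ _ _ t22_3_3_3) (innS_add E _ _ _ _ _ _ _ _ (chkS_sound E keys 2 5 _ _ _ _ t22_3_3_4) (innS_add E _ _ _ _ _ _ _ _ (chkS_sound E keys 2 5 _ _ _ _ t22_3_3_5) (innS_add E _ _ _ _ _ _ _ _ (chkS_sound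 E keys 2 5 _ _ _ _ t22_3_3_6) (innS_add E _ _ _ _ _ _ _ _ (chkS_sound E keys 2 5 _ _ _ _ t22_3_3_7) (innS_add E _ _ _ _ _ _ _ _ (chkS_sound E keys 2 5 _ _ _ _ t22_3_3_8) (innS_add E _ _ _ _ _ _ _ _ (chkS_sound E keys 2 5 _ _ _ _ t22_3_3_9) (innS_add E _ _ _ _ _ _ _ _ (chkS_sound E keys 2 5 _ _ _ _ t22_3_3_10) (innS_add E _ _ _ _ _ _ _ _ (chkS_sound E keys 2 5 _ _ _ _ t22_3_3_11) (innS_add E _ _ _ _ _ _ _ _ (chkS_sound E keys 2 5 _ _ _ _ t22_3_3_12) (innS_add E _ _ _ _ _ _ _ _ (chkS_sound E keys 2 5 _ _ _ _ t22_3_3_13) (innS_add E _ _ _ _ _ _ _ _ (chkS_sound E keys 2 5 _ _ _ _ t22_3_3_14) (innS_add E _ _ _ _ _ _ _ _ (chkS_sound E keys 2 5 _ _ _ _ t22_3_3_15) (innS_add E _ _ _ _ _ _ _ _ (chkS_sound E keys 2 5 _ _ _ _ t22_3_3_16) (chkS_sound E keys 2 5 _ _ _ _ t22_3_3_17)))))))))))))))))) (by decide +kernel)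

theorem row22_0 (E : Env κ ι) : RowS E 2 5 (ek E keys) c22_0 [c22_0, c22_1, c22_2, c22_3] [r22_0_0, r22_0_1, r22_0_2, r22_0_3] :=
  rowS_cons E _ _ _ _ _ _ _ _ (h22_0_0 E) (rowS_cons E _ _ _ _ _ _ _ _ (h22_0_1 E) (rowS_cons E _ _ _ _ _ _ _ _ (h22_0_2 E) (rowS_cons E _ _ _ _ _ _ _ _ (h22_0_3 E) (rowS_nil E _ _ _ _))))

theorem row22_1 (E : Env κ ι) : RowS E 2 5 (ek E keys) c22_1 [c22_1, c22_2, c22_3] [r22_1_1, r22_1_2, r22_1_3] :=
  rowS_cons E _ _ _ _ _ _ _ _ (h22_1_1 E) (rowS_cons E _ _ _ _ _ _ _ _ (h22_1_2 E) (rowS_cons E _ _ _ _ _ _ _ _ (h22_1_3 E) (rowS_nil E _ _ _ _)))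

theorem row22_2 (E : Env κ ι) : RowS E 2 5 (ek E keys) c22_2 [c22_2, c22_3] [r22_2_2, r22_2_3] :=
  rowS_cons E _ _ _ _ _ _ _ _ (h22_2_2 E) (rowS_cons E _ _ _ _ _ _ _ _ (h22_2_3 E) (rowS_nil E _ _ _ _))

theorem row22_3 (E : Env κ ι) : RowS E 2 5 (ek E keys) c22_3 [c22_3] [r22_3_3] :=
  rowS_cons E _ _ _ _ _ _ _ _ (h22_3_3 E) (rowS_nil E _ _ _ _)

def tab22 : List (List (List (ℕ × ℤ))) := [[r22_0_0, r22_0_1, r22_0_2, r22_0_3], [r22_1_1, r22_1_2, r22_1_3], [r22_2_2, r22_2_3], [r22_3_3]]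

theorem tri22 (E : Env κ ι) : TriS E 2 5 (ek E keys) [c22_0, c22_1, c22_2, c22_3] tab22 := by
  refine triS_cons E _ _ _ _ _ _ _ (row22_0 E) ?_
  refine triS_cons E _ _ _ _ _ _ _ (row22_1 E) ?_
  refine triS_cons E _ _ _ _ _ _ _ (row22_2 E) ?_
  refine triS_cons E _ _ _ _ _ _ _ (row22_3 E) ?_
  exact triS_nil E _ _ _

def rows22 : List (ℕ × List ℤ) := [(1425019284000, [8388608, -5479181, -1880463, 5664970]),
  (31667263200, [0, 4194304, 354135, 7866009]),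
  (9787392000, [0, 0, 131072, -155501]),
  (4767749819264611123200, [0, 0, 0, 1]),
  (462077649031608000, [4, 0, -1, 0]),
  (1256410051641690854400, [1, 0, 0, 0]),
  (674033173370870169600, [0, 1, 0, 0]),
  (210173289029365320000, [0, 0, 1, 0]),
  (561692332021461811200, [0, 0, 0, 1])]

def M22 : List (List ℤ) := [[100278081247327948269158400, -130995472164110953611264000, -44957842937949517811136000, 135437288884145938759680000],
  [43338879165888407027584800, 29459153161810067331960000, -86373915578053666007529600],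
  [5043419473990903464672000, -30184767797325431618952000],
  [47696504569059614737845600]]

def u22 : List ℤ := [0, 0, 0, 0, 0, 0, 0, 10401330999813217686620352000, 34870133256401712161147904000, 5907232027413850017264422400, 20729739738732879841807104000, 0, -6972781359796432708443724800, -27319085959796927364273408000, 17354393123988157554347366400, 0, 0, 0, -62877826638773257733406720000, -34635865309842327661596672000, 26112201399253118224502784000, -38897697265136932380143616000, 0, 0, 62877826638773257733406720000, 38897697265136932380143616000, 0, 0, 0, 30374033354547722943049728000, 0, 0, -30374033354547722943049728000, 19253391599486966067678412800, -38506783198973932135356825600, -19253391599486966067678412800, 0, 38506783198973932135356825600, 0, 0, 0, 0, 0, 0, 0, 0, 31203992999439653059861056000, 8948759473555749657278438400, 28280787035337664638681600000,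 0, 20802661999626435373240704000, 27319085959796927364273408000, 0, -62877826638773257733406720000, 5539929069160457519818521600, 0, 0, 10014308805938332348457740800, 0, 0, 0, -5539929069160457519818521600, -11079858138320915039637043200, -13178692442128095044932608000, 0, 0, 0, 0, 0, -20729739738732879841807104000, -17354393123988157554347366400, 0, 0, 0, -10014308805938332348457740800, 2865704581271950377250406400, 0, 0, 0, 0, 0, 0, 0, 0, 0, -20802661999626435373240704000, 0, 0, 0, 13178692442128095044932608000, 0, 0, -31203992999439653059861056000, 0, 0, -28280787035337664638681600000, 0, 0, 0, 8523663910589209437093888000, 0, 0, -734605916506784994891801600, 0, 0, 0, 0, 0, 0, 0, 0, 0, 0, 11079858138320915039637043200, 6972781359796432708443724800, -26112201399253118224502784000, 0, -34870133256401712161147904000, -5907232027413850017264422400, 34635865309842327661596672000,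 0, 0, 0, 0, 0, 0, 0, 0, 0, 0, 0, 0, 0, 0, 0, 0, 0, 0, 0, 0, 0, 0, 0, 0, 0, 0, 0, -10401330999813217686620352000, 62877826638773257733406720000, 0, 0, 0, 0, 0, 0, 0, 0, 0, 0, -8948759473555749657278438400, 0, 0, 0, 0, 0, 0, 0, 0, 0, 0, 0, 0, 0, 0, 0, 0, 0, 0, 0, 0, 0, 0, 0, 0, 0, 0, 0, 0, 0, 0, 0, 0, 0, 0, 0, 0, 0, -2865704581271950377250406400, 0, 0, 0, 0, 19253391599486966067678412800, 0, -8523663910589209437093888000, 0, 734605916506784994891801600, 0, 0, 0, 0, 0, 0, 0, 0, -19253391599486966067678412800]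

theorem gr22 : eqM (gramT rows22) M22 = true := by
  decide +kernel

theorem mv22 : eqZ (mval M22 tab22) u22 = true := by
  decide +kernel

theorem nn22 (E : Env κ ι) : 0 ≤ dot (ek E keys) u22 0 :=
  block_nonneg E _ _ _ _ _ (tri22 E) rows22 M22 gr22 u22 mv22

end

end YMLIM
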