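import Pool.Agent.YM.LIM.T23_0
import Pool.Agent.YM.LIM.T23_1

set_option linter.unusedVariables false
set_option maxRecDepth 100000

open YMEng

namespace YMLIM

section

variable {κ ι : Type*} [Fintype κ] [Fintype ι] [Inhabited κ] [Inhabited ι]

def r23_0_0 : List (ℕ × ℤ) := [(33, 128), (34, 128), (35, -256), (37, 128), (202, -256), (215, 128)]

theorem h23_0_0 (E : Env κ ι) : inn E 2 5 c23_0 c23_0 = dotS (ek E keys) r23_0_0 :=
  innS_eqZ E _ _ _ _ _ _ _ (innS_add E _ _ _ _ _ _ _ _ (chkS_sound E keys 2 5 _ _ _ _ t23_0_0_0) (chkS_sound E keys 2 5 _ _ _ _ t23_0_0_1)) (by decide +kernel)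

def r23_0_1 : List (ℕ × ℤ) := [(18, 512), (87, -1024), (148, 512)]

theorem h23_0_1 (E : Env κ ι) : inn E 2 5 c23_0 c23_1 = dotS (ek E keys) r23_0_1 :=
  innS_eqZ E _ _ _ _ _ _ _ (innS_add E _ _ _ _ _ _ _ _ (chkS_sound E keys 2 5 _ _ _ _ t23_0_1_0) (chkS_sound E keys 2 5 _ _ _ _ t23_0_1_1)) (by decide +kernel)

def r23_0_2 : List (ℕ × ℤ) := [(19, 128), (20, 256), (21, -256), (25, -256), (29, 384), (32, 384), (99, -512), (115, 256), (119, 128), (204, -512)]

theorem h23_0_2 (E : Env κ ι) : inn E 2 5 c23_0 c23_2 = dotS (ek E keys) r23_0_2 :=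
  innS_eqZ E _ _ _ _ _ _ _ (innS_add E _ _ _ _ _ _ _ _ (chkS_sound E keys 2 5 _ _ _ _ t23_0_2_0) (chkS_sound E keys 2 5 _ _ _ _ t23_0_2_1)) (by decide +kernel)

def r23_0_3 : List (ℕ × ℤ) := [(19, 384), (20, -256), (21, 256), (25, 256), (29, 128), (32, 128), (99, -512), (115, -256), (119, 384), (204, -512)]

theorem h23_0_3 (E : Env κ ι) : inn E 2 5 c23_0 c23_3 = dotS (ek E keys) r23_0_3 :=
  innS_eqZ E _ _ _ _ _ _ _ (innS_add E _ _ _ _ _ _ _ _ (chkS_sound E keys 2 5 _ _ _ _ t23_0_3_0) (chkS_sound E keys 2 5 _ _ _ _ t23_0_3_1)) (by decide +kernel)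

def r23_1_1 : List (ℕ × ℤ) := [(7, 512), (46, 1024), (50, -1024), (84, -1024), (85, -1024), (92, 1024), (147, 512)]

theorem h23_1_1 (E : Env κ ι) : inn E 2 5 c23_1 c23_1 = dotS (ek E keys) r23_1_1 :=
  innS_eqZ E _ _ _ _ _ _ _ (innS_add E _ _ _ _ _ _ _ _ (chkS_sound E keys 2 5 _ _ _ _ t23_1_1_0) (innS_add E _ _ _ _ _ _ _ _ (chkS_sound E keys 2 5 _ _ _ _ t23_1_1_1) (innS_add E _ _ _ _ _ _ _ _ (chkS_sound E keys 2 5 _ _ _ _ t23_1_1_2) (innS_add E _ _ _ _ _ _ _ _ (chkS_sound E keys 2 5 _ _ _ _ t23_1_1_3) (chkS_sound E keys 2 5 _ _ _ _ t23_1_1_4))))) (by decide +kernel)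

def r23_1_2 : List (ℕ × ℤ) := [(10, 512), (13, 1024), (48, -1024), (51, 1024), (69, 512), (90, -1024), (95, -1024), (117, 0)]

theorem h23_1_2 (E : Env κ ι) : inn E 2 5 c23_1 c23_2 = dotS (ek E keys) r23_1_2 :=
  innS_eqZ E _ _ _ _ _ _ _ (innS_add E _ _ _ _ _ _ _ _ (chkS_sound E keys 2 5 _ _ _ _ t23_1_2_0) (innS_add E _ _ _ _ _ _ _ _ (chkS_sound E keys 2 5 _ _ _ _ t23_1_2_1) (innS_add E _ _ _ _ _ _ _ _ (chkS_sound E keys 2 5 _ _ _ _ t23_1_2_2) (innS_add E _ _ _ _ _ _ _ _ (chkS_sound E keys 2 5 _ _ _ _ t23_1_2_3) (chkS_sound E keys 2 5 _ _ _ _ t23_1_2_4))))) (by decide +kernel)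

def r23_1_3 : List (ℕ × ℤ) := [(8, 1024), (10, 512), (63, -1024), (69, 512), (89, -1024), (90, -1024), (117, 1024)]

theorem h23_1_3 (E : Env κ ι) : inn E 2 5 c23_1 c23_3 = dotS (ek E keys) r23_1_3 :=
  innS_eqZ E _ _ _ _ _ _ _ (innS_add E _ _ _ _ _ _ _ _ (chkS_sound E keys 2 5 _ _ _ _ t23_1_3_0) (innS_add E _ _ _ _ _ _ _ _ (chkS_sound E keys 2 5 _ _ _ _ t23_1_3_1) (innS_add E _ _ _ _ _ _ _ _ (chkS_sound E keys 2 5 _ _ _ _ t23_1_3_2) (innS_add E _ _ _ _ _ _ _ _ (chkS_sound E keys 2 5 _ _ _ _ t23_1_3_3) (chkS_sound E keys 2 5 _ _ _ _ t23_1_3_4))))) (by decide +kernel)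

def r23_2_2 : List (ℕ × ℤ) := [(9, 384), (12, 768), (14, 512), (47, -512), (54, 128), (57, -256), (61, 128), (62, -1024), (70, 512), (74, -256), (75, 512), (102, -512), (113, -1024), (114, 768), (118, 384), (159, -512), (197, 512), (206, -512)]

theorem h23_2_2 (E : Env κ ι) : inn E 2 5 c23_2 c23_2 = dotS (ek E keys) r23_2_2 :=
  innS_eqZ E _ _ _ _ _ _ _ (innS_add E _ _ _ _ _ _ _ _ (chkS_sound E keys 2 5 _ _ _ _ t23_2_2_0) (innS_add E _ _ _ _ _ _ _ _ (chkS_sound E keys 2 5 _ _ _ _ t23_2_2_1) (innS_add E _ _ _ _ _ _ _ _ (chkS_sound E keys 2 5 _ _ _ _ t23_2_2_2) (innS_add E _ _ _ _ _ _ _ _ (chkS_sound E keys 2 5 _ _ _ _ t23_2_2_3) (innS_add E _ _ _ _ _ _ _ _ (chkS_sound E keys 2 5 _ _ _ _ t23_2_2_4) (chkS_sound E keys 2 5 _ _ _ _ t23_2_2_5)))))) (by decide +kernel)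

def r23_2_3 : List (ℕ × ℤ) := [(9, 128), (12, 256), (14, 512), (47, -512), (54, 384), (57, 256), (61, 384), (70, 512), (74, 256), (75, -512), (102, -512), (114, 256), (118, 128), (159, -512), (197, -512), (206, -512)]

theorem h23_2_3 (E : Env κ ι) : inn E 2 5 c23_2 c23_3 = dotS (ek E keys) r23_2_3 :=
  innS_eqZ E _ _ _ _ _ _ _ (innS_add E _ _ _ _ _ _ _ _ (chkS_sound E keys 2 5 _ _ _ _ t23_2_3_0) (innS_add E _ _ _ _ _ _ _ _ (chkS_sound E keys 2 5 _ _ _ _ t23_2_3_1) (innS_add E _ _ _ _ _ _ _ _ (chkS_sound E keys 2 5 _ _ _ _ t23_2_3_2) (innS_add E _ _ _ _ _ _ _ _ (chkS_sound E keys 2 5 _ _ _ _ t23_2_3_3) (innS_add E _ _ _ _ _ _ _ _ (chkS_sound E keys 2 5 _ _ _ _ t23_2_3_4) (chkS_sound E keys 2 5 _ _ _ _ t23_2_3_5)))))) (by decide +kernel)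

def r23_3_3 : List (ℕ × ℤ) := [(9, 384), (12, -256), (14, 512), (47, 512), (54, 128), (57, 768), (61, 128), (62, -1024), (70, 512), (74, 768), (75, -512), (102, -512), (113, -1024), (114, -256), (118, 384), (159, 512), (197, -512), (206, -512)]

theorem h23_3_3 (E : Env κ ι) : inn E 2 5 c23_3 c23_3 = dotS (ek E keys) r23_3_3 :=
  innS_eqZ E _ _ _ _ _ _ _ (innS_add E _ _ _ _ _ _ _ _ (chkS_sound E keys 2 5 _ _ _ _ t23_3_3_0) (innS_add E _ _ _ _ _ _ _ _ (chkS_sound E keys 2 5 _ _ _ _ t23_3_3_1) (innS_add E _ _ _ _ _ _ _ _ (chkS_sound E keys 2 5 _ _ _ _ t23_3_3_2) (innS_add E _ _ _ _ _ _ _ _ (chkS_sound E keys 2 5 _ _ _ _ t23_3_3_3) (innS_add E _ _ _ _ _ _ _ _ (chkS_sound E keys 2 5 _ _ _ _ t23_3_3_4) (chkS_sound E keys 2 5 _ _ _ _ t23_3_3_5)))))) (by decide +kernel)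

theorem row23_0 (E : Env κ ι) : RowS E 2 5 (ek E keys) c23_0 [c23_0, c23_1, c23_2, c23_3] [r23_0_0, r23_0_1, r23_0_2, r23_0_3] :=
  rowS_cons E _ _ _ _ _ _ _ _ (h23_0_0 E) (rowS_cons E _ _ _ _ _ _ _ _ (h23_0_1 E) (rowS_cons E _ _ _ _ _ _ _ _ (h23_0_2 E) (rowS_cons E _ _ _ _ _ _ _ _ (h23_0_3 E) (rowS_nil E _ _ _ _))))

theorem row23_1 (E : Env κ ι) : RowS E 2 5 (ek E keys) c23_1 [c23_1, c23_2, c23_3] [r23_1_1, r23_1_2, r23_1_3] :=
  rowS_cons E _ _ _ _ _ _ _ _ (h23_1_1 E) (rowS_cons E _ _ _ _ _ _ _ _ (h23_1_2 E) (rowS_cons E _ _ _ _ _ _ _ _ (h23_1_3 E) (rowS_nil E _ _ _ _)))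

theorem row23_2 (E : Env κ ι) : RowS E 2 5 (ek E keys) c23_2 [c23_2, c23_3] [r23_2_2, r23_2_3] :=
  rowS_cons E _ _ _ _ _ _ _ _ (h23_2_2 E) (rowS_cons E _ _ _ _ _ _ _ _ (h23_2_3 E) (rowS_nil E _ _ _ _))

theorem row23_3 (E : Env κ ι) : RowS E 2 5 (ek E keys) c23_3 [c23_3] [r23_3_3] :=
  rowS_cons E _ _ _ _ _ _ _ _ (h23_3_3 E) (rowS_nil E _ _ _ _)

def tab23 : List (List (List (ℕ × ℤ))) := [[r23_0_0, r23_0_1, r23_0_2, r23_0_3], [r23_1_1, r23_1_2, r23_1_3], [r23_2_2, r23_2_3], [r23_3_3]]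

theorem tri23 (E : Env κ ι) : TriS E 2 5 (ek E keys) [c23_0, c23_1, c23_2, c23_3] tab23 := by
  refine triS_cons E _ _ _ _ _ _ _ (row23_0 E) ?_
  refine triS_cons E _ _ _ _ _ _ _ (row23_1 E) ?_
  refine triS_cons E _ _ _ _ _ _ _ (row23_2 E) ?_
  refine triS_cons E _ _ _ _ _ _ _ (row23_3 E) ?_
  exact triS_nil E _ _ _

def rows23 : List (ℕ × List ℤ) := [(234287321400, [16777216, -4400294, 3260669, -4993829]),
  (71836696800, [0, 4194304, 77393, -5068905]),
  (10843200, [0, 0, 4194304, -3507471]),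
  (792376688500958822400, [0, 0, 0, 1]),
  (1895704941039294873600, [1, 0, 0, 0]),
  (315950823506549145600, [0, 1, 0, 0]),
  (210635366678396928000, [0, 0, 1, 0]),
  (210635366678396928000, [0, 0, 0, 1])]

def M23 : List (List ℤ) := [[65947914039608016371712000, -34592374420395504382771200, 25633351523551969227571200, -39258377408288914617139200],
  [5800489196458195066744800, -6676425378308707585581600, 7242034888286755690240800],
  [2491765644479368207267800, -7686587382171915986564400],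
  [7689628064588323501359000]]

def u23 : List ℤ := [0, 0, 0, 0, 0, 0, 0, 2969850468586595874173337600, 7415843725605637826806579200, 2925771999363988369832448000, 289592069108760629585510400, 0, -2022635139410466525726720000, -6836659587388116567635558400, 1277340839370637169695948800, 0, 0, 0, -17711295703242498243978854400, -11794147929768291151852339200, 16612282606551266264245862400, -16612282606551266264245862400, 0, 0, 0, -16612282606551266264245862400, 0, 0, 0, 4818134676782975112393523200, 0, 0, 4818134676782975112393523200, 8441332997069826095579136000, 8441332997069826095579136000, -16882665994139652191158272000, 0, 8441332997069826095579136000, 0, 0, 0, 0, 0, 0, 0, 0, 5939700937173191748346675200, 6596838298767806095695667200, 6836659587388116567635558400, 0, -5939700937173191748346675200, -6836659587388116567635558400, 0, 0, -1648431159993351200136499200, 0, 0, 3299975978781103695422668800, 0, 0, 0, -1648431159993351200136499200,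 -10425747158085316309633843200, -7415843725605637826806579200, 0, 0, 0, 0, 0, 289592069108760629585510400, 1277340839370637169695948800, 0, 0, 0, 3299975978781103695422668800, 1274227180576235874546278400, 0, 0, 0, 0, 0, 0, 0, 0, -5939700937173191748346675200, -5939700937173191748346675200, 0, 35422591406484996487957708800, 0, -7415843725605637826806579200, -579184138217521259171020800, 0, 5939700937173191748346675200, 0, 0, 6836659587388116567635558400, 0, 0, 0, 6976013252985316039458816000, 0, 0, -1277340839370637169695948800, 0, 0, 0, 0, 0, 0, 0, 0, 0, 0, -10425747158085316309633843200, -2022635139410466525726720000, 16612282606551266264245862400, 0, 7415843725605637826806579200, 2925771999363988369832448000, -11794147929768291151852339200, 0, 0, 0, 0, 0, 0, 0, 0, 0, 0, 0, 0, 0, 0, 0, 0, 0, 0, 0, 0, 0, 0, 0, 0, 0, 0, 0, 2969850468586595874173337600, -17711295703242498243978854400, 0, 0, 0, 0, 0, 0, 0, 0, 0, 0,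 6596838298767806095695667200, 0, 0, 0, 0, 0, 0, 0, 0, 0, 0, 0, 0, 0, 0, 0, 0, 0, 0, 0, 0, 0, 0, 0, 0, 0, 0, 0, 0, 0, 0, 0, 0, 0, 0, 0, 0, 0, 1274227180576235874546278400, 0, 0, 0, 0, -16882665994139652191158272000, 0, 6976013252985316039458816000, 0, -1277340839370637169695948800, 0, 0, 0, 0, 0, 0, 0, 0, 8441332997069826095579136000]

theorem gr23 : eqM (gramT rows23) M23 = true := by
  decide +kernel

theorem mv23 : eqZ (mval M23 tab23) u23 = true := by
  decide +kernel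

theorem nn23 (E : Env κ ι) : 0 ≤ dot (ek E keys) u23 0 :=
  block_nonneg E _ _ _ _ _ (tri23 E) rows23 M23 gr23 u23 mv23

end

end YMLIM
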