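import Pool.Agent.YM.LIM.T24_0
import Pool.Agent.YM.LIM.T24_1

set_option linter.unusedVariables false
set_option maxRecDepth 100000

open YMEng

namespace YMLIM

section

variable {κ ι : Type*} [Fintype κ] [Fintype ι] [Inhabited κ] [Inhabited ι]

def r24_0_0 : List (ℕ × ℤ) := [(33, 128), (34, 128), (35, 256), (37, -128), (202, -256), (215, -128)]

theorem h24_0_0 (E : Env κ ι) : inn E 2 5 c24_0 c24_0 = dotS (ek E keys) r24_0_0 :=
  innS_eqZ E _ _ _ _ _ _ _ (innS_add E _ _ _ _ _ _ _ _ (chkS_sound E keys 2 5 _ _ _ _ t24_0_0_0) (chkS_sound E keys 2 5 _ _ _ _ t24_0_0_1)) (by decide +kernel)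

def r24_0_1 : List (ℕ × ℤ) := [(18, 256), (24, 512), (53, -512), (148, -256)]

theorem h24_0_1 (E : Env κ ι) : inn E 2 5 c24_0 c24_1 = dotS (ek E keys) r24_0_1 :=
  innS_eqZ E _ _ _ _ _ _ _ (innS_add E _ _ _ _ _ _ _ _ (chkS_sound E keys 2 5 _ _ _ _ t24_0_1_0) (chkS_sound E keys 2 5 _ _ _ _ t24_0_1_1)) (by decide +kernel)

def r24_0_2 : List (ℕ × ℤ) := [(19, -128), (20, 256), (21, -256), (25, 256), (29, -384), (32, 384), (99, -512), (115, -256), (119, 128), (204, 512)]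

theorem h24_0_2 (E : Env κ ι) : inn E 2 5 c24_0 c24_2 = dotS (ek E keys) r24_0_2 :=
  innS_eqZ E _ _ _ _ _ _ _ (innS_add E _ _ _ _ _ _ _ _ (chkS_sound E keys 2 5 _ _ _ _ t24_0_2_0) (chkS_sound E keys 2 5 _ _ _ _ t24_0_2_1)) (by decide +kernel)

def r24_0_3 : List (ℕ × ℤ) := [(19, -384), (20, -256), (21, 256), (25, -256), (29, -128), (32, 128), (99, -512), (115, 256), (119, 384), (204, 512)]

theorem h24_0_3 (E : Env κ ι) : inn E 2 5 c24_0 c24_3 = dotS (ek E keys) r24_0_3 :=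
  innS_eqZ E _ _ _ _ _ _ _ (innS_add E _ _ _ _ _ _ _ _ (chkS_sound E keys 2 5 _ _ _ _ t24_0_3_0) (chkS_sound E keys 2 5 _ _ _ _ t24_0_3_1)) (by decide +kernel)

def r24_1_1 : List (ℕ × ℤ) := [(7, 256), (50, -1024), (85, 1024), (147, -256)]

theorem h24_1_1 (E : Env κ ι) : inn E 2 5 c24_1 c24_1 = dotS (ek E keys) r24_1_1 :=
  innS_eqZ E _ _ _ _ _ _ _ (innS_add E _ _ _ _ _ _ _ _ (chkS_sound E keys 2 5 _ _ _ _ t24_1_1_0) (innS_add E _ _ _ _ _ _ _ _ (chkS_sound E keys 2 5 _ _ _ _ t24_1_1_1) (innS_add E _ _ _ _ _ _ _ _ (chkS_sound E keys 2 5 _ _ _ _ t24_1_1_2) (chkS_sound E keys 2 5 _ _ _ _ t24_1_1_3)))) (by decide +kernel)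

def r24_1_2 : List (ℕ × ℤ) := [(8, -512), (10, 256), (13, -512), (51, 512), (63, 1024), (69, -256), (89, -1024), (117, 512)]

theorem h24_1_2 (E : Env κ ι) : inn E 2 5 c24_1 c24_2 = dotS (ek E keys) r24_1_2 :=
  innS_eqZ E _ _ _ _ _ _ _ (innS_add E _ _ _ _ _ _ _ _ (chkS_sound E keys 2 5 _ _ _ _ t24_1_2_0) (innS_add E _ _ _ _ _ _ _ _ (chkS_sound E keys 2 5 _ _ _ _ t24_1_2_1) (innS_add E _ _ _ _ _ _ _ _ (chkS_sound E keys 2 5 _ _ _ _ t24_1_2_2) (chkS_sound E keys 2 5 _ _ _ _ t24_1_2_3)))) (by decide +kernel)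

def r24_1_3 : List (ℕ × ℤ) := [(8, -512), (10, -256), (13, -512), (48, 1024), (51, 512), (69, 256), (95, -1024), (117, 512)]

theorem h24_1_3 (E : Env κ ι) : inn E 2 5 c24_1 c24_3 = dotS (ek E keys) r24_1_3 :=
  innS_eqZ E _ _ _ _ _ _ _ (innS_add E _ _ _ _ _ _ _ _ (chkS_sound E keys 2 5 _ _ _ _ t24_1_3_0) (innS_add E _ _ _ _ _ _ _ _ (chkS_sound E keys 2 5 _ _ _ _ t24_1_3_1) (innS_add E _ _ _ _ _ _ _ _ (chkS_sound E keys 2 5 _ _ _ _ t24_1_3_2) (chkS_sound E keys 2 5 _ _ _ _ t24_1_3_3)))) (by decide +kernel)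

def r24_2_2 : List (ℕ × ℤ) := [(9, 384), (12, -768), (14, -512), (47, 512), (54, -128), (57, -256), (61, 128), (62, 1024), (70, 512), (74, 256), (75, -512), (102, 512), (113, -1024), (114, 768), (118, -384), (159, -512), (197, 512), (206, -512)]

theorem h24_2_2 (E : Env κ ι) : inn E 2 5 c24_2 c24_2 = dotS (ek E keys) r24_2_2 :=
  innS_eqZ E _ _ _ _ _ _ _ (innS_add E _ _ _ _ _ _ _ _ (chkS_sound E keys 2 5 _ _ _ _ t24_2_2_0) (innS_add E _ _ _ _ _ _ _ _ (chkS_sound E keys 2 5 _ _ _ _ t24_2_2_1) (innS_add E _ _ _ _ _ _ _ _ (chkS_sound E keys 2 5 _ _ _ _ t24_2_2_2) (innS_add E _ _ _ _ _ _ _ _ (chkS_sound E keys 2 5 _ _ _ _ t24_2_2_3) (innS_add E _ _ _ _ _ _ _ _ (chkS_sound E keys 2 5 _ _ _ _ t24_2_2_4) (chkS_sound E keys 2 5 _ _ _ _ t24_2_2_5)))))) (by decide +kernel)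

def r24_2_3 : List (ℕ × ℤ) := [(9, 128), (12, -256), (14, -512), (47, 512), (54, -384), (57, 256), (61, 384), (70, 512), (74, -256), (75, 512), (102, 512), (114, 256), (118, -128), (159, -512), (197, -512), (206, -512)]

theorem h24_2_3 (E : Env κ ι) : inn E 2 5 c24_2 c24_3 = dotS (ek E keys) r24_2_3 :=
  innS_eqZ E _ _ _ _ _ _ _ (innS_add E _ _ _ _ _ _ _ _ (chkS_sound E keys 2 5 _ _ _ _ t24_2_3_0) (innS_add E _ _ _ _ _ _ _ _ (chkS_sound E keys 2 5 _ _ _ _ t24_2_3_1) (innS_add E _ _ _ _ _ _ _ _ (chkS_sound E keys 2 5 _ _ _ _ t24_2_3_2) (innS_add E _ _ _ _ _ _ _ _ (chkS_sound E keys 2 5 _ _ _ _ t24_2_3_3) (innS_add E _ _ _ _ _ _ _ _ (chkS_sound E keys 2 5 _ _ _ _ t24_2_3_4) (chkS_sound E keys 2 5 _ _ _ _ t24_2_3_5)))))) (by decide +kernel)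

def r24_3_3 : List (ℕ × ℤ) := [(9, 384), (12, 256), (14, -512), (47, -512), (54, -128), (57, 768), (61, 128), (62, 1024), (70, 512), (74, -768), (75, 512), (102, 512), (113, -1024), (114, -256), (118, -384), (159, 512), (197, -512), (206, -512)]

theorem h24_3_3 (E : Env κ ι) : inn E 2 5 c24_3 c24_3 = dotS (ek E keys) r24_3_3 :=
  innS_eqZ E _ _ _ _ _ _ _ (innS_add E _ _ _ _ _ _ _ _ (chkS_sound E keys 2 5 _ _ _ _ t24_3_3_0) (innS_add E _ _ _ _ _ _ _ _ (chkS_sound E keys 2 5 _ _ _ _ t24_3_3_1) (innS_add E _ _ _ _ _ _ _ _ (chkS_sound E keys 2 5 _ _ _ _ t24_3_3_2) (innS_add E _ _ _ _ _ _ _ _ (chkS_sound E keys 2 5 _ _ _ _ t24_3_3_3) (innS_add E _ _ _ _ _ _ _ _ (chkS_sound E keys 2 5 _ _ _ _ t24_3_3_4) (chkS_sound E keys 2 5 _ _ _ _ t24_3_3_5)))))) (by decide +kernel)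

theorem row24_0 (E : Env κ ι) : RowS E 2 5 (ek E keys) c24_0 [c24_0, c24_1, c24_2, c24_3] [r24_0_0, r24_0_1, r24_0_2, r24_0_3] :=
  rowS_cons E _ _ _ _ _ _ _ _ (h24_0_0 E) (rowS_cons E _ _ _ _ _ _ _ _ (h24_0_1 E) (rowS_cons E _ _ _ _ _ _ _ _ (h24_0_2 E) (rowS_cons E _ _ _ _ _ _ _ _ (h24_0_3 E) (rowS_nil E _ _ _ _))))

theorem row24_1 (E : Env κ ι) : RowS E 2 5 (ek E keys) c24_1 [c24_1, c24_2, c24_3] [r24_1_1, r24_1_2, r24_1_3] :=
  rowS_cons E _ _ _ _ _ _ _ _ (h24_1_1 E) (rowS_cons E _ _ _ _ _ _ _ _ (h24_1_2 E) (rowS_cons E _ _ _ _ _ _ _ _ (h24_1_3 E) (rowS_nil E _ _ _ _)))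

theorem row24_2 (E : Env κ ι) : RowS E 2 5 (ek E keys) c24_2 [c24_2, c24_3] [r24_2_2, r24_2_3] :=
  rowS_cons E _ _ _ _ _ _ _ _ (h24_2_2 E) (rowS_cons E _ _ _ _ _ _ _ _ (h24_2_3 E) (rowS_nil E _ _ _ _))

theorem row24_3 (E : Env κ ι) : RowS E 2 5 (ek E keys) c24_3 [c24_3] [r24_3_3] :=
  rowS_cons E _ _ _ _ _ _ _ _ (h24_3_3 E) (rowS_nil E _ _ _ _)

def tab24 : List (List (List (ℕ × ℤ))) := [[r24_0_0, r24_0_1, r24_0_2, r24_0_3], [r24_1_1, r24_1_2, r24_1_3], [r24_2_2, r24_2_3], [r24_3_3]]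

theorem tri24 (E : Env κ ι) : TriS E 2 5 (ek E keys) [c24_0, c24_1, c24_2, c24_3] tab24 := by
  refine triS_cons E _ _ _ _ _ _ _ (row24_0 E) ?_
  refine triS_cons E _ _ _ _ _ _ _ (row24_1 E) ?_
  refine triS_cons E _ _ _ _ _ _ _ (row24_2 E) ?_
  refine triS_cons E _ _ _ _ _ _ _ (row24_3 E) ?_
  exact triS_nil E _ _ _

def rows24 : List (ℕ × List ℤ) := [(75833064000, [16777216, -23914220, 4629980, 2756807]),
  (296592435000, [0, 8388608, 5672347, 3179758]),
  (131587200, [0, 0, 4194304, 2235443]),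
  (183440760759543398400, [0, 0, 0, 1]),
  (1895704941039294873600, [1, 0, 0, 0]),
  (758284351360833945600, [0, 1, 0, 0]),
  (210635366678396928000, [0, 0, 1, 0]),
  (210635366678396928000, [0, 0, 0, 1])]

def M24 : List (List ℤ) := [[21347005628238725224857600, -60850579098453996994560000, 11781147961934783447040000, 7014792973079266983936000],
  [64239760236349161743385600, 11432740600587703576320000, 5823585009076156378560000],
  [11171153276328237185518200, 12637420200052562504296800],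
  [3576186646520220145015200]]

def u24 : List ℤ := [0, 0, 0, 0, 0, 0, 0, 16445378620505385406306713600, -8835238712147896296898560000, 7280568315980535615474816000, 1435943831426956082626560000, 0, -10899121505924365802454067200, -8835238712147896296898560000, -14020997182925322155433062400, 0, 0, 0, -15577748249204223230607360000, -4201667440790090803052544000, 1220186877147012214554624000, -1220186877147012214554624000, 0, 0, -31155496498408446461214720000, 1220186877147012214554624000, 0, 0, 0, -5421854317937103017607168000, 0, 0, 5421854317937103017607168000, 2732416720414556828781772800, 2732416720414556828781772800, 5464833440829113657563545600, 0, -2732416720414556828781772800, 0, 0, 0, 0, 0, 0, 0, 0, 0, 10358982056888616726937497600, 5963351049293984131645440000, 0, -65781514482021541625226854400, 8835238712147896296898560000, 0, 31155496498408446461214720000, -6740428866944786539958246400, 0, 0, 3121875677000956352978995200,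 0, 0, 0, 6740428866944786539958246400, 15101276080996820306466201600, 11707126375001808462151680000, 0, 0, 0, 0, 0, -1435943831426956082626560000, 14020997182925322155433062400, 0, 0, 0, -3121875677000956352978995200, 2581736227965207277462425600, 0, 0, 0, 0, 0, 0, 0, 0, 0, 65781514482021541625226854400, 0, 0, 0, -11707126375001808462151680000, 0, 0, 0, 0, 0, -5963351049293984131645440000, 0, 0, 0, -9623521758727193820659712000, 0, 0, 14020997182925322155433062400, 0, 0, 0, 0, 0, 0, 0, 0, 0, 0, -15101276080996820306466201600, 10899121505924365802454067200, -1220186877147012214554624000, 0, 8835238712147896296898560000, -7280568315980535615474816000, 4201667440790090803052544000, 0, 0, 0, 0, 0, 0, 0, 0, 0, 0, 0, 0, 0, 0, 0, 0, 0, 0, 0, 0, 0, 0, 0, 0, 0, 0, 0, -16445378620505385406306713600, 15577748249204223230607360000, 0, 0, 0, 0, 0, 0, 0, 0, 0, 0, -10358982056888616726937497600, 0, 0, 0, 0, 0, 0, 0, 0, 0, 0, 0, 0,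 0, 0, 0, 0, 0, 0, 0, 0, 0, 0, 0, 0, 0, 0, 0, 0, 0, 0, 0, 0, 0, 0, 0, 0, 0, -2581736227965207277462425600, 0, 0, 0, 0, -5464833440829113657563545600, 0, 9623521758727193820659712000, 0, -14020997182925322155433062400, 0, 0, 0, 0, 0, 0, 0, 0, -2732416720414556828781772800]

theorem gr24 : eqM (gramT rows24) M24 = true := by
  decide +kernel

theorem mv24 : eqZ (mval M24 tab24) u24 = true := by
  decide +kernel

theorem nn24 (E : Env κ ι) : 0 ≤ dot (ek E keys) u24 0 :=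
  block_nonneg E _ _ _ _ _ (tri24 E) rows24 M24 gr24 u24 mv24

end

end YMLIM
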