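import Pool.Agent.YM.LIM.G0
import Pool.Agent.YM.LIM.G1
import Pool.Agent.YM.LIM.G2
import Pool.Agent.YM.LIM.G3
import Pool.Agent.YM.LIM.G4
import Pool.Agent.YM.LIM.G5
import Pool.Agent.YM.LIM.G6
import Pool.Agent.YM.LIM.H20
import Pool.Agent.YM.LIM.H22
import Pool.Agent.YM.LIM.H23
import Pool.Agent.YM.LIM.H24

set_option linter.unusedVariables false
set_option maxRecDepth 100000

open YMEng

namespace YMLIM

variable {κ ι : Type*} [Fintype κ] [Fintype ι] [Inhabited κ] [Inhabited ι]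

theorem fin_chk : eqZ (vsc ((65281994259189975434133504 : ℕ) : ℤ) target) (vsum [u0, u1, u2, u3, u4, u5, u6, u7, u8, u9, u10, u11, u12, u13, u14, u15, u16, u17, u18, u19, u20, u21, u22, u23, u24, u25, u26, u27, u28, u29]) = true := by
  decide +kernel

theorem final (E : Env κ ι) : 0 ≤ dot (ek E keys) target 0 := by
  refine final_step _ 65281994259189975434133504 (by norm_num) target _ (vsum_nonneg _ _ ?_) fin_chk
  simp only [List.forall_mem_cons]
  exact ⟨nn0 E, nn1 E, nn2 E, nn3 E, nn4 E, nn5 E, nn6 E, nn7 E, nn8 E, nn9 E, nn10 E, nn11 E, nn12 E, nn13 E, nn14 E, nn15 E, nn16 E, nn17 E, nn18 E, nn19 E, nn20 E, nn21 E, nn22 E, nn23 E, nn24 E, nn25 E, nn26 E, nn27 E, nn28 E, nn29 E, fun _ h => by simp at h⟩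

end YMLIM
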