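import Pool.Agent.YM.LIM.Keys

set_option linter.unusedVariables false
set_option maxRecDepth 100000

open YMEng

namespace YMLIM

def p20_0_0 : Cov := [(12, 0, 0, [(2, [0], [0, 1, 2]), (1, [], [3, 4])]),
  (-12, 0, 0, [(2, [0], [0, 2, 4]), (1, [], [1, 3])]),
  (-12, 0, 0, [(2, [0], [1, 2, 3]), (1, [], [0, 4])]),
  (12, 0, 0, [(2, [0], [2, 3, 4]), (1, [], [0, 1])])]

def c20_0 : Cov := p20_0_0

def p20_1_0 : Cov := [(4, 1, 1, [(0, [1], [0, 1]), (0, [1], [2, 3]), (0, [0], [4, 5]), (3, [], [5])]),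
  (4, 1, 1, [(0, [1], [0, 1]), (0, [1], [2, 4]), (0, [0], [3, 5]), (3, [], [5])]),
  (8, 1, 1, [(0, [1], [0, 1]), (0, [1], [3, 4]), (0, [0], [2, 5]), (3, [], [5])]),
  (-4, 1, 1, [(0, [1], [0, 2]), (0, [1], [1, 3]), (0, [0], [4, 5]), (3, [], [5])]),
  (4, 1, 1, [(0, [1], [0, 2]), (0, [1], [3, 4]), (0, [0], [1, 5]), (3, [], [5])]),
  (-4, 1, 1, [(0, [1], [0, 4]), (0, [1], [1, 2]), (0, [0], [3, 5]), (3, [], [5])]),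
  (-8, 1, 1, [(0, [1], [0, 4]), (0, [1], [1, 3]), (0, [0], [2, 5]), (3, [], [5])]),
  (-4, 1, 1, [(0, [1], [0, 4]), (0, [1], [2, 3]), (0, [0], [1, 5]), (3, [], [5])])]

def p20_1_1 : Cov := [(4, 1, 1, [(0, [1], [1, 2]), (0, [1], [3, 4]), (0, [0], [0, 5]), (3, [], [5])]),
  (-4, 1, 1, [(0, [1], [1, 3]), (0, [1], [2, 4]), (0, [0], [0, 5]), (3, [], [5])])]

def c20_1 : Cov := p20_1_0 ++ (p20_1_1)

def p20_2_0 : Cov := [(4, 0, 1, [(0, [0], [0, 5]), (1, [], [1, 2]), (1, [], [3, 4]), (3, [], [5])]),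
  (-4, 0, 1, [(0, [0], [0, 5]), (1, [], [1, 3]), (1, [], [2, 4]), (3, [], [5])]),
  (4, 0, 1, [(0, [0], [1, 5]), (1, [], [0, 2]), (1, [], [3, 4]), (3, [], [5])]),
  (-4, 0, 1, [(0, [0], [1, 5]), (1, [], [0, 4]), (1, [], [2, 3]), (3, [], [5])]),
  (8, 0, 1, [(0, [0], [2, 5]), (1, [], [0, 1]), (1, [], [3, 4]), (3, [], [5])]),
  (-8, 0, 1, [(0, [0], [2, 5]), (1, [], [0, 4]), (1, [], [1, 3]), (3, [], [5])]),
  (4, 0, 1, [(0, [0], [3, 5]), (1, [], [0, 1]), (1, [], [2, 4]), (3, [], [5])]),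
  (-4, 0, 1, [(0, [0], [3, 5]), (1, [], [0, 4]), (1, [], [1, 2]), (3, [], [5])])]

def p20_2_1 : Cov := [(4, 0, 1, [(0, [0], [4, 5]), (1, [], [0, 1]), (1, [], [2, 3]), (3, [], [5])]),
  (-4, 0, 1, [(0, [0], [4, 5]), (1, [], [0, 2]), (1, [], [1, 3]), (3, [], [5])])]

def c20_2 : Cov := p20_2_0 ++ (p20_2_1)

def p20_3_0 : Cov := [(4, 1, 1, [(0, [1], [0, 5]), (0, [1], [1, 2]), (0, [0], [3, 4]), (3, [], [5])]),
  (-4, 1, 1, [(0, [1], [0, 5]), (0, [1], [2, 4]), (0, [0], [1, 3]), (3, [], [5])]),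
  (4, 1, 1, [(0, [1], [0, 1]), (0, [1], [2, 5]), (0, [0], [3, 4]), (3, [], [5])]),
  (4, 1, 1, [(0, [1], [0, 2]), (0, [1], [1, 5]), (0, [0], [3, 4]), (3, [], [5])]),
  (-4, 1, 1, [(0, [1], [0, 2]), (0, [1], [4, 5]), (0, [0], [1, 3]), (3, [], [5])]),
  (-4, 1, 1, [(0, [1], [0, 4]), (0, [1], [2, 5]), (0, [0], [1, 3]), (3, [], [5])]),
  (-4, 1, 1, [(0, [1], [1, 5]), (0, [1], [2, 3]), (0, [0], [0, 4]), (3, [], [5])]),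
  (-4, 1, 1, [(0, [1], [1, 2]), (0, [1], [3, 5]), (0, [0], [0, 4]), (3, [], [5])])]

def p20_3_1 : Cov := [(-4, 1, 1, [(0, [1], [1, 3]), (0, [1], [2, 5]), (0, [0], [0, 4]), (3, [], [5])]),
  (4, 1, 1, [(0, [1], [2, 5]), (0, [1], [3, 4]), (0, [0], [0, 1]), (3, [], [5])]),
  (4, 1, 1, [(0, [1], [2, 3]), (0, [1], [4, 5]), (0, [0], [0, 1]), (3, [], [5])]),
  (4, 1, 1, [(0, [1], [2, 4]), (0, [1], [3, 5]), (0, [0], [0, 1]), (3, [], [5])])]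

def c20_3 : Cov := p20_3_0 ++ (p20_3_1)

def p20_4_0 : Cov := [(-4, 1, 1, [(0, [1], [0, 5]), (0, [1], [1, 3]), (0, [0], [2, 4]), (3, [], [5])]),
  (4, 1, 1, [(0, [1], [0, 5]), (0, [1], [3, 4]), (0, [0], [1, 2]), (3, [], [5])]),
  (4, 1, 1, [(0, [1], [0, 1]), (0, [1], [2, 5]), (0, [0], [3, 4]), (3, [], [5])]),
  (4, 1, 1, [(0, [1], [0, 1]), (0, [1], [3, 5]), (0, [0], [2, 4]), (3, [], [5])]),
  (4, 1, 1, [(0, [1], [0, 1]), (0, [1], [4, 5]), (0, [0], [2, 3]), (3, [], [5])]),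
  (-4, 1, 1, [(0, [1], [0, 4]), (0, [1], [1, 5]), (0, [0], [2, 3]), (3, [], [5])]),
  (-4, 1, 1, [(0, [1], [0, 4]), (0, [1], [2, 5]), (0, [0], [1, 3]), (3, [], [5])]),
  (-4, 1, 1, [(0, [1], [0, 4]), (0, [1], [3, 5]), (0, [0], [1, 2]), (3, [], [5])])]

def p20_4_1 : Cov := [(4, 1, 1, [(0, [1], [1, 5]), (0, [1], [3, 4]), (0, [0], [0, 2]), (3, [], [5])]),
  (-4, 1, 1, [(0, [1], [1, 3]), (0, [1], [2, 5]), (0, [0], [0, 4]), (3, [], [5])]),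
  (-4, 1, 1, [(0, [1], [1, 3]), (0, [1], [4, 5]), (0, [0], [0, 2]), (3, [], [5])]),
  (4, 1, 1, [(0, [1], [2, 5]), (0, [1], [3, 4]), (0, [0], [0, 1]), (3, [], [5])])]

def c20_4 : Cov := p20_4_0 ++ (p20_4_1)

def p20_5_0 : Cov := [(4, 0, 1, [(0, [0], [0, 1]), (1, [], [2, 5]), (1, [], [3, 4]), (3, [], [5])]),
  (4, 0, 1, [(0, [0], [0, 2]), (1, [], [1, 5]), (1, [], [3, 4]), (3, [], [5])]),
  (-4, 0, 1, [(0, [0], [0, 2]), (1, [], [1, 3]), (1, [], [4, 5]), (3, [], [5])]),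
  (-4, 0, 1, [(0, [0], [0, 4]), (1, [], [1, 3]), (1, [], [2, 5]), (3, [], [5])]),
  (4, 0, 1, [(0, [0], [1, 2]), (1, [], [0, 5]), (1, [], [3, 4]), (3, [], [5])]),
  (-4, 0, 1, [(0, [0], [1, 2]), (1, [], [0, 4]), (1, [], [3, 5]), (3, [], [5])]),
  (-4, 0, 1, [(0, [0], [1, 3]), (1, [], [0, 4]), (1, [], [2, 5]), (3, [], [5])]),
  (4, 0, 1, [(0, [0], [2, 3]), (1, [], [0, 1]), (1, [], [4, 5]), (3, [], [5])])]

def p20_5_1 : Cov := [(-4, 0, 1, [(0, [0], [2, 3]), (1, [], [0, 4]), (1, [], [1, 5]), (3, [], [5])]),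
  (-4, 0, 1, [(0, [0], [2, 4]), (1, [], [0, 5]), (1, [], [1, 3]), (3, [], [5])]),
  (4, 0, 1, [(0, [0], [2, 4]), (1, [], [0, 1]), (1, [], [3, 5]), (3, [], [5])]),
  (4, 0, 1, [(0, [0], [3, 4]), (1, [], [0, 1]), (1, [], [2, 5]), (3, [], [5])])]

def c20_5 : Cov := p20_5_0 ++ (p20_5_1)

def p20_6_0 : Cov := [(4, 0, 1, [(0, [0], [0, 1]), (1, [], [2, 5]), (1, [], [3, 4]), (3, [], [5])]),
  (4, 0, 1, [(0, [0], [0, 1]), (1, [], [2, 3]), (1, [], [4, 5]), (3, [], [5])]),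
  (4, 0, 1, [(0, [0], [0, 1]), (1, [], [2, 4]), (1, [], [3, 5]), (3, [], [5])]),
  (-4, 0, 1, [(0, [0], [0, 4]), (1, [], [1, 5]), (1, [], [2, 3]), (3, [], [5])]),
  (-4, 0, 1, [(0, [0], [0, 4]), (1, [], [1, 2]), (1, [], [3, 5]), (3, [], [5])]),
  (-4, 0, 1, [(0, [0], [0, 4]), (1, [], [1, 3]), (1, [], [2, 5]), (3, [], [5])]),
  (-4, 0, 1, [(0, [0], [1, 3]), (1, [], [0, 5]), (1, [], [2, 4]), (3, [], [5])]),
  (-4, 0, 1, [(0, [0], [1, 3]), (1, [], [0, 2]), (1, [], [4, 5]), (3, [], [5])])]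

def p20_6_1 : Cov := [(-4, 0, 1, [(0, [0], [1, 3]), (1, [], [0, 4]), (1, [], [2, 5]), (3, [], [5])]),
  (4, 0, 1, [(0, [0], [3, 4]), (1, [], [0, 5]), (1, [], [1, 2]), (3, [], [5])]),
  (4, 0, 1, [(0, [0], [3, 4]), (1, [], [0, 1]), (1, [], [2, 5]), (3, [], [5])]),
  (4, 0, 1, [(0, [0], [3, 4]), (1, [], [0, 2]), (1, [], [1, 5]), (3, [], [5])])]

def c20_6 : Cov := p20_6_0 ++ (p20_6_1)

end YMLIM
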