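import Pool.Agent.YM.LIM.Keys

set_option linter.unusedVariables false
set_option maxRecDepth 100000

open YMEng

namespace YMLIM

def p22_0_0 : Cov := [(4, 0, 0, [(0, [0], [0, 1]), (2, [1], [2, 3, 4])]),
  (4, 0, 0, [(0, [0], [0, 2]), (2, [1], [1, 3, 4])])]

def p22_0_1 : Cov := [(4, 0, 0, [(0, [0], [0, 3]), (2, [1], [1, 2, 4])]),
  (-4, 0, 0, [(0, [0], [1, 4]), (2, [1], [0, 2, 3])])]

def p22_0_2 : Cov := [(-4, 0, 0, [(0, [0], [2, 4]), (2, [1], [0, 1, 3])]),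
  (-4, 0, 0, [(0, [0], [3, 4]), (2, [1], [0, 1, 2])])]

def p22_0_3 : Cov := [(-4, 0, 0, [(0, [1], [0, 1]), (2, [0], [2, 3, 4])]),
  (-4, 0, 0, [(0, [1], [0, 2]), (2, [0], [1, 3, 4])])]

def p22_0_4 : Cov := [(-4, 0, 0, [(0, [1], [0, 3]), (2, [0], [1, 2, 4])]),
  (4, 0, 0, [(0, [1], [1, 4]), (2, [0], [0, 2, 3])])]

def p22_0_5 : Cov := [(4, 0, 0, [(0, [1], [2, 4]), (2, [0], [0, 1, 3])]),
  (4, 0, 0, [(0, [1], [3, 4]), (2, [0], [0, 1, 2])])]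

def c22_0 : Cov := p22_0_0 ++ (p22_0_1 ++ (p22_0_2 ++ (p22_0_3 ++ (p22_0_4 ++ (p22_0_5)))))

def p22_1_0 : Cov := [(2, 0, 1, [(0, [0], [0, 1]), (0, [1], [2, 3]), (1, [], [4, 5]), (3, [], [5])]),
  (4, 0, 1, [(0, [0], [0, 1]), (0, [1], [2, 4]), (1, [], [3, 5]), (3, [], [5])])]

def p22_1_1 : Cov := [(4, 0, 1, [(0, [0], [0, 1]), (0, [1], [3, 4]), (1, [], [2, 5]), (3, [], [5])]),
  (2, 0, 1, [(0, [0], [0, 2]), (0, [1], [1, 3]), (1, [], [4, 5]), (3, [], [5])])]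

def p22_1_2 : Cov := [(4, 0, 1, [(0, [0], [0, 2]), (0, [1], [1, 4]), (1, [], [3, 5]), (3, [], [5])]),
  (4, 0, 1, [(0, [0], [0, 2]), (0, [1], [3, 4]), (1, [], [1, 5]), (3, [], [5])])]

def p22_1_3 : Cov := [(2, 0, 1, [(0, [0], [0, 3]), (0, [1], [1, 2]), (1, [], [4, 5]), (3, [], [5])]),
  (4, 0, 1, [(0, [0], [0, 3]), (0, [1], [1, 4]), (1, [], [2, 5]), (3, [], [5])])]

def p22_1_4 : Cov := [(4, 0, 1, [(0, [0], [0, 3]), (0, [1], [2, 4]), (1, [], [1, 5]), (3, [], [5])]),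
  (-2, 0, 1, [(0, [0], [1, 2]), (0, [1], [0, 3]), (1, [], [4, 5]), (3, [], [5])])]

def p22_1_5 : Cov := [(2, 0, 1, [(0, [0], [1, 2]), (0, [1], [3, 4]), (1, [], [0, 5]), (3, [], [5])]),
  (-2, 0, 1, [(0, [0], [1, 3]), (0, [1], [0, 2]), (1, [], [4, 5]), (3, [], [5])])]

def p22_1_6 : Cov := [(2, 0, 1, [(0, [0], [1, 3]), (0, [1], [2, 4]), (1, [], [0, 5]), (3, [], [5])]),
  (-4, 0, 1, [(0, [0], [1, 4]), (0, [1], [0, 2]), (1, [], [3, 5]), (3, [], [5])])]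

def p22_1_7 : Cov := [(-4, 0, 1, [(0, [0], [1, 4]), (0, [1], [0, 3]), (1, [], [2, 5]), (3, [], [5])]),
  (-2, 0, 1, [(0, [0], [1, 4]), (0, [1], [2, 3]), (1, [], [0, 5]), (3, [], [5])])]

def p22_1_8 : Cov := [(-2, 0, 1, [(0, [0], [2, 3]), (0, [1], [0, 1]), (1, [], [4, 5]), (3, [], [5])]),
  (2, 0, 1, [(0, [0], [2, 3]), (0, [1], [1, 4]), (1, [], [0, 5]), (3, [], [5])])]

def p22_1_9 : Cov := [(-4, 0, 1, [(0, [0], [2, 4]), (0, [1], [0, 1]), (1, [], [3, 5]), (3, [], [5])]),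
  (-4, 0, 1, [(0, [0], [2, 4]), (0, [1], [0, 3]), (1, [], [1, 5]), (3, [], [5])])]

def p22_1_10 : Cov := [(-2, 0, 1, [(0, [0], [2, 4]), (0, [1], [1, 3]), (1, [], [0, 5]), (3, [], [5])]),
  (-4, 0, 1, [(0, [0], [3, 4]), (0, [1], [0, 1]), (1, [], [2, 5]), (3, [], [5])])]

def p22_1_11 : Cov := [(-4, 0, 1, [(0, [0], [3, 4]), (0, [1], [0, 2]), (1, [], [1, 5]), (3, [], [5])]),
  (-2, 0, 1, [(0, [0], [3, 4]), (0, [1], [1, 2]), (1, [], [0, 5]), (3, [], [5])])]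

def c22_1 : Cov := p22_1_0 ++ (p22_1_1 ++ (p22_1_2 ++ (p22_1_3 ++ (p22_1_4 ++ (p22_1_5 ++ (p22_1_6 ++ (p22_1_7 ++ (p22_1_8 ++ (p22_1_9 ++ (p22_1_10 ++ (p22_1_11)))))))))))

def p22_2_0 : Cov := [(4, 0, 1, [(0, [0], [0, 5]), (0, [1], [1, 2]), (1, [], [3, 4]), (3, [], [5])]),
  (4, 0, 1, [(0, [0], [0, 5]), (0, [1], [1, 3]), (1, [], [2, 4]), (3, [], [5])])]

def p22_2_1 : Cov := [(4, 0, 1, [(0, [0], [0, 5]), (0, [1], [1, 4]), (1, [], [2, 3]), (3, [], [5])]),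
  (4, 0, 1, [(0, [0], [0, 5]), (0, [1], [2, 3]), (1, [], [1, 4]), (3, [], [5])])]

def p22_2_2 : Cov := [(4, 0, 1, [(0, [0], [0, 5]), (0, [1], [2, 4]), (1, [], [1, 3]), (3, [], [5])]),
  (4, 0, 1, [(0, [0], [0, 5]), (0, [1], [3, 4]), (1, [], [1, 2]), (3, [], [5])])]

def p22_2_3 : Cov := [(4, 0, 1, [(0, [0], [0, 1]), (0, [1], [4, 5]), (1, [], [2, 3]), (3, [], [5])]),
  (4, 0, 1, [(0, [0], [0, 2]), (0, [1], [4, 5]), (1, [], [1, 3]), (3, [], [5])])]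

def p22_2_4 : Cov := [(4, 0, 1, [(0, [0], [0, 3]), (0, [1], [4, 5]), (1, [], [1, 2]), (3, [], [5])]),
  (-4, 0, 1, [(0, [0], [1, 2]), (0, [1], [0, 5]), (1, [], [3, 4]), (3, [], [5])])]

def p22_2_5 : Cov := [(4, 0, 1, [(0, [0], [1, 2]), (0, [1], [4, 5]), (1, [], [0, 3]), (3, [], [5])]),
  (-4, 0, 1, [(0, [0], [1, 3]), (0, [1], [0, 5]), (1, [], [2, 4]), (3, [], [5])])]

def p22_2_6 : Cov := [(4, 0, 1, [(0, [0], [1, 3]), (0, [1], [4, 5]), (1, [], [0, 2]), (3, [], [5])]),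
  (-4, 0, 1, [(0, [0], [1, 4]), (0, [1], [0, 5]), (1, [], [2, 3]), (3, [], [5])])]

def p22_2_7 : Cov := [(-4, 0, 1, [(0, [0], [2, 3]), (0, [1], [0, 5]), (1, [], [1, 4]), (3, [], [5])]),
  (4, 0, 1, [(0, [0], [2, 3]), (0, [1], [4, 5]), (1, [], [0, 1]), (3, [], [5])])]

def p22_2_8 : Cov := [(-4, 0, 1, [(0, [0], [2, 4]), (0, [1], [0, 5]), (1, [], [1, 3]), (3, [], [5])]),
  (-4, 0, 1, [(0, [0], [3, 4]), (0, [1], [0, 5]), (1, [], [1, 2]), (3, [], [5])])]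

def p22_2_9 : Cov := [(-4, 0, 1, [(0, [0], [4, 5]), (0, [1], [0, 1]), (1, [], [2, 3]), (3, [], [5])]),
  (-4, 0, 1, [(0, [0], [4, 5]), (0, [1], [0, 2]), (1, [], [1, 3]), (3, [], [5])])]

def p22_2_10 : Cov := [(-4, 0, 1, [(0, [0], [4, 5]), (0, [1], [0, 3]), (1, [], [1, 2]), (3, [], [5])]),
  (-4, 0, 1, [(0, [0], [4, 5]), (0, [1], [1, 2]), (1, [], [0, 3]), (3, [], [5])])]

def p22_2_11 : Cov := [(-4, 0, 1, [(0, [0], [4, 5]), (0, [1], [1, 3]), (1, [], [0, 2]), (3, [], [5])]),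
  (-4, 0, 1, [(0, [0], [4, 5]), (0, [1], [2, 3]), (1, [], [0, 1]), (3, [], [5])])]

def c22_2 : Cov := p22_2_0 ++ (p22_2_1 ++ (p22_2_2 ++ (p22_2_3 ++ (p22_2_4 ++ (p22_2_5 ++ (p22_2_6 ++ (p22_2_7 ++ (p22_2_8 ++ (p22_2_9 ++ (p22_2_10 ++ (p22_2_11)))))))))))

def p22_3_0 : Cov := [(2, 0, 1, [(0, [0], [0, 5]), (0, [1], [1, 2]), (1, [], [3, 4]), (3, [], [5])]),
  (2, 0, 1, [(0, [0], [0, 5]), (0, [1], [1, 3]), (1, [], [2, 4]), (3, [], [5])])]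

def p22_3_1 : Cov := [(2, 0, 1, [(0, [0], [0, 5]), (0, [1], [2, 3]), (1, [], [1, 4]), (3, [], [5])]),
  (-2, 0, 1, [(0, [0], [0, 1]), (0, [1], [2, 5]), (1, [], [3, 4]), (3, [], [5])])]

def p22_3_2 : Cov := [(-2, 0, 1, [(0, [0], [0, 1]), (0, [1], [3, 5]), (1, [], [2, 4]), (3, [], [5])]),
  (-2, 0, 1, [(0, [0], [0, 2]), (0, [1], [1, 5]), (1, [], [3, 4]), (3, [], [5])])]

def p22_3_3 : Cov := [(-2, 0, 1, [(0, [0], [0, 2]), (0, [1], [3, 5]), (1, [], [1, 4]), (3, [], [5])]),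
  (-2, 0, 1, [(0, [0], [0, 3]), (0, [1], [1, 5]), (1, [], [2, 4]), (3, [], [5])])]

def p22_3_4 : Cov := [(-2, 0, 1, [(0, [0], [0, 3]), (0, [1], [2, 5]), (1, [], [1, 4]), (3, [], [5])]),
  (2, 0, 1, [(0, [0], [1, 5]), (0, [1], [0, 2]), (1, [], [3, 4]), (3, [], [5])])]

def p22_3_5 : Cov := [(2, 0, 1, [(0, [0], [1, 5]), (0, [1], [0, 3]), (1, [], [2, 4]), (3, [], [5])]),
  (-2, 0, 1, [(0, [0], [1, 5]), (0, [1], [2, 4]), (1, [], [0, 3]), (3, [], [5])])]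

def p22_3_6 : Cov := [(-2, 0, 1, [(0, [0], [1, 5]), (0, [1], [3, 4]), (1, [], [0, 2]), (3, [], [5])]),
  (-2, 0, 1, [(0, [0], [1, 2]), (0, [1], [0, 5]), (1, [], [3, 4]), (3, [], [5])])]

def p22_3_7 : Cov := [(2, 0, 1, [(0, [0], [1, 2]), (0, [1], [4, 5]), (1, [], [0, 3]), (3, [], [5])]),
  (-2, 0, 1, [(0, [0], [1, 3]), (0, [1], [0, 5]), (1, [], [2, 4]), (3, [], [5])])]

def p22_3_8 : Cov := [(2, 0, 1, [(0, [0], [1, 3]), (0, [1], [4, 5]), (1, [], [0, 2]), (3, [], [5])]),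
  (2, 0, 1, [(0, [0], [1, 4]), (0, [1], [2, 5]), (1, [], [0, 3]), (3, [], [5])])]

def p22_3_9 : Cov := [(2, 0, 1, [(0, [0], [1, 4]), (0, [1], [3, 5]), (1, [], [0, 2]), (3, [], [5])]),
  (2, 0, 1, [(0, [0], [2, 5]), (0, [1], [0, 1]), (1, [], [3, 4]), (3, [], [5])])]

def p22_3_10 : Cov := [(2, 0, 1, [(0, [0], [2, 5]), (0, [1], [0, 3]), (1, [], [1, 4]), (3, [], [5])]),
  (-2, 0, 1, [(0, [0], [2, 5]), (0, [1], [1, 4]), (1, [], [0, 3]), (3, [], [5])])]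

def p22_3_11 : Cov := [(-2, 0, 1, [(0, [0], [2, 5]), (0, [1], [3, 4]), (1, [], [0, 1]), (3, [], [5])]),
  (-2, 0, 1, [(0, [0], [2, 3]), (0, [1], [0, 5]), (1, [], [1, 4]), (3, [], [5])])]

def p22_3_12 : Cov := [(2, 0, 1, [(0, [0], [2, 3]), (0, [1], [4, 5]), (1, [], [0, 1]), (3, [], [5])]),
  (2, 0, 1, [(0, [0], [2, 4]), (0, [1], [1, 5]), (1, [], [0, 3]), (3, [], [5])])]

def p22_3_13 : Cov := [(2, 0, 1, [(0, [0], [2, 4]), (0, [1], [3, 5]), (1, [], [0, 1]), (3, [], [5])]),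
  (2, 0, 1, [(0, [0], [3, 5]), (0, [1], [0, 1]), (1, [], [2, 4]), (3, [], [5])])]

def p22_3_14 : Cov := [(2, 0, 1, [(0, [0], [3, 5]), (0, [1], [0, 2]), (1, [], [1, 4]), (3, [], [5])]),
  (-2, 0, 1, [(0, [0], [3, 5]), (0, [1], [1, 4]), (1, [], [0, 2]), (3, [], [5])])]

def p22_3_15 : Cov := [(-2, 0, 1, [(0, [0], [3, 5]), (0, [1], [2, 4]), (1, [], [0, 1]), (3, [], [5])]),
  (2, 0, 1, [(0, [0], [3, 4]), (0, [1], [1, 5]), (1, [], [0, 2]), (3, [], [5])])]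

def p22_3_16 : Cov := [(2, 0, 1, [(0, [0], [3, 4]), (0, [1], [2, 5]), (1, [], [0, 1]), (3, [], [5])]),
  (-2, 0, 1, [(0, [0], [4, 5]), (0, [1], [1, 2]), (1, [], [0, 3]), (3, [], [5])])]

def p22_3_17 : Cov := [(-2, 0, 1, [(0, [0], [4, 5]), (0, [1], [1, 3]), (1, [], [0, 2]), (3, [], [5])]),
  (-2, 0, 1, [(0, [0], [4, 5]), (0, [1], [2, 3]), (1, [], [0, 1]), (3, [], [5])])]

def c22_3 : Cov := p22_3_0 ++ (p22_3_1 ++ (p22_3_2 ++ (p22_3_3 ++ (p22_3_4 ++ (p22_3_5 ++ (p22_3_6 ++ (p22_3_7 ++ (p22_3_8 ++ (p22_3_9 ++ (p22_3_10 ++ (p22_3_11 ++ (p22_3_12 ++ (p22_3_13 ++ (p22_3_14 ++ (p22_3_15 ++ (p22_3_16 ++ (p22_3_17)))))))))))))))))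

end YMLIM
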