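import Pool.Agent.YM.LIM.Keys

set_option linter.unusedVariables false
set_option maxRecDepth 100000

open YMEng

namespace YMLIM

def p23_0_0 : Cov := [(4, 0, 0, [(0, [0], [0, 1]), (2, [1], [2, 3, 4])]),
  (-4, 0, 0, [(0, [0], [0, 4]), (2, [1], [1, 2, 3])]),
  (-4, 0, 0, [(0, [0], [1, 3]), (2, [1], [0, 2, 4])]),
  (4, 0, 0, [(0, [0], [3, 4]), (2, [1], [0, 1, 2])])]

def p23_0_1 : Cov := [(4, 0, 0, [(0, [1], [0, 1]), (2, [0], [2, 3, 4])]),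
  (-4, 0, 0, [(0, [1], [0, 4]), (2, [0], [1, 2, 3])]),
  (-4, 0, 0, [(0, [1], [1, 3]), (2, [0], [0, 2, 4])]),
  (4, 0, 0, [(0, [1], [3, 4]), (2, [0], [0, 1, 2])])]

def c23_0 : Cov := p23_0_0 ++ (p23_0_1)

def p23_1_0 : Cov := [(4, 0, 1, [(0, [0], [0, 1]), (0, [1], [2, 3]), (1, [], [4, 5]), (3, [], [5])]),
  (4, 0, 1, [(0, [0], [0, 1]), (0, [1], [2, 4]), (1, [], [3, 5]), (3, [], [5])]),
  (8, 0, 1, [(0, [0], [0, 1]), (0, [1], [3, 4]), (1, [], [2, 5]), (3, [], [5])]),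
  (-4, 0, 1, [(0, [0], [0, 2]), (0, [1], [1, 3]), (1, [], [4, 5]), (3, [], [5])])]

def p23_1_1 : Cov := [(4, 0, 1, [(0, [0], [0, 2]), (0, [1], [3, 4]), (1, [], [1, 5]), (3, [], [5])]),
  (-4, 0, 1, [(0, [0], [0, 4]), (0, [1], [1, 2]), (1, [], [3, 5]), (3, [], [5])]),
  (-8, 0, 1, [(0, [0], [0, 4]), (0, [1], [1, 3]), (1, [], [2, 5]), (3, [], [5])]),
  (-4, 0, 1, [(0, [0], [0, 4]), (0, [1], [2, 3]), (1, [], [1, 5]), (3, [], [5])])]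

def p23_1_2 : Cov := [(-4, 0, 1, [(0, [0], [1, 2]), (0, [1], [0, 4]), (1, [], [3, 5]), (3, [], [5])]),
  (4, 0, 1, [(0, [0], [1, 2]), (0, [1], [3, 4]), (1, [], [0, 5]), (3, [], [5])]),
  (-4, 0, 1, [(0, [0], [1, 3]), (0, [1], [0, 2]), (1, [], [4, 5]), (3, [], [5])]),
  (-8, 0, 1, [(0, [0], [1, 3]), (0, [1], [0, 4]), (1, [], [2, 5]), (3, [], [5])])]

def p23_1_3 : Cov := [(-4, 0, 1, [(0, [0], [1, 3]), (0, [1], [2, 4]), (1, [], [0, 5]), (3, [], [5])]),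
  (4, 0, 1, [(0, [0], [2, 3]), (0, [1], [0, 1]), (1, [], [4, 5]), (3, [], [5])]),
  (-4, 0, 1, [(0, [0], [2, 3]), (0, [1], [0, 4]), (1, [], [1, 5]), (3, [], [5])]),
  (4, 0, 1, [(0, [0], [2, 4]), (0, [1], [0, 1]), (1, [], [3, 5]), (3, [], [5])])]

def p23_1_4 : Cov := [(-4, 0, 1, [(0, [0], [2, 4]), (0, [1], [1, 3]), (1, [], [0, 5]), (3, [], [5])]),
  (8, 0, 1, [(0, [0], [3, 4]), (0, [1], [0, 1]), (1, [], [2, 5]), (3, [], [5])]),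
  (4, 0, 1, [(0, [0], [3, 4]), (0, [1], [0, 2]), (1, [], [1, 5]), (3, [], [5])]),
  (4, 0, 1, [(0, [0], [3, 4]), (0, [1], [1, 2]), (1, [], [0, 5]), (3, [], [5])])]

def c23_1 : Cov := p23_1_0 ++ (p23_1_1 ++ (p23_1_2 ++ (p23_1_3 ++ (p23_1_4))))

def p23_2_0 : Cov := [(4, 0, 1, [(0, [0], [0, 5]), (0, [1], [1, 2]), (1, [], [3, 4]), (3, [], [5])]),
  (-4, 0, 1, [(0, [0], [0, 5]), (0, [1], [2, 4]), (1, [], [1, 3]), (3, [], [5])]),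
  (4, 0, 1, [(0, [0], [0, 1]), (0, [1], [2, 5]), (1, [], [3, 4]), (3, [], [5])]),
  (4, 0, 1, [(0, [0], [0, 2]), (0, [1], [1, 5]), (1, [], [3, 4]), (3, [], [5])])]

def p23_2_1 : Cov := [(-4, 0, 1, [(0, [0], [0, 2]), (0, [1], [4, 5]), (1, [], [1, 3]), (3, [], [5])]),
  (-4, 0, 1, [(0, [0], [0, 4]), (0, [1], [2, 5]), (1, [], [1, 3]), (3, [], [5])]),
  (4, 0, 1, [(0, [0], [1, 5]), (0, [1], [0, 2]), (1, [], [3, 4]), (3, [], [5])]),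
  (-4, 0, 1, [(0, [0], [1, 5]), (0, [1], [2, 3]), (1, [], [0, 4]), (3, [], [5])])]

def p23_2_2 : Cov := [(4, 0, 1, [(0, [0], [1, 2]), (0, [1], [0, 5]), (1, [], [3, 4]), (3, [], [5])]),
  (-4, 0, 1, [(0, [0], [1, 2]), (0, [1], [3, 5]), (1, [], [0, 4]), (3, [], [5])]),
  (-4, 0, 1, [(0, [0], [1, 3]), (0, [1], [2, 5]), (1, [], [0, 4]), (3, [], [5])]),
  (4, 0, 1, [(0, [0], [2, 5]), (0, [1], [0, 1]), (1, [], [3, 4]), (3, [], [5])])]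

def p23_2_3 : Cov := [(-4, 0, 1, [(0, [0], [2, 5]), (0, [1], [0, 4]), (1, [], [1, 3]), (3, [], [5])]),
  (-4, 0, 1, [(0, [0], [2, 5]), (0, [1], [1, 3]), (1, [], [0, 4]), (3, [], [5])]),
  (4, 0, 1, [(0, [0], [2, 5]), (0, [1], [3, 4]), (1, [], [0, 1]), (3, [], [5])]),
  (-4, 0, 1, [(0, [0], [2, 3]), (0, [1], [1, 5]), (1, [], [0, 4]), (3, [], [5])])]

def p23_2_4 : Cov := [(4, 0, 1, [(0, [0], [2, 3]), (0, [1], [4, 5]), (1, [], [0, 1]), (3, [], [5])]),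
  (-4, 0, 1, [(0, [0], [2, 4]), (0, [1], [0, 5]), (1, [], [1, 3]), (3, [], [5])]),
  (4, 0, 1, [(0, [0], [2, 4]), (0, [1], [3, 5]), (1, [], [0, 1]), (3, [], [5])]),
  (-4, 0, 1, [(0, [0], [3, 5]), (0, [1], [1, 2]), (1, [], [0, 4]), (3, [], [5])])]

def p23_2_5 : Cov := [(4, 0, 1, [(0, [0], [3, 5]), (0, [1], [2, 4]), (1, [], [0, 1]), (3, [], [5])]),
  (4, 0, 1, [(0, [0], [3, 4]), (0, [1], [2, 5]), (1, [], [0, 1]), (3, [], [5])]),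
  (-4, 0, 1, [(0, [0], [4, 5]), (0, [1], [0, 2]), (1, [], [1, 3]), (3, [], [5])]),
  (4, 0, 1, [(0, [0], [4, 5]), (0, [1], [2, 3]), (1, [], [0, 1]), (3, [], [5])])]

def c23_2 : Cov := p23_2_0 ++ (p23_2_1 ++ (p23_2_2 ++ (p23_2_3 ++ (p23_2_4 ++ (p23_2_5)))))

def p23_3_0 : Cov := [(-4, 0, 1, [(0, [0], [0, 5]), (0, [1], [1, 3]), (1, [], [2, 4]), (3, [], [5])]),
  (4, 0, 1, [(0, [0], [0, 5]), (0, [1], [3, 4]), (1, [], [1, 2]), (3, [], [5])]),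
  (4, 0, 1, [(0, [0], [0, 1]), (0, [1], [2, 5]), (1, [], [3, 4]), (3, [], [5])]),
  (4, 0, 1, [(0, [0], [0, 1]), (0, [1], [3, 5]), (1, [], [2, 4]), (3, [], [5])])]

def p23_3_1 : Cov := [(4, 0, 1, [(0, [0], [0, 1]), (0, [1], [4, 5]), (1, [], [2, 3]), (3, [], [5])]),
  (-4, 0, 1, [(0, [0], [0, 4]), (0, [1], [1, 5]), (1, [], [2, 3]), (3, [], [5])]),
  (-4, 0, 1, [(0, [0], [0, 4]), (0, [1], [2, 5]), (1, [], [1, 3]), (3, [], [5])]),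
  (-4, 0, 1, [(0, [0], [0, 4]), (0, [1], [3, 5]), (1, [], [1, 2]), (3, [], [5])])]

def p23_3_2 : Cov := [(-4, 0, 1, [(0, [0], [1, 5]), (0, [1], [0, 4]), (1, [], [2, 3]), (3, [], [5])]),
  (4, 0, 1, [(0, [0], [1, 5]), (0, [1], [3, 4]), (1, [], [0, 2]), (3, [], [5])]),
  (-4, 0, 1, [(0, [0], [1, 3]), (0, [1], [0, 5]), (1, [], [2, 4]), (3, [], [5])]),
  (-4, 0, 1, [(0, [0], [1, 3]), (0, [1], [2, 5]), (1, [], [0, 4]), (3, [], [5])])]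

def p23_3_3 : Cov := [(-4, 0, 1, [(0, [0], [1, 3]), (0, [1], [4, 5]), (1, [], [0, 2]), (3, [], [5])]),
  (4, 0, 1, [(0, [0], [2, 5]), (0, [1], [0, 1]), (1, [], [3, 4]), (3, [], [5])]),
  (-4, 0, 1, [(0, [0], [2, 5]), (0, [1], [0, 4]), (1, [], [1, 3]), (3, [], [5])]),
  (-4, 0, 1, [(0, [0], [2, 5]), (0, [1], [1, 3]), (1, [], [0, 4]), (3, [], [5])])]

def p23_3_4 : Cov := [(4, 0, 1, [(0, [0], [2, 5]), (0, [1], [3, 4]), (1, [], [0, 1]), (3, [], [5])]),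
  (4, 0, 1, [(0, [0], [3, 5]), (0, [1], [0, 1]), (1, [], [2, 4]), (3, [], [5])]),
  (-4, 0, 1, [(0, [0], [3, 5]), (0, [1], [0, 4]), (1, [], [1, 2]), (3, [], [5])]),
  (4, 0, 1, [(0, [0], [3, 4]), (0, [1], [0, 5]), (1, [], [1, 2]), (3, [], [5])])]

def p23_3_5 : Cov := [(4, 0, 1, [(0, [0], [3, 4]), (0, [1], [1, 5]), (1, [], [0, 2]), (3, [], [5])]),
  (4, 0, 1, [(0, [0], [3, 4]), (0, [1], [2, 5]), (1, [], [0, 1]), (3, [], [5])]),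
  (4, 0, 1, [(0, [0], [4, 5]), (0, [1], [0, 1]), (1, [], [2, 3]), (3, [], [5])]),
  (-4, 0, 1, [(0, [0], [4, 5]), (0, [1], [1, 3]), (1, [], [0, 2]), (3, [], [5])])]

def c23_3 : Cov := p23_3_0 ++ (p23_3_1 ++ (p23_3_2 ++ (p23_3_3 ++ (p23_3_4 ++ (p23_3_5)))))

end YMLIM
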