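import Pool.Agent.YM.LIM.Keys

set_option linter.unusedVariables false
set_option maxRecDepth 100000

open YMEng

namespace YMLIM

def p0_0_0 : Cov := [(1, 1, 3, [(0, [0], [1, 2]), (0, [0], [1, 2]), (1, [], [0, 3]), (3, [], [3])])]

def c0_0 : Cov := p0_0_0

def p0_1_0 : Cov := [(1, 1, 3, [(0, [0], [1, 2]), (0, [0], [1, 3]), (1, [], [0, 2]), (3, [], [3])])]

def c0_1 : Cov := p0_1_0

def p0_2_0 : Cov := [(1, 1, 3, [(0, [0], [1, 2]), (0, [0], [0, 1]), (1, [], [2, 3]), (3, [], [3])])]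

def c0_2 : Cov := p0_2_0

def p0_3_0 : Cov := [(1, 1, 3, [(0, [0], [1, 2]), (0, [0], [0, 3]), (1, [], [1, 2]), (3, [], [3])])]

def c0_3 : Cov := p0_3_0

def p0_4_0 : Cov := [(1, 1, 3, [(0, [0], [1, 2]), (0, [0], [0, 3]), (1, [], [1, 3]), (3, [], [2])])]

def c0_4 : Cov := p0_4_0

def p0_5_0 : Cov := [(1, 1, 2, [(0, [0], [1, 2]), (2, [0], [0, 1, 2])])]

def c0_5 : Cov := p0_5_0

theorem t0_0_0_0 : chkS keys 0 1 p0_0_0 c0_0
  [(7, 16, 16, 103960836, 103830561)]
  [(7, 1)] = true := by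
  decide +kernel

theorem t0_0_1_0 : chkS keys 0 1 p0_0_0 c0_1
  [(8, 16, 16, 70410501, 50746401)]
  [(8, 1)] = true := by
  decide +kernel

theorem t0_0_2_0 : chkS keys 0 1 p0_0_0 c0_2
  [(46, 16, 16, 106180866, 106180641)]
  [(46, 1)] = true := by
  decide +kernel

theorem t0_0_3_0 : chkS keys 0 1 p0_0_0 c0_3
  [(10, 16, 16, 87187716, 56644641)]
  [(10, 1)] = true := by
  decide +kernel

theorem t0_0_4_0 : chkS keys 0 1 p0_0_0 c0_4
  [(11, 16, 16, 39084291, 55838241)]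
  [(11, 1)] = true := by
  decide +kernel

theorem t0_0_5_0 : chkS keys 0 1 p0_0_0 c0_5
  [(18, 16, 16, 3297540, 3167265)]
  [(18, 1)] = true := by
  decide +kernel

theorem t0_1_1_0 : chkS keys 0 1 p0_1_0 c0_1
  [(47, 16, 16, 106176771, 106169121)]
  [(47, 1)] = true := by
  decide +kernel

theorem t0_1_2_0 : chkS keys 0 1 p0_1_0 c0_2
  [(48, 16, 16, 106176771, 106169121)]
  [(48, 1)] = true := by
  decide +kernel

theorem t0_1_3_0 : chkS keys 0 1 p0_1_0 c0_3
  [(14, 16, 16, 73736451, 88474401)]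
  [(14, 1)] = true := by
  decide +kernel

theorem t0_1_4_0 : chkS keys 0 1 p0_1_0 c0_4
  [(49, 16, 16, 106176771, 106169121)]
  [(49, 1)] = true := by
  decide +kernel

theorem t0_1_5_0 : chkS keys 0 1 p0_1_0 c0_5
  [(21, 16, 16, 3416325, 283425)]
  [(21, 1)] = true := by
  decide +kernel

theorem t0_2_2_0 : chkS keys 0 1 p0_2_0 c0_2
  [(50, 16, 16, 106180866, 106180641)]
  [(50, 1)] = true := by
  decide +kernel

theorem t0_2_3_0 : chkS keys 0 1 p0_2_0 c0_3
  [(51, 16, 16, 106180866, 106180641)]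
  [(51, 1)] = true := by
  decide +kernel

theorem t0_2_4_0 : chkS keys 0 1 p0_2_0 c0_4
  [(52, 16, 16, 106180866, 106180641)]
  [(52, 1)] = true := by
  decide +kernel

theorem t0_2_5_0 : chkS keys 0 1 p0_2_0 c0_5
  [(53, 16, 16, 5517570, 5517345)]
  [(53, 1)] = true := by
  decide +kernel

theorem t0_3_3_0 : chkS keys 0 1 p0_3_0 c0_3
  [(54, 16, 16, 106180866, 106180641)]
  [(54, 1)] = true := by
  decide +kernel

theorem t0_3_4_0 : chkS keys 0 1 p0_3_0 c0_4
  [(17, 1, 1, 20072016, 34821216)]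
  [(17, 1)] = true := by
  decide +kernel

theorem t0_3_5_0 : chkS keys 0 1 p0_3_0 c0_5
  [(32, 16, 16, 5509920, 5513520)]
  [(32, 1)] = true := by
  decide +kernel

theorem t0_4_4_0 : chkS keys 0 1 p0_4_0 c0_4
  [(55, 16, 16, 106180866, 106180641)]
  [(55, 1)] = true := by
  decide +kernel

theorem t0_4_5_0 : chkS keys 0 1 p0_4_0 c0_5
  [(31, 16, 16, 5509920, 5513520)]
  [(31, 1)] = true := by
  decide +kernel

theorem t0_5_5_0 : chkS keys 0 1 p0_5_0 c0_5
  [(37, 16, 16, 143620, 13345)]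
  [(37, 1)] = true := by
  decide +kernel

section

variable {κ ι : Type*} [Fintype κ] [Fintype ι] [Inhabited κ] [Inhabited ι]

def r0_0_0 : List (ℕ × ℤ) := [(7, 1)]

theorem h0_0_0 (E : Env κ ι) : inn E 0 1 c0_0 c0_0 = dotS (ek E keys) r0_0_0 :=
  innS_eqZ E _ _ _ _ _ _ _ (chkS_sound E keys 0 1 _ _ _ _ t0_0_0_0) (by decide +kernel)

def r0_0_1 : List (ℕ × ℤ) := [(8, 1)]

theorem h0_0_1 (E : Env κ ι) : inn E 0 1 c0_0 c0_1 = dotS (ek E keys) r0_0_1 :=
  innS_eqZ E _ _ _ _ _ _ _ (chkS_sound E keys 0 1 _ _ _ _ t0_0_1_0) (by decide +kernel)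

def r0_0_2 : List (ℕ × ℤ) := [(46, 1)]

theorem h0_0_2 (E : Env κ ι) : inn E 0 1 c0_0 c0_2 = dotS (ek E keys) r0_0_2 :=
  innS_eqZ E _ _ _ _ _ _ _ (chkS_sound E keys 0 1 _ _ _ _ t0_0_2_0) (by decide +kernel)

def r0_0_3 : List (ℕ × ℤ) := [(10, 1)]

theorem h0_0_3 (E : Env κ ι) : inn E 0 1 c0_0 c0_3 = dotS (ek E keys) r0_0_3 :=
  innS_eqZ E _ _ _ _ _ _ _ (chkS_sound E keys 0 1 _ _ _ _ t0_0_3_0) (by decide +kernel)

def r0_0_4 : List (ℕ × ℤ) := [(11, 1)]

theorem h0_0_4 (E : Env κ ι) : inn E 0 1 c0_0 c0_4 = dotS (ek E keys) r0_0_4 :=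
  innS_eqZ E _ _ _ _ _ _ _ (chkS_sound E keys 0 1 _ _ _ _ t0_0_4_0) (by decide +kernel)

def r0_0_5 : List (ℕ × ℤ) := [(18, 1)]

theorem h0_0_5 (E : Env κ ι) : inn E 0 1 c0_0 c0_5 = dotS (ek E keys) r0_0_5 :=
  innS_eqZ E _ _ _ _ _ _ _ (chkS_sound E keys 0 1 _ _ _ _ t0_0_5_0) (by decide +kernel)

def r0_1_1 : List (ℕ × ℤ) := [(47, 1)]

theorem h0_1_1 (E : Env κ ι) : inn E 0 1 c0_1 c0_1 = dotS (ek E keys) r0_1_1 :=
  innS_eqZ E _ _ _ _ _ _ _ (chkS_sound E keys 0 1 _ _ _ _ t0_1_1_0) (by decide +kernel)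

def r0_1_2 : List (ℕ × ℤ) := [(48, 1)]

theorem h0_1_2 (E : Env κ ι) : inn E 0 1 c0_1 c0_2 = dotS (ek E keys) r0_1_2 :=
  innS_eqZ E _ _ _ _ _ _ _ (chkS_sound E keys 0 1 _ _ _ _ t0_1_2_0) (by decide +kernel)

def r0_1_3 : List (ℕ × ℤ) := [(14, 1)]

theorem h0_1_3 (E : Env κ ι) : inn E 0 1 c0_1 c0_3 = dotS (ek E keys) r0_1_3 :=
  innS_eqZ E _ _ _ _ _ _ _ (chkS_sound E keys 0 1 _ _ _ _ t0_1_3_0) (by decide +kernel)

def r0_1_4 : List (ℕ × ℤ) := [(49, 1)]

theorem h0_1_4 (E : Env κ ι) : inn E 0 1 c0_1 c0_4 = dotS (ek E keys) r0_1_4 :=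
  innS_eqZ E _ _ _ _ _ _ _ (chkS_sound E keys 0 1 _ _ _ _ t0_1_4_0) (by decide +kernel)

def r0_1_5 : List (ℕ × ℤ) := [(21, 1)]

theorem h0_1_5 (E : Env κ ι) : inn E 0 1 c0_1 c0_5 = dotS (ek E keys) r0_1_5 :=
  innS_eqZ E _ _ _ _ _ _ _ (chkS_sound E keys 0 1 _ _ _ _ t0_1_5_0) (by decide +kernel)

def r0_2_2 : List (ℕ × ℤ) := [(50, 1)]

theorem h0_2_2 (E : Env κ ι) : inn E 0 1 c0_2 c0_2 = dotS (ek E keys) r0_2_2 :=
  innS_eqZ E _ _ _ _ _ _ _ (chkS_sound E keys 0 1 _ _ _ _ t0_2_2_0) (by decide +kernel)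

def r0_2_3 : List (ℕ × ℤ) := [(51, 1)]

theorem h0_2_3 (E : Env κ ι) : inn E 0 1 c0_2 c0_3 = dotS (ek E keys) r0_2_3 :=
  innS_eqZ E _ _ _ _ _ _ _ (chkS_sound E keys 0 1 _ _ _ _ t0_2_3_0) (by decide +kernel)

def r0_2_4 : List (ℕ × ℤ) := [(52, 1)]

theorem h0_2_4 (E : Env κ ι) : inn E 0 1 c0_2 c0_4 = dotS (ek E keys) r0_2_4 :=
  innS_eqZ E _ _ _ _ _ _ _ (chkS_sound E keys 0 1 _ _ _ _ t0_2_4_0) (by decide +kernel)

def r0_2_5 : List (ℕ × ℤ) := [(53, 1)]

theorem h0_2_5 (E : Env κ ι) : inn E 0 1 c0_2 c0_5 = dotS (ek E keys) r0_2_5 :=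
  innS_eqZ E _ _ _ _ _ _ _ (chkS_sound E keys 0 1 _ _ _ _ t0_2_5_0) (by decide +kernel)

def r0_3_3 : List (ℕ × ℤ) := [(54, 1)]

theorem h0_3_3 (E : Env κ ι) : inn E 0 1 c0_3 c0_3 = dotS (ek E keys) r0_3_3 :=
  innS_eqZ E _ _ _ _ _ _ _ (chkS_sound E keys 0 1 _ _ _ _ t0_3_3_0) (by decide +kernel)

def r0_3_4 : List (ℕ × ℤ) := [(17, 1)]

theorem h0_3_4 (E : Env κ ι) : inn E 0 1 c0_3 c0_4 = dotS (ek E keys) r0_3_4 :=
  innS_eqZ E _ _ _ _ _ _ _ (chkS_sound E keys 0 1 _ _ _ _ t0_3_4_0) (by decide +kernel)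

def r0_3_5 : List (ℕ × ℤ) := [(32, 1)]

theorem h0_3_5 (E : Env κ ι) : inn E 0 1 c0_3 c0_5 = dotS (ek E keys) r0_3_5 :=
  innS_eqZ E _ _ _ _ _ _ _ (chkS_sound E keys 0 1 _ _ _ _ t0_3_5_0) (by decide +kernel)

def r0_4_4 : List (ℕ × ℤ) := [(55, 1)]

theorem h0_4_4 (E : Env κ ι) : inn E 0 1 c0_4 c0_4 = dotS (ek E keys) r0_4_4 :=
  innS_eqZ E _ _ _ _ _ _ _ (chkS_sound E keys 0 1 _ _ _ _ t0_4_4_0) (by decide +kernel)

def r0_4_5 : List (ℕ × ℤ) := [(31, 1)]

theorem h0_4_5 (E : Env κ ι) : inn E 0 1 c0_4 c0_5 = dotS (ek E keys) r0_4_5 :=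
  innS_eqZ E _ _ _ _ _ _ _ (chkS_sound E keys 0 1 _ _ _ _ t0_4_5_0) (by decide +kernel)

def r0_5_5 : List (ℕ × ℤ) := [(37, 1)]

theorem h0_5_5 (E : Env κ ι) : inn E 0 1 c0_5 c0_5 = dotS (ek E keys) r0_5_5 :=
  innS_eqZ E _ _ _ _ _ _ _ (chkS_sound E keys 0 1 _ _ _ _ t0_5_5_0) (by decide +kernel)

theorem row0_0 (E : Env κ ι) : RowS E 0 1 (ek E keys) c0_0 [c0_0, c0_1, c0_2, c0_3, c0_4, c0_5] [r0_0_0, r0_0_1, r0_0_2, r0_0_3, r0_0_4, r0_0_5] :=
  rowS_cons E _ _ _ _ _ _ _ _ (h0_0_0 E) (rowS_cons E _ _ _ _ _ _ _ _ (h0_0_1 E) (rowS_cons E _ _ _ _ _ _ _ _ (h0_0_2 E) (rowS_cons E _ _ _ _ _ _ _ _ (h0_0_3 E) (rowS_cons E _ _ _ _ _ _ _ _ (h0_0_4 E) (rowS_cons E _ _ _ _ _ _ _ _ (h0_0_5 E) (rowS_nil E _ _ _ _))))))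

theorem row0_1 (E : Env κ ι) : RowS E 0 1 (ek E keys) c0_1 [c0_1, c0_2, c0_3, c0_4, c0_5] [r0_1_1, r0_1_2, r0_1_3, r0_1_4, r0_1_5] :=
  rowS_cons E _ _ _ _ _ _ _ _ (h0_1_1 E) (rowS_cons E _ _ _ _ _ _ _ _ (h0_1_2 E) (rowS_cons E _ _ _ _ _ _ _ _ (h0_1_3 E) (rowS_cons E _ _ _ _ _ _ _ _ (h0_1_4 E) (rowS_cons E _ _ _ _ _ _ _ _ (h0_1_5 E) (rowS_nil E _ _ _ _)))))

theorem row0_2 (E : Env κ ι) : RowS E 0 1 (ek E keys) c0_2 [c0_2, c0_3, c0_4, c0_5] [r0_2_2, r0_2_3, r0_2_4, r0_2_5] :=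
  rowS_cons E _ _ _ _ _ _ _ _ (h0_2_2 E) (rowS_cons E _ _ _ _ _ _ _ _ (h0_2_3 E) (rowS_cons E _ _ _ _ _ _ _ _ (h0_2_4 E) (rowS_cons E _ _ _ _ _ _ _ _ (h0_2_5 E) (rowS_nil E _ _ _ _))))

theorem row0_3 (E : Env κ ι) : RowS E 0 1 (ek E keys) c0_3 [c0_3, c0_4, c0_5] [r0_3_3, r0_3_4, r0_3_5] :=
  rowS_cons E _ _ _ _ _ _ _ _ (h0_3_3 E) (rowS_cons E _ _ _ _ _ _ _ _ (h0_3_4 E) (rowS_cons E _ _ _ _ _ _ _ _ (h0_3_5 E) (rowS_nil E _ _ _ _)))

theorem row0_4 (E : Env κ ι) : RowS E 0 1 (ek E keys) c0_4 [c0_4, c0_5] [r0_4_4, r0_4_5] :=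
  rowS_cons E _ _ _ _ _ _ _ _ (h0_4_4 E) (rowS_cons E _ _ _ _ _ _ _ _ (h0_4_5 E) (rowS_nil E _ _ _ _))

theorem row0_5 (E : Env κ ι) : RowS E 0 1 (ek E keys) c0_5 [c0_5] [r0_5_5] :=
  rowS_cons E _ _ _ _ _ _ _ _ (h0_5_5 E) (rowS_nil E _ _ _ _)

def tab0 : List (List (List (ℕ × ℤ))) := [[r0_0_0, r0_0_1, r0_0_2, r0_0_3, r0_0_4, r0_0_5], [r0_1_1, r0_1_2, r0_1_3, r0_1_4, r0_1_5], [r0_2_2, r0_2_3, r0_2_4, r0_2_5], [r0_3_3, r0_3_4, r0_3_5], [r0_4_4, r0_4_5], [r0_5_5]]

theorem tri0 (E : Env κ ι) : TriS E 0 1 (ek E keys) [c0_0, c0_1, c0_2, c0_3, c0_4, c0_5] tab0 := by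
  refine triS_cons E _ _ _ _ _ _ _ (row0_0 E) ?_
  refine triS_cons E _ _ _ _ _ _ _ (row0_1 E) ?_
  refine triS_cons E _ _ _ _ _ _ _ (row0_2 E) ?_
  refine triS_cons E _ _ _ _ _ _ _ (row0_3 E) ?_
  refine triS_cons E _ _ _ _ _ _ _ (row0_4 E) ?_
  refine triS_cons E _ _ _ _ _ _ _ (row0_5 E) ?_
  exact triS_nil E _ _ _

def rows0 : List (ℕ × List ℤ) := [(1666740083097600, [4194304, 724089, -3148330, 2986785, -3674095, -2190822]),
  (12147867648000, [0, 4194304, -28126980, 12965484, 9298274, 724319]),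
  (3414904012800, [0, 0, 4194304, -1878076, -1398806, -125973]),
  (98471116800, [0, 0, 0, 4194304, -806880, -576115]),
  (170930995200, [0, 0, 0, 0, 4194304, 1049957]),
  (1452162281127554108620800, [0, 0, 0, 0, 0, 1]),
  (1063825399326817382400, [1, 1, 0, 0, 0, 0]),
  (1288442213212047033600, [1, 0, -1, 0, 0, 0]),
  (3168261029328487492608, [1, 0, 0, -1, 0, 0]),
  (4545986951521677312000, [1, 0, 0, 0, -1, 0]),
  (1257210580206782251008, [1, 0, 0, 0, 0, 1]),
  (2005337680731994982400, [0, 1, -1, 0, 0, 0]),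
  (2443112899185372595200, [0, 1, 0, -1, 0, 0]),
  (5810553981008380886400, [0, 1, 0, 0, 1, 0]),
  (530504614769695948800, [0, 1, 0, 0, 0, 1]),
  (3326927773642359091200, [0, 0, 1, 1, 0, 0]),
  (3106020089869942579200, [0, 0, 1, 0, -1, 0]),
  (1783053944815822848000, [0, 0, 1, 0, 0, 1]),
  (430074152412255302400, [0, 0, 0, 1, -1, 0]),
  (1835318712293150515200, [0, 0, 0, 1, 0, 1]),
  (1311997152595459276800, [0, 0, 0, 0, 1, 1]),
  (1929217938028733018550528, [1, 0, 0, 0, 0, 0]),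
  (1939475316733662730204800, [0, 1, 0, 0, 0, 0]),
  (1951746044675287203014400, [0, 0, 1, 0, 0, 0]),
  (1932438916228153348161792, [0, 0, 0, 1, 0, 0]),
  (1925055520047825684566400, [0, 0, 0, 0, 1, 0]),
  (1934403971733306006331392, [0, 0, 0, 0, 0, 1])]

def M0 : List (List ℤ) := [[29323542171202565213293023744, 10123946029824224157674496000, -44018785220357343036738931200, 41760114018645682731284342784, -51369843009152415321907200000, -30631258321812214778727235584],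
  [1089538835485871632168857600, -10465485803581283023189708800, 8530537336939305832719513600, -7920756401993980992518227200, -5214254785289192159797248000],
  [26193242369420258145317913600, -40259956588071911077340160000, 32165045520401404923026227200, 22493868368521987853851852800],
  [16926619323984772360192128000, -33634430653704950983888627200, -21583366664609727208330444800],
  [23561253500513163008117875200, 26998575340964802483157401600],
  [8009895931722778945152614400]]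

def u0 : List ℤ := [0, 0, 0, 0, 0, 0, 0, 29323542171202565213293023744, 10123946029824224157674496000, 0, 41760114018645682731284342784, -51369843009152415321907200000, 0, 0, 8530537336939305832719513600, 0, 0, -33634430653704950983888627200, -30631258321812214778727235584, 0, 0, -5214254785289192159797248000, 0, 0, 0, 0, 0, 0, 0, 0, 0, 26998575340964802483157401600, -21583366664609727208330444800, 0, 0, 0, 0, 8009895931722778945152614400, 0, 0, 0, 0, 0, 0, 0, 0, -44018785220357343036738931200, 1089538835485871632168857600, -10465485803581283023189708800, -7920756401993980992518227200, 26193242369420258145317913600, -40259956588071911077340160000, 32165045520401404923026227200, 22493868368521987853851852800, 16926619323984772360192128000, 23561253500513163008117875200]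

theorem gr0 : eqM (gramT rows0) M0 = true := by
  decide +kernel

theorem mv0 : eqZ (mval M0 tab0) u0 = true := by
  decide +kernel

theorem nn0 (E : Env κ ι) : 0 ≤ dot (ek E keys) u0 0 :=
  block_nonneg E _ _ _ _ _ (tri0 E) rows0 M0 gr0 u0 mv0

end

def p1_0_0 : Cov := [(2, 1, 2, [(0, [0], [3, 4]), (0, [0], [3, 4]), (1, [], [0, 1]), (3, [], [2])]),
  (2, 1, 2, [(0, [0], [3, 4]), (0, [0], [3, 4]), (1, [], [0, 2]), (3, [], [1])]),
  (2, 1, 2, [(0, [0], [3, 4]), (0, [0], [3, 4]), (1, [], [1, 2]), (3, [], [0])])]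

def c1_0 : Cov := p1_0_0

def p1_1_0 : Cov := [(2, 1, 2, [(0, [0], [3, 4]), (0, [0], [0, 3]), (1, [], [1, 2]), (3, [], [4])]),
  (2, 1, 2, [(0, [0], [3, 4]), (0, [0], [1, 3]), (1, [], [0, 2]), (3, [], [4])]),
  (2, 1, 2, [(0, [0], [3, 4]), (0, [0], [2, 3]), (1, [], [0, 1]), (3, [], [4])])]

def c1_1 : Cov := p1_1_0

def p1_2_0 : Cov := [(2, 1, 2, [(0, [0], [3, 4]), (0, [0], [0, 1]), (1, [], [3, 4]), (3, [], [2])]),
  (2, 1, 2, [(0, [0], [3, 4]), (0, [0], [0, 2]), (1, [], [3, 4]), (3, [], [1])]),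
  (2, 1, 2, [(0, [0], [3, 4]), (0, [0], [1, 2]), (1, [], [3, 4]), (3, [], [0])])]

def c1_2 : Cov := p1_2_0

def p1_3_0 : Cov := [(2, 1, 2, [(0, [0], [3, 4]), (0, [0], [0, 1]), (1, [], [2, 3]), (3, [], [4])]),
  (2, 1, 2, [(0, [0], [3, 4]), (0, [0], [0, 2]), (1, [], [1, 3]), (3, [], [4])]),
  (2, 1, 2, [(0, [0], [3, 4]), (0, [0], [1, 2]), (1, [], [0, 3]), (3, [], [4])])]

def c1_3 : Cov := p1_3_0

def p1_4_0 : Cov := [(2, 1, 2, [(0, [0], [0, 3]), (0, [0], [1, 3]), (1, [], [2, 4]), (3, [], [4])]),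
  (2, 1, 2, [(0, [0], [0, 3]), (0, [0], [2, 3]), (1, [], [1, 4]), (3, [], [4])]),
  (2, 1, 2, [(0, [0], [1, 3]), (0, [0], [2, 3]), (1, [], [0, 4]), (3, [], [4])])]

def c1_4 : Cov := p1_4_0

def p1_5_0 : Cov := [(2, 1, 2, [(0, [0], [0, 3]), (0, [0], [1, 2]), (1, [], [3, 4]), (3, [], [4])]),
  (2, 1, 2, [(0, [0], [0, 1]), (0, [0], [2, 3]), (1, [], [3, 4]), (3, [], [4])]),
  (2, 1, 2, [(0, [0], [0, 2]), (0, [0], [1, 3]), (1, [], [3, 4]), (3, [], [4])])]

def c1_5 : Cov := p1_5_0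

def p1_6_0 : Cov := [(2, 1, 1, [(0, [0], [0, 3]), (2, [0], [1, 2, 3])]),
  (2, 1, 1, [(0, [0], [1, 3]), (2, [0], [0, 2, 3])]),
  (2, 1, 1, [(0, [0], [2, 3]), (2, [0], [0, 1, 3])])]

def c1_6 : Cov := p1_6_0

def p1_7_0 : Cov := [(1, 1, 2, [(0, [0], [0, 3]), (0, [0], [1, 4]), (1, [], [2, 3]), (3, [], [4])]),
  (1, 1, 2, [(0, [0], [0, 3]), (0, [0], [1, 4]), (1, [], [2, 4]), (3, [], [3])]),
  (1, 1, 2, [(0, [0], [0, 3]), (0, [0], [2, 4]), (1, [], [1, 3]), (3, [], [4])]),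
  (1, 1, 2, [(0, [0], [0, 3]), (0, [0], [2, 4]), (1, [], [1, 4]), (3, [], [3])]),
  (1, 1, 2, [(0, [0], [1, 3]), (0, [0], [2, 4]), (1, [], [0, 3]), (3, [], [4])]),
  (1, 1, 2, [(0, [0], [1, 3]), (0, [0], [2, 4]), (1, [], [0, 4]), (3, [], [3])])]

def c1_7 : Cov := p1_7_0

theorem t1_0_0_0 : chkS keys 0 3 p1_0_0 c1_0
  [(6, 16, 16, 52495956, 34628931), (7, 16, 16, 52495956, 34628931), (7, 16, 16, 52495941, 33645891), (7, 16, 16, 52495716, 18900291), (6, 16, 16, 52495716, 18900291), (7, 16, 16, 52495461, 16934211), (7, 16, 16, 52495686, 2188611), (7, 16, 16, 52495446, 1205571), (6, 16, 16, 52495686, 2188611)]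
  [(6, 12), (7, 24)] = true := by
  decide +kernel

theorem t1_0_1_0 : chkS keys 0 3 p1_0_0 c1_1
  [(8, 16, 16, 69273171, 34997571), (8, 16, 16, 69273141, 33953091), (9, 16, 16, 52495461, 16934211), (8, 16, 16, 69272931, 19268931), (9, 16, 16, 52495941, 33645891), (8, 16, 16, 69272421, 17179971), (9, 16, 16, 52495956, 34628931), (8, 16, 16, 69272886, 2495811), (8, 16, 16, 69272406, 1451331)]
  [(8, 24), (9, 12)] = true := by
  decide +kernel

theorem t1_0_2_0 : chkS keys 0 3 p1_0_0 c1_2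
  [(56, 16, 16, 105972786, 106041411), (10, 16, 16, 52495716, 18900291), (10, 16, 16, 52495686, 2188611), (10, 16, 16, 52495956, 34628931), (56, 16, 16, 105972546, 105979971), (10, 16, 16, 52495446, 1205571), (10, 16, 16, 52495941, 33645891), (10, 16, 16, 52495461, 16934211), (56, 16, 16, 105972516, 105914691)]
  [(10, 24), (56, 12)] = true := by
  decide +kernel

theorem t1_0_3_0 : chkS keys 0 3 p1_0_0 c1_3
  [(10, 16, 16, 88147506, 40177731), (57, 16, 16, 105972786, 106041411), (57, 16, 16, 105972771, 106037571), (57, 16, 16, 105972546, 105979971), (10, 16, 16, 88146786, 23404611), (57, 16, 16, 105972291, 105972291), (57, 16, 16, 105972516, 105914691), (57, 16, 16, 105972276, 105910851), (10, 16, 16, 88146726, 6627651)]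
  [(10, 12), (57, 24)] = true := by
  decide +kernel

theorem t1_0_4_0 : chkS keys 0 3 p1_0_0 c1_4
  [(58, 16, 16, 105972786, 106041411), (8, 16, 16, 102827091, 101844291), (8, 16, 16, 102827061, 100799811), (8, 16, 16, 102827331, 102827331), (58, 16, 16, 105972546, 105979971), (8, 16, 16, 102826821, 100738371), (8, 16, 16, 102827316, 102765891), (8, 16, 16, 102826836, 101721411), (58, 16, 16, 105972516, 105914691)]
  [(8, 24), (58, 12)] = true := by
  decide +kernel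

theorem t1_0_5_0 : chkS keys 0 3 p1_0_0 c1_5
  [(11, 16, 16, 103875906, 102846531), (10, 16, 16, 104924466, 103092291), (11, 16, 16, 103875876, 102781251), (11, 16, 16, 103875666, 101863491), (11, 16, 16, 103875156, 101732931), (10, 16, 16, 104923986, 102047811), (10, 16, 16, 104923941, 100999491), (11, 16, 16, 103875141, 100749891), (11, 16, 16, 103875621, 100815171)]
  [(10, 12), (11, 24)] = true := by
  decide +kernel

theorem t1_0_6_0 : chkS keys 0 3 p1_0_0 c1_6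
  [(59, 16, 16, 5309490, 5378115), (59, 16, 16, 5309475, 5374275), (19, 16, 16, 2163525, 75075), (59, 16, 16, 5309250, 5316675), (19, 16, 16, 2163765, 136515), (59, 16, 16, 5308995, 5308995), (19, 16, 16, 2163795, 1180995), (59, 16, 16, 5309220, 5251395), (59, 16, 16, 5308980, 5247555)]
  [(19, 12), (59, 24)] = true := by
  decide +kernel

theorem t1_0_7_0 : chkS keys 0 3 p1_0_0 c1_7
  [(11, 16, 16, 87098946, 39931971), (11, 16, 16, 55641636, 38822211), (60, 16, 16, 105972786, 106041411), (57, 16, 16, 88147506, 40177731), (60, 16, 16, 105972771, 106037571), (57, 16, 16, 88147491, 40173891), (60, 16, 16, 105972546, 105979971), (57, 16, 16, 88146786, 23404611), (11, 16, 16, 87098466, 23220291), (11, 16, 16, 55640676, 22045251), (57, 16, 16, 72417891, 22413891), (60, 16, 16, 90243651, 90243651), (57, 16, 16, 72418086, 5644611), (60, 16, 16, 90243876, 90186051), (57, 16, 16, 72417846, 5640771), (60, 16, 16, 90243636, 90182211),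 (11, 16, 16, 87098406, 6443331), (11, 16, 16, 55640646, 5333571)]
  [(11, 12), (57, 12), (60, 12)] = true := by
  decide +kernel

theorem t1_1_1_0 : chkS keys 0 3 p1_1_0 c1_1
  [(12, 16, 16, 70387281, 35017731), (47, 16, 16, 104989521, 102048771), (47, 16, 16, 104990001, 103093251), (47, 16, 16, 104989461, 101000211), (12, 16, 16, 70387221, 33969171), (47, 16, 16, 104989971, 103089171), (47, 16, 16, 104988981, 100996131), (47, 16, 16, 104989011, 102040611), (12, 16, 16, 70386021, 17191971)]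
  [(12, 12), (47, 24)] = true := by
  decide +kernel

theorem t1_1_2_0 : chkS keys 0 3 p1_1_0 c1_2
  [(13, 16, 16, 88213041, 40178691), (13, 16, 16, 88212321, 23405571), (61, 16, 16, 105972786, 106041411), (13, 16, 16, 88213011, 40174611), (61, 16, 16, 105972771, 106037571), (13, 16, 16, 88212246, 6628371), (61, 16, 16, 105972291, 105972291), (13, 16, 16, 88211811, 23397411), (13, 16, 16, 88211766, 6624291)]
  [(13, 24), (61, 12)] = true := by
  decide +kernel

theorem t1_1_3_0 : chkS keys 0 3 p1_1_0 c1_3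
  [(62, 16, 16, 105972786, 106041411), (62, 16, 16, 105972546, 105979971), (14, 16, 16, 70387281, 35017731), (62, 16, 16, 105972771, 106037571), (14, 16, 16, 70387221, 33969171), (62, 16, 16, 105972516, 105914691), (14, 16, 16, 70386021, 17191971), (62, 16, 16, 105972291, 105972291), (62, 16, 16, 105972276, 105910851)]
  [(14, 12), (62, 24)] = true := by
  decide +kernel

theorem t1_1_4_0 : chkS keys 0 3 p1_1_0 c1_4
  [(63, 16, 16, 105972786, 106041411), (63, 16, 16, 105972546, 105979971), (64, 16, 16, 105972786, 106041411), (63, 16, 16, 105972771, 106037571), (64, 16, 16, 105972771, 106037571), (63, 16, 16, 105972516, 105914691), (64, 16, 16, 105972291, 105972291), (63, 16, 16, 105972291, 105972291), (63, 16, 16, 105972276, 105910851)]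
  [(63, 24), (64, 12)] = true := by
  decide +kernel

theorem t1_1_5_0 : chkS keys 0 3 p1_1_0 c1_5
  [(13, 16, 16, 103941441, 102847491), (65, 16, 16, 105972786, 106041411), (65, 16, 16, 105972546, 105979971), (65, 16, 16, 105972516, 105914691), (65, 16, 16, 105972771, 106037571), (13, 16, 16, 103941396, 102781971), (65, 16, 16, 105972276, 105910851), (13, 16, 16, 103940436, 101733411), (65, 16, 16, 105972291, 105972291)]
  [(13, 12), (65, 24)] = true := by
  decide +kernel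

theorem t1_1_6_0 : chkS keys 0 3 p1_1_0 c1_6
  [(20, 16, 16, 3278145, 2184195), (66, 16, 16, 5309490, 5378115), (66, 16, 16, 5309250, 5316675), (66, 16, 16, 5309475, 5374275), (20, 16, 16, 3278100, 2118675), (66, 16, 16, 5309220, 5251395), (66, 16, 16, 5308995, 5308995), (66, 16, 16, 5308980, 5247555), (20, 16, 16, 3277140, 1070115)]
  [(20, 12), (66, 24)] = true := by
  decide +kernel

theorem t1_1_7_0 : chkS keys 0 3 p1_1_0 c1_7
  [(62, 16, 16, 103875666, 101863491), (67, 16, 16, 105972786, 106041411), (62, 16, 16, 103875906, 102846531), (67, 16, 16, 55641666, 38887491), (49, 16, 16, 87164001, 23221251), (49, 16, 16, 55707201, 38888451), (67, 16, 16, 87098406, 6443331), (62, 16, 16, 56689701, 84042051), (49, 16, 16, 87163926, 6444051), (49, 16, 16, 55707156, 38822931), (62, 16, 16, 103875876, 102781251), (67, 16, 16, 55641636, 38822211), (49, 16, 16, 87163206, 6378531), (49, 16, 16, 55705956, 22045731), (67, 16, 16, 87097926,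 6378051), (62, 16, 16, 56689221, 83976771), (67, 16, 16, 87097956, 23089731), (62, 16, 16, 56689236, 84959811)]
  [(49, 12), (62, 12), (67, 12)] = true := by
  decide +kernel

theorem t1_2_2_0 : chkS keys 0 3 p1_2_0 c1_2
  [(68, 16, 16, 105972786, 106041411), (54, 16, 16, 88147506, 40177731), (54, 16, 16, 88147491, 40173891), (54, 16, 16, 88146786, 23404611), (68, 16, 16, 105972546, 105979971), (54, 16, 16, 88146531, 23396931), (54, 16, 16, 88146726, 6627651), (54, 16, 16, 88146486, 6623811), (68, 16, 16, 105972516, 105914691)]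
  [(54, 24), (68, 12)] = true := by
  decide +kernel

theorem t1_2_3_0 : chkS keys 0 3 p1_2_0 c1_3
  [(69, 16, 16, 105972786, 106041411), (70, 16, 16, 105972786, 106041411), (70, 16, 16, 105972771, 106037571), (70, 16, 16, 105972546, 105979971), (69, 16, 16, 105972546, 105979971), (70, 16, 16, 105972291, 105972291), (70, 16, 16, 105972516, 105914691), (70, 16, 16, 105972276, 105910851), (69, 16, 16, 105972516, 105914691)]
  [(69, 12), (70, 24)] = true := by
  decide +kernel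

theorem t1_2_4_0 : chkS keys 0 3 p1_2_0 c1_4
  [(71, 16, 16, 105972786, 106041411), (13, 1, 1, 101007921, 105058821), (13, 1, 1, 101007891, 105054741), (13, 1, 1, 101008161, 105062661), (71, 16, 16, 105972546, 105979971), (13, 1, 1, 101007651, 105054501), (13, 1, 1, 101008146, 105062421), (13, 1, 1, 101007666, 105058341), (71, 16, 16, 105972516, 105914691)]
  [(13, 24), (71, 12)] = true := by
  decide +kernel

theorem t1_2_5_0 : chkS keys 0 3 p1_2_0 c1_5
  [(16, 16, 16, 105063696, 103105296), (69, 16, 16, 72418866, 39194691), (16, 16, 16, 105063681, 103105281), (16, 16, 16, 105062736, 102056736), (16, 16, 16, 105062481, 102056706), (69, 16, 16, 72418146, 22421571), (69, 16, 16, 72418086, 5644611), (16, 16, 16, 105062421, 101008146), (16, 16, 16, 105062661, 101008161)]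
  [(16, 24), (69, 12)] = true := by
  decide +kernel

theorem t1_2_6_0 : chkS keys 0 3 p1_2_0 c1_6
  [(72, 16, 16, 5309490, 5378115), (72, 16, 16, 5309475, 5374275), (29, 16, 16, 4400400, 2442000), (72, 16, 16, 5309250, 5316675), (29, 16, 16, 4399440, 1393440), (72, 16, 16, 5308995, 5308995), (29, 16, 16, 4399365, 344865), (72, 16, 16, 5309220, 5251395), (72, 16, 16, 5308980, 5247555)]
  [(29, 12), (72, 24)] = true := by
  decide +kernel

theorem t1_2_7_0 : chkS keys 0 3 p1_2_0 c1_7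
  [(16, 16, 16, 88286736, 40190736), (16, 16, 16, 72558081, 39207681), (73, 16, 16, 105972786, 106041411), (70, 16, 16, 88147506, 40177731), (73, 16, 16, 105972771, 106037571), (70, 16, 16, 88147491, 40173891), (73, 16, 16, 105972546, 105979971), (70, 16, 16, 88146786, 23404611), (16, 16, 16, 88285536, 23413536), (16, 16, 16, 72556641, 22430466), (70, 16, 16, 72417891, 22413891), (73, 16, 16, 90243651, 90243651), (70, 16, 16, 72418086, 5644611), (73, 16, 16, 90243876, 90186051), (70, 16, 16, 72417846, 5640771), (73, 16, 16, 90243636, 90182211), (16, 16, 16, 88285446, 6636321), (16, 16, 16, 72556566, 5653266)]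
  [(16, 12), (70, 12), (73, 12)] = true := by
  decide +kernel

theorem t1_3_3_0 : chkS keys 0 3 p1_3_0 c1_3
  [(74, 16, 16, 105972786, 106041411), (75, 16, 16, 105972786, 106041411), (75, 16, 16, 105972771, 106037571), (75, 16, 16, 105972546, 105979971), (74, 16, 16, 105972546, 105979971), (75, 16, 16, 105972291, 105972291), (75, 16, 16, 105972516, 105914691), (75, 16, 16, 105972276, 105910851), (74, 16, 16, 105972516, 105914691)]
  [(74, 12), (75, 24)] = true := by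
  decide +kernel

theorem t1_3_4_0 : chkS keys 0 3 p1_3_0 c1_4
  [(76, 16, 16, 105972786, 106041411), (77, 16, 16, 105972786, 106041411), (77, 16, 16, 105972771, 106037571), (77, 16, 16, 105972546, 105979971), (76, 16, 16, 105972546, 105979971), (77, 16, 16, 105972291, 105972291), (77, 16, 16, 105972516, 105914691), (77, 16, 16, 105972276, 105910851), (76, 16, 16, 105972516, 105914691)]
  [(76, 12), (77, 24)] = true := by
  decide +kernel

theorem t1_3_5_0 : chkS keys 0 3 p1_3_0 c1_5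
  [(78, 16, 16, 105972786, 106041411), (79, 16, 16, 105972786, 106041411), (78, 16, 16, 105972771, 106037571), (78, 16, 16, 105972546, 105979971), (78, 16, 16, 105972291, 105972291), (79, 16, 16, 105972546, 105979971), (79, 16, 16, 105972516, 105914691), (78, 16, 16, 105972276, 105910851), (78, 16, 16, 105972516, 105914691)]
  [(78, 24), (79, 12)] = true := by
  decide +kernel

theorem t1_3_6_0 : chkS keys 0 3 p1_3_0 c1_6
  [(80, 16, 16, 5309490, 5378115), (80, 16, 16, 5309475, 5374275), (30, 16, 16, 4400400, 2442000), (80, 16, 16, 5309250, 5316675), (30, 16, 16, 4399440, 1393440), (80, 16, 16, 5308995, 5308995), (30, 16, 16, 4399365, 344865), (80, 16, 16, 5309220, 5251395), (80, 16, 16, 5308980, 5247555)]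
  [(30, 12), (80, 24)] = true := by
  decide +kernel

theorem t1_3_7_0 : chkS keys 0 3 p1_3_0 c1_7
  [(81, 16, 16, 105972786, 106041411), (81, 16, 16, 90244131, 90308931), (82, 16, 16, 105972786, 106041411), (83, 16, 16, 105972786, 106041411), (82, 16, 16, 105972771, 106037571), (83, 16, 16, 105972771, 106037571), (82, 16, 16, 105972546, 105979971), (83, 16, 16, 105972546, 105979971), (81, 16, 16, 105972546, 105979971), (81, 16, 16, 90243651, 90243651), (83, 16, 16, 90243651, 90243651), (82, 16, 16, 90243651, 90243651), (83, 16, 16, 90243876, 90186051), (82, 16, 16, 90243876, 90186051), (83, 16, 16, 90243636, 90182211), (82, 16, 16, 90243636, 90182211), (81, 16, 16, 105972516, 105914691), (81, 16, 16, 90243636, 90182211)]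
  [(81, 12), (82, 12), (83, 12)] = true := by
  decide +kernel

theorem t1_4_4_0 : chkS keys 0 3 p1_4_0 c1_4
  [(84, 16, 16, 106173216, 106176816), (50, 16, 16, 54920466, 69558291), (50, 16, 16, 54920481, 69558531), (50, 16, 16, 54919506, 68509731), (84, 16, 16, 106172976, 106172976), (50, 16, 16, 54919761, 68510211), (50, 16, 16, 54919461, 67461411), (50, 16, 16, 54919701, 67461651), (84, 16, 16, 106172931, 106168881)]
  [(50, 24), (84, 12)] = true := by
  decide +kernel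

theorem t1_4_5_0 : chkS keys 0 3 p1_4_0 c1_5
  [(85, 16, 16, 106173216, 106176816), (86, 16, 16, 106173216, 106176816), (85, 16, 16, 70653216, 69620016), (85, 16, 16, 106172976, 106172976), (85, 16, 16, 70652496, 68571696), (86, 16, 16, 106172976, 106172976), (86, 16, 16, 70652421, 67523121), (85, 16, 16, 70652421, 67523121), (85, 16, 16, 106172931, 106168881)]
  [(85, 24), (86, 12)] = true := by
  decide +kernel

theorem t1_4_6_0 : chkS keys 0 3 p1_4_0 c1_6
  [(87, 16, 16, 5509920, 5513520), (87, 16, 16, 5509890, 5513265), (88, 16, 16, 5509920, 5513520), (87, 16, 16, 5509680, 5509680), (88, 16, 16, 5509680, 5509680), (87, 16, 16, 5509170, 5509170), (88, 16, 16, 5509635, 5505585), (87, 16, 16, 5509635, 5505585), (87, 16, 16, 5509155, 5505330)]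
  [(87, 24), (88, 12)] = true := by
  decide +kernel

theorem t1_4_7_0 : chkS keys 0 3 p1_4_0 c1_7
  [(89, 16, 16, 106173216, 106176816), (89, 16, 16, 90444546, 90447921), (90, 16, 16, 106173216, 106176816), (91, 16, 16, 106173216, 106176816), (90, 16, 16, 106173186, 106176561), (91, 16, 16, 106173186, 106176561), (90, 16, 16, 106172976, 106172976), (91, 16, 16, 106172976, 106172976), (89, 16, 16, 106172976, 106172976), (89, 16, 16, 90443826, 90443826), (91, 16, 16, 90443826, 90443826), (90, 16, 16, 90443826, 90443826), (91, 16, 16, 90444291, 90440241), (90, 16, 16, 90444291, 90440241), (91, 16, 16, 90443811, 90439986), (90, 16, 16, 90443811, 90439986), (89, 16, 16, 106172931, 106168881), (89, 16, 16, 90443811, 90439986)]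
  [(89, 12), (90, 12), (91, 12)] = true := by
  decide +kernel

theorem t1_5_5_0 : chkS keys 0 3 p1_5_0 c1_5
  [(92, 16, 16, 106173216, 106176816), (93, 16, 16, 106173216, 106176816), (93, 16, 16, 106172976, 106172976), (93, 16, 16, 106172451, 106168626), (92, 16, 16, 106172466, 106172466), (93, 16, 16, 106172466, 106172466), (93, 16, 16, 106172931, 106168881), (93, 16, 16, 106173186, 106176561), (92, 16, 16, 106173186, 106176561)]
  [(92, 12), (93, 24)] = true := by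
  decide +kernel

theorem t1_5_6_0 : chkS keys 0 3 p1_5_0 c1_6
  [(24, 16, 16, 4526880, 4530480), (94, 16, 16, 5509920, 5513520), (94, 16, 16, 5509680, 5509680), (94, 16, 16, 5509170, 5509170), (94, 16, 16, 5509155, 5505330), (24, 16, 16, 4526130, 4526130), (94, 16, 16, 5509890, 5513265), (24, 16, 16, 4526850, 4530225), (94, 16, 16, 5509635, 5505585)]
  [(24, 12), (94, 24)] = true := by
  decide +kernel

theorem t1_5_7_0 : chkS keys 0 3 p1_5_0 c1_7
  [(95, 16, 16, 106173216, 106176816), (96, 16, 16, 106173216, 106176816), (95, 16, 16, 106172976, 106172976), (96, 16, 16, 106172976, 106172976), (97, 16, 16, 106173216, 106176816), (97, 16, 16, 90444336, 90444336), (97, 16, 16, 106172466, 106172466), (97, 16, 16, 90443811, 90439986), (96, 16, 16, 90443826, 90443826), (95, 16, 16, 90443826, 90443826), (96, 16, 16, 90443811, 90439986), (95, 16, 16, 90443811, 90439986), (96, 16, 16, 90444546, 90447921), (95, 16, 16, 90444546, 90447921),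 (97, 16, 16, 106173186, 106176561), (97, 16, 16, 90444291, 90440241), (95, 16, 16, 106172931, 106168881), (96, 16, 16, 106172931, 106168881)]
  [(95, 12), (96, 12), (97, 12)] = true := by
  decide +kernel

theorem t1_6_6_0 : chkS keys 0 3 p1_6_0 c1_6
  [(35, 16, 16, 136000, 74800), (98, 16, 16, 267040, 270640), (98, 16, 16, 266800, 266800), (98, 16, 16, 267010, 270385), (35, 16, 16, 135940, 9265), (98, 16, 16, 266755, 262705), (98, 16, 16, 266290, 266290), (98, 16, 16, 266275, 262450), (35, 16, 16, 135220, 5170)]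
  [(35, 12), (98, 24)] = true := by
  decide +kernel

theorem t1_6_7_0 : chkS keys 0 3 p1_6_0 c1_7
  [(99, 16, 16, 5509920, 5513520), (100, 16, 16, 5509920, 5513520), (99, 16, 16, 5509680, 5509680), (100, 16, 16, 5509680, 5509680), (101, 16, 16, 5509920, 5513520), (101, 16, 16, 4526640, 4526640), (100, 16, 16, 4526850, 4530225), (99, 16, 16, 4526850, 4530225), (101, 16, 16, 5509890, 5513265), (101, 16, 16, 4526595, 4522545), (99, 16, 16, 5509635, 5505585), (100, 16, 16, 5509635, 5505585), (101, 16, 16, 5509170, 5509170), (101, 16, 16, 4526115, 4522290), (100, 16, 16, 4526130, 4526130), (99, 16, 16, 4526130, 4526130), (100, 16, 16, 4526115, 4522290), (99, 16, 16, 4526115, 4522290)]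
  [(99, 12), (100, 12), (101, 12)] = true := by
  decide +kernel

theorem t1_7_7_0 : chkS keys 0 3 p1_7_0 c1_7
  [(102, 16, 16, 106107936, 106053936), (103, 16, 16, 106107936, 106053936), (75, 16, 16, 104936706, 103100481), (83, 16, 16, 72431106, 39202881), (83, 1, 1, 20267046, 4411746), (104, 16, 16, 106107936, 106053936), (103, 16, 16, 90256386, 90320961), (102, 16, 16, 90256386, 90320961), (83, 1, 1, 20205666, 20205666), (104, 16, 16, 105985026, 106049601), (75, 16, 16, 105059616, 103104816), (83, 16, 16, 72554016, 39207216), (75, 16, 16, 104935506, 102051906), (83, 16, 16, 72429666, 22425666), (102, 16, 16, 106107456, 105988656), (103, 16, 16, 106107456, 105988656), (104, 16, 16, 90378816, 90260016), (83, 1, 1, 51724806, 4416081), (83, 1, 1, 20207106, 36982881), (104, 16, 16, 105984066, 105984066), (103, 16, 16, 90255426, 90255426), (102, 16, 16, 90255426, 90255426), (83, 16, 16, 88281696, 23413296), (75, 16, 16, 73601616,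 85344816), (83, 16, 16, 88158246, 6631746), (75, 16, 16, 73478181, 84291906), (104, 16, 16, 90378756, 90194481), (83, 1, 1, 51724896, 21193296), (102, 16, 16, 106107396, 105923121), (103, 16, 16, 106107396, 105923121), (104, 16, 16, 90255396, 90190146), (83, 1, 1, 51664416, 36987216), (83, 16, 16, 88281606, 6636081), (75, 16, 16, 73601541, 84296241), (103, 16, 16, 90255396, 90190146), (102, 16, 16, 90255396, 90190146)]
  [(75, 6), (83, 12), (102, 6), (103, 6), (104, 6)] = true := by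
  decide +kernel

section

variable {κ ι : Type*} [Fintype κ] [Fintype ι] [Inhabited κ] [Inhabited ι]

def r1_0_0 : List (ℕ × ℤ) := [(6, 12), (7, 24)]

theorem h1_0_0 (E : Env κ ι) : inn E 0 3 c1_0 c1_0 = dotS (ek E keys) r1_0_0 :=
  innS_eqZ E _ _ _ _ _ _ _ (chkS_sound E keys 0 3 _ _ _ _ t1_0_0_0) (by decide +kernel)

def r1_0_1 : List (ℕ × ℤ) := [(8, 24), (9, 12)]

theorem h1_0_1 (E : Env κ ι) : inn E 0 3 c1_0 c1_1 = dotS (ek E keys) r1_0_1 :=
  innS_eqZ E _ _ _ _ _ _ _ (chkS_sound E keys 0 3 _ _ _ _ t1_0_1_0) (by decide +kernel)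

def r1_0_2 : List (ℕ × ℤ) := [(10, 24), (56, 12)]

theorem h1_0_2 (E : Env κ ι) : inn E 0 3 c1_0 c1_2 = dotS (ek E keys) r1_0_2 :=
  innS_eqZ E _ _ _ _ _ _ _ (chkS_sound E keys 0 3 _ _ _ _ t1_0_2_0) (by decide +kernel)

def r1_0_3 : List (ℕ × ℤ) := [(10, 12), (57, 24)]

theorem h1_0_3 (E : Env κ ι) : inn E 0 3 c1_0 c1_3 = dotS (ek E keys) r1_0_3 :=
  innS_eqZ E _ _ _ _ _ _ _ (chkS_sound E keys 0 3 _ _ _ _ t1_0_3_0) (by decide +kernel)

def r1_0_4 : List (ℕ × ℤ) := [(8, 24), (58, 12)]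

theorem h1_0_4 (E : Env κ ι) : inn E 0 3 c1_0 c1_4 = dotS (ek E keys) r1_0_4 :=
  innS_eqZ E _ _ _ _ _ _ _ (chkS_sound E keys 0 3 _ _ _ _ t1_0_4_0) (by decide +kernel)

def r1_0_5 : List (ℕ × ℤ) := [(10, 12), (11, 24)]

theorem h1_0_5 (E : Env κ ι) : inn E 0 3 c1_0 c1_5 = dotS (ek E keys) r1_0_5 :=
  innS_eqZ E _ _ _ _ _ _ _ (chkS_sound E keys 0 3 _ _ _ _ t1_0_5_0) (by decide +kernel)

def r1_0_6 : List (ℕ × ℤ) := [(19, 12), (59, 24)]

theorem h1_0_6 (E : Env κ ι) : inn E 0 3 c1_0 c1_6 = dotS (ek E keys) r1_0_6 :=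
  innS_eqZ E _ _ _ _ _ _ _ (chkS_sound E keys 0 3 _ _ _ _ t1_0_6_0) (by decide +kernel)

def r1_0_7 : List (ℕ × ℤ) := [(11, 12), (57, 12), (60, 12)]

theorem h1_0_7 (E : Env κ ι) : inn E 0 3 c1_0 c1_7 = dotS (ek E keys) r1_0_7 :=
  innS_eqZ E _ _ _ _ _ _ _ (chkS_sound E keys 0 3 _ _ _ _ t1_0_7_0) (by decide +kernel)

def r1_1_1 : List (ℕ × ℤ) := [(12, 12), (47, 24)]

theorem h1_1_1 (E : Env κ ι) : inn E 0 3 c1_1 c1_1 = dotS (ek E keys) r1_1_1 :=
  innS_eqZ E _ _ _ _ _ _ _ (chkS_sound E keys 0 3 _ _ _ _ t1_1_1_0) (by decide +kernel)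

def r1_1_2 : List (ℕ × ℤ) := [(13, 24), (61, 12)]

theorem h1_1_2 (E : Env κ ι) : inn E 0 3 c1_1 c1_2 = dotS (ek E keys) r1_1_2 :=
  innS_eqZ E _ _ _ _ _ _ _ (chkS_sound E keys 0 3 _ _ _ _ t1_1_2_0) (by decide +kernel)

def r1_1_3 : List (ℕ × ℤ) := [(14, 12), (62, 24)]

theorem h1_1_3 (E : Env κ ι) : inn E 0 3 c1_1 c1_3 = dotS (ek E keys) r1_1_3 :=
  innS_eqZ E _ _ _ _ _ _ _ (chkS_sound E keys 0 3 _ _ _ _ t1_1_3_0) (by decide +kernel)

def r1_1_4 : List (ℕ × ℤ) := [(63, 24), (64, 12)]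

theorem h1_1_4 (E : Env κ ι) : inn E 0 3 c1_1 c1_4 = dotS (ek E keys) r1_1_4 :=
  innS_eqZ E _ _ _ _ _ _ _ (chkS_sound E keys 0 3 _ _ _ _ t1_1_4_0) (by decide +kernel)

def r1_1_5 : List (ℕ × ℤ) := [(13, 12), (65, 24)]

theorem h1_1_5 (E : Env κ ι) : inn E 0 3 c1_1 c1_5 = dotS (ek E keys) r1_1_5 :=
  innS_eqZ E _ _ _ _ _ _ _ (chkS_sound E keys 0 3 _ _ _ _ t1_1_5_0) (by decide +kernel)

def r1_1_6 : List (ℕ × ℤ) := [(20, 12), (66, 24)]

theorem h1_1_6 (E : Env κ ι) : inn E 0 3 c1_1 c1_6 = dotS (ek E keys) r1_1_6 :=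
  innS_eqZ E _ _ _ _ _ _ _ (chkS_sound E keys 0 3 _ _ _ _ t1_1_6_0) (by decide +kernel)

def r1_1_7 : List (ℕ × ℤ) := [(49, 12), (62, 12), (67, 12)]

theorem h1_1_7 (E : Env κ ι) : inn E 0 3 c1_1 c1_7 = dotS (ek E keys) r1_1_7 :=
  innS_eqZ E _ _ _ _ _ _ _ (chkS_sound E keys 0 3 _ _ _ _ t1_1_7_0) (by decide +kernel)

def r1_2_2 : List (ℕ × ℤ) := [(54, 24), (68, 12)]

theorem h1_2_2 (E : Env κ ι) : inn E 0 3 c1_2 c1_2 = dotS (ek E keys) r1_2_2 :=
  innS_eqZ E _ _ _ _ _ _ _ (chkS_sound E keys 0 3 _ _ _ _ t1_2_2_0) (by decide +kernel)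

def r1_2_3 : List (ℕ × ℤ) := [(69, 12), (70, 24)]

theorem h1_2_3 (E : Env κ ι) : inn E 0 3 c1_2 c1_3 = dotS (ek E keys) r1_2_3 :=
  innS_eqZ E _ _ _ _ _ _ _ (chkS_sound E keys 0 3 _ _ _ _ t1_2_3_0) (by decide +kernel)

def r1_2_4 : List (ℕ × ℤ) := [(13, 24), (71, 12)]

theorem h1_2_4 (E : Env κ ι) : inn E 0 3 c1_2 c1_4 = dotS (ek E keys) r1_2_4 :=
  innS_eqZ E _ _ _ _ _ _ _ (chkS_sound E keys 0 3 _ _ _ _ t1_2_4_0) (by decide +kernel)

def r1_2_5 : List (ℕ × ℤ) := [(16, 24), (69, 12)]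

theorem h1_2_5 (E : Env κ ι) : inn E 0 3 c1_2 c1_5 = dotS (ek E keys) r1_2_5 :=
  innS_eqZ E _ _ _ _ _ _ _ (chkS_sound E keys 0 3 _ _ _ _ t1_2_5_0) (by decide +kernel)

def r1_2_6 : List (ℕ × ℤ) := [(29, 12), (72, 24)]

theorem h1_2_6 (E : Env κ ι) : inn E 0 3 c1_2 c1_6 = dotS (ek E keys) r1_2_6 :=
  innS_eqZ E _ _ _ _ _ _ _ (chkS_sound E keys 0 3 _ _ _ _ t1_2_6_0) (by decide +kernel)

def r1_2_7 : List (ℕ × ℤ) := [(16, 12), (70, 12), (73, 12)]

theorem h1_2_7 (E : Env κ ι) : inn E 0 3 c1_2 c1_7 = dotS (ek E keys) r1_2_7 :=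
  innS_eqZ E _ _ _ _ _ _ _ (chkS_sound E keys 0 3 _ _ _ _ t1_2_7_0) (by decide +kernel)

def r1_3_3 : List (ℕ × ℤ) := [(74, 12), (75, 24)]

theorem h1_3_3 (E : Env κ ι) : inn E 0 3 c1_3 c1_3 = dotS (ek E keys) r1_3_3 :=
  innS_eqZ E _ _ _ _ _ _ _ (chkS_sound E keys 0 3 _ _ _ _ t1_3_3_0) (by decide +kernel)

def r1_3_4 : List (ℕ × ℤ) := [(76, 12), (77, 24)]

theorem h1_3_4 (E : Env κ ι) : inn E 0 3 c1_3 c1_4 = dotS (ek E keys) r1_3_4 :=
  innS_eqZ E _ _ _ _ _ _ _ (chkS_sound E keys 0 3 _ _ _ _ t1_3_4_0) (by decide +kernel)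

def r1_3_5 : List (ℕ × ℤ) := [(78, 24), (79, 12)]

theorem h1_3_5 (E : Env κ ι) : inn E 0 3 c1_3 c1_5 = dotS (ek E keys) r1_3_5 :=
  innS_eqZ E _ _ _ _ _ _ _ (chkS_sound E keys 0 3 _ _ _ _ t1_3_5_0) (by decide +kernel)

def r1_3_6 : List (ℕ × ℤ) := [(30, 12), (80, 24)]

theorem h1_3_6 (E : Env κ ι) : inn E 0 3 c1_3 c1_6 = dotS (ek E keys) r1_3_6 :=
  innS_eqZ E _ _ _ _ _ _ _ (chkS_sound E keys 0 3 _ _ _ _ t1_3_6_0) (by decide +kernel)

def r1_3_7 : List (ℕ × ℤ) := [(81, 12), (82, 12), (83, 12)]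

theorem h1_3_7 (E : Env κ ι) : inn E 0 3 c1_3 c1_7 = dotS (ek E keys) r1_3_7 :=
  innS_eqZ E _ _ _ _ _ _ _ (chkS_sound E keys 0 3 _ _ _ _ t1_3_7_0) (by decide +kernel)

def r1_4_4 : List (ℕ × ℤ) := [(50, 24), (84, 12)]

theorem h1_4_4 (E : Env κ ι) : inn E 0 3 c1_4 c1_4 = dotS (ek E keys) r1_4_4 :=
  innS_eqZ E _ _ _ _ _ _ _ (chkS_sound E keys 0 3 _ _ _ _ t1_4_4_0) (by decide +kernel)

def r1_4_5 : List (ℕ × ℤ) := [(85, 24), (86, 12)]

theorem h1_4_5 (E : Env κ ι) : inn E 0 3 c1_4 c1_5 = dotS (ek E keys) r1_4_5 :=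
  innS_eqZ E _ _ _ _ _ _ _ (chkS_sound E keys 0 3 _ _ _ _ t1_4_5_0) (by decide +kernel)

def r1_4_6 : List (ℕ × ℤ) := [(87, 24), (88, 12)]

theorem h1_4_6 (E : Env κ ι) : inn E 0 3 c1_4 c1_6 = dotS (ek E keys) r1_4_6 :=
  innS_eqZ E _ _ _ _ _ _ _ (chkS_sound E keys 0 3 _ _ _ _ t1_4_6_0) (by decide +kernel)

def r1_4_7 : List (ℕ × ℤ) := [(89, 12), (90, 12), (91, 12)]

theorem h1_4_7 (E : Env κ ι) : inn E 0 3 c1_4 c1_7 = dotS (ek E keys) r1_4_7 :=
  innS_eqZ E _ _ _ _ _ _ _ (chkS_sound E keys 0 3 _ _ _ _ t1_4_7_0) (by decide +kernel)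

def r1_5_5 : List (ℕ × ℤ) := [(92, 12), (93, 24)]

theorem h1_5_5 (E : Env κ ι) : inn E 0 3 c1_5 c1_5 = dotS (ek E keys) r1_5_5 :=
  innS_eqZ E _ _ _ _ _ _ _ (chkS_sound E keys 0 3 _ _ _ _ t1_5_5_0) (by decide +kernel)

def r1_5_6 : List (ℕ × ℤ) := [(24, 12), (94, 24)]

theorem h1_5_6 (E : Env κ ι) : inn E 0 3 c1_5 c1_6 = dotS (ek E keys) r1_5_6 :=
  innS_eqZ E _ _ _ _ _ _ _ (chkS_sound E keys 0 3 _ _ _ _ t1_5_6_0) (by decide +kernel)

def r1_5_7 : List (ℕ × ℤ) := [(95, 12), (96, 12), (97, 12)]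

theorem h1_5_7 (E : Env κ ι) : inn E 0 3 c1_5 c1_7 = dotS (ek E keys) r1_5_7 :=
  innS_eqZ E _ _ _ _ _ _ _ (chkS_sound E keys 0 3 _ _ _ _ t1_5_7_0) (by decide +kernel)

def r1_6_6 : List (ℕ × ℤ) := [(35, 12), (98, 24)]

theorem h1_6_6 (E : Env κ ι) : inn E 0 3 c1_6 c1_6 = dotS (ek E keys) r1_6_6 :=
  innS_eqZ E _ _ _ _ _ _ _ (chkS_sound E keys 0 3 _ _ _ _ t1_6_6_0) (by decide +kernel)

def r1_6_7 : List (ℕ × ℤ) := [(99, 12), (100, 12), (101, 12)]

theorem h1_6_7 (E : Env κ ι) : inn E 0 3 c1_6 c1_7 = dotS (ek E keys) r1_6_7 :=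
  innS_eqZ E _ _ _ _ _ _ _ (chkS_sound E keys 0 3 _ _ _ _ t1_6_7_0) (by decide +kernel)

def r1_7_7 : List (ℕ × ℤ) := [(75, 6), (83, 12), (102, 6), (103, 6), (104, 6)]

theorem h1_7_7 (E : Env κ ι) : inn E 0 3 c1_7 c1_7 = dotS (ek E keys) r1_7_7 :=
  innS_eqZ E _ _ _ _ _ _ _ (chkS_sound E keys 0 3 _ _ _ _ t1_7_7_0) (by decide +kernel)

theorem row1_0 (E : Env κ ι) : RowS E 0 3 (ek E keys) c1_0 [c1_0, c1_1, c1_2, c1_3, c1_4, c1_5, c1_6, c1_7] [r1_0_0, r1_0_1, r1_0_2, r1_0_3, r1_0_4, r1_0_5, r1_0_6, r1_0_7] :=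
  rowS_cons E _ _ _ _ _ _ _ _ (h1_0_0 E) (rowS_cons E _ _ _ _ _ _ _ _ (h1_0_1 E) (rowS_cons E _ _ _ _ _ _ _ _ (h1_0_2 E) (rowS_cons E _ _ _ _ _ _ _ _ (h1_0_3 E) (rowS_cons E _ _ _ _ _ _ _ _ (h1_0_4 E) (rowS_cons E _ _ _ _ _ _ _ _ (h1_0_5 E) (rowS_cons E _ _ _ _ _ _ _ _ (h1_0_6 E) (rowS_cons E _ _ _ _ _ _ _ _ (h1_0_7 E) (rowS_nil E _ _ _ _))))))))

theorem row1_1 (E : Env κ ι) : RowS E 0 3 (ek E keys) c1_1 [c1_1, c1_2, c1_3, c1_4, c1_5, c1_6, c1_7] [r1_1_1, r1_1_2, r1_1_3, r1_1_4, r1_1_5, r1_1_6, r1_1_7] :=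
  rowS_cons E _ _ _ _ _ _ _ _ (h1_1_1 E) (rowS_cons E _ _ _ _ _ _ _ _ (h1_1_2 E) (rowS_cons E _ _ _ _ _ _ _ _ (h1_1_3 E) (rowS_cons E _ _ _ _ _ _ _ _ (h1_1_4 E) (rowS_cons E _ _ _ _ _ _ _ _ (h1_1_5 E) (rowS_cons E _ _ _ _ _ _ _ _ (h1_1_6 E) (rowS_cons E _ _ _ _ _ _ _ _ (h1_1_7 E) (rowS_nil E _ _ _ _)))))))

theorem row1_2 (E : Env κ ι) : RowS E 0 3 (ek E keys) c1_2 [c1_2, c1_3, c1_4, c1_5, c1_6, c1_7] [r1_2_2, r1_2_3, r1_2_4, r1_2_5, r1_2_6, r1_2_7] :=
  rowS_cons E _ _ _ _ _ _ _ _ (h1_2_2 E) (rowS_cons E _ _ _ _ _ _ _ _ (h1_2_3 E) (rowS_cons E _ _ _ _ _ _ _ _ (h1_2_4 E) (rowS_cons E _ _ _ _ _ _ _ _ (h1_2_5 E) (rowS_cons E _ _ _ _ _ _ _ _ (h1_2_6 E) (rowS_cons E _ _ _ _ _ _ _ _ (h1_2_7 E) (rowS_nil E _ _ _ _))))))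

theorem row1_3 (E : Env κ ι) : RowS E 0 3 (ek E keys) c1_3 [c1_3, c1_4, c1_5, c1_6, c1_7] [r1_3_3, r1_3_4, r1_3_5, r1_3_6, r1_3_7] :=
  rowS_cons E _ _ _ _ _ _ _ _ (h1_3_3 E) (rowS_cons E _ _ _ _ _ _ _ _ (h1_3_4 E) (rowS_cons E _ _ _ _ _ _ _ _ (h1_3_5 E) (rowS_cons E _ _ _ _ _ _ _ _ (h1_3_6 E) (rowS_cons E _ _ _ _ _ _ _ _ (h1_3_7 E) (rowS_nil E _ _ _ _)))))

theorem row1_4 (E : Env κ ι) : RowS E 0 3 (ek E keys) c1_4 [c1_4, c1_5, c1_6, c1_7] [r1_4_4, r1_4_5, r1_4_6, r1_4_7] :=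
  rowS_cons E _ _ _ _ _ _ _ _ (h1_4_4 E) (rowS_cons E _ _ _ _ _ _ _ _ (h1_4_5 E) (rowS_cons E _ _ _ _ _ _ _ _ (h1_4_6 E) (rowS_cons E _ _ _ _ _ _ _ _ (h1_4_7 E) (rowS_nil E _ _ _ _))))

theorem row1_5 (E : Env κ ι) : RowS E 0 3 (ek E keys) c1_5 [c1_5, c1_6, c1_7] [r1_5_5, r1_5_6, r1_5_7] :=
  rowS_cons E _ _ _ _ _ _ _ _ (h1_5_5 E) (rowS_cons E _ _ _ _ _ _ _ _ (h1_5_6 E) (rowS_cons E _ _ _ _ _ _ _ _ (h1_5_7 E) (rowS_nil E _ _ _ _)))

theorem row1_6 (E : Env κ ι) : RowS E 0 3 (ek E keys) c1_6 [c1_6, c1_7] [r1_6_6, r1_6_7] :=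
  rowS_cons E _ _ _ _ _ _ _ _ (h1_6_6 E) (rowS_cons E _ _ _ _ _ _ _ _ (h1_6_7 E) (rowS_nil E _ _ _ _))

theorem row1_7 (E : Env κ ι) : RowS E 0 3 (ek E keys) c1_7 [c1_7] [r1_7_7] :=
  rowS_cons E _ _ _ _ _ _ _ _ (h1_7_7 E) (rowS_nil E _ _ _ _)

def tab1 : List (List (List (ℕ × ℤ))) := [[r1_0_0, r1_0_1, r1_0_2, r1_0_3, r1_0_4, r1_0_5, r1_0_6, r1_0_7], [r1_1_1, r1_1_2, r1_1_3, r1_1_4, r1_1_5, r1_1_6, r1_1_7], [r1_2_2, r1_2_3, r1_2_4, r1_2_5, r1_2_6, r1_2_7], [r1_3_3, r1_3_4, r1_3_5, r1_3_6, r1_3_7], [r1_4_4, r1_4_5, r1_4_6, r1_4_7], [r1_5_5, r1_5_6, r1_5_7], [r1_6_6, r1_6_7], [r1_7_7]]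

theorem tri1 (E : Env κ ι) : TriS E 0 3 (ek E keys) [c1_0, c1_1, c1_2, c1_3, c1_4, c1_5, c1_6, c1_7] tab1 := by
  refine triS_cons E _ _ _ _ _ _ _ (row1_0 E) ?_
  refine triS_cons E _ _ _ _ _ _ _ (row1_1 E) ?_
  refine triS_cons E _ _ _ _ _ _ _ (row1_2 E) ?_
  refine triS_cons E _ _ _ _ _ _ _ (row1_3 E) ?_
  refine triS_cons E _ _ _ _ _ _ _ (row1_4 E) ?_
  refine triS_cons E _ _ _ _ _ _ _ (row1_5 E) ?_
  refine triS_cons E _ _ _ _ _ _ _ (row1_6 E) ?_
  refine triS_cons E _ _ _ _ _ _ _ (row1_7 E) ?_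
  exact triS_nil E _ _ _

def rows1 : List (ℕ × List ℤ) := [(533775052800, [4194304, -5539488, 11749339, -4630659, 42330613, -34132563, -15343558, 3354294]),
  (53091072000, [0, 4194304, 9076587, -43395711, -8334146, -16745303, -1767475, 58339553]),
  (85540147200, [0, 0, 4194304, -11898496, 4150482, -9408089, -2741249, 15568663]),
  (58630348800, [0, 0, 0, 4194304, 2507826, 266093, -441911, -5556568]),
  (25318656000, [0, 0, 0, 0, 4194304, -2777148, -1330105, -526483]),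
  (14249779200, [0, 0, 0, 0, 0, 2097152, 339189, -686616]),
  (35146137600, [0, 0, 0, 0, 0, 0, 1048576, 1137]),
  (89446892919130895155200, [0, 0, 0, 0, 0, 0, 0, 1]),
  (61014884336415436800, [0, 0, 1, 0, 0, 0, 1, 0]),
  (143601029526068812800, [0, 0, 0, 1, -1, 0, 0, 0]),
  (109838262450693427200, [0, 0, 0, 1, 0, 0, 1, 0]),
  (12291606149219606400, [0, 0, 0, 0, 1, 1, 0, 0]),
  (65114020684666368000, [0, 0, 0, 0, 1, 0, -1, 0]),
  (88747852737077913600, [0, 0, 0, 0, 0, 1, -1, 0]),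
  (53922653869669613568000, [1, 0, 0, 0, 0, 0, 0, 0]),
  (53922653869669613568000, [0, 1, 0, 0, 0, 0, 0, 0]),
  (53861638985333198131200, [0, 0, 1, 0, 0, 0, 0, 0]),
  (53669214577692851328000, [0, 0, 0, 1, 0, 0, 0, 0]),
  (53701647213309658780800, [0, 0, 0, 0, 1, 0, 0, 0]),
  (53821614410783316048000, [0, 0, 0, 0, 0, 1, 0, 0]),
  (53594518189138124544000, [0, 0, 0, 0, 0, 0, 1, 0]),
  (53922653869669613568000, [0, 0, 0, 0, 0, 0, 0, 1])]

def M1 : List (List ℤ) := [[9444192688595243158732800, -24803775870381306622771200, 52609189004675166869913600, -20734376167646546205081600, 189540809061748893233971200, -152832977079049504633651200, -68702770668732572447539200, 15019286363534823889305600],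
  [17367293135710029820723200, -65439492276714454233907200, 8057517989964414300979200, -254041438646728805312102400, 194391397925310516225638400, 89949744403198815987302400, 6145889790789567892684800],
  [79618665691399630752000000, -108443859056042924461363200, 525899240529699142825574400, -451014553438246117122969600, -196124710278389181620736000, 109470426248508981432422400],
  [124621832640248982900172800, -178072806209449092470323200, 265174776158283840434688000, 89357489438929874945740800, -319826120469767352672768000],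
  [962490494184502885643980800, -1534825615516760797084320000, -694171102408204675029811200, 109262794939408423100620800],
  [644639310151660372378982400, 566840125470389630552064000, -251154017676756491422003200],
  [126622956920042067433881600, -72876678496737737586278400],
  [209402147521030917538713600]]

def u1 : List ℤ := [0, 0, 0, 0, 0, 0, 113330312263142917904793600, 226660624526285835809587200, 3953688796592822078668800000, -297645310444575679473254400, -820187702848148605186867200, -3487760013534770224535961600, 208407517628520357848678400, 13383730733175358720907673600, 96690215879572971611750400, 0, -9510704167535799033762201600, 0, 0, -824433248024790869370470400, 1079396932838385791847628800, 0, 0, 0, 6802081505644675566624768000, 0, 0, 0, 0, -2353496523340670179448832000, 1072289873267158499348889600, 0, 0, 0, 0, 1519475483040504809206579200, 0, 0, 0, 0, 0, 0, 0, 0, 0, 0, 0, 416815035257040715697356800, 0,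 73750677489474814712217600, 23099771860428069255455539200, 0, 0, 0, 1910847976593591138048000000, 0, 631310268056102002438963200, -317393591661099222250291200, 2274489708740986718807654400, -1648866496049581738740940800, 180231436362417886671667200, -785273907320573450806886400, 267131109248620757935718400, -6096994527521491327490457600, -3048497263760745663745228800, 4665393550207452389415321600, 2158793865676771583695257600, 73750677489474814712217600, 955423988296795569024000000, -6713500949931468499011993600, -1289007502362922409883648000, 6310790886356389713906892800, -4706993046681340358897664000, 1313645114982107777189068800, 1495461991682987794802073600, 4247336868492161094836428800, -2136873674513389109643878400, -4273747349026778219287756800, 6364194627798812170432512000, 3182097313899406085216256000, 2144579746534316998697779200, -3837913445637208232073216000, -3837913445637208232073216000, -1325087675384837221608652800,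 11549885930214034627727769600, -36835814772402259130023680000, -18417907386201129565011840000, -16660106457796912200715468800, -8330053228898456100357734400, 1311153539272901077207449600, 1311153539272901077207449600, 1311153539272901077207449600, 7735671721819924468547788800, 15471343443639848937095577600, 13604163011289351133249536000, -3013848212121077897064038400, -3013848212121077897064038400, -3013848212121077897064038400, 3038950966081009618413158400, -874520141960852851035340800, -874520141960852851035340800, -874520141960852851035340800, 1256412885126185505232281600, 1256412885126185505232281600, 1256412885126185505232281600]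

theorem gr1 : eqM (gramT rows1) M1 = true := by
  decide +kernel

theorem mv1 : eqZ (mval M1 tab1) u1 = true := by
  decide +kernel

theorem nn1 (E : Env κ ι) : 0 ≤ dot (ek E keys) u1 0 :=
  block_nonneg E _ _ _ _ _ (tri1 E) rows1 M1 gr1 u1 mv1

end

def p2_0_0 : Cov := [(2, 1, 2, [(0, [0], [3, 4]), (0, [0], [3, 4]), (1, [], [0, 1]), (3, [], [2])]),
  (-2, 1, 2, [(0, [0], [3, 4]), (0, [0], [3, 4]), (1, [], [1, 2]), (3, [], [0])])]

def c2_0 : Cov := p2_0_0

def p2_1_0 : Cov := [(1, 1, 2, [(0, [0], [3, 4]), (0, [0], [0, 3]), (1, [], [1, 2]), (3, [], [4])]),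
  (-1, 1, 2, [(0, [0], [3, 4]), (0, [0], [2, 3]), (1, [], [0, 1]), (3, [], [4])])]

def c2_1 : Cov := p2_1_0

def p2_2_0 : Cov := [(2, 1, 2, [(0, [0], [3, 4]), (0, [0], [0, 1]), (1, [], [3, 4]), (3, [], [2])]),
  (-2, 1, 2, [(0, [0], [3, 4]), (0, [0], [1, 2]), (1, [], [3, 4]), (3, [], [0])])]

def c2_2 : Cov := p2_2_0

def p2_3_0 : Cov := [(2, 1, 2, [(0, [0], [3, 4]), (0, [0], [0, 1]), (1, [], [2, 3]), (3, [], [4])]),
  (-2, 1, 2, [(0, [0], [3, 4]), (0, [0], [1, 2]), (1, [], [0, 3]), (3, [], [4])])]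

def c2_3 : Cov := p2_3_0

def p2_4_0 : Cov := [(2, 1, 2, [(0, [0], [0, 3]), (0, [0], [1, 3]), (1, [], [2, 4]), (3, [], [4])]),
  (-2, 1, 2, [(0, [0], [1, 3]), (0, [0], [2, 3]), (1, [], [0, 4]), (3, [], [4])])]

def c2_4 : Cov := p2_4_0

def p2_5_0 : Cov := [(1, 1, 2, [(0, [0], [0, 3]), (0, [0], [1, 2]), (1, [], [3, 4]), (3, [], [4])]),
  (-1, 1, 2, [(0, [0], [0, 1]), (0, [0], [2, 3]), (1, [], [3, 4]), (3, [], [4])])]

def c2_5 : Cov := p2_5_0

def p2_6_0 : Cov := [(1, 1, 1, [(0, [0], [0, 3]), (2, [0], [1, 2, 3])]),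
  (-1, 1, 1, [(0, [0], [2, 3]), (2, [0], [0, 1, 3])])]

def c2_6 : Cov := p2_6_0

def p2_7_0 : Cov := [(1, 1, 2, [(0, [0], [0, 3]), (0, [0], [1, 4]), (1, [], [2, 3]), (3, [], [4])]),
  (1, 1, 2, [(0, [0], [0, 3]), (0, [0], [1, 4]), (1, [], [2, 4]), (3, [], [3])]),
  (-1, 1, 2, [(0, [0], [1, 3]), (0, [0], [2, 4]), (1, [], [0, 3]), (3, [], [4])]),
  (-1, 1, 2, [(0, [0], [1, 3]), (0, [0], [2, 4]), (1, [], [0, 4]), (3, [], [3])])]

def c2_7 : Cov := p2_7_0

def p2_8_0 : Cov := [(-1, 1, 2, [(0, [0], [0, 3]), (0, [0], [1, 4]), (1, [], [2, 4]), (3, [], [3])]),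
  (1, 1, 2, [(0, [0], [0, 3]), (0, [0], [2, 4]), (1, [], [1, 3]), (3, [], [4])]),
  (-1, 1, 2, [(0, [0], [0, 3]), (0, [0], [2, 4]), (1, [], [1, 4]), (3, [], [3])]),
  (1, 1, 2, [(0, [0], [1, 3]), (0, [0], [2, 4]), (1, [], [0, 3]), (3, [], [4])])]

def c2_8 : Cov := p2_8_0

theorem t2_0_0_0 : chkS keys 0 3 p2_0_0 c2_0
  [(6, 16, 16, 52495956, 34628931), (7, 16, 16, 52495941, 33645891), (7, 16, 16, 52495686, 2188611), (6, 16, 16, 52495686, 2188611)]
  [(6, 8), (7, -8)] = true := by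
  decide +kernel

theorem t2_0_1_0 : chkS keys 0 3 p2_0_0 c2_1
  [(8, 16, 16, 69273171, 34997571), (9, 16, 16, 52495461, 16934211), (9, 16, 16, 52495956, 34628931), (8, 16, 16, 69272406, 1451331)]
  [(8, 4), (9, -4)] = true := by
  decide +kernel

theorem t2_0_2_0 : chkS keys 0 3 p2_0_0 c2_2
  [(56, 16, 16, 105972786, 106041411), (10, 16, 16, 52495686, 2188611), (10, 16, 16, 52495941, 33645891), (56, 16, 16, 105972516, 105914691)]
  [(10, -8), (56, 8)] = true := by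
  decide +kernel

theorem t2_0_3_0 : chkS keys 0 3 p2_0_0 c2_3
  [(10, 16, 16, 88147506, 40177731), (57, 16, 16, 105972771, 106037571), (57, 16, 16, 105972516, 105914691), (10, 16, 16, 88146726, 6627651)]
  [(10, 8), (57, -8)] = true := by
  decide +kernel

theorem t2_0_4_0 : chkS keys 0 3 p2_0_0 c2_4
  [(58, 16, 16, 105972786, 106041411), (8, 16, 16, 102827061, 100799811), (8, 16, 16, 102827316, 102765891), (58, 16, 16, 105972516, 105914691)]
  [(8, -8), (58, 8)] = true := by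
  decide +kernel

theorem t2_0_5_0 : chkS keys 0 3 p2_0_0 c2_5
  [(11, 16, 16, 103875906, 102846531), (10, 16, 16, 104924466, 103092291), (10, 16, 16, 104923941, 100999491), (11, 16, 16, 103875141, 100749891)]
  [(10, -4), (11, 4)] = true := by
  decide +kernel

theorem t2_0_6_0 : chkS keys 0 3 p2_0_0 c2_6
  [(59, 16, 16, 5309490, 5378115), (19, 16, 16, 2163525, 75075), (19, 16, 16, 2163795, 1180995), (59, 16, 16, 5308980, 5247555)]
  [(19, -4), (59, 4)] = true := by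
  decide +kernel

theorem t2_0_7_0 : chkS keys 0 3 p2_0_0 c2_7
  [(11, 16, 16, 87098946, 39931971), (11, 16, 16, 55641636, 38822211), (60, 16, 16, 105972771, 106037571), (57, 16, 16, 88147491, 40173891), (57, 16, 16, 72418086, 5644611), (60, 16, 16, 90243876, 90186051), (11, 16, 16, 87098406, 6443331), (11, 16, 16, 55640646, 5333571)]
  [(11, 8), (57, -4), (60, -4)] = true := by
  decide +kernel

theorem t2_0_8_0 : chkS keys 0 3 p2_0_0 c2_8
  [(11, 16, 16, 55641636, 38822211), (60, 16, 16, 105972786, 106041411), (57, 16, 16, 88147506, 40177731), (60, 16, 16, 105972771, 106037571), (60, 16, 16, 90243876, 90186051), (57, 16, 16, 72417846, 5640771), (60, 16, 16, 90243636, 90182211), (11, 16, 16, 87098406, 6443331)]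
  [(11, -4), (57, -4), (60, 8)] = true := by
  decide +kernel

theorem t2_1_1_0 : chkS keys 0 3 p2_1_0 c2_1
  [(12, 16, 16, 70387281, 35017731), (47, 16, 16, 104990001, 103093251), (47, 16, 16, 104988981, 100996131), (12, 16, 16, 70386021, 17191971)]
  [(12, 2), (47, -2)] = true := by
  decide +kernel

theorem t2_1_2_0 : chkS keys 0 3 p2_1_0 c2_2
  [(13, 16, 16, 88213041, 40178691), (61, 16, 16, 105972786, 106041411), (61, 16, 16, 105972291, 105972291), (13, 16, 16, 88211766, 6624291)]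
  [(13, 4), (61, -4)] = true := by
  decide +kernel

theorem t2_1_3_0 : chkS keys 0 3 p2_1_0 c2_3
  [(62, 16, 16, 105972786, 106041411), (14, 16, 16, 70387281, 35017731), (14, 16, 16, 70386021, 17191971), (62, 16, 16, 105972276, 105910851)]
  [(14, -4), (62, 4)] = true := by
  decide +kernel

theorem t2_1_4_0 : chkS keys 0 3 p2_1_0 c2_4
  [(63, 16, 16, 105972786, 106041411), (64, 16, 16, 105972786, 106041411), (64, 16, 16, 105972291, 105972291), (63, 16, 16, 105972276, 105910851)]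
  [(63, 4), (64, -4)] = true := by
  decide +kernel

theorem t2_1_5_0 : chkS keys 0 3 p2_1_0 c2_5
  [(13, 16, 16, 103941441, 102847491), (65, 16, 16, 105972786, 106041411), (65, 16, 16, 105972276, 105910851), (13, 16, 16, 103940436, 101733411)]
  [(13, 2), (65, -2)] = true := by
  decide +kernel

theorem t2_1_6_0 : chkS keys 0 3 p2_1_0 c2_6
  [(20, 16, 16, 3278145, 2184195), (66, 16, 16, 5309250, 5316675), (66, 16, 16, 5308995, 5308995), (20, 16, 16, 3277140, 1070115)]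
  [(20, 2), (66, -2)] = true := by
  decide +kernel

theorem t2_1_7_0 : chkS keys 0 3 p2_1_0 c2_7
  [(62, 16, 16, 103875666, 101863491), (67, 16, 16, 105972786, 106041411), (49, 16, 16, 87164001, 23221251), (49, 16, 16, 55707201, 38888451), (49, 16, 16, 87163206, 6378531), (49, 16, 16, 55705956, 22045731), (67, 16, 16, 87097956, 23089731), (62, 16, 16, 56689236, 84959811)]
  [(49, -4), (62, 2), (67, 2)] = true := by
  decide +kernel

theorem t2_1_8_0 : chkS keys 0 3 p2_1_0 c2_8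
  [(67, 16, 16, 105972786, 106041411), (62, 16, 16, 103875906, 102846531), (67, 16, 16, 55641666, 38887491), (49, 16, 16, 87164001, 23221251), (49, 16, 16, 55705956, 22045731), (67, 16, 16, 87097926, 6378051), (62, 16, 16, 56689221, 83976771), (67, 16, 16, 87097956, 23089731)]
  [(49, 2), (62, 2), (67, -4)] = true := by
  decide +kernel

theorem t2_2_2_0 : chkS keys 0 3 p2_2_0 c2_2
  [(68, 16, 16, 105972786, 106041411), (54, 16, 16, 88147491, 40173891), (54, 16, 16, 88146726, 6627651), (68, 16, 16, 105972516, 105914691)]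
  [(54, -8), (68, 8)] = true := by
  decide +kernel

theorem t2_2_3_0 : chkS keys 0 3 p2_2_0 c2_3
  [(69, 16, 16, 105972786, 106041411), (70, 16, 16, 105972771, 106037571), (70, 16, 16, 105972516, 105914691), (69, 16, 16, 105972516, 105914691)]
  [(69, 8), (70, -8)] = true := by
  decide +kernel

theorem t2_2_4_0 : chkS keys 0 3 p2_2_0 c2_4
  [(71, 16, 16, 105972786, 106041411), (13, 1, 1, 101007891, 105054741), (13, 1, 1, 101008146, 105062421), (71, 16, 16, 105972516, 105914691)]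
  [(13, -8), (71, 8)] = true := by
  decide +kernel

theorem t2_2_5_0 : chkS keys 0 3 p2_2_0 c2_5
  [(16, 16, 16, 105063696, 103105296), (69, 16, 16, 72418866, 39194691), (69, 16, 16, 72418086, 5644611), (16, 16, 16, 105062421, 101008146)]
  [(16, 4), (69, -4)] = true := by
  decide +kernel

theorem t2_2_6_0 : chkS keys 0 3 p2_2_0 c2_6
  [(72, 16, 16, 5309490, 5378115), (29, 16, 16, 4400400, 2442000), (29, 16, 16, 4399365, 344865), (72, 16, 16, 5308980, 5247555)]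
  [(29, -4), (72, 4)] = true := by
  decide +kernel

theorem t2_2_7_0 : chkS keys 0 3 p2_2_0 c2_7
  [(16, 16, 16, 88286736, 40190736), (16, 16, 16, 72558081, 39207681), (73, 16, 16, 105972771, 106037571), (70, 16, 16, 88147491, 40173891), (70, 16, 16, 72418086, 5644611), (73, 16, 16, 90243876, 90186051), (16, 16, 16, 88285446, 6636321), (16, 16, 16, 72556566, 5653266)]
  [(16, 8), (70, -4), (73, -4)] = true := by
  decide +kernel

theorem t2_2_8_0 : chkS keys 0 3 p2_2_0 c2_8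
  [(16, 16, 16, 72558081, 39207681), (73, 16, 16, 105972786, 106041411), (70, 16, 16, 88147506, 40177731), (73, 16, 16, 105972771, 106037571), (73, 16, 16, 90243876, 90186051), (70, 16, 16, 72417846, 5640771), (73, 16, 16, 90243636, 90182211), (16, 16, 16, 88285446, 6636321)]
  [(16, -4), (70, -4), (73, 8)] = true := by
  decide +kernel

theorem t2_3_3_0 : chkS keys 0 3 p2_3_0 c2_3
  [(74, 16, 16, 105972786, 106041411), (75, 16, 16, 105972771, 106037571), (75, 16, 16, 105972516, 105914691), (74, 16, 16, 105972516, 105914691)]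
  [(74, 8), (75, -8)] = true := by
  decide +kernel

theorem t2_3_4_0 : chkS keys 0 3 p2_3_0 c2_4
  [(76, 16, 16, 105972786, 106041411), (77, 16, 16, 105972771, 106037571), (77, 16, 16, 105972516, 105914691), (76, 16, 16, 105972516, 105914691)]
  [(76, 8), (77, -8)] = true := by
  decide +kernel

theorem t2_3_5_0 : chkS keys 0 3 p2_3_0 c2_5
  [(78, 16, 16, 105972786, 106041411), (79, 16, 16, 105972786, 106041411), (79, 16, 16, 105972516, 105914691), (78, 16, 16, 105972276, 105910851)]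
  [(78, 4), (79, -4)] = true := by
  decide +kernel

theorem t2_3_6_0 : chkS keys 0 3 p2_3_0 c2_6
  [(80, 16, 16, 5309490, 5378115), (30, 16, 16, 4400400, 2442000), (30, 16, 16, 4399365, 344865), (80, 16, 16, 5308980, 5247555)]
  [(30, -4), (80, 4)] = true := by
  decide +kernel

theorem t2_3_7_0 : chkS keys 0 3 p2_3_0 c2_7
  [(81, 16, 16, 105972786, 106041411), (81, 16, 16, 90244131, 90308931), (82, 16, 16, 105972771, 106037571), (83, 16, 16, 105972771, 106037571), (83, 16, 16, 90243876, 90186051), (82, 16, 16, 90243876, 90186051), (81, 16, 16, 105972516, 105914691), (81, 16, 16, 90243636, 90182211)]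
  [(81, 8), (82, -4), (83, -4)] = true := by
  decide +kernel

theorem t2_3_8_0 : chkS keys 0 3 p2_3_0 c2_8
  [(81, 16, 16, 90244131, 90308931), (82, 16, 16, 105972786, 106041411), (83, 16, 16, 105972786, 106041411), (82, 16, 16, 105972771, 106037571), (82, 16, 16, 90243876, 90186051), (83, 16, 16, 90243636, 90182211), (82, 16, 16, 90243636, 90182211), (81, 16, 16, 105972516, 105914691)]
  [(81, -4), (82, 8), (83, -4)] = true := by
  decide +kernel

theorem t2_4_4_0 : chkS keys 0 3 p2_4_0 c2_4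
  [(84, 16, 16, 106173216, 106176816), (50, 16, 16, 54920481, 69558531), (50, 16, 16, 54919461, 67461411), (84, 16, 16, 106172931, 106168881)]
  [(50, -8), (84, 8)] = true := by
  decide +kernel

theorem t2_4_5_0 : chkS keys 0 3 p2_4_0 c2_5
  [(85, 16, 16, 106173216, 106176816), (86, 16, 16, 106173216, 106176816), (86, 16, 16, 70652421, 67523121), (85, 16, 16, 70652421, 67523121)]
  [(85, 4), (86, -4)] = true := by
  decide +kernel

theorem t2_4_6_0 : chkS keys 0 3 p2_4_0 c2_6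
  [(87, 16, 16, 5509920, 5513520), (88, 16, 16, 5509920, 5513520), (88, 16, 16, 5509635, 5505585), (87, 16, 16, 5509155, 5505330)]
  [(87, 4), (88, -4)] = true := by
  decide +kernel

theorem t2_4_7_0 : chkS keys 0 3 p2_4_0 c2_7
  [(89, 16, 16, 106173216, 106176816), (89, 16, 16, 90444546, 90447921), (90, 16, 16, 106173186, 106176561), (91, 16, 16, 106173186, 106176561), (91, 16, 16, 90444291, 90440241), (90, 16, 16, 90444291, 90440241), (89, 16, 16, 106172931, 106168881), (89, 16, 16, 90443811, 90439986)]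
  [(89, 8), (90, -4), (91, -4)] = true := by
  decide +kernel

theorem t2_4_8_0 : chkS keys 0 3 p2_4_0 c2_8
  [(89, 16, 16, 90444546, 90447921), (90, 16, 16, 106173216, 106176816), (91, 16, 16, 106173216, 106176816), (90, 16, 16, 106173186, 106176561), (90, 16, 16, 90444291, 90440241), (91, 16, 16, 90443811, 90439986), (90, 16, 16, 90443811, 90439986), (89, 16, 16, 106172931, 106168881)]
  [(89, -4), (90, 8), (91, -4)] = true := by
  decide +kernel

theorem t2_5_5_0 : chkS keys 0 3 p2_5_0 c2_5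
  [(92, 16, 16, 106173216, 106176816), (93, 16, 16, 106173216, 106176816), (93, 16, 16, 106172451, 106168626), (92, 16, 16, 106172466, 106172466)]
  [(92, 2), (93, -2)] = true := by
  decide +kernel

theorem t2_5_6_0 : chkS keys 0 3 p2_5_0 c2_6
  [(24, 16, 16, 4526880, 4530480), (94, 16, 16, 5509680, 5509680), (94, 16, 16, 5509170, 5509170), (24, 16, 16, 4526130, 4526130)]
  [(24, 2), (94, -2)] = true := by
  decide +kernel

theorem t2_5_7_0 : chkS keys 0 3 p2_5_0 c2_7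
  [(95, 16, 16, 106173216, 106176816), (96, 16, 16, 106173216, 106176816), (97, 16, 16, 106173216, 106176816), (97, 16, 16, 90444336, 90444336), (97, 16, 16, 106172466, 106172466), (97, 16, 16, 90443811, 90439986), (96, 16, 16, 90443811, 90439986), (95, 16, 16, 90443811, 90439986)]
  [(95, 2), (96, 2), (97, -4)] = true := by
  decide +kernel

theorem t2_5_8_0 : chkS keys 0 3 p2_5_0 c2_8
  [(96, 16, 16, 106173216, 106176816), (95, 16, 16, 106172976, 106172976), (96, 16, 16, 106172976, 106172976), (97, 16, 16, 106173216, 106176816), (97, 16, 16, 90443811, 90439986), (96, 16, 16, 90443826, 90443826), (95, 16, 16, 90443826, 90443826), (96, 16, 16, 90443811, 90439986)]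
  [(95, 2), (96, -4), (97, 2)] = true := by
  decide +kernel

theorem t2_6_6_0 : chkS keys 0 3 p2_6_0 c2_6
  [(35, 16, 16, 136000, 74800), (98, 16, 16, 266800, 266800), (98, 16, 16, 266290, 266290), (35, 16, 16, 135220, 5170)]
  [(35, 2), (98, -2)] = true := by
  decide +kernel

theorem t2_6_7_0 : chkS keys 0 3 p2_6_0 c2_7
  [(99, 16, 16, 5509920, 5513520), (100, 16, 16, 5509920, 5513520), (101, 16, 16, 5509920, 5513520), (101, 16, 16, 4526640, 4526640), (101, 16, 16, 5509170, 5509170), (101, 16, 16, 4526115, 4522290), (100, 16, 16, 4526115, 4522290), (99, 16, 16, 4526115, 4522290)]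
  [(99, 2), (100, 2), (101, -4)] = true := by
  decide +kernel

theorem t2_6_8_0 : chkS keys 0 3 p2_6_0 c2_8
  [(100, 16, 16, 5509920, 5513520), (99, 16, 16, 5509680, 5509680), (100, 16, 16, 5509680, 5509680), (101, 16, 16, 5509920, 5513520), (101, 16, 16, 4526115, 4522290), (100, 16, 16, 4526130, 4526130), (99, 16, 16, 4526130, 4526130), (100, 16, 16, 4526115, 4522290)]
  [(99, 2), (100, -4), (101, 2)] = true := by
  decide +kernel

theorem t2_7_7_0 : chkS keys 0 3 p2_7_0 c2_7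
  [(102, 16, 16, 106107936, 106053936), (103, 16, 16, 106107936, 106053936), (83, 1, 1, 20267046, 4411746), (104, 16, 16, 106107936, 106053936), (103, 16, 16, 90256386, 90320961), (102, 16, 16, 90256386, 90320961), (75, 16, 16, 105059616, 103104816), (83, 16, 16, 72554016, 39207216), (83, 16, 16, 88158246, 6631746), (75, 16, 16, 73478181, 84291906), (102, 16, 16, 106107396, 105923121), (103, 16, 16, 106107396, 105923121), (104, 16, 16, 90255396, 90190146), (83, 1, 1, 51664416, 36987216), (103, 16, 16, 90255396, 90190146), (102, 16, 16, 90255396, 90190146)]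
  [(75, -2), (83, -4), (102, 4), (103, 4), (104, -2)] = true := by
  decide +kernel

theorem t2_7_8_0 : chkS keys 0 3 p2_7_0 c2_8
  [(103, 16, 16, 106107936, 106053936), (75, 16, 16, 104936706, 103100481), (83, 16, 16, 72431106, 39202881), (83, 1, 1, 20267046, 4411746), (102, 16, 16, 90256386, 90320961), (83, 1, 1, 20205666, 20205666), (104, 16, 16, 105985026, 106049601), (75, 16, 16, 105059616, 103104816), (75, 16, 16, 73478181, 84291906), (104, 16, 16, 90378756, 90194481), (83, 1, 1, 51724896, 21193296), (102, 16, 16, 106107396, 105923121), (83, 1, 1, 51664416, 36987216), (83, 16, 16, 88281606, 6636081), (75, 16, 16, 73601541, 84296241), (103, 16, 16, 90255396, 90190146)]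
  [(75, 4), (83, 2), (102, -2), (103, -2), (104, -2)] = true := by
  decide +kernel

theorem t2_8_8_0 : chkS keys 0 3 p2_8_0 c2_8
  [(102, 16, 16, 90256386, 90320961), (83, 1, 1, 20205666, 20205666), (104, 16, 16, 105985026, 106049601), (75, 16, 16, 105059616, 103104816), (83, 16, 16, 72429666, 22425666), (102, 16, 16, 106107456, 105988656), (103, 16, 16, 106107456, 105988656), (104, 16, 16, 90378816, 90260016), (104, 16, 16, 105984066, 105984066), (103, 16, 16, 90255426, 90255426), (102, 16, 16, 90255426, 90255426), (83, 16, 16, 88281696, 23413296), (75, 16, 16, 73478181, 84291906), (104, 16, 16, 90378756, 90194481), (83, 1, 1, 51724896, 21193296), (102, 16, 16, 106107396, 105923121)]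
  [(75, -2), (83, -4), (102, 4), (103, -2), (104, 4)] = true := by
  decide +kernel

section

variable {κ ι : Type*} [Fintype κ] [Fintype ι] [Inhabited κ] [Inhabited ι]

def r2_0_0 : List (ℕ × ℤ) := [(6, 8), (7, -8)]

theorem h2_0_0 (E : Env κ ι) : inn E 0 3 c2_0 c2_0 = dotS (ek E keys) r2_0_0 :=
  innS_eqZ E _ _ _ _ _ _ _ (chkS_sound E keys 0 3 _ _ _ _ t2_0_0_0) (by decide +kernel)

def r2_0_1 : List (ℕ × ℤ) := [(8, 4), (9, -4)]

theorem h2_0_1 (E : Env κ ι) : inn E 0 3 c2_0 c2_1 = dotS (ek E keys) r2_0_1 :=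
  innS_eqZ E _ _ _ _ _ _ _ (chkS_sound E keys 0 3 _ _ _ _ t2_0_1_0) (by decide +kernel)

def r2_0_2 : List (ℕ × ℤ) := [(10, -8), (56, 8)]

theorem h2_0_2 (E : Env κ ι) : inn E 0 3 c2_0 c2_2 = dotS (ek E keys) r2_0_2 :=
  innS_eqZ E _ _ _ _ _ _ _ (chkS_sound E keys 0 3 _ _ _ _ t2_0_2_0) (by decide +kernel)

def r2_0_3 : List (ℕ × ℤ) := [(10, 8), (57, -8)]

theorem h2_0_3 (E : Env κ ι) : inn E 0 3 c2_0 c2_3 = dotS (ek E keys) r2_0_3 :=
  innS_eqZ E _ _ _ _ _ _ _ (chkS_sound E keys 0 3 _ _ _ _ t2_0_3_0) (by decide +kernel)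

def r2_0_4 : List (ℕ × ℤ) := [(8, -8), (58, 8)]

theorem h2_0_4 (E : Env κ ι) : inn E 0 3 c2_0 c2_4 = dotS (ek E keys) r2_0_4 :=
  innS_eqZ E _ _ _ _ _ _ _ (chkS_sound E keys 0 3 _ _ _ _ t2_0_4_0) (by decide +kernel)

def r2_0_5 : List (ℕ × ℤ) := [(10, -4), (11, 4)]

theorem h2_0_5 (E : Env κ ι) : inn E 0 3 c2_0 c2_5 = dotS (ek E keys) r2_0_5 :=
  innS_eqZ E _ _ _ _ _ _ _ (chkS_sound E keys 0 3 _ _ _ _ t2_0_5_0) (by decide +kernel)

def r2_0_6 : List (ℕ × ℤ) := [(19, -4), (59, 4)]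

theorem h2_0_6 (E : Env κ ι) : inn E 0 3 c2_0 c2_6 = dotS (ek E keys) r2_0_6 :=
  innS_eqZ E _ _ _ _ _ _ _ (chkS_sound E keys 0 3 _ _ _ _ t2_0_6_0) (by decide +kernel)

def r2_0_7 : List (ℕ × ℤ) := [(11, 8), (57, -4), (60, -4)]

theorem h2_0_7 (E : Env κ ι) : inn E 0 3 c2_0 c2_7 = dotS (ek E keys) r2_0_7 :=
  innS_eqZ E _ _ _ _ _ _ _ (chkS_sound E keys 0 3 _ _ _ _ t2_0_7_0) (by decide +kernel)

def r2_0_8 : List (ℕ × ℤ) := [(11, -4), (57, -4), (60, 8)]

theorem h2_0_8 (E : Env κ ι) : inn E 0 3 c2_0 c2_8 = dotS (ek E keys) r2_0_8 :=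
  innS_eqZ E _ _ _ _ _ _ _ (chkS_sound E keys 0 3 _ _ _ _ t2_0_8_0) (by decide +kernel)

def r2_1_1 : List (ℕ × ℤ) := [(12, 2), (47, -2)]

theorem h2_1_1 (E : Env κ ι) : inn E 0 3 c2_1 c2_1 = dotS (ek E keys) r2_1_1 :=
  innS_eqZ E _ _ _ _ _ _ _ (chkS_sound E keys 0 3 _ _ _ _ t2_1_1_0) (by decide +kernel)

def r2_1_2 : List (ℕ × ℤ) := [(13, 4), (61, -4)]

theorem h2_1_2 (E : Env κ ι) : inn E 0 3 c2_1 c2_2 = dotS (ek E keys) r2_1_2 :=
  innS_eqZ E _ _ _ _ _ _ _ (chkS_sound E keys 0 3 _ _ _ _ t2_1_2_0) (by decide +kernel)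

def r2_1_3 : List (ℕ × ℤ) := [(14, -4), (62, 4)]

theorem h2_1_3 (E : Env κ ι) : inn E 0 3 c2_1 c2_3 = dotS (ek E keys) r2_1_3 :=
  innS_eqZ E _ _ _ _ _ _ _ (chkS_sound E keys 0 3 _ _ _ _ t2_1_3_0) (by decide +kernel)

def r2_1_4 : List (ℕ × ℤ) := [(63, 4), (64, -4)]

theorem h2_1_4 (E : Env κ ι) : inn E 0 3 c2_1 c2_4 = dotS (ek E keys) r2_1_4 :=
  innS_eqZ E _ _ _ _ _ _ _ (chkS_sound E keys 0 3 _ _ _ _ t2_1_4_0) (by decide +kernel)

def r2_1_5 : List (ℕ × ℤ) := [(13, 2), (65, -2)]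

theorem h2_1_5 (E : Env κ ι) : inn E 0 3 c2_1 c2_5 = dotS (ek E keys) r2_1_5 :=
  innS_eqZ E _ _ _ _ _ _ _ (chkS_sound E keys 0 3 _ _ _ _ t2_1_5_0) (by decide +kernel)

def r2_1_6 : List (ℕ × ℤ) := [(20, 2), (66, -2)]

theorem h2_1_6 (E : Env κ ι) : inn E 0 3 c2_1 c2_6 = dotS (ek E keys) r2_1_6 :=
  innS_eqZ E _ _ _ _ _ _ _ (chkS_sound E keys 0 3 _ _ _ _ t2_1_6_0) (by decide +kernel)

def r2_1_7 : List (ℕ × ℤ) := [(49, -4), (62, 2), (67, 2)]

theorem h2_1_7 (E : Env κ ι) : inn E 0 3 c2_1 c2_7 = dotS (ek E keys) r2_1_7 :=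
  innS_eqZ E _ _ _ _ _ _ _ (chkS_sound E keys 0 3 _ _ _ _ t2_1_7_0) (by decide +kernel)

def r2_1_8 : List (ℕ × ℤ) := [(49, 2), (62, 2), (67, -4)]

theorem h2_1_8 (E : Env κ ι) : inn E 0 3 c2_1 c2_8 = dotS (ek E keys) r2_1_8 :=
  innS_eqZ E _ _ _ _ _ _ _ (chkS_sound E keys 0 3 _ _ _ _ t2_1_8_0) (by decide +kernel)

def r2_2_2 : List (ℕ × ℤ) := [(54, -8), (68, 8)]

theorem h2_2_2 (E : Env κ ι) : inn E 0 3 c2_2 c2_2 = dotS (ek E keys) r2_2_2 :=
  innS_eqZ E _ _ _ _ _ _ _ (chkS_sound E keys 0 3 _ _ _ _ t2_2_2_0) (by decide +kernel)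

def r2_2_3 : List (ℕ × ℤ) := [(69, 8), (70, -8)]

theorem h2_2_3 (E : Env κ ι) : inn E 0 3 c2_2 c2_3 = dotS (ek E keys) r2_2_3 :=
  innS_eqZ E _ _ _ _ _ _ _ (chkS_sound E keys 0 3 _ _ _ _ t2_2_3_0) (by decide +kernel)

def r2_2_4 : List (ℕ × ℤ) := [(13, -8), (71, 8)]

theorem h2_2_4 (E : Env κ ι) : inn E 0 3 c2_2 c2_4 = dotS (ek E keys) r2_2_4 :=
  innS_eqZ E _ _ _ _ _ _ _ (chkS_sound E keys 0 3 _ _ _ _ t2_2_4_0) (by decide +kernel)

def r2_2_5 : List (ℕ × ℤ) := [(16, 4), (69, -4)]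

theorem h2_2_5 (E : Env κ ι) : inn E 0 3 c2_2 c2_5 = dotS (ek E keys) r2_2_5 :=
  innS_eqZ E _ _ _ _ _ _ _ (chkS_sound E keys 0 3 _ _ _ _ t2_2_5_0) (by decide +kernel)

def r2_2_6 : List (ℕ × ℤ) := [(29, -4), (72, 4)]

theorem h2_2_6 (E : Env κ ι) : inn E 0 3 c2_2 c2_6 = dotS (ek E keys) r2_2_6 :=
  innS_eqZ E _ _ _ _ _ _ _ (chkS_sound E keys 0 3 _ _ _ _ t2_2_6_0) (by decide +kernel)

def r2_2_7 : List (ℕ × ℤ) := [(16, 8), (70, -4), (73, -4)]

theorem h2_2_7 (E : Env κ ι) : inn E 0 3 c2_2 c2_7 = dotS (ek E keys) r2_2_7 :=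
  innS_eqZ E _ _ _ _ _ _ _ (chkS_sound E keys 0 3 _ _ _ _ t2_2_7_0) (by decide +kernel)

def r2_2_8 : List (ℕ × ℤ) := [(16, -4), (70, -4), (73, 8)]

theorem h2_2_8 (E : Env κ ι) : inn E 0 3 c2_2 c2_8 = dotS (ek E keys) r2_2_8 :=
  innS_eqZ E _ _ _ _ _ _ _ (chkS_sound E keys 0 3 _ _ _ _ t2_2_8_0) (by decide +kernel)

def r2_3_3 : List (ℕ × ℤ) := [(74, 8), (75, -8)]

theorem h2_3_3 (E : Env κ ι) : inn E 0 3 c2_3 c2_3 = dotS (ek E keys) r2_3_3 :=
  innS_eqZ E _ _ _ _ _ _ _ (chkS_sound E keys 0 3 _ _ _ _ t2_3_3_0) (by decide +kernel)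

def r2_3_4 : List (ℕ × ℤ) := [(76, 8), (77, -8)]

theorem h2_3_4 (E : Env κ ι) : inn E 0 3 c2_3 c2_4 = dotS (ek E keys) r2_3_4 :=
  innS_eqZ E _ _ _ _ _ _ _ (chkS_sound E keys 0 3 _ _ _ _ t2_3_4_0) (by decide +kernel)

def r2_3_5 : List (ℕ × ℤ) := [(78, 4), (79, -4)]

theorem h2_3_5 (E : Env κ ι) : inn E 0 3 c2_3 c2_5 = dotS (ek E keys) r2_3_5 :=
  innS_eqZ E _ _ _ _ _ _ _ (chkS_sound E keys 0 3 _ _ _ _ t2_3_5_0) (by decide +kernel)

def r2_3_6 : List (ℕ × ℤ) := [(30, -4), (80, 4)]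

theorem h2_3_6 (E : Env κ ι) : inn E 0 3 c2_3 c2_6 = dotS (ek E keys) r2_3_6 :=
  innS_eqZ E _ _ _ _ _ _ _ (chkS_sound E keys 0 3 _ _ _ _ t2_3_6_0) (by decide +kernel)

def r2_3_7 : List (ℕ × ℤ) := [(81, 8), (82, -4), (83, -4)]

theorem h2_3_7 (E : Env κ ι) : inn E 0 3 c2_3 c2_7 = dotS (ek E keys) r2_3_7 :=
  innS_eqZ E _ _ _ _ _ _ _ (chkS_sound E keys 0 3 _ _ _ _ t2_3_7_0) (by decide +kernel)

def r2_3_8 : List (ℕ × ℤ) := [(81, -4), (82, 8), (83, -4)]

theorem h2_3_8 (E : Env κ ι) : inn E 0 3 c2_3 c2_8 = dotS (ek E keys) r2_3_8 :=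
  innS_eqZ E _ _ _ _ _ _ _ (chkS_sound E keys 0 3 _ _ _ _ t2_3_8_0) (by decide +kernel)

def r2_4_4 : List (ℕ × ℤ) := [(50, -8), (84, 8)]

theorem h2_4_4 (E : Env κ ι) : inn E 0 3 c2_4 c2_4 = dotS (ek E keys) r2_4_4 :=
  innS_eqZ E _ _ _ _ _ _ _ (chkS_sound E keys 0 3 _ _ _ _ t2_4_4_0) (by decide +kernel)

def r2_4_5 : List (ℕ × ℤ) := [(85, 4), (86, -4)]

theorem h2_4_5 (E : Env κ ι) : inn E 0 3 c2_4 c2_5 = dotS (ek E keys) r2_4_5 :=
  innS_eqZ E _ _ _ _ _ _ _ (chkS_sound E keys 0 3 _ _ _ _ t2_4_5_0) (by decide +kernel)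

def r2_4_6 : List (ℕ × ℤ) := [(87, 4), (88, -4)]

theorem h2_4_6 (E : Env κ ι) : inn E 0 3 c2_4 c2_6 = dotS (ek E keys) r2_4_6 :=
  innS_eqZ E _ _ _ _ _ _ _ (chkS_sound E keys 0 3 _ _ _ _ t2_4_6_0) (by decide +kernel)

def r2_4_7 : List (ℕ × ℤ) := [(89, 8), (90, -4), (91, -4)]

theorem h2_4_7 (E : Env κ ι) : inn E 0 3 c2_4 c2_7 = dotS (ek E keys) r2_4_7 :=
  innS_eqZ E _ _ _ _ _ _ _ (chkS_sound E keys 0 3 _ _ _ _ t2_4_7_0) (by decide +kernel)

def r2_4_8 : List (ℕ × ℤ) := [(89, -4), (90, 8), (91, -4)]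

theorem h2_4_8 (E : Env κ ι) : inn E 0 3 c2_4 c2_8 = dotS (ek E keys) r2_4_8 :=
  innS_eqZ E _ _ _ _ _ _ _ (chkS_sound E keys 0 3 _ _ _ _ t2_4_8_0) (by decide +kernel)

def r2_5_5 : List (ℕ × ℤ) := [(92, 2), (93, -2)]

theorem h2_5_5 (E : Env κ ι) : inn E 0 3 c2_5 c2_5 = dotS (ek E keys) r2_5_5 :=
  innS_eqZ E _ _ _ _ _ _ _ (chkS_sound E keys 0 3 _ _ _ _ t2_5_5_0) (by decide +kernel)

def r2_5_6 : List (ℕ × ℤ) := [(24, 2), (94, -2)]

theorem h2_5_6 (E : Env κ ι) : inn E 0 3 c2_5 c2_6 = dotS (ek E keys) r2_5_6 :=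
  innS_eqZ E _ _ _ _ _ _ _ (chkS_sound E keys 0 3 _ _ _ _ t2_5_6_0) (by decide +kernel)

def r2_5_7 : List (ℕ × ℤ) := [(95, 2), (96, 2), (97, -4)]

theorem h2_5_7 (E : Env κ ι) : inn E 0 3 c2_5 c2_7 = dotS (ek E keys) r2_5_7 :=
  innS_eqZ E _ _ _ _ _ _ _ (chkS_sound E keys 0 3 _ _ _ _ t2_5_7_0) (by decide +kernel)

def r2_5_8 : List (ℕ × ℤ) := [(95, 2), (96, -4), (97, 2)]

theorem h2_5_8 (E : Env κ ι) : inn E 0 3 c2_5 c2_8 = dotS (ek E keys) r2_5_8 :=
  innS_eqZ E _ _ _ _ _ _ _ (chkS_sound E keys 0 3 _ _ _ _ t2_5_8_0) (by decide +kernel)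

def r2_6_6 : List (ℕ × ℤ) := [(35, 2), (98, -2)]

theorem h2_6_6 (E : Env κ ι) : inn E 0 3 c2_6 c2_6 = dotS (ek E keys) r2_6_6 :=
  innS_eqZ E _ _ _ _ _ _ _ (chkS_sound E keys 0 3 _ _ _ _ t2_6_6_0) (by decide +kernel)

def r2_6_7 : List (ℕ × ℤ) := [(99, 2), (100, 2), (101, -4)]

theorem h2_6_7 (E : Env κ ι) : inn E 0 3 c2_6 c2_7 = dotS (ek E keys) r2_6_7 :=
  innS_eqZ E _ _ _ _ _ _ _ (chkS_sound E keys 0 3 _ _ _ _ t2_6_7_0) (by decide +kernel)

def r2_6_8 : List (ℕ × ℤ) := [(99, 2), (100, -4), (101, 2)]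

theorem h2_6_8 (E : Env κ ι) : inn E 0 3 c2_6 c2_8 = dotS (ek E keys) r2_6_8 :=
  innS_eqZ E _ _ _ _ _ _ _ (chkS_sound E keys 0 3 _ _ _ _ t2_6_8_0) (by decide +kernel)

def r2_7_7 : List (ℕ × ℤ) := [(75, -2), (83, -4), (102, 4), (103, 4), (104, -2)]

theorem h2_7_7 (E : Env κ ι) : inn E 0 3 c2_7 c2_7 = dotS (ek E keys) r2_7_7 :=
  innS_eqZ E _ _ _ _ _ _ _ (chkS_sound E keys 0 3 _ _ _ _ t2_7_7_0) (by decide +kernel)

def r2_7_8 : List (ℕ × ℤ) := [(75, 4), (83, 2), (102, -2), (103, -2), (104, -2)]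

theorem h2_7_8 (E : Env κ ι) : inn E 0 3 c2_7 c2_8 = dotS (ek E keys) r2_7_8 :=
  innS_eqZ E _ _ _ _ _ _ _ (chkS_sound E keys 0 3 _ _ _ _ t2_7_8_0) (by decide +kernel)

def r2_8_8 : List (ℕ × ℤ) := [(75, -2), (83, -4), (102, 4), (103, -2), (104, 4)]

theorem h2_8_8 (E : Env κ ι) : inn E 0 3 c2_8 c2_8 = dotS (ek E keys) r2_8_8 :=
  innS_eqZ E _ _ _ _ _ _ _ (chkS_sound E keys 0 3 _ _ _ _ t2_8_8_0) (by decide +kernel)

theorem row2_0 (E : Env κ ι) : RowS E 0 3 (ek E keys) c2_0 [c2_0, c2_1, c2_2, c2_3, c2_4, c2_5, c2_6, c2_7, c2_8] [r2_0_0, r2_0_1, r2_0_2, r2_0_3, r2_0_4, r2_0_5, r2_0_6, r2_0_7, r2_0_8] :=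
  rowS_cons E _ _ _ _ _ _ _ _ (h2_0_0 E) (rowS_cons E _ _ _ _ _ _ _ _ (h2_0_1 E) (rowS_cons E _ _ _ _ _ _ _ _ (h2_0_2 E) (rowS_cons E _ _ _ _ _ _ _ _ (h2_0_3 E) (rowS_cons E _ _ _ _ _ _ _ _ (h2_0_4 E) (rowS_cons E _ _ _ _ _ _ _ _ (h2_0_5 E) (rowS_cons E _ _ _ _ _ _ _ _ (h2_0_6 E) (rowS_cons E _ _ _ _ _ _ _ _ (h2_0_7 E) (rowS_cons E _ _ _ _ _ _ _ _ (h2_0_8 E) (rowS_nil E _ _ _ _)))))))))

theorem row2_1 (E : Env κ ι) : RowS E 0 3 (ek E keys) c2_1 [c2_1, c2_2, c2_3, c2_4, c2_5, c2_6, c2_7, c2_8] [r2_1_1, r2_1_2, r2_1_3, r2_1_4, r2_1_5, r2_1_6, r2_1_7, r2_1_8] :=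
  rowS_cons E _ _ _ _ _ _ _ _ (h2_1_1 E) (rowS_cons E _ _ _ _ _ _ _ _ (h2_1_2 E) (rowS_cons E _ _ _ _ _ _ _ _ (h2_1_3 E) (rowS_cons E _ _ _ _ _ _ _ _ (h2_1_4 E) (rowS_cons E _ _ _ _ _ _ _ _ (h2_1_5 E) (rowS_cons E _ _ _ _ _ _ _ _ (h2_1_6 E) (rowS_cons E _ _ _ _ _ _ _ _ (h2_1_7 E) (rowS_cons E _ _ _ _ _ _ _ _ (h2_1_8 E) (rowS_nil E _ _ _ _))))))))

theorem row2_2 (E : Env κ ι) : RowS E 0 3 (ek E keys) c2_2 [c2_2, c2_3, c2_4, c2_5, c2_6, c2_7, c2_8] [r2_2_2, r2_2_3, r2_2_4, r2_2_5, r2_2_6, r2_2_7, r2_2_8] :=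
  rowS_cons E _ _ _ _ _ _ _ _ (h2_2_2 E) (rowS_cons E _ _ _ _ _ _ _ _ (h2_2_3 E) (rowS_cons E _ _ _ _ _ _ _ _ (h2_2_4 E) (rowS_cons E _ _ _ _ _ _ _ _ (h2_2_5 E) (rowS_cons E _ _ _ _ _ _ _ _ (h2_2_6 E) (rowS_cons E _ _ _ _ _ _ _ _ (h2_2_7 E) (rowS_cons E _ _ _ _ _ _ _ _ (h2_2_8 E) (rowS_nil E _ _ _ _)))))))

theorem row2_3 (E : Env κ ι) : RowS E 0 3 (ek E keys) c2_3 [c2_3, c2_4, c2_5, c2_6, c2_7, c2_8] [r2_3_3, r2_3_4, r2_3_5, r2_3_6, r2_3_7, r2_3_8] :=
  rowS_cons E _ _ _ _ _ _ _ _ (h2_3_3 E) (rowS_cons E _ _ _ _ _ _ _ _ (h2_3_4 E) (rowS_cons E _ _ _ _ _ _ _ _ (h2_3_5 E) (rowS_cons E _ _ _ _ _ _ _ _ (h2_3_6 E) (rowS_cons E _ _ _ _ _ _ _ _ (h2_3_7 E) (rowS_cons E _ _ _ _ _ _ _ _ (h2_3_8 E) (rowS_nil E _ _ _ _))))))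

theorem row2_4 (E : Env κ ι) : RowS E 0 3 (ek E keys) c2_4 [c2_4, c2_5, c2_6, c2_7, c2_8] [r2_4_4, r2_4_5, r2_4_6, r2_4_7, r2_4_8] :=
  rowS_cons E _ _ _ _ _ _ _ _ (h2_4_4 E) (rowS_cons E _ _ _ _ _ _ _ _ (h2_4_5 E) (rowS_cons E _ _ _ _ _ _ _ _ (h2_4_6 E) (rowS_cons E _ _ _ _ _ _ _ _ (h2_4_7 E) (rowS_cons E _ _ _ _ _ _ _ _ (h2_4_8 E) (rowS_nil E _ _ _ _)))))

theorem row2_5 (E : Env κ ι) : RowS E 0 3 (ek E keys) c2_5 [c2_5, c2_6, c2_7, c2_8] [r2_5_5, r2_5_6, r2_5_7, r2_5_8] :=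
  rowS_cons E _ _ _ _ _ _ _ _ (h2_5_5 E) (rowS_cons E _ _ _ _ _ _ _ _ (h2_5_6 E) (rowS_cons E _ _ _ _ _ _ _ _ (h2_5_7 E) (rowS_cons E _ _ _ _ _ _ _ _ (h2_5_8 E) (rowS_nil E _ _ _ _))))

theorem row2_6 (E : Env κ ι) : RowS E 0 3 (ek E keys) c2_6 [c2_6, c2_7, c2_8] [r2_6_6, r2_6_7, r2_6_8] :=
  rowS_cons E _ _ _ _ _ _ _ _ (h2_6_6 E) (rowS_cons E _ _ _ _ _ _ _ _ (h2_6_7 E) (rowS_cons E _ _ _ _ _ _ _ _ (h2_6_8 E) (rowS_nil E _ _ _ _)))

theorem row2_7 (E : Env κ ι) : RowS E 0 3 (ek E keys) c2_7 [c2_7, c2_8] [r2_7_7, r2_7_8] :=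
  rowS_cons E _ _ _ _ _ _ _ _ (h2_7_7 E) (rowS_cons E _ _ _ _ _ _ _ _ (h2_7_8 E) (rowS_nil E _ _ _ _))

theorem row2_8 (E : Env κ ι) : RowS E 0 3 (ek E keys) c2_8 [c2_8] [r2_8_8] :=
  rowS_cons E _ _ _ _ _ _ _ _ (h2_8_8 E) (rowS_nil E _ _ _ _)

def tab2 : List (List (List (ℕ × ℤ))) := [[r2_0_0, r2_0_1, r2_0_2, r2_0_3, r2_0_4, r2_0_5, r2_0_6, r2_0_7, r2_0_8], [r2_1_1, r2_1_2, r2_1_3, r2_1_4, r2_1_5, r2_1_6, r2_1_7, r2_1_8], [r2_2_2, r2_2_3, r2_2_4, r2_2_5, r2_2_6, r2_2_7, r2_2_8], [r2_3_3, r2_3_4, r2_3_5, r2_3_6, r2_3_7, r2_3_8], [r2_4_4, r2_4_5, r2_4_6, r2_4_7, r2_4_8], [r2_5_5, r2_5_6, r2_5_7, r2_5_8], [r2_6_6, r2_6_7, r2_6_8], [r2_7_7, r2_7_8], [r2_8_8]]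

theorem tri2 (E : Env κ ι) : TriS E 0 3 (ek E keys) [c2_0, c2_1, c2_2, c2_3, c2_4, c2_5, c2_6, c2_7, c2_8] tab2 := by
  refine triS_cons E _ _ _ _ _ _ _ (row2_0 E) ?_
  refine triS_cons E _ _ _ _ _ _ _ (row2_1 E) ?_
  refine triS_cons E _ _ _ _ _ _ _ (row2_2 E) ?_
  refine triS_cons E _ _ _ _ _ _ _ (row2_3 E) ?_
  refine triS_cons E _ _ _ _ _ _ _ (row2_4 E) ?_
  refine triS_cons E _ _ _ _ _ _ _ (row2_5 E) ?_
  refine triS_cons E _ _ _ _ _ _ _ (row2_6 E) ?_
  refine triS_cons E _ _ _ _ _ _ _ (row2_7 E) ?_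
  refine triS_cons E _ _ _ _ _ _ _ (row2_8 E) ?_
  exact triS_nil E _ _ _

def rows2 : List (ℕ × List ℤ) := [(54739694592000, [4194304, 1991838, -4232227, 5772460, 924919, -2825546, -1469400, 1022297, 1927232]),
  (49763021414400, [0, 8388608, 1914511, -756489, 1559247, -3469004, -2096394, -757869, 1581711]),
  (12836905574400, [0, 0, 4194304, -2053507, -6104917, 22578076, 8314806, -3566421, 1607444]),
  (5410990080000, [0, 0, 0, 4194304, 2764791, -7929842, -7355936, 5530318, -770096]),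
  (36887961600, [0, 0, 0, 0, 4194304, -12767812, -5777796, 2620676, -1164391]),
  (17368473600, [0, 0, 0, 0, 0, 8388608, 2351998, -936972, 610231]),
  (27869184000, [0, 0, 0, 0, 0, 0, 4194304, -1211195, 254787]),
  (41848012800, [0, 0, 0, 0, 0, 0, 0, 2097152, -359907]),
  (104865416603396525260800, [0, 0, 0, 0, 0, 0, 0, 0, 1]),
  (176009001549417446400, [1, 0, 1, 0, 0, 0, 0, 0, 0]),
  (206372182616240025600, [1, 0, 0, 0, -1, 0, 0, 0, 0]),
  (31053611042259148800, [1, 0, 0, 0, 0, 0, 0, 0, 1]),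
  (871472028223996034400, [0, 2, -1, 0, 0, 0, 0, 0, 0]),
  (196768686779467084800, [0, 2, 0, 0, 1, 0, 0, 0, 0]),
  (459085672905851289600, [0, 1, 0, 0, 0, 0, -1, 0, 0]),
  (1075432269234193048800, [0, 2, 0, 0, 0, 0, 0, 0, -1]),
  (192916258115070225600, [0, 0, 1, 1, 0, 0, 0, 0, 0]),
  (192813793362437529600, [0, 0, 1, 0, 1, 0, 0, 0, 0]),
  (223591604076566784000, [0, 0, 1, 0, 0, 0, -2, 0, 0]),
  (270577605356513740800, [0, 0, 1, 0, 0, 0, 0, 0, -1]),
  (343444901745618777600, [0, 0, 0, 1, 1, 0, 0, 0, 0]),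
  (375575033670952435200, [0, 0, 0, 1, 0, -2, 0, 0, 0]),
  (260073905326770355200, [0, 0, 0, 1, 0, 0, 2, 0, 0]),
  (768218184050240332800, [0, 0, 0, 1, 0, 0, 0, 0, 1]),
  (142454023074283118400, [0, 0, 0, 0, 1, 2, 0, 0, 0]),
  (130277151500567961600, [0, 0, 0, 0, 1, 0, -2, 0, 0]),
  (379054928911875033600, [0, 0, 0, 0, 1, 0, 0, 0, -1]),
  (783088339053429964800, [0, 0, 0, 0, 0, 1, -1, 0, 0]),
  (1829842521007699756800, [0, 0, 0, 0, 0, 2, 0, 0, -1]),
  (514483424752845772800, [0, 0, 0, 0, 0, 0, 2, 1, 0]),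
  (895495905869783961600, [0, 0, 0, 0, 0, 0, 2, 0, 1]),
  (3807487030875584572800, [0, 0, 0, 0, 0, 0, 0, 1, 1]),
  (120911681431306955289600, [1, 0, 0, 0, 0, 0, 0, 0, 0]),
  (476266687296203011680000, [0, 1, 0, 0, 0, 0, 0, 0, 0]),
  (119397735935830870149600, [0, 0, 1, 0, 0, 0, 0, 0, 0]),
  (126001863242070144508800, [0, 0, 0, 1, 0, 0, 0, 0, 0]),
  (119772294363497588241600, [0, 0, 0, 0, 1, 0, 0, 0, 0]),
  (475125890255994316435200, [0, 0, 0, 0, 0, 1, 0, 0, 0]),
  (476141555196494878003200, [0, 0, 0, 0, 0, 0, 1, 0, 0]),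
  (117003145770886441564800, [0, 0, 0, 0, 0, 0, 0, 1, 0]),
  (112267954170166722314400, [0, 0, 0, 0, 0, 0, 0, 0, 1])]

def M2 : List (List ℤ) := [[963112216393202901870182400, 914631772470164343226368000, -1943395286837208132118579200, 2650654983644816930242560000, 424712994852704375677132800, -1297462015573547135533056000, -674733550854868461158400000, 469428395833863796948992000, 884965415776154883031449600],
  [3719421907363726208992051200, 675491492671221510886492800, 627191400414066745452134400, 1503485308610654791021056000, -3512372537650271553419673600, -2070673753118985914064076800, -409806021527335083567513600, 1740804667946293017533443200],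
  [1388833036336646836376371200, -3039894210423493858070390400, -788848860794548714238361600, 3079488525635991967911936000, 1176748261670335089724416000, -1002125575739122332903014400, -418486651046164862083584000],
  [2001926562818492897267803200, 914476425544451823610752000, -3074753793829351540417689600, -1543029361864135862266368000, 1142167952787955039258214400, 979156086913357257012480000],
  [688378760422704835166361600, -4604476846550282391252960000, -1999236395324244361265971200, 711176120420901547419648000, 165261723542419214509747200],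
  [7927713512508251495588659200, 6635527681843936238977843200, -2599242375823967400520089600, -143129947057982808022195200],
  [1519475483040504809206579200, -1209383557441759652919091200, -234990319662114308580556800],
  [415174165671609205506662400, -97198757306921319587308800],
  [364480903707692992094822400]]

def u2 : List ℤ := [0, 0, 0, 0, 0, 0, 7704897731145623214961459200, -7704897731145623214961459200, 260823131059022367488409600, -3658527089880657372905472000, 41942250226150389041021337600, -4974282558727897698666086400, 7438843814727452417984102400, 1988011781740732650613516800, -2508765601656266981808537600, 0, 5974896100815648656757964800, 0, 0, 2698934203419473844633600000, -4141347506237971828128153600, 0, 0, 0, 13271055363687872477955686400, 0, 0, 0, 0, -4706993046681340358897664000, 6172117447456543449065472000, 0, 0, 0, 0, 3038950966081009618413158400, 0, 0, 0, 0, 0, 0, 0, 0, 0, 0, 0, -7438843814727452417984102400,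 0, 5120833422001926369336940800, -5507030083381638681330892800, 0, 0, 0, -11110664290693174691010969600, 0, -15547162294697665056948633600, -26622815115598610161862246400, 3397703958821635005417062400, -2698934203419473844633600000, 5202009742873783876455628800, -2701965970684886043545971200, 5170762894494182849740396800, 6013941234442619164084224000, -6013941234442619164084224000, 7024745075300543106839347200, 4141347506237971828128153600, -7782830714839842237268800000, 11110664290693174691010969600, -36637107785931918736210867200, 30001602590529099644509516800, -6310790886356389713906892800, 4706993046681340358897664000, 660609094587170434943385600, 16015412502547943178142425600, -17963517670534232851694630400, 7315811404355614588886016000, -7315811404355614588886016000, -12299015175317406161670758400, 12299015175317406161670758400, -6172117447456543449065472000, 5220719274650211286015795200, 3264576884155037899066982400,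 -11798313950936300614663334400, 5507030083381638681330892800, -18417907386201129565011840000, 18417907386201129565011840000, -7996945581296977445063884800, 7996945581296977445063884800, 5028362069197535521318195200, -1522610693344252473600614400, -3505751375853283047717580800, 15855427025016502991177318400, -15855427025016502991177318400, -13271055363687872477955686400, -5484744645763900417084569600, -4625964963416003568951398400, 10110709609179903986035968000, -3038950966081009618413158400, -2888747754207747922999296000, -1478805836235062071515955200, 4367553590442809994515251200, 3313017792131051429580556800, 1126132369884893477011622400, 821972798101396196540582400]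

theorem gr2 : eqM (gramT rows2) M2 = true := by
  decide +kernel

theorem mv2 : eqZ (mval M2 tab2) u2 = true := by
  decide +kernel

theorem nn2 (E : Env κ ι) : 0 ≤ dot (ek E keys) u2 0 :=
  block_nonneg E _ _ _ _ _ (tri2 E) rows2 M2 gr2 u2 mv2

end

def p3_0_0 : Cov := [(1, 1, 3, [(0, [1], [1, 2]), (0, [1], [1, 2]), (0, [0], [0, 3]), (3, [], [3])])]

def c3_0 : Cov := p3_0_0

def p3_1_0 : Cov := [(1, 1, 3, [(0, [1], [1, 2]), (0, [1], [1, 3]), (0, [0], [0, 2]), (3, [], [3])])]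

def c3_1 : Cov := p3_1_0

def p3_2_0 : Cov := [(1, 1, 3, [(0, [1], [1, 2]), (0, [1], [0, 1]), (0, [0], [2, 3]), (3, [], [3])])]

def c3_2 : Cov := p3_2_0

def p3_3_0 : Cov := [(1, 1, 3, [(0, [1], [1, 2]), (0, [1], [0, 3]), (0, [0], [1, 2]), (3, [], [3])])]

def c3_3 : Cov := p3_3_0

def p3_4_0 : Cov := [(1, 1, 3, [(0, [1], [1, 2]), (0, [1], [0, 3]), (0, [0], [1, 3]), (3, [], [2])])]

def c3_4 : Cov := p3_4_0

def p3_5_0 : Cov := [(1, 0, 3, [(0, [0], [1, 2]), (1, [], [1, 2]), (1, [], [0, 3]), (3, [], [3])])]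

def c3_5 : Cov := p3_5_0

def p3_6_0 : Cov := [(1, 0, 3, [(0, [0], [1, 2]), (1, [], [1, 3]), (1, [], [0, 2]), (3, [], [3])])]

def c3_6 : Cov := p3_6_0

def p3_7_0 : Cov := [(1, 0, 3, [(0, [0], [1, 2]), (1, [], [1, 3]), (1, [], [0, 3]), (3, [], [2])])]

def c3_7 : Cov := p3_7_0

def p3_8_0 : Cov := [(1, 0, 3, [(0, [0], [0, 1]), (1, [], [1, 2]), (1, [], [2, 3]), (3, [], [3])])]

def c3_8 : Cov := p3_8_0

def p3_9_0 : Cov := [(1, 0, 3, [(0, [0], [0, 1]), (1, [], [2, 3]), (1, [], [2, 3]), (3, [], [1])])]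

def c3_9 : Cov := p3_9_0

def p3_10_0 : Cov := [(1, 0, 2, [(2, [0], [0, 1, 2]), (1, [], [1, 2])])]

def c3_10 : Cov := p3_10_0

theorem t3_0_0_0 : chkS keys 1 1 p3_0_0 c3_0
  [(1, 258, 33, 103960836, 103830561)]
  [(1, 1)] = true := by
  decide +kernel

theorem t3_0_1_0 : chkS keys 1 1 p3_0_0 c3_1
  [(2, 258, 33, 70410501, 50746401)]
  [(2, 1)] = true := by
  decide +kernel

theorem t3_0_2_0 : chkS keys 1 1 p3_0_0 c3_2
  [(105, 513, 513, 106180866, 106180641)]
  [(105, 1)] = true := by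
  decide +kernel

theorem t3_0_3_0 : chkS keys 1 1 p3_0_0 c3_3
  [(106, 513, 513, 106180866, 106180641)]
  [(106, 1)] = true := by
  decide +kernel

theorem t3_0_4_0 : chkS keys 1 1 p3_0_0 c3_4
  [(3, 258, 33, 39084291, 55838241)]
  [(3, 1)] = true := by
  decide +kernel

theorem t3_0_5_0 : chkS keys 1 1 p3_0_0 c3_5
  [(10, 1, 1, 103960836, 103830561)]
  [(10, 1)] = true := by
  decide +kernel

theorem t3_0_6_0 : chkS keys 1 1 p3_0_0 c3_6
  [(11, 1, 1, 102977796, 103826721)]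
  [(11, 1)] = true := by
  decide +kernel

theorem t3_0_7_0 : chkS keys 1 1 p3_0_0 c3_7
  [(57, 1, 1, 54681861, 50684961)]
  [(57, 1)] = true := by
  decide +kernel

theorem t3_0_8_0 : chkS keys 1 1 p3_0_0 c3_8
  [(8, 1, 1, 106119426, 106119201)]
  [(8, 1)] = true := by
  decide +kernel

theorem t3_0_9_0 : chkS keys 1 1 p3_0_0 c3_9
  [(9, 1, 1, 106180866, 106180641)]
  [(9, 1)] = true := by
  decide +kernel

theorem t3_0_10_0 : chkS keys 1 1 p3_0_0 c3_10
  [(19, 1, 1, 5517570, 5517345)]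
  [(19, 1)] = true := by
  decide +kernel

theorem t3_1_1_0 : chkS keys 1 1 p3_1_0 c3_1
  [(107, 513, 513, 106176771, 106169121)]
  [(107, 1)] = true := by
  decide +kernel

theorem t3_1_2_0 : chkS keys 1 1 p3_1_0 c3_2
  [(108, 513, 513, 106176771, 106169121)]
  [(108, 1)] = true := by
  decide +kernel

theorem t3_1_3_0 : chkS keys 1 1 p3_1_0 c3_3
  [(4, 513, 513, 106176771, 106169121)]
  [(4, 1)] = true := by
  decide +kernel

theorem t3_1_4_0 : chkS keys 1 1 p3_1_0 c3_4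
  [(109, 513, 513, 106176771, 106169121)]
  [(109, 1)] = true := by
  decide +kernel

theorem t3_1_5_0 : chkS keys 1 1 p3_1_0 c3_5
  [(13, 1, 1, 106176771, 106169121)]
  [(13, 1)] = true := by
  decide +kernel

theorem t3_1_6_0 : chkS keys 1 1 p3_1_0 c3_6
  [(65, 1, 1, 105189891, 105185841)]
  [(65, 1)] = true := by
  decide +kernel

theorem t3_1_7_0 : chkS keys 1 1 p3_1_0 c3_7
  [(62, 1, 1, 73732611, 88474161)]
  [(62, 1)] = true := by
  decide +kernel

theorem t3_1_8_0 : chkS keys 1 1 p3_1_0 c3_8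
  [(63, 1, 1, 105058821, 101007921)]
  [(63, 1)] = true := by
  decide +kernel

theorem t3_1_9_0 : chkS keys 1 1 p3_1_0 c3_9
  [(12, 1, 1, 106176771, 106169121)]
  [(12, 1)] = true := by
  decide +kernel

theorem t3_1_10_0 : chkS keys 1 1 p3_1_0 c3_10
  [(20, 1, 1, 5513475, 5505825)]
  [(20, 1)] = true := by
  decide +kernel

theorem t3_2_2_0 : chkS keys 1 1 p3_2_0 c3_2
  [(110, 513, 513, 106180866, 106180641)]
  [(110, 1)] = true := by
  decide +kernel

theorem t3_2_3_0 : chkS keys 1 1 p3_2_0 c3_3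
  [(111, 513, 513, 106180866, 106180641)]
  [(111, 1)] = true := by
  decide +kernel

theorem t3_2_4_0 : chkS keys 1 1 p3_2_0 c3_4
  [(112, 513, 513, 106180866, 106180641)]
  [(112, 1)] = true := by
  decide +kernel

theorem t3_2_5_0 : chkS keys 1 1 p3_2_0 c3_5
  [(51, 1, 1, 55861761, 55861761)]
  [(51, 1)] = true := by
  decide +kernel

theorem t3_2_6_0 : chkS keys 1 1 p3_2_0 c3_6
  [(91, 1, 1, 73617426, 87441426)]
  [(91, 1)] = true := by
  decide +kernel

theorem t3_2_7_0 : chkS keys 1 1 p3_2_0 c3_7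
  [(113, 1, 1, 106180866, 106180641)]
  [(113, 1)] = true := by
  decide +kernel

theorem t3_2_8_0 : chkS keys 1 1 p3_2_0 c3_8
  [(89, 1, 1, 70607376, 54940176)]
  [(89, 1)] = true := by
  decide +kernel

theorem t3_2_9_0 : chkS keys 1 1 p3_2_0 c3_9
  [(114, 1, 1, 106180866, 106180641)]
  [(114, 1)] = true := by
  decide +kernel

theorem t3_2_10_0 : chkS keys 1 1 p3_2_0 c3_10
  [(115, 1, 1, 5517570, 5517345)]
  [(115, 1)] = true := by
  decide +kernel

theorem t3_3_3_0 : chkS keys 1 1 p3_3_0 c3_3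
  [(116, 513, 513, 106180866, 106180641)]
  [(116, 1)] = true := by
  decide +kernel

theorem t3_3_4_0 : chkS keys 1 1 p3_3_0 c3_4
  [(5, 528, 528, 40063236, 87049761)]
  [(5, 1)] = true := by
  decide +kernel

theorem t3_3_5_0 : chkS keys 1 1 p3_3_0 c3_5
  [(69, 16, 16, 68182821, 50733396)]
  [(69, 1)] = true := by
  decide +kernel

theorem t3_3_6_0 : chkS keys 1 1 p3_3_0 c3_6
  [(79, 1, 1, 105190176, 105193776)]
  [(79, 1)] = true := by
  decide +kernel

theorem t3_3_7_0 : chkS keys 1 1 p3_3_0 c3_7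
  [(74, 1, 1, 73732896, 88482096)]
  [(74, 1)] = true := by
  decide +kernel

theorem t3_3_8_0 : chkS keys 1 1 p3_3_0 c3_8
  [(117, 1, 1, 106180866, 106180641)]
  [(117, 1)] = true := by
  decide +kernel

theorem t3_3_9_0 : chkS keys 1 1 p3_3_0 c3_9
  [(118, 1, 1, 106180866, 106180641)]
  [(118, 1)] = true := by
  decide +kernel

theorem t3_3_10_0 : chkS keys 1 1 p3_3_0 c3_10
  [(119, 1, 1, 5517570, 5517345)]
  [(119, 1)] = true := by
  decide +kernel

theorem t3_4_4_0 : chkS keys 1 1 p3_4_0 c3_4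
  [(120, 513, 513, 106180866, 106180641)]
  [(120, 1)] = true := by
  decide +kernel

theorem t3_4_5_0 : chkS keys 1 1 p3_4_0 c3_5
  [(16, 16, 16, 103941396, 102781971)]
  [(16, 1)] = true := by
  decide +kernel

theorem t3_4_6_0 : chkS keys 1 1 p3_4_0 c3_6
  [(97, 16, 16, 67184181, 33952581)]
  [(97, 1)] = true := by
  decide +kernel

theorem t3_4_7_0 : chkS keys 1 1 p3_4_0 c3_7
  [(81, 16, 16, 68167221, 33952596)]
  [(81, 1)] = true := by
  decide +kernel

theorem t3_4_8_0 : chkS keys 1 1 p3_4_0 c3_8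
  [(121, 1, 1, 106180866, 106180641)]
  [(121, 1)] = true := by
  decide +kernel

theorem t3_4_9_0 : chkS keys 1 1 p3_4_0 c3_9
  [(15, 1, 1, 106169121, 106176771)]
  [(15, 1)] = true := by
  decide +kernel

theorem t3_4_10_0 : chkS keys 1 1 p3_4_0 c3_10
  [(22, 1, 1, 4522785, 4530435)]
  [(22, 1)] = true := by
  decide +kernel

theorem t3_5_5_0 : chkS keys 1 1 p3_5_0 c3_5
  [(122, 0, 0, 106180866, 106180641)]
  [(122, 1)] = true := by
  decide +kernel

theorem t3_5_6_0 : chkS keys 1 1 p3_5_0 c3_6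
  [(123, 0, 0, 106180866, 106180641)]
  [(123, 1)] = true := by
  decide +kernel

theorem t3_5_7_0 : chkS keys 1 1 p3_5_0 c3_7
  [(124, 0, 0, 106180866, 106180641)]
  [(124, 1)] = true := by
  decide +kernel

theorem t3_5_8_0 : chkS keys 1 1 p3_5_0 c3_8
  [(123, 0, 0, 52781316, 54551841)]
  [(123, 1)] = true := by
  decide +kernel

theorem t3_5_9_0 : chkS keys 1 1 p3_5_0 c3_9
  [(42, 0, 0, 106119426, 106119201)]
  [(42, 1)] = true := by
  decide +kernel

theorem t3_5_10_0 : chkS keys 1 1 p3_5_0 c3_10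
  [(125, 0, 0, 5517570, 5517345)]
  [(125, 1)] = true := by
  decide +kernel

theorem t3_6_6_0 : chkS keys 1 1 p3_6_0 c3_6
  [(126, 0, 0, 106176771, 106169121)]
  [(126, 1)] = true := by
  decide +kernel

theorem t3_6_7_0 : chkS keys 1 1 p3_6_0 c3_7
  [(127, 0, 0, 106176771, 106169121)]
  [(127, 1)] = true := by
  decide +kernel

theorem t3_6_8_0 : chkS keys 1 1 p3_6_0 c3_8
  [(128, 0, 0, 106176771, 106169121)]
  [(128, 1)] = true := by
  decide +kernel

theorem t3_6_9_0 : chkS keys 1 1 p3_6_0 c3_9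
  [(129, 0, 0, 106176771, 106169121)]
  [(129, 1)] = true := by
  decide +kernel

theorem t3_6_10_0 : chkS keys 1 1 p3_6_0 c3_10
  [(130, 0, 0, 5513475, 5505825)]
  [(130, 1)] = true := by
  decide +kernel

theorem t3_7_7_0 : chkS keys 1 1 p3_7_0 c3_7
  [(131, 0, 0, 106176771, 106169121)]
  [(131, 1)] = true := by
  decide +kernel

theorem t3_7_8_0 : chkS keys 1 1 p3_7_0 c3_8
  [(132, 0, 0, 106176771, 106169121)]
  [(132, 1)] = true := by
  decide +kernel

theorem t3_7_9_0 : chkS keys 1 1 p3_7_0 c3_9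
  [(133, 0, 0, 106176771, 106169121)]
  [(133, 1)] = true := by
  decide +kernel

theorem t3_7_10_0 : chkS keys 1 1 p3_7_0 c3_10
  [(134, 0, 0, 5513475, 5505825)]
  [(134, 1)] = true := by
  decide +kernel

theorem t3_8_8_0 : chkS keys 1 1 p3_8_0 c3_8
  [(135, 0, 0, 106181136, 106181136)]
  [(135, 1)] = true := by
  decide +kernel

theorem t3_8_9_0 : chkS keys 1 1 p3_8_0 c3_9
  [(136, 0, 0, 106181136, 106181136)]
  [(136, 1)] = true := by
  decide +kernel

theorem t3_8_10_0 : chkS keys 1 1 p3_8_0 c3_10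
  [(137, 0, 0, 5517840, 5517840)]
  [(137, 1)] = true := by
  decide +kernel

theorem t3_9_9_0 : chkS keys 1 1 p3_9_0 c3_9
  [(41, 0, 0, 106054416, 106112016)]
  [(41, 1)] = true := by
  decide +kernel

theorem t3_9_10_0 : chkS keys 1 1 p3_9_0 c3_10
  [(44, 0, 0, 3298320, 3298320)]
  [(44, 1)] = true := by
  decide +kernel

theorem t3_10_10_0 : chkS keys 1 1 p3_10_0 c3_10
  [(138, 0, 0, 274960, 274960)]
  [(138, 1)] = true := by
  decide +kernel

section

variable {κ ι : Type*} [Fintype κ] [Fintype ι] [Inhabited κ] [Inhabited ι]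

def r3_0_0 : List (ℕ × ℤ) := [(1, 1)]

theorem h3_0_0 (E : Env κ ι) : inn E 1 1 c3_0 c3_0 = dotS (ek E keys) r3_0_0 :=
  innS_eqZ E _ _ _ _ _ _ _ (chkS_sound E keys 1 1 _ _ _ _ t3_0_0_0) (by decide +kernel)

def r3_0_1 : List (ℕ × ℤ) := [(2, 1)]

theorem h3_0_1 (E : Env κ ι) : inn E 1 1 c3_0 c3_1 = dotS (ek E keys) r3_0_1 :=
  innS_eqZ E _ _ _ _ _ _ _ (chkS_sound E keys 1 1 _ _ _ _ t3_0_1_0) (by decide +kernel)

def r3_0_2 : List (ℕ × ℤ) := [(105, 1)]

theorem h3_0_2 (E : Env κ ι) : inn E 1 1 c3_0 c3_2 = dotS (ek E keys) r3_0_2 :=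
  innS_eqZ E _ _ _ _ _ _ _ (chkS_sound E keys 1 1 _ _ _ _ t3_0_2_0) (by decide +kernel)

def r3_0_3 : List (ℕ × ℤ) := [(106, 1)]

theorem h3_0_3 (E : Env κ ι) : inn E 1 1 c3_0 c3_3 = dotS (ek E keys) r3_0_3 :=
  innS_eqZ E _ _ _ _ _ _ _ (chkS_sound E keys 1 1 _ _ _ _ t3_0_3_0) (by decide +kernel)

def r3_0_4 : List (ℕ × ℤ) := [(3, 1)]

theorem h3_0_4 (E : Env κ ι) : inn E 1 1 c3_0 c3_4 = dotS (ek E keys) r3_0_4 :=
  innS_eqZ E _ _ _ _ _ _ _ (chkS_sound E keys 1 1 _ _ _ _ t3_0_4_0) (by decide +kernel)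

def r3_0_5 : List (ℕ × ℤ) := [(10, 1)]

theorem h3_0_5 (E : Env κ ι) : inn E 1 1 c3_0 c3_5 = dotS (ek E keys) r3_0_5 :=
  innS_eqZ E _ _ _ _ _ _ _ (chkS_sound E keys 1 1 _ _ _ _ t3_0_5_0) (by decide +kernel)

def r3_0_6 : List (ℕ × ℤ) := [(11, 1)]

theorem h3_0_6 (E : Env κ ι) : inn E 1 1 c3_0 c3_6 = dotS (ek E keys) r3_0_6 :=
  innS_eqZ E _ _ _ _ _ _ _ (chkS_sound E keys 1 1 _ _ _ _ t3_0_6_0) (by decide +kernel)

def r3_0_7 : List (ℕ × ℤ) := [(57, 1)]

theorem h3_0_7 (E : Env κ ι) : inn E 1 1 c3_0 c3_7 = dotS (ek E keys) r3_0_7 :=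
  innS_eqZ E _ _ _ _ _ _ _ (chkS_sound E keys 1 1 _ _ _ _ t3_0_7_0) (by decide +kernel)

def r3_0_8 : List (ℕ × ℤ) := [(8, 1)]

theorem h3_0_8 (E : Env κ ι) : inn E 1 1 c3_0 c3_8 = dotS (ek E keys) r3_0_8 :=
  innS_eqZ E _ _ _ _ _ _ _ (chkS_sound E keys 1 1 _ _ _ _ t3_0_8_0) (by decide +kernel)

def r3_0_9 : List (ℕ × ℤ) := [(9, 1)]

theorem h3_0_9 (E : Env κ ι) : inn E 1 1 c3_0 c3_9 = dotS (ek E keys) r3_0_9 :=
  innS_eqZ E _ _ _ _ _ _ _ (chkS_sound E keys 1 1 _ _ _ _ t3_0_9_0) (by decide +kernel)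

def r3_0_10 : List (ℕ × ℤ) := [(19, 1)]

theorem h3_0_10 (E : Env κ ι) : inn E 1 1 c3_0 c3_10 = dotS (ek E keys) r3_0_10 :=
  innS_eqZ E _ _ _ _ _ _ _ (chkS_sound E keys 1 1 _ _ _ _ t3_0_10_0) (by decide +kernel)

def r3_1_1 : List (ℕ × ℤ) := [(107, 1)]

theorem h3_1_1 (E : Env κ ι) : inn E 1 1 c3_1 c3_1 = dotS (ek E keys) r3_1_1 :=
  innS_eqZ E _ _ _ _ _ _ _ (chkS_sound E keys 1 1 _ _ _ _ t3_1_1_0) (by decide +kernel)

def r3_1_2 : List (ℕ × ℤ) := [(108, 1)]

theorem h3_1_2 (E : Env κ ι) : inn E 1 1 c3_1 c3_2 = dotS (ek E keys) r3_1_2 :=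
  innS_eqZ E _ _ _ _ _ _ _ (chkS_sound E keys 1 1 _ _ _ _ t3_1_2_0) (by decide +kernel)

def r3_1_3 : List (ℕ × ℤ) := [(4, 1)]

theorem h3_1_3 (E : Env κ ι) : inn E 1 1 c3_1 c3_3 = dotS (ek E keys) r3_1_3 :=
  innS_eqZ E _ _ _ _ _ _ _ (chkS_sound E keys 1 1 _ _ _ _ t3_1_3_0) (by decide +kernel)

def r3_1_4 : List (ℕ × ℤ) := [(109, 1)]

theorem h3_1_4 (E : Env κ ι) : inn E 1 1 c3_1 c3_4 = dotS (ek E keys) r3_1_4 :=
  innS_eqZ E _ _ _ _ _ _ _ (chkS_sound E keys 1 1 _ _ _ _ t3_1_4_0) (by decide +kernel)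

def r3_1_5 : List (ℕ × ℤ) := [(13, 1)]

theorem h3_1_5 (E : Env κ ι) : inn E 1 1 c3_1 c3_5 = dotS (ek E keys) r3_1_5 :=
  innS_eqZ E _ _ _ _ _ _ _ (chkS_sound E keys 1 1 _ _ _ _ t3_1_5_0) (by decide +kernel)

def r3_1_6 : List (ℕ × ℤ) := [(65, 1)]

theorem h3_1_6 (E : Env κ ι) : inn E 1 1 c3_1 c3_6 = dotS (ek E keys) r3_1_6 :=
  innS_eqZ E _ _ _ _ _ _ _ (chkS_sound E keys 1 1 _ _ _ _ t3_1_6_0) (by decide +kernel)

def r3_1_7 : List (ℕ × ℤ) := [(62, 1)]

theorem h3_1_7 (E : Env κ ι) : inn E 1 1 c3_1 c3_7 = dotS (ek E keys) r3_1_7 :=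
  innS_eqZ E _ _ _ _ _ _ _ (chkS_sound E keys 1 1 _ _ _ _ t3_1_7_0) (by decide +kernel)

def r3_1_8 : List (ℕ × ℤ) := [(63, 1)]

theorem h3_1_8 (E : Env κ ι) : inn E 1 1 c3_1 c3_8 = dotS (ek E keys) r3_1_8 :=
  innS_eqZ E _ _ _ _ _ _ _ (chkS_sound E keys 1 1 _ _ _ _ t3_1_8_0) (by decide +kernel)

def r3_1_9 : List (ℕ × ℤ) := [(12, 1)]

theorem h3_1_9 (E : Env κ ι) : inn E 1 1 c3_1 c3_9 = dotS (ek E keys) r3_1_9 :=
  innS_eqZ E _ _ _ _ _ _ _ (chkS_sound E keys 1 1 _ _ _ _ t3_1_9_0) (by decide +kernel)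

def r3_1_10 : List (ℕ × ℤ) := [(20, 1)]

theorem h3_1_10 (E : Env κ ι) : inn E 1 1 c3_1 c3_10 = dotS (ek E keys) r3_1_10 :=
  innS_eqZ E _ _ _ _ _ _ _ (chkS_sound E keys 1 1 _ _ _ _ t3_1_10_0) (by decide +kernel)

def r3_2_2 : List (ℕ × ℤ) := [(110, 1)]

theorem h3_2_2 (E : Env κ ι) : inn E 1 1 c3_2 c3_2 = dotS (ek E keys) r3_2_2 :=
  innS_eqZ E _ _ _ _ _ _ _ (chkS_sound E keys 1 1 _ _ _ _ t3_2_2_0) (by decide +kernel)

def r3_2_3 : List (ℕ × ℤ) := [(111, 1)]

theorem h3_2_3 (E : Env κ ι) : inn E 1 1 c3_2 c3_3 = dotS (ek E keys) r3_2_3 :=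
  innS_eqZ E _ _ _ _ _ _ _ (chkS_sound E keys 1 1 _ _ _ _ t3_2_3_0) (by decide +kernel)

def r3_2_4 : List (ℕ × ℤ) := [(112, 1)]

theorem h3_2_4 (E : Env κ ι) : inn E 1 1 c3_2 c3_4 = dotS (ek E keys) r3_2_4 :=
  innS_eqZ E _ _ _ _ _ _ _ (chkS_sound E keys 1 1 _ _ _ _ t3_2_4_0) (by decide +kernel)

def r3_2_5 : List (ℕ × ℤ) := [(51, 1)]

theorem h3_2_5 (E : Env κ ι) : inn E 1 1 c3_2 c3_5 = dotS (ek E keys) r3_2_5 :=
  innS_eqZ E _ _ _ _ _ _ _ (chkS_sound E keys 1 1 _ _ _ _ t3_2_5_0) (by decide +kernel)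

def r3_2_6 : List (ℕ × ℤ) := [(91, 1)]

theorem h3_2_6 (E : Env κ ι) : inn E 1 1 c3_2 c3_6 = dotS (ek E keys) r3_2_6 :=
  innS_eqZ E _ _ _ _ _ _ _ (chkS_sound E keys 1 1 _ _ _ _ t3_2_6_0) (by decide +kernel)

def r3_2_7 : List (ℕ × ℤ) := [(113, 1)]

theorem h3_2_7 (E : Env κ ι) : inn E 1 1 c3_2 c3_7 = dotS (ek E keys) r3_2_7 :=
  innS_eqZ E _ _ _ _ _ _ _ (chkS_sound E keys 1 1 _ _ _ _ t3_2_7_0) (by decide +kernel)

def r3_2_8 : List (ℕ × ℤ) := [(89, 1)]

theorem h3_2_8 (E : Env κ ι) : inn E 1 1 c3_2 c3_8 = dotS (ek E keys) r3_2_8 :=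
  innS_eqZ E _ _ _ _ _ _ _ (chkS_sound E keys 1 1 _ _ _ _ t3_2_8_0) (by decide +kernel)

def r3_2_9 : List (ℕ × ℤ) := [(114, 1)]

theorem h3_2_9 (E : Env κ ι) : inn E 1 1 c3_2 c3_9 = dotS (ek E keys) r3_2_9 :=
  innS_eqZ E _ _ _ _ _ _ _ (chkS_sound E keys 1 1 _ _ _ _ t3_2_9_0) (by decide +kernel)

def r3_2_10 : List (ℕ × ℤ) := [(115, 1)]

theorem h3_2_10 (E : Env κ ι) : inn E 1 1 c3_2 c3_10 = dotS (ek E keys) r3_2_10 :=
  innS_eqZ E _ _ _ _ _ _ _ (chkS_sound E keys 1 1 _ _ _ _ t3_2_10_0) (by decide +kernel)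

def r3_3_3 : List (ℕ × ℤ) := [(116, 1)]

theorem h3_3_3 (E : Env κ ι) : inn E 1 1 c3_3 c3_3 = dotS (ek E keys) r3_3_3 :=
  innS_eqZ E _ _ _ _ _ _ _ (chkS_sound E keys 1 1 _ _ _ _ t3_3_3_0) (by decide +kernel)

def r3_3_4 : List (ℕ × ℤ) := [(5, 1)]

theorem h3_3_4 (E : Env κ ι) : inn E 1 1 c3_3 c3_4 = dotS (ek E keys) r3_3_4 :=
  innS_eqZ E _ _ _ _ _ _ _ (chkS_sound E keys 1 1 _ _ _ _ t3_3_4_0) (by decide +kernel)

def r3_3_5 : List (ℕ × ℤ) := [(69, 1)]

theorem h3_3_5 (E : Env κ ι) : inn E 1 1 c3_3 c3_5 = dotS (ek E keys) r3_3_5 :=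
  innS_eqZ E _ _ _ _ _ _ _ (chkS_sound E keys 1 1 _ _ _ _ t3_3_5_0) (by decide +kernel)

def r3_3_6 : List (ℕ × ℤ) := [(79, 1)]

theorem h3_3_6 (E : Env κ ι) : inn E 1 1 c3_3 c3_6 = dotS (ek E keys) r3_3_6 :=
  innS_eqZ E _ _ _ _ _ _ _ (chkS_sound E keys 1 1 _ _ _ _ t3_3_6_0) (by decide +kernel)

def r3_3_7 : List (ℕ × ℤ) := [(74, 1)]

theorem h3_3_7 (E : Env κ ι) : inn E 1 1 c3_3 c3_7 = dotS (ek E keys) r3_3_7 :=
  innS_eqZ E _ _ _ _ _ _ _ (chkS_sound E keys 1 1 _ _ _ _ t3_3_7_0) (by decide +kernel)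

def r3_3_8 : List (ℕ × ℤ) := [(117, 1)]

theorem h3_3_8 (E : Env κ ι) : inn E 1 1 c3_3 c3_8 = dotS (ek E keys) r3_3_8 :=
  innS_eqZ E _ _ _ _ _ _ _ (chkS_sound E keys 1 1 _ _ _ _ t3_3_8_0) (by decide +kernel)

def r3_3_9 : List (ℕ × ℤ) := [(118, 1)]

theorem h3_3_9 (E : Env κ ι) : inn E 1 1 c3_3 c3_9 = dotS (ek E keys) r3_3_9 :=
  innS_eqZ E _ _ _ _ _ _ _ (chkS_sound E keys 1 1 _ _ _ _ t3_3_9_0) (by decide +kernel)

def r3_3_10 : List (ℕ × ℤ) := [(119, 1)]

theorem h3_3_10 (E : Env κ ι) : inn E 1 1 c3_3 c3_10 = dotS (ek E keys) r3_3_10 :=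
  innS_eqZ E _ _ _ _ _ _ _ (chkS_sound E keys 1 1 _ _ _ _ t3_3_10_0) (by decide +kernel)

def r3_4_4 : List (ℕ × ℤ) := [(120, 1)]

theorem h3_4_4 (E : Env κ ι) : inn E 1 1 c3_4 c3_4 = dotS (ek E keys) r3_4_4 :=
  innS_eqZ E _ _ _ _ _ _ _ (chkS_sound E keys 1 1 _ _ _ _ t3_4_4_0) (by decide +kernel)

def r3_4_5 : List (ℕ × ℤ) := [(16, 1)]

theorem h3_4_5 (E : Env κ ι) : inn E 1 1 c3_4 c3_5 = dotS (ek E keys) r3_4_5 :=
  innS_eqZ E _ _ _ _ _ _ _ (chkS_sound E keys 1 1 _ _ _ _ t3_4_5_0) (by decide +kernel)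

def r3_4_6 : List (ℕ × ℤ) := [(97, 1)]

theorem h3_4_6 (E : Env κ ι) : inn E 1 1 c3_4 c3_6 = dotS (ek E keys) r3_4_6 :=
  innS_eqZ E _ _ _ _ _ _ _ (chkS_sound E keys 1 1 _ _ _ _ t3_4_6_0) (by decide +kernel)

def r3_4_7 : List (ℕ × ℤ) := [(81, 1)]

theorem h3_4_7 (E : Env κ ι) : inn E 1 1 c3_4 c3_7 = dotS (ek E keys) r3_4_7 :=
  innS_eqZ E _ _ _ _ _ _ _ (chkS_sound E keys 1 1 _ _ _ _ t3_4_7_0) (by decide +kernel)

def r3_4_8 : List (ℕ × ℤ) := [(121, 1)]

theorem h3_4_8 (E : Env κ ι) : inn E 1 1 c3_4 c3_8 = dotS (ek E keys) r3_4_8 :=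
  innS_eqZ E _ _ _ _ _ _ _ (chkS_sound E keys 1 1 _ _ _ _ t3_4_8_0) (by decide +kernel)

def r3_4_9 : List (ℕ × ℤ) := [(15, 1)]

theorem h3_4_9 (E : Env κ ι) : inn E 1 1 c3_4 c3_9 = dotS (ek E keys) r3_4_9 :=
  innS_eqZ E _ _ _ _ _ _ _ (chkS_sound E keys 1 1 _ _ _ _ t3_4_9_0) (by decide +kernel)

def r3_4_10 : List (ℕ × ℤ) := [(22, 1)]

theorem h3_4_10 (E : Env κ ι) : inn E 1 1 c3_4 c3_10 = dotS (ek E keys) r3_4_10 :=
  innS_eqZ E _ _ _ _ _ _ _ (chkS_sound E keys 1 1 _ _ _ _ t3_4_10_0) (by decide +kernel)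

def r3_5_5 : List (ℕ × ℤ) := [(122, 1)]

theorem h3_5_5 (E : Env κ ι) : inn E 1 1 c3_5 c3_5 = dotS (ek E keys) r3_5_5 :=
  innS_eqZ E _ _ _ _ _ _ _ (chkS_sound E keys 1 1 _ _ _ _ t3_5_5_0) (by decide +kernel)

def r3_5_6 : List (ℕ × ℤ) := [(123, 1)]

theorem h3_5_6 (E : Env κ ι) : inn E 1 1 c3_5 c3_6 = dotS (ek E keys) r3_5_6 :=
  innS_eqZ E _ _ _ _ _ _ _ (chkS_sound E keys 1 1 _ _ _ _ t3_5_6_0) (by decide +kernel)

def r3_5_7 : List (ℕ × ℤ) := [(124, 1)]

theorem h3_5_7 (E : Env κ ι) : inn E 1 1 c3_5 c3_7 = dotS (ek E keys) r3_5_7 :=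
  innS_eqZ E _ _ _ _ _ _ _ (chkS_sound E keys 1 1 _ _ _ _ t3_5_7_0) (by decide +kernel)

def r3_5_8 : List (ℕ × ℤ) := [(123, 1)]

theorem h3_5_8 (E : Env κ ι) : inn E 1 1 c3_5 c3_8 = dotS (ek E keys) r3_5_8 :=
  innS_eqZ E _ _ _ _ _ _ _ (chkS_sound E keys 1 1 _ _ _ _ t3_5_8_0) (by decide +kernel)

def r3_5_9 : List (ℕ × ℤ) := [(42, 1)]

theorem h3_5_9 (E : Env κ ι) : inn E 1 1 c3_5 c3_9 = dotS (ek E keys) r3_5_9 :=
  innS_eqZ E _ _ _ _ _ _ _ (chkS_sound E keys 1 1 _ _ _ _ t3_5_9_0) (by decide +kernel)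

def r3_5_10 : List (ℕ × ℤ) := [(125, 1)]

theorem h3_5_10 (E : Env κ ι) : inn E 1 1 c3_5 c3_10 = dotS (ek E keys) r3_5_10 :=
  innS_eqZ E _ _ _ _ _ _ _ (chkS_sound E keys 1 1 _ _ _ _ t3_5_10_0) (by decide +kernel)

def r3_6_6 : List (ℕ × ℤ) := [(126, 1)]

theorem h3_6_6 (E : Env κ ι) : inn E 1 1 c3_6 c3_6 = dotS (ek E keys) r3_6_6 :=
  innS_eqZ E _ _ _ _ _ _ _ (chkS_sound E keys 1 1 _ _ _ _ t3_6_6_0) (by decide +kernel)

def r3_6_7 : List (ℕ × ℤ) := [(127, 1)]

theorem h3_6_7 (E : Env κ ι) : inn E 1 1 c3_6 c3_7 = dotS (ek E keys) r3_6_7 :=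
  innS_eqZ E _ _ _ _ _ _ _ (chkS_sound E keys 1 1 _ _ _ _ t3_6_7_0) (by decide +kernel)

def r3_6_8 : List (ℕ × ℤ) := [(128, 1)]

theorem h3_6_8 (E : Env κ ι) : inn E 1 1 c3_6 c3_8 = dotS (ek E keys) r3_6_8 :=
  innS_eqZ E _ _ _ _ _ _ _ (chkS_sound E keys 1 1 _ _ _ _ t3_6_8_0) (by decide +kernel)

def r3_6_9 : List (ℕ × ℤ) := [(129, 1)]

theorem h3_6_9 (E : Env κ ι) : inn E 1 1 c3_6 c3_9 = dotS (ek E keys) r3_6_9 :=
  innS_eqZ E _ _ _ _ _ _ _ (chkS_sound E keys 1 1 _ _ _ _ t3_6_9_0) (by decide +kernel)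

def r3_6_10 : List (ℕ × ℤ) := [(130, 1)]

theorem h3_6_10 (E : Env κ ι) : inn E 1 1 c3_6 c3_10 = dotS (ek E keys) r3_6_10 :=
  innS_eqZ E _ _ _ _ _ _ _ (chkS_sound E keys 1 1 _ _ _ _ t3_6_10_0) (by decide +kernel)

def r3_7_7 : List (ℕ × ℤ) := [(131, 1)]

theorem h3_7_7 (E : Env κ ι) : inn E 1 1 c3_7 c3_7 = dotS (ek E keys) r3_7_7 :=
  innS_eqZ E _ _ _ _ _ _ _ (chkS_sound E keys 1 1 _ _ _ _ t3_7_7_0) (by decide +kernel)

def r3_7_8 : List (ℕ × ℤ) := [(132, 1)]

theorem h3_7_8 (E : Env κ ι) : inn E 1 1 c3_7 c3_8 = dotS (ek E keys) r3_7_8 :=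
  innS_eqZ E _ _ _ _ _ _ _ (chkS_sound E keys 1 1 _ _ _ _ t3_7_8_0) (by decide +kernel)

def r3_7_9 : List (ℕ × ℤ) := [(133, 1)]

theorem h3_7_9 (E : Env κ ι) : inn E 1 1 c3_7 c3_9 = dotS (ek E keys) r3_7_9 :=
  innS_eqZ E _ _ _ _ _ _ _ (chkS_sound E keys 1 1 _ _ _ _ t3_7_9_0) (by decide +kernel)

def r3_7_10 : List (ℕ × ℤ) := [(134, 1)]

theorem h3_7_10 (E : Env κ ι) : inn E 1 1 c3_7 c3_10 = dotS (ek E keys) r3_7_10 :=
  innS_eqZ E _ _ _ _ _ _ _ (chkS_sound E keys 1 1 _ _ _ _ t3_7_10_0) (by decide +kernel)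

def r3_8_8 : List (ℕ × ℤ) := [(135, 1)]

theorem h3_8_8 (E : Env κ ι) : inn E 1 1 c3_8 c3_8 = dotS (ek E keys) r3_8_8 :=
  innS_eqZ E _ _ _ _ _ _ _ (chkS_sound E keys 1 1 _ _ _ _ t3_8_8_0) (by decide +kernel)

def r3_8_9 : List (ℕ × ℤ) := [(136, 1)]

theorem h3_8_9 (E : Env κ ι) : inn E 1 1 c3_8 c3_9 = dotS (ek E keys) r3_8_9 :=
  innS_eqZ E _ _ _ _ _ _ _ (chkS_sound E keys 1 1 _ _ _ _ t3_8_9_0) (by decide +kernel)

def r3_8_10 : List (ℕ × ℤ) := [(137, 1)]

theorem h3_8_10 (E : Env κ ι) : inn E 1 1 c3_8 c3_10 = dotS (ek E keys) r3_8_10 :=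
  innS_eqZ E _ _ _ _ _ _ _ (chkS_sound E keys 1 1 _ _ _ _ t3_8_10_0) (by decide +kernel)

def r3_9_9 : List (ℕ × ℤ) := [(41, 1)]

theorem h3_9_9 (E : Env κ ι) : inn E 1 1 c3_9 c3_9 = dotS (ek E keys) r3_9_9 :=
  innS_eqZ E _ _ _ _ _ _ _ (chkS_sound E keys 1 1 _ _ _ _ t3_9_9_0) (by decide +kernel)

def r3_9_10 : List (ℕ × ℤ) := [(44, 1)]

theorem h3_9_10 (E : Env κ ι) : inn E 1 1 c3_9 c3_10 = dotS (ek E keys) r3_9_10 :=
  innS_eqZ E _ _ _ _ _ _ _ (chkS_sound E keys 1 1 _ _ _ _ t3_9_10_0) (by decide +kernel)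

def r3_10_10 : List (ℕ × ℤ) := [(138, 1)]

theorem h3_10_10 (E : Env κ ι) : inn E 1 1 c3_10 c3_10 = dotS (ek E keys) r3_10_10 :=
  innS_eqZ E _ _ _ _ _ _ _ (chkS_sound E keys 1 1 _ _ _ _ t3_10_10_0) (by decide +kernel)

theorem row3_0 (E : Env κ ι) : RowS E 1 1 (ek E keys) c3_0 [c3_0, c3_1, c3_2, c3_3, c3_4, c3_5, c3_6, c3_7, c3_8, c3_9, c3_10] [r3_0_0, r3_0_1, r3_0_2, r3_0_3, r3_0_4, r3_0_5, r3_0_6, r3_0_7, r3_0_8, r3_0_9, r3_0_10] :=
  rowS_cons E _ _ _ _ _ _ _ _ (h3_0_0 E) (rowS_cons E _ _ _ _ _ _ _ _ (h3_0_1 E) (rowS_cons E _ _ _ _ _ _ _ _ (h3_0_2 E) (rowS_cons E _ _ _ _ _ _ _ _ (h3_0_3 E) (rowS_cons E _ _ _ _ _ _ _ _ (h3_0_4 E) (rowS_cons E _ _ _ _ _ _ _ _ (h3_0_5 E) (rowS_cons E _ _ _ _ _ _ _ _ (h3_0_6 E) (rowS_cons E _ _ _ _ _ _ _ _ (h3_0_7 E) (rowS_cons E _ _ _ _ _ _ _ _ (h3_0_8 E) (rowS_cons E _ _ _ _ _ _ _ _ (h3_0_9 E) (rowS_cons E _ _ _ _ _ _ _ _ (h3_0_10 E) (rowS_nil E _ _ _ _)))))))))))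

theorem row3_1 (E : Env κ ι) : RowS E 1 1 (ek E keys) c3_1 [c3_1, c3_2, c3_3, c3_4, c3_5, c3_6, c3_7, c3_8, c3_9, c3_10] [r3_1_1, r3_1_2, r3_1_3, r3_1_4, r3_1_5, r3_1_6, r3_1_7, r3_1_8, r3_1_9, r3_1_10] :=
  rowS_cons E _ _ _ _ _ _ _ _ (h3_1_1 E) (rowS_cons E _ _ _ _ _ _ _ _ (h3_1_2 E) (rowS_cons E _ _ _ _ _ _ _ _ (h3_1_3 E) (rowS_cons E _ _ _ _ _ _ _ _ (h3_1_4 E) (rowS_cons E _ _ _ _ _ _ _ _ (h3_1_5 E) (rowS_cons E _ _ _ _ _ _ _ _ (h3_1_6 E) (rowS_cons E _ _ _ _ _ _ _ _ (h3_1_7 E) (rowS_cons E _ _ _ _ _ _ _ _ (h3_1_8 E) (rowS_cons E _ _ _ _ _ _ _ _ (h3_1_9 E) (rowS_cons E _ _ _ _ _ _ _ _ (h3_1_10 E) (rowS_nil E _ _ _ _))))))))))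

theorem row3_2 (E : Env κ ι) : RowS E 1 1 (ek E keys) c3_2 [c3_2, c3_3, c3_4, c3_5, c3_6, c3_7, c3_8, c3_9, c3_10] [r3_2_2, r3_2_3, r3_2_4, r3_2_5, r3_2_6, r3_2_7, r3_2_8, r3_2_9, r3_2_10] :=
  rowS_cons E _ _ _ _ _ _ _ _ (h3_2_2 E) (rowS_cons E _ _ _ _ _ _ _ _ (h3_2_3 E) (rowS_cons E _ _ _ _ _ _ _ _ (h3_2_4 E) (rowS_cons E _ _ _ _ _ _ _ _ (h3_2_5 E) (rowS_cons E _ _ _ _ _ _ _ _ (h3_2_6 E) (rowS_cons E _ _ _ _ _ _ _ _ (h3_2_7 E) (rowS_cons E _ _ _ _ _ _ _ _ (h3_2_8 E) (rowS_cons E _ _ _ _ _ _ _ _ (h3_2_9 E) (rowS_cons E _ _ _ _ _ _ _ _ (h3_2_10 E) (rowS_nil E _ _ _ _)))))))))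

theorem row3_3 (E : Env κ ι) : RowS E 1 1 (ek E keys) c3_3 [c3_3, c3_4, c3_5, c3_6, c3_7, c3_8, c3_9, c3_10] [r3_3_3, r3_3_4, r3_3_5, r3_3_6, r3_3_7, r3_3_8, r3_3_9, r3_3_10] :=
  rowS_cons E _ _ _ _ _ _ _ _ (h3_3_3 E) (rowS_cons E _ _ _ _ _ _ _ _ (h3_3_4 E) (rowS_cons E _ _ _ _ _ _ _ _ (h3_3_5 E) (rowS_cons E _ _ _ _ _ _ _ _ (h3_3_6 E) (rowS_cons E _ _ _ _ _ _ _ _ (h3_3_7 E) (rowS_cons E _ _ _ _ _ _ _ _ (h3_3_8 E) (rowS_cons E _ _ _ _ _ _ _ _ (h3_3_9 E) (rowS_cons E _ _ _ _ _ _ _ _ (h3_3_10 E) (rowS_nil E _ _ _ _))))))))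

theorem row3_4 (E : Env κ ι) : RowS E 1 1 (ek E keys) c3_4 [c3_4, c3_5, c3_6, c3_7, c3_8, c3_9, c3_10] [r3_4_4, r3_4_5, r3_4_6, r3_4_7, r3_4_8, r3_4_9, r3_4_10] :=
  rowS_cons E _ _ _ _ _ _ _ _ (h3_4_4 E) (rowS_cons E _ _ _ _ _ _ _ _ (h3_4_5 E) (rowS_cons E _ _ _ _ _ _ _ _ (h3_4_6 E) (rowS_cons E _ _ _ _ _ _ _ _ (h3_4_7 E) (rowS_cons E _ _ _ _ _ _ _ _ (h3_4_8 E) (rowS_cons E _ _ _ _ _ _ _ _ (h3_4_9 E) (rowS_cons E _ _ _ _ _ _ _ _ (h3_4_10 E) (rowS_nil E _ _ _ _)))))))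

theorem row3_5 (E : Env κ ι) : RowS E 1 1 (ek E keys) c3_5 [c3_5, c3_6, c3_7, c3_8, c3_9, c3_10] [r3_5_5, r3_5_6, r3_5_7, r3_5_8, r3_5_9, r3_5_10] :=
  rowS_cons E _ _ _ _ _ _ _ _ (h3_5_5 E) (rowS_cons E _ _ _ _ _ _ _ _ (h3_5_6 E) (rowS_cons E _ _ _ _ _ _ _ _ (h3_5_7 E) (rowS_cons E _ _ _ _ _ _ _ _ (h3_5_8 E) (rowS_cons E _ _ _ _ _ _ _ _ (h3_5_9 E) (rowS_cons E _ _ _ _ _ _ _ _ (h3_5_10 E) (rowS_nil E _ _ _ _))))))

theorem row3_6 (E : Env κ ι) : RowS E 1 1 (ek E keys) c3_6 [c3_6, c3_7, c3_8, c3_9, c3_10] [r3_6_6, r3_6_7, r3_6_8, r3_6_9, r3_6_10] :=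
  rowS_cons E _ _ _ _ _ _ _ _ (h3_6_6 E) (rowS_cons E _ _ _ _ _ _ _ _ (h3_6_7 E) (rowS_cons E _ _ _ _ _ _ _ _ (h3_6_8 E) (rowS_cons E _ _ _ _ _ _ _ _ (h3_6_9 E) (rowS_cons E _ _ _ _ _ _ _ _ (h3_6_10 E) (rowS_nil E _ _ _ _)))))

theorem row3_7 (E : Env κ ι) : RowS E 1 1 (ek E keys) c3_7 [c3_7, c3_8, c3_9, c3_10] [r3_7_7, r3_7_8, r3_7_9, r3_7_10] :=
  rowS_cons E _ _ _ _ _ _ _ _ (h3_7_7 E) (rowS_cons E _ _ _ _ _ _ _ _ (h3_7_8 E) (rowS_cons E _ _ _ _ _ _ _ _ (h3_7_9 E) (rowS_cons E _ _ _ _ _ _ _ _ (h3_7_10 E) (rowS_nil E _ _ _ _))))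

theorem row3_8 (E : Env κ ι) : RowS E 1 1 (ek E keys) c3_8 [c3_8, c3_9, c3_10] [r3_8_8, r3_8_9, r3_8_10] :=
  rowS_cons E _ _ _ _ _ _ _ _ (h3_8_8 E) (rowS_cons E _ _ _ _ _ _ _ _ (h3_8_9 E) (rowS_cons E _ _ _ _ _ _ _ _ (h3_8_10 E) (rowS_nil E _ _ _ _)))

theorem row3_9 (E : Env κ ι) : RowS E 1 1 (ek E keys) c3_9 [c3_9, c3_10] [r3_9_9, r3_9_10] :=
  rowS_cons E _ _ _ _ _ _ _ _ (h3_9_9 E) (rowS_cons E _ _ _ _ _ _ _ _ (h3_9_10 E) (rowS_nil E _ _ _ _))

theorem row3_10 (E : Env κ ι) : RowS E 1 1 (ek E keys) c3_10 [c3_10] [r3_10_10] :=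
  rowS_cons E _ _ _ _ _ _ _ _ (h3_10_10 E) (rowS_nil E _ _ _ _)

def tab3 : List (List (List (ℕ × ℤ))) := [[r3_0_0, r3_0_1, r3_0_2, r3_0_3, r3_0_4, r3_0_5, r3_0_6, r3_0_7, r3_0_8, r3_0_9, r3_0_10], [r3_1_1, r3_1_2, r3_1_3, r3_1_4, r3_1_5, r3_1_6, r3_1_7, r3_1_8, r3_1_9, r3_1_10], [r3_2_2, r3_2_3, r3_2_4, r3_2_5, r3_2_6, r3_2_7, r3_2_8, r3_2_9, r3_2_10], [r3_3_3, r3_3_4, r3_3_5, r3_3_6, r3_3_7, r3_3_8, r3_3_9, r3_3_10], [r3_4_4, r3_4_5, r3_4_6, r3_4_7, r3_4_8, r3_4_9, r3_4_10], [r3_5_5, r3_5_6, r3_5_7, r3_5_8, r3_5_9, r3_5_10], [r3_6_6, r3_6_7, r3_6_8, r3_6_9, r3_6_10], [r3_7_7, r3_7_8, r3_7_9, r3_7_10], [r3_8_8, r3_8_9, r3_8_10], [r3_9_9, r3_9_10], [r3_10_10]]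

theorem tri3 (E : Env κ ι) : TriS E 1 1 (ek E keys) [c3_0, c3_1, c3_2, c3_3, c3_4, c3_5, c3_6, c3_7, c3_8, c3_9, c3_10] tab3 := by
  refine triS_cons E _ _ _ _ _ _ _ (row3_0 E) ?_
  refine triS_cons E _ _ _ _ _ _ _ (row3_1 E) ?_
  refine triS_cons E _ _ _ _ _ _ _ (row3_2 E) ?_
  refine triS_cons E _ _ _ _ _ _ _ (row3_3 E) ?_
  refine triS_cons E _ _ _ _ _ _ _ (row3_4 E) ?_
  refine triS_cons E _ _ _ _ _ _ _ (row3_5 E) ?_
  refine triS_cons E _ _ _ _ _ _ _ (row3_6 E) ?_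
  refine triS_cons E _ _ _ _ _ _ _ (row3_7 E) ?_
  refine triS_cons E _ _ _ _ _ _ _ (row3_8 E) ?_
  refine triS_cons E _ _ _ _ _ _ _ (row3_9 E) ?_
  refine triS_cons E _ _ _ _ _ _ _ (row3_10 E) ?_
  exact triS_nil E _ _ _

def rows3 : List (ℕ × List ℤ) := [(872704740556800, [4194304, -4337634, -3132121, -1340813, 4918600, 519573, 630769, -1050530, 406318, 1706587, -1462320]),
  (1124499456000, [0, 4194304, -9156026, -41570657, -28419027, -8763001, 11088577, -33167760, 813163, 13566406, 28807342]),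
  (1243938816000, [0, 0, 4194304, 15313089, 9288834, 3065784, -4139838, 12213893, -376381, -5253922, -10128091]),
  (1356211814400, [0, 0, 0, 4194304, 2800215, 848349, -1053957, 3165198, -71839, -1275285, -2785078]),
  (163145318400, [0, 0, 0, 0, 4194304, 464028, -269429, 1012341, 68980, -99139, -1465020]),
  (75821875200, [0, 0, 0, 0, 0, 4194304, -135495, 417323, -4154, -150318, -400374]),
  (77856768000, [0, 0, 0, 0, 0, 0, 4194304, -645111, 35944, 332443, 432727]),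
  (423257702400, [0, 0, 0, 0, 0, 0, 0, 2097152, -30261, -310569, -462884]),
  (4722366873600, [0, 0, 0, 0, 0, 0, 0, 0, 524288, 6822, -403]),
  (80334028800, [0, 0, 0, 0, 0, 0, 0, 0, 0, 4194304, 266981]),
  (1586016467812409042534400, [0, 0, 0, 0, 0, 0, 0, 0, 0, 0, 1]),
  (288674158788505497600, [1, -1, 0, 0, 0, 0, 0, 0, 0, 0, 0]),
  (694758093949617868800, [1, 0, 1, 0, 0, 0, 0, 0, 0, 0, 0]),
  (546726326842552550400, [1, 0, 0, 1, 0, 0, 0, 0, 0, 0, 0]),
  (1974884406320841062400, [1, 0, 0, 0, -1, 0, 0, 0, 0, 0, 0]),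
  (1236085598672868499200, [1, 0, 0, 0, 0, 0, 0, 1, 0, 0, 0]),
  (390583449311236468992, [1, 0, 0, 0, 0, 0, 0, 0, 0, -1, 0]),
  (890846881804265472000, [1, 0, 0, 0, 0, 0, 0, 0, 0, 0, 1]),
  (1921018298867766374400, [0, 1, 1, 0, 0, 0, 0, 0, 0, 0, 0]),
  (8190368123268495859200, [0, 1, 0, 1, 0, 0, 0, 0, 0, 0, 0]),
  (1187678414730463718400, [0, 1, 0, 0, 1, 0, 0, 0, 0, 0, 0]),
  (9922517205833179180800, [0, 1, 0, 0, 0, 1, 0, 0, 0, 0, 0]),
  (386095481394390835200, [0, 1, 0, 0, 0, 0, -1, 0, 0, 0, 0]),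
  (12795306780626805024000, [0, 1, 0, 0, 0, 0, 0, 1, 0, 0, 0]),
  (684954751869268070400, [0, 1, 0, 0, 0, 0, 0, 0, -1, 0, 0]),
  (2272470830485807449600, [0, 1, 0, 0, 0, 0, 0, 0, 0, -1, 0]),
  (6046324927850605363200, [0, 1, 0, 0, 0, 0, 0, 0, 0, 0, -1]),
  (6929829873196409548800, [0, 0, 1, -1, 0, 0, 0, 0, 0, 0, 0]),
  (1716505913685093580800, [0, 0, 1, 0, 1, 0, 0, 0, 0, 0, 0]),
  (7849341994090977792000, [0, 0, 1, 0, 0, 0, 1, 0, 0, 0, 0]),
  (18046128161048922086400, [0, 0, 1, 0, 0, 0, 0, -1, 0, 0, 0]),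
  (3039981833690650368000, [0, 0, 1, 0, 0, 0, 0, 0, -1, 0, 0]),
  (4824421074538735449600, [0, 0, 1, 0, 0, 0, 0, 0, 0, 1, 0]),
  (10812081651712690176000, [0, 0, 1, 0, 0, 0, 0, 0, 0, 0, 1]),
  (41632294146725815948800, [0, 0, 0, 1, -1, 0, 0, 0, 0, 0, 0]),
  (6718984121982120768000, [0, 0, 0, 1, 0, -1, 0, 0, 0, 0, 0]),
  (5953265115528466022400, [0, 0, 0, 1, 0, 0, 1, 0, 0, 0, 0]),
  (77157381541649727168000, [0, 0, 0, 1, 0, 0, 0, -1, 0, 0, 0]),
  (5928960213676404000000, [0, 0, 0, 1, 0, 0, 0, 0, -1, 0, 0]),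
  (21846786283578383251200, [0, 0, 0, 1, 0, 0, 0, 0, 0, 1, 0]),
  (42516244354893782630400, [0, 0, 0, 1, 0, 0, 0, 0, 0, 0, 1]),
  (12258484209816747724800, [0, 0, 0, 0, 1, -1, 0, 0, 0, 0, 0]),
  (25438450573261847116800, [0, 0, 0, 0, 1, 0, 1, 0, 0, 0, 0]),
  (34518025180345952246400, [0, 0, 0, 0, 1, 0, 0, -1, 0, 0, 0]),
  (1520691498278317670400, [0, 0, 0, 0, 1, 0, 0, 0, 1, 0, 0]),
  (12214019017111273228800, [0, 0, 0, 0, 1, 0, 0, 0, 0, 1, 0]),
  (33006744557776237363200, [0, 0, 0, 0, 1, 0, 0, 0, 0, 0, 1]),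
  (8129502490251079296000, [0, 0, 0, 0, 0, 1, 1, 0, 0, 0, 0]),
  (14290801210884080793600, [0, 0, 0, 0, 0, 1, 0, -1, 0, 0, 0]),
  (3258094061727002976768, [0, 0, 0, 0, 0, 1, 0, 0, 0, 1, 0]),
  (9193764570674606899200, [0, 0, 0, 0, 0, 1, 0, 0, 0, 0, 1]),
  (13918001971605121843200, [0, 0, 0, 0, 0, 0, 1, 1, 0, 0, 0]),
  (2599320749602175539200, [0, 0, 0, 0, 0, 0, 1, 0, -1, 0, 0]),
  (4502031568190120448000, [0, 0, 0, 0, 0, 0, 1, 0, 0, -1, 0]),
  (11266061171592569241600, [0, 0, 0, 0, 0, 0, 1, 0, 0, 0, -1]),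
  (1319205276075738470400, [0, 0, 0, 0, 0, 0, 0, 1, 1, 0, 0]),
  (16220542640371825766400, [0, 0, 0, 0, 0, 0, 0, 1, 0, 1, 0]),
  (41576611398061475635200, [0, 0, 0, 0, 0, 0, 0, 1, 0, 0, 1]),
  (1460557447804646313984, [0, 0, 0, 0, 0, 0, 0, 0, 1, 1, 0]),
  (1024437058071620198400, [0, 0, 0, 0, 0, 0, 0, 0, 1, 0, -1]),
  (13607706100973540474880, [0, 0, 0, 0, 0, 0, 0, 0, 0, 1, -1]),
  (1934620745874717393957888, [1, 0, 0, 0, 0, 0, 0, 0, 0, 0, 0]),
  (1897199663771582606822400, [0, 1, 0, 0, 0, 0, 0, 0, 0, 0, 0]),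
  (1879146379637165252851200, [0, 0, 1, 0, 0, 0, 0, 0, 0, 0, 0]),
  (1611694565179245809740800, [0, 0, 0, 1, 0, 0, 0, 0, 0, 0, 0]),
  (1765286884131585389884800, [0, 0, 0, 0, 1, 0, 0, 0, 0, 0, 0]),
  (1873720926723227440972032, [0, 0, 0, 0, 0, 1, 0, 0, 0, 0, 0]),
  (1855355047259735890022400, [0, 0, 0, 0, 0, 0, 1, 0, 0, 0, 0]),
  (1662182436332626412054400, [0, 0, 0, 0, 0, 0, 0, 1, 0, 0, 0]),
  (1916396060922132597686016, [0, 0, 0, 0, 0, 0, 0, 0, 1, 0, 0]),
  (1852761154520121846128640, [0, 0, 0, 0, 0, 0, 0, 0, 0, 1, 0]),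
  (1741002099687196903342080, [0, 0, 0, 0, 0, 0, 0, 0, 0, 0, 1])]

def M3 : List (List ℤ) := [[15354724801023813328652206080, -31754855998978889071360204800, -22929561021248059895634124800, -9815793176520965909598566400, 36007974564977274499857715200, 3803678571309349964297011200, 4617719798269400772614553600, -7690694406838318964758233600, 2974563862512625672991539200, 12493543729373698420713954816, -10705318256870766572580864000],
  [16441722962771696455329792000, 23626758868370158455689011200, 9759105833956877355853593600, -37506536302571658691406899200, -4016301323313463243272921600, -4670921379639325149849600000, 7640662090492628614693440000, -3068543065463539332387840000, -12792513435725193620492160000, 11342875097800169680284057600],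
  [8679480836171922854183116800, 8345797104212329596716851200, -26207035008160265731090022400, -2627981210057962357673164800, -3719827164511613587501670400, 6553474588792825012154419200, -2241951079843738520582860800, -9663799860800799167177856000, 7295398405067378639572992000],
  [3829580080066107312063897600, -8468227266926601365245209600, -270230803735568919167001600, -2682560054525550688795852800, 6060622773750148037221401600, -1042085602576991255235955200, -5476849843955239776969331200, 311502982612559729238835200],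
  [22143976578129572014095360000, 5098503522709685186436096000, 4602421748849579210516428800, -6591259474641420975250617600, 3427109314382447997574348800, 13652698933972926690996556800, -14652325344494913385011609600],
  [337916868014231636125593600, 319378820264276634210355200, -198189641794526759926886400, 349422571483157385098035200, 1237170218450190460818932736, -1977981916446707755489689600],
  [511630950936112820995737600, -2119060917650426922543513600, 471708872124944691176755200, 2275166977747806352201113600, -778865908398390973462118400],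
  [2403315259798370106181017600, -817769915072182896719155200, -4312374994692105559947878400, 199493866432568812972032000],
  [148238683674276165150182400, 1240319515456426873664544768, -974377612459336088055398400],
  [2788603217988049017533988864, -3334493928828764400081960960],
  [2941445587711493049113640960]]

def u3 : List ℤ := [0, 15354724801023813328652206080, -31754855998978889071360204800, 36007974564977274499857715200, 9759105833956877355853593600, -8468227266926601365245209600, 0, 0, 2974563862512625672991539200, 12493543729373698420713954816, 3803678571309349964297011200, 4617719798269400772614553600, -12792513435725193620492160000, -4016301323313463243272921600, 0, 13652698933972926690996556800, 5098503522709685186436096000, 0, 0, -10705318256870766572580864000, 11342875097800169680284057600, 0, -14652325344494913385011609600, 0, 0, 0, 0, 0, 0, 0, 0, 0, 0, 0, 0, 0, 0, 0, 0, 0, 0, 2788603217988049017533988864,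 1237170218450190460818932736, 0, -3334493928828764400081960960, 0, 0, 0, 0, 0, 0, -2627981210057962357673164800, 0, 0, 0, 0, 0, -7690694406838318964758233600, 0, 0, 0, 0, 7640662090492628614693440000, -3068543065463539332387840000, 0, -4670921379639325149849600000, 0, 0, 0, -270230803735568919167001600, 0, 0, 0, 0, 6060622773750148037221401600, 0, 0, 0, 0, -2682560054525550688795852800, 0, -6591259474641420975250617600, 0, 0, 0, 0, 0, 0, 0, -2241951079843738520582860800, 0, -3719827164511613587501670400, 0, 0, 0, 0, 0, 4602421748849579210516428800, 0, 0, 0, 0, 0, 0, 0, -22929561021248059895634124800, -9815793176520965909598566400, 16441722962771696455329792000, 23626758868370158455689011200, -37506536302571658691406899200, 8679480836171922854183116800, 8345797104212329596716851200, -26207035008160265731090022400, 6553474588792825012154419200, -9663799860800799167177856000, 7295398405067378639572992000, 3829580080066107312063897600,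 -1042085602576991255235955200, -5476849843955239776969331200, 311502982612559729238835200, 22143976578129572014095360000, 3427109314382447997574348800, 337916868014231636125593600, 668801391747434019308390400, -198189641794526759926886400, -1977981916446707755489689600, 511630950936112820995737600, -2119060917650426922543513600, 471708872124944691176755200, 2275166977747806352201113600, -778865908398390973462118400, 2403315259798370106181017600, -817769915072182896719155200, -4312374994692105559947878400, 199493866432568812972032000, 148238683674276165150182400, 1240319515456426873664544768, -974377612459336088055398400, 2941445587711493049113640960]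

theorem gr3 : eqM (gramT rows3) M3 = true := by
  decide +kernel

theorem mv3 : eqZ (mval M3 tab3) u3 = true := by
  decide +kernel

theorem nn3 (E : Env κ ι) : 0 ≤ dot (ek E keys) u3 0 :=
  block_nonneg E _ _ _ _ _ (tri3 E) rows3 M3 gr3 u3 mv3

end

def p4_0_0 : Cov := [(2, 1, 2, [(0, [1], [3, 4]), (0, [1], [3, 4]), (0, [0], [0, 1]), (3, [], [2])]),
  (2, 1, 2, [(0, [1], [3, 4]), (0, [1], [3, 4]), (0, [0], [0, 2]), (3, [], [1])]),
  (2, 1, 2, [(0, [1], [3, 4]), (0, [1], [3, 4]), (0, [0], [1, 2]), (3, [], [0])])]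

def c4_0 : Cov := p4_0_0

def p4_1_0 : Cov := [(2, 1, 2, [(0, [1], [3, 4]), (0, [1], [0, 3]), (0, [0], [1, 2]), (3, [], [4])]),
  (2, 1, 2, [(0, [1], [3, 4]), (0, [1], [1, 3]), (0, [0], [0, 2]), (3, [], [4])]),
  (2, 1, 2, [(0, [1], [3, 4]), (0, [1], [2, 3]), (0, [0], [0, 1]), (3, [], [4])])]

def c4_1 : Cov := p4_1_0

def p4_2_0 : Cov := [(2, 1, 2, [(0, [1], [3, 4]), (0, [1], [0, 1]), (0, [0], [3, 4]), (3, [], [2])]),
  (2, 1, 2, [(0, [1], [3, 4]), (0, [1], [0, 2]), (0, [0], [3, 4]), (3, [], [1])]),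
  (2, 1, 2, [(0, [1], [3, 4]), (0, [1], [1, 2]), (0, [0], [3, 4]), (3, [], [0])])]

def c4_2 : Cov := p4_2_0

def p4_3_0 : Cov := [(2, 1, 2, [(0, [1], [3, 4]), (0, [1], [0, 1]), (0, [0], [2, 3]), (3, [], [4])]),
  (2, 1, 2, [(0, [1], [3, 4]), (0, [1], [0, 2]), (0, [0], [1, 3]), (3, [], [4])]),
  (2, 1, 2, [(0, [1], [3, 4]), (0, [1], [1, 2]), (0, [0], [0, 3]), (3, [], [4])])]

def c4_3 : Cov := p4_3_0

def p4_4_0 : Cov := [(2, 1, 2, [(0, [1], [0, 3]), (0, [1], [1, 2]), (0, [0], [3, 4]), (3, [], [4])]),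
  (2, 1, 2, [(0, [1], [0, 1]), (0, [1], [2, 3]), (0, [0], [3, 4]), (3, [], [4])]),
  (2, 1, 2, [(0, [1], [0, 2]), (0, [1], [1, 3]), (0, [0], [3, 4]), (3, [], [4])])]

def c4_4 : Cov := p4_4_0

def p4_5_0 : Cov := [(2, 0, 2, [(0, [0], [3, 4]), (1, [], [3, 4]), (1, [], [0, 1]), (3, [], [2])]),
  (2, 0, 2, [(0, [0], [3, 4]), (1, [], [3, 4]), (1, [], [0, 2]), (3, [], [1])]),
  (2, 0, 2, [(0, [0], [3, 4]), (1, [], [3, 4]), (1, [], [1, 2]), (3, [], [0])])]

def c4_5 : Cov := p4_5_0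

def p4_6_0 : Cov := [(2, 0, 2, [(0, [0], [3, 4]), (1, [], [0, 3]), (1, [], [1, 2]), (3, [], [4])]),
  (2, 0, 2, [(0, [0], [3, 4]), (1, [], [0, 1]), (1, [], [2, 3]), (3, [], [4])]),
  (2, 0, 2, [(0, [0], [3, 4]), (1, [], [0, 2]), (1, [], [1, 3]), (3, [], [4])])]

def c4_6 : Cov := p4_6_0

def p4_7_0 : Cov := [(2, 0, 2, [(0, [0], [0, 3]), (1, [], [3, 4]), (1, [], [1, 2]), (3, [], [4])]),
  (2, 0, 2, [(0, [0], [1, 3]), (1, [], [3, 4]), (1, [], [0, 2]), (3, [], [4])]),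
  (2, 0, 2, [(0, [0], [2, 3]), (1, [], [3, 4]), (1, [], [0, 1]), (3, [], [4])])]

def c4_7 : Cov := p4_7_0

def p4_8_0 : Cov := [(2, 0, 2, [(0, [0], [0, 3]), (1, [], [1, 4]), (1, [], [2, 4]), (3, [], [3])]),
  (2, 0, 2, [(0, [0], [1, 3]), (1, [], [0, 4]), (1, [], [2, 4]), (3, [], [3])]),
  (2, 0, 2, [(0, [0], [2, 3]), (1, [], [0, 4]), (1, [], [1, 4]), (3, [], [3])])]

def c4_8 : Cov := p4_8_0

def p4_9_0 : Cov := [(2, 0, 2, [(0, [0], [0, 1]), (1, [], [3, 4]), (1, [], [3, 4]), (3, [], [2])]),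
  (2, 0, 2, [(0, [0], [0, 2]), (1, [], [3, 4]), (1, [], [3, 4]), (3, [], [1])]),
  (2, 0, 2, [(0, [0], [1, 2]), (1, [], [3, 4]), (1, [], [3, 4]), (3, [], [0])])]

def c4_9 : Cov := p4_9_0

def p4_10_0 : Cov := [(2, 0, 2, [(0, [0], [0, 1]), (1, [], [3, 4]), (1, [], [2, 3]), (3, [], [4])]),
  (2, 0, 2, [(0, [0], [0, 2]), (1, [], [3, 4]), (1, [], [1, 3]), (3, [], [4])]),
  (2, 0, 2, [(0, [0], [1, 2]), (1, [], [3, 4]), (1, [], [0, 3]), (3, [], [4])])]

def c4_10 : Cov := p4_10_0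

def p4_11_0 : Cov := [(2, 0, 1, [(2, [0], [0, 1, 3]), (1, [], [2, 3])]),
  (2, 0, 1, [(2, [0], [0, 2, 3]), (1, [], [1, 3])]),
  (2, 0, 1, [(2, [0], [1, 2, 3]), (1, [], [0, 3])])]

def c4_11 : Cov := p4_11_0

def p4_12_0 : Cov := [(1, 1, 2, [(0, [1], [0, 3]), (0, [1], [1, 4]), (0, [0], [2, 3]), (3, [], [4])]),
  (1, 1, 2, [(0, [1], [0, 3]), (0, [1], [1, 4]), (0, [0], [2, 4]), (3, [], [3])]),
  (1, 1, 2, [(0, [1], [0, 3]), (0, [1], [2, 4]), (0, [0], [1, 3]), (3, [], [4])]),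
  (1, 1, 2, [(0, [1], [0, 3]), (0, [1], [2, 4]), (0, [0], [1, 4]), (3, [], [3])]),
  (1, 1, 2, [(0, [1], [1, 3]), (0, [1], [2, 4]), (0, [0], [0, 3]), (3, [], [4])]),
  (1, 1, 2, [(0, [1], [1, 3]), (0, [1], [2, 4]), (0, [0], [0, 4]), (3, [], [3])])]

def c4_12 : Cov := p4_12_0

def p4_13_0 : Cov := [(1, 0, 2, [(0, [0], [0, 3]), (1, [], [1, 3]), (1, [], [2, 4]), (3, [], [4])]),
  (1, 0, 2, [(0, [0], [0, 3]), (1, [], [1, 4]), (1, [], [2, 3]), (3, [], [4])]),
  (1, 0, 2, [(0, [0], [1, 3]), (1, [], [0, 3]), (1, [], [2, 4]), (3, [], [4])]),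
  (1, 0, 2, [(0, [0], [1, 3]), (1, [], [0, 4]), (1, [], [2, 3]), (3, [], [4])]),
  (1, 0, 2, [(0, [0], [2, 3]), (1, [], [0, 3]), (1, [], [1, 4]), (3, [], [4])]),
  (1, 0, 2, [(0, [0], [2, 3]), (1, [], [0, 4]), (1, [], [1, 3]), (3, [], [4])])]

def c4_13 : Cov := p4_13_0

theorem t4_0_0_0 : chkS keys 1 3 p4_0_0 c4_0
  [(0, 513, 513, 88147506, 40177731), (1, 258, 33, 52495956, 34628931), (1, 258, 33, 52495941, 33645891), (1, 258, 33, 52495716, 18900291), (0, 513, 513, 88146786, 23404611), (1, 258, 33, 52495461, 16934211), (1, 258, 33, 52495686, 2188611), (1, 258, 33, 52495446, 1205571), (0, 513, 513, 88146726, 6627651)]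
  [(0, 12), (1, 24)] = true := by
  decide +kernel

theorem t4_0_1_0 : chkS keys 1 3 p4_0_0 c4_1
  [(2, 513, 513, 105972771, 106037571), (2, 513, 513, 105972786, 106041411), (1, 513, 513, 88147506, 40177731), (2, 513, 513, 105972291, 105972291), (1, 513, 513, 88146786, 23404611), (2, 513, 513, 105972546, 105979971), (1, 513, 513, 88146726, 6627651), (2, 513, 513, 105972276, 105910851), (2, 513, 513, 105972516, 105914691)]
  [(1, 12), (2, 24)] = true := by
  decide +kernel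

theorem t4_0_2_0 : chkS keys 1 3 p4_0_0 c4_2
  [(139, 513, 513, 105972786, 106041411), (106, 513, 513, 88147506, 40177731), (106, 513, 513, 88147491, 40173891), (106, 513, 513, 88146786, 23404611), (139, 513, 513, 105972546, 105979971), (106, 513, 513, 88146531, 23396931), (106, 513, 513, 88146726, 6627651), (106, 513, 513, 88146486, 6623811), (139, 513, 513, 105972516, 105914691)]
  [(106, 24), (139, 12)] = true := by
  decide +kernel

theorem t4_0_3_0 : chkS keys 1 3 p4_0_0 c4_3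
  [(106, 258, 33, 52495956, 34628931), (105, 258, 33, 52495941, 33645891), (105, 258, 33, 52495956, 34628931), (105, 258, 33, 52495461, 16934211), (106, 258, 33, 52495716, 18900291), (105, 258, 33, 52495716, 18900291), (105, 258, 33, 52495446, 1205571), (105, 258, 33, 52495686, 2188611), (106, 258, 33, 52495686, 2188611)]
  [(105, 24), (106, 12)] = true := by
  decide +kernel

theorem t4_0_4_0 : chkS keys 1 3 p4_0_0 c4_4
  [(3, 513, 513, 88147506, 40177731), (106, 258, 33, 102826836, 101721411), (3, 513, 513, 88147491, 40173891), (3, 513, 513, 88146786, 23404611), (3, 513, 513, 88146531, 23396931), (106, 258, 33, 102827316, 102765891), (106, 258, 33, 102827331, 102827331), (3, 513, 513, 88146486, 6623811), (3, 513, 513, 88146726, 6627651)]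
  [(3, 24), (106, 12)] = true := by
  decide +kernel

theorem t4_0_5_0 : chkS keys 1 3 p4_0_0 c4_5
  [(56, 1, 1, 52495461, 16934211), (10, 1, 1, 52495956, 34628931), (10, 1, 1, 52495941, 33645891), (10, 1, 1, 52495716, 18900291), (56, 1, 1, 52495941, 33645891), (10, 1, 1, 52495461, 16934211), (10, 1, 1, 52495686, 2188611), (10, 1, 1, 52495446, 1205571), (56, 1, 1, 52495956, 34628931)]
  [(10, 24), (56, 12)] = true := by
  decide +kernel

theorem t4_0_6_0 : chkS keys 1 3 p4_0_0 c4_6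
  [(11, 1, 1, 88147506, 40177731), (10, 1, 1, 88147506, 40177731), (11, 1, 1, 88147491, 40173891), (11, 1, 1, 88146786, 23404611), (11, 1, 1, 88146531, 23396931), (10, 1, 1, 88146786, 23404611), (10, 1, 1, 88146726, 6627651), (11, 1, 1, 88146486, 6623811), (11, 1, 1, 88146726, 6627651)]
  [(10, 12), (11, 24)] = true := by
  decide +kernel

theorem t4_0_7_0 : chkS keys 1 3 p4_0_0 c4_7
  [(46, 1, 1, 52495956, 34628931), (46, 1, 1, 52495941, 33645891), (10, 1, 1, 104924466, 103092291), (46, 1, 1, 52495716, 18900291), (10, 1, 1, 104923986, 102047811), (46, 1, 1, 52495461, 16934211), (10, 1, 1, 104923941, 100999491), (46, 1, 1, 52495686, 2188611), (46, 1, 1, 52495446, 1205571)]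
  [(10, 12), (46, 24)] = true := by
  decide +kernel

theorem t4_0_8_0 : chkS keys 1 3 p4_0_0 c4_8
  [(8, 1, 1, 88147506, 40177731), (8, 1, 1, 88147491, 40173891), (60, 1, 1, 56689746, 85090371), (8, 1, 1, 88146786, 23404611), (60, 1, 1, 56689986, 86073411), (8, 1, 1, 88146531, 23396931), (60, 1, 1, 56689956, 86008131), (8, 1, 1, 88146726, 6627651), (8, 1, 1, 88146486, 6623811)]
  [(8, 24), (60, 12)] = true := by
  decide +kernel

theorem t4_0_9_0 : chkS keys 1 3 p4_0_0 c4_9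
  [(6, 1, 1, 88147506, 40177731), (9, 1, 1, 105972786, 106041411), (9, 1, 1, 105972771, 106037571), (9, 1, 1, 105972546, 105979971), (6, 1, 1, 88146786, 23404611), (9, 1, 1, 105972291, 105972291), (9, 1, 1, 105972516, 105914691), (9, 1, 1, 105972276, 105910851), (6, 1, 1, 88146726, 6627651)]
  [(6, 12), (9, 24)] = true := by
  decide +kernel

theorem t4_0_10_0 : chkS keys 1 3 p4_0_0 c4_10
  [(7, 1, 1, 88147506, 40177731), (8, 1, 1, 105972786, 106041411), (8, 1, 1, 105972771, 106037571), (8, 1, 1, 105972546, 105979971), (7, 1, 1, 88146786, 23404611), (8, 1, 1, 105972291, 105972291), (8, 1, 1, 105972516, 105914691), (8, 1, 1, 105972276, 105910851), (7, 1, 1, 88146726, 6627651)]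
  [(7, 12), (8, 24)] = true := by
  decide +kernel

theorem t4_0_11_0 : chkS keys 1 3 p4_0_0 c4_11
  [(18, 1, 1, 4261170, 2428995), (59, 1, 1, 3212325, 151875), (59, 1, 1, 3212370, 1200195), (59, 1, 1, 3211845, 86595), (18, 1, 1, 4260690, 1384515), (59, 1, 1, 3212610, 2183235), (59, 1, 1, 3211860, 1069635), (59, 1, 1, 3212580, 2117955), (18, 1, 1, 4260645, 336195)]
  [(18, 12), (59, 24)] = true := by
  decide +kernel

theorem t4_0_12_0 : chkS keys 1 3 p4_0_0 c4_12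
  [(3, 513, 513, 104924466, 103092291), (3, 513, 513, 73467171, 86376771), (140, 513, 513, 105972786, 106041411), (105, 258, 33, 87098946, 39931971), (140, 513, 513, 105972771, 106037571), (105, 258, 33, 87098916, 39866691), (140, 513, 513, 105972546, 105979971), (105, 258, 33, 87098466, 23220291), (3, 513, 513, 104923986, 102047811), (3, 513, 513, 73466451, 85328451), (105, 258, 33, 102827316, 102765891), (140, 513, 513, 90243651, 90243651), (105, 258, 33, 102827091, 101844291), (140, 513, 513, 90243876, 90186051), (105, 258, 33, 102827331, 102827331), (140, 513, 513, 90243636, 90182211), (3, 513, 513, 104923941, 100999491), (3, 513, 513, 73466421, 84283971)]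
  [(3, 12), (105, 12), (140, 12)] = true := by
  decide +kernel

theorem t4_0_13_0 : chkS keys 1 3 p4_0_0 c4_13
  [(58, 1, 1, 103875621, 100815171), (46, 1, 1, 55641636, 38822211), (58, 1, 1, 103875666, 101863491), (46, 1, 1, 55641666, 38887491), (11, 1, 1, 104924466, 103092291), (11, 1, 1, 104924451, 103088451), (46, 1, 1, 102827316, 102765891), (58, 1, 1, 103875141, 100749891), (11, 1, 1, 104923986, 102047811), (11, 1, 1, 104923731, 102040131), (58, 1, 1, 103875906, 102846531), (46, 1, 1, 55641186, 22175811), (11, 1, 1, 104923941, 100999491), (11, 1, 1, 104923701, 100995651), (46, 1, 1, 102827331, 102827331), (58, 1, 1, 103875156, 101732931), (46, 1, 1, 102827091, 101844291), (58, 1, 1, 103875876, 102781251)]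
  [(11, 12), (46, 12), (58, 12)] = true := by
  decide +kernel

theorem t4_1_1_0 : chkS keys 1 3 p4_1_0 c4_1
  [(2, 528, 528, 106176771, 106169121), (107, 513, 513, 104989521, 102048771), (107, 513, 513, 104990001, 103093251), (107, 513, 513, 104989461, 101000211), (2, 528, 528, 106176816, 106173216), (107, 513, 513, 104989971, 103089171), (107, 513, 513, 104988981, 100996131), (107, 513, 513, 104989011, 102040611), (2, 528, 528, 106177296, 106177296)]
  [(2, 12), (107, 24)] = true := by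
  decide +kernel

theorem t4_1_2_0 : chkS keys 1 3 p4_1_0 c4_2
  [(4, 258, 33, 88213041, 40178691), (4, 258, 33, 88212321, 23405571), (141, 513, 513, 105972786, 106041411), (4, 258, 33, 88213011, 40174611), (141, 513, 513, 105972771, 106037571), (4, 258, 33, 88212246, 6628371), (141, 513, 513, 105972291, 105972291), (4, 258, 33, 88211811, 23397411), (4, 258, 33, 88211766, 6624291)]
  [(4, 24), (141, 12)] = true := by
  decide +kernel

theorem t4_1_3_0 : chkS keys 1 3 p4_1_0 c4_3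
  [(108, 258, 33, 106038321, 106042371), (108, 258, 33, 106038081, 105980931), (4, 513, 513, 103941441, 102847491), (108, 258, 33, 106038291, 106038291), (4, 513, 513, 103941396, 102781971), (108, 258, 33, 106038036, 105915411), (4, 513, 513, 103940436, 101733411), (108, 258, 33, 106037571, 105972771), (108, 258, 33, 106037556, 105911331)]
  [(4, 12), (108, 24)] = true := by
  decide +kernel

theorem t4_1_4_0 : chkS keys 1 3 p4_1_0 c4_4
  [(4, 258, 33, 103941441, 102847491), (109, 258, 33, 88213041, 40178691), (109, 258, 33, 88212321, 23405571), (109, 258, 33, 88212246, 6628371), (109, 258, 33, 88213011, 40174611), (4, 258, 33, 103941396, 102781971), (109, 258, 33, 88211766, 6624291), (4, 258, 33, 103940436, 101733411), (109, 258, 33, 88211811, 23397411)]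
  [(4, 12), (109, 24)] = true := by
  decide +kernel

theorem t4_1_5_0 : chkS keys 1 3 p4_1_0 c4_5
  [(14, 1, 1, 106038321, 106042371), (14, 1, 1, 106038081, 105980931), (61, 1, 1, 70321746, 35016771), (14, 1, 1, 106038291, 106038291), (61, 1, 1, 70321701, 33968451), (14, 1, 1, 106038036, 105915411), (61, 1, 1, 70320741, 17191491), (14, 1, 1, 106037571, 105972771), (14, 1, 1, 106037556, 105911331)]
  [(14, 24), (61, 12)] = true := by
  decide +kernel

theorem t4_1_6_0 : chkS keys 1 3 p4_1_0 c4_6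
  [(14, 1, 1, 70387281, 35017731), (49, 1, 1, 88213041, 40178691), (49, 1, 1, 88212321, 23405571), (49, 1, 1, 88212246, 6628371), (49, 1, 1, 88213011, 40174611), (14, 1, 1, 70387221, 33969171), (49, 1, 1, 88211766, 6624291), (14, 1, 1, 70386021, 17191971), (49, 1, 1, 88211811, 23397411)]
  [(14, 12), (49, 24)] = true := by
  decide +kernel

theorem t4_1_7_0 : chkS keys 1 3 p4_1_0 c4_7
  [(13, 1, 1, 103941441, 102847491), (48, 1, 1, 106038081, 105980931), (48, 1, 1, 106038321, 106042371), (48, 1, 1, 106038036, 105915411), (13, 1, 1, 103941396, 102781971), (48, 1, 1, 106038291, 106038291), (48, 1, 1, 106037556, 105911331), (48, 1, 1, 106037571, 105972771), (13, 1, 1, 103940436, 101733411)]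
  [(13, 12), (48, 24)] = true := by
  decide +kernel

theorem t4_1_8_0 : chkS keys 1 3 p4_1_0 c4_8
  [(67, 1, 1, 72418146, 22421571), (47, 1, 1, 56755521, 86074371), (47, 1, 1, 56755281, 85091331), (47, 1, 1, 56755476, 86008851), (67, 1, 1, 72418086, 5644611), (47, 1, 1, 56755221, 84042771), (47, 1, 1, 56754516, 84960291), (47, 1, 1, 56754501, 83977251), (67, 1, 1, 72417846, 5640771)]
  [(47, 24), (67, 12)] = true := by
  decide +kernel

theorem t4_1_9_0 : chkS keys 1 3 p4_1_0 c4_9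
  [(12, 1, 1, 106038321, 106042371), (12, 1, 1, 106038081, 105980931), (9, 16, 16, 106111236, 105923361), (12, 1, 1, 106038291, 106038291), (9, 16, 16, 106111296, 105988896), (12, 1, 1, 106038036, 105915411), (9, 16, 16, 106112016, 106054416), (12, 1, 1, 106037571, 105972771), (12, 1, 1, 106037556, 105911331)]
  [(9, 12), (12, 24)] = true := by
  decide +kernel

theorem t4_1_10_0 : chkS keys 1 3 p4_1_0 c4_10
  [(63, 1, 1, 104923986, 102047811), (63, 1, 1, 104924466, 103092291), (8, 16, 16, 106176771, 106169121), (63, 1, 1, 104923941, 100999491), (8, 16, 16, 106176816, 106173216), (63, 1, 1, 104924451, 103088451), (8, 16, 16, 106177296, 106177296), (63, 1, 1, 104923701, 100995651), (63, 1, 1, 104923731, 102040131)]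
  [(8, 12), (63, 24)] = true := by
  decide +kernel

theorem t4_1_11_0 : chkS keys 1 3 p4_1_0 c4_11
  [(66, 1, 1, 4260690, 1384515), (66, 1, 1, 4261170, 2428995), (21, 1, 1, 5374785, 5317635), (66, 1, 1, 4260645, 336195), (21, 1, 1, 5374740, 5252115), (66, 1, 1, 4261155, 2425155), (21, 1, 1, 5374260, 5248035), (66, 1, 1, 4260405, 332355), (66, 1, 1, 4260435, 1376835)]
  [(21, 12), (66, 24)] = true := by
  decide +kernel

theorem t4_1_12_0 : chkS keys 1 3 p4_1_0 c4_12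
  [(108, 258, 33, 103941201, 101864451), (142, 513, 513, 105972786, 106041411), (108, 258, 33, 103941441, 102847491), (142, 513, 513, 55641666, 38887491), (109, 513, 513, 87164001, 23221251), (109, 513, 513, 55707201, 38888451), (142, 513, 513, 87098406, 6443331), (108, 258, 33, 56755221, 84042771), (109, 513, 513, 87163926, 6444051), (109, 513, 513, 55707156, 38822931), (108, 258, 33, 103941396, 102781971), (142, 513, 513, 55641636, 38822211), (109, 513, 513, 87163206, 6378531), (109, 513, 513, 55705956, 22045731), (142, 513, 513, 87097926, 6378051), (108, 258, 33, 56754501, 83977251), (142, 513, 513, 87097956, 23089731), (108, 258, 33, 56754516, 84960291)]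
  [(108, 12), (109, 12), (142, 12)] = true := by
  decide +kernel

theorem t4_1_13_0 : chkS keys 1 3 p4_1_0 c4_13
  [(65, 1, 1, 103875906, 102846531), (65, 1, 1, 103875666, 101863491), (48, 1, 1, 103941441, 102847491), (64, 1, 1, 104923986, 102047811), (48, 1, 1, 103941201, 101864451), (64, 1, 1, 104924466, 103092291), (48, 1, 1, 103941396, 102781971), (64, 1, 1, 104923941, 100999491), (65, 1, 1, 103875876, 102781251), (65, 1, 1, 103875621, 100815171), (64, 1, 1, 104924451, 103088451), (48, 1, 1, 103941141, 100815891), (64, 1, 1, 104923701, 100995651), (48, 1, 1, 103940436, 101733411), (64, 1, 1, 104923731, 102040131), (48, 1, 1, 103940421, 100750371), (65, 1, 1, 103875156, 101732931), (65, 1, 1, 103875141, 100749891)]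
  [(48, 12), (64, 12), (65, 12)] = true := by
  decide +kernel

theorem t4_2_2_0 : chkS keys 1 3 p4_2_0 c4_2
  [(143, 513, 513, 105972786, 106041411), (116, 513, 513, 88147506, 40177731), (116, 513, 513, 88147491, 40173891), (116, 513, 513, 88146786, 23404611), (143, 513, 513, 105972546, 105979971), (116, 513, 513, 88146531, 23396931), (116, 513, 513, 88146726, 6627651), (116, 513, 513, 88146486, 6623811), (143, 513, 513, 105972516, 105914691)]
  [(116, 24), (143, 12)] = true := by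
  decide +kernel

theorem t4_2_3_0 : chkS keys 1 3 p4_2_0 c4_3
  [(116, 528, 528, 102826836, 101721411), (144, 513, 513, 105972786, 106041411), (144, 513, 513, 105972771, 106037571), (144, 513, 513, 105972546, 105979971), (116, 528, 528, 102827316, 102765891), (144, 513, 513, 105972291, 105972291), (144, 513, 513, 105972516, 105914691), (144, 513, 513, 105972276, 105910851), (116, 528, 528, 102827331, 102827331)]
  [(116, 12), (144, 24)] = true := by
  decide +kernel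

theorem t4_2_4_0 : chkS keys 1 3 p4_2_0 c4_4
  [(5, 513, 513, 88147506, 40177731), (116, 528, 528, 52495956, 34628931), (5, 513, 513, 88147491, 40173891), (5, 513, 513, 88146786, 23404611), (5, 513, 513, 88146531, 23396931), (116, 528, 528, 52495716, 18900291), (116, 528, 528, 52495686, 2188611), (5, 513, 513, 88146486, 6623811), (5, 513, 513, 88146726, 6627651)]
  [(5, 24), (116, 12)] = true := by
  decide +kernel

theorem t4_2_5_0 : chkS keys 1 3 p4_2_0 c4_5
  [(68, 1, 1, 106112016, 106054416), (69, 16, 16, 16983141, 16925541), (69, 16, 16, 16983126, 1196901), (69, 16, 16, 16983621, 33637221), (68, 1, 1, 106111296, 105988896), (69, 16, 16, 16983366, 2179941), (69, 16, 16, 16983636, 34620261), (69, 16, 16, 16983396, 18891621), (68, 1, 1, 106111236, 105923361)]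
  [(68, 12), (69, 24)] = true := by
  decide +kernel

theorem t4_2_6_0 : chkS keys 1 3 p4_2_0 c4_6
  [(79, 16, 16, 16983636, 34620261), (69, 1, 1, 106112016, 106054416), (79, 16, 16, 16983621, 33637221), (79, 16, 16, 16983396, 18891621), (79, 16, 16, 16983141, 16925541), (69, 1, 1, 106111296, 105988896), (69, 1, 1, 106111236, 105923361), (79, 16, 16, 16983126, 1196901), (79, 16, 16, 16983366, 2179941)]
  [(69, 12), (79, 24)] = true := by
  decide +kernel

theorem t4_2_7_0 : chkS keys 1 3 p4_2_0 c4_7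
  [(92, 1, 1, 106112016, 106054416), (92, 1, 1, 106112001, 106054401), (69, 1, 1, 72558096, 39207696), (92, 1, 1, 106111296, 105988896), (69, 1, 1, 72556896, 22430496), (92, 1, 1, 106111041, 105988866), (69, 1, 1, 72556806, 5653281), (92, 1, 1, 106111236, 105923361), (92, 1, 1, 106110996, 105923346)]
  [(69, 12), (92, 24)] = true := by
  decide +kernel

theorem t4_2_8_0 : chkS keys 1 3 p4_2_0 c4_8
  [(117, 16, 16, 87098946, 39931971), (117, 16, 16, 87098916, 39866691), (145, 1, 1, 105972786, 106041411), (117, 16, 16, 87098466, 23220291), (145, 1, 1, 105972546, 105979971), (117, 16, 16, 87097956, 23089731), (145, 1, 1, 105972516, 105914691), (117, 16, 16, 87098406, 6443331), (117, 16, 16, 87097926, 6378051)]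
  [(117, 24), (145, 12)] = true := by
  decide +kernel

theorem t4_2_9_0 : chkS keys 1 3 p4_2_0 c4_9
  [(146, 1, 1, 105972786, 106041411), (118, 1, 1, 105972786, 106041411), (118, 1, 1, 105972771, 106037571), (118, 1, 1, 105972546, 105979971), (146, 1, 1, 105972546, 105979971), (118, 1, 1, 105972291, 105972291), (118, 1, 1, 105972516, 105914691), (118, 1, 1, 105972276, 105910851), (146, 1, 1, 105972516, 105914691)]
  [(118, 24), (146, 12)] = true := by
  decide +kernel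

theorem t4_2_10_0 : chkS keys 1 3 p4_2_0 c4_10
  [(147, 1, 1, 105972786, 106041411), (117, 16, 16, 105972546, 105979971), (117, 16, 16, 105972516, 105914691), (117, 16, 16, 105972786, 106041411), (147, 1, 1, 105972546, 105979971), (117, 16, 16, 105972276, 105910851), (117, 16, 16, 105972771, 106037571), (117, 16, 16, 105972291, 105972291), (147, 1, 1, 105972516, 105914691)]
  [(117, 24), (147, 12)] = true := by
  decide +kernel

theorem t4_2_11_0 : chkS keys 1 3 p4_2_0 c4_11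
  [(148, 1, 1, 5309490, 5378115), (149, 1, 1, 5309490, 5378115), (149, 1, 1, 5309475, 5374275), (149, 1, 1, 5309250, 5316675), (148, 1, 1, 5309250, 5316675), (149, 1, 1, 5308995, 5308995), (149, 1, 1, 5309220, 5251395), (149, 1, 1, 5308980, 5247555), (148, 1, 1, 5309220, 5251395)]
  [(148, 12), (149, 24)] = true := by
  decide +kernel

theorem t4_2_12_0 : chkS keys 1 3 p4_2_0 c4_12
  [(5, 513, 513, 104924466, 103092291), (5, 513, 513, 73467171, 86376771), (150, 513, 513, 105972786, 106041411), (144, 513, 513, 88147506, 40177731), (150, 513, 513, 105972771, 106037571), (144, 513, 513, 88147491, 40173891), (150, 513, 513, 105972546, 105979971), (144, 513, 513, 88146786, 23404611), (5, 513, 513, 104923986, 102047811), (5, 513, 513, 73466451, 85328451), (144, 513, 513, 72417891, 22413891), (150, 513, 513, 90243651, 90243651), (144, 513, 513, 72418086, 5644611), (150, 513, 513, 90243876, 90186051), (144, 513, 513, 72417846, 5640771),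 (150, 513, 513, 90243636, 90182211), (5, 513, 513, 104923941, 100999491), (5, 513, 513, 73466421, 84283971)]
  [(5, 12), (144, 12), (150, 12)] = true := by
  decide +kernel

theorem t4_2_13_0 : chkS keys 1 3 p4_2_0 c4_13
  [(151, 1, 1, 105972786, 106041411), (92, 1, 1, 72558096, 39207696), (151, 1, 1, 105972771, 106037571), (92, 1, 1, 72558081, 39207681), (79, 16, 16, 100868436, 101729061), (79, 16, 16, 100868421, 100746021), (92, 1, 1, 72556896, 22430496), (151, 1, 1, 105972546, 105979971), (79, 16, 16, 100869396, 102777621), (79, 16, 16, 100869141, 100811541), (151, 1, 1, 105972291, 105972291), (92, 1, 1, 72556641, 22430466), (79, 16, 16, 100869441, 102843141), (79, 16, 16, 100869201, 101860101), (92, 1, 1, 72556806, 5653281), (151, 1, 1, 105972516, 105914691), (92, 1, 1, 72556566, 5653266), (151, 1, 1, 105972276, 105910851)]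
  [(79, 12), (92, 12), (151, 12)] = true := by
  decide +kernel

theorem t4_3_3_0 : chkS keys 1 3 p4_3_0 c4_3
  [(111, 528, 528, 102961236, 101729586), (152, 513, 513, 105972786, 106041411), (152, 513, 513, 105972771, 106037571), (152, 513, 513, 105972546, 105979971), (111, 528, 528, 102962436, 102778161), (152, 513, 513, 105972291, 105972291), (152, 513, 513, 105972516, 105914691), (152, 513, 513, 105972276, 105910851), (111, 528, 528, 102962496, 102843696)]
  [(111, 12), (152, 24)] = true := by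
  decide +kernel

theorem t4_3_4_0 : chkS keys 1 3 p4_3_0 c4_4
  [(153, 513, 513, 105972786, 106041411), (5, 18, 18, 104153616, 105075216), (153, 513, 513, 105972771, 106037571), (153, 513, 513, 105972546, 105979971), (153, 513, 513, 105972291, 105972291), (5, 18, 18, 104153376, 105074976), (5, 18, 18, 104153346, 105074721), (153, 513, 513, 105972276, 105910851), (153, 513, 513, 105972516, 105914691)]
  [(5, 12), (153, 24)] = true := by
  decide +kernel

theorem t4_3_5_0 : chkS keys 1 3 p4_3_0 c4_5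
  [(54, 1, 1, 88286736, 40190736), (70, 16, 16, 17048421, 17048421), (70, 16, 16, 17048406, 1319781), (70, 16, 16, 17049141, 33821541), (54, 1, 1, 88285536, 23413536), (70, 16, 16, 17048886, 2364261), (70, 16, 16, 17049171, 34866021), (70, 16, 16, 17048931, 19137381), (54, 1, 1, 88285446, 6636321)]
  [(54, 12), (70, 24)] = true := by
  decide +kernel

theorem t4_3_6_0 : chkS keys 1 3 p4_3_0 c4_6
  [(83, 16, 16, 17113956, 20980581), (17, 16, 16, 52691301, 17065251), (83, 16, 16, 17113926, 4268901), (83, 16, 16, 17114676, 37753701), (83, 16, 16, 17114166, 4330341), (17, 16, 16, 52692501, 33842451), (17, 16, 16, 52692561, 34891011), (83, 16, 16, 17114211, 21103461), (83, 16, 16, 17114691, 37815141)]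
  [(17, 12), (83, 24)] = true := by
  decide +kernel

theorem t4_3_7_0 : chkS keys 1 3 p4_3_0 c4_7
  [(95, 16, 16, 68559696, 68559696), (95, 16, 16, 68559621, 67511121), (51, 16, 16, 51781716, 68182866), (95, 16, 16, 68560176, 69604176), (51, 16, 16, 51782916, 69231441), (95, 16, 16, 68558901, 67507026), (51, 16, 16, 51782976, 69296976), (95, 16, 16, 68560131, 69600081), (95, 16, 16, 68558931, 68551506)]
  [(51, 12), (95, 24)] = true := by
  decide +kernel

theorem t4_3_8_0 : chkS keys 1 3 p4_3_0 c4_8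
  [(103, 1, 1, 72558096, 39207696), (103, 1, 1, 72558081, 39207681), (67, 16, 16, 68493366, 4592466), (103, 1, 1, 72556896, 22430496), (67, 16, 16, 68494086, 4596561), (103, 1, 1, 72556641, 22430466), (67, 16, 16, 68494176, 21373776), (103, 1, 1, 72556806, 5653281), (103, 1, 1, 72556566, 5653266)]
  [(67, 12), (103, 24)] = true := by
  decide +kernel

theorem t4_3_9_0 : chkS keys 1 3 p4_3_0 c4_9
  [(118, 1, 1, 106112016, 106054416), (114, 16, 16, 106106946, 105988146), (114, 16, 16, 106106916, 105922866), (114, 16, 16, 106107906, 106053681), (118, 1, 1, 106111296, 105988896), (114, 16, 16, 106107396, 105923121), (114, 16, 16, 106107936, 106053936), (114, 16, 16, 106107456, 105988656), (118, 1, 1, 106111236, 105923361)]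
  [(114, 24), (118, 12)] = true := by
  decide +kernel

theorem t4_3_10_0 : chkS keys 1 3 p4_3_0 c4_10
  [(117, 1, 1, 106112016, 106054416), (89, 16, 16, 70656336, 68571936), (89, 16, 16, 70656261, 67523361), (89, 16, 16, 70657296, 69620496), (117, 1, 1, 106111296, 105988896), (89, 16, 16, 70656021, 67523346), (89, 16, 16, 70657281, 69620481), (89, 16, 16, 70656081, 68571906), (117, 1, 1, 106111236, 105923361)]
  [(89, 24), (117, 12)] = true := by
  decide +kernel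

theorem t4_3_11_0 : chkS keys 1 3 p4_3_0 c4_11
  [(26, 1, 1, 5309490, 5378115), (100, 16, 16, 3408210, 1331235), (100, 16, 16, 3408165, 282915), (100, 16, 16, 3409170, 2379795), (26, 1, 1, 5309250, 5316675), (100, 16, 16, 3408405, 283155), (100, 16, 16, 3409185, 2380035), (100, 16, 16, 3408465, 1331715), (26, 1, 1, 5309220, 5251395)]
  [(26, 12), (100, 24)] = true := by
  decide +kernel

theorem t4_3_12_0 : chkS keys 1 3 p4_3_0 c4_12
  [(112, 528, 528, 86184006, 6374706), (112, 528, 528, 38998116, 22038066), (154, 513, 513, 105972786, 106041411), (153, 18, 18, 51794496, 70345296), (154, 513, 513, 105972771, 106037571), (153, 18, 18, 51794436, 70279761), (154, 513, 513, 105972546, 105979971), (153, 18, 18, 51794976, 70410576), (112, 528, 528, 86184966, 6440241), (112, 528, 528, 38999556, 38815281), (153, 18, 18, 20336676, 70275426), (154, 513, 513, 90243651, 90243651), (153, 18, 18, 20337666, 70406241), (154, 513, 513, 90243876,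 90186051), (153, 18, 18, 20336706, 70340706), (154, 513, 513, 90243636, 90182211), (112, 528, 528, 86185056, 23217456), (112, 528, 528, 38999616, 38880816)]
  [(112, 12), (153, 12), (154, 12)] = true := by
  decide +kernel

theorem t4_3_13_0 : chkS keys 1 3 p4_3_0 c4_13
  [(96, 16, 16, 70582626, 21385251), (155, 1, 1, 105972786, 106041411), (96, 16, 16, 70582566, 4608291), (155, 1, 1, 105972771, 106037571), (91, 16, 16, 69534006, 4592931), (91, 16, 16, 69534051, 21366051), (155, 1, 1, 105972546, 105979971), (96, 16, 16, 70583826, 38162451), (91, 16, 16, 69534486, 4597011), (91, 16, 16, 69535251, 38143251), (96, 16, 16, 70582806, 4608531), (155, 1, 1, 105972291, 105972291), (91, 16, 16, 69534561, 21374211), (91, 16, 16, 69535281, 38147331), (155, 1, 1, 105972516, 105914691), (96, 16, 16, 70583841, 38162691), (155, 1, 1, 105972276, 105910851), (96, 16, 16, 70582881, 21385731)]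
  [(91, 12), (96, 12), (155, 12)] = true := by
  decide +kernel

theorem t4_4_4_0 : chkS keys 1 3 p4_4_0 c4_4
  [(144, 258, 33, 106176771, 106169121), (156, 513, 513, 106173216, 106176816), (156, 513, 513, 106172976, 106172976), (156, 513, 513, 106172451, 106168626), (144, 258, 33, 106177296, 106177296), (156, 513, 513, 106172466, 106172466), (156, 513, 513, 106172931, 106168881), (156, 513, 513, 106173186, 106176561), (144, 258, 33, 106176816, 106173216)]
  [(144, 12), (156, 24)] = true := by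
  decide +kernel

theorem t4_4_5_0 : chkS keys 1 3 p4_4_0 c4_5
  [(17, 1, 1, 106169121, 106176771), (17, 1, 1, 106168881, 106172931), (54, 1, 1, 88482051, 73728801), (54, 1, 1, 88482576, 73736976), (17, 1, 1, 106168626, 106172451), (17, 1, 1, 106168611, 106168611), (17, 1, 1, 106169106, 106176531), (54, 1, 1, 88482096, 73732896), (17, 1, 1, 106168851, 106168851)]
  [(17, 24), (54, 12)] = true := by
  decide +kernel

theorem t4_4_6_0 : chkS keys 1 3 p4_4_0 c4_6
  [(70, 1, 1, 106176771, 106169121), (157, 1, 1, 106173216, 106176816), (157, 1, 1, 106172976, 106172976), (157, 1, 1, 106172451, 106168626), (70, 1, 1, 106177296, 106177296), (157, 1, 1, 106172466, 106172466), (157, 1, 1, 106172931, 106168881), (157, 1, 1, 106173186, 106176561), (70, 1, 1, 106176816, 106173216)]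
  [(70, 12), (157, 24)] = true := by
  decide +kernel

theorem t4_4_7_0 : chkS keys 1 3 p4_4_0 c4_7
  [(16, 1, 1, 105190176, 105193776), (155, 16, 16, 103875876, 102781251), (155, 16, 16, 103875156, 101732931), (155, 16, 16, 103875666, 101863491), (155, 16, 16, 103875621, 100815171), (16, 1, 1, 105189426, 105189426), (155, 16, 16, 103875906, 102846531), (16, 1, 1, 105190146, 105193521), (155, 16, 16, 103875141, 100749891)]
  [(16, 12), (155, 24)] = true := by
  decide +kernel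

theorem t4_4_8_0 : chkS keys 1 3 p4_4_0 c4_8
  [(158, 1, 1, 106173216, 106176816), (159, 1, 1, 106173216, 106176816), (159, 1, 1, 106172976, 106172976), (159, 1, 1, 105194241, 105194241), (159, 1, 1, 105194256, 105194256), (158, 1, 1, 106172466, 106172466), (159, 1, 1, 105193521, 105190146), (158, 1, 1, 106173186, 106176561), (159, 1, 1, 105193776, 105190176)]
  [(158, 12), (159, 24)] = true := by
  decide +kernel

theorem t4_4_9_0 : chkS keys 1 3 p4_4_0 c4_9
  [(15, 1, 1, 106173216, 106176816), (15, 1, 1, 106172976, 106172976), (118, 1, 1, 106176771, 106169121), (118, 1, 1, 106177296, 106177296), (15, 1, 1, 106172466, 106172466), (15, 1, 1, 106172451, 106168626), (15, 1, 1, 106173186, 106176561), (118, 1, 1, 106176816, 106173216), (15, 1, 1, 106172931, 106168881)]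
  [(15, 24), (118, 12)] = true := by
  decide +kernel

theorem t4_4_10_0 : chkS keys 1 3 p4_4_0 c4_10
  [(121, 16, 16, 105972771, 106037571), (121, 16, 16, 105972291, 105972291), (117, 16, 16, 106111236, 105923361), (117, 16, 16, 106112016, 106054416), (121, 16, 16, 105972546, 105979971), (121, 16, 16, 105972516, 105914691), (121, 16, 16, 105972786, 106041411), (117, 16, 16, 106111296, 105988896), (121, 16, 16, 105972276, 105910851)]
  [(117, 12), (121, 24)] = true := by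
  decide +kernel

theorem t4_4_11_0 : chkS keys 1 3 p4_4_0 c4_11
  [(160, 1, 1, 5509920, 5513520), (160, 1, 1, 5509680, 5509680), (25, 1, 1, 5505825, 5513475), (25, 1, 1, 5505330, 5509155), (160, 1, 1, 5509170, 5509170), (160, 1, 1, 5509155, 5505330), (160, 1, 1, 5509890, 5513265), (25, 1, 1, 5505810, 5513235), (160, 1, 1, 5509635, 5505585)]
  [(25, 12), (160, 24)] = true := by
  decide +kernel

theorem t4_4_12_0 : chkS keys 1 3 p4_4_0 c4_12
  [(152, 528, 528, 102826836, 101721411), (154, 528, 528, 39912276, 84944451), (152, 528, 528, 102827316, 102765891), (154, 528, 528, 39912756, 85988931), (120, 528, 528, 86049891, 23201091), (120, 528, 528, 38864451, 38864451), (120, 528, 528, 86049606, 6366531), (120, 528, 528, 38863716, 22029891), (154, 528, 528, 102827061, 100799811), (152, 528, 528, 39912501, 84022851), (154, 528, 528, 102827091, 101844291), (152, 528, 528, 39912531, 85067331), (154, 528, 528, 102826821, 100738371),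 (152, 528, 528, 39912261, 83961411), (120, 528, 528, 86049846, 6427971), (120, 528, 528, 38864436, 38803011), (152, 528, 528, 102827331, 102827331), (154, 528, 528, 39912771, 86050371)]
  [(120, 12), (152, 12), (154, 12)] = true := by
  decide +kernel

theorem t4_4_13_0 : chkS keys 1 3 p4_4_0 c4_13
  [(97, 1, 1, 72757506, 72757281), (97, 1, 1, 72757266, 72757266), (95, 1, 1, 72753411, 72745761), (96, 1, 1, 73728801, 88482051), (95, 1, 1, 72753171, 72745746), (96, 1, 1, 73728561, 88478211), (96, 1, 1, 73728306, 88477731), (95, 1, 1, 72753936, 72753936), (96, 1, 1, 73728291, 88473891), (95, 1, 1, 72753921, 72753921), (97, 1, 1, 72757776, 72757776), (97, 1, 1, 72757761, 72757761), (95, 1, 1, 72753456, 72749856), (96, 1, 1, 73728786, 88481811), (97, 1, 1, 72757536, 72757536), (97, 1, 1, 72757281, 72757506), (96, 1, 1, 73728531, 88474131), (95, 1, 1, 72753201, 72749826)]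
  [(95, 12), (96, 12), (97, 12)] = true := by
  decide +kernel

theorem t4_5_5_0 : chkS keys 1 3 p4_5_0 c4_5
  [(161, 0, 0, 105972786, 106041411), (122, 0, 0, 88147506, 40177731), (122, 0, 0, 88147491, 40173891), (122, 0, 0, 88146786, 23404611), (161, 0, 0, 105972546, 105979971), (122, 0, 0, 88146531, 23396931), (122, 0, 0, 88146726, 6627651), (122, 0, 0, 88146486, 6623811), (161, 0, 0, 105972516, 105914691)]
  [(122, 24), (161, 12)] = true := by
  decide +kernel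

theorem t4_5_6_0 : chkS keys 1 3 p4_5_0 c4_6
  [(124, 0, 0, 88146726, 6627651), (42, 0, 0, 52495461, 16934211), (124, 0, 0, 88146786, 23404611), (124, 0, 0, 88146486, 6623811), (124, 0, 0, 88147506, 40177731), (42, 0, 0, 52495941, 33645891), (42, 0, 0, 52495956, 34628931), (124, 0, 0, 88147491, 40173891), (124, 0, 0, 88146531, 23396931)]
  [(42, 12), (124, 24)] = true := by
  decide +kernel

theorem t4_5_7_0 : chkS keys 1 3 p4_5_0 c4_7
  [(123, 0, 0, 104923941, 100999491), (123, 0, 0, 104923986, 102047811), (42, 0, 0, 69272421, 17179971), (123, 0, 0, 104923701, 100995651), (42, 0, 0, 69273141, 33953091), (123, 0, 0, 104924466, 103092291), (42, 0, 0, 69273171, 34997571), (123, 0, 0, 104923731, 102040131), (123, 0, 0, 104924451, 103088451)]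
  [(42, 12), (123, 24)] = true := by
  decide +kernel

theorem t4_5_8_0 : chkS keys 1 3 p4_5_0 c4_8
  [(124, 0, 0, 38863716, 22029891), (124, 0, 0, 38863686, 5318211), (162, 0, 0, 105972786, 106041411), (124, 0, 0, 38864436, 38803011), (162, 0, 0, 105972546, 105979971), (124, 0, 0, 38863926, 5379651), (162, 0, 0, 105972516, 105914691), (124, 0, 0, 38864451, 38864451), (124, 0, 0, 38863971, 22152771)]
  [(124, 24), (162, 12)] = true := by
  decide +kernel

theorem t4_5_9_0 : chkS keys 1 3 p4_5_0 c4_9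
  [(161, 0, 0, 52495461, 16934211), (42, 0, 0, 105972546, 105979971), (42, 0, 0, 105972516, 105914691), (42, 0, 0, 105972786, 106041411), (161, 0, 0, 52495941, 33645891), (42, 0, 0, 105972276, 105910851), (42, 0, 0, 105972771, 106037571), (42, 0, 0, 105972291, 105972291), (161, 0, 0, 52495956, 34628931)]
  [(42, 24), (161, 12)] = true := by
  decide +kernel

theorem t4_5_10_0 : chkS keys 1 3 p4_5_0 c4_10
  [(122, 0, 0, 52495956, 34628931), (124, 0, 0, 52495716, 18900291), (124, 0, 0, 52495686, 2188611), (124, 0, 0, 52495956, 34628931), (122, 0, 0, 52495716, 18900291), (124, 0, 0, 52495446, 1205571), (124, 0, 0, 52495941, 33645891), (124, 0, 0, 52495461, 16934211), (122, 0, 0, 52495686, 2188611)]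
  [(122, 12), (124, 24)] = true := by
  decide +kernel

theorem t4_5_11_0 : chkS keys 1 3 p4_5_0 c4_11
  [(125, 0, 0, 2163525, 75075), (163, 0, 0, 5309490, 5378115), (163, 0, 0, 5309475, 5374275), (163, 0, 0, 5309250, 5316675), (125, 0, 0, 2163765, 136515), (163, 0, 0, 5308995, 5308995), (163, 0, 0, 5309220, 5251395), (163, 0, 0, 5308980, 5247555), (125, 0, 0, 2163795, 1180995)]
  [(125, 12), (163, 24)] = true := by
  decide +kernel

theorem t4_5_12_0 : chkS keys 1 3 p4_5_0 c4_12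
  [(17, 1, 1, 50746401, 70410501), (17, 1, 1, 3560466, 70406166), (73, 16, 16, 102827061, 100799811), (70, 16, 16, 39912501, 84022851), (73, 16, 16, 102827091, 101844291), (70, 16, 16, 39912531, 85067331), (73, 16, 16, 102826821, 100738371), (70, 16, 16, 39912261, 83961411), (17, 1, 1, 50745921, 70345221), (17, 1, 1, 3559746, 70340646), (70, 16, 16, 102827331, 102827331), (73, 16, 16, 39912771, 86050371), (70, 16, 16, 102826836, 101721411), (73, 16, 16, 39912276, 84944451), (70, 16, 16, 102827316, 102765891), (73, 16, 16, 39912756, 85988931), (17, 1, 1, 50745876, 70279701), (17, 1, 1, 3559716, 70275366)]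
  [(17, 12), (70, 12), (73, 12)] = true := by
  decide +kernel

theorem t4_5_13_0 : chkS keys 1 3 p4_5_0 c4_13
  [(164, 0, 0, 105972786, 106041411), (123, 0, 0, 54593061, 33907011), (164, 0, 0, 105972771, 106037571), (123, 0, 0, 54593106, 34955331), (124, 0, 0, 54592806, 2449731), (124, 0, 0, 54592866, 19226691), (123, 0, 0, 54592101, 17130051), (164, 0, 0, 105972546, 105979971), (124, 0, 0, 54592086, 1401411), (124, 0, 0, 54593106, 34955331), (164, 0, 0, 105972291, 105972291), (123, 0, 0, 54592866, 19226691), (124, 0, 0, 54592101, 17130051), (124, 0, 0, 54593061, 33907011), (123, 0, 0, 54592086, 1401411), (164, 0, 0, 105972516, 105914691), (123, 0, 0, 54592806, 2449731), (164, 0, 0, 105972276, 105910851)]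
  [(123, 12), (124, 12), (164, 12)] = true := by
  decide +kernel

theorem t4_6_6_0 : chkS keys 1 3 p4_6_0 c4_6
  [(133, 0, 0, 70321746, 35016771), (131, 0, 0, 88147506, 40177731), (131, 0, 0, 88146786, 23404611), (131, 0, 0, 88146486, 6623811), (133, 0, 0, 70320741, 17191491), (131, 0, 0, 88146531, 23396931), (131, 0, 0, 88146726, 6627651), (131, 0, 0, 88147491, 40173891), (133, 0, 0, 70321701, 33968451)]
  [(131, 24), (133, 12)] = true := by
  decide +kernel

theorem t4_6_7_0 : chkS keys 1 3 p4_6_0 c4_7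
  [(129, 0, 0, 33830481, 34878981), (127, 0, 0, 33899286, 4400661), (127, 0, 0, 33898806, 4396581), (127, 0, 0, 33900081, 37950981), (127, 0, 0, 33900051, 37946901), (129, 0, 0, 33829221, 17053221), (127, 0, 0, 33899361, 21177861), (129, 0, 0, 33830421, 33830421), (127, 0, 0, 33898851, 21169701)]
  [(127, 24), (129, 12)] = true := by
  decide +kernel

theorem t4_6_8_0 : chkS keys 1 3 p4_6_0 c4_8
  [(165, 0, 0, 105972786, 106041411), (131, 0, 0, 55641666, 38887491), (131, 0, 0, 55641186, 22175811), (131, 0, 0, 55640676, 22045251), (131, 0, 0, 55640646, 5333571), (165, 0, 0, 105972291, 105972291), (131, 0, 0, 55641636, 38822211), (165, 0, 0, 105972771, 106037571), (131, 0, 0, 55641126, 5398851)]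
  [(131, 24), (165, 12)] = true := by
  decide +kernel

theorem t4_6_9_0 : chkS keys 1 3 p4_6_0 c4_9
  [(129, 0, 0, 106181121, 106181121), (129, 0, 0, 106180641, 106180866), (42, 0, 0, 106111236, 105923361), (42, 0, 0, 106112016, 106054416), (129, 0, 0, 106180896, 106180896), (129, 0, 0, 106180866, 106180641), (129, 0, 0, 106181136, 106181136), (42, 0, 0, 106111296, 105988896), (129, 0, 0, 106180626, 106180626)]
  [(42, 12), (129, 24)] = true := by
  decide +kernel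

theorem t4_6_10_0 : chkS keys 1 3 p4_6_0 c4_10
  [(166, 0, 0, 105972786, 106041411), (166, 0, 0, 105972546, 105979971), (124, 0, 0, 52773126, 4416801), (124, 0, 0, 52774416, 37971216), (166, 0, 0, 105972291, 105972291), (166, 0, 0, 105972276, 105910851), (166, 0, 0, 105972771, 106037571), (124, 0, 0, 52773216, 21194016), (166, 0, 0, 105972516, 105914691)]
  [(124, 12), (166, 24)] = true := by
  decide +kernel

theorem t4_6_11_0 : chkS keys 1 3 p4_6_0 c4_11
  [(167, 0, 0, 5309490, 5378115), (167, 0, 0, 5309250, 5316675), (134, 0, 0, 3212610, 2183235), (134, 0, 0, 3211860, 1069635), (167, 0, 0, 5308995, 5308995), (167, 0, 0, 5308980, 5247555), (167, 0, 0, 5309475, 5374275), (134, 0, 0, 3212580, 2117955), (167, 0, 0, 5309220, 5251395)]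
  [(134, 12), (167, 24)] = true := by
  decide +kernel

theorem t4_6_12_0 : chkS keys 1 3 p4_6_0 c4_12
  [(75, 16, 16, 102826836, 101721411), (82, 16, 16, 39912276, 84944451), (75, 16, 16, 102827316, 102765891), (82, 16, 16, 39912756, 85988931), (55, 16, 16, 86049891, 23201091), (55, 16, 16, 38864451, 38864451), (55, 16, 16, 86049606, 6366531), (55, 16, 16, 38863716, 22029891), (82, 16, 16, 102827061, 100799811), (75, 16, 16, 39912501, 84022851), (82, 16, 16, 102827091, 101844291), (75, 16, 16, 39912531, 85067331), (82, 16, 16, 102826821, 100738371), (75, 16, 16, 39912261, 83961411), (55, 16, 16, 86049846, 6427971), (55, 16, 16, 38864436, 38803011), (75, 16, 16, 102827331, 102827331), (82, 16, 16, 39912771, 86050371)]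
  [(55, 12), (75, 12), (82, 12)] = true := by
  decide +kernel

theorem t4_6_13_0 : chkS keys 1 3 p4_6_0 c4_13
  [(166, 0, 0, 103875906, 102846531), (166, 0, 0, 103875666, 101863491), (132, 0, 0, 103875906, 102846531), (168, 0, 0, 105972786, 106041411), (132, 0, 0, 103875666, 101863491), (168, 0, 0, 103875906, 102846531), (168, 0, 0, 103875141, 100749891), (132, 0, 0, 103875156, 101732931), (168, 0, 0, 103875156, 101732931), (132, 0, 0, 103875141, 100749891), (166, 0, 0, 103875156, 101732931), (166, 0, 0, 103875141, 100749891), (132, 0, 0, 103875876, 102781251), (168, 0, 0, 103875621, 100815171), (166, 0, 0, 103875876, 102781251), (166, 0, 0, 103875621, 100815171), (168, 0, 0, 103875876, 102781251), (132, 0, 0, 103875621, 100815171)]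
  [(132, 12), (166, 12), (168, 12)] = true := by
  decide +kernel

theorem t4_7_7_0 : chkS keys 1 3 p4_7_0 c4_7
  [(169, 0, 0, 106042416, 106042416), (126, 0, 0, 104989521, 102048771), (126, 0, 0, 104990001, 103093251), (126, 0, 0, 104989461, 101000211), (169, 0, 0, 106042371, 106038321), (126, 0, 0, 104989971, 103089171), (126, 0, 0, 104988981, 100996131), (126, 0, 0, 104989011, 102040611), (169, 0, 0, 106041411, 105972786)]
  [(126, 24), (169, 12)] = true := by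
  decide +kernel

theorem t4_7_8_0 : chkS keys 1 3 p4_7_0 c4_8
  [(170, 0, 0, 106042416, 106042416), (127, 0, 0, 55707201, 38888451), (127, 0, 0, 55706721, 22176771), (127, 0, 0, 55707156, 38822931), (170, 0, 0, 106042371, 106038321), (127, 0, 0, 55706646, 5399571), (127, 0, 0, 55705956, 22045731), (127, 0, 0, 55705926, 5334051), (170, 0, 0, 106041411, 105972786)]
  [(127, 24), (170, 12)] = true := by
  decide +kernel

theorem t4_7_9_0 : chkS keys 1 3 p4_7_0 c4_9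
  [(169, 0, 0, 70391376, 35017776), (169, 0, 0, 70391136, 19289136), (42, 0, 0, 106176771, 106169121), (169, 0, 0, 70391301, 33969201), (42, 0, 0, 106176816, 106173216), (169, 0, 0, 70391046, 2511921), (42, 0, 0, 106177296, 106177296), (169, 0, 0, 70389861, 17191986), (169, 0, 0, 70389846, 1463346)]
  [(42, 12), (169, 24)] = true := by
  decide +kernel

theorem t4_7_10_0 : chkS keys 1 3 p4_7_0 c4_10
  [(171, 0, 0, 106042416, 106042416), (171, 0, 0, 106042176, 105980976), (123, 0, 0, 52838661, 67331361), (171, 0, 0, 106042371, 106038321), (123, 0, 0, 52838736, 68379936), (171, 0, 0, 106042116, 105915441), (123, 0, 0, 52839696, 69428496), (171, 0, 0, 106041411, 105972786), (171, 0, 0, 106041396, 105911346)]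
  [(123, 12), (171, 24)] = true := by
  decide +kernel

theorem t4_7_11_0 : chkS keys 1 3 p4_7_0 c4_11
  [(172, 0, 0, 5379120, 5379120), (172, 0, 0, 3282240, 2184240), (130, 0, 0, 3278145, 2184195), (172, 0, 0, 5379075, 5375025), (130, 0, 0, 3278100, 2118675), (172, 0, 0, 3282180, 2118705), (130, 0, 0, 3277140, 1070115), (172, 0, 0, 5378115, 5309490), (172, 0, 0, 5378100, 5248050)]
  [(130, 12), (172, 24)] = true := by
  decide +kernel

theorem t4_7_12_0 : chkS keys 1 3 p4_7_0 c4_12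
  [(78, 1, 1, 20337666, 70406241), (96, 16, 16, 39064416, 22292016), (78, 1, 1, 20336706, 70340706), (96, 16, 16, 39065136, 39065136), (52, 16, 16, 86185056, 23217456), (52, 16, 16, 38999616, 38880816), (96, 16, 16, 86250246, 6563121), (78, 1, 1, 51794976, 70410576), (52, 16, 16, 86184966, 6440241), (52, 16, 16, 38999556, 38815281), (78, 1, 1, 20336676, 70275426), (96, 16, 16, 39065091, 39061041), (52, 16, 16, 86184006, 6374706), (52, 16, 16, 38998116, 22038066), (96, 16, 16, 86249526, 6559026), (78, 1, 1, 51794496, 70345296), (96, 16, 16, 86249571, 23332146), (78, 1, 1, 51794436, 70279761)]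
  [(52, 12), (78, 12), (96, 12)] = true := by
  decide +kernel

theorem t4_7_13_0 : chkS keys 1 3 p4_7_0 c4_13
  [(171, 0, 0, 103945536, 102847536), (171, 0, 0, 103945296, 101864496), (128, 0, 0, 103941441, 102847491), (173, 0, 0, 106042416, 106042416), (128, 0, 0, 103941201, 101864451), (173, 0, 0, 103945536, 102847536), (128, 0, 0, 103941396, 102781971), (173, 0, 0, 106042371, 106038321), (171, 0, 0, 103945476, 102782001), (171, 0, 0, 103945221, 100815921), (173, 0, 0, 103945476, 102782001), (128, 0, 0, 103941141, 100815891), (173, 0, 0, 103944261, 100750386), (128, 0, 0, 103940436, 101733411), (173, 0, 0, 103944276, 101733426), (128, 0, 0, 103940421, 100750371), (171, 0, 0, 103944276, 101733426), (171, 0, 0, 103944261, 100750386)]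
  [(128, 12), (171, 12), (173, 12)] = true := by
  decide +kernel

theorem t4_8_8_0 : chkS keys 1 3 p4_8_0 c4_8
  [(174, 0, 0, 106107936, 106053936), (131, 0, 0, 39195456, 72427056), (131, 0, 0, 39195696, 72488496), (131, 0, 0, 39195396, 72361521), (174, 0, 0, 106107906, 106053681), (131, 0, 0, 39195651, 72484401), (131, 0, 0, 39194676, 72357426), (131, 0, 0, 39194691, 72418866), (174, 0, 0, 106106946, 105988146)]
  [(131, 24), (174, 12)] = true := by
  decide +kernel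

theorem t4_8_9_0 : chkS keys 1 3 p4_8_0 c4_9
  [(136, 0, 0, 106054416, 106112016), (136, 0, 0, 106053936, 106107936), (175, 0, 0, 106107936, 106053936), (136, 0, 0, 106054401, 106112001), (175, 0, 0, 106107906, 106053681), (136, 0, 0, 106053891, 106103841), (175, 0, 0, 106106946, 105988146), (136, 0, 0, 106053681, 106107906), (136, 0, 0, 106053651, 106103826)]
  [(136, 24), (175, 12)] = true := by
  decide +kernel

theorem t4_8_10_0 : chkS keys 1 3 p4_8_0 c4_10
  [(176, 0, 0, 106107936, 106053936), (176, 0, 0, 106107456, 105988656), (168, 0, 0, 103027536, 101983536), (176, 0, 0, 106107906, 106053681), (168, 0, 0, 103027461, 100934961), (176, 0, 0, 106107396, 105923121), (168, 0, 0, 103026741, 100930866), (176, 0, 0, 106106946, 105988146), (176, 0, 0, 106106916, 105922866)]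
  [(168, 12), (176, 24)] = true := by
  decide +kernel

theorem t4_8_11_0 : chkS keys 1 3 p4_8_0 c4_11
  [(177, 0, 0, 5444640, 5390640), (177, 0, 0, 2364720, 2364720), (167, 0, 0, 2364240, 1320240), (177, 0, 0, 5444610, 5390385), (167, 0, 0, 2364165, 271665), (177, 0, 0, 2364675, 2360625), (167, 0, 0, 2363445, 267570), (177, 0, 0, 5443650, 5324850), (177, 0, 0, 5443620, 5259570)]
  [(167, 12), (177, 24)] = true := by
  decide +kernel

theorem t4_8_12_0 : chkS keys 1 3 p4_8_0 c4_12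
  [(81, 1, 1, 19162371, 52692321), (102, 1, 1, 3433746, 52711446), (81, 1, 1, 19161171, 51643746), (102, 1, 1, 3432786, 51662886), (62, 16, 16, 103028016, 103028016), (62, 16, 16, 40112976, 85206576), (102, 1, 1, 50619681, 52715781), (81, 1, 1, 34891056, 52696656), (62, 16, 16, 103027971, 103023921), (62, 16, 16, 40112901, 84158001), (81, 1, 1, 19161141, 50599266), (102, 1, 1, 3432741, 50614566), (62, 16, 16, 103026771, 101975346), (62, 16, 16, 40112181, 84153906), (102, 1, 1, 50618961, 51667461), (81, 1, 1, 34890576, 51652176), (102, 1, 1, 50618901, 50618901), (81, 1, 1, 34890501, 50603601)]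
  [(62, 12), (81, 12), (102, 12)] = true := by
  decide +kernel

theorem t4_8_13_0 : chkS keys 1 3 p4_8_0 c4_13
  [(176, 0, 0, 103028016, 103028016), (176, 0, 0, 103027536, 101983536), (166, 0, 0, 103028016, 103028016), (178, 0, 0, 106107936, 106053936), (166, 0, 0, 103027536, 101983536), (178, 0, 0, 106107456, 105988656), (166, 0, 0, 103027971, 103023921), (178, 0, 0, 106107906, 106053681), (176, 0, 0, 103027971, 103023921), (176, 0, 0, 103027461, 100934961), (178, 0, 0, 106107396, 105923121), (166, 0, 0, 103027461, 100934961), (178, 0, 0, 106106946, 105988146), (166, 0, 0, 103026771, 101975346), (178, 0, 0, 106106916, 105922866), (166, 0, 0, 103026741, 100930866), (176, 0, 0, 103026771, 101975346), (176, 0, 0, 103026741, 100930866)]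
  [(166, 12), (176, 12), (178, 12)] = true := by
  decide +kernel

theorem t4_9_9_0 : chkS keys 1 3 p4_9_0 c4_9
  [(39, 0, 0, 88286736, 40190736), (41, 0, 0, 106181136, 106181136), (41, 0, 0, 106181121, 106181121), (41, 0, 0, 106180896, 106180896), (39, 0, 0, 88285536, 23413536), (41, 0, 0, 106180641, 106180866), (41, 0, 0, 106180866, 106180641), (41, 0, 0, 106180626, 106180626), (39, 0, 0, 88285446, 6636321)]
  [(39, 12), (41, 24)] = true := by
  decide +kernel

theorem t4_9_10_0 : chkS keys 1 3 p4_9_0 c4_10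
  [(40, 0, 0, 88286736, 40190736), (136, 0, 0, 52843536, 70411536), (136, 0, 0, 52843521, 70411521), (136, 0, 0, 52842816, 70346016), (40, 0, 0, 88285536, 23413536), (136, 0, 0, 52842561, 70345986), (136, 0, 0, 52842756, 70280481), (136, 0, 0, 52842516, 70280466), (40, 0, 0, 88285446, 6636321)]
  [(40, 12), (136, 24)] = true := by
  decide +kernel

theorem t4_9_11_0 : chkS keys 1 3 p4_9_0 c4_11
  [(43, 0, 0, 2442000, 4400400), (179, 0, 0, 5448720, 5391120), (179, 0, 0, 5448705, 5391105), (179, 0, 0, 5448000, 5325600), (43, 0, 0, 2441520, 4396320), (179, 0, 0, 5447745, 5325570), (179, 0, 0, 5447940, 5260065), (179, 0, 0, 5447700, 5260050), (43, 0, 0, 2441475, 4392225)]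
  [(43, 12), (179, 24)] = true := by
  decide +kernel

theorem t4_9_12_0 : chkS keys 1 3 p4_9_0 c4_12
  [(15, 16, 16, 69620496, 70657296), (15, 16, 16, 38163201, 70592001), (180, 16, 16, 106112016, 106054416), (114, 16, 16, 37114881, 70407681), (180, 16, 16, 106112001, 106054401), (114, 16, 16, 37114896, 70407696), (180, 16, 16, 106111296, 105988896), (114, 16, 16, 37113921, 70342146), (15, 16, 16, 69620016, 70653216), (15, 16, 16, 38162481, 70587906), (114, 16, 16, 52842816, 70346016), (180, 16, 16, 90382401, 90260226), (114, 16, 16, 52842516, 70280466), (180, 16, 16, 90382596, 90194721), (114, 16, 16, 52842756, 70280481), (180, 16, 16, 90382356, 90194706), (15, 16, 16, 69619971, 70649121), (15, 16, 16, 38162451, 70583826)]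
  [(15, 12), (114, 12), (180, 12)] = true := by
  decide +kernel

theorem t4_9_13_0 : chkS keys 1 3 p4_9_0 c4_13
  [(181, 0, 0, 106112016, 106054416), (169, 0, 0, 39073296, 39073296), (181, 0, 0, 106112001, 106054401), (169, 0, 0, 39073281, 39073281), (129, 0, 0, 37114881, 70407681), (129, 0, 0, 37114896, 70407696), (169, 0, 0, 39072096, 22296096), (181, 0, 0, 106111296, 105988896), (129, 0, 0, 37113921, 70342146), (129, 0, 0, 37114176, 70342176), (181, 0, 0, 106111041, 105988866), (169, 0, 0, 39071841, 22296066), (129, 0, 0, 37113876, 70276626), (129, 0, 0, 37114116, 70276641), (169, 0, 0, 39072006, 5518881), (181, 0, 0, 106111236, 105923361), (169, 0, 0, 39071766, 5518866), (181, 0, 0, 106110996, 105923346)]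
  [(129, 12), (169, 12), (181, 12)] = true := by
  decide +kernel

theorem t4_10_10_0 : chkS keys 1 3 p4_10_0 c4_10
  [(182, 0, 0, 106112016, 106054416), (135, 0, 0, 52843536, 70411536), (135, 0, 0, 52843521, 70411521), (135, 0, 0, 52842816, 70346016), (182, 0, 0, 106111296, 105988896), (135, 0, 0, 52842561, 70345986), (135, 0, 0, 52842756, 70280481), (135, 0, 0, 52842516, 70280466), (182, 0, 0, 106111236, 105923361)]
  [(135, 24), (182, 12)] = true := by
  decide +kernel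

theorem t4_10_11_0 : chkS keys 1 3 p4_10_0 c4_11
  [(183, 0, 0, 5448720, 5391120), (184, 0, 0, 5448720, 5391120), (184, 0, 0, 5448705, 5391105), (184, 0, 0, 5448000, 5325600), (183, 0, 0, 5448000, 5325600), (184, 0, 0, 5447745, 5325570), (184, 0, 0, 5447940, 5260065), (184, 0, 0, 5447700, 5260050), (183, 0, 0, 5447940, 5260065)]
  [(183, 12), (184, 24)] = true := by
  decide +kernel

theorem t4_10_12_0 : chkS keys 1 3 p4_10_0 c4_12
  [(121, 1, 1, 19289091, 70387041), (121, 1, 1, 35017776, 70391376), (76, 1, 1, 20332626, 68374626), (89, 16, 16, 6567186, 86257686), (76, 1, 1, 20332581, 67326306), (89, 16, 16, 6567201, 86257926), (76, 1, 1, 20333826, 69423201), (89, 16, 16, 6566226, 85209126), (121, 1, 1, 19288131, 70321506), (121, 1, 1, 35017536, 70329936), (89, 16, 16, 100938321, 101986821), (76, 1, 1, 51790341, 67330641), (89, 16, 16, 100938021, 100938021), (76, 1, 1, 51791136, 69427536), (89, 16, 16, 100938261, 100938261),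 (76, 1, 1, 51790416, 68379216), (121, 1, 1, 19288116, 70260066), (121, 1, 1, 35017476, 70264401)]
  [(76, 12), (89, 12), (121, 12)] = true := by
  decide +kernel

theorem t4_10_13_0 : chkS keys 1 3 p4_10_0 c4_13
  [(185, 0, 0, 106112016, 106054416), (171, 0, 0, 37114896, 70407696), (185, 0, 0, 106112001, 106054401), (171, 0, 0, 37114881, 70407681), (128, 0, 0, 37114881, 70407681), (128, 0, 0, 37114896, 70407696), (171, 0, 0, 37114176, 70342176), (185, 0, 0, 106111296, 105988896), (128, 0, 0, 37113921, 70342146), (128, 0, 0, 37114176, 70342176), (185, 0, 0, 106111041, 105988866), (171, 0, 0, 37113921, 70342146), (128, 0, 0, 37113876, 70276626), (128, 0, 0, 37114116, 70276641), (171, 0, 0, 37114116, 70276641), (185, 0, 0, 106111236, 105923361), (171, 0, 0, 37113876, 70276626), (185, 0, 0, 106110996, 105923346)]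
  [(128, 12), (171, 12), (185, 12)] = true := by
  decide +kernel

theorem t4_11_11_0 : chkS keys 1 3 p4_11_0 c4_11
  [(186, 0, 0, 271120, 271120), (187, 0, 0, 271120, 271120), (187, 0, 0, 201730, 147505), (187, 0, 0, 270640, 267040), (186, 0, 0, 270640, 267040), (187, 0, 0, 200770, 81970), (187, 0, 0, 201220, 16945), (187, 0, 0, 200740, 16690), (186, 0, 0, 270595, 262945)]
  [(186, 12), (187, 24)] = true := by
  decide +kernel

theorem t4_11_12_0 : chkS keys 1 3 p4_11_0 c4_12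
  [(188, 16, 16, 5514000, 5514000), (188, 16, 16, 4530945, 4530945), (80, 1, 1, 1196115, 1246290), (99, 16, 16, 341010, 4337685), (80, 1, 1, 1196085, 201810), (99, 16, 16, 341025, 4337925), (80, 1, 1, 1197315, 2294865), (99, 16, 16, 340290, 4272165), (188, 16, 16, 5513520, 5509920), (188, 16, 16, 4530225, 4526850), (99, 16, 16, 5255745, 5321220), (80, 1, 1, 2179845, 206145), (99, 16, 16, 5255460, 5255460), (80, 1, 1, 2180400, 2299200), (99, 16, 16, 5255700, 5255700), (80, 1, 1, 2179920, 1254720), (188, 16, 16, 5513475, 5505825), (188, 16, 16, 4530195, 4522770)]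
  [(80, 12), (99, 12), (188, 12)] = true := by
  decide +kernel

theorem t4_11_13_0 : chkS keys 1 3 p4_11_0 c4_13
  [(184, 0, 0, 3228240, 1266240), (189, 0, 0, 5514000, 5514000), (184, 0, 0, 3228165, 217665), (189, 0, 0, 5513985, 5513985), (190, 0, 0, 5514000, 5514000), (190, 0, 0, 5440545, 5390595), (189, 0, 0, 5513520, 5509920), (184, 0, 0, 3228960, 2314560), (190, 0, 0, 5513520, 5509920), (190, 0, 0, 5440065, 5325315), (184, 0, 0, 3227685, 217410), (189, 0, 0, 5513265, 5509890), (190, 0, 0, 5513475, 5505825), (190, 0, 0, 5440020, 5259795), (189, 0, 0, 5513475, 5505825), (184, 0, 0, 3228930, 2314305), (189, 0, 0, 5513235, 5505810), (184, 0, 0, 3227730, 1265730)]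
  [(184, 12), (189, 12), (190, 12)] = true := by
  decide +kernel

theorem t4_12_12_0 : chkS keys 1 3 p4_12_0 c4_12
  [(191, 513, 513, 106107936, 106053936), (192, 513, 513, 106107936, 106053936), (152, 513, 513, 104936706, 103100481), (153, 18, 18, 35013456, 68363856), (153, 258, 33, 104932611, 103088961), (193, 513, 513, 106107936, 106053936), (192, 513, 513, 90256386, 90320961), (191, 513, 513, 90256386, 90320961), (153, 258, 33, 104994096, 103093296), (193, 513, 513, 105985026, 106049601), (152, 513, 513, 105059616, 103104816), (153, 18, 18, 34890501, 50603601), (152, 513, 513, 104935506, 102051906), (153, 18, 18, 35013936, 69408336), (191, 513, 513, 106107456, 105988656), (192, 513, 513, 106107456, 105988656), (193, 513, 513, 90378816, 90260016), (153, 258, 33, 73474131, 85328706), (153, 258, 33, 104993616, 102048816), (193, 513, 513, 105984066, 105984066), (192, 513, 513, 90255426, 90255426), (191, 513, 513, 90255426,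 90255426), (153, 18, 18, 19161141, 50599266), (152, 513, 513, 73601616, 85344816), (153, 18, 18, 19285251, 69404001), (152, 513, 513, 73478181, 84291906), (193, 513, 513, 90378756, 90194481), (153, 258, 33, 73474101, 84284226), (191, 513, 513, 106107396, 105923121), (192, 513, 513, 106107396, 105923121), (193, 513, 513, 90255396, 90190146), (153, 258, 33, 73536261, 84288561), (153, 18, 18, 19161171, 51643746), (152, 513, 513, 73601541, 84296241), (192, 513, 513, 90255396, 90190146), (191, 513, 513, 90255396, 90190146)]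
  [(152, 6), (153, 12), (191, 6), (192, 6), (193, 6)] = true := by
  decide +kernel

theorem t4_12_13_0 : chkS keys 1 3 p4_12_0 c4_13
  [(78, 1, 1, 104932611, 103088961), (194, 1, 1, 106107936, 106053936), (95, 16, 16, 70648101, 67522851), (155, 1, 1, 104932611, 103088961), (90, 16, 16, 69599541, 67507491), (77, 1, 1, 104932611, 103088961), (95, 16, 16, 70279506, 51793956), (155, 1, 1, 104994096, 103093296), (78, 1, 1, 104994096, 103093296), (194, 1, 1, 105985026, 106049601), (77, 1, 1, 104994096, 103093296), (90, 16, 16, 69230931, 51774756), (194, 1, 1, 106107456, 105988656), (78, 1, 1, 104931411, 102040386), (90, 16, 16, 69600021, 67511571), (77, 1, 1, 104931411, 102040386), (95, 16, 16, 70648341, 67523091), (155, 1, 1, 104931411, 102040386), (155, 1, 1, 104993616, 102048816), (95, 16, 16, 70280466, 52842516), (77, 1, 1, 104993616, 102048816), (90, 16, 16, 69231891, 52823316), (78, 1, 1, 104993616, 102048816), (194, 1,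 1, 105984066, 105984066), (90, 16, 16, 69600081, 68560131), (77, 1, 1, 104931381, 100995906), (194, 1, 1, 106107396, 105923121), (78, 1, 1, 104931381, 100995906), (155, 1, 1, 104931381, 100995906), (95, 16, 16, 70648401, 68571651), (77, 1, 1, 104993541, 101000241), (90, 16, 16, 69231921, 52827396), (155, 1, 1, 104993541, 101000241), (95, 16, 16, 70280481, 52842756), (194, 1, 1, 105984036, 105918786), (78, 1, 1, 104993541, 101000241)]
  [(77, 6), (78, 6), (90, 6), (95, 6), (155, 6), (194, 6)] = true := by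
  decide +kernel

theorem t4_13_13_0 : chkS keys 1 3 p4_13_0 c4_13
  [(195, 0, 0, 106173216, 106176816), (135, 0, 0, 54924576, 69558576), (196, 0, 0, 106173216, 106176816), (128, 0, 0, 38147376, 69539376), (128, 0, 0, 101859411, 101909586), (126, 0, 0, 39195696, 72488496), (135, 0, 0, 54923856, 68510256), (195, 0, 0, 106172976, 106172976), (128, 0, 0, 101860611, 102958161), (126, 0, 0, 39195456, 72427056), (196, 0, 0, 106172976, 106172976), (128, 0, 0, 38146896, 68494896), (196, 0, 0, 106173186, 106176561), (128, 0, 0, 38147331, 69535281), (195, 0, 0, 106173186, 106176561), (135, 0, 0, 54924546, 69558321), (126, 0, 0, 39195651, 72484401), (128, 0, 0, 101859381, 100865106), (128, 0, 0, 101860656, 102962256), (126, 0, 0, 39195396, 72361521), (135, 0, 0, 54923781, 67461681), (195, 0, 0, 106172931, 106168881), (128, 0, 0, 38146821, 67446321), (196, 0, 0, 106172931, 106168881), (128, 0, 0, 38146131, 68486706), (196, 0, 0, 106172466,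 106172466), (126, 0, 0, 39194691, 72418866), (128, 0, 0, 101860101, 100869201), (195, 0, 0, 106172466, 106172466), (135, 0, 0, 54923346, 68509746), (126, 0, 0, 39194676, 72357426), (128, 0, 0, 101860176, 101917776), (128, 0, 0, 38146101, 67442226), (196, 0, 0, 106172451, 106168626), (135, 0, 0, 54923301, 67461426), (195, 0, 0, 106172451, 106168626)]
  [(126, 6), (128, 12), (135, 6), (195, 6), (196, 6)] = true := by
  decide +kernel

section

variable {κ ι : Type*} [Fintype κ] [Fintype ι] [Inhabited κ] [Inhabited ι]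

def r4_0_0 : List (ℕ × ℤ) := [(0, 12), (1, 24)]

theorem h4_0_0 (E : Env κ ι) : inn E 1 3 c4_0 c4_0 = dotS (ek E keys) r4_0_0 :=
  innS_eqZ E _ _ _ _ _ _ _ (chkS_sound E keys 1 3 _ _ _ _ t4_0_0_0) (by decide +kernel)

def r4_0_1 : List (ℕ × ℤ) := [(1, 12), (2, 24)]

theorem h4_0_1 (E : Env κ ι) : inn E 1 3 c4_0 c4_1 = dotS (ek E keys) r4_0_1 :=
  innS_eqZ E _ _ _ _ _ _ _ (chkS_sound E keys 1 3 _ _ _ _ t4_0_1_0) (by decide +kernel)

def r4_0_2 : List (ℕ × ℤ) := [(106, 24), (139, 12)]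

theorem h4_0_2 (E : Env κ ι) : inn E 1 3 c4_0 c4_2 = dotS (ek E keys) r4_0_2 :=
  innS_eqZ E _ _ _ _ _ _ _ (chkS_sound E keys 1 3 _ _ _ _ t4_0_2_0) (by decide +kernel)

def r4_0_3 : List (ℕ × ℤ) := [(105, 24), (106, 12)]

theorem h4_0_3 (E : Env κ ι) : inn E 1 3 c4_0 c4_3 = dotS (ek E keys) r4_0_3 :=
  innS_eqZ E _ _ _ _ _ _ _ (chkS_sound E keys 1 3 _ _ _ _ t4_0_3_0) (by decide +kernel)

def r4_0_4 : List (ℕ × ℤ) := [(3, 24), (106, 12)]

theorem h4_0_4 (E : Env κ ι) : inn E 1 3 c4_0 c4_4 = dotS (ek E keys) r4_0_4 :=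
  innS_eqZ E _ _ _ _ _ _ _ (chkS_sound E keys 1 3 _ _ _ _ t4_0_4_0) (by decide +kernel)

def r4_0_5 : List (ℕ × ℤ) := [(10, 24), (56, 12)]

theorem h4_0_5 (E : Env κ ι) : inn E 1 3 c4_0 c4_5 = dotS (ek E keys) r4_0_5 :=
  innS_eqZ E _ _ _ _ _ _ _ (chkS_sound E keys 1 3 _ _ _ _ t4_0_5_0) (by decide +kernel)

def r4_0_6 : List (ℕ × ℤ) := [(10, 12), (11, 24)]

theorem h4_0_6 (E : Env κ ι) : inn E 1 3 c4_0 c4_6 = dotS (ek E keys) r4_0_6 :=
  innS_eqZ E _ _ _ _ _ _ _ (chkS_sound E keys 1 3 _ _ _ _ t4_0_6_0) (by decide +kernel)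

def r4_0_7 : List (ℕ × ℤ) := [(10, 12), (46, 24)]

theorem h4_0_7 (E : Env κ ι) : inn E 1 3 c4_0 c4_7 = dotS (ek E keys) r4_0_7 :=
  innS_eqZ E _ _ _ _ _ _ _ (chkS_sound E keys 1 3 _ _ _ _ t4_0_7_0) (by decide +kernel)

def r4_0_8 : List (ℕ × ℤ) := [(8, 24), (60, 12)]

theorem h4_0_8 (E : Env κ ι) : inn E 1 3 c4_0 c4_8 = dotS (ek E keys) r4_0_8 :=
  innS_eqZ E _ _ _ _ _ _ _ (chkS_sound E keys 1 3 _ _ _ _ t4_0_8_0) (by decide +kernel)

def r4_0_9 : List (ℕ × ℤ) := [(6, 12), (9, 24)]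

theorem h4_0_9 (E : Env κ ι) : inn E 1 3 c4_0 c4_9 = dotS (ek E keys) r4_0_9 :=
  innS_eqZ E _ _ _ _ _ _ _ (chkS_sound E keys 1 3 _ _ _ _ t4_0_9_0) (by decide +kernel)

def r4_0_10 : List (ℕ × ℤ) := [(7, 12), (8, 24)]

theorem h4_0_10 (E : Env κ ι) : inn E 1 3 c4_0 c4_10 = dotS (ek E keys) r4_0_10 :=
  innS_eqZ E _ _ _ _ _ _ _ (chkS_sound E keys 1 3 _ _ _ _ t4_0_10_0) (by decide +kernel)

def r4_0_11 : List (ℕ × ℤ) := [(18, 12), (59, 24)]

theorem h4_0_11 (E : Env κ ι) : inn E 1 3 c4_0 c4_11 = dotS (ek E keys) r4_0_11 :=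
  innS_eqZ E _ _ _ _ _ _ _ (chkS_sound E keys 1 3 _ _ _ _ t4_0_11_0) (by decide +kernel)

def r4_0_12 : List (ℕ × ℤ) := [(3, 12), (105, 12), (140, 12)]

theorem h4_0_12 (E : Env κ ι) : inn E 1 3 c4_0 c4_12 = dotS (ek E keys) r4_0_12 :=
  innS_eqZ E _ _ _ _ _ _ _ (chkS_sound E keys 1 3 _ _ _ _ t4_0_12_0) (by decide +kernel)

def r4_0_13 : List (ℕ × ℤ) := [(11, 12), (46, 12), (58, 12)]

theorem h4_0_13 (E : Env κ ι) : inn E 1 3 c4_0 c4_13 = dotS (ek E keys) r4_0_13 :=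
  innS_eqZ E _ _ _ _ _ _ _ (chkS_sound E keys 1 3 _ _ _ _ t4_0_13_0) (by decide +kernel)

def r4_1_1 : List (ℕ × ℤ) := [(2, 12), (107, 24)]

theorem h4_1_1 (E : Env κ ι) : inn E 1 3 c4_1 c4_1 = dotS (ek E keys) r4_1_1 :=
  innS_eqZ E _ _ _ _ _ _ _ (chkS_sound E keys 1 3 _ _ _ _ t4_1_1_0) (by decide +kernel)

def r4_1_2 : List (ℕ × ℤ) := [(4, 24), (141, 12)]

theorem h4_1_2 (E : Env κ ι) : inn E 1 3 c4_1 c4_2 = dotS (ek E keys) r4_1_2 :=
  innS_eqZ E _ _ _ _ _ _ _ (chkS_sound E keys 1 3 _ _ _ _ t4_1_2_0) (by decide +kernel)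

def r4_1_3 : List (ℕ × ℤ) := [(4, 12), (108, 24)]

theorem h4_1_3 (E : Env κ ι) : inn E 1 3 c4_1 c4_3 = dotS (ek E keys) r4_1_3 :=
  innS_eqZ E _ _ _ _ _ _ _ (chkS_sound E keys 1 3 _ _ _ _ t4_1_3_0) (by decide +kernel)

def r4_1_4 : List (ℕ × ℤ) := [(4, 12), (109, 24)]

theorem h4_1_4 (E : Env κ ι) : inn E 1 3 c4_1 c4_4 = dotS (ek E keys) r4_1_4 :=
  innS_eqZ E _ _ _ _ _ _ _ (chkS_sound E keys 1 3 _ _ _ _ t4_1_4_0) (by decide +kernel)

def r4_1_5 : List (ℕ × ℤ) := [(14, 24), (61, 12)]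

theorem h4_1_5 (E : Env κ ι) : inn E 1 3 c4_1 c4_5 = dotS (ek E keys) r4_1_5 :=
  innS_eqZ E _ _ _ _ _ _ _ (chkS_sound E keys 1 3 _ _ _ _ t4_1_5_0) (by decide +kernel)

def r4_1_6 : List (ℕ × ℤ) := [(14, 12), (49, 24)]

theorem h4_1_6 (E : Env κ ι) : inn E 1 3 c4_1 c4_6 = dotS (ek E keys) r4_1_6 :=
  innS_eqZ E _ _ _ _ _ _ _ (chkS_sound E keys 1 3 _ _ _ _ t4_1_6_0) (by decide +kernel)

def r4_1_7 : List (ℕ × ℤ) := [(13, 12), (48, 24)]

theorem h4_1_7 (E : Env κ ι) : inn E 1 3 c4_1 c4_7 = dotS (ek E keys) r4_1_7 :=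
  innS_eqZ E _ _ _ _ _ _ _ (chkS_sound E keys 1 3 _ _ _ _ t4_1_7_0) (by decide +kernel)

def r4_1_8 : List (ℕ × ℤ) := [(47, 24), (67, 12)]

theorem h4_1_8 (E : Env κ ι) : inn E 1 3 c4_1 c4_8 = dotS (ek E keys) r4_1_8 :=
  innS_eqZ E _ _ _ _ _ _ _ (chkS_sound E keys 1 3 _ _ _ _ t4_1_8_0) (by decide +kernel)

def r4_1_9 : List (ℕ × ℤ) := [(9, 12), (12, 24)]

theorem h4_1_9 (E : Env κ ι) : inn E 1 3 c4_1 c4_9 = dotS (ek E keys) r4_1_9 :=
  innS_eqZ E _ _ _ _ _ _ _ (chkS_sound E keys 1 3 _ _ _ _ t4_1_9_0) (by decide +kernel)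

def r4_1_10 : List (ℕ × ℤ) := [(8, 12), (63, 24)]

theorem h4_1_10 (E : Env κ ι) : inn E 1 3 c4_1 c4_10 = dotS (ek E keys) r4_1_10 :=
  innS_eqZ E _ _ _ _ _ _ _ (chkS_sound E keys 1 3 _ _ _ _ t4_1_10_0) (by decide +kernel)

def r4_1_11 : List (ℕ × ℤ) := [(21, 12), (66, 24)]

theorem h4_1_11 (E : Env κ ι) : inn E 1 3 c4_1 c4_11 = dotS (ek E keys) r4_1_11 :=
  innS_eqZ E _ _ _ _ _ _ _ (chkS_sound E keys 1 3 _ _ _ _ t4_1_11_0) (by decide +kernel)

def r4_1_12 : List (ℕ × ℤ) := [(108, 12), (109, 12), (142, 12)]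

theorem h4_1_12 (E : Env κ ι) : inn E 1 3 c4_1 c4_12 = dotS (ek E keys) r4_1_12 :=
  innS_eqZ E _ _ _ _ _ _ _ (chkS_sound E keys 1 3 _ _ _ _ t4_1_12_0) (by decide +kernel)

def r4_1_13 : List (ℕ × ℤ) := [(48, 12), (64, 12), (65, 12)]

theorem h4_1_13 (E : Env κ ι) : inn E 1 3 c4_1 c4_13 = dotS (ek E keys) r4_1_13 :=
  innS_eqZ E _ _ _ _ _ _ _ (chkS_sound E keys 1 3 _ _ _ _ t4_1_13_0) (by decide +kernel)

def r4_2_2 : List (ℕ × ℤ) := [(116, 24), (143, 12)]

theorem h4_2_2 (E : Env κ ι) : inn E 1 3 c4_2 c4_2 = dotS (ek E keys) r4_2_2 :=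
  innS_eqZ E _ _ _ _ _ _ _ (chkS_sound E keys 1 3 _ _ _ _ t4_2_2_0) (by decide +kernel)

def r4_2_3 : List (ℕ × ℤ) := [(116, 12), (144, 24)]

theorem h4_2_3 (E : Env κ ι) : inn E 1 3 c4_2 c4_3 = dotS (ek E keys) r4_2_3 :=
  innS_eqZ E _ _ _ _ _ _ _ (chkS_sound E keys 1 3 _ _ _ _ t4_2_3_0) (by decide +kernel)

def r4_2_4 : List (ℕ × ℤ) := [(5, 24), (116, 12)]

theorem h4_2_4 (E : Env κ ι) : inn E 1 3 c4_2 c4_4 = dotS (ek E keys) r4_2_4 :=
  innS_eqZ E _ _ _ _ _ _ _ (chkS_sound E keys 1 3 _ _ _ _ t4_2_4_0) (by decide +kernel)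

def r4_2_5 : List (ℕ × ℤ) := [(68, 12), (69, 24)]

theorem h4_2_5 (E : Env κ ι) : inn E 1 3 c4_2 c4_5 = dotS (ek E keys) r4_2_5 :=
  innS_eqZ E _ _ _ _ _ _ _ (chkS_sound E keys 1 3 _ _ _ _ t4_2_5_0) (by decide +kernel)

def r4_2_6 : List (ℕ × ℤ) := [(69, 12), (79, 24)]

theorem h4_2_6 (E : Env κ ι) : inn E 1 3 c4_2 c4_6 = dotS (ek E keys) r4_2_6 :=
  innS_eqZ E _ _ _ _ _ _ _ (chkS_sound E keys 1 3 _ _ _ _ t4_2_6_0) (by decide +kernel)

def r4_2_7 : List (ℕ × ℤ) := [(69, 12), (92, 24)]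

theorem h4_2_7 (E : Env κ ι) : inn E 1 3 c4_2 c4_7 = dotS (ek E keys) r4_2_7 :=
  innS_eqZ E _ _ _ _ _ _ _ (chkS_sound E keys 1 3 _ _ _ _ t4_2_7_0) (by decide +kernel)

def r4_2_8 : List (ℕ × ℤ) := [(117, 24), (145, 12)]

theorem h4_2_8 (E : Env κ ι) : inn E 1 3 c4_2 c4_8 = dotS (ek E keys) r4_2_8 :=
  innS_eqZ E _ _ _ _ _ _ _ (chkS_sound E keys 1 3 _ _ _ _ t4_2_8_0) (by decide +kernel)

def r4_2_9 : List (ℕ × ℤ) := [(118, 24), (146, 12)]

theorem h4_2_9 (E : Env κ ι) : inn E 1 3 c4_2 c4_9 = dotS (ek E keys) r4_2_9 :=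
  innS_eqZ E _ _ _ _ _ _ _ (chkS_sound E keys 1 3 _ _ _ _ t4_2_9_0) (by decide +kernel)

def r4_2_10 : List (ℕ × ℤ) := [(117, 24), (147, 12)]

theorem h4_2_10 (E : Env κ ι) : inn E 1 3 c4_2 c4_10 = dotS (ek E keys) r4_2_10 :=
  innS_eqZ E _ _ _ _ _ _ _ (chkS_sound E keys 1 3 _ _ _ _ t4_2_10_0) (by decide +kernel)

def r4_2_11 : List (ℕ × ℤ) := [(148, 12), (149, 24)]

theorem h4_2_11 (E : Env κ ι) : inn E 1 3 c4_2 c4_11 = dotS (ek E keys) r4_2_11 :=
  innS_eqZ E _ _ _ _ _ _ _ (chkS_sound E keys 1 3 _ _ _ _ t4_2_11_0) (by decide +kernel)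

def r4_2_12 : List (ℕ × ℤ) := [(5, 12), (144, 12), (150, 12)]

theorem h4_2_12 (E : Env κ ι) : inn E 1 3 c4_2 c4_12 = dotS (ek E keys) r4_2_12 :=
  innS_eqZ E _ _ _ _ _ _ _ (chkS_sound E keys 1 3 _ _ _ _ t4_2_12_0) (by decide +kernel)

def r4_2_13 : List (ℕ × ℤ) := [(79, 12), (92, 12), (151, 12)]

theorem h4_2_13 (E : Env κ ι) : inn E 1 3 c4_2 c4_13 = dotS (ek E keys) r4_2_13 :=
  innS_eqZ E _ _ _ _ _ _ _ (chkS_sound E keys 1 3 _ _ _ _ t4_2_13_0) (by decide +kernel)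

def r4_3_3 : List (ℕ × ℤ) := [(111, 12), (152, 24)]

theorem h4_3_3 (E : Env κ ι) : inn E 1 3 c4_3 c4_3 = dotS (ek E keys) r4_3_3 :=
  innS_eqZ E _ _ _ _ _ _ _ (chkS_sound E keys 1 3 _ _ _ _ t4_3_3_0) (by decide +kernel)

def r4_3_4 : List (ℕ × ℤ) := [(5, 12), (153, 24)]

theorem h4_3_4 (E : Env κ ι) : inn E 1 3 c4_3 c4_4 = dotS (ek E keys) r4_3_4 :=
  innS_eqZ E _ _ _ _ _ _ _ (chkS_sound E keys 1 3 _ _ _ _ t4_3_4_0) (by decide +kernel)

def r4_3_5 : List (ℕ × ℤ) := [(54, 12), (70, 24)]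

theorem h4_3_5 (E : Env κ ι) : inn E 1 3 c4_3 c4_5 = dotS (ek E keys) r4_3_5 :=
  innS_eqZ E _ _ _ _ _ _ _ (chkS_sound E keys 1 3 _ _ _ _ t4_3_5_0) (by decide +kernel)

def r4_3_6 : List (ℕ × ℤ) := [(17, 12), (83, 24)]

theorem h4_3_6 (E : Env κ ι) : inn E 1 3 c4_3 c4_6 = dotS (ek E keys) r4_3_6 :=
  innS_eqZ E _ _ _ _ _ _ _ (chkS_sound E keys 1 3 _ _ _ _ t4_3_6_0) (by decide +kernel)

def r4_3_7 : List (ℕ × ℤ) := [(51, 12), (95, 24)]

theorem h4_3_7 (E : Env κ ι) : inn E 1 3 c4_3 c4_7 = dotS (ek E keys) r4_3_7 :=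
  innS_eqZ E _ _ _ _ _ _ _ (chkS_sound E keys 1 3 _ _ _ _ t4_3_7_0) (by decide +kernel)

def r4_3_8 : List (ℕ × ℤ) := [(67, 12), (103, 24)]

theorem h4_3_8 (E : Env κ ι) : inn E 1 3 c4_3 c4_8 = dotS (ek E keys) r4_3_8 :=
  innS_eqZ E _ _ _ _ _ _ _ (chkS_sound E keys 1 3 _ _ _ _ t4_3_8_0) (by decide +kernel)

def r4_3_9 : List (ℕ × ℤ) := [(114, 24), (118, 12)]

theorem h4_3_9 (E : Env κ ι) : inn E 1 3 c4_3 c4_9 = dotS (ek E keys) r4_3_9 :=
  innS_eqZ E _ _ _ _ _ _ _ (chkS_sound E keys 1 3 _ _ _ _ t4_3_9_0) (by decide +kernel)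

def r4_3_10 : List (ℕ × ℤ) := [(89, 24), (117, 12)]

theorem h4_3_10 (E : Env κ ι) : inn E 1 3 c4_3 c4_10 = dotS (ek E keys) r4_3_10 :=
  innS_eqZ E _ _ _ _ _ _ _ (chkS_sound E keys 1 3 _ _ _ _ t4_3_10_0) (by decide +kernel)

def r4_3_11 : List (ℕ × ℤ) := [(26, 12), (100, 24)]

theorem h4_3_11 (E : Env κ ι) : inn E 1 3 c4_3 c4_11 = dotS (ek E keys) r4_3_11 :=
  innS_eqZ E _ _ _ _ _ _ _ (chkS_sound E keys 1 3 _ _ _ _ t4_3_11_0) (by decide +kernel)

def r4_3_12 : List (ℕ × ℤ) := [(112, 12), (153, 12), (154, 12)]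

theorem h4_3_12 (E : Env κ ι) : inn E 1 3 c4_3 c4_12 = dotS (ek E keys) r4_3_12 :=
  innS_eqZ E _ _ _ _ _ _ _ (chkS_sound E keys 1 3 _ _ _ _ t4_3_12_0) (by decide +kernel)

def r4_3_13 : List (ℕ × ℤ) := [(91, 12), (96, 12), (155, 12)]

theorem h4_3_13 (E : Env κ ι) : inn E 1 3 c4_3 c4_13 = dotS (ek E keys) r4_3_13 :=
  innS_eqZ E _ _ _ _ _ _ _ (chkS_sound E keys 1 3 _ _ _ _ t4_3_13_0) (by decide +kernel)

def r4_4_4 : List (ℕ × ℤ) := [(144, 12), (156, 24)]

theorem h4_4_4 (E : Env κ ι) : inn E 1 3 c4_4 c4_4 = dotS (ek E keys) r4_4_4 :=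
  innS_eqZ E _ _ _ _ _ _ _ (chkS_sound E keys 1 3 _ _ _ _ t4_4_4_0) (by decide +kernel)

def r4_4_5 : List (ℕ × ℤ) := [(17, 24), (54, 12)]

theorem h4_4_5 (E : Env κ ι) : inn E 1 3 c4_4 c4_5 = dotS (ek E keys) r4_4_5 :=
  innS_eqZ E _ _ _ _ _ _ _ (chkS_sound E keys 1 3 _ _ _ _ t4_4_5_0) (by decide +kernel)

def r4_4_6 : List (ℕ × ℤ) := [(70, 12), (157, 24)]

theorem h4_4_6 (E : Env κ ι) : inn E 1 3 c4_4 c4_6 = dotS (ek E keys) r4_4_6 :=
  innS_eqZ E _ _ _ _ _ _ _ (chkS_sound E keys 1 3 _ _ _ _ t4_4_6_0) (by decide +kernel)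

def r4_4_7 : List (ℕ × ℤ) := [(16, 12), (155, 24)]

theorem h4_4_7 (E : Env κ ι) : inn E 1 3 c4_4 c4_7 = dotS (ek E keys) r4_4_7 :=
  innS_eqZ E _ _ _ _ _ _ _ (chkS_sound E keys 1 3 _ _ _ _ t4_4_7_0) (by decide +kernel)

def r4_4_8 : List (ℕ × ℤ) := [(158, 12), (159, 24)]

theorem h4_4_8 (E : Env κ ι) : inn E 1 3 c4_4 c4_8 = dotS (ek E keys) r4_4_8 :=
  innS_eqZ E _ _ _ _ _ _ _ (chkS_sound E keys 1 3 _ _ _ _ t4_4_8_0) (by decide +kernel)

def r4_4_9 : List (ℕ × ℤ) := [(15, 24), (118, 12)]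

theorem h4_4_9 (E : Env κ ι) : inn E 1 3 c4_4 c4_9 = dotS (ek E keys) r4_4_9 :=
  innS_eqZ E _ _ _ _ _ _ _ (chkS_sound E keys 1 3 _ _ _ _ t4_4_9_0) (by decide +kernel)

def r4_4_10 : List (ℕ × ℤ) := [(117, 12), (121, 24)]

theorem h4_4_10 (E : Env κ ι) : inn E 1 3 c4_4 c4_10 = dotS (ek E keys) r4_4_10 :=
  innS_eqZ E _ _ _ _ _ _ _ (chkS_sound E keys 1 3 _ _ _ _ t4_4_10_0) (by decide +kernel)

def r4_4_11 : List (ℕ × ℤ) := [(25, 12), (160, 24)]

theorem h4_4_11 (E : Env κ ι) : inn E 1 3 c4_4 c4_11 = dotS (ek E keys) r4_4_11 :=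
  innS_eqZ E _ _ _ _ _ _ _ (chkS_sound E keys 1 3 _ _ _ _ t4_4_11_0) (by decide +kernel)

def r4_4_12 : List (ℕ × ℤ) := [(120, 12), (152, 12), (154, 12)]

theorem h4_4_12 (E : Env κ ι) : inn E 1 3 c4_4 c4_12 = dotS (ek E keys) r4_4_12 :=
  innS_eqZ E _ _ _ _ _ _ _ (chkS_sound E keys 1 3 _ _ _ _ t4_4_12_0) (by decide +kernel)

def r4_4_13 : List (ℕ × ℤ) := [(95, 12), (96, 12), (97, 12)]

theorem h4_4_13 (E : Env κ ι) : inn E 1 3 c4_4 c4_13 = dotS (ek E keys) r4_4_13 :=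
  innS_eqZ E _ _ _ _ _ _ _ (chkS_sound E keys 1 3 _ _ _ _ t4_4_13_0) (by decide +kernel)

def r4_5_5 : List (ℕ × ℤ) := [(122, 24), (161, 12)]

theorem h4_5_5 (E : Env κ ι) : inn E 1 3 c4_5 c4_5 = dotS (ek E keys) r4_5_5 :=
  innS_eqZ E _ _ _ _ _ _ _ (chkS_sound E keys 1 3 _ _ _ _ t4_5_5_0) (by decide +kernel)

def r4_5_6 : List (ℕ × ℤ) := [(42, 12), (124, 24)]

theorem h4_5_6 (E : Env κ ι) : inn E 1 3 c4_5 c4_6 = dotS (ek E keys) r4_5_6 :=
  innS_eqZ E _ _ _ _ _ _ _ (chkS_sound E keys 1 3 _ _ _ _ t4_5_6_0) (by decide +kernel)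

def r4_5_7 : List (ℕ × ℤ) := [(42, 12), (123, 24)]

theorem h4_5_7 (E : Env κ ι) : inn E 1 3 c4_5 c4_7 = dotS (ek E keys) r4_5_7 :=
  innS_eqZ E _ _ _ _ _ _ _ (chkS_sound E keys 1 3 _ _ _ _ t4_5_7_0) (by decide +kernel)

def r4_5_8 : List (ℕ × ℤ) := [(124, 24), (162, 12)]

theorem h4_5_8 (E : Env κ ι) : inn E 1 3 c4_5 c4_8 = dotS (ek E keys) r4_5_8 :=
  innS_eqZ E _ _ _ _ _ _ _ (chkS_sound E keys 1 3 _ _ _ _ t4_5_8_0) (by decide +kernel)

def r4_5_9 : List (ℕ × ℤ) := [(42, 24), (161, 12)]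

theorem h4_5_9 (E : Env κ ι) : inn E 1 3 c4_5 c4_9 = dotS (ek E keys) r4_5_9 :=
  innS_eqZ E _ _ _ _ _ _ _ (chkS_sound E keys 1 3 _ _ _ _ t4_5_9_0) (by decide +kernel)

def r4_5_10 : List (ℕ × ℤ) := [(122, 12), (124, 24)]

theorem h4_5_10 (E : Env κ ι) : inn E 1 3 c4_5 c4_10 = dotS (ek E keys) r4_5_10 :=
  innS_eqZ E _ _ _ _ _ _ _ (chkS_sound E keys 1 3 _ _ _ _ t4_5_10_0) (by decide +kernel)

def r4_5_11 : List (ℕ × ℤ) := [(125, 12), (163, 24)]

theorem h4_5_11 (E : Env κ ι) : inn E 1 3 c4_5 c4_11 = dotS (ek E keys) r4_5_11 :=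
  innS_eqZ E _ _ _ _ _ _ _ (chkS_sound E keys 1 3 _ _ _ _ t4_5_11_0) (by decide +kernel)

def r4_5_12 : List (ℕ × ℤ) := [(17, 12), (70, 12), (73, 12)]

theorem h4_5_12 (E : Env κ ι) : inn E 1 3 c4_5 c4_12 = dotS (ek E keys) r4_5_12 :=
  innS_eqZ E _ _ _ _ _ _ _ (chkS_sound E keys 1 3 _ _ _ _ t4_5_12_0) (by decide +kernel)

def r4_5_13 : List (ℕ × ℤ) := [(123, 12), (124, 12), (164, 12)]

theorem h4_5_13 (E : Env κ ι) : inn E 1 3 c4_5 c4_13 = dotS (ek E keys) r4_5_13 :=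
  innS_eqZ E _ _ _ _ _ _ _ (chkS_sound E keys 1 3 _ _ _ _ t4_5_13_0) (by decide +kernel)

def r4_6_6 : List (ℕ × ℤ) := [(131, 24), (133, 12)]

theorem h4_6_6 (E : Env κ ι) : inn E 1 3 c4_6 c4_6 = dotS (ek E keys) r4_6_6 :=
  innS_eqZ E _ _ _ _ _ _ _ (chkS_sound E keys 1 3 _ _ _ _ t4_6_6_0) (by decide +kernel)

def r4_6_7 : List (ℕ × ℤ) := [(127, 24), (129, 12)]

theorem h4_6_7 (E : Env κ ι) : inn E 1 3 c4_6 c4_7 = dotS (ek E keys) r4_6_7 :=
  innS_eqZ E _ _ _ _ _ _ _ (chkS_sound E keys 1 3 _ _ _ _ t4_6_7_0) (by decide +kernel)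

def r4_6_8 : List (ℕ × ℤ) := [(131, 24), (165, 12)]

theorem h4_6_8 (E : Env κ ι) : inn E 1 3 c4_6 c4_8 = dotS (ek E keys) r4_6_8 :=
  innS_eqZ E _ _ _ _ _ _ _ (chkS_sound E keys 1 3 _ _ _ _ t4_6_8_0) (by decide +kernel)

def r4_6_9 : List (ℕ × ℤ) := [(42, 12), (129, 24)]

theorem h4_6_9 (E : Env κ ι) : inn E 1 3 c4_6 c4_9 = dotS (ek E keys) r4_6_9 :=
  innS_eqZ E _ _ _ _ _ _ _ (chkS_sound E keys 1 3 _ _ _ _ t4_6_9_0) (by decide +kernel)

def r4_6_10 : List (ℕ × ℤ) := [(124, 12), (166, 24)]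

theorem h4_6_10 (E : Env κ ι) : inn E 1 3 c4_6 c4_10 = dotS (ek E keys) r4_6_10 :=
  innS_eqZ E _ _ _ _ _ _ _ (chkS_sound E keys 1 3 _ _ _ _ t4_6_10_0) (by decide +kernel)

def r4_6_11 : List (ℕ × ℤ) := [(134, 12), (167, 24)]

theorem h4_6_11 (E : Env κ ι) : inn E 1 3 c4_6 c4_11 = dotS (ek E keys) r4_6_11 :=
  innS_eqZ E _ _ _ _ _ _ _ (chkS_sound E keys 1 3 _ _ _ _ t4_6_11_0) (by decide +kernel)

def r4_6_12 : List (ℕ × ℤ) := [(55, 12), (75, 12), (82, 12)]

theorem h4_6_12 (E : Env κ ι) : inn E 1 3 c4_6 c4_12 = dotS (ek E keys) r4_6_12 :=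
  innS_eqZ E _ _ _ _ _ _ _ (chkS_sound E keys 1 3 _ _ _ _ t4_6_12_0) (by decide +kernel)

def r4_6_13 : List (ℕ × ℤ) := [(132, 12), (166, 12), (168, 12)]

theorem h4_6_13 (E : Env κ ι) : inn E 1 3 c4_6 c4_13 = dotS (ek E keys) r4_6_13 :=
  innS_eqZ E _ _ _ _ _ _ _ (chkS_sound E keys 1 3 _ _ _ _ t4_6_13_0) (by decide +kernel)

def r4_7_7 : List (ℕ × ℤ) := [(126, 24), (169, 12)]

theorem h4_7_7 (E : Env κ ι) : inn E 1 3 c4_7 c4_7 = dotS (ek E keys) r4_7_7 :=
  innS_eqZ E _ _ _ _ _ _ _ (chkS_sound E keys 1 3 _ _ _ _ t4_7_7_0) (by decide +kernel)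

def r4_7_8 : List (ℕ × ℤ) := [(127, 24), (170, 12)]

theorem h4_7_8 (E : Env κ ι) : inn E 1 3 c4_7 c4_8 = dotS (ek E keys) r4_7_8 :=
  innS_eqZ E _ _ _ _ _ _ _ (chkS_sound E keys 1 3 _ _ _ _ t4_7_8_0) (by decide +kernel)

def r4_7_9 : List (ℕ × ℤ) := [(42, 12), (169, 24)]

theorem h4_7_9 (E : Env κ ι) : inn E 1 3 c4_7 c4_9 = dotS (ek E keys) r4_7_9 :=
  innS_eqZ E _ _ _ _ _ _ _ (chkS_sound E keys 1 3 _ _ _ _ t4_7_9_0) (by decide +kernel)

def r4_7_10 : List (ℕ × ℤ) := [(123, 12), (171, 24)]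

theorem h4_7_10 (E : Env κ ι) : inn E 1 3 c4_7 c4_10 = dotS (ek E keys) r4_7_10 :=
  innS_eqZ E _ _ _ _ _ _ _ (chkS_sound E keys 1 3 _ _ _ _ t4_7_10_0) (by decide +kernel)

def r4_7_11 : List (ℕ × ℤ) := [(130, 12), (172, 24)]

theorem h4_7_11 (E : Env κ ι) : inn E 1 3 c4_7 c4_11 = dotS (ek E keys) r4_7_11 :=
  innS_eqZ E _ _ _ _ _ _ _ (chkS_sound E keys 1 3 _ _ _ _ t4_7_11_0) (by decide +kernel)

def r4_7_12 : List (ℕ × ℤ) := [(52, 12), (78, 12), (96, 12)]

theorem h4_7_12 (E : Env κ ι) : inn E 1 3 c4_7 c4_12 = dotS (ek E keys) r4_7_12 :=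
  innS_eqZ E _ _ _ _ _ _ _ (chkS_sound E keys 1 3 _ _ _ _ t4_7_12_0) (by decide +kernel)

def r4_7_13 : List (ℕ × ℤ) := [(128, 12), (171, 12), (173, 12)]

theorem h4_7_13 (E : Env κ ι) : inn E 1 3 c4_7 c4_13 = dotS (ek E keys) r4_7_13 :=
  innS_eqZ E _ _ _ _ _ _ _ (chkS_sound E keys 1 3 _ _ _ _ t4_7_13_0) (by decide +kernel)

def r4_8_8 : List (ℕ × ℤ) := [(131, 24), (174, 12)]

theorem h4_8_8 (E : Env κ ι) : inn E 1 3 c4_8 c4_8 = dotS (ek E keys) r4_8_8 :=
  innS_eqZ E _ _ _ _ _ _ _ (chkS_sound E keys 1 3 _ _ _ _ t4_8_8_0) (by decide +kernel)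

def r4_8_9 : List (ℕ × ℤ) := [(136, 24), (175, 12)]

theorem h4_8_9 (E : Env κ ι) : inn E 1 3 c4_8 c4_9 = dotS (ek E keys) r4_8_9 :=
  innS_eqZ E _ _ _ _ _ _ _ (chkS_sound E keys 1 3 _ _ _ _ t4_8_9_0) (by decide +kernel)

def r4_8_10 : List (ℕ × ℤ) := [(168, 12), (176, 24)]

theorem h4_8_10 (E : Env κ ι) : inn E 1 3 c4_8 c4_10 = dotS (ek E keys) r4_8_10 :=
  innS_eqZ E _ _ _ _ _ _ _ (chkS_sound E keys 1 3 _ _ _ _ t4_8_10_0) (by decide +kernel)

def r4_8_11 : List (ℕ × ℤ) := [(167, 12), (177, 24)]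

theorem h4_8_11 (E : Env κ ι) : inn E 1 3 c4_8 c4_11 = dotS (ek E keys) r4_8_11 :=
  innS_eqZ E _ _ _ _ _ _ _ (chkS_sound E keys 1 3 _ _ _ _ t4_8_11_0) (by decide +kernel)

def r4_8_12 : List (ℕ × ℤ) := [(62, 12), (81, 12), (102, 12)]

theorem h4_8_12 (E : Env κ ι) : inn E 1 3 c4_8 c4_12 = dotS (ek E keys) r4_8_12 :=
  innS_eqZ E _ _ _ _ _ _ _ (chkS_sound E keys 1 3 _ _ _ _ t4_8_12_0) (by decide +kernel)

def r4_8_13 : List (ℕ × ℤ) := [(166, 12), (176, 12), (178, 12)]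

theorem h4_8_13 (E : Env κ ι) : inn E 1 3 c4_8 c4_13 = dotS (ek E keys) r4_8_13 :=
  innS_eqZ E _ _ _ _ _ _ _ (chkS_sound E keys 1 3 _ _ _ _ t4_8_13_0) (by decide +kernel)

def r4_9_9 : List (ℕ × ℤ) := [(39, 12), (41, 24)]

theorem h4_9_9 (E : Env κ ι) : inn E 1 3 c4_9 c4_9 = dotS (ek E keys) r4_9_9 :=
  innS_eqZ E _ _ _ _ _ _ _ (chkS_sound E keys 1 3 _ _ _ _ t4_9_9_0) (by decide +kernel)

def r4_9_10 : List (ℕ × ℤ) := [(40, 12), (136, 24)]

theorem h4_9_10 (E : Env κ ι) : inn E 1 3 c4_9 c4_10 = dotS (ek E keys) r4_9_10 :=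
  innS_eqZ E _ _ _ _ _ _ _ (chkS_sound E keys 1 3 _ _ _ _ t4_9_10_0) (by decide +kernel)

def r4_9_11 : List (ℕ × ℤ) := [(43, 12), (179, 24)]

theorem h4_9_11 (E : Env κ ι) : inn E 1 3 c4_9 c4_11 = dotS (ek E keys) r4_9_11 :=
  innS_eqZ E _ _ _ _ _ _ _ (chkS_sound E keys 1 3 _ _ _ _ t4_9_11_0) (by decide +kernel)

def r4_9_12 : List (ℕ × ℤ) := [(15, 12), (114, 12), (180, 12)]

theorem h4_9_12 (E : Env κ ι) : inn E 1 3 c4_9 c4_12 = dotS (ek E keys) r4_9_12 :=
  innS_eqZ E _ _ _ _ _ _ _ (chkS_sound E keys 1 3 _ _ _ _ t4_9_12_0) (by decide +kernel)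

def r4_9_13 : List (ℕ × ℤ) := [(129, 12), (169, 12), (181, 12)]

theorem h4_9_13 (E : Env κ ι) : inn E 1 3 c4_9 c4_13 = dotS (ek E keys) r4_9_13 :=
  innS_eqZ E _ _ _ _ _ _ _ (chkS_sound E keys 1 3 _ _ _ _ t4_9_13_0) (by decide +kernel)

def r4_10_10 : List (ℕ × ℤ) := [(135, 24), (182, 12)]

theorem h4_10_10 (E : Env κ ι) : inn E 1 3 c4_10 c4_10 = dotS (ek E keys) r4_10_10 :=
  innS_eqZ E _ _ _ _ _ _ _ (chkS_sound E keys 1 3 _ _ _ _ t4_10_10_0) (by decide +kernel)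

def r4_10_11 : List (ℕ × ℤ) := [(183, 12), (184, 24)]

theorem h4_10_11 (E : Env κ ι) : inn E 1 3 c4_10 c4_11 = dotS (ek E keys) r4_10_11 :=
  innS_eqZ E _ _ _ _ _ _ _ (chkS_sound E keys 1 3 _ _ _ _ t4_10_11_0) (by decide +kernel)

def r4_10_12 : List (ℕ × ℤ) := [(76, 12), (89, 12), (121, 12)]

theorem h4_10_12 (E : Env κ ι) : inn E 1 3 c4_10 c4_12 = dotS (ek E keys) r4_10_12 :=
  innS_eqZ E _ _ _ _ _ _ _ (chkS_sound E keys 1 3 _ _ _ _ t4_10_12_0) (by decide +kernel)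

def r4_10_13 : List (ℕ × ℤ) := [(128, 12), (171, 12), (185, 12)]

theorem h4_10_13 (E : Env κ ι) : inn E 1 3 c4_10 c4_13 = dotS (ek E keys) r4_10_13 :=
  innS_eqZ E _ _ _ _ _ _ _ (chkS_sound E keys 1 3 _ _ _ _ t4_10_13_0) (by decide +kernel)

def r4_11_11 : List (ℕ × ℤ) := [(186, 12), (187, 24)]

theorem h4_11_11 (E : Env κ ι) : inn E 1 3 c4_11 c4_11 = dotS (ek E keys) r4_11_11 :=
  innS_eqZ E _ _ _ _ _ _ _ (chkS_sound E keys 1 3 _ _ _ _ t4_11_11_0) (by decide +kernel)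

def r4_11_12 : List (ℕ × ℤ) := [(80, 12), (99, 12), (188, 12)]

theorem h4_11_12 (E : Env κ ι) : inn E 1 3 c4_11 c4_12 = dotS (ek E keys) r4_11_12 :=
  innS_eqZ E _ _ _ _ _ _ _ (chkS_sound E keys 1 3 _ _ _ _ t4_11_12_0) (by decide +kernel)

def r4_11_13 : List (ℕ × ℤ) := [(184, 12), (189, 12), (190, 12)]

theorem h4_11_13 (E : Env κ ι) : inn E 1 3 c4_11 c4_13 = dotS (ek E keys) r4_11_13 :=
  innS_eqZ E _ _ _ _ _ _ _ (chkS_sound E keys 1 3 _ _ _ _ t4_11_13_0) (by decide +kernel)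

def r4_12_12 : List (ℕ × ℤ) := [(152, 6), (153, 12), (191, 6), (192, 6), (193, 6)]

theorem h4_12_12 (E : Env κ ι) : inn E 1 3 c4_12 c4_12 = dotS (ek E keys) r4_12_12 :=
  innS_eqZ E _ _ _ _ _ _ _ (chkS_sound E keys 1 3 _ _ _ _ t4_12_12_0) (by decide +kernel)

def r4_12_13 : List (ℕ × ℤ) := [(77, 6), (78, 6), (90, 6), (95, 6), (155, 6), (194, 6)]

theorem h4_12_13 (E : Env κ ι) : inn E 1 3 c4_12 c4_13 = dotS (ek E keys) r4_12_13 :=
  innS_eqZ E _ _ _ _ _ _ _ (chkS_sound E keys 1 3 _ _ _ _ t4_12_13_0) (by decide +kernel)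

def r4_13_13 : List (ℕ × ℤ) := [(126, 6), (128, 12), (135, 6), (195, 6), (196, 6)]

theorem h4_13_13 (E : Env κ ι) : inn E 1 3 c4_13 c4_13 = dotS (ek E keys) r4_13_13 :=
  innS_eqZ E _ _ _ _ _ _ _ (chkS_sound E keys 1 3 _ _ _ _ t4_13_13_0) (by decide +kernel)

theorem row4_0 (E : Env κ ι) : RowS E 1 3 (ek E keys) c4_0 [c4_0, c4_1, c4_2, c4_3, c4_4, c4_5, c4_6, c4_7, c4_8, c4_9, c4_10, c4_11, c4_12, c4_13] [r4_0_0, r4_0_1, r4_0_2, r4_0_3, r4_0_4, r4_0_5, r4_0_6, r4_0_7, r4_0_8, r4_0_9, r4_0_10, r4_0_11, r4_0_12, r4_0_13] :=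
  rowS_cons E _ _ _ _ _ _ _ _ (h4_0_0 E) (rowS_cons E _ _ _ _ _ _ _ _ (h4_0_1 E) (rowS_cons E _ _ _ _ _ _ _ _ (h4_0_2 E) (rowS_cons E _ _ _ _ _ _ _ _ (h4_0_3 E) (rowS_cons E _ _ _ _ _ _ _ _ (h4_0_4 E) (rowS_cons E _ _ _ _ _ _ _ _ (h4_0_5 E) (rowS_cons E _ _ _ _ _ _ _ _ (h4_0_6 E) (rowS_cons E _ _ _ _ _ _ _ _ (h4_0_7 E) (rowS_cons E _ _ _ _ _ _ _ _ (h4_0_8 E) (rowS_cons E _ _ _ _ _ _ _ _ (h4_0_9 E) (rowS_cons E _ _ _ _ _ _ _ _ (h4_0_10 E) (rowS_cons E _ _ _ _ _ _ _ _ (h4_0_11 E) (rowS_cons E _ _ _ _ _ _ _ _ (h4_0_12 E) (rowS_cons E _ _ _ _ _ _ _ _ (h4_0_13 E) (rowS_nil E _ _ _ _))))))))))))))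

theorem row4_1 (E : Env κ ι) : RowS E 1 3 (ek E keys) c4_1 [c4_1, c4_2, c4_3, c4_4, c4_5, c4_6, c4_7, c4_8, c4_9, c4_10, c4_11, c4_12, c4_13] [r4_1_1, r4_1_2, r4_1_3, r4_1_4, r4_1_5, r4_1_6, r4_1_7, r4_1_8, r4_1_9, r4_1_10, r4_1_11, r4_1_12, r4_1_13] :=
  rowS_cons E _ _ _ _ _ _ _ _ (h4_1_1 E) (rowS_cons E _ _ _ _ _ _ _ _ (h4_1_2 E) (rowS_cons E _ _ _ _ _ _ _ _ (h4_1_3 E) (rowS_cons E _ _ _ _ _ _ _ _ (h4_1_4 E) (rowS_cons E _ _ _ _ _ _ _ _ (h4_1_5 E) (rowS_cons E _ _ _ _ _ _ _ _ (h4_1_6 E) (rowS_cons E _ _ _ _ _ _ _ _ (h4_1_7 E) (rowS_cons E _ _ _ _ _ _ _ _ (h4_1_8 E) (rowS_cons E _ _ _ _ _ _ _ _ (h4_1_9 E) (rowS_cons E _ _ _ _ _ _ _ _ (h4_1_10 E) (rowS_cons E _ _ _ _ _ _ _ _ (h4_1_11 E) (rowS_cons E _ _ _ _ _ _ _ _ (h4_1_12 E) (rowS_cons E _ _ _ _ _ _ _ _ (h4_1_13 E) (rowS_nil E _ _ _ _)))))))))))))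

theorem row4_2 (E : Env κ ι) : RowS E 1 3 (ek E keys) c4_2 [c4_2, c4_3, c4_4, c4_5, c4_6, c4_7, c4_8, c4_9, c4_10, c4_11, c4_12, c4_13] [r4_2_2, r4_2_3, r4_2_4, r4_2_5, r4_2_6, r4_2_7, r4_2_8, r4_2_9, r4_2_10, r4_2_11, r4_2_12, r4_2_13] :=
  rowS_cons E _ _ _ _ _ _ _ _ (h4_2_2 E) (rowS_cons E _ _ _ _ _ _ _ _ (h4_2_3 E) (rowS_cons E _ _ _ _ _ _ _ _ (h4_2_4 E) (rowS_cons E _ _ _ _ _ _ _ _ (h4_2_5 E) (rowS_cons E _ _ _ _ _ _ _ _ (h4_2_6 E) (rowS_cons E _ _ _ _ _ _ _ _ (h4_2_7 E) (rowS_cons E _ _ _ _ _ _ _ _ (h4_2_8 E) (rowS_cons E _ _ _ _ _ _ _ _ (h4_2_9 E) (rowS_cons E _ _ _ _ _ _ _ _ (h4_2_10 E) (rowS_cons E _ _ _ _ _ _ _ _ (h4_2_11 E) (rowS_cons E _ _ _ _ _ _ _ _ (h4_2_12 E) (rowS_cons E _ _ _ _ _ _ _ _ (h4_2_13 E) (rowS_nil E _ _ _ _))))))))))))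

theorem row4_3 (E : Env κ ι) : RowS E 1 3 (ek E keys) c4_3 [c4_3, c4_4, c4_5, c4_6, c4_7, c4_8, c4_9, c4_10, c4_11, c4_12, c4_13] [r4_3_3, r4_3_4, r4_3_5, r4_3_6, r4_3_7, r4_3_8, r4_3_9, r4_3_10, r4_3_11, r4_3_12, r4_3_13] :=
  rowS_cons E _ _ _ _ _ _ _ _ (h4_3_3 E) (rowS_cons E _ _ _ _ _ _ _ _ (h4_3_4 E) (rowS_cons E _ _ _ _ _ _ _ _ (h4_3_5 E) (rowS_cons E _ _ _ _ _ _ _ _ (h4_3_6 E) (rowS_cons E _ _ _ _ _ _ _ _ (h4_3_7 E) (rowS_cons E _ _ _ _ _ _ _ _ (h4_3_8 E) (rowS_cons E _ _ _ _ _ _ _ _ (h4_3_9 E) (rowS_cons E _ _ _ _ _ _ _ _ (h4_3_10 E) (rowS_cons E _ _ _ _ _ _ _ _ (h4_3_11 E) (rowS_cons E _ _ _ _ _ _ _ _ (h4_3_12 E) (rowS_cons E _ _ _ _ _ _ _ _ (h4_3_13 E) (rowS_nil E _ _ _ _)))))))))))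

theorem row4_4 (E : Env κ ι) : RowS E 1 3 (ek E keys) c4_4 [c4_4, c4_5, c4_6, c4_7, c4_8, c4_9, c4_10, c4_11, c4_12, c4_13] [r4_4_4, r4_4_5, r4_4_6, r4_4_7, r4_4_8, r4_4_9, r4_4_10, r4_4_11, r4_4_12, r4_4_13] :=
  rowS_cons E _ _ _ _ _ _ _ _ (h4_4_4 E) (rowS_cons E _ _ _ _ _ _ _ _ (h4_4_5 E) (rowS_cons E _ _ _ _ _ _ _ _ (h4_4_6 E) (rowS_cons E _ _ _ _ _ _ _ _ (h4_4_7 E) (rowS_cons E _ _ _ _ _ _ _ _ (h4_4_8 E) (rowS_cons E _ _ _ _ _ _ _ _ (h4_4_9 E) (rowS_cons E _ _ _ _ _ _ _ _ (h4_4_10 E) (rowS_cons E _ _ _ _ _ _ _ _ (h4_4_11 E) (rowS_cons E _ _ _ _ _ _ _ _ (h4_4_12 E) (rowS_cons E _ _ _ _ _ _ _ _ (h4_4_13 E) (rowS_nil E _ _ _ _))))))))))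

theorem row4_5 (E : Env κ ι) : RowS E 1 3 (ek E keys) c4_5 [c4_5, c4_6, c4_7, c4_8, c4_9, c4_10, c4_11, c4_12, c4_13] [r4_5_5, r4_5_6, r4_5_7, r4_5_8, r4_5_9, r4_5_10, r4_5_11, r4_5_12, r4_5_13] :=
  rowS_cons E _ _ _ _ _ _ _ _ (h4_5_5 E) (rowS_cons E _ _ _ _ _ _ _ _ (h4_5_6 E) (rowS_cons E _ _ _ _ _ _ _ _ (h4_5_7 E) (rowS_cons E _ _ _ _ _ _ _ _ (h4_5_8 E) (rowS_cons E _ _ _ _ _ _ _ _ (h4_5_9 E) (rowS_cons E _ _ _ _ _ _ _ _ (h4_5_10 E) (rowS_cons E _ _ _ _ _ _ _ _ (h4_5_11 E) (rowS_cons E _ _ _ _ _ _ _ _ (h4_5_12 E) (rowS_cons E _ _ _ _ _ _ _ _ (h4_5_13 E) (rowS_nil E _ _ _ _)))))))))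

theorem row4_6 (E : Env κ ι) : RowS E 1 3 (ek E keys) c4_6 [c4_6, c4_7, c4_8, c4_9, c4_10, c4_11, c4_12, c4_13] [r4_6_6, r4_6_7, r4_6_8, r4_6_9, r4_6_10, r4_6_11, r4_6_12, r4_6_13] :=
  rowS_cons E _ _ _ _ _ _ _ _ (h4_6_6 E) (rowS_cons E _ _ _ _ _ _ _ _ (h4_6_7 E) (rowS_cons E _ _ _ _ _ _ _ _ (h4_6_8 E) (rowS_cons E _ _ _ _ _ _ _ _ (h4_6_9 E) (rowS_cons E _ _ _ _ _ _ _ _ (h4_6_10 E) (rowS_cons E _ _ _ _ _ _ _ _ (h4_6_11 E) (rowS_cons E _ _ _ _ _ _ _ _ (h4_6_12 E) (rowS_cons E _ _ _ _ _ _ _ _ (h4_6_13 E) (rowS_nil E _ _ _ _))))))))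

theorem row4_7 (E : Env κ ι) : RowS E 1 3 (ek E keys) c4_7 [c4_7, c4_8, c4_9, c4_10, c4_11, c4_12, c4_13] [r4_7_7, r4_7_8, r4_7_9, r4_7_10, r4_7_11, r4_7_12, r4_7_13] :=
  rowS_cons E _ _ _ _ _ _ _ _ (h4_7_7 E) (rowS_cons E _ _ _ _ _ _ _ _ (h4_7_8 E) (rowS_cons E _ _ _ _ _ _ _ _ (h4_7_9 E) (rowS_cons E _ _ _ _ _ _ _ _ (h4_7_10 E) (rowS_cons E _ _ _ _ _ _ _ _ (h4_7_11 E) (rowS_cons E _ _ _ _ _ _ _ _ (h4_7_12 E) (rowS_cons E _ _ _ _ _ _ _ _ (h4_7_13 E) (rowS_nil E _ _ _ _)))))))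

theorem row4_8 (E : Env κ ι) : RowS E 1 3 (ek E keys) c4_8 [c4_8, c4_9, c4_10, c4_11, c4_12, c4_13] [r4_8_8, r4_8_9, r4_8_10, r4_8_11, r4_8_12, r4_8_13] :=
  rowS_cons E _ _ _ _ _ _ _ _ (h4_8_8 E) (rowS_cons E _ _ _ _ _ _ _ _ (h4_8_9 E) (rowS_cons E _ _ _ _ _ _ _ _ (h4_8_10 E) (rowS_cons E _ _ _ _ _ _ _ _ (h4_8_11 E) (rowS_cons E _ _ _ _ _ _ _ _ (h4_8_12 E) (rowS_cons E _ _ _ _ _ _ _ _ (h4_8_13 E) (rowS_nil E _ _ _ _))))))

theorem row4_9 (E : Env κ ι) : RowS E 1 3 (ek E keys) c4_9 [c4_9, c4_10, c4_11, c4_12, c4_13] [r4_9_9, r4_9_10, r4_9_11, r4_9_12, r4_9_13] :=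
  rowS_cons E _ _ _ _ _ _ _ _ (h4_9_9 E) (rowS_cons E _ _ _ _ _ _ _ _ (h4_9_10 E) (rowS_cons E _ _ _ _ _ _ _ _ (h4_9_11 E) (rowS_cons E _ _ _ _ _ _ _ _ (h4_9_12 E) (rowS_cons E _ _ _ _ _ _ _ _ (h4_9_13 E) (rowS_nil E _ _ _ _)))))

theorem row4_10 (E : Env κ ι) : RowS E 1 3 (ek E keys) c4_10 [c4_10, c4_11, c4_12, c4_13] [r4_10_10, r4_10_11, r4_10_12, r4_10_13] :=
  rowS_cons E _ _ _ _ _ _ _ _ (h4_10_10 E) (rowS_cons E _ _ _ _ _ _ _ _ (h4_10_11 E) (rowS_cons E _ _ _ _ _ _ _ _ (h4_10_12 E) (rowS_cons E _ _ _ _ _ _ _ _ (h4_10_13 E) (rowS_nil E _ _ _ _))))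

theorem row4_11 (E : Env κ ι) : RowS E 1 3 (ek E keys) c4_11 [c4_11, c4_12, c4_13] [r4_11_11, r4_11_12, r4_11_13] :=
  rowS_cons E _ _ _ _ _ _ _ _ (h4_11_11 E) (rowS_cons E _ _ _ _ _ _ _ _ (h4_11_12 E) (rowS_cons E _ _ _ _ _ _ _ _ (h4_11_13 E) (rowS_nil E _ _ _ _)))

theorem row4_12 (E : Env κ ι) : RowS E 1 3 (ek E keys) c4_12 [c4_12, c4_13] [r4_12_12, r4_12_13] :=
  rowS_cons E _ _ _ _ _ _ _ _ (h4_12_12 E) (rowS_cons E _ _ _ _ _ _ _ _ (h4_12_13 E) (rowS_nil E _ _ _ _))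

theorem row4_13 (E : Env κ ι) : RowS E 1 3 (ek E keys) c4_13 [c4_13] [r4_13_13] :=
  rowS_cons E _ _ _ _ _ _ _ _ (h4_13_13 E) (rowS_nil E _ _ _ _)

def tab4 : List (List (List (ℕ × ℤ))) := [[r4_0_0, r4_0_1, r4_0_2, r4_0_3, r4_0_4, r4_0_5, r4_0_6, r4_0_7, r4_0_8, r4_0_9, r4_0_10, r4_0_11, r4_0_12, r4_0_13], [r4_1_1, r4_1_2, r4_1_3, r4_1_4, r4_1_5, r4_1_6, r4_1_7, r4_1_8, r4_1_9, r4_1_10, r4_1_11, r4_1_12, r4_1_13], [r4_2_2, r4_2_3, r4_2_4, r4_2_5, r4_2_6, r4_2_7, r4_2_8, r4_2_9, r4_2_10, r4_2_11, r4_2_12, r4_2_13], [r4_3_3, r4_3_4, r4_3_5, r4_3_6, r4_3_7, r4_3_8, r4_3_9, r4_3_10, r4_3_11, r4_3_12, r4_3_13], [r4_4_4, r4_4_5, r4_4_6, r4_4_7, r4_4_8, r4_4_9, r4_4_10, r4_4_11, r4_4_12, r4_4_13], [r4_5_5, r4_5_6, r4_5_7, r4_5_8, r4_5_9, r4_5_10, r4_5_11, r4_5_12, r4_5_13], [r4_6_6, r4_6_7, r4_6_8, r4_6_9, r4_6_10, r4_6_11, r4_6_12, r4_6_13], [r4_7_7, r4_7_8, r4_7_9, r4_7_10, r4_7_11, r4_7_12, r4_7_13], [r4_8_8, r4_8_9, r4_8_10,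 r4_8_11, r4_8_12, r4_8_13], [r4_9_9, r4_9_10, r4_9_11, r4_9_12, r4_9_13], [r4_10_10, r4_10_11, r4_10_12, r4_10_13], [r4_11_11, r4_11_12, r4_11_13], [r4_12_12, r4_12_13], [r4_13_13]]

theorem tri4 (E : Env κ ι) : TriS E 1 3 (ek E keys) [c4_0, c4_1, c4_2, c4_3, c4_4, c4_5, c4_6, c4_7, c4_8, c4_9, c4_10, c4_11, c4_12, c4_13] tab4 := by
  refine triS_cons E _ _ _ _ _ _ _ (row4_0 E) ?_
  refine triS_cons E _ _ _ _ _ _ _ (row4_1 E) ?_
  refine triS_cons E _ _ _ _ _ _ _ (row4_2 E) ?_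
  refine triS_cons E _ _ _ _ _ _ _ (row4_3 E) ?_
  refine triS_cons E _ _ _ _ _ _ _ (row4_4 E) ?_
  refine triS_cons E _ _ _ _ _ _ _ (row4_5 E) ?_
  refine triS_cons E _ _ _ _ _ _ _ (row4_6 E) ?_
  refine triS_cons E _ _ _ _ _ _ _ (row4_7 E) ?_
  refine triS_cons E _ _ _ _ _ _ _ (row4_8 E) ?_
  refine triS_cons E _ _ _ _ _ _ _ (row4_9 E) ?_
  refine triS_cons E _ _ _ _ _ _ _ (row4_10 E) ?_
  refine triS_cons E _ _ _ _ _ _ _ (row4_11 E) ?_
  refine triS_cons E _ _ _ _ _ _ _ (row4_12 E) ?_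
  refine triS_cons E _ _ _ _ _ _ _ (row4_13 E) ?_
  exact triS_nil E _ _ _

def rows4 : List (ℕ × List ℤ) := [(1394165606400, [4194304, -4814091, 3702097, -7641884, 8133548, 1785305, 3033451, -1035309, 7398066, 350044, 3201129, -6997930, -16527027, 1959963]),
  (60420556800, [0, 4194304, -23961297, 5361631, 46497949, 1024447, -1006498, 623416, -21669299, 3954795, 8918164, 18632351, -34618666, -21825040]),
  (145852876800, [0, 0, 4194304, -333658, -9355454, -345606, -76221, -26048, 3388213, -766032, -1936877, -2858063, 7874723, 3889464]),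
  (4774809600, [0, 0, 0, 4194304, -5044368, -669133, -1005824, 330011, -1535922, -310365, -1537635, 1541890, 7393271, 360575]),
  (19189094400, [0, 0, 0, 0, 4194304, 263857, 281615, -78868, -482285, 280085, 904082, 342674, -3973518, -1106129]),
  (2081894400, [0, 0, 0, 0, 0, 4194304, 134365, -47190, 368481, 7148, 121606, -344381, -650500, 130738]),
  (2166220800, [0, 0, 0, 0, 0, 0, 4194304, -82777, 725326, -3864, 173411, -672208, -983496, 315770]),
  (2058393600, [0, 0, 0, 0, 0, 0, 0, 4194304, -260206, 2879, -56583, 240158, 325945, -118348]),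
  (3374438400, [0, 0, 0, 0, 0, 0, 0, 0, 4194304, -74451, 154816, -1506923, -1149353, 930948]),
  (2054246400, [0, 0, 0, 0, 0, 0, 0, 0, 0, 4194304, 59064, 60752, -247957, -99717]),
  (8675942400, [0, 0, 0, 0, 0, 0, 0, 0, 0, 0, 2097152, -78537, -569840, -59225]),
  (10843545600, [0, 0, 0, 0, 0, 0, 0, 0, 0, 0, 0, 2097152, 421636, -312885]),
  (18402508800, [0, 0, 0, 0, 0, 0, 0, 0, 0, 0, 0, 0, 2097152, 100341]),
  (40759378067553936998400, [0, 0, 0, 0, 0, 0, 0, 0, 0, 0, 0, 0, 0, 1]),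
  (107463011634939801600, [0, 0, 0, 1, 0, 0, 0, 0, 0, 0, 0, 1, 0, 0]),
  (492728846763298598400, [0, 0, 0, 0, 1, 0, 0, 0, 1, 0, 0, 0, 0, 0]),
  (617045561859111475200, [0, 0, 0, 0, 1, 0, 0, 0, 0, 0, 0, -1, 0, 0]),
  (42263729455715801088, [0, 0, 0, 0, 0, 0, 0, 0, 0, 1, 0, -1, 0, 0]),
  (108788009807830118400, [0, 0, 0, 0, 0, 0, 0, 0, 0, 0, 1, 1, 0, 0]),
  (53922653869669613568000, [1, 0, 0, 0, 0, 0, 0, 0, 0, 0, 0, 0, 0, 0]),
  (53922653869669613568000, [0, 1, 0, 0, 0, 0, 0, 0, 0, 0, 0, 0, 0, 0]),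
  (53922653869669613568000, [0, 0, 1, 0, 0, 0, 0, 0, 0, 0, 0, 0, 0, 0]),
  (53815190858034673766400, [0, 0, 0, 1, 0, 0, 0, 0, 0, 0, 0, 0, 0, 0]),
  (52812879461047203494400, [0, 0, 0, 0, 1, 0, 0, 0, 0, 0, 0, 0, 0, 0]),
  (53922653869669613568000, [0, 0, 0, 0, 0, 1, 0, 0, 0, 0, 0, 0, 0, 0]),
  (53922653869669613568000, [0, 0, 0, 0, 0, 0, 1, 0, 0, 0, 0, 0, 0, 0]),
  (53922653869669613568000, [0, 0, 0, 0, 0, 0, 0, 1, 0, 0, 0, 0, 0, 0]),
  (53429925022906314969600, [0, 0, 0, 0, 0, 0, 0, 0, 1, 0, 0, 0, 0, 0]),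
  (53880390140213897766912, [0, 0, 0, 0, 0, 0, 0, 0, 0, 1, 0, 0, 0, 0]),
  (53813865859861783449600, [0, 0, 0, 0, 0, 0, 0, 0, 0, 0, 1, 0, 0, 0]),
  (52874975365594253432832, [0, 0, 0, 0, 0, 0, 0, 0, 0, 0, 0, 1, 0, 0]),
  (53922653869669613568000, [0, 0, 0, 0, 0, 0, 0, 0, 0, 0, 0, 0, 1, 0]),
  (53922653869669613568000, [0, 0, 0, 0, 0, 0, 0, 0, 0, 0, 0, 0, 0, 1])]

def M4 : List (List ℤ) := [[24580343378384519587430400, -56301317821550568878899200, 43296427052003980895846400, -89372664504975528611020800, 95122728457945017325977600, 20879336143293373218816000, 35476539360618732532531200, -12108051354349491506380800, 86521186477531756442419200, 4093802650495565483212800, 37437551807139156905164800, -81841552439071752585216000, -193285378230770343503462400, 22921980448952817392025600],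
  [33427298522370289798195200, -61838933735626402995302400, 105296662627260531016089600, -85611670308594152412364800, -23445414060962889799987200, -41229000576361900601856000, 14213217684379509569433600, -110289274946927339778662400, -2694273128147978820403200, -38449530332647295672217600, 103378877318145951105638400, 204300638411828992300339200, -37371031088602713061478400],
  [56417646558249986449305600, -94817553322639511902924800, -62121736756336113009561600, 15039972854213190692659200, 34134389818653495318220800, -12524132806786482124492800, 143256968660133594520473600, -8775000266860272254054400, 4851801237625864697548800, -129684343086349091950694400, -60729657823233948905164800, 88185443228731755158630400],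
  [83308102752150374549760000, -142475690212152726941798400, -37370882877701782338662400, -65322072665872590775910400, 22480139658749576561049600, -172069708984686927167385600, -4834314067467071570227200, -62304933759142793672908800, 161524768907566723753267200, 329259665782071059993395200, -56267776309470189122764800],
  [236141998565318770233600000, 47263085244851552887910400, 63442132046313735462912000, -19934416358973518314291200, 36774858954611920869657600, 32310679745148505619558400, 128213852003917684507238400, -46234171604579259214848000, -591820640646025600047513600, -88991803618202781510451200],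
  [4618497075992938940774400, 14995294761891525934694400, -5077720145279638516838400, 33814957389932130276556800, 2314283720146627035340800, 17255687413788182733926400, -32253509862851828956876800, -87450259710809023560806400, 6651561328011574786252800],
  [12989344792662400431052800, -8837716494519724440268800, 65157961413392617579315200, 2502732134633787835084800, 26062141744122137658777600, -61416506690896069838131200, -135886733105345337690316800, 19136302452698264487936000],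
  [1608731341710189017702400, -23023013623599538818662400, -708525509757694730035200, -8563054105710612764467200, 21635164122177527040614400, 45083591861192503755264000, -7329415946949043965849600],
  [106480560191472588909312000, -3894859569983452557926400, 40777786726279474071859200, -196044016832712256422297600, -242562139277922200336486400, 101467463967775539834163200],
  [1293462796131381596774400, 7834454617134112941772800, 2713672841560687898087424, -34503313047615231599001600, -9401498434674334989619200],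
  [19758208689747064083456000, -40783336870319014587494400, -189543718638381862380441600, -8268264546022764379238400],
  [90565107414209850475806720, 238065630302398633137561600, -90660928936873535037849600],
  [462973057316216729870745600, 10106451933519020633395200],
  [36465627303269328358195200]]

def u4 : List ℤ := [294964120540614235049164800, -85687572777378356448460800, -950104045448770175515238400, -36479055778563706218086400, -1247914501831037128642560000, -3929385858576706822393036800, 49125631805946785798553600, 449250621685669882861977600, 2513615354840334372275404800, 65919986074117825752268800, 781525923514271849565388800, 1126500710042283389485056000, -64662555075551491689676800, 170558612212554114833203200, -1057437944379452162421964800, 361416557312181355681382400, -239212996307682219771494400, -698953942643742102730752000, -982098629268861031022592000, 0, 0, 1240546527817751413267660800, 0, 0, 0, -554810059254951110578176000,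 1938297226890800685039206400, 0, 0, 0, 0, 0, 0, 0, 0, 0, 0, 0, 0, 15521553553576579161292800, 94013455405609355301273600, 31043107107153158322585600, 196084184181374815123046400, 32564074098728254777049088, 0, 0, -15529467116953987448832000, -2646942598726256154687897600, -107335148638124327071334400, -989496013832685614444544000, 0, 269761675904994918732595200, 541003102334310045063168000, 0, 118706428405797246590976000, -1630640797264144052283801600, 250552033719520478625792000, 0, 275063765387433808704307200, -1964197258537722062045184000, 1038254237730381077309030400, -281344968731554677599846400, -2910745671335066404037836800, -922788727983535096133222400, -448452373063232556737740800, -448452373063232556737740800, 2481093055635502826535321600, -3388307807179371203352576000, 180479674250558288311910400, 620282432643520734948556800, -1184998721038786233302630400, 0, 0, -1049403116529708282729676800, 0, -1630640797264144052283801600,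 -2274524623660582348565299200, 60638711601114123800371200, 601641813935424168863539200, 1877450674392464949540864000, 2856787563628783597650739200, -2910745671335066404037836800, -1630640797264144052283801600, -1567729743980942178621849600, 0, 0, 0, 0, 0, -3769843033880009396715110400, 60638711601114123800371200, -675213315713642269473177600, 757646131381905490915737600, 0, 0, -467739580007329416859852800, -1202111856797765602535424000, -1067901643418433378125414400, 0, 2856787563628783597650739200, 3876594453781601370078412800, 0, -2910745671335066404037836800, -4129673015632486252017254400, 0, -4464368486888656808706048000, 1108115016683729406079795200, 802255164536886955156684800, 4978727563996200651990220800, 396927573535688249707315200, 0, 999697233025804494597120000, 3951115989384852719920742400, 0, -530063294190592496873472000, 0, -529247963549707824166502400, 4345517496483525711244492800, 119116381727530674494668800,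 0, -7101847687752307200570163200, 802607824433442079608422400, 317912178789288727385702400, -144803196819099780142694400, 1978146986440288684024627200, -387042118354221947482521600, 257403316020660506574028800, -764657522834862318214348800, 250415361723570240157286400, -158805007919117805116620800, 259621969466130324487372800, 4431068793540662566072320000, 229635629432379173855232000, 155872137511948805172633600, -736998080290752838057574400, 692990772373545508152115200, 94550281131615849212313600, 0, 0, 519557124624047770750156800, -2319424538769244122041548800, -742067204827516835943628800, 2451607660941947907604070400, 677011758698999837391667200, -170673190838330429728972800, 1719083623921603134245683200, -105300003202323267048652800, 58221614851510376370585600, -1556212117036189103408332800, -3112424234072378206816665600, -728755893878807386861977600, 1058225318744781061903564800, -2324614877803397832151449600, 6087376112087788031766528000,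 -3150731698367454480649420800, -1093000596727892585215795200, 5667407965567650485606400000, 1522611169111529651109888000, 441298307455343050435891200, 882596614910686100871782400, -1109620118509902221156352000, 83193369553674791713382400, 405779488679185563318681600, -774084236708443894965043200, 79818735936138897435033600, 781895536960711410951782400, 2072736598904616955675852800, -3826524362574052753182720000, 718969070147732862717542400, -110517817349754425183846400, -276276163483194465823948800, -392685464452716406488268800, 519243938932260648974745600, -87952991363388527590195200, 1277766722297671066911744000, -46738314839801430695116800, 2196276449044013855734579200, -4705056403985094154135142400, 1217609567613306478009958400, 65128148197456509554098176, -414039756571382779188019200, -112817981216092019875430400, 237098504276964769001472000, -489400042443828175049932800, -2066731232130138770554060800, -99219174552273172550860800,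 1086781288970518205709680640, 2173562577941036411419361280, 2856787563628783597650739200, -1087931147242482420454195200, -1087931147242482420454195200, 2777838343897300379224473600, 2777838343897300379224473600, 2777838343897300379224473600, 60638711601114123800371200, 218793763819615970149171200, 218793763819615970149171200]

theorem gr4 : eqM (gramT rows4) M4 = true := by
  decide +kernel

theorem mv4 : eqZ (mval M4 tab4) u4 = true := by
  decide +kernel

theorem nn4 (E : Env κ ι) : 0 ≤ dot (ek E keys) u4 0 :=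
  block_nonneg E _ _ _ _ _ (tri4 E) rows4 M4 gr4 u4 mv4

end

end YMLIM
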