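import Pool.Agent.YM.Eng4

set_option linter.unusedVariables false
set_option maxRecDepth 100000

open YMEng

namespace YMLIM

def keys : List Key := [
  (3, 7, [(0, [0], [0, 1]), (0, [0], [0, 1]), (0, [1], [2, 3]), (0, [1], [2, 3]), (0, [2], [4, 5]), (0, [2], [4, 5]), (3, [], [6]), (3, [], [6])]),
  (3, 7, [(0, [0], [0, 1]), (0, [0], [0, 1]), (0, [1], [2, 3]), (0, [1], [2, 3]), (0, [2], [4, 5]), (0, [2], [4, 6]), (3, [], [5]), (3, [], [6])]),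
  (3, 7, [(0, [0], [0, 1]), (0, [0], [0, 1]), (0, [1], [2, 3]), (0, [1], [2, 4]), (0, [2], [3, 5]), (0, [2], [5, 6]), (3, [], [4]), (3, [], [6])]),
  (3, 7, [(0, [0], [0, 1]), (0, [0], [0, 1]), (0, [1], [2, 3]), (0, [1], [4, 5]), (0, [2], [2, 4]), (0, [2], [3, 6]), (3, [], [5]), (3, [], [6])]),
  (3, 7, [(0, [0], [0, 1]), (0, [0], [0, 2]), (0, [1], [1, 3]), (0, [1], [4, 5]), (0, [2], [3, 6]), (0, [2], [4, 5]), (3, [], [2]), (3, [], [6])]),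
  (3, 7, [(0, [0], [0, 1]), (0, [0], [2, 3]), (0, [1], [0, 1]), (0, [1], [4, 5]), (0, [2], [2, 4]), (0, [2], [3, 6]), (3, [], [5]), (3, [], [6])]),
  (2, 7, [(0, [0], [0, 1]), (0, [0], [0, 1]), (0, [1], [2, 3]), (0, [1], [2, 3]), (1, [], [4, 5]), (1, [], [4, 5]), (3, [], [6]), (3, [], [6])]),
  (2, 7, [(0, [0], [0, 1]), (0, [0], [0, 1]), (0, [1], [2, 3]), (0, [1], [2, 3]), (1, [], [4, 5]), (1, [], [4, 6]), (3, [], [5]), (3, [], [6])]),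
  (2, 7, [(0, [0], [0, 1]), (0, [0], [0, 1]), (0, [1], [2, 3]), (0, [1], [2, 4]), (1, [], [3, 5]), (1, [], [5, 6]), (3, [], [4]), (3, [], [6])]),
  (2, 7, [(0, [0], [0, 1]), (0, [0], [0, 1]), (0, [1], [2, 3]), (0, [1], [2, 4]), (1, [], [5, 6]), (1, [], [5, 6]), (3, [], [3]), (3, [], [4])]),
  (2, 7, [(0, [0], [0, 1]), (0, [0], [0, 1]), (0, [1], [2, 3]), (0, [1], [4, 5]), (1, [], [2, 3]), (1, [], [4, 6]), (3, [], [5]), (3, [], [6])]),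
  (2, 7, [(0, [0], [0, 1]), (0, [0], [0, 1]), (0, [1], [2, 3]), (0, [1], [4, 5]), (1, [], [2, 4]), (1, [], [3, 6]), (3, [], [5]), (3, [], [6])]),
  (2, 7, [(0, [0], [0, 1]), (0, [0], [0, 2]), (0, [1], [1, 3]), (0, [1], [3, 4]), (1, [], [5, 6]), (1, [], [5, 6]), (3, [], [2]), (3, [], [4])]),
  (2, 7, [(0, [0], [0, 1]), (0, [0], [0, 2]), (0, [1], [1, 3]), (0, [1], [4, 5]), (1, [], [3, 6]), (1, [], [4, 5]), (3, [], [2]), (3, [], [6])]),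
  (2, 7, [(0, [0], [0, 1]), (0, [0], [0, 2]), (0, [1], [3, 4]), (0, [1], [5, 6]), (1, [], [1, 3]), (1, [], [5, 6]), (3, [], [2]), (3, [], [4])]),
  (2, 7, [(0, [0], [0, 1]), (0, [0], [2, 3]), (0, [1], [0, 2]), (0, [1], [1, 4]), (1, [], [5, 6]), (1, [], [5, 6]), (3, [], [3]), (3, [], [4])]),
  (2, 7, [(0, [0], [0, 1]), (0, [0], [2, 3]), (0, [1], [0, 4]), (0, [1], [1, 5]), (1, [], [2, 3]), (1, [], [4, 6]), (3, [], [5]), (3, [], [6])]),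
  (2, 7, [(0, [0], [0, 1]), (0, [0], [2, 3]), (0, [1], [0, 4]), (0, [1], [5, 6]), (1, [], [1, 2]), (1, [], [5, 6]), (3, [], [3]), (3, [], [4])]),
  (2, 6, [(0, [0], [0, 1]), (0, [0], [0, 1]), (0, [1], [2, 3]), (2, [1], [2, 3, 4]), (1, [], [4, 5]), (3, [], [5])]),
  (2, 6, [(0, [0], [0, 1]), (0, [0], [0, 1]), (0, [1], [2, 3]), (2, [1], [2, 4, 5]), (1, [], [4, 5]), (3, [], [3])]),
  (2, 6, [(0, [0], [0, 1]), (0, [0], [0, 2]), (0, [1], [1, 3]), (2, [1], [3, 4, 5]), (1, [], [4, 5]), (3, [], [2])]),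
  (2, 6, [(0, [0], [0, 1]), (0, [0], [0, 2]), (0, [1], [3, 4]), (2, [1], [3, 4, 5]), (1, [], [1, 5]), (3, [], [2])]),
  (2, 6, [(0, [0], [0, 1]), (0, [0], [2, 3]), (0, [1], [0, 2]), (2, [1], [1, 4, 5]), (1, [], [4, 5]), (3, [], [3])]),
  (2, 6, [(0, [0], [0, 1]), (0, [0], [2, 3]), (0, [1], [0, 4]), (2, [1], [1, 2, 3]), (1, [], [4, 5]), (3, [], [5])]),
  (2, 6, [(0, [0], [0, 1]), (0, [0], [2, 3]), (0, [1], [0, 4]), (2, [1], [2, 3, 4]), (1, [], [1, 5]), (3, [], [5])]),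
  (2, 6, [(0, [0], [0, 1]), (0, [0], [2, 3]), (0, [1], [0, 4]), (2, [1], [2, 3, 5]), (1, [], [1, 5]), (3, [], [4])]),
  (2, 6, [(0, [0], [0, 1]), (0, [0], [2, 3]), (0, [1], [0, 4]), (2, [1], [2, 3, 5]), (1, [], [4, 5]), (3, [], [1])]),
  (2, 6, [(0, [0], [0, 1]), (0, [0], [2, 3]), (0, [1], [4, 5]), (2, [1], [0, 1, 2]), (1, [], [3, 4]), (3, [], [5])]),
  (2, 6, [(0, [0], [0, 1]), (0, [0], [2, 3]), (0, [1], [4, 5]), (2, [1], [0, 1, 2]), (1, [], [4, 5]), (3, [], [3])]),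
  (2, 6, [(0, [0], [0, 1]), (0, [0], [2, 3]), (0, [1], [4, 5]), (2, [1], [0, 1, 4]), (1, [], [2, 3]), (3, [], [5])]),
  (2, 6, [(0, [0], [0, 1]), (0, [0], [2, 3]), (0, [1], [4, 5]), (2, [1], [0, 1, 4]), (1, [], [2, 5]), (3, [], [3])]),
  (2, 6, [(0, [0], [0, 1]), (0, [0], [2, 3]), (0, [1], [4, 5]), (2, [1], [0, 4, 5]), (1, [], [1, 2]), (3, [], [3])]),
  (2, 6, [(0, [0], [0, 1]), (0, [0], [2, 3]), (0, [1], [4, 5]), (2, [1], [0, 4, 5]), (1, [], [2, 3]), (3, [], [1])]),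
  (2, 5, [(0, [0], [0, 1]), (0, [0], [0, 1]), (2, [1], [2, 3, 4]), (2, [1], [2, 3, 4])]),
  (2, 5, [(0, [0], [0, 1]), (0, [0], [2, 3]), (2, [1], [0, 1, 4]), (2, [1], [2, 3, 4])]),
  (2, 5, [(0, [0], [0, 1]), (0, [1], [0, 2]), (2, [0], [1, 3, 4]), (2, [1], [2, 3, 4])]),
  (2, 5, [(0, [0], [0, 1]), (0, [1], [0, 2]), (2, [0], [2, 3, 4]), (2, [1], [1, 3, 4])]),
  (2, 5, [(0, [0], [0, 1]), (0, [1], [2, 3]), (2, [0], [0, 1, 4]), (2, [1], [2, 3, 4])]),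
  (2, 5, [(0, [0], [0, 1]), (0, [1], [2, 3]), (2, [0], [2, 3, 4]), (2, [1], [0, 1, 4])]),
  (1, 7, [(0, [0], [0, 1]), (0, [0], [0, 1]), (1, [], [2, 3]), (1, [], [2, 3]), (1, [], [4, 5]), (1, [], [4, 5]), (3, [], [6]), (3, [], [6])]),
  (1, 7, [(0, [0], [0, 1]), (0, [0], [0, 1]), (1, [], [2, 3]), (1, [], [2, 3]), (1, [], [4, 5]), (1, [], [4, 6]), (3, [], [5]), (3, [], [6])]),
  (1, 7, [(0, [0], [0, 1]), (0, [0], [0, 2]), (1, [], [3, 4]), (1, [], [3, 4]), (1, [], [5, 6]), (1, [], [5, 6]), (3, [], [1]), (3, [], [2])]),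
  (1, 7, [(0, [0], [0, 1]), (0, [0], [2, 3]), (1, [], [0, 1]), (1, [], [2, 4]), (1, [], [5, 6]), (1, [], [5, 6]), (3, [], [3]), (3, [], [4])]),
  (1, 6, [(0, [0], [0, 1]), (2, [0], [0, 1, 2]), (1, [], [2, 3]), (1, [], [4, 5]), (1, [], [4, 5]), (3, [], [3])]),
  (1, 6, [(0, [0], [0, 1]), (2, [0], [0, 2, 3]), (1, [], [2, 3]), (1, [], [4, 5]), (1, [], [4, 5]), (3, [], [1])]),
  (1, 5, [(2, [0], [0, 1, 2]), (2, [0], [0, 1, 2]), (1, [], [3, 4]), (1, [], [3, 4])]),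
  (2, 7, [(0, [0], [0, 1]), (0, [0], [0, 1]), (1, [], [2, 3]), (3, [], [3]), (0, [1], [4, 5]), (0, [1], [2, 4]), (1, [], [5, 6]), (3, [], [6])]),
  (2, 7, [(0, [0], [0, 1]), (0, [0], [0, 2]), (1, [], [3, 1]), (3, [], [2]), (0, [1], [4, 5]), (0, [1], [4, 6]), (1, [], [3, 5]), (3, [], [6])]),
  (2, 7, [(0, [0], [0, 1]), (0, [0], [0, 2]), (1, [], [3, 1]), (3, [], [2]), (0, [1], [4, 5]), (0, [1], [3, 4]), (1, [], [5, 6]), (3, [], [6])]),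
  (2, 7, [(0, [0], [0, 1]), (0, [0], [0, 2]), (1, [], [3, 1]), (3, [], [2]), (0, [1], [4, 5]), (0, [1], [3, 6]), (1, [], [4, 6]), (3, [], [5])]),
  (2, 7, [(0, [0], [0, 1]), (0, [0], [2, 0]), (1, [], [1, 3]), (3, [], [3]), (0, [1], [4, 5]), (0, [1], [2, 4]), (1, [], [5, 6]), (3, [], [6])]),
  (2, 7, [(0, [0], [0, 1]), (0, [0], [2, 0]), (1, [], [1, 3]), (3, [], [3]), (0, [1], [4, 5]), (0, [1], [2, 6]), (1, [], [4, 5]), (3, [], [6])]),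
  (2, 7, [(0, [0], [0, 1]), (0, [0], [2, 0]), (1, [], [1, 3]), (3, [], [3]), (0, [1], [4, 5]), (0, [1], [2, 6]), (1, [], [4, 6]), (3, [], [5])]),
  (2, 6, [(0, [0], [0, 1]), (0, [0], [2, 0]), (1, [], [1, 3]), (3, [], [3]), (0, [1], [4, 5]), (2, [1], [2, 4, 5])]),
  (2, 7, [(0, [0], [0, 1]), (0, [0], [2, 3]), (1, [], [0, 1]), (3, [], [3]), (0, [1], [4, 5]), (0, [1], [2, 6]), (1, [], [4, 5]), (3, [], [6])]),
  (2, 7, [(0, [0], [0, 1]), (0, [0], [2, 3]), (1, [], [0, 3]), (3, [], [1]), (0, [1], [4, 5]), (0, [1], [2, 6]), (1, [], [4, 6]), (3, [], [5])]),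
  (2, 7, [(0, [0], [0, 1]), (0, [0], [0, 1]), (1, [], [2, 3]), (3, [], [4]), (0, [1], [5, 6]), (0, [1], [2, 3]), (1, [], [5, 6]), (3, [], [4])]),
  (2, 7, [(0, [0], [0, 1]), (0, [0], [0, 1]), (1, [], [2, 3]), (3, [], [4]), (0, [1], [5, 6]), (0, [1], [2, 4]), (1, [], [3, 5]), (3, [], [6])]),
  (2, 7, [(0, [0], [0, 1]), (0, [0], [0, 1]), (1, [], [2, 3]), (3, [], [4]), (0, [1], [2, 5]), (0, [1], [3, 5]), (1, [], [4, 6]), (3, [], [6])]),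
  (2, 6, [(0, [0], [0, 1]), (0, [0], [0, 1]), (1, [], [2, 3]), (3, [], [4]), (0, [1], [2, 5]), (2, [1], [3, 4, 5])]),
  (2, 7, [(0, [0], [0, 1]), (0, [0], [0, 1]), (1, [], [2, 3]), (3, [], [4]), (0, [1], [2, 5]), (0, [1], [4, 6]), (1, [], [3, 5]), (3, [], [6])]),
  (2, 7, [(0, [0], [0, 1]), (0, [0], [2, 0]), (1, [], [3, 4]), (3, [], [1]), (0, [1], [5, 6]), (0, [1], [3, 4]), (1, [], [5, 6]), (3, [], [2])]),
  (2, 7, [(0, [0], [0, 1]), (0, [0], [2, 0]), (1, [], [3, 4]), (3, [], [1]), (0, [1], [5, 6]), (0, [1], [2, 3]), (1, [], [4, 5]), (3, [], [6])]),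
  (2, 7, [(0, [0], [0, 1]), (0, [0], [2, 0]), (1, [], [3, 4]), (3, [], [1]), (0, [1], [2, 5]), (0, [1], [3, 5]), (1, [], [4, 6]), (3, [], [6])]),
  (2, 7, [(0, [0], [0, 1]), (0, [0], [2, 0]), (1, [], [3, 4]), (3, [], [1]), (0, [1], [3, 5]), (0, [1], [4, 5]), (1, [], [2, 6]), (3, [], [6])]),
  (2, 7, [(0, [0], [0, 1]), (0, [0], [2, 0]), (1, [], [3, 4]), (3, [], [1]), (0, [1], [2, 3]), (0, [1], [4, 5]), (1, [], [5, 6]), (3, [], [6])]),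
  (2, 6, [(0, [0], [0, 1]), (0, [0], [2, 0]), (1, [], [3, 4]), (3, [], [1]), (0, [1], [3, 5]), (2, [1], [2, 4, 5])]),
  (2, 7, [(0, [0], [0, 1]), (0, [0], [2, 0]), (1, [], [3, 4]), (3, [], [1]), (0, [1], [2, 5]), (0, [1], [3, 6]), (1, [], [4, 6]), (3, [], [5])]),
  (2, 7, [(0, [0], [0, 1]), (0, [0], [2, 3]), (1, [], [0, 1]), (3, [], [4]), (0, [1], [5, 6]), (0, [1], [2, 3]), (1, [], [5, 6]), (3, [], [4])]),
  (2, 7, [(0, [0], [0, 1]), (0, [0], [2, 3]), (1, [], [0, 1]), (3, [], [4]), (0, [1], [5, 6]), (0, [1], [2, 3]), (1, [], [4, 5]), (3, [], [6])]),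
  (2, 7, [(0, [0], [0, 1]), (0, [0], [2, 3]), (1, [], [0, 1]), (3, [], [4]), (0, [1], [5, 6]), (0, [1], [2, 4]), (1, [], [3, 5]), (3, [], [6])]),
  (2, 7, [(0, [0], [0, 1]), (0, [0], [2, 3]), (1, [], [0, 1]), (3, [], [4]), (0, [1], [2, 5]), (0, [1], [3, 5]), (1, [], [4, 6]), (3, [], [6])]),
  (2, 6, [(0, [0], [0, 1]), (0, [0], [2, 3]), (1, [], [0, 1]), (3, [], [4]), (0, [1], [2, 5]), (2, [1], [3, 4, 5])]),
  (2, 7, [(0, [0], [0, 1]), (0, [0], [2, 3]), (1, [], [0, 1]), (3, [], [4]), (0, [1], [2, 5]), (0, [1], [4, 6]), (1, [], [3, 5]), (3, [], [6])]),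
  (2, 7, [(0, [0], [0, 1]), (0, [0], [2, 3]), (1, [], [4, 0]), (3, [], [1]), (0, [1], [5, 6]), (0, [1], [2, 3]), (1, [], [4, 5]), (3, [], [6])]),
  (2, 7, [(0, [0], [0, 1]), (0, [0], [2, 3]), (1, [], [4, 0]), (3, [], [1]), (0, [1], [5, 6]), (0, [1], [2, 4]), (1, [], [3, 5]), (3, [], [6])]),
  (2, 7, [(0, [0], [0, 1]), (0, [0], [2, 3]), (1, [], [4, 0]), (3, [], [1]), (0, [1], [2, 5]), (0, [1], [3, 5]), (1, [], [4, 6]), (3, [], [6])]),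
  (2, 7, [(0, [0], [0, 1]), (0, [0], [2, 3]), (1, [], [4, 0]), (3, [], [1]), (0, [1], [2, 5]), (0, [1], [4, 5]), (1, [], [3, 6]), (3, [], [6])]),
  (2, 7, [(0, [0], [0, 1]), (0, [0], [2, 3]), (1, [], [4, 0]), (3, [], [1]), (0, [1], [2, 5]), (0, [1], [3, 4]), (1, [], [5, 6]), (3, [], [6])]),
  (2, 7, [(0, [0], [0, 1]), (0, [0], [2, 3]), (1, [], [4, 0]), (3, [], [1]), (0, [1], [2, 3]), (0, [1], [4, 5]), (1, [], [5, 6]), (3, [], [6])]),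
  (2, 6, [(0, [0], [0, 1]), (0, [0], [2, 3]), (1, [], [4, 0]), (3, [], [1]), (0, [1], [2, 5]), (2, [1], [3, 4, 5])]),
  (2, 7, [(0, [0], [0, 1]), (0, [0], [2, 3]), (1, [], [4, 0]), (3, [], [1]), (0, [1], [2, 5]), (0, [1], [3, 6]), (1, [], [4, 5]), (3, [], [6])]),
  (2, 7, [(0, [0], [0, 1]), (0, [0], [2, 3]), (1, [], [4, 0]), (3, [], [1]), (0, [1], [2, 5]), (0, [1], [4, 6]), (1, [], [3, 5]), (3, [], [6])]),
  (2, 7, [(0, [0], [0, 1]), (0, [0], [2, 3]), (1, [], [4, 0]), (3, [], [1]), (0, [1], [2, 5]), (0, [1], [4, 6]), (1, [], [3, 6]), (3, [], [5])]),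
  (2, 7, [(0, [0], [0, 1]), (0, [0], [2, 1]), (1, [], [3, 4]), (3, [], [4]), (0, [1], [0, 5]), (0, [1], [2, 5]), (1, [], [3, 6]), (3, [], [6])]),
  (2, 7, [(0, [0], [0, 1]), (0, [0], [2, 1]), (1, [], [3, 4]), (3, [], [4]), (0, [1], [0, 5]), (0, [1], [2, 3]), (1, [], [5, 6]), (3, [], [6])]),
  (2, 7, [(0, [0], [0, 1]), (0, [0], [2, 1]), (1, [], [3, 4]), (3, [], [4]), (0, [1], [0, 2]), (0, [1], [3, 5]), (1, [], [5, 6]), (3, [], [6])]),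
  (2, 6, [(0, [0], [0, 1]), (0, [0], [2, 1]), (1, [], [3, 4]), (3, [], [4]), (0, [1], [0, 5]), (2, [1], [2, 3, 5])]),
  (2, 6, [(0, [0], [0, 1]), (0, [0], [2, 1]), (1, [], [3, 4]), (3, [], [4]), (0, [1], [3, 5]), (2, [1], [0, 2, 5])]),
  (2, 7, [(0, [0], [0, 1]), (0, [0], [2, 1]), (1, [], [3, 4]), (3, [], [4]), (0, [1], [0, 5]), (0, [1], [2, 6]), (1, [], [3, 5]), (3, [], [6])]),
  (2, 7, [(0, [0], [0, 1]), (0, [0], [2, 1]), (1, [], [3, 4]), (3, [], [4]), (0, [1], [0, 5]), (0, [1], [3, 6]), (1, [], [2, 5]), (3, [], [6])]),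
  (2, 7, [(0, [0], [0, 1]), (0, [0], [2, 1]), (1, [], [3, 4]), (3, [], [4]), (0, [1], [0, 5]), (0, [1], [3, 6]), (1, [], [2, 6]), (3, [], [5])]),
  (2, 7, [(0, [0], [0, 1]), (0, [0], [2, 3]), (1, [], [1, 4]), (3, [], [4]), (0, [1], [0, 5]), (0, [1], [2, 3]), (1, [], [5, 6]), (3, [], [6])]),
  (2, 7, [(0, [0], [0, 1]), (0, [0], [2, 3]), (1, [], [1, 4]), (3, [], [4]), (0, [1], [0, 2]), (0, [1], [3, 5]), (1, [], [5, 6]), (3, [], [6])]),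
  (2, 6, [(0, [0], [0, 1]), (0, [0], [2, 3]), (1, [], [1, 4]), (3, [], [4]), (0, [1], [2, 5]), (2, [1], [0, 3, 5])]),
  (2, 7, [(0, [0], [0, 1]), (0, [0], [2, 3]), (1, [], [1, 4]), (3, [], [4]), (0, [1], [0, 5]), (0, [1], [2, 6]), (1, [], [3, 5]), (3, [], [6])]),
  (2, 7, [(0, [0], [0, 1]), (0, [0], [2, 3]), (1, [], [1, 4]), (3, [], [4]), (0, [1], [0, 5]), (0, [1], [2, 6]), (1, [], [3, 6]), (3, [], [5])]),
  (2, 7, [(0, [0], [0, 1]), (0, [0], [2, 3]), (1, [], [1, 4]), (3, [], [4]), (0, [1], [2, 5]), (0, [1], [3, 6]), (1, [], [0, 5]), (3, [], [6])]),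
  (2, 5, [(0, [0], [0, 1]), (2, [0], [2, 3, 1]), (0, [1], [2, 4]), (2, [1], [0, 3, 4])]),
  (2, 6, [(0, [0], [0, 1]), (2, [0], [2, 3, 1]), (0, [1], [0, 4]), (0, [1], [2, 5]), (1, [], [3, 4]), (3, [], [5])]),
  (2, 6, [(0, [0], [0, 1]), (2, [0], [2, 3, 1]), (0, [1], [0, 4]), (0, [1], [2, 5]), (1, [], [3, 5]), (3, [], [4])]),
  (2, 6, [(0, [0], [0, 1]), (2, [0], [2, 3, 1]), (0, [1], [2, 4]), (0, [1], [3, 5]), (1, [], [0, 4]), (3, [], [5])]),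
  (2, 7, [(0, [0], [0, 1]), (0, [0], [2, 3]), (1, [], [4, 1]), (3, [], [3]), (0, [1], [0, 5]), (0, [1], [2, 6]), (1, [], [4, 5]), (3, [], [6])]),
  (2, 7, [(0, [0], [0, 1]), (0, [0], [2, 3]), (1, [], [4, 1]), (3, [], [3]), (0, [1], [0, 5]), (0, [1], [2, 6]), (1, [], [4, 6]), (3, [], [5])]),
  (2, 7, [(0, [0], [0, 1]), (0, [0], [2, 3]), (1, [], [4, 1]), (3, [], [3]), (0, [1], [2, 5]), (0, [1], [4, 6]), (1, [], [0, 6]), (3, [], [5])]),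
  (3, 7, [(0, [0], [0, 1]), (0, [0], [0, 1]), (0, [1], [2, 3]), (3, [], [3]), (0, [2], [4, 5]), (0, [2], [2, 4]), (0, [1], [5, 6]), (3, [], [6])]),
  (3, 7, [(0, [0], [0, 1]), (0, [0], [0, 1]), (0, [1], [2, 3]), (3, [], [3]), (0, [2], [4, 5]), (0, [2], [2, 6]), (0, [1], [4, 5]), (3, [], [6])]),
  (3, 7, [(0, [0], [0, 1]), (0, [0], [0, 2]), (0, [1], [3, 1]), (3, [], [2]), (0, [2], [4, 5]), (0, [2], [4, 6]), (0, [1], [3, 5]), (3, [], [6])]),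
  (3, 7, [(0, [0], [0, 1]), (0, [0], [0, 2]), (0, [1], [3, 1]), (3, [], [2]), (0, [2], [4, 5]), (0, [2], [3, 4]), (0, [1], [5, 6]), (3, [], [6])]),
  (3, 7, [(0, [0], [0, 1]), (0, [0], [0, 2]), (0, [1], [3, 1]), (3, [], [2]), (0, [2], [4, 5]), (0, [2], [3, 6]), (0, [1], [4, 6]), (3, [], [5])]),
  (3, 7, [(0, [0], [0, 1]), (0, [0], [2, 0]), (0, [1], [1, 3]), (3, [], [3]), (0, [2], [4, 5]), (0, [2], [2, 4]), (0, [1], [5, 6]), (3, [], [6])]),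
  (3, 7, [(0, [0], [0, 1]), (0, [0], [2, 0]), (0, [1], [1, 3]), (3, [], [3]), (0, [2], [4, 5]), (0, [2], [2, 6]), (0, [1], [4, 5]), (3, [], [6])]),
  (3, 7, [(0, [0], [0, 1]), (0, [0], [2, 0]), (0, [1], [1, 3]), (3, [], [3]), (0, [2], [4, 5]), (0, [2], [2, 6]), (0, [1], [4, 6]), (3, [], [5])]),
  (2, 7, [(0, [0], [0, 1]), (0, [0], [2, 0]), (0, [1], [1, 3]), (3, [], [3]), (0, [1], [4, 5]), (1, [], [4, 6]), (1, [], [2, 6]), (3, [], [5])]),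
  (2, 7, [(0, [0], [0, 1]), (0, [0], [2, 0]), (0, [1], [1, 3]), (3, [], [3]), (0, [1], [2, 4]), (1, [], [5, 6]), (1, [], [5, 6]), (3, [], [4])]),
  (2, 6, [(0, [0], [0, 1]), (0, [0], [2, 0]), (0, [1], [1, 3]), (3, [], [3]), (2, [1], [2, 4, 5]), (1, [], [4, 5])]),
  (3, 7, [(0, [0], [0, 1]), (0, [0], [2, 3]), (0, [1], [0, 1]), (3, [], [3]), (0, [2], [4, 5]), (0, [2], [2, 6]), (0, [1], [4, 5]), (3, [], [6])]),
  (2, 7, [(0, [0], [0, 1]), (0, [0], [2, 3]), (0, [1], [0, 1]), (3, [], [3]), (0, [1], [2, 4]), (1, [], [4, 5]), (1, [], [5, 6]), (3, [], [6])]),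
  (2, 7, [(0, [0], [0, 1]), (0, [0], [2, 3]), (0, [1], [0, 1]), (3, [], [3]), (0, [1], [2, 4]), (1, [], [5, 6]), (1, [], [5, 6]), (3, [], [4])]),
  (2, 6, [(0, [0], [0, 1]), (0, [0], [2, 3]), (0, [1], [0, 1]), (3, [], [3]), (2, [1], [2, 4, 5]), (1, [], [4, 5])]),
  (3, 7, [(0, [0], [0, 1]), (0, [0], [2, 3]), (0, [1], [0, 3]), (3, [], [1]), (0, [2], [4, 5]), (0, [2], [2, 6]), (0, [1], [4, 6]), (3, [], [5])]),
  (2, 7, [(0, [0], [0, 1]), (0, [0], [2, 3]), (0, [1], [0, 3]), (3, [], [1]), (0, [1], [2, 4]), (1, [], [4, 5]), (1, [], [5, 6]), (3, [], [6])]),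
  (1, 7, [(0, [0], [0, 1]), (1, [], [0, 1]), (1, [], [2, 3]), (3, [], [3]), (0, [0], [4, 5]), (1, [], [4, 5]), (1, [], [2, 6]), (3, [], [6])]),
  (1, 7, [(0, [0], [0, 1]), (1, [], [0, 1]), (1, [], [2, 3]), (3, [], [3]), (0, [0], [4, 5]), (1, [], [4, 6]), (1, [], [2, 5]), (3, [], [6])]),
  (1, 7, [(0, [0], [0, 1]), (1, [], [0, 1]), (1, [], [2, 3]), (3, [], [3]), (0, [0], [4, 5]), (1, [], [4, 6]), (1, [], [2, 6]), (3, [], [5])]),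
  (1, 6, [(0, [0], [0, 1]), (1, [], [0, 1]), (1, [], [2, 3]), (3, [], [3]), (2, [0], [2, 4, 5]), (1, [], [4, 5])]),
  (1, 7, [(0, [0], [0, 1]), (1, [], [0, 2]), (1, [], [3, 1]), (3, [], [2]), (0, [0], [4, 5]), (1, [], [4, 6]), (1, [], [3, 5]), (3, [], [6])]),
  (1, 7, [(0, [0], [0, 1]), (1, [], [0, 2]), (1, [], [3, 1]), (3, [], [2]), (0, [0], [4, 5]), (1, [], [4, 6]), (1, [], [3, 6]), (3, [], [5])]),
  (1, 7, [(0, [0], [0, 1]), (1, [], [0, 2]), (1, [], [3, 1]), (3, [], [2]), (0, [0], [3, 4]), (1, [], [4, 5]), (1, [], [5, 6]), (3, [], [6])]),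
  (1, 7, [(0, [0], [0, 1]), (1, [], [0, 2]), (1, [], [3, 1]), (3, [], [2]), (0, [0], [3, 4]), (1, [], [5, 6]), (1, [], [5, 6]), (3, [], [4])]),
  (1, 6, [(0, [0], [0, 1]), (1, [], [0, 2]), (1, [], [3, 1]), (3, [], [2]), (2, [0], [3, 4, 5]), (1, [], [4, 5])]),
  (1, 7, [(0, [0], [0, 1]), (1, [], [0, 2]), (1, [], [3, 2]), (3, [], [1]), (0, [0], [4, 5]), (1, [], [4, 6]), (1, [], [3, 6]), (3, [], [5])]),
  (1, 7, [(0, [0], [0, 1]), (1, [], [0, 2]), (1, [], [3, 2]), (3, [], [1]), (0, [0], [3, 4]), (1, [], [4, 5]), (1, [], [5, 6]), (3, [], [6])]),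
  (1, 7, [(0, [0], [0, 1]), (1, [], [0, 2]), (1, [], [3, 2]), (3, [], [1]), (0, [0], [3, 4]), (1, [], [5, 6]), (1, [], [5, 6]), (3, [], [4])]),
  (1, 6, [(0, [0], [0, 1]), (1, [], [0, 2]), (1, [], [3, 2]), (3, [], [1]), (2, [0], [3, 4, 5]), (1, [], [4, 5])]),
  (1, 7, [(0, [0], [0, 1]), (1, [], [1, 2]), (1, [], [2, 3]), (3, [], [3]), (0, [0], [0, 4]), (1, [], [4, 5]), (1, [], [5, 6]), (3, [], [6])]),
  (1, 7, [(0, [0], [0, 1]), (1, [], [1, 2]), (1, [], [2, 3]), (3, [], [3]), (0, [0], [0, 4]), (1, [], [5, 6]), (1, [], [5, 6]), (3, [], [4])]),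
  (1, 6, [(0, [0], [0, 1]), (1, [], [1, 2]), (1, [], [2, 3]), (3, [], [3]), (2, [0], [0, 4, 5]), (1, [], [4, 5])]),
  (1, 5, [(2, [0], [0, 1, 2]), (1, [], [1, 2]), (2, [0], [0, 3, 4]), (1, [], [3, 4])]),
  (3, 7, [(0, [0], [0, 1]), (0, [0], [0, 1]), (0, [1], [2, 3]), (3, [], [4]), (0, [2], [5, 6]), (0, [2], [2, 3]), (0, [1], [5, 6]), (3, [], [4])]),
  (3, 7, [(0, [0], [0, 1]), (0, [0], [0, 1]), (0, [1], [2, 3]), (3, [], [4]), (0, [2], [2, 5]), (0, [2], [4, 6]), (0, [1], [3, 5]), (3, [], [6])]),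
  (3, 7, [(0, [0], [0, 1]), (0, [0], [2, 0]), (0, [1], [3, 4]), (3, [], [1]), (0, [2], [5, 6]), (0, [2], [3, 4]), (0, [1], [5, 6]), (3, [], [2])]),
  (3, 7, [(0, [0], [0, 1]), (0, [0], [2, 0]), (0, [1], [3, 4]), (3, [], [1]), (0, [2], [2, 5]), (0, [2], [3, 6]), (0, [1], [4, 6]), (3, [], [5])]),
  (3, 7, [(0, [0], [0, 1]), (0, [0], [2, 3]), (0, [1], [0, 1]), (3, [], [4]), (0, [2], [5, 6]), (0, [2], [2, 3]), (0, [1], [5, 6]), (3, [], [4])]),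
  (3, 7, [(0, [0], [0, 1]), (0, [0], [2, 3]), (0, [1], [0, 1]), (3, [], [4]), (0, [2], [5, 6]), (0, [2], [2, 4]), (0, [1], [3, 5]), (3, [], [6])]),
  (2, 7, [(0, [0], [0, 1]), (0, [0], [2, 3]), (0, [1], [0, 1]), (3, [], [4]), (0, [1], [4, 5]), (1, [], [2, 6]), (1, [], [3, 6]), (3, [], [5])]),
  (2, 7, [(0, [0], [0, 1]), (0, [0], [2, 3]), (0, [1], [0, 1]), (3, [], [4]), (0, [1], [2, 3]), (1, [], [5, 6]), (1, [], [5, 6]), (3, [], [4])]),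
  (2, 7, [(0, [0], [0, 1]), (0, [0], [2, 3]), (0, [1], [0, 1]), (3, [], [4]), (0, [1], [2, 3]), (1, [], [5, 6]), (1, [], [4, 5]), (3, [], [6])]),
  (2, 6, [(0, [0], [0, 1]), (0, [0], [2, 3]), (0, [1], [0, 1]), (3, [], [4]), (2, [1], [2, 3, 5]), (1, [], [4, 5])]),
  (2, 6, [(0, [0], [0, 1]), (0, [0], [2, 3]), (0, [1], [0, 1]), (3, [], [4]), (2, [1], [2, 4, 5]), (1, [], [3, 5])]),
  (3, 7, [(0, [0], [0, 1]), (0, [0], [2, 3]), (0, [1], [0, 1]), (3, [], [4]), (0, [2], [2, 5]), (0, [2], [4, 6]), (0, [1], [3, 5]), (3, [], [6])]),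
  (2, 7, [(0, [0], [0, 1]), (0, [0], [2, 3]), (0, [1], [0, 1]), (3, [], [4]), (0, [1], [2, 5]), (1, [], [3, 5]), (1, [], [4, 6]), (3, [], [6])]),
  (3, 7, [(0, [0], [0, 1]), (0, [0], [2, 3]), (0, [1], [4, 0]), (3, [], [1]), (0, [2], [5, 6]), (0, [2], [2, 4]), (0, [1], [3, 5]), (3, [], [6])]),
  (3, 7, [(0, [0], [0, 1]), (0, [0], [2, 3]), (0, [1], [4, 0]), (3, [], [1]), (0, [2], [2, 5]), (0, [2], [3, 4]), (0, [1], [5, 6]), (3, [], [6])]),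
  (3, 7, [(0, [0], [0, 1]), (0, [0], [2, 3]), (0, [1], [4, 0]), (3, [], [1]), (0, [2], [2, 5]), (0, [2], [4, 6]), (0, [1], [3, 5]), (3, [], [6])]),
  (2, 7, [(0, [0], [0, 1]), (0, [0], [2, 3]), (0, [1], [4, 0]), (3, [], [1]), (0, [1], [2, 5]), (1, [], [3, 6]), (1, [], [4, 5]), (3, [], [6])]),
  (3, 7, [(0, [0], [0, 1]), (0, [0], [2, 3]), (0, [1], [1, 4]), (3, [], [4]), (0, [2], [0, 2]), (0, [2], [3, 5]), (0, [1], [5, 6]), (3, [], [6])]),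
  (2, 7, [(0, [0], [0, 1]), (0, [0], [2, 3]), (0, [1], [1, 4]), (3, [], [4]), (0, [1], [5, 6]), (1, [], [0, 2]), (1, [], [3, 5]), (3, [], [6])]),
  (2, 7, [(0, [0], [0, 1]), (0, [0], [2, 3]), (0, [1], [1, 4]), (3, [], [4]), (0, [1], [0, 5]), (1, [], [2, 6]), (1, [], [3, 6]), (3, [], [5])]),
  (2, 7, [(0, [0], [0, 1]), (0, [0], [2, 3]), (0, [1], [1, 4]), (3, [], [4]), (0, [1], [2, 5]), (1, [], [0, 6]), (1, [], [3, 6]), (3, [], [5])]),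
  (2, 6, [(0, [0], [0, 1]), (0, [0], [2, 3]), (0, [1], [1, 4]), (3, [], [4]), (2, [1], [0, 2, 5]), (1, [], [3, 5])]),
  (1, 7, [(0, [0], [0, 1]), (1, [], [0, 1]), (1, [], [2, 3]), (3, [], [4]), (0, [0], [5, 6]), (1, [], [5, 6]), (1, [], [2, 3]), (3, [], [4])]),
  (1, 7, [(0, [0], [0, 1]), (1, [], [0, 1]), (1, [], [2, 3]), (3, [], [4]), (0, [0], [4, 5]), (1, [], [2, 6]), (1, [], [3, 6]), (3, [], [5])]),
  (1, 6, [(0, [0], [0, 1]), (1, [], [0, 1]), (1, [], [2, 3]), (3, [], [4]), (2, [0], [2, 4, 5]), (1, [], [3, 5])]),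
  (1, 7, [(0, [0], [0, 1]), (1, [], [0, 1]), (1, [], [2, 3]), (3, [], [4]), (0, [0], [2, 5]), (1, [], [3, 5]), (1, [], [4, 6]), (3, [], [6])]),
  (1, 7, [(0, [0], [0, 1]), (1, [], [2, 0]), (1, [], [3, 4]), (3, [], [1]), (0, [0], [2, 5]), (1, [], [3, 6]), (1, [], [4, 6]), (3, [], [5])]),
  (1, 7, [(0, [0], [0, 1]), (1, [], [2, 0]), (1, [], [3, 4]), (3, [], [1]), (0, [0], [2, 3]), (1, [], [5, 6]), (1, [], [4, 5]), (3, [], [6])]),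
  (1, 6, [(0, [0], [0, 1]), (1, [], [2, 0]), (1, [], [3, 4]), (3, [], [1]), (2, [0], [2, 3, 5]), (1, [], [4, 5])]),
  (1, 7, [(0, [0], [0, 1]), (1, [], [2, 0]), (1, [], [3, 4]), (3, [], [1]), (0, [0], [3, 5]), (1, [], [2, 6]), (1, [], [4, 5]), (3, [], [6])]),
  (1, 7, [(0, [0], [0, 1]), (1, [], [1, 2]), (1, [], [3, 4]), (3, [], [2]), (0, [0], [0, 5]), (1, [], [5, 6]), (1, [], [3, 4]), (3, [], [6])]),
  (1, 7, [(0, [0], [0, 1]), (1, [], [1, 2]), (1, [], [3, 4]), (3, [], [2]), (0, [0], [0, 5]), (1, [], [3, 6]), (1, [], [4, 6]), (3, [], [5])]),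
  (1, 7, [(0, [0], [0, 1]), (1, [], [1, 2]), (1, [], [3, 4]), (3, [], [2]), (0, [0], [0, 3]), (1, [], [5, 6]), (1, [], [4, 5]), (3, [], [6])]),
  (1, 6, [(0, [0], [0, 1]), (1, [], [1, 2]), (1, [], [3, 4]), (3, [], [2]), (2, [0], [0, 3, 5]), (1, [], [4, 5])]),
  (1, 7, [(0, [0], [0, 1]), (1, [], [1, 2]), (1, [], [3, 4]), (3, [], [2]), (0, [0], [3, 5]), (1, [], [0, 6]), (1, [], [4, 5]), (3, [], [6])]),
  (1, 7, [(0, [0], [0, 1]), (1, [], [2, 3]), (1, [], [4, 3]), (3, [], [1]), (0, [0], [0, 5]), (1, [], [2, 6]), (1, [], [4, 6]), (3, [], [5])]),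
  (1, 7, [(0, [0], [0, 1]), (1, [], [2, 3]), (1, [], [4, 3]), (3, [], [1]), (0, [0], [2, 4]), (1, [], [5, 6]), (1, [], [5, 6]), (3, [], [0])]),
  (1, 7, [(0, [0], [0, 1]), (1, [], [2, 3]), (1, [], [4, 3]), (3, [], [1]), (0, [0], [0, 2]), (1, [], [5, 6]), (1, [], [4, 5]), (3, [], [6])]),
  (1, 6, [(0, [0], [0, 1]), (1, [], [2, 3]), (1, [], [4, 3]), (3, [], [1]), (2, [0], [0, 2, 5]), (1, [], [4, 5])]),
  (1, 7, [(0, [0], [0, 1]), (1, [], [2, 3]), (1, [], [4, 3]), (3, [], [1]), (0, [0], [2, 5]), (1, [], [0, 6]), (1, [], [4, 5]), (3, [], [6])]),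
  (1, 6, [(0, [0], [0, 1]), (1, [], [2, 3]), (1, [], [2, 3]), (3, [], [4]), (2, [0], [0, 4, 5]), (1, [], [1, 5])]),
  (2, 7, [(0, [0], [0, 1]), (1, [], [2, 3]), (1, [], [2, 3]), (3, [], [4]), (0, [1], [0, 5]), (0, [1], [4, 6]), (0, [0], [1, 5]), (3, [], [6])]),
  (1, 7, [(0, [0], [0, 1]), (1, [], [2, 3]), (1, [], [2, 3]), (3, [], [4]), (0, [0], [0, 5]), (1, [], [1, 5]), (1, [], [4, 6]), (3, [], [6])]),
  (1, 7, [(0, [0], [0, 1]), (1, [], [2, 3]), (1, [], [4, 2]), (3, [], [3]), (0, [0], [0, 1]), (1, [], [5, 6]), (1, [], [4, 5]), (3, [], [6])]),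
  (1, 6, [(0, [0], [0, 1]), (1, [], [2, 3]), (1, [], [4, 2]), (3, [], [3]), (2, [0], [0, 1, 5]), (1, [], [4, 5])]),
  (1, 6, [(0, [0], [0, 1]), (1, [], [2, 3]), (1, [], [4, 2]), (3, [], [3]), (2, [0], [0, 4, 5]), (1, [], [1, 5])]),
  (1, 7, [(0, [0], [0, 1]), (1, [], [2, 3]), (1, [], [4, 2]), (3, [], [3]), (0, [0], [0, 5]), (1, [], [1, 5]), (1, [], [4, 6]), (3, [], [6])]),
  (1, 5, [(2, [0], [0, 1, 2]), (1, [], [3, 2]), (2, [0], [0, 1, 4]), (1, [], [3, 4])]),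
  (1, 5, [(2, [0], [0, 1, 2]), (1, [], [3, 2]), (2, [0], [0, 3, 4]), (1, [], [1, 4])]),
  (2, 6, [(2, [0], [0, 1, 2]), (1, [], [3, 2]), (0, [1], [0, 4]), (0, [1], [1, 5]), (0, [0], [3, 4]), (3, [], [5])]),
  (1, 6, [(2, [0], [0, 1, 2]), (1, [], [3, 2]), (0, [0], [0, 4]), (1, [], [1, 5]), (1, [], [3, 4]), (3, [], [5])]),
  (1, 6, [(2, [0], [0, 1, 2]), (1, [], [3, 2]), (0, [0], [3, 4]), (1, [], [0, 4]), (1, [], [1, 5]), (3, [], [5])]),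
  (3, 7, [(0, [0], [0, 1]), (0, [0], [2, 3]), (0, [1], [4, 1]), (3, [], [3]), (0, [2], [0, 5]), (0, [2], [2, 6]), (0, [1], [4, 5]), (3, [], [6])]),
  (3, 7, [(0, [0], [0, 1]), (0, [0], [2, 3]), (0, [1], [4, 1]), (3, [], [3]), (0, [2], [0, 5]), (0, [2], [2, 6]), (0, [1], [4, 6]), (3, [], [5])]),
  (3, 7, [(0, [0], [0, 1]), (0, [0], [2, 3]), (0, [1], [4, 1]), (3, [], [3]), (0, [2], [2, 5]), (0, [2], [4, 6]), (0, [1], [0, 6]), (3, [], [5])]),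
  (2, 7, [(0, [0], [0, 1]), (0, [0], [2, 3]), (0, [1], [4, 1]), (3, [], [3]), (0, [1], [0, 5]), (1, [], [2, 6]), (1, [], [4, 5]), (3, [], [6])]),
  (1, 7, [(0, [0], [0, 1]), (1, [], [2, 1]), (1, [], [3, 4]), (3, [], [4]), (0, [0], [0, 5]), (1, [], [2, 5]), (1, [], [3, 6]), (3, [], [6])]),
  (1, 7, [(0, [0], [0, 1]), (1, [], [2, 1]), (1, [], [3, 4]), (3, [], [4]), (0, [0], [2, 5]), (1, [], [0, 5]), (1, [], [3, 6]), (3, [], [6])]),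
  (2, 7, [(0, [0], [0, 1]), (0, [1], [2, 3]), (1, [], [0, 3]), (3, [], [1]), (0, [0], [4, 5]), (0, [1], [2, 6]), (1, [], [4, 6]), (3, [], [5])]),
  (2, 6, [(0, [0], [0, 1]), (0, [1], [2, 3]), (1, [], [0, 1]), (3, [], [4]), (0, [1], [2, 5]), (2, [0], [3, 4, 5])]),
  (2, 7, [(0, [0], [0, 1]), (0, [1], [2, 3]), (1, [], [0, 1]), (3, [], [4]), (0, [0], [4, 5]), (0, [1], [2, 6]), (1, [], [3, 6]), (3, [], [5])]),
  (2, 6, [(0, [0], [0, 1]), (0, [1], [2, 3]), (1, [], [4, 0]), (3, [], [1]), (0, [1], [2, 5]), (2, [0], [3, 4, 5])]),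
  (2, 7, [(0, [0], [0, 1]), (0, [1], [2, 3]), (1, [], [4, 0]), (3, [], [1]), (0, [0], [4, 5]), (0, [1], [2, 6]), (1, [], [3, 6]), (3, [], [5])]),
  (2, 5, [(0, [0], [0, 1]), (2, [1], [2, 3, 1]), (0, [0], [0, 4]), (2, [1], [2, 3, 4])]),
  (2, 5, [(0, [0], [0, 1]), (2, [1], [2, 3, 1]), (0, [0], [2, 4]), (2, [1], [0, 3, 4])]),
  (2, 6, [(0, [0], [0, 1]), (2, [1], [2, 3, 1]), (0, [0], [0, 4]), (0, [1], [2, 5]), (1, [], [3, 4]), (3, [], [5])]),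
  (2, 6, [(0, [0], [0, 1]), (2, [1], [2, 3, 1]), (0, [0], [2, 4]), (0, [1], [3, 5]), (1, [], [0, 4]), (3, [], [5])]),
  (2, 7, [(0, [0], [0, 1]), (0, [1], [2, 3]), (1, [], [4, 1]), (3, [], [3]), (0, [0], [0, 5]), (0, [1], [2, 6]), (1, [], [4, 5]), (3, [], [6])]),
  (2, 7, [(0, [0], [0, 1]), (0, [1], [2, 3]), (1, [], [4, 1]), (3, [], [3]), (0, [0], [4, 5]), (0, [1], [2, 6]), (1, [], [0, 5]), (3, [], [6])]),
  (2, 6, [(0, [0], [0, 1]), (2, [1], [2, 3, 1]), (0, [0], [2, 4]), (0, [1], [0, 4]), (1, [], [3, 5]), (3, [], [5])]),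
  (2, 7, [(0, [0], [0, 1]), (0, [1], [2, 1]), (1, [], [3, 4]), (3, [], [4]), (0, [0], [2, 5]), (0, [1], [0, 5]), (1, [], [3, 6]), (3, [], [6])]),
  (3, 7, [(0, [0], [0, 1]), (0, [1], [2, 0]), (0, [2], [3, 4]), (3, [], [1]), (0, [0], [5, 6]), (0, [1], [3, 5]), (0, [2], [2, 4]), (3, [], [6])]),
  (2, 7, [(0, [0], [0, 1]), (1, [], [2, 1]), (3, [], [3]), (0, [1], [4, 5]), (0, [0], [0, 6]), (1, [], [2, 6]), (3, [], [3]), (0, [1], [4, 5])]),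
  (2, 7, [(0, [0], [0, 1]), (1, [], [2, 1]), (3, [], [3]), (0, [1], [4, 5]), (0, [0], [2, 6]), (1, [], [0, 6]), (3, [], [3]), (0, [1], [4, 5])]),
  (3, 7, [(0, [0], [0, 1]), (0, [1], [2, 1]), (3, [], [3]), (0, [2], [4, 5]), (0, [0], [0, 6]), (0, [1], [2, 6]), (3, [], [3]), (0, [2], [4, 5])]),
  (3, 7, [(0, [0], [0, 1]), (0, [1], [2, 1]), (3, [], [3]), (0, [2], [4, 5]), (0, [0], [2, 6]), (0, [1], [0, 6]), (3, [], [3]), (0, [2], [4, 5])]),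
  (2, 5, [(0, [0], [0, 1]), (2, [0], [2, 3, 4]), (0, [1], [0, 1]), (2, [1], [2, 3, 4])]),
  (3, 7, [(0, [0], [0, 1]), (0, [0], [2, 3]), (0, [1], [4, 5]), (3, [], [5]), (0, [2], [0, 2]), (0, [2], [1, 3]), (0, [1], [4, 6]), (3, [], [6])])]

def target : List ℤ := [105, 140, -500, 500, 400, -400, 126, 911, 800, 503, 1246, -800, -500, -800, 400, 500, 800, -400, -2046, -950, 800, -800, -800, -800, 800, 400, -400, -400, -400, 400, 400, 800, -800, 475, -400, -400, 400, 800, 400, 21, 67, 95, 134, -134, -190, 95, 0, 0, 0, 0, 0, 0, 0, 0, 0, 0, 0, 0, 0, 0, 0, 0, 0, 0, 0, 0, 0, 0, 0, 0, 0, 0, 0, 0, 0, 0, 0, 0, 0, 0, 0, 0, 0, 0, 0, 0, 0, 0, 0, 0, 0, 0, 0, 0, 0, 0, 0, 0, 0, 0, 0, 0, 0, 0, 0, 0, 0, 0, 0, 0, 0, 0, 0, 0, 0, 0, 0, 0, 0, 0, 0, 0, 0, 0, 0, 0, 0, 0, 0, 0, 0, 0, 0, 0, 0, 0, 0, 0, 0, 0, 0, 0, 0, 0, 0, 0, 0, 0, 0, 0, 0, 0, 0, 0, 0,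 0, 0, 0, 0, 0, 0, 0, 0, 0, 0, 0, 0, 0, 0, 0, 0, 0, 0, 0, 0, 0, 0, 0, 0, 0, 0, 0, 0, 0, 0, 0, 0, 0, 0, 0, 0, 0, 0, 0, 0, 0, 0, 0, 0, 0, 0, 0, 0, 0, 0, 0, 0, 0, 0, 0, 0, 0, 0, 0, 0, 0, 0]

end YMLIM
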